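import Pool.Agent.Helper30.DL.Run.C11

/-! MP_b4564f_an, all delays. Cell 11: kernel computations (generated). -/

set_option autoImplicit false
set_option maxRecDepth 100000

namespace Pool.Agent.Helper30.DL

/-- tree -/
def tr11_0A : Tr :=
(.sy (.ofNat 0)
(.sy (.negSucc 4999999999)
(.sx (.ofNat 2500000000)
(.sy (.negSucc 7499999999)
(.lf (.negSucc 819999999) 0)
(.lf (.negSucc 829999999) 0))
(.sy (.negSucc 7499999999)
(.sx (.ofNat 3750000000)
(.lf (.negSucc 149999999) 0)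
(.lf (.ofNat 260000000) 0))
(.sx (.ofNat 3750000000)
(.lf (.negSucc 179999999) 0)
(.sx (.ofNat 4375000000)
(.lf (.ofNat 160000000) 0)
(.lf (.ofNat 350000000) 0)))))
(.sx (.ofNat 2500000000)
(.sy (.negSucc 2499999999)
(.lf (.negSucc 869999999) 0)
(.lf (.negSucc 929999999) 0))
(.sx (.ofNat 3750000000)
(.sy (.negSucc 2499999999)
(.lf (.negSucc 259999999) 0)
(.lf (.negSucc 389999999) 0))
(.sy (.negSucc 2499999999)
(.sx (.ofNat 4375000000)
(.lf (.ofNat 70000000) 0)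
(.lf (.ofNat 280000000) 0))
(.lf (.ofNat 50000000) 0)))))
(.sy (.ofNat 5000000000)
(.sx (.ofNat 2500000000)
(.sy (.ofNat 2500000000)
(.lf (.negSucc 999999999) 0)
(.sx (.ofNat 1250000000)
(.lf (.negSucc 1139999999) 0)
(.lf (.negSucc 989999999) 0)))
(.sy (.ofNat 2500000000)
(.sx (.ofNat 3750000000)
(.lf (.negSucc 539999999) 0)
(.lf (.negSucc 99999999) 0))
(.sx (.ofNat 3750000000)
(.lf (.negSucc 699999999) 0)
(.lf (.negSucc 229999999) 0))))
(.sx (.ofNat 2500000000)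
(.sy (.ofNat 7500000000)
(.sx (.ofNat 1250000000)
(.lf (.negSucc 1179999999) 0)
(.lf (.negSucc 1119999999) 0))
(.sy (.ofNat 8750000000)
(.sx (.ofNat 1250000000)
(.lf (.negSucc 1219999999) 0)
(.lf (.negSucc 1219999999) 0))
(.sx (.ofNat 1250000000)
(.lf (.negSucc 1249999999) 0)
(.lf (.negSucc 1289999999) 0))))
(.sy (.ofNat 7500000000)
(.sx (.ofNat 3750000000)
(.lf (.negSucc 859999999) 0)
(.lf (.negSucc 299999999) 1))
(.sx (.ofNat 3750000000)
(.sx (.ofNat 3125000000)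
(.lf (.negSucc 1099999999) 0)
(.lf (.negSucc 869999999) 0))
(.lf (.negSucc 259999999) 1))))))

theorem run_tr11_0A : Tr.run 0 0 T11.C T11.K0 R11 (.ofNat 5000000000) tr11_0A (.ofNat 0) (.ofNat 5000000000) (.negSucc 9999999999) (.ofNat 10000000000)
    (-100000000000) 100000000000 = true := by decide +kernel

/-- tree -/
def tr11_0AA : Tr :=
(.sy (.ofNat 0)
(.sy (.negSucc 4999999999)
(.sx (.negSucc 2499999999)
(.sy (.negSucc 7499999999)
(.lf (.negSucc 1659999999) 0)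
(.lf (.negSucc 1649999999) 0))
(.sy (.negSucc 7499999999)
(.lf (.negSucc 1429999999) 0)
(.lf (.negSucc 1419999999) 0)))
(.sx (.negSucc 2499999999)
(.sy (.negSucc 2499999999)
(.lf (.negSucc 1589999999) 0)
(.lf (.negSucc 1499999999) 1))
(.sy (.negSucc 2499999999)
(.lf (.negSucc 1389999999) 0)
(.lf (.negSucc 1339999999) 0))))
(.sy (.ofNat 5000000000)
(.sy (.ofNat 2500000000)
(.sx (.negSucc 2499999999)
(.sy (.ofNat 1250000000)
(.lf (.negSucc 1389999999) 0)
(.lf (.negSucc 1309999999) 0))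
(.lf (.negSucc 1279999999) 0))
(.sx (.negSucc 2499999999)
(.sy (.ofNat 3750000000)
(.lf (.negSucc 1219999999) 0)
(.lf (.negSucc 1109999999) 0))
(.lf (.negSucc 1209999999) 0)))
(.sx (.negSucc 2499999999)
(.sy (.ofNat 7500000000)
(.sy (.ofNat 6250000000)
(.lf (.negSucc 979999999) 0)
(.lf (.negSucc 849999999) 0))
(.sy (.ofNat 8750000000)
(.lf (.negSucc 699999999) 0)
(.lf (.negSucc 529999999) 0)))
(.sy (.ofNat 7500000000)
(.sx (.negSucc 1249999999)
(.lf (.negSucc 1079999999) 0)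
(.lf (.negSucc 1149999999) 0))
(.sx (.negSucc 1249999999)
(.sy (.ofNat 8750000000)
(.lf (.negSucc 959999999) 0)
(.lf (.negSucc 879999999) 0))
(.sy (.ofNat 8750000000)
(.lf (.negSucc 1109999999) 0)
(.lf (.negSucc 1089999999) 0)))))))

theorem run_tr11_0AA : Tr.run 0 0 T11.C T11.K0 R11 (.ofNat 5000000000) tr11_0AA (.negSucc 4999999999) (.ofNat 0) (.negSucc 9999999999) (.ofNat 10000000000)
    (-100000000000) 100000000000 = true := by decide +kernel

/-- tree -/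
def tr11_0B : Tr :=
(.sy (.ofNat 0)
(.sy (.negSucc 4999999999)
(.sx (.ofNat 5554650000)
(.sy (.negSucc 7499999999)
(.sy (.negSucc 8749999999)
(.sx (.ofNat 2777325000)
(.sy (.negSucc 9374999999)
(.lf (.negSucc 1359999999) 0)
(.lf (.negSucc 1179999999) 0))
(.sy (.negSucc 9374999999)
(.lf (.negSucc 1559999999) 0)
(.lf (.negSucc 1349999999) 0)))
(.sx (.ofNat 2777325000)
(.sy (.negSucc 8124999999)
(.lf (.negSucc 1009999999) 0)
(.lf (.negSucc 849999999) 0))
(.sy (.negSucc 8124999999)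
(.lf (.negSucc 1159999999) 0)
(.lf (.negSucc 979999999) 0))))
(.sx (.ofNat 2777325000)
(.sy (.negSucc 6249999999)
(.sy (.negSucc 6874999999)
(.lf (.negSucc 709999999) 0)
(.lf (.negSucc 579999999) 0))
(.sy (.negSucc 5624999999)
(.lf (.negSucc 459999999) 0)
(.lf (.negSucc 359999999) 0)))
(.sy (.negSucc 6249999999)
(.sy (.negSucc 6874999999)
(.lf (.negSucc 819999999) 0)
(.lf (.negSucc 659999999) 0))
(.sy (.negSucc 5624999999)
(.lf (.negSucc 519999999) 0)
(.lf (.negSucc 399999999) 0)))))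
(.sy (.negSucc 9001467239)
.ou
(.sy (.negSucc 7000733619)
(.sx (.ofNat 8331975000)
(.sy (.negSucc 8001100429)
(.sx (.ofNat 6943312500)
(.lf (.negSucc 1169999999) 0)
.ou)
(.sy (.negSucc 7500917024)
(.lf (.negSucc 949999999) 0)
(.lf (.negSucc 829999999) 0)))
.ou)
(.sx (.ofNat 8331975000)
(.sy (.negSucc 6000366809)
(.sy (.negSucc 6500550214)
(.lf (.negSucc 709999999) 0)
(.lf (.negSucc 599999999) 0))
(.lf (.negSucc 449999999) 0))
(.sy (.negSucc 6000978159)
.ou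
(.sy (.negSucc 5500489079)
(.lf (.negSucc 459999999) 0)
(.lf (.negSucc 379999999) 0)))))))
(.sx (.ofNat 5554650000)
(.sy (.negSucc 2499999999)
(.sx (.ofNat 2777325000)
(.sy (.negSucc 3749999999)
(.lf (.negSucc 229999999) 0)
(.lf (.negSucc 99999999) 0))
(.sy (.negSucc 3749999999)
(.sy (.negSucc 4374999999)
(.lf (.negSucc 289999999) 0)
(.lf (.negSucc 199999999) 0))
(.lf (.negSucc 89999999) 0)))
(.sx (.ofNat 2777325000)
(.sy (.negSucc 1249999999)
(.lf (.negSucc 19999999) 0)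
(.lf (.ofNat 10000000) 0))
(.sy (.negSucc 1249999999)
(.lf (.ofNat 0) 0)
(.lf (.ofNat 30000000) 0))))
(.sy (.negSucc 2499999999)
(.sx (.ofNat 8331975000)
(.sy (.negSucc 3749999999)
(.sy (.negSucc 4374999999)
(.lf (.negSucc 299999999) 0)
(.lf (.negSucc 209999999) 0))
(.lf (.negSucc 89999999) 0))
(.sy (.negSucc 3749999999)
(.sy (.negSucc 4374999999)
(.lf (.negSucc 289999999) 0)
(.lf (.negSucc 209999999) 0))
(.lf (.negSucc 109999999) 0)))
(.sx (.ofNat 8331975000)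
(.sx (.ofNat 6943312500)
(.sy (.negSucc 1249999999)
(.lf (.ofNat 0) 0)
(.lf (.ofNat 30000000) 0))
(.sy (.negSucc 1249999999)
(.lf (.negSucc 9999999) 0)
(.lf (.ofNat 10000000) 0)))
(.sx (.ofNat 9720637500)
(.sy (.negSucc 1249999999)
(.lf (.negSucc 19999999) 0)
(.lf (.ofNat 0) 0))
(.sy (.negSucc 1249999999)
(.lf (.negSucc 39999999) 0)
(.lf (.negSucc 29999999) 0)))))))
(.sx (.ofNat 5554650000)
(.sy (.ofNat 5000000000)
(.sy (.ofNat 2500000000)
(.sx (.ofNat 2777325000)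
(.sy (.ofNat 1250000000)
(.lf (.ofNat 0) 0)
(.lf (.negSucc 59999999) 0))
(.sy (.ofNat 1250000000)
(.lf (.negSucc 9999999) 0)
(.lf (.negSucc 89999999) 0)))
(.sx (.ofNat 2777325000)
(.sy (.ofNat 3750000000)
(.lf (.negSucc 159999999) 0)
(.lf (.negSucc 299999999) 0))
(.sy (.ofNat 3750000000)
(.lf (.negSucc 219999999) 0)
(.sx (.ofNat 4165987500)
(.lf (.negSucc 369999999) 0)
(.lf (.negSucc 359999999) 0)))))
(.sy (.ofNat 7500000000)
(.sx (.ofNat 2777325000)
(.sy (.ofNat 6250000000)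
(.sx (.ofNat 1388662500)
(.lf (.negSucc 429999999) 0)
(.lf (.negSucc 519999999) 0))
(.sx (.ofNat 1388662500)
(.sy (.ofNat 6875000000)
(.lf (.negSucc 569999999) 0)
(.lf (.negSucc 679999999) 0))
(.sy (.ofNat 6875000000)
(.lf (.negSucc 669999999) 0)
(.lf (.negSucc 779999999) 0))))
(.sx (.ofNat 4165987500)
(.sy (.ofNat 6250000000)
(.sy (.ofNat 5625000000)
(.lf (.negSucc 499999999) 0)
(.lf (.negSucc 589999999) 0))
(.sy (.ofNat 6875000000)
(.lf (.negSucc 669999999) 0)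
(.lf (.negSucc 749999999) 0)))
(.sy (.ofNat 6250000000)
(.sx (.ofNat 4860318750)
(.lf (.negSucc 499999999) 0)
(.lf (.negSucc 409999999) 0))
(.sx (.ofNat 4860318750)
(.lf (.negSucc 559999999) 1)
(.lf (.negSucc 349999999) 1)))))
(.sx (.ofNat 2777325000)
(.sy (.ofNat 8750000000)
(.sx (.ofNat 1388662500)
(.sy (.ofNat 8125000000)
(.lf (.negSucc 799999999) 0)
(.lf (.negSucc 919999999) 0))
(.sy (.ofNat 8125000000)
(.lf (.negSucc 899999999) 0)
(.lf (.negSucc 1019999999) 0)))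
(.sy (.ofNat 9375000000)
(.sx (.ofNat 1388662500)
(.lf (.negSucc 1059999999) 0)
(.lf (.negSucc 1129999999) 0))
(.sx (.ofNat 1388662500)
(.lf (.negSucc 1199999999) 0)
(.lf (.negSucc 1249999999) 0))))
(.sx (.ofNat 4165987500)
(.sy (.ofNat 8750000000)
(.sx (.ofNat 3471656250)
(.sy (.ofNat 8125000000)
(.lf (.negSucc 859999999) 0)
(.lf (.negSucc 939999999) 0))
(.sy (.ofNat 8125000000)
(.lf (.negSucc 739999999) 0)
(.lf (.negSucc 759999999) 0)))
(.sx (.ofNat 3471656250)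
(.sy (.ofNat 9375000000)
(.lf (.negSucc 999999999) 0)
(.lf (.negSucc 1039999999) 0))
(.sy (.ofNat 9375000000)
(.lf (.negSucc 749999999) 0)
(.lf (.negSucc 699999999) 0))))
(.sy (.ofNat 8750000000)
(.sx (.ofNat 4860318750)
(.sy (.ofNat 8125000000)
(.lf (.negSucc 519999999) 0)
(.lf (.negSucc 449999999) 0))
(.lf (.negSucc 99999999) 1))
(.sx (.ofNat 4860318750)
(.lf (.negSucc 259999999) 1)
(.lf (.ofNat 380000000) 0)))))))
(.sy (.ofNat 9001467240)
(.sy (.ofNat 4500733620)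
(.sx (.ofNat 8331975000)
(.sy (.ofNat 2250366810)
(.sy (.ofNat 1125183405)
(.lf (.negSucc 19999999) 0)
(.lf (.negSucc 89999999) 0))
(.sx (.ofNat 6943312500)
(.sy (.ofNat 3375550215)
(.lf (.negSucc 189999999) 0)
(.lf (.negSucc 249999999) 0))
(.sy (.ofNat 3375550215)
(.lf (.negSucc 139999999) 0)
(.lf (.negSucc 109999999) 0))))
(.sy (.ofNat 2250366810)
(.sx (.ofNat 9720637500)
(.sy (.ofNat 1125183405)
(.lf (.negSucc 39999999) 0)
(.lf (.negSucc 89999999) 0))
(.sy (.ofNat 1125183405)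
(.lf (.negSucc 59999999) 0)
(.lf (.negSucc 69999999) 0)))
(.sy (.ofNat 3375550215)
(.sx (.ofNat 9720637500)
(.lf (.negSucc 59999999) 0)
(.lf (.ofNat 50000000) 0))
(.sx (.ofNat 9720637500)
(.lf (.ofNat 120000000) 1)
(.sy (.ofNat 3938141917)
(.lf (.ofNat 280000000) 0)
(.lf (.ofNat 500000000) 0))))))
(.sy (.ofNat 6751100430)
(.sx (.ofNat 8331975000)
(.sx (.ofNat 6943312500)
(.sy (.ofNat 5625917025)
(.sx (.ofNat 6248981250)
(.lf (.negSucc 299999999) 0)
(.lf (.negSucc 169999999) 0))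
(.sx (.ofNat 6248981250)
(.lf (.negSucc 199999999) 0)
(.lf (.ofNat 60000000) 0)))
(.sy (.ofNat 5625917025)
(.sy (.ofNat 5063325322)
(.lf (.ofNat 30000000) 0)
(.lf (.ofNat 180000000) 0))
(.sy (.ofNat 6188508727)
(.lf (.ofNat 390000000) 0)
(.lf (.ofNat 660000000) 0))))
(.sy (.ofNat 6000978160)
(.sy (.ofNat 5250855890)
(.sx (.ofNat 9720637500)
(.lf (.ofNat 440000000) 0)
(.sy (.ofNat 5143695566)
(.lf (.ofNat 800000000) 0)
.ou))
(.sx (.ofNat 9720637500)
(.lf (.ofNat 810000000) 0)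
.ou))
.ou))
(.sx (.ofNat 8331975000)
(.sx (.ofNat 6943312500)
(.sy (.ofNat 7876283835)
(.sx (.ofNat 6248981250)
(.lf (.ofNat 70000000) 0)
(.lf (.ofNat 490000000) 0))
(.sx (.ofNat 6248981250)
(.lf (.ofNat 540000000) 0)
(.sy (.ofNat 8001304213)
(.lf (.ofNat 820000000) 0)
.ou)))
(.sy (.ofNat 7201173792)
(.lf (.ofNat 940000000) 0)
.ou))
.ou)))
.ou)))

theorem run_tr11_0B : Tr.run 0 1 T11.C T11.K0 R11 (.ofNat 5000000000) tr11_0B (.ofNat 0) (.ofNat 11109300000) (.negSucc 9999999999) (.ofNat 10000000000)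
    (-100000000000) 100000000000 = true := by decide +kernel

/-- tree -/
def tr11_0BB : Tr :=
(.sy (.ofNat 0)
(.sy (.negSucc 4999999999)
(.sx (.negSucc 4370049999)
(.sy (.negSucc 7499999999)
(.sx (.negSucc 6555074999)
(.sy (.negSucc 7627677791)
.ou
(.lf (.ofNat 10000000) 0))
(.sy (.negSucc 8749999999)
(.sx (.negSucc 5462562499)
(.sy (.negSucc 9153213349)
.ou
(.lf (.ofNat 250000000) 0))
(.lf (.ofNat 210000000) 0))
(.sx (.negSucc 5462562499)
(.lf (.ofNat 100000000) 0)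
(.lf (.ofNat 0) 0))))
(.sy (.negSucc 6249999999)
(.sx (.negSucc 6555074999)
(.sy (.negSucc 6874999999)
(.lf (.negSucc 39999999) 0)
(.lf (.negSucc 129999999) 0))
(.sy (.negSucc 6874999999)
(.lf (.negSucc 79999999) 0)
(.lf (.negSucc 149999999) 0)))
(.sx (.negSucc 6555074999)
(.sy (.negSucc 5624999999)
(.lf (.negSucc 199999999) 0)
(.lf (.negSucc 259999999) 0))
(.sy (.negSucc 5624999999)
(.lf (.negSucc 199999999) 0)
(.lf (.negSucc 239999999) 0)))))
(.sy (.negSucc 7499999999)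
(.sx (.negSucc 2185024999)
(.sy (.negSucc 8749999999)
(.sx (.negSucc 3277537499)
(.lf (.negSucc 19999999) 0)
(.lf (.negSucc 319999999) 0))
(.lf (.negSucc 239999999) 0))
(.sy (.negSucc 8749999999)
(.lf (.negSucc 779999999) 0)
(.lf (.negSucc 619999999) 0)))
(.sx (.negSucc 2185024999)
(.sy (.negSucc 6249999999)
(.lf (.negSucc 269999999) 0)
(.lf (.negSucc 269999999) 0))
(.sy (.negSucc 6249999999)
(.lf (.negSucc 469999999) 0)
(.lf (.negSucc 339999999) 0)))))
(.sx (.negSucc 4370049999)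
(.sy (.negSucc 2499999999)
(.sx (.negSucc 6555074999)
(.sy (.negSucc 3749999999)
(.sy (.negSucc 4374999999)
(.lf (.negSucc 309999999) 0)
(.lf (.negSucc 339999999) 0))
(.sx (.negSucc 7647587499)
(.lf (.negSucc 369999999) 0)
(.lf (.negSucc 319999999) 0)))
(.sy (.negSucc 3749999999)
(.sx (.negSucc 5462562499)
(.lf (.negSucc 279999999) 0)
(.lf (.negSucc 249999999) 0))
(.lf (.negSucc 249999999) 0)))
(.sx (.negSucc 6555074999)
(.sy (.negSucc 1249999999)
(.lf (.negSucc 299999999) 0)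
(.lf (.negSucc 199999999) 0))
(.sy (.negSucc 1249999999)
(.lf (.negSucc 199999999) 0)
(.lf (.negSucc 119999999) 0))))
(.sy (.negSucc 2499999999)
(.sx (.negSucc 2185024999)
(.sy (.negSucc 3749999999)
(.lf (.negSucc 229999999) 0)
(.lf (.negSucc 179999999) 0))
(.sy (.negSucc 3749999999)
(.lf (.negSucc 219999999) 0)
(.lf (.negSucc 129999999) 0)))
(.sx (.negSucc 2185024999)
(.sy (.negSucc 1249999999)
(.lf (.negSucc 119999999) 0)
(.lf (.negSucc 69999999) 0))
(.sy (.negSucc 1249999999)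
(.lf (.negSucc 59999999) 0)
(.lf (.negSucc 19999999) 0))))))
(.sy (.ofNat 5000000000)
(.sx (.negSucc 4370049999)
(.sy (.ofNat 2500000000)
(.sy (.ofNat 1250000000)
(.lf (.negSucc 49999999) 0)
(.lf (.ofNat 70000000) 0))
(.sx (.negSucc 6555074999)
(.sy (.ofNat 3750000000)
(.lf (.ofNat 240000000) 0)
(.lf (.ofNat 380000000) 0))
(.sy (.ofNat 3750000000)
(.lf (.ofNat 120000000) 0)
(.lf (.ofNat 160000000) 0))))
(.sy (.ofNat 2500000000)
(.sx (.negSucc 2185024999)
(.sy (.ofNat 1250000000)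
(.lf (.negSucc 19999999) 0)
(.lf (.ofNat 10000000) 0))
(.lf (.negSucc 9999999) 0))
(.sx (.negSucc 2185024999)
(.sy (.ofNat 3750000000)
(.lf (.ofNat 10000000) 0)
(.lf (.negSucc 9999999) 0))
(.sy (.ofNat 3750000000)
(.lf (.negSucc 69999999) 0)
(.lf (.negSucc 159999999) 0)))))
(.sx (.negSucc 4370049999)
(.sy (.ofNat 7500000000)
(.sx (.negSucc 6555074999)
(.sy (.ofNat 6250000000)
(.lf (.ofNat 500000000) 0)
(.lf (.ofNat 600000000) 0))
(.sy (.ofNat 6250000000)
(.lf (.ofNat 180000000) 0)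
(.lf (.ofNat 160000000) 0)))
(.sx (.negSucc 6555074999)
(.sy (.ofNat 7627677792)
(.lf (.ofNat 660000000) 0)
.ou)
(.sy (.ofNat 8750000000)
(.lf (.ofNat 110000000) 0)
(.lf (.ofNat 30000000) 0))))
(.sy (.ofNat 7500000000)
(.sx (.negSucc 2185024999)
(.sy (.ofNat 6250000000)
(.lf (.negSucc 59999999) 0)
(.lf (.negSucc 149999999) 0))
(.sy (.ofNat 6250000000)
(.lf (.negSucc 279999999) 0)
(.sx (.negSucc 1092512499)
(.lf (.negSucc 359999999) 0)
(.lf (.negSucc 489999999) 0))))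
(.sx (.negSucc 2185024999)
(.sy (.ofNat 8750000000)
(.sx (.negSucc 3277537499)
(.lf (.negSucc 189999999) 0)
(.lf (.negSucc 369999999) 0))
(.sx (.negSucc 3277537499)
(.lf (.negSucc 339999999) 0)
(.lf (.negSucc 549999999) 0)))
(.sy (.ofNat 8750000000)
(.sx (.negSucc 1092512499)
(.lf (.negSucc 539999999) 0)
(.lf (.negSucc 699999999) 0))
(.sx (.negSucc 1092512499)
(.lf (.negSucc 759999999) 0)
(.lf (.negSucc 949999999) 0))))))))

theorem run_tr11_0BB : Tr.run 0 1 T11.C T11.K0 R11 (.ofNat 5000000000) tr11_0BB (.negSucc 8740099999) (.ofNat 0) (.negSucc 9999999999) (.ofNat 10000000000)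
    (-100000000000) 100000000000 = true := by decide +kernel

/-- tree -/
def tr11_0P : Tr :=
(.sy (.ofNat 1184600000)
(.sy (.negSucc 3777749999)
(.sy (.negSucc 6258924999)
(.sy (.negSucc 7499512499)
(.sy (.negSucc 8119806249)
(.lf (.negSucc 119999999) 0)
(.lf (.negSucc 49999999) 0))
(.sy (.negSucc 6879218749)
(.lf (.ofNat 10000000) 0)
(.lf (.ofNat 60000000) 0)))
(.sy (.negSucc 5018337499)
(.sy (.negSucc 5638631249)
(.lf (.ofNat 90000000) 0)
(.sx (.ofNat 5400000000)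
(.lf (.ofNat 100000000) 0)
(.lf (.ofNat 150000000) 0)))
(.sx (.ofNat 5400000000)
(.sy (.negSucc 4398043749)
(.lf (.ofNat 120000000) 0)
(.lf (.ofNat 130000000) 0))
(.sy (.negSucc 4398043749)
(.lf (.ofNat 170000000) 0)
(.lf (.ofNat 180000000) 0)))))
(.sy (.negSucc 1296574999)
(.sy (.negSucc 2537162499)
(.sx (.ofNat 5400000000)
(.sy (.negSucc 3157456249)
(.lf (.ofNat 130000000) 0)
(.lf (.ofNat 130000000) 0))
(.sy (.negSucc 3157456249)
(.lf (.ofNat 180000000) 0)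
(.sx (.ofNat 5600000000)
(.lf (.ofNat 170000000) 0)
(.lf (.ofNat 190000000) 0))))
(.sx (.ofNat 5400000000)
(.sy (.negSucc 1916868749)
(.lf (.ofNat 120000000) 0)
(.lf (.ofNat 110000000) 0))
(.sy (.negSucc 1916868749)
(.sx (.ofNat 5600000000)
(.lf (.ofNat 160000000) 0)
(.lf (.ofNat 190000000) 0))
(.sx (.ofNat 5600000000)
(.lf (.ofNat 150000000) 0)
(.lf (.ofNat 170000000) 0)))))
(.sy (.negSucc 55987499)
(.sx (.ofNat 5400000000)
(.sy (.negSucc 676281249)
(.lf (.ofNat 100000000) 0)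
(.lf (.ofNat 80000000) 0))
(.sy (.negSucc 676281249)
(.sx (.ofNat 5600000000)
(.lf (.ofNat 130000000) 0)
(.lf (.ofNat 160000000) 0))
(.sx (.ofNat 5600000000)
(.lf (.ofNat 120000000) 0)
(.lf (.ofNat 150000000) 0))))
(.sx (.ofNat 5400000000)
(.sy (.ofNat 564306250)
(.lf (.ofNat 70000000) 0)
(.lf (.ofNat 60000000) 0))
(.sy (.ofNat 564306250)
(.sx (.ofNat 5600000000)
(.lf (.ofNat 110000000) 0)
(.lf (.ofNat 140000000) 0))
(.lf (.ofNat 120000000) 0))))))
(.sy (.ofNat 6146950000)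
(.sy (.ofNat 3665775000)
(.sy (.ofNat 2425187500)
(.sx (.ofNat 5400000000)
(.sy (.ofNat 1804893750)
(.lf (.ofNat 50000000) 0)
(.lf (.ofNat 50000000) 0))
(.sy (.ofNat 1804893750)
(.lf (.ofNat 120000000) 0)
(.lf (.ofNat 120000000) 0)))
(.sx (.ofNat 5400000000)
(.lf (.ofNat 60000000) 1)
(.lf (.ofNat 150000000) 0)))
(.sy (.ofNat 4906362500)
(.sx (.ofNat 5400000000)
(.lf (.ofNat 120000000) 0)
(.lf (.ofNat 230000000) 0))
(.sx (.ofNat 5400000000)
(.lf (.ofNat 220000000) 0)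
(.lf (.ofNat 360000000) 0))))
(.sy (.ofNat 8628125000)
(.sy (.ofNat 7387537500)
(.lf (.ofNat 450000000) 1)
(.lf (.ofNat 640000000) 0))
(.sy (.ofNat 9868712500)
(.lf (.ofNat 870000000) 0)
(.lf (.ofNat 1100000000) 0)))))

theorem run_tr11_0P : Tr.run 0 2 T11.C T11.K0 R11 (.ofNat 5000000000) tr11_0P (.ofNat 5000000000) (.ofNat 5800000000) (.negSucc 8740099999) (.ofNat 11109300000)
    (-100000000000) 100000000000 = true := by decide +kernel

/-- tree -/
def tr11_0N : Tr :=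
(.sy (.ofNat 1184600000)
(.sy (.negSucc 3777749999)
(.sy (.negSucc 6258924999)
(.sx (.negSucc 6749999999)
(.sy (.negSucc 7499512499)
(.sx (.negSucc 7624999999)
(.lf (.ofNat 810000000) 0)
(.lf (.ofNat 670000000) 0))
(.sx (.negSucc 7624999999)
(.lf (.ofNat 220000000) 0)
(.lf (.ofNat 210000000) 0)))
(.sy (.negSucc 7499512499)
(.sx (.negSucc 5874999999)
(.lf (.ofNat 560000000) 0)
(.lf (.ofNat 480000000) 0))
(.sx (.negSucc 5874999999)
(.lf (.ofNat 220000000) 0)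
(.lf (.ofNat 210000000) 0))))
(.sx (.negSucc 6749999999)
(.sy (.negSucc 5018337499)
(.sx (.negSucc 7624999999)
(.lf (.negSucc 149999999) 0)
(.lf (.negSucc 79999999) 0))
(.sx (.negSucc 7624999999)
(.sy (.negSucc 4398043749)
(.lf (.negSucc 339999999) 0)
(.lf (.negSucc 449999999) 0))
(.sy (.negSucc 4398043749)
(.lf (.negSucc 249999999) 0)
(.lf (.negSucc 339999999) 0))))
(.sy (.negSucc 5018337499)
(.sx (.negSucc 5874999999)
(.lf (.negSucc 29999999) 0)
(.sy (.negSucc 5638631249)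
(.lf (.ofNat 60000000) 0)
(.lf (.negSucc 19999999) 0)))
(.sx (.negSucc 5874999999)
(.sy (.negSucc 4398043749)
(.lf (.negSucc 169999999) 0)
(.lf (.negSucc 249999999) 0))
(.sy (.negSucc 4398043749)
(.lf (.negSucc 99999999) 0)
(.lf (.negSucc 159999999) 0))))))
(.sx (.negSucc 6749999999)
(.sy (.negSucc 1296574999)
(.sx (.negSucc 7624999999)
(.sy (.negSucc 2537162499)
(.sy (.negSucc 3157456249)
(.lf (.negSucc 549999999) 0)
(.lf (.negSucc 629999999) 0))
(.sx (.negSucc 8062499999)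
(.sy (.negSucc 1916868749)
(.lf (.negSucc 729999999) 0)
(.lf (.negSucc 789999999) 0))
(.lf (.negSucc 689999999) 0)))
(.sy (.negSucc 2537162499)
(.sy (.negSucc 3157456249)
(.lf (.negSucc 419999999) 0)
(.sx (.negSucc 7187499999)
(.lf (.negSucc 529999999) 0)
(.lf (.negSucc 459999999) 0)))
(.sx (.negSucc 7187499999)
(.sy (.negSucc 1916868749)
(.lf (.negSucc 589999999) 0)
(.lf (.negSucc 639999999) 0))
(.sy (.negSucc 1916868749)
(.lf (.negSucc 519999999) 0)
(.lf (.negSucc 569999999) 0)))))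
(.sx (.negSucc 7624999999)
(.sy (.negSucc 55987499)
(.sx (.negSucc 8062499999)
(.sy (.negSucc 676281249)
(.lf (.negSucc 849999999) 0)
(.lf (.negSucc 889999999) 0))
(.sy (.negSucc 676281249)
(.lf (.negSucc 769999999) 0)
(.lf (.negSucc 809999999) 0)))
(.sx (.negSucc 8062499999)
(.sy (.ofNat 564306250)
(.lf (.negSucc 929999999) 0)
(.lf (.negSucc 969999999) 0))
(.lf (.negSucc 869999999) 0)))
(.sy (.negSucc 55987499)
(.sx (.negSucc 7187499999)
(.sy (.negSucc 676281249)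
(.lf (.negSucc 689999999) 0)
(.lf (.negSucc 729999999) 0))
(.lf (.negSucc 639999999) 0))
(.sx (.negSucc 7187499999)
(.lf (.negSucc 779999999) 0)
(.lf (.negSucc 699999999) 0)))))
(.sy (.negSucc 1296574999)
(.sx (.negSucc 5874999999)
(.sy (.negSucc 2537162499)
(.sy (.negSucc 3157456249)
(.sx (.negSucc 6312499999)
(.lf (.negSucc 339999999) 0)
(.lf (.negSucc 289999999) 0))
(.sx (.negSucc 6312499999)
(.lf (.negSucc 399999999) 0)
(.lf (.negSucc 349999999) 0)))
(.sx (.negSucc 6312499999)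
(.sy (.negSucc 1916868749)
(.lf (.negSucc 459999999) 0)
(.lf (.negSucc 499999999) 0))
(.sy (.negSucc 1916868749)
(.lf (.negSucc 399999999) 0)
(.lf (.negSucc 439999999) 0))))
(.sy (.negSucc 2537162499)
(.sx (.negSucc 5437499999)
(.sy (.negSucc 3157456249)
(.lf (.negSucc 239999999) 0)
(.lf (.negSucc 289999999) 0))
(.sy (.negSucc 3157456249)
(.lf (.negSucc 199999999) 0)
(.lf (.negSucc 239999999) 0)))
(.sx (.negSucc 5437499999)
(.sy (.negSucc 1916868749)
(.lf (.negSucc 339999999) 0)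
(.lf (.negSucc 379999999) 0))
(.sy (.negSucc 1916868749)
(.lf (.negSucc 279999999) 0)
(.lf (.negSucc 319999999) 0)))))
(.sx (.negSucc 5874999999)
(.sy (.negSucc 55987499)
(.sx (.negSucc 6312499999)
(.lf (.negSucc 559999999) 1)
(.sy (.negSucc 676281249)
(.lf (.negSucc 479999999) 0)
(.lf (.negSucc 509999999) 0)))
(.sx (.negSucc 6312499999)
(.lf (.negSucc 619999999) 0)
(.lf (.negSucc 549999999) 0)))
(.sy (.negSucc 55987499)
(.sx (.negSucc 5437499999)
(.sy (.negSucc 676281249)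
(.lf (.negSucc 409999999) 0)
(.lf (.negSucc 439999999) 0))
(.sy (.negSucc 676281249)
(.lf (.negSucc 349999999) 0)
(.lf (.negSucc 379999999) 0)))
(.sx (.negSucc 5437499999)
(.lf (.negSucc 479999999) 0)
(.sx (.negSucc 5218749999)
(.lf (.negSucc 419999999) 0)
(.lf (.negSucc 389999999) 0))))))))
(.sy (.ofNat 6146950000)
(.sx (.negSucc 6749999999)
(.sy (.ofNat 3665775000)
(.sx (.negSucc 7624999999)
(.sy (.ofNat 2425187500)
(.sx (.negSucc 8062499999)
(.sx (.negSucc 8281249999)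
(.lf (.negSucc 1029999999) 0)
(.lf (.negSucc 979999999) 0))
(.lf (.negSucc 919999999) 0))
(.sx (.negSucc 8062499999)
(.lf (.negSucc 1039999999) 0)
(.lf (.negSucc 949999999) 0)))
(.sy (.ofNat 2425187500)
(.sx (.negSucc 7187499999)
(.lf (.negSucc 829999999) 0)
(.lf (.negSucc 749999999) 0))
(.sx (.negSucc 7187499999)
(.lf (.negSucc 859999999) 0)
(.lf (.negSucc 769999999) 0))))
(.sx (.negSucc 7624999999)
(.sx (.negSucc 8062499999)
(.sy (.ofNat 4906362500)
(.lf (.negSucc 1049999999) 0)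
(.lf (.negSucc 1049999999) 0))
(.sy (.ofNat 4906362500)
(.lf (.negSucc 959999999) 0)
(.lf (.negSucc 959999999) 0)))
(.sx (.negSucc 7187499999)
(.sy (.ofNat 4906362500)
(.lf (.negSucc 869999999) 0)
(.lf (.negSucc 869999999) 0))
(.sy (.ofNat 4906362500)
(.lf (.negSucc 779999999) 0)
(.lf (.negSucc 779999999) 0)))))
(.sy (.ofNat 3665775000)
(.sx (.negSucc 5874999999)
(.sx (.negSucc 6312499999)
(.sy (.ofNat 2425187500)
(.lf (.negSucc 659999999) 0)
(.lf (.negSucc 689999999) 0))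
(.sy (.ofNat 2425187500)
(.lf (.negSucc 579999999) 0)
(.lf (.negSucc 609999999) 0)))
(.sy (.ofNat 2425187500)
(.sx (.negSucc 5437499999)
(.lf (.negSucc 509999999) 0)
(.lf (.negSucc 439999999) 0))
(.sx (.negSucc 5437499999)
(.lf (.negSucc 529999999) 0)
(.lf (.negSucc 449999999) 0))))
(.sx (.negSucc 5874999999)
(.sx (.negSucc 6312499999)
(.sy (.ofNat 4906362500)
(.lf (.negSucc 699999999) 0)
(.lf (.negSucc 689999999) 0))
(.sy (.ofNat 4906362500)
(.lf (.negSucc 609999999) 0)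
(.lf (.negSucc 609999999) 0)))
(.sx (.negSucc 5437499999)
(.sy (.ofNat 4906362500)
(.lf (.negSucc 529999999) 0)
(.lf (.negSucc 529999999) 0))
(.sy (.ofNat 4906362500)
(.lf (.negSucc 449999999) 0)
(.lf (.negSucc 449999999) 0))))))
(.sx (.negSucc 6749999999)
(.sy (.ofNat 8628125000)
(.sx (.negSucc 7624999999)
(.sy (.ofNat 7387537500)
(.sx (.negSucc 8062499999)
(.lf (.negSucc 1029999999) 0)
(.lf (.negSucc 939999999) 0))
(.lf (.negSucc 949999999) 0))
(.sy (.ofNat 7387537500)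
(.lf (.negSucc 799999999) 0)
(.lf (.negSucc 779999999) 0)))
(.sx (.negSucc 7624999999)
(.sy (.ofNat 9868712500)
(.lf (.negSucc 899999999) 0)
(.lf (.negSucc 849999999) 0))
(.sy (.ofNat 9868712500)
(.lf (.negSucc 739999999) 0)
(.lf (.negSucc 689999999) 0))))
(.sy (.ofNat 8628125000)
(.sx (.negSucc 5874999999)
(.sy (.ofNat 7387537500)
(.lf (.negSucc 629999999) 0)
(.lf (.negSucc 609999999) 0))
(.sy (.ofNat 7387537500)
(.sx (.negSucc 5437499999)
(.lf (.negSucc 509999999) 0)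
(.lf (.negSucc 429999999) 0))
(.lf (.negSucc 449999999) 0)))
(.sx (.negSucc 5874999999)
(.sy (.ofNat 9868712500)
(.lf (.negSucc 569999999) 0)
(.lf (.negSucc 539999999) 0))
(.sy (.ofNat 9868712500)
(.lf (.negSucc 419999999) 0)
(.lf (.negSucc 389999999) 0)))))))

theorem run_tr11_0N : Tr.run 0 2 T11.C T11.K0 R11 (.ofNat 5000000000) tr11_0N (.negSucc 8499999999) (.negSucc 4999999999) (.negSucc 8740099999) (.ofNat 11109300000)
    (-100000000000) 100000000000 = true := by decide +kernel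

end Pool.Agent.Helper30.DL
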