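import Pool.Agent.Helper30.DL.Run.C121

/-! MP_b4564f_an, all delays. Cell 121: kernel computations (generated). -/

set_option autoImplicit false
set_option maxRecDepth 100000

namespace Pool.Agent.Helper30.DL

/-- tree -/
def tr121_0A : Tr :=
(.sy (.ofNat 0)
(.sy (.negSucc 4999999999)
(.sx (.ofNat 2500000000)
(.sx (.ofNat 1250000000)
(.lf (.negSucc 1429999999) 0)
(.sy (.negSucc 7499999999)
(.lf (.negSucc 949999999) 0)
(.lf (.negSucc 929999999) 0)))
(.sx (.ofNat 3750000000)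
(.sy (.negSucc 7499999999)
(.lf (.negSucc 379999999) 0)
(.lf (.negSucc 319999999) 0))
(.sy (.negSucc 7499999999)
(.sx (.ofNat 4375000000)
(.lf (.ofNat 20000000) 0)
(.sy (.negSucc 8749999999)
(.lf (.ofNat 180000000) 0)
(.lf (.ofNat 310000000) 0)))
(.sx (.ofNat 4375000000)
(.lf (.ofNat 140000000) 0)
(.sx (.ofNat 4687500000)
(.lf (.ofNat 360000000) 0)
(.sy (.negSucc 6249999999)
(.lf (.ofNat 460000000) 0)
(.lf (.ofNat 510000000) 0)))))))
(.sx (.ofNat 2500000000)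
(.sy (.negSucc 2499999999)
(.lf (.negSucc 1219999999) 0)
(.lf (.negSucc 1269999999) 0))
(.sx (.ofNat 3750000000)
(.sy (.negSucc 2499999999)
(.lf (.negSucc 359999999) 0)
(.lf (.negSucc 479999999) 0))
(.sy (.negSucc 2499999999)
(.sx (.ofNat 4375000000)
(.lf (.ofNat 130000000) 0)
(.sx (.ofNat 4687500000)
(.lf (.ofNat 360000000) 0)
(.sy (.negSucc 3749999999)
(.lf (.ofNat 520000000) 0)
(.lf (.ofNat 500000000) 0))))
(.sx (.ofNat 4375000000)
(.lf (.ofNat 0) 0)
(.sx (.ofNat 4687500000)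
(.lf (.ofNat 250000000) 0)
(.sy (.negSucc 1249999999)
(.lf (.ofNat 450000000) 0)
(.lf (.ofNat 370000000) 0))))))))
(.sy (.ofNat 5000000000)
(.sx (.ofNat 2500000000)
(.sy (.ofNat 2500000000)
(.lf (.negSucc 1349999999) 0)
(.sx (.ofNat 1250000000)
(.lf (.negSucc 1549999999) 0)
(.lf (.negSucc 1299999999) 0)))
(.sx (.ofNat 3750000000)
(.sy (.ofNat 2500000000)
(.lf (.negSucc 659999999) 0)
(.lf (.negSucc 889999999) 0))
(.sy (.ofNat 2500000000)
(.sx (.ofNat 4375000000)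
(.lf (.negSucc 199999999) 0)
(.sx (.ofNat 4687500000)
(.lf (.ofNat 50000000) 0)
(.lf (.ofNat 220000000) 1)))
(.sx (.ofNat 4375000000)
(.lf (.negSucc 439999999) 0)
(.sx (.ofNat 4687500000)
(.lf (.negSucc 179999999) 0)
(.lf (.ofNat 10000000) 0))))))
(.sx (.ofNat 2500000000)
(.sy (.ofNat 7500000000)
(.sx (.ofNat 1250000000)
(.lf (.negSucc 1609999999) 0)
(.lf (.negSucc 1479999999) 0))
(.sy (.ofNat 8750000000)
(.sx (.ofNat 1250000000)
(.lf (.negSucc 1649999999) 0)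
(.lf (.negSucc 1619999999) 0))
(.sx (.ofNat 1250000000)
(.lf (.negSucc 1689999999) 0)
(.lf (.negSucc 1719999999) 0))))
(.sy (.ofNat 7500000000)
(.sx (.ofNat 3750000000)
(.lf (.negSucc 1139999999) 1)
(.sx (.ofNat 4375000000)
(.lf (.negSucc 689999999) 0)
(.lf (.negSucc 269999999) 0)))
(.sx (.ofNat 3750000000)
(.sx (.ofNat 3125000000)
(.lf (.negSucc 1509999999) 0)
(.lf (.negSucc 1259999999) 0))
(.sx (.ofNat 4375000000)
(.lf (.negSucc 869999999) 0)
(.lf (.negSucc 319999999) 0)))))))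

theorem run_tr121_0A : Tr.run 0 0 T121.C T121.K0 R121 (.ofNat 5000000000) tr121_0A (.ofNat 0) (.ofNat 5000000000) (.negSucc 9999999999) (.ofNat 10000000000)
    (-100000000000) 100000000000 = true := by decide +kernel

/-- tree -/
def tr121_0AA : Tr :=
(.sy (.ofNat 0)
(.sy (.negSucc 4999999999)
(.sx (.negSucc 2499999999)
(.sy (.negSucc 7499999999)
(.sx (.negSucc 3749999999)
(.lf (.negSucc 2119999999) 0)
(.lf (.negSucc 2089999999) 0))
(.sx (.negSucc 3749999999)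
(.lf (.negSucc 2149999999) 0)
(.lf (.negSucc 2109999999) 0)))
(.sx (.negSucc 1249999999)
(.lf (.negSucc 1999999999) 0)
(.lf (.negSucc 1779999999) 0)))
(.sx (.negSucc 2499999999)
(.sy (.negSucc 2499999999)
(.sx (.negSucc 3749999999)
(.lf (.negSucc 2129999999) 0)
(.lf (.negSucc 2089999999) 0))
(.sx (.negSucc 3749999999)
(.lf (.negSucc 2049999999) 0)
(.lf (.negSucc 2019999999) 0)))
(.sy (.negSucc 2499999999)
(.lf (.negSucc 1889999999) 0)
(.lf (.negSucc 1849999999) 0))))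
(.sy (.ofNat 5000000000)
(.sy (.ofNat 2500000000)
(.sx (.negSucc 2499999999)
(.sy (.ofNat 1250000000)
(.lf (.negSucc 1949999999) 0)
(.lf (.negSucc 1859999999) 0))
(.lf (.negSucc 1789999999) 0))
(.sx (.negSucc 2499999999)
(.sy (.ofNat 3750000000)
(.lf (.negSucc 1759999999) 0)
(.lf (.negSucc 1639999999) 0))
(.sy (.ofNat 3750000000)
(.lf (.negSucc 1729999999) 0)
(.lf (.negSucc 1679999999) 0))))
(.sx (.negSucc 2499999999)
(.sy (.ofNat 7500000000)
(.sy (.ofNat 6250000000)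
(.lf (.negSucc 1499999999) 0)
(.sx (.negSucc 3749999999)
(.lf (.negSucc 1269999999) 0)
(.lf (.negSucc 1399999999) 0)))
(.sy (.ofNat 8750000000)
(.sx (.negSucc 3749999999)
(.lf (.negSucc 1049999999) 0)
(.lf (.negSucc 1249999999) 0))
(.sx (.negSucc 3749999999)
(.lf (.negSucc 799999999) 0)
(.lf (.negSucc 1069999999) 0))))
(.sy (.ofNat 7500000000)
(.sx (.negSucc 1249999999)
(.lf (.negSucc 1559999999) 0)
(.lf (.negSucc 1619999999) 0))
(.sx (.negSucc 1249999999)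
(.sy (.ofNat 8750000000)
(.lf (.negSucc 1419999999) 0)
(.lf (.negSucc 1319999999) 0))
(.sy (.ofNat 8750000000)
(.lf (.negSucc 1569999999) 0)
(.lf (.negSucc 1529999999) 0)))))))

theorem run_tr121_0AA : Tr.run 0 0 T121.C T121.K0 R121 (.ofNat 5000000000) tr121_0AA (.negSucc 4999999999) (.ofNat 0) (.negSucc 9999999999) (.ofNat 10000000000)
    (-100000000000) 100000000000 = true := by decide +kernel

/-- tree -/
def tr121_0B : Tr :=
(.sy (.ofNat 0)
(.sy (.negSucc 4999999999)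
(.sy (.negSucc 7499999999)
(.sx (.ofNat 5071100000)
(.sy (.negSucc 8749999999)
(.sx (.ofNat 2535550000)
(.sy (.negSucc 9374999999)
(.lf (.negSucc 1759999999) 0)
(.lf (.negSucc 1529999999) 0))
(.sy (.negSucc 9374999999)
(.sx (.ofNat 3803325000)
(.lf (.negSucc 1929999999) 0)
(.lf (.negSucc 1949999999) 0))
(.sx (.ofNat 3803325000)
(.lf (.negSucc 1669999999) 0)
(.lf (.negSucc 1689999999) 0))))
(.sx (.ofNat 2535550000)
(.sy (.negSucc 8124999999)
(.lf (.negSucc 1309999999) 0)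
(.lf (.negSucc 1099999999) 0))
(.sy (.negSucc 8124999999)
(.lf (.negSucc 1439999999) 0)
(.lf (.negSucc 1209999999) 0))))
(.sy (.negSucc 8749999999)
(.sx (.ofNat 7606650000)
(.sy (.negSucc 9374999999)
(.sx (.ofNat 6338875000)
(.lf (.negSucc 1919999999) 0)
.ou)
(.sx (.ofNat 6338875000)
(.lf (.negSucc 1669999999) 0)
.ou))
.ou)
(.sx (.ofNat 7606650000)
(.sy (.negSucc 8124999999)
(.sx (.ofNat 6338875000)
(.lf (.negSucc 1439999999) 0)
.ou)
(.sy (.negSucc 7812499999)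
(.lf (.negSucc 1259999999) 0)
(.lf (.negSucc 1159999999) 0)))
.ou)))
(.sx (.ofNat 5071100000)
(.sy (.negSucc 6249999999)
(.sx (.ofNat 2535550000)
(.sy (.negSucc 6874999999)
(.lf (.negSucc 919999999) 0)
(.lf (.negSucc 749999999) 0))
(.sy (.negSucc 6874999999)
(.lf (.negSucc 999999999) 0)
(.lf (.negSucc 809999999) 0)))
(.sx (.ofNat 2535550000)
(.sy (.negSucc 5624999999)
(.lf (.negSucc 599999999) 0)
(.lf (.negSucc 459999999) 0))
(.sy (.negSucc 5624999999)
(.lf (.negSucc 629999999) 0)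
(.lf (.negSucc 479999999) 0))))
(.sy (.negSucc 6249999999)
(.sx (.ofNat 7606650000)
(.sy (.negSucc 6874999999)
(.lf (.negSucc 999999999) 0)
(.lf (.negSucc 819999999) 0))
(.sy (.negSucc 6573195822)
.ou
(.lf (.negSucc 749999999) 0)))
(.sx (.ofNat 7606650000)
(.sy (.negSucc 5624999999)
(.lf (.negSucc 639999999) 0)
(.lf (.negSucc 489999999) 0))
(.sy (.negSucc 5624999999)
(.lf (.negSucc 629999999) 0)
(.lf (.negSucc 489999999) 0))))))
(.sx (.ofNat 5071100000)
(.sy (.negSucc 2499999999)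
(.sx (.ofNat 2535550000)
(.sy (.negSucc 3749999999)
(.sy (.negSucc 4374999999)
(.lf (.negSucc 349999999) 0)
(.lf (.negSucc 249999999) 0))
(.sx (.ofNat 1267775000)
(.lf (.negSucc 139999999) 0)
(.lf (.negSucc 119999999) 0)))
(.sy (.negSucc 3749999999)
(.sy (.negSucc 4374999999)
(.lf (.negSucc 349999999) 0)
(.lf (.negSucc 229999999) 0))
(.sy (.negSucc 3124999999)
(.lf (.negSucc 139999999) 0)
(.lf (.negSucc 59999999) 0))))
(.sx (.ofNat 2535550000)
(.sy (.negSucc 1249999999)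
(.lf (.negSucc 29999999) 0)
(.lf (.ofNat 10000000) 0))
(.sy (.negSucc 1249999999)
(.lf (.ofNat 10000000) 0)
(.lf (.ofNat 40000000) 0))))
(.sy (.negSucc 2499999999)
(.sx (.ofNat 7606650000)
(.sy (.negSucc 3749999999)
(.sy (.negSucc 4374999999)
(.lf (.negSucc 349999999) 0)
(.lf (.negSucc 229999999) 0))
(.sy (.negSucc 3124999999)
(.lf (.negSucc 129999999) 0)
(.lf (.negSucc 59999999) 0)))
(.sy (.negSucc 3749999999)
(.sy (.negSucc 4374999999)
(.lf (.negSucc 359999999) 0)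
(.lf (.negSucc 249999999) 0))
(.sy (.negSucc 3124999999)
(.lf (.negSucc 149999999) 0)
(.lf (.negSucc 79999999) 0))))
(.sx (.ofNat 7606650000)
(.sy (.negSucc 1249999999)
(.lf (.ofNat 20000000) 0)
(.lf (.ofNat 40000000) 0))
(.sy (.negSucc 1249999999)
(.lf (.ofNat 0) 0)
(.lf (.ofNat 20000000) 0))))))
(.sy (.ofNat 5000000000)
(.sx (.ofNat 5071100000)
(.sy (.ofNat 2500000000)
(.sx (.ofNat 2535550000)
(.sy (.ofNat 1250000000)
(.lf (.negSucc 9999999) 0)
(.lf (.negSucc 89999999) 0))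
(.sy (.ofNat 1250000000)
(.lf (.negSucc 9999999) 0)
(.lf (.negSucc 129999999) 0)))
(.sx (.ofNat 2535550000)
(.sy (.ofNat 3750000000)
(.lf (.negSucc 219999999) 0)
(.sx (.ofNat 1267775000)
(.lf (.negSucc 359999999) 0)
(.lf (.negSucc 449999999) 0)))
(.sy (.ofNat 3750000000)
(.lf (.negSucc 309999999) 1)
(.sy (.ofNat 4375000000)
(.lf (.negSucc 479999999) 0)
(.lf (.negSucc 599999999) 0)))))
(.sy (.ofNat 2500000000)
(.sx (.ofNat 7606650000)
(.sy (.ofNat 1250000000)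
(.lf (.negSucc 19999999) 0)
(.lf (.negSucc 149999999) 0))
(.sy (.ofNat 1250000000)
(.lf (.negSucc 29999999) 0)
(.sx (.ofNat 8874425000)
(.lf (.negSucc 129999999) 0)
(.lf (.negSucc 89999999) 1))))
(.sx (.ofNat 7606650000)
(.sy (.ofNat 3750000000)
(.sx (.ofNat 6338875000)
(.lf (.negSucc 329999999) 0)
(.lf (.negSucc 279999999) 1))
(.sx (.ofNat 6338875000)
(.sy (.ofNat 4375000000)
(.lf (.negSucc 449999999) 0)
(.lf (.negSucc 519999999) 0))
(.sx (.ofNat 6972762500)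
(.lf (.negSucc 379999999) 1)
(.lf (.negSucc 259999999) 1))))
(.sy (.ofNat 3750000000)
(.sx (.ofNat 8874425000)
(.sy (.ofNat 3125000000)
(.lf (.negSucc 169999999) 0)
(.lf (.negSucc 159999999) 0))
(.sy (.ofNat 3125000000)
(.lf (.negSucc 49999999) 0)
(.lf (.ofNat 50000000) 0)))
(.sx (.ofNat 8874425000)
(.sy (.ofNat 4375000000)
(.lf (.negSucc 89999999) 0)
(.lf (.ofNat 50000000) 0))
(.sy (.ofNat 4375000000)
(.lf (.ofNat 220000000) 0)
(.lf (.ofNat 470000000) 0)))))))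
(.sx (.ofNat 5071100000)
(.sy (.ofNat 7500000000)
(.sx (.ofNat 2535550000)
(.sy (.ofNat 6250000000)
(.sx (.ofNat 1267775000)
(.sy (.ofNat 5625000000)
(.lf (.negSucc 519999999) 0)
(.lf (.negSucc 639999999) 0))
(.sy (.ofNat 5625000000)
(.lf (.negSucc 629999999) 0)
(.lf (.negSucc 759999999) 0)))
(.sx (.ofNat 1267775000)
(.sy (.ofNat 6875000000)
(.lf (.negSucc 779999999) 0)
(.lf (.negSucc 919999999) 0))
(.sy (.ofNat 6875000000)
(.lf (.negSucc 899999999) 0)
(.lf (.negSucc 1049999999) 0))))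
(.sy (.ofNat 6250000000)
(.sx (.ofNat 3803325000)
(.sy (.ofNat 5625000000)
(.lf (.negSucc 699999999) 0)
(.lf (.negSucc 829999999) 0))
(.sy (.ofNat 5625000000)
(.lf (.negSucc 699999999) 0)
(.lf (.negSucc 789999999) 0)))
(.sx (.ofNat 3803325000)
(.sy (.ofNat 6875000000)
(.lf (.negSucc 959999999) 0)
(.lf (.negSucc 1089999999) 1))
(.sx (.ofNat 4437212500)
(.sy (.ofNat 6875000000)
(.lf (.negSucc 909999999) 0)
(.lf (.negSucc 979999999) 0))
(.sy (.ofNat 6875000000)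
(.lf (.negSucc 809999999) 0)
(.lf (.negSucc 819999999) 0))))))
(.sx (.ofNat 2535550000)
(.sy (.ofNat 8750000000)
(.sx (.ofNat 1267775000)
(.sy (.ofNat 8125000000)
(.lf (.negSucc 1079999999) 0)
(.lf (.negSucc 1239999999) 0))
(.sy (.ofNat 8125000000)
(.sy (.ofNat 7812500000)
(.lf (.negSucc 1169999999) 0)
(.lf (.negSucc 1239999999) 0))
(.sy (.ofNat 8437500000)
(.lf (.negSucc 1319999999) 0)
(.lf (.negSucc 1399999999) 0))))
(.sy (.ofNat 9375000000)
(.sx (.ofNat 1267775000)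
(.sx (.ofNat 633887500)
(.lf (.negSucc 1379999999) 0)
(.lf (.negSucc 1459999999) 0))
(.sy (.ofNat 9062500000)
(.lf (.negSucc 1489999999) 0)
(.lf (.negSucc 1569999999) 0)))
(.sx (.ofNat 1267775000)
(.sy (.ofNat 9687500000)
(.lf (.negSucc 1559999999) 0)
(.lf (.negSucc 1659999999) 0))
(.sy (.ofNat 9687500000)
(.lf (.negSucc 1649999999) 0)
(.lf (.negSucc 1729999999) 0)))))
(.sx (.ofNat 3803325000)
(.sy (.ofNat 8750000000)
(.sy (.ofNat 8125000000)
(.sx (.ofNat 3169437500)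
(.lf (.negSucc 1219999999) 0)
(.lf (.negSucc 1169999999) 0))
(.sx (.ofNat 3169437500)
(.lf (.negSucc 1349999999) 0)
(.lf (.negSucc 1249999999) 0)))
(.sx (.ofNat 3169437500)
(.sy (.ofNat 9375000000)
(.lf (.negSucc 1469999999) 0)
(.lf (.negSucc 1569999999) 0))
(.sy (.ofNat 9375000000)
(.lf (.negSucc 1309999999) 0)
(.lf (.negSucc 1339999999) 0))))
(.sy (.ofNat 8750000000)
(.sx (.ofNat 4437212500)
(.sy (.ofNat 8125000000)
(.lf (.negSucc 1029999999) 0)
(.lf (.negSucc 1039999999) 0))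
(.sy (.ofNat 8125000000)
(.lf (.negSucc 789999999) 0)
(.lf (.negSucc 699999999) 0)))
(.sx (.ofNat 4437212500)
(.sy (.ofNat 9375000000)
(.lf (.negSucc 1009999999) 0)
(.lf (.negSucc 929999999) 0))
(.sy (.ofNat 9375000000)
(.lf (.negSucc 549999999) 0)
(.lf (.negSucc 329999999) 0)))))))
(.sy (.ofNat 7500000000)
(.sx (.ofNat 7606650000)
(.sx (.ofNat 6338875000)
(.sy (.ofNat 6250000000)
(.sx (.ofNat 5704987500)
(.sy (.ofNat 5625000000)
(.lf (.negSucc 609999999) 0)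
(.lf (.negSucc 639999999) 0))
(.sy (.ofNat 5625000000)
(.lf (.negSucc 499999999) 0)
(.lf (.negSucc 459999999) 0)))
(.sx (.ofNat 5704987500)
(.sy (.ofNat 6875000000)
(.lf (.negSucc 629999999) 0)
(.lf (.negSucc 549999999) 0))
(.sy (.ofNat 6875000000)
(.lf (.negSucc 359999999) 0)
(.lf (.negSucc 189999999) 0))))
(.sy (.ofNat 6250000000)
(.sy (.ofNat 5625000000)
(.lf (.negSucc 229999999) 0)
(.lf (.negSucc 69999999) 0))
(.sy (.ofNat 6875000000)
(.lf (.ofNat 160000000) 0)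
(.lf (.ofNat 470000000) 0))))
(.sy (.ofNat 6573195823)
(.sx (.ofNat 8874425000)
(.sy (.ofNat 5786597911)
(.lf (.ofNat 300000000) 0)
(.lf (.ofNat 700000000) 0))
(.sy (.ofNat 5634167848)
(.lf (.ofNat 790000000) 0)
.ou))
.ou))
(.sx (.ofNat 7606650000)
(.sx (.ofNat 6338875000)
(.sy (.ofNat 8750000000)
(.sx (.ofNat 5704987500)
(.sy (.ofNat 8125000000)
(.lf (.negSucc 419999999) 0)
(.lf (.negSucc 209999999) 0))
(.lf (.ofNat 210000000) 1))
(.sx (.ofNat 5704987500)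
(.sy (.ofNat 9375000000)
(.lf (.ofNat 70000000) 0)
(.lf (.ofNat 430000000) 0))
(.sy (.ofNat 8764261097)
(.lf (.ofNat 570000000) 0)
.ou)))
(.sy (.ofNat 7887834987)
(.lf (.ofNat 780000000) 0)
.ou))
.ou)))))

theorem run_tr121_0B : Tr.run 0 1 T121.C T121.K0 R121 (.ofNat 5000000000) tr121_0B (.ofNat 0) (.ofNat 10142200000) (.negSucc 9999999999) (.ofNat 10000000000)
    (-100000000000) 100000000000 = true := by decide +kernel

/-- tree -/
def tr121_0BB : Tr :=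
(.sy (.ofNat 0)
(.sy (.negSucc 4999999999)
(.sx (.negSucc 3910849999)
(.sy (.negSucc 7499999999)
(.sx (.negSucc 5866274999)
(.sy (.negSucc 8523296299)
.ou
(.sx (.negSucc 6843987499)
.ou
(.sy (.negSucc 8011648149)
(.sx (.negSucc 6355131249)
.ou
(.lf (.negSucc 169999999) 0))
(.lf (.negSucc 279999999) 0))))
(.sy (.negSucc 8749999999)
(.sx (.negSucc 4888562499)
(.sx (.negSucc 5377418749)
(.sy (.negSucc 9298141417)
.ou
(.lf (.negSucc 19999999) 0))
(.sy (.negSucc 9374999999)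
(.lf (.ofNat 100000000) 0)
(.lf (.negSucc 69999999) 0)))
(.sx (.negSucc 4399706249)
(.sy (.negSucc 9374999999)
(.lf (.ofNat 0) 0)
(.lf (.negSucc 149999999) 0))
(.lf (.negSucc 199999999) 0)))
(.sx (.negSucc 4888562499)
(.sy (.negSucc 8124999999)
(.lf (.negSucc 179999999) 0)
(.lf (.negSucc 299999999) 0))
(.sy (.negSucc 8124999999)
(.lf (.negSucc 309999999) 0)
(.lf (.negSucc 389999999) 0)))))
(.sy (.negSucc 6249999999)
(.sx (.negSucc 5866274999)
(.sx (.negSucc 6843987499)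
(.sy (.negSucc 7305682542)
.ou
(.sy (.negSucc 6777841271)
(.lf (.negSucc 439999999) 0)
(.lf (.negSucc 509999999) 0)))
(.sy (.negSucc 6874999999)
(.lf (.negSucc 379999999) 0)
(.lf (.negSucc 469999999) 0)))
(.sy (.negSucc 6874999999)
(.lf (.negSucc 419999999) 0)
(.lf (.negSucc 469999999) 0)))
(.sx (.negSucc 5866274999)
(.sy (.negSucc 5624999999)
(.lf (.negSucc 549999999) 0)
(.lf (.negSucc 599999999) 0))
(.sy (.negSucc 5624999999)
(.lf (.negSucc 499999999) 0)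
(.lf (.negSucc 509999999) 0)))))
(.sy (.negSucc 7499999999)
(.sx (.negSucc 1955424999)
(.sy (.negSucc 8749999999)
(.sx (.negSucc 2933137499)
(.lf (.negSucc 409999999) 1)
(.lf (.negSucc 729999999) 0))
(.sx (.negSucc 2933137499)
(.sy (.negSucc 8124999999)
(.lf (.negSucc 489999999) 0)
(.lf (.negSucc 519999999) 0))
(.lf (.negSucc 679999999) 0)))
(.sy (.negSucc 8749999999)
(.sy (.negSucc 9374999999)
(.lf (.negSucc 1249999999) 0)
(.lf (.negSucc 1119999999) 0))
(.sy (.negSucc 8124999999)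
(.lf (.negSucc 989999999) 0)
(.lf (.negSucc 869999999) 0))))
(.sy (.negSucc 6249999999)
(.sx (.negSucc 1955424999)
(.sy (.negSucc 6874999999)
(.lf (.negSucc 569999999) 0)
(.lf (.negSucc 549999999) 0))
(.sy (.negSucc 6874999999)
(.lf (.negSucc 759999999) 0)
(.lf (.negSucc 649999999) 0)))
(.sx (.negSucc 1955424999)
(.sy (.negSucc 5624999999)
(.lf (.negSucc 509999999) 0)
(.lf (.negSucc 459999999) 0))
(.sy (.negSucc 5624999999)
(.lf (.negSucc 549999999) 0)
(.lf (.negSucc 449999999) 0))))))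
(.sx (.negSucc 3910849999)
(.sy (.negSucc 2499999999)
(.sx (.negSucc 5866274999)
(.sy (.negSucc 3749999999)
(.sx (.negSucc 6843987499)
(.sy (.negSucc 4374999999)
(.lf (.negSucc 649999999) 0)
(.lf (.negSucc 649999999) 0))
(.sy (.negSucc 4374999999)
(.lf (.negSucc 579999999) 0)
(.lf (.negSucc 569999999) 0)))
(.sx (.negSucc 6843987499)
(.sy (.negSucc 3124999999)
(.lf (.negSucc 619999999) 0)
(.lf (.negSucc 569999999) 0))
(.sy (.negSucc 3124999999)
(.lf (.negSucc 529999999) 0)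
(.lf (.negSucc 479999999) 0))))
(.sy (.negSucc 3749999999)
(.sx (.negSucc 4888562499)
(.sy (.negSucc 4374999999)
(.lf (.negSucc 519999999) 0)
(.lf (.negSucc 499999999) 0))
(.sy (.negSucc 4374999999)
(.lf (.negSucc 469999999) 0)
(.lf (.negSucc 429999999) 0)))
(.sx (.negSucc 4888562499)
(.lf (.negSucc 429999999) 0)
(.lf (.negSucc 359999999) 0))))
(.sx (.negSucc 5866274999)
(.sy (.negSucc 1249999999)
(.lf (.negSucc 409999999) 0)
(.lf (.negSucc 219999999) 0))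
(.sy (.negSucc 1249999999)
(.lf (.negSucc 269999999) 0)
(.lf (.negSucc 139999999) 0))))
(.sy (.negSucc 2499999999)
(.sx (.negSucc 1955424999)
(.sy (.negSucc 3749999999)
(.sy (.negSucc 4374999999)
(.lf (.negSucc 409999999) 0)
(.lf (.negSucc 359999999) 0))
(.sx (.negSucc 2933137499)
(.lf (.negSucc 299999999) 0)
(.lf (.negSucc 249999999) 0)))
(.sy (.negSucc 3749999999)
(.sy (.negSucc 4374999999)
(.lf (.negSucc 369999999) 0)
(.lf (.negSucc 289999999) 0))
(.lf (.negSucc 189999999) 0)))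
(.sx (.negSucc 1955424999)
(.sy (.negSucc 1249999999)
(.lf (.negSucc 169999999) 0)
(.lf (.negSucc 69999999) 0))
(.sy (.negSucc 1249999999)
(.lf (.negSucc 89999999) 0)
(.lf (.negSucc 29999999) 0))))))
(.sy (.ofNat 5000000000)
(.sx (.negSucc 3910849999)
(.sy (.ofNat 2500000000)
(.sy (.ofNat 1250000000)
(.lf (.negSucc 19999999) 0)
(.lf (.ofNat 120000000) 0))
(.sx (.negSucc 5866274999)
(.sy (.ofNat 3750000000)
(.lf (.ofNat 320000000) 0)
(.lf (.ofNat 420000000) 0))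
(.sx (.negSucc 4888562499)
(.sy (.ofNat 3750000000)
(.lf (.ofNat 190000000) 0)
(.lf (.ofNat 220000000) 0))
(.sy (.ofNat 3750000000)
(.lf (.ofNat 110000000) 0)
(.lf (.ofNat 100000000) 0)))))
(.sy (.ofNat 2500000000)
(.sx (.negSucc 1955424999)
(.sy (.ofNat 1250000000)
(.lf (.negSucc 9999999) 0)
(.lf (.ofNat 20000000) 0))
(.sy (.ofNat 1250000000)
(.lf (.negSucc 9999999) 0)
(.lf (.negSucc 29999999) 0)))
(.sx (.negSucc 1955424999)
(.sy (.ofNat 3750000000)
(.lf (.ofNat 10000000) 0)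
(.lf (.negSucc 49999999) 0))
(.sy (.ofNat 3750000000)
(.lf (.negSucc 109999999) 0)
(.lf (.negSucc 229999999) 0)))))
(.sx (.negSucc 3910849999)
(.sy (.ofNat 7500000000)
(.sx (.negSucc 5866274999)
(.sx (.negSucc 6843987499)
(.sy (.ofNat 7305682543)
(.sy (.ofNat 6152841271)
(.lf (.ofNat 570000000) 0)
(.lf (.ofNat 580000000) 0))
.ou)
(.sy (.ofNat 6250000000)
(.lf (.ofNat 360000000) 0)
(.lf (.ofNat 320000000) 0)))
(.sy (.ofNat 6250000000)
(.lf (.ofNat 110000000) 0)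
(.lf (.ofNat 10000000) 0)))
(.sx (.negSucc 5866274999)
(.sy (.ofNat 8523296300)
(.lf (.ofNat 380000000) 0)
.ou)
(.sy (.ofNat 8750000000)
(.lf (.negSucc 159999999) 0)
(.sx (.negSucc 4888562499)
(.lf (.negSucc 249999999) 0)
(.lf (.negSucc 509999999) 0)))))
(.sy (.ofNat 7500000000)
(.sx (.negSucc 1955424999)
(.sy (.ofNat 6250000000)
(.lf (.negSucc 159999999) 0)
(.sx (.negSucc 2933137499)
(.lf (.negSucc 249999999) 0)
(.lf (.negSucc 409999999) 0)))
(.sy (.ofNat 6250000000)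
(.sx (.negSucc 977712499)
(.lf (.negSucc 349999999) 0)
(.lf (.negSucc 459999999) 0))
(.sx (.negSucc 977712499)
(.lf (.negSucc 559999999) 0)
(.sy (.ofNat 6875000000)
(.lf (.negSucc 629999999) 0)
(.lf (.negSucc 769999999) 0)))))
(.sx (.negSucc 1955424999)
(.sy (.ofNat 8750000000)
(.sx (.negSucc 2933137499)
(.lf (.negSucc 469999999) 0)
(.lf (.negSucc 659999999) 0))
(.sx (.negSucc 2933137499)
(.lf (.negSucc 749999999) 0)
(.lf (.negSucc 959999999) 0)))
(.sy (.ofNat 8750000000)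
(.sx (.negSucc 977712499)
(.sy (.ofNat 8125000000)
(.lf (.negSucc 759999999) 0)
(.lf (.negSucc 909999999) 0))
(.sy (.ofNat 8125000000)
(.lf (.negSucc 919999999) 0)
(.lf (.negSucc 1079999999) 0)))
(.sx (.negSucc 977712499)
(.sy (.ofNat 9375000000)
(.lf (.negSucc 1069999999) 0)
(.lf (.negSucc 1249999999) 0))
(.sy (.ofNat 9375000000)
(.lf (.negSucc 1249999999) 0)
(.lf (.negSucc 1439999999) 0)))))))))

theorem run_tr121_0BB : Tr.run 0 1 T121.C T121.K0 R121 (.ofNat 5000000000) tr121_0BB (.negSucc 7821699999) (.ofNat 0) (.negSucc 9999999999) (.ofNat 10000000000)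
    (-100000000000) 100000000000 = true := by decide +kernel

/-- tree -/
def tr121_0P : Tr :=
(.sy (.ofNat 1160250000)
(.sy (.negSucc 3330724999)
(.sy (.negSucc 5576212499)
(.sy (.negSucc 6698956249)
(.sy (.negSucc 7260328124)
(.lf (.negSucc 269999999) 0)
(.lf (.negSucc 179999999) 0))
(.sy (.negSucc 6137584374)
(.lf (.negSucc 89999999) 0)
(.lf (.negSucc 19999999) 0)))
(.sy (.negSucc 4453468749)
(.sy (.negSucc 5014840624)
(.sy (.negSucc 5295526562)
(.lf (.ofNat 20000000) 0)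
(.lf (.ofNat 50000000) 0))
(.sx (.ofNat 5150000000)
(.lf (.ofNat 70000000) 0)
(.lf (.ofNat 100000000) 0)))
(.sy (.negSucc 3892096874)
(.sx (.ofNat 5150000000)
(.lf (.ofNat 110000000) 0)
(.lf (.ofNat 130000000) 0))
(.sx (.ofNat 5150000000)
(.lf (.ofNat 130000000) 0)
(.lf (.ofNat 160000000) 0)))))
(.sy (.negSucc 1085237499)
(.sy (.negSucc 2207981249)
(.sy (.negSucc 2769353124)
(.sx (.ofNat 5150000000)
(.lf (.ofNat 150000000) 0)
(.sx (.ofNat 5225000000)
(.lf (.ofNat 170000000) 0)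
(.lf (.ofNat 180000000) 0)))
(.sx (.ofNat 5150000000)
(.lf (.ofNat 160000000) 0)
(.sx (.ofNat 5225000000)
(.lf (.ofNat 180000000) 0)
(.lf (.ofNat 190000000) 0))))
(.sy (.negSucc 1646609374)
(.sx (.ofNat 5150000000)
(.lf (.ofNat 160000000) 0)
(.sx (.ofNat 5225000000)
(.lf (.ofNat 180000000) 0)
(.lf (.ofNat 190000000) 0)))
(.sx (.ofNat 5150000000)
(.lf (.ofNat 150000000) 0)
(.sx (.ofNat 5225000000)
(.lf (.ofNat 170000000) 0)
(.lf (.ofNat 190000000) 0)))))
(.sy (.ofNat 37506250)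
(.sy (.negSucc 523865624)
(.sx (.ofNat 5150000000)
(.lf (.ofNat 140000000) 0)
(.sx (.ofNat 5225000000)
(.lf (.ofNat 160000000) 0)
(.lf (.ofNat 180000000) 0)))
(.sx (.ofNat 5150000000)
(.lf (.ofNat 120000000) 0)
(.sy (.negSucc 243179687)
(.lf (.ofNat 160000000) 0)
(.lf (.ofNat 150000000) 0))))
(.sy (.ofNat 598878125)
(.sx (.ofNat 5150000000)
(.lf (.ofNat 100000000) 0)
(.lf (.ofNat 130000000) 0))
(.sx (.ofNat 5150000000)
(.lf (.ofNat 80000000) 0)
(.lf (.ofNat 110000000) 0))))))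
(.sy (.ofNat 5651225000)
(.sy (.ofNat 3405737500)
(.sy (.ofNat 2282993750)
(.sy (.ofNat 1721621875)
(.sx (.ofNat 5150000000)
(.lf (.ofNat 60000000) 0)
(.lf (.ofNat 90000000) 0))
(.sx (.ofNat 5150000000)
(.lf (.ofNat 40000000) 0)
(.lf (.ofNat 70000000) 0)))
(.sy (.ofNat 2844365625)
(.lf (.ofNat 40000000) 0)
(.lf (.ofNat 30000000) 0)))
(.sy (.ofNat 4528481250)
(.lf (.ofNat 30000000) 0)
(.lf (.ofNat 80000000) 0)))
(.sy (.ofNat 7896712500)
(.sy (.ofNat 6773968750)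
(.lf (.ofNat 180000000) 0)
(.lf (.ofNat 340000000) 0))
(.lf (.ofNat 660000000) 0))))

theorem run_tr121_0P : Tr.run 0 2 T121.C T121.K0 R121 (.ofNat 5000000000) tr121_0P (.ofNat 5000000000) (.ofNat 5300000000) (.negSucc 7821699999) (.ofNat 10142200000)
    (-100000000000) 100000000000 = true := by decide +kernel

/-- tree -/
def tr121_0N : Tr :=
(.sy (.ofNat 1160250000)
(.sy (.negSucc 3330724999)
(.sy (.negSucc 5576212499)
(.sx (.negSucc 6424999999)
(.sy (.negSucc 6698956249)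
(.sy (.negSucc 7260328124)
(.lf (.ofNat 310000000) 0)
(.lf (.ofNat 90000000) 0))
(.sx (.negSucc 7137499999)
(.lf (.negSucc 219999999) 0)
(.lf (.negSucc 119999999) 0)))
(.sy (.negSucc 6698956249)
(.sy (.negSucc 7260328124)
(.lf (.ofNat 360000000) 0)
(.sx (.negSucc 5712499999)
(.lf (.ofNat 180000000) 0)
(.lf (.ofNat 220000000) 0)))
(.sx (.negSucc 5712499999)
(.lf (.negSucc 39999999) 0)
(.lf (.ofNat 30000000) 1))))
(.sx (.negSucc 6424999999)
(.sy (.negSucc 4453468749)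
(.sx (.negSucc 7137499999)
(.sy (.negSucc 5014840624)
(.lf (.negSucc 439999999) 0)
(.lf (.negSucc 549999999) 0))
(.sy (.negSucc 5014840624)
(.lf (.negSucc 319999999) 0)
(.lf (.negSucc 419999999) 0)))
(.sx (.negSucc 7137499999)
(.sy (.negSucc 3892096874)
(.lf (.negSucc 659999999) 0)
(.lf (.negSucc 739999999) 0))
(.sy (.negSucc 3892096874)
(.lf (.negSucc 509999999) 0)
(.lf (.negSucc 589999999) 0))))
(.sy (.negSucc 4453468749)
(.sx (.negSucc 5712499999)
(.sy (.negSucc 5014840624)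
(.lf (.negSucc 209999999) 0)
(.lf (.negSucc 299999999) 0))
(.sy (.negSucc 5014840624)
(.lf (.negSucc 119999999) 0)
(.lf (.negSucc 199999999) 0)))
(.sx (.negSucc 5712499999)
(.sy (.negSucc 3892096874)
(.lf (.negSucc 389999999) 0)
(.lf (.negSucc 459999999) 0))
(.sy (.negSucc 3892096874)
(.lf (.negSucc 269999999) 0)
(.sx (.negSucc 5356249999)
(.lf (.negSucc 359999999) 0)
(.lf (.negSucc 309999999) 0)))))))
(.sx (.negSucc 6424999999)
(.sy (.negSucc 1085237499)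
(.sx (.negSucc 7137499999)
(.sy (.negSucc 2207981249)
(.sx (.negSucc 7493749999)
(.sy (.negSucc 2769353124)
(.lf (.negSucc 859999999) 0)
(.lf (.negSucc 929999999) 0))
(.lf (.negSucc 809999999) 0))
(.sx (.negSucc 7493749999)
(.sy (.negSucc 1646609374)
(.lf (.negSucc 989999999) 0)
(.lf (.negSucc 1029999999) 0))
(.sy (.negSucc 1646609374)
(.lf (.negSucc 899999999) 0)
(.lf (.negSucc 939999999) 0))))
(.sy (.negSucc 2207981249)
(.sx (.negSucc 6781249999)
(.lf (.negSucc 729999999) 0)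
(.sy (.negSucc 2769353124)
(.lf (.negSucc 629999999) 0)
(.lf (.negSucc 679999999) 0)))
(.sx (.negSucc 6781249999)
(.sy (.negSucc 1646609374)
(.lf (.negSucc 809999999) 0)
(.lf (.negSucc 859999999) 0))
(.sy (.negSucc 1646609374)
(.lf (.negSucc 729999999) 0)
(.lf (.negSucc 769999999) 0)))))
(.sx (.negSucc 7137499999)
(.sy (.ofNat 37506250)
(.sx (.negSucc 7493749999)
(.sy (.negSucc 523865624)
(.lf (.negSucc 1079999999) 0)
(.lf (.negSucc 1109999999) 0))
(.sx (.negSucc 7315624999)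
(.lf (.negSucc 1019999999) 0)
(.lf (.negSucc 979999999) 0)))
(.sx (.negSucc 7493749999)
(.sx (.negSucc 7671874999)
(.lf (.negSucc 1179999999) 0)
(.lf (.negSucc 1129999999) 0))
(.sx (.negSucc 7315624999)
(.lf (.negSucc 1079999999) 0)
(.lf (.negSucc 1029999999) 0))))
(.sy (.ofNat 37506250)
(.sx (.negSucc 6781249999)
(.sx (.negSucc 6959374999)
(.lf (.negSucc 929999999) 0)
(.lf (.negSucc 889999999) 0))
(.lf (.negSucc 829999999) 0))
(.sx (.negSucc 6781249999)
(.lf (.negSucc 959999999) 0)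
(.lf (.negSucc 869999999) 0)))))
(.sy (.negSucc 1085237499)
(.sx (.negSucc 5712499999)
(.sy (.negSucc 2207981249)
(.sx (.negSucc 6068749999)
(.sy (.negSucc 2769353124)
(.lf (.negSucc 549999999) 0)
(.lf (.negSucc 609999999) 0))
(.sy (.negSucc 2769353124)
(.lf (.negSucc 479999999) 0)
(.lf (.negSucc 539999999) 0)))
(.sx (.negSucc 6068749999)
(.sy (.negSucc 1646609374)
(.lf (.negSucc 649999999) 0)
(.lf (.negSucc 689999999) 0))
(.sy (.negSucc 1646609374)
(.lf (.negSucc 579999999) 0)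
(.lf (.negSucc 619999999) 0))))
(.sy (.negSucc 2207981249)
(.sx (.negSucc 5356249999)
(.sy (.negSucc 2769353124)
(.lf (.negSucc 419999999) 0)
(.lf (.negSucc 469999999) 0))
(.sy (.negSucc 2769353124)
(.lf (.negSucc 359999999) 0)
(.lf (.negSucc 399999999) 0)))
(.sx (.negSucc 5356249999)
(.sy (.negSucc 1646609374)
(.lf (.negSucc 509999999) 0)
(.lf (.negSucc 539999999) 0))
(.sy (.negSucc 1646609374)
(.lf (.negSucc 439999999) 0)
(.lf (.negSucc 469999999) 0)))))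
(.sx (.negSucc 5712499999)
(.sy (.ofNat 37506250)
(.sx (.negSucc 6068749999)
(.lf (.negSucc 739999999) 0)
(.lf (.negSucc 659999999) 0))
(.sx (.negSucc 6068749999)
(.lf (.negSucc 789999999) 0)
(.lf (.negSucc 699999999) 0)))
(.sy (.ofNat 37506250)
(.sx (.negSucc 5356249999)
(.lf (.negSucc 589999999) 0)
(.sx (.negSucc 5178124999)
(.lf (.negSucc 529999999) 0)
(.lf (.negSucc 499999999) 0)))
(.sx (.negSucc 5356249999)
(.lf (.negSucc 629999999) 0)
(.lf (.negSucc 549999999) 0)))))))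
(.sy (.ofNat 5651225000)
(.sx (.negSucc 6424999999)
(.sx (.negSucc 7137499999)
(.sy (.ofNat 3405737500)
(.sx (.negSucc 7493749999)
(.sy (.ofNat 2282993750)
(.sx (.negSucc 7671874999)
(.lf (.negSucc 1209999999) 0)
(.lf (.negSucc 1159999999) 0))
(.sx (.negSucc 7671874999)
(.lf (.negSucc 1229999999) 0)
(.lf (.negSucc 1179999999) 0)))
(.sy (.ofNat 2282993750)
(.lf (.negSucc 1089999999) 0)
(.lf (.negSucc 1109999999) 0)))
(.sx (.negSucc 7493749999)
(.sy (.ofNat 4528481250)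
(.lf (.negSucc 1209999999) 0)
(.lf (.negSucc 1189999999) 0))
(.sy (.ofNat 4528481250)
(.lf (.negSucc 1109999999) 0)
(.lf (.negSucc 1089999999) 0))))
(.sy (.ofNat 3405737500)
(.sx (.negSucc 6781249999)
(.sy (.ofNat 2282993750)
(.lf (.negSucc 999999999) 0)
(.lf (.negSucc 1009999999) 0))
(.sy (.ofNat 2282993750)
(.lf (.negSucc 899999999) 0)
(.lf (.negSucc 919999999) 0)))
(.sx (.negSucc 6781249999)
(.sy (.ofNat 4528481250)
(.lf (.negSucc 1009999999) 0)
(.lf (.negSucc 999999999) 0))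
(.sy (.ofNat 4528481250)
(.lf (.negSucc 919999999) 0)
(.lf (.negSucc 899999999) 0)))))
(.sy (.ofNat 3405737500)
(.sx (.negSucc 5712499999)
(.sx (.negSucc 6068749999)
(.sy (.ofNat 2282993750)
(.lf (.negSucc 809999999) 0)
(.lf (.negSucc 829999999) 0))
(.sy (.ofNat 2282993750)
(.lf (.negSucc 729999999) 0)
(.lf (.negSucc 739999999) 0)))
(.sx (.negSucc 5356249999)
(.sy (.ofNat 2282993750)
(.lf (.negSucc 649999999) 0)
(.lf (.negSucc 659999999) 0))
(.sy (.ofNat 2282993750)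
(.lf (.negSucc 569999999) 0)
(.lf (.negSucc 579999999) 0))))
(.sx (.negSucc 5712499999)
(.sx (.negSucc 6068749999)
(.sy (.ofNat 4528481250)
(.lf (.negSucc 819999999) 0)
(.lf (.negSucc 809999999) 0))
(.sy (.ofNat 4528481250)
(.lf (.negSucc 739999999) 0)
(.lf (.negSucc 719999999) 0)))
(.sx (.negSucc 5356249999)
(.sy (.ofNat 4528481250)
(.lf (.negSucc 649999999) 0)
(.lf (.negSucc 639999999) 0))
(.sy (.ofNat 4528481250)
(.lf (.negSucc 569999999) 0)
(.lf (.negSucc 559999999) 0))))))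
(.sx (.negSucc 6424999999)
(.sy (.ofNat 7896712500)
(.sx (.negSucc 7137499999)
(.sx (.negSucc 7493749999)
(.sy (.ofNat 6773968750)
(.lf (.negSucc 1169999999) 0)
(.lf (.negSucc 1139999999) 0))
(.sy (.ofNat 6773968750)
(.lf (.negSucc 1069999999) 0)
(.lf (.negSucc 1039999999) 0)))
(.sx (.negSucc 6781249999)
(.sy (.ofNat 6773968750)
(.lf (.negSucc 969999999) 0)
(.lf (.negSucc 939999999) 0))
(.sy (.ofNat 6773968750)
(.lf (.negSucc 879999999) 0)
(.lf (.negSucc 849999999) 0))))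
(.sx (.negSucc 7137499999)
(.sy (.ofNat 9019456250)
(.sx (.negSucc 7493749999)
(.lf (.negSucc 1099999999) 0)
(.lf (.negSucc 999999999) 0))
(.lf (.negSucc 1009999999) 0))
(.sy (.ofNat 9019456250)
(.lf (.negSucc 859999999) 0)
(.lf (.negSucc 829999999) 0))))
(.sy (.ofNat 7896712500)
(.sx (.negSucc 5712499999)
(.sx (.negSucc 6068749999)
(.sy (.ofNat 6773968750)
(.lf (.negSucc 789999999) 0)
(.lf (.negSucc 759999999) 0))
(.sy (.ofNat 6773968750)
(.lf (.negSucc 699999999) 0)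
(.lf (.negSucc 669999999) 0)))
(.sy (.ofNat 6773968750)
(.sx (.negSucc 5356249999)
(.lf (.negSucc 619999999) 0)
(.lf (.negSucc 539999999) 0))
(.lf (.negSucc 549999999) 0)))
(.sx (.negSucc 5712499999)
(.sy (.ofNat 9019456250)
(.lf (.negSucc 689999999) 0)
(.lf (.negSucc 649999999) 0))
(.sy (.ofNat 9019456250)
(.lf (.negSucc 519999999) 0)
(.lf (.negSucc 499999999) 0)))))))

theorem run_tr121_0N : Tr.run 0 2 T121.C T121.K0 R121 (.ofNat 5000000000) tr121_0N (.negSucc 7849999999) (.negSucc 4999999999) (.negSucc 7821699999) (.ofNat 10142200000)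
    (-100000000000) 100000000000 = true := by decide +kernel

end Pool.Agent.Helper30.DL
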