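import Pool.Agent.Helper30.DL.Run.C121

/-! MP_b4564f_an, all delays. Cell 121: kernel computations (generated). -/

set_option autoImplicit false
set_option maxRecDepth 100000

namespace Pool.Agent.Helper30.DL

/-- tree -/
def tr121_1A : Tr :=
(.sy (.ofNat 0)
(.sy (.negSucc 4999999999)
(.sy (.negSucc 7499999999)
(.lf (.negSucc 3399999999) 0)
(.lf (.negSucc 4549999999) 0))
(.sy (.negSucc 2499999999)
(.sx (.ofNat 750000000)
(.lf (.negSucc 8699999999) 0)
(.lf (.negSucc 4669999999) 0))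
(.sx (.ofNat 750000000)
(.lf (.negSucc 10799999999) 0)
(.lf (.negSucc 5599999999) 0))))
(.sy (.ofNat 5000000000)
(.sy (.ofNat 2500000000)
(.sx (.ofNat 750000000)
(.lf (.negSucc 12909999999) 0)
(.lf (.negSucc 6569999999) 0))
(.sx (.ofNat 750000000)
(.lf (.negSucc 15039999999) 0)
(.lf (.negSucc 7569999999) 0)))
(.sy (.ofNat 7500000000)
(.sx (.ofNat 750000000)
(.lf (.negSucc 17179999999) 0)
(.lf (.negSucc 8599999999) 0))
(.sx (.ofNat 750000000)
(.lf (.negSucc 19339999999) 0)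
(.lf (.negSucc 9669999999) 0)))))

theorem run_tr121_1A : Tr.run 1 0 (T121.C.mdA 1500) (T121.K1.shA (w2n 1500 64641826 17391)) R121 (.ofNat 1500000000) tr121_1A (.ofNat 0) (.ofNat 1500000000) (.negSucc 9999999999) (.ofNat 10000000000)
    (-100000000000) 100000000000 = true := by decide +kernel

/-- tree -/
def tr121_1AA : Tr :=
(.sy (.ofNat 0)
(.sy (.negSucc 4999999999)
(.sy (.negSucc 7499999999)
(.lf (.negSucc 1569999999) 0)
(.lf (.negSucc 799999999) 0))
(.lf (.ofNat 360000000) 0))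
(.sy (.ofNat 5000000000)
(.sy (.ofNat 2500000000)
(.lf (.ofNat 1540000000) 0)
(.lf (.ofNat 2340000000) 0))
(.sy (.ofNat 7500000000)
(.lf (.ofNat 3140000000) 0)
(.lf (.ofNat 3950000000) 0))))

theorem run_tr121_1AA : Tr.run 1 0 (T121.C.mdA 1500) (T121.K1.shA (w2n 1500 64641826 17391)) R121 (.ofNat 1500000000) tr121_1AA (.negSucc 1499999999) (.ofNat 0) (.negSucc 9999999999) (.ofNat 10000000000)
    (-100000000000) 100000000000 = true := by decide +kernel

/-- tree -/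
def tr121_1B : Tr :=
(.sy (.ofNat 0)
(.sy (.negSucc 4999999999)
(.sx (.ofNat 5071100000)
(.sy (.negSucc 7499999999)
(.sx (.ofNat 2535550000)
(.sy (.negSucc 8749999999)
(.sx (.ofNat 1267775000)
(.lf (.negSucc 1799999999) 0)
(.lf (.negSucc 2129999999) 0))
(.sx (.ofNat 1267775000)
(.lf (.negSucc 1809999999) 0)
(.lf (.negSucc 1699999999) 0)))
.ou)
(.sx (.ofNat 2535550000)
(.sx (.ofNat 1267775000)
(.lf (.negSucc 2029999999) 0)
(.lf (.negSucc 1239999999) 0))
(.sy (.negSucc 5915876239)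
.ou
(.lf (.negSucc 859999999) 0))))
.ou)
(.sx (.ofNat 5071100000)
(.sx (.ofNat 2535550000)
(.sy (.negSucc 2499999999)
(.lf (.negSucc 1429999999) 0)
(.lf (.negSucc 1869999999) 0))
(.sy (.negSucc 2499999999)
(.sx (.ofNat 3803325000)
(.lf (.negSucc 669999999) 0)
(.sy (.negSucc 3943917493)
.ou
(.lf (.negSucc 479999999) 0)))
(.lf (.negSucc 589999999) 0)))
(.sy (.negSucc 2957938119)
.ou
(.sx (.ofNat 7606650000)
(.sy (.negSucc 1478969059)
(.lf (.negSucc 309999999) 0)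
(.lf (.negSucc 389999999) 0))
(.sy (.negSucc 1971958746)
.ou
(.lf (.negSucc 279999999) 1))))))
(.sy (.ofNat 5000000000)
(.sx (.ofNat 5071100000)
(.sx (.ofNat 2535550000)
(.sy (.ofNat 2500000000)
(.lf (.negSucc 2769999999) 1)
(.sx (.ofNat 1267775000)
(.lf (.negSucc 7229999999) 1)
(.lf (.negSucc 3169999999) 0)))
(.sy (.ofNat 2500000000)
(.sy (.ofNat 1250000000)
(.lf (.negSucc 949999999) 0)
(.lf (.negSucc 1389999999) 0))
(.sy (.ofNat 3750000000)
(.sx (.ofNat 3803325000)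
(.lf (.negSucc 2149999999) 0)
(.lf (.negSucc 1939999999) 0))
(.sx (.ofNat 3803325000)
(.lf (.negSucc 2919999999) 0)
(.sy (.ofNat 3943917494)
(.lf (.negSucc 2409999999) 0)
.ou)))))
(.sy (.ofNat 2957938120)
(.sx (.ofNat 7606650000)
(.sy (.ofNat 1478969060)
(.lf (.negSucc 699999999) 1)
(.sy (.ofNat 2218453590)
(.lf (.negSucc 1129999999) 1)
(.sx (.ofNat 6338875000)
(.lf (.negSucc 1539999999) 0)
(.sy (.ofNat 2366350496)
(.lf (.negSucc 1319999999) 0)
.ou))))
(.sy (.ofNat 1971958747)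
(.sy (.ofNat 985979373)
(.lf (.negSucc 529999999) 1)
(.lf (.negSucc 839999999) 1))
.ou))
.ou))
(.sx (.ofNat 5071100000)
(.sx (.ofNat 2535550000)
(.sy (.ofNat 7500000000)
(.sx (.ofNat 1267775000)
(.sx (.ofNat 633887500)
(.lf (.negSucc 17129999999) 0)
(.lf (.negSucc 7169999999) 0))
(.sy (.ofNat 6250000000)
(.lf (.negSucc 4449999999) 0)
(.sx (.ofNat 1901662500)
(.lf (.negSucc 5879999999) 0)
(.lf (.negSucc 5239999999) 0))))
(.sx (.ofNat 1267775000)
(.sx (.ofNat 633887500)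
(.sx (.ofNat 316943750)
(.lf (.ofNat 0) 0)
(.lf (.negSucc 15319999999) 0))
(.lf (.negSucc 9659999999) 0))
(.sy (.ofNat 8750000000)
(.sx (.ofNat 1901662500)
(.lf (.negSucc 7039999999) 0)
(.sy (.ofNat 7887834987)
(.lf (.negSucc 6009999999) 0)
.ou))
(.sx (.ofNat 1901662500)
(.lf (.negSucc 8329999999) 0)
.ou))))
(.sy (.ofNat 5915876240)
(.sx (.ofNat 3803325000)
(.lf (.negSucc 3739999999) 1)
.ou)
.ou))
.ou)))

theorem run_tr121_1B : Tr.run 1 1 (T121.C.mdA 1500) (T121.K1.shA (w2n 1500 64641826 17391)) R121 (.ofNat 1500000000) tr121_1B (.ofNat 0) (.ofNat 10142200000) (.negSucc 9999999999) (.ofNat 10000000000)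
    (-100000000000) 100000000000 = true := by decide +kernel

/-- tree -/
def tr121_1BB : Tr :=
(.sy (.ofNat 0)
(.sy (.negSucc 4999999999)
(.sx (.negSucc 3910849999)
.ou
(.sy (.negSucc 7499999999)
(.sx (.negSucc 1955424999)
(.sy (.negSucc 7670966669)
.ou
(.lf (.negSucc 749999999) 0))
(.sy (.negSucc 8749999999)
(.lf (.negSucc 2129999999) 0)
(.lf (.negSucc 1199999999) 0)))
(.sx (.negSucc 1955424999)
(.lf (.negSucc 369999999) 1)
(.lf (.ofNat 40000000) 0))))
(.sx (.negSucc 3910849999)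
(.sy (.negSucc 3835483334)
.ou
(.sy (.negSucc 1917741667)
(.sx (.negSucc 5866274999)
(.sy (.negSucc 2556988889)
.ou
(.lf (.negSucc 39999999) 0))
(.lf (.ofNat 110000000) 0))
(.lf (.ofNat 250000000) 0)))
(.sy (.negSucc 2499999999)
(.sx (.negSucc 1955424999)
(.lf (.ofNat 270000000) 0)
(.lf (.ofNat 1400000000) 0))
(.lf (.ofNat 1170000000) 0))))
(.sy (.ofNat 5000000000)
(.sx (.negSucc 3910849999)
(.sy (.ofNat 3835483335)
(.sy (.ofNat 1917741667)
(.sx (.negSucc 5866274999)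
(.lf (.ofNat 380000000) 0)
(.lf (.ofNat 540000000) 0))
(.sx (.negSucc 5866274999)
(.sy (.ofNat 2556988890)
(.lf (.ofNat 480000000) 0)
.ou)
(.lf (.ofNat 560000000) 0)))
.ou)
(.sx (.negSucc 1955424999)
(.sy (.ofNat 2500000000)
(.lf (.ofNat 940000000) 0)
(.lf (.ofNat 860000000) 0))
(.sy (.ofNat 2500000000)
(.lf (.ofNat 3080000000) 0)
(.sx (.negSucc 977712499)
(.lf (.ofNat 2070000000) 0)
(.lf (.ofNat 7430000000) 0)))))
(.sx (.negSucc 3910849999)
.ou
(.sx (.negSucc 1955424999)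
(.sy (.ofNat 7670966670)
(.sy (.ofNat 6335483335)
(.lf (.ofNat 590000000) 0)
(.lf (.ofNat 300000000) 0))
.ou)
(.sx (.negSucc 977712499)
(.sy (.ofNat 7500000000)
(.lf (.ofNat 1810000000) 0)
(.lf (.ofNat 1200000000) 0))
(.sx (.negSucc 488856249)
(.lf (.ofNat 4880000000) 0)
(.sy (.ofNat 7500000000)
(.lf (.ofNat 17950000000) 0)
(.lf (.ofNat 19900000000) 0))))))))

theorem run_tr121_1BB : Tr.run 1 1 (T121.C.mdA 1500) (T121.K1.shA (w2n 1500 64641826 17391)) R121 (.ofNat 1500000000) tr121_1BB (.negSucc 7821699999) (.ofNat 0) (.negSucc 9999999999) (.ofNat 10000000000)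
    (-100000000000) 100000000000 = true := by decide +kernel

/-- tree -/
def tr121_1P : Tr :=
(.sy (.ofNat 1160250000)
(.sy (.negSucc 3330724999)
(.sx (.ofNat 3400000000)
(.sy (.negSucc 5576212499)
(.sx (.ofNat 2450000000)
(.lf (.negSucc 49999999) 0)
(.lf (.negSucc 119999999) 0))
(.sx (.ofNat 2450000000)
(.sy (.negSucc 4453468749)
(.lf (.negSucc 19999999) 0)
(.lf (.negSucc 19999999) 0))
(.sy (.negSucc 4453468749)
(.lf (.negSucc 69999999) 0)
(.lf (.negSucc 89999999) 0))))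
(.sy (.negSucc 5576212499)
(.sx (.ofNat 4350000000)
(.lf (.negSucc 139999999) 0)
(.lf (.negSucc 79999999) 0))
(.sx (.ofNat 4350000000)
(.lf (.negSucc 99999999) 0)
(.lf (.negSucc 59999999) 0))))
(.sx (.ofNat 3400000000)
(.sy (.negSucc 1085237499)
(.sx (.ofNat 2450000000)
(.sy (.negSucc 2207981249)
(.lf (.negSucc 49999999) 0)
(.sx (.ofNat 1975000000)
(.lf (.negSucc 69999999) 0)
(.lf (.negSucc 119999999) 0)))
(.sy (.negSucc 2207981249)
(.lf (.negSucc 129999999) 0)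
(.sx (.ofNat 2925000000)
(.lf (.negSucc 169999999) 0)
(.lf (.negSucc 219999999) 0))))
(.sx (.ofNat 2450000000)
(.sy (.ofNat 37506250)
(.sx (.ofNat 1975000000)
(.sy (.negSucc 523865624)
(.lf (.negSucc 109999999) 0)
(.lf (.negSucc 139999999) 0))
(.lf (.negSucc 189999999) 0))
(.sx (.ofNat 1975000000)
(.sy (.ofNat 598878125)
(.lf (.negSucc 169999999) 0)
(.lf (.negSucc 209999999) 0))
(.lf (.negSucc 269999999) 1)))
(.sy (.ofNat 37506250)
(.sx (.ofNat 2925000000)
(.lf (.negSucc 259999999) 0)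
(.lf (.negSucc 329999999) 0))
(.sx (.ofNat 2925000000)
(.lf (.negSucc 359999999) 0)
(.lf (.negSucc 469999999) 0)))))
(.sy (.negSucc 1085237499)
(.sx (.ofNat 4350000000)
(.sy (.negSucc 2207981249)
(.lf (.negSucc 179999999) 0)
(.lf (.negSucc 289999999) 0))
(.sy (.negSucc 2207981249)
(.lf (.negSucc 179999999) 0)
(.lf (.negSucc 319999999) 0)))
(.sx (.ofNat 4350000000)
(.sy (.ofNat 37506250)
(.sx (.ofNat 3875000000)
(.lf (.negSucc 399999999) 0)
(.lf (.negSucc 459999999) 0))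
(.sx (.ofNat 3875000000)
(.lf (.negSucc 569999999) 0)
(.lf (.negSucc 669999999) 0)))
(.sy (.ofNat 37506250)
(.lf (.negSucc 519999999) 0)
(.sx (.ofNat 4825000000)
(.lf (.negSucc 749999999) 0)
(.lf (.negSucc 789999999) 0)))))))
(.sy (.ofNat 5651225000)
(.sx (.ofNat 3400000000)
(.sy (.ofNat 3405737500)
(.sx (.ofNat 2450000000)
(.sy (.ofNat 2282993750)
(.sx (.ofNat 1975000000)
(.sy (.ofNat 1721621875)
(.lf (.negSucc 249999999) 0)
(.lf (.negSucc 289999999) 0))
(.sy (.ofNat 1721621875)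
(.lf (.negSucc 339999999) 0)
(.lf (.negSucc 399999999) 0)))
(.sx (.ofNat 1975000000)
(.lf (.negSucc 349999999) 0)
(.lf (.negSucc 479999999) 0)))
(.sy (.ofNat 2282993750)
(.sx (.ofNat 2925000000)
(.lf (.negSucc 489999999) 1)
(.lf (.negSucc 629999999) 1))
(.sx (.ofNat 2925000000)
(.lf (.negSucc 639999999) 1)
(.lf (.negSucc 819999999) 1))))
(.sx (.ofNat 2450000000)
(.sy (.ofNat 4528481250)
(.sx (.ofNat 1975000000)
(.lf (.negSucc 439999999) 0)
(.lf (.negSucc 599999999) 0))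
(.lf (.negSucc 629999999) 1))
(.sy (.ofNat 4528481250)
(.sx (.ofNat 2925000000)
(.lf (.negSucc 799999999) 1)
(.lf (.negSucc 1019999999) 1))
(.sx (.ofNat 2925000000)
(.lf (.negSucc 949999999) 1)
(.lf (.negSucc 1219999999) 1)))))
(.sy (.ofNat 3405737500)
(.sx (.ofNat 4350000000)
(.sy (.ofNat 2282993750)
(.sx (.ofNat 3875000000)
(.lf (.negSucc 779999999) 1)
(.lf (.negSucc 919999999) 1))
(.sx (.ofNat 3875000000)
(.lf (.negSucc 1019999999) 1)
(.lf (.negSucc 1229999999) 1)))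
(.sy (.ofNat 2282993750)
(.sx (.ofNat 4825000000)
(.lf (.negSucc 1049999999) 1)
(.lf (.negSucc 1129999999) 1))
(.sx (.ofNat 4825000000)
(.lf (.negSucc 1409999999) 1)
(.lf (.negSucc 1529999999) 1))))
(.sx (.ofNat 4350000000)
(.sy (.ofNat 4528481250)
(.sx (.ofNat 3875000000)
(.sy (.ofNat 3967109375)
(.lf (.negSucc 1219999999) 1)
(.lf (.negSucc 1349999999) 1))
(.sy (.ofNat 3967109375)
(.lf (.negSucc 1469999999) 1)
(.lf (.negSucc 1629999999) 1)))
(.sx (.ofNat 3875000000)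
(.lf (.negSucc 1529999999) 1)
(.lf (.negSucc 1819999999) 1)))
(.sy (.ofNat 4528481250)
(.sx (.ofNat 4825000000)
(.sy (.ofNat 3967109375)
(.lf (.negSucc 1699999999) 1)
(.lf (.negSucc 1859999999) 1))
(.lf (.negSucc 1889999999) 1))
(.sx (.ofNat 4825000000)
(.lf (.negSucc 2009999999) 1)
(.lf (.negSucc 2009999999) 1))))))
(.sx (.ofNat 3400000000)
(.sy (.ofNat 7896712500)
(.sx (.ofNat 2450000000)
(.sy (.ofNat 6773968750)
(.lf (.negSucc 729999999) 1)
(.lf (.negSucc 829999999) 1))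
(.sy (.ofNat 6773968750)
(.sx (.ofNat 2925000000)
(.lf (.negSucc 1089999999) 1)
(.lf (.negSucc 1379999999) 1))
(.lf (.negSucc 1309999999) 1)))
(.sx (.ofNat 2450000000)
(.lf (.negSucc 919999999) 1)
(.lf (.negSucc 1249999999) 1)))
(.sy (.ofNat 7896712500)
(.sx (.ofNat 4350000000)
(.sy (.ofNat 6773968750)
(.sx (.ofNat 3875000000)
(.lf (.negSucc 1659999999) 1)
(.lf (.negSucc 1879999999) 1))
(.sy (.ofNat 7335340625)
(.lf (.negSucc 1729999999) 1)
(.lf (.negSucc 1639999999) 1)))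
(.sy (.ofNat 6773968750)
(.sx (.ofNat 4825000000)
(.lf (.negSucc 1939999999) 1)
(.lf (.negSucc 1819999999) 1))
(.sx (.ofNat 4825000000)
(.lf (.negSucc 1649999999) 1)
(.lf (.negSucc 1459999999) 1))))
(.sx (.ofNat 4350000000)
(.sy (.ofNat 9019456250)
(.lf (.negSucc 1459999999) 1)
(.lf (.negSucc 1159999999) 1))
(.sy (.ofNat 9019456250)
(.lf (.negSucc 1169999999) 1)
(.lf (.negSucc 769999999) 0)))))))

theorem run_tr121_1P : Tr.run 1 2 (T121.C.mdA 1500) (T121.K1.shA (w2n 1500 64641826 17391)) R121 (.ofNat 1500000000) tr121_1P (.ofNat 1500000000) (.ofNat 5300000000) (.negSucc 7821699999) (.ofNat 10142200000)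
    (-100000000000) 100000000000 = true := by decide +kernel

/-- tree -/
def tr121_1N : Tr :=
(.sy (.ofNat 1160250000)
(.sx (.negSucc 4674999999)
(.sy (.negSucc 3330724999)
(.sy (.negSucc 5576212499)
(.sx (.negSucc 6262499999)
(.sy (.negSucc 6698956249)
(.lf (.negSucc 139999999) 0)
(.lf (.negSucc 409999999) 0))
(.sy (.negSucc 6698956249)
(.lf (.ofNat 90000000) 0)
(.lf (.negSucc 119999999) 0)))
(.sx (.negSucc 6262499999)
(.sy (.negSucc 4453468749)
(.lf (.negSucc 609999999) 0)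
(.lf (.negSucc 759999999) 0))
(.sy (.negSucc 4453468749)
(.lf (.negSucc 279999999) 0)
(.sx (.negSucc 5468749999)
(.lf (.negSucc 479999999) 0)
(.lf (.negSucc 319999999) 0)))))
(.sx (.negSucc 6262499999)
(.sy (.negSucc 1085237499)
(.sx (.negSucc 7056249999)
(.sy (.negSucc 2207981249)
(.lf (.negSucc 979999999) 0)
(.lf (.negSucc 1069999999) 0))
(.sy (.negSucc 2207981249)
(.lf (.negSucc 769999999) 0)
(.lf (.negSucc 859999999) 0)))
(.sx (.negSucc 7056249999)
(.sy (.ofNat 37506250)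
(.lf (.negSucc 1139999999) 0)
(.sx (.negSucc 7453124999)
(.lf (.negSucc 1239999999) 0)
(.lf (.negSucc 1129999999) 0)))
(.sy (.ofNat 37506250)
(.lf (.negSucc 919999999) 0)
(.sx (.negSucc 6659374999)
(.lf (.negSucc 1019999999) 0)
(.lf (.negSucc 909999999) 0)))))
(.sy (.negSucc 1085237499)
(.sx (.negSucc 5468749999)
(.sy (.negSucc 2207981249)
(.lf (.negSucc 579999999) 0)
(.lf (.negSucc 659999999) 0))
(.sy (.negSucc 2207981249)
(.lf (.negSucc 409999999) 0)
(.lf (.negSucc 479999999) 0)))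
(.sx (.negSucc 5468749999)
(.sy (.ofNat 37506250)
(.lf (.negSucc 719999999) 0)
(.lf (.negSucc 759999999) 0))
(.sy (.ofNat 37506250)
(.lf (.negSucc 529999999) 0)
(.lf (.negSucc 569999999) 0))))))
(.sy (.negSucc 3330724999)
(.sy (.negSucc 5576212499)
(.sx (.negSucc 3087499999)
(.sy (.negSucc 6698956249)
(.lf (.ofNat 240000000) 0)
(.lf (.ofNat 90000000) 0))
(.sy (.negSucc 6698956249)
(.lf (.ofNat 270000000) 0)
(.lf (.ofNat 180000000) 0)))
(.sx (.negSucc 3087499999)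
(.sy (.negSucc 4453468749)
(.lf (.negSucc 29999999) 0)
(.sx (.negSucc 3881249999)
(.lf (.negSucc 179999999) 0)
(.lf (.negSucc 69999999) 0)))
(.sy (.negSucc 4453468749)
(.lf (.ofNat 110000000) 0)
(.sx (.negSucc 2293749999)
(.lf (.ofNat 20000000) 0)
(.lf (.ofNat 70000000) 0)))))
(.sx (.negSucc 3087499999)
(.sy (.negSucc 1085237499)
(.sx (.negSucc 3881249999)
(.sy (.negSucc 2207981249)
(.lf (.negSucc 259999999) 0)
(.lf (.negSucc 319999999) 0))
(.sy (.negSucc 2207981249)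
(.lf (.negSucc 139999999) 0)
(.lf (.negSucc 189999999) 0)))
(.sx (.negSucc 3881249999)
(.sy (.ofNat 37506250)
(.sx (.negSucc 4278124999)
(.lf (.negSucc 409999999) 0)
(.lf (.negSucc 329999999) 0))
(.sx (.negSucc 4278124999)
(.lf (.negSucc 439999999) 0)
(.lf (.negSucc 359999999) 0)))
(.sy (.ofNat 37506250)
(.sx (.negSucc 3484374999)
(.lf (.negSucc 259999999) 0)
(.lf (.negSucc 199999999) 0))
(.sx (.negSucc 3484374999)
(.lf (.negSucc 289999999) 0)
(.lf (.negSucc 229999999) 0)))))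
(.sy (.negSucc 1085237499)
(.sx (.negSucc 2293749999)
(.sy (.negSucc 2207981249)
(.lf (.negSucc 39999999) 0)
(.sx (.negSucc 2690624999)
(.lf (.negSucc 109999999) 0)
(.lf (.negSucc 59999999) 0)))
(.sy (.negSucc 2207981249)
(.lf (.ofNat 30000000) 0)
(.sx (.negSucc 1896874999)
(.lf (.negSucc 19999999) 0)
(.lf (.ofNat 10000000) 0))))
(.sx (.negSucc 2293749999)
(.sy (.ofNat 37506250)
(.sx (.negSucc 2690624999)
(.lf (.negSucc 139999999) 0)
(.lf (.negSucc 99999999) 0))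
(.sx (.negSucc 2690624999)
(.lf (.negSucc 169999999) 0)
(.lf (.negSucc 119999999) 0)))
(.sy (.ofNat 37506250)
(.sx (.negSucc 1896874999)
(.lf (.negSucc 49999999) 0)
(.sy (.negSucc 523865624)
(.lf (.negSucc 19999999) 0)
(.lf (.negSucc 29999999) 0)))
(.sx (.negSucc 1896874999)
(.lf (.negSucc 79999999) 0)
(.sy (.ofNat 598878125)
(.lf (.negSucc 39999999) 0)
(.lf (.negSucc 49999999) 0)))))))))
(.sx (.negSucc 4674999999)
(.sy (.ofNat 5651225000)
(.sx (.negSucc 6262499999)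
(.sx (.negSucc 7056249999)
(.sy (.ofNat 3405737500)
(.sx (.negSucc 7453124999)
(.sy (.ofNat 2282993750)
(.sx (.negSucc 7651562499)
(.lf (.negSucc 1299999999) 0)
(.lf (.negSucc 1239999999) 0))
(.sx (.negSucc 7651562499)
(.lf (.negSucc 1319999999) 0)
(.lf (.negSucc 1259999999) 0)))
(.sy (.ofNat 2282993750)
(.lf (.negSucc 1159999999) 0)
(.lf (.negSucc 1169999999) 0)))
(.sx (.negSucc 7453124999)
(.sy (.ofNat 4528481250)
(.sx (.negSucc 7651562499)
(.lf (.negSucc 1319999999) 0)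
(.lf (.negSucc 1259999999) 0))
(.lf (.negSucc 1289999999) 0))
(.sy (.ofNat 4528481250)
(.lf (.negSucc 1179999999) 0)
(.lf (.negSucc 1169999999) 0))))
(.sy (.ofNat 3405737500)
(.sx (.negSucc 6659374999)
(.sy (.ofNat 2282993750)
(.lf (.negSucc 1049999999) 0)
(.lf (.negSucc 1059999999) 0))
(.sy (.ofNat 2282993750)
(.lf (.negSucc 939999999) 0)
(.lf (.negSucc 949999999) 0)))
(.sx (.negSucc 6659374999)
(.sy (.ofNat 4528481250)
(.lf (.negSucc 1069999999) 0)
(.lf (.negSucc 1059999999) 0))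
(.sy (.ofNat 4528481250)
(.lf (.negSucc 959999999) 0)
(.lf (.negSucc 959999999) 0)))))
(.sy (.ofNat 3405737500)
(.sx (.negSucc 5468749999)
(.sx (.negSucc 5865624999)
(.sy (.ofNat 2282993750)
(.lf (.negSucc 829999999) 0)
(.lf (.negSucc 849999999) 0))
(.lf (.negSucc 739999999) 0))
(.sx (.negSucc 5071874999)
(.lf (.negSucc 649999999) 0)
(.lf (.negSucc 559999999) 0)))
(.sx (.negSucc 5468749999)
(.sx (.negSucc 5865624999)
(.lf (.negSucc 849999999) 0)
(.lf (.negSucc 749999999) 0))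
(.sx (.negSucc 5071874999)
(.lf (.negSucc 659999999) 0)
(.lf (.negSucc 569999999) 0)))))
(.sx (.negSucc 6262499999)
(.sy (.ofNat 7896712500)
(.sx (.negSucc 7056249999)
(.sx (.negSucc 7453124999)
(.sy (.ofNat 6773968750)
(.lf (.negSucc 1269999999) 0)
(.lf (.negSucc 1249999999) 0))
(.lf (.negSucc 1149999999) 0))
(.sy (.ofNat 6773968750)
(.lf (.negSucc 999999999) 0)
(.lf (.negSucc 979999999) 0)))
(.sx (.negSucc 7056249999)
(.lf (.negSucc 1149999999) 0)
(.lf (.negSucc 939999999) 0)))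
(.sy (.ofNat 7896712500)
(.sx (.negSucc 5468749999)
(.lf (.negSucc 789999999) 0)
(.lf (.negSucc 599999999) 0))
(.sx (.negSucc 5468749999)
(.lf (.negSucc 749999999) 0)
(.lf (.negSucc 579999999) 0)))))
(.sy (.ofNat 5651225000)
(.sx (.negSucc 3087499999)
(.sy (.ofNat 3405737500)
(.sx (.negSucc 3881249999)
(.sx (.negSucc 4278124999)
(.sy (.ofNat 2282993750)
(.lf (.negSucc 469999999) 0)
(.lf (.negSucc 479999999) 0))
(.sy (.ofNat 2282993750)
(.lf (.negSucc 389999999) 0)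
(.lf (.negSucc 399999999) 0)))
(.sy (.ofNat 2282993750)
(.sx (.negSucc 3484374999)
(.lf (.negSucc 309999999) 0)
(.lf (.negSucc 249999999) 0))
(.lf (.negSucc 289999999) 0)))
(.sx (.negSucc 3881249999)
(.sy (.ofNat 4528481250)
(.lf (.negSucc 439999999) 0)
(.lf (.negSucc 449999999) 0))
(.lf (.negSucc 299999999) 0)))
(.sy (.ofNat 3405737500)
(.sx (.negSucc 2293749999)
(.sy (.ofNat 2282993750)
(.sx (.negSucc 2690624999)
(.lf (.negSucc 189999999) 0)
(.lf (.negSucc 139999999) 0))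
(.lf (.negSucc 179999999) 0))
(.sy (.ofNat 2282993750)
(.sx (.negSucc 1896874999)
(.lf (.negSucc 99999999) 0)
(.lf (.negSucc 69999999) 0))
(.lf (.negSucc 99999999) 0)))
(.sx (.negSucc 2293749999)
(.lf (.negSucc 189999999) 0)
(.lf (.negSucc 119999999) 0))))
(.sx (.negSucc 3087499999)
(.sy (.ofNat 7896712500)
(.sx (.negSucc 3881249999)
(.lf (.negSucc 439999999) 0)
(.lf (.negSucc 309999999) 0))
(.lf (.negSucc 369999999) 0))
(.sy (.ofNat 7896712500)
(.sx (.negSucc 2293749999)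
(.lf (.negSucc 209999999) 0)
(.lf (.negSucc 149999999) 0))
(.lf (.negSucc 209999999) 0))))))

theorem run_tr121_1N : Tr.run 1 2 (T121.C.mdA 1500) (T121.K1.shA (w2n 1500 64641826 17391)) R121 (.ofNat 1500000000) tr121_1N (.negSucc 7849999999) (.negSucc 1499999999) (.negSucc 7821699999) (.ofNat 10142200000)
    (-100000000000) 100000000000 = true := by decide +kernel

/-- tree -/
def br121 : Tr :=
(.lf (.ofNat 0) 0)

theorem run_br121 : Tr.runB T121.C T121.K0 (D121.bt * 1500 / 10000 + 1) R121.om br121 (-D121.m) D121.M D121.ylo D121.yhi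
    (-R121.bl) R121.bh = true := by decide +kernel

end Pool.Agent.Helper30.DL
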