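import Pool.Agent.Helper30.DL.Run.C14

/-! MP_b4564f_an, all delays. Cell 14: kernel computations (generated). -/

set_option autoImplicit false
set_option maxRecDepth 100000

namespace Pool.Agent.Helper30.DL

/-- tree -/
def tr14_0A : Tr :=
(.sy (.ofNat 0)
(.sy (.negSucc 4999999999)
(.sx (.ofNat 2500000000)
(.sy (.negSucc 7499999999)
(.lf (.negSucc 939999999) 0)
(.lf (.negSucc 959999999) 0))
(.sx (.ofNat 3750000000)
(.sy (.negSucc 7499999999)
(.lf (.negSucc 179999999) 0)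
(.lf (.negSucc 209999999) 0))
(.sy (.negSucc 7499999999)
(.sx (.ofNat 4375000000)
(.lf (.ofNat 170000000) 0)
(.lf (.ofNat 360000000) 0))
(.sx (.ofNat 4375000000)
(.lf (.ofNat 170000000) 0)
(.lf (.ofNat 390000000) 0)))))
(.sx (.ofNat 2500000000)
(.sy (.negSucc 2499999999)
(.lf (.negSucc 999999999) 0)
(.lf (.negSucc 1059999999) 0))
(.sx (.ofNat 3750000000)
(.sy (.negSucc 2499999999)
(.lf (.negSucc 299999999) 0)
(.lf (.negSucc 439999999) 0))
(.sy (.negSucc 2499999999)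
(.sx (.ofNat 4375000000)
(.lf (.ofNat 80000000) 0)
(.sy (.negSucc 3749999999)
(.lf (.ofNat 350000000) 0)
(.lf (.ofNat 300000000) 0)))
(.sx (.ofNat 4375000000)
(.lf (.negSucc 59999999) 0)
(.lf (.ofNat 200000000) 0))))))
(.sy (.ofNat 5000000000)
(.sx (.ofNat 2500000000)
(.sy (.ofNat 2500000000)
(.lf (.negSucc 1139999999) 0)
(.sx (.ofNat 1250000000)
(.lf (.negSucc 1299999999) 0)
(.lf (.negSucc 1129999999) 0)))
(.sx (.ofNat 3750000000)
(.sy (.ofNat 2500000000)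
(.lf (.negSucc 609999999) 0)
(.lf (.negSucc 789999999) 0))
(.sy (.ofNat 2500000000)
(.lf (.negSucc 89999999) 1)
(.lf (.negSucc 219999999) 1))))
(.sx (.ofNat 2500000000)
(.sy (.ofNat 7500000000)
(.sx (.ofNat 1250000000)
(.lf (.negSucc 1349999999) 0)
(.sy (.ofNat 6250000000)
(.lf (.negSucc 1239999999) 0)
(.lf (.negSucc 1319999999) 0)))
(.sy (.ofNat 8750000000)
(.sx (.ofNat 1250000000)
(.lf (.negSucc 1399999999) 0)
(.lf (.negSucc 1389999999) 0))
(.sx (.ofNat 1250000000)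
(.lf (.negSucc 1429999999) 0)
(.lf (.negSucc 1469999999) 0))))
(.sx (.ofNat 3750000000)
(.sy (.ofNat 7500000000)
(.sx (.ofNat 3125000000)
(.lf (.negSucc 1069999999) 0)
(.lf (.negSucc 829999999) 0))
(.sx (.ofNat 3125000000)
(.lf (.negSucc 1239999999) 0)
(.lf (.negSucc 949999999) 0)))
(.sy (.ofNat 7500000000)
(.sx (.ofNat 4375000000)
(.lf (.negSucc 479999999) 0)
(.lf (.negSucc 29999999) 0))
(.sx (.ofNat 4375000000)
(.lf (.negSucc 489999999) 0)
(.lf (.ofNat 120000000) 0)))))))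

theorem run_tr14_0A : Tr.run 0 0 T14.C T14.K0 R14 (.ofNat 5000000000) tr14_0A (.ofNat 0) (.ofNat 5000000000) (.negSucc 9999999999) (.ofNat 10000000000)
    (-100000000000) 100000000000 = true := by decide +kernel

/-- tree -/
def tr14_0AA : Tr :=
(.sy (.ofNat 0)
(.sy (.negSucc 4999999999)
(.sx (.negSucc 2499999999)
(.sy (.negSucc 7499999999)
(.sx (.negSucc 3749999999)
(.lf (.negSucc 1839999999) 0)
(.lf (.negSucc 1819999999) 0))
(.sx (.negSucc 3749999999)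
(.lf (.negSucc 1839999999) 0)
(.lf (.negSucc 1799999999) 0)))
(.sy (.negSucc 7499999999)
(.lf (.negSucc 1619999999) 0)
(.lf (.negSucc 1599999999) 0)))
(.sx (.negSucc 2499999999)
(.sy (.negSucc 2499999999)
(.sx (.negSucc 3749999999)
(.lf (.negSucc 1779999999) 0)
(.lf (.negSucc 1749999999) 0))
(.sy (.negSucc 1249999999)
(.lf (.negSucc 1699999999) 0)
(.lf (.negSucc 1639999999) 0)))
(.sy (.negSucc 2499999999)
(.lf (.negSucc 1569999999) 0)
(.lf (.negSucc 1519999999) 0))))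
(.sy (.ofNat 5000000000)
(.sy (.ofNat 2500000000)
(.sx (.negSucc 2499999999)
(.sy (.ofNat 1250000000)
(.lf (.negSucc 1559999999) 0)
(.lf (.negSucc 1469999999) 0))
(.lf (.negSucc 1449999999) 0))
(.sx (.negSucc 2499999999)
(.sy (.ofNat 3750000000)
(.lf (.negSucc 1369999999) 0)
(.lf (.negSucc 1249999999) 0))
(.sy (.ofNat 3750000000)
(.lf (.negSucc 1389999999) 0)
(.lf (.negSucc 1349999999) 0))))
(.sx (.negSucc 2499999999)
(.sy (.ofNat 7500000000)
(.sy (.ofNat 6250000000)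
(.sx (.negSucc 3749999999)
(.lf (.negSucc 1059999999) 0)
(.lf (.negSucc 1169999999) 0))
(.sx (.negSucc 3749999999)
(.lf (.negSucc 889999999) 0)
(.lf (.negSucc 1039999999) 0)))
(.sy (.ofNat 8750000000)
(.sx (.negSucc 3749999999)
(.lf (.negSucc 689999999) 0)
(.lf (.negSucc 899999999) 0))
(.sx (.negSucc 3749999999)
(.lf (.negSucc 479999999) 0)
(.lf (.negSucc 749999999) 0))))
(.sy (.ofNat 7500000000)
(.sx (.negSucc 1249999999)
(.sy (.ofNat 6250000000)
(.lf (.negSucc 1259999999) 0)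
(.lf (.negSucc 1179999999) 0))
(.sy (.ofNat 6250000000)
(.lf (.negSucc 1329999999) 0)
(.lf (.negSucc 1299999999) 0)))
(.sx (.negSucc 1249999999)
(.sy (.ofNat 8750000000)
(.lf (.negSucc 1089999999) 0)
(.lf (.negSucc 999999999) 0))
(.sy (.ofNat 8750000000)
(.lf (.negSucc 1269999999) 0)
(.lf (.negSucc 1239999999) 0)))))))

theorem run_tr14_0AA : Tr.run 0 0 T14.C T14.K0 R14 (.ofNat 5000000000) tr14_0AA (.negSucc 4999999999) (.ofNat 0) (.negSucc 9999999999) (.ofNat 10000000000)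
    (-100000000000) 100000000000 = true := by decide +kernel

/-- tree -/
def tr14_0B : Tr :=
(.sy (.ofNat 0)
(.sy (.negSucc 4999999999)
(.sx (.ofNat 5424300000)
(.sy (.negSucc 7499999999)
(.sy (.negSucc 8749999999)
(.sx (.ofNat 2712150000)
(.sy (.negSucc 9374999999)
(.lf (.negSucc 1529999999) 0)
(.lf (.negSucc 1319999999) 0))
(.sy (.negSucc 9374999999)
(.sx (.ofNat 4068225000)
(.lf (.negSucc 1709999999) 0)
(.lf (.negSucc 1709999999) 0))
(.sx (.ofNat 4068225000)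
(.lf (.negSucc 1479999999) 0)
(.lf (.negSucc 1489999999) 0))))
(.sx (.ofNat 2712150000)
(.sy (.negSucc 8124999999)
(.lf (.negSucc 1129999999) 0)
(.lf (.negSucc 959999999) 0))
(.sy (.negSucc 8124999999)
(.lf (.negSucc 1279999999) 0)
(.lf (.negSucc 1079999999) 0))))
(.sy (.negSucc 6249999999)
(.sx (.ofNat 2712150000)
(.sy (.negSucc 6874999999)
(.lf (.negSucc 799999999) 0)
(.lf (.negSucc 649999999) 0))
(.sy (.negSucc 6874999999)
(.lf (.negSucc 899999999) 0)
(.lf (.negSucc 729999999) 0)))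
(.sx (.ofNat 2712150000)
(.sy (.negSucc 5624999999)
(.lf (.negSucc 519999999) 0)
(.lf (.negSucc 409999999) 0))
(.sy (.negSucc 5624999999)
(.lf (.negSucc 579999999) 0)
(.lf (.negSucc 439999999) 0)))))
(.sy (.negSucc 9217779252)
.ou
(.sy (.negSucc 7108889626)
(.sx (.ofNat 8136450000)
(.sy (.negSucc 8163334439)
(.sx (.ofNat 6780375000)
(.sy (.negSucc 8690556846)
(.lf (.negSucc 1409999999) 0)
(.lf (.negSucc 1249999999) 0))
.ou)
(.sy (.negSucc 7636112033)
(.sx (.ofNat 6780375000)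
(.lf (.negSucc 1099999999) 0)
.ou)
(.lf (.negSucc 929999999) 0)))
.ou)
(.sx (.ofNat 8136450000)
(.sy (.negSucc 6054444813)
(.sy (.negSucc 6581667220)
(.lf (.negSucc 799999999) 0)
(.lf (.negSucc 669999999) 0))
(.sy (.negSucc 5527222406)
(.lf (.negSucc 549999999) 0)
(.lf (.negSucc 439999999) 0)))
(.sy (.negSucc 6145186168)
.ou
(.sy (.negSucc 5572593084)
(.lf (.negSucc 509999999) 0)
(.lf (.negSucc 409999999) 0)))))))
(.sx (.ofNat 5424300000)
(.sy (.negSucc 2499999999)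
(.sx (.ofNat 2712150000)
(.sy (.negSucc 3749999999)
(.sy (.negSucc 4374999999)
(.lf (.negSucc 309999999) 0)
(.lf (.negSucc 219999999) 0))
(.lf (.negSucc 109999999) 0))
(.sy (.negSucc 3749999999)
(.sy (.negSucc 4374999999)
(.lf (.negSucc 319999999) 0)
(.lf (.negSucc 219999999) 0))
(.sx (.ofNat 4068225000)
(.lf (.negSucc 99999999) 0)
(.lf (.negSucc 99999999) 0))))
(.sx (.ofNat 2712150000)
(.sy (.negSucc 1249999999)
(.lf (.negSucc 19999999) 0)
(.lf (.ofNat 10000000) 0))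
(.sy (.negSucc 1249999999)
(.lf (.ofNat 0) 0)
(.lf (.ofNat 30000000) 0))))
(.sy (.negSucc 2499999999)
(.sx (.ofNat 8136450000)
(.sy (.negSucc 3749999999)
(.sy (.negSucc 4374999999)
(.lf (.negSucc 329999999) 0)
(.lf (.negSucc 219999999) 0))
(.sx (.ofNat 6780375000)
(.lf (.negSucc 99999999) 0)
(.lf (.negSucc 99999999) 0)))
(.sy (.negSucc 3749999999)
(.sy (.negSucc 4374999999)
(.lf (.negSucc 309999999) 0)
(.lf (.negSucc 219999999) 0))
(.sx (.ofNat 9492525000)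
(.lf (.negSucc 109999999) 0)
(.lf (.negSucc 109999999) 0))))
(.sx (.ofNat 8136450000)
(.sx (.ofNat 6780375000)
(.sy (.negSucc 1249999999)
(.lf (.ofNat 10000000) 0)
(.lf (.ofNat 30000000) 0))
(.sy (.negSucc 1249999999)
(.lf (.ofNat 0) 0)
(.lf (.ofNat 20000000) 0)))
(.sx (.ofNat 9492525000)
(.sy (.negSucc 1249999999)
(.lf (.negSucc 9999999) 0)
(.lf (.ofNat 0) 0))
(.sy (.negSucc 1249999999)
(.lf (.negSucc 29999999) 0)
(.lf (.negSucc 29999999) 0)))))))
(.sx (.ofNat 5424300000)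
(.sy (.ofNat 5000000000)
(.sy (.ofNat 2500000000)
(.sx (.ofNat 2712150000)
(.sy (.ofNat 1250000000)
(.lf (.ofNat 0) 0)
(.lf (.negSucc 69999999) 0))
(.sy (.ofNat 1250000000)
(.lf (.negSucc 9999999) 0)
(.lf (.negSucc 109999999) 0)))
(.sx (.ofNat 2712150000)
(.sy (.ofNat 3750000000)
(.lf (.negSucc 179999999) 0)
(.sx (.ofNat 1356075000)
(.lf (.negSucc 299999999) 0)
(.lf (.negSucc 379999999) 0)))
(.sy (.ofNat 3750000000)
(.sx (.ofNat 4068225000)
(.lf (.negSucc 239999999) 0)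
(.lf (.negSucc 259999999) 0))
(.sx (.ofNat 4068225000)
(.lf (.negSucc 429999999) 0)
(.sy (.ofNat 4375000000)
(.lf (.negSucc 379999999) 0)
(.lf (.negSucc 449999999) 0))))))
(.sy (.ofNat 7500000000)
(.sx (.ofNat 2712150000)
(.sy (.ofNat 6250000000)
(.sx (.ofNat 1356075000)
(.lf (.negSucc 489999999) 0)
(.sy (.ofNat 5625000000)
(.lf (.negSucc 529999999) 0)
(.lf (.negSucc 649999999) 0)))
(.sx (.ofNat 1356075000)
(.sy (.ofNat 6875000000)
(.lf (.negSucc 649999999) 0)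
(.lf (.negSucc 779999999) 0))
(.sy (.ofNat 6875000000)
(.lf (.negSucc 769999999) 0)
(.lf (.negSucc 889999999) 0))))
(.sx (.ofNat 4068225000)
(.sy (.ofNat 6250000000)
(.sy (.ofNat 5625000000)
(.lf (.negSucc 579999999) 0)
(.lf (.negSucc 679999999) 0))
(.sy (.ofNat 6875000000)
(.lf (.negSucc 769999999) 0)
(.lf (.negSucc 859999999) 1)))
(.sy (.ofNat 6250000000)
(.sx (.ofNat 4746262500)
(.sy (.ofNat 5625000000)
(.lf (.negSucc 539999999) 0)
(.lf (.negSucc 599999999) 0))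
(.sy (.ofNat 5625000000)
(.lf (.negSucc 459999999) 0)
(.lf (.negSucc 469999999) 0)))
(.sx (.ofNat 4746262500)
(.sy (.ofNat 6875000000)
(.lf (.negSucc 629999999) 0)
(.lf (.negSucc 639999999) 0))
(.sy (.ofNat 6875000000)
(.lf (.negSucc 439999999) 0)
(.lf (.negSucc 359999999) 0))))))
(.sx (.ofNat 2712150000)
(.sy (.ofNat 8750000000)
(.sx (.ofNat 1356075000)
(.sy (.ofNat 8125000000)
(.lf (.negSucc 909999999) 0)
(.lf (.negSucc 1049999999) 0))
(.sy (.ofNat 8125000000)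
(.lf (.negSucc 1019999999) 0)
(.sy (.ofNat 8437500000)
(.lf (.negSucc 1119999999) 0)
(.lf (.negSucc 1189999999) 0))))
(.sy (.ofNat 9375000000)
(.sx (.ofNat 1356075000)
(.sx (.ofNat 678037500)
(.lf (.negSucc 1159999999) 0)
(.lf (.negSucc 1249999999) 0))
(.sy (.ofNat 9062500000)
(.lf (.negSucc 1259999999) 0)
(.lf (.negSucc 1329999999) 0)))
(.sx (.ofNat 1356075000)
(.sx (.ofNat 678037500)
(.lf (.negSucc 1319999999) 0)
(.lf (.negSucc 1409999999) 0))
(.sx (.ofNat 2034112500)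
(.lf (.negSucc 1439999999) 0)
(.lf (.negSucc 1389999999) 0)))))
(.sx (.ofNat 4068225000)
(.sy (.ofNat 8750000000)
(.sx (.ofNat 3390187500)
(.sy (.ofNat 8125000000)
(.lf (.negSucc 989999999) 0)
(.lf (.negSucc 1069999999) 0))
(.sy (.ofNat 8125000000)
(.lf (.negSucc 849999999) 0)
(.lf (.negSucc 869999999) 0)))
(.sx (.ofNat 3390187500)
(.sy (.ofNat 9375000000)
(.lf (.negSucc 1139999999) 0)
(.lf (.negSucc 1199999999) 0))
(.sy (.ofNat 9375000000)
(.lf (.negSucc 859999999) 0)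
(.lf (.negSucc 809999999) 0))))
(.sy (.ofNat 8750000000)
(.sx (.ofNat 4746262500)
(.sy (.ofNat 8125000000)
(.lf (.negSucc 599999999) 0)
(.lf (.negSucc 519999999) 0))
(.sy (.ofNat 8125000000)
(.lf (.negSucc 219999999) 0)
(.lf (.negSucc 19999999) 0)))
(.sx (.ofNat 4746262500)
(.sy (.ofNat 9375000000)
(.lf (.negSucc 389999999) 0)
(.lf (.negSucc 189999999) 0))
(.lf (.ofNat 410000000) 1)))))))
(.sy (.ofNat 9217779253)
(.sy (.ofNat 4608889626)
(.sx (.ofNat 8136450000)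
(.sy (.ofNat 2304444813)
(.sy (.ofNat 1152222406)
(.lf (.negSucc 19999999) 0)
(.lf (.negSucc 109999999) 0))
(.sx (.ofNat 6780375000)
(.sy (.ofNat 3456667219)
(.lf (.negSucc 219999999) 0)
(.sx (.ofNat 6102337500)
(.lf (.negSucc 329999999) 0)
(.lf (.negSucc 259999999) 0)))
(.sy (.ofNat 3456667219)
(.lf (.negSucc 169999999) 0)
(.sy (.ofNat 4032778422)
(.lf (.negSucc 149999999) 0)
(.lf (.negSucc 79999999) 0)))))
(.sy (.ofNat 2304444813)
(.sx (.ofNat 9492525000)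
(.sy (.ofNat 1152222406)
(.lf (.negSucc 49999999) 0)
(.lf (.negSucc 99999999) 0))
(.sy (.ofNat 1152222406)
(.lf (.negSucc 69999999) 0)
(.lf (.negSucc 89999999) 0)))
(.sy (.ofNat 3456667219)
(.sx (.ofNat 9492525000)
(.lf (.negSucc 79999999) 1)
(.sy (.ofNat 2880556016)
(.lf (.ofNat 0) 0)
(.lf (.ofNat 130000000) 0)))
(.sx (.ofNat 9492525000)
(.sy (.ofNat 4032778422)
(.lf (.ofNat 70000000) 0)
(.lf (.ofNat 240000000) 0))
(.sy (.ofNat 4032778422)
(.lf (.ofNat 330000000) 0)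
(.lf (.ofNat 590000000) 0))))))
(.sy (.ofNat 6913334439)
(.sx (.ofNat 8136450000)
(.sx (.ofNat 6780375000)
(.sy (.ofNat 5761112032)
(.sx (.ofNat 6102337500)
(.lf (.negSucc 349999999) 0)
(.lf (.negSucc 179999999) 1))
(.sx (.ofNat 6102337500)
(.lf (.negSucc 209999999) 1)
(.lf (.ofNat 100000000) 1)))
(.sy (.ofNat 5761112032)
(.sy (.ofNat 5185000829)
(.lf (.ofNat 50000000) 0)
(.lf (.ofNat 240000000) 0))
(.sy (.ofNat 6337223235)
(.lf (.ofNat 490000000) 0)
(.lf (.ofNat 800000000) 0))))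
(.sy (.ofNat 6145186169)
(.sy (.ofNat 5377037897)
(.sx (.ofNat 9492525000)
(.lf (.ofNat 530000000) 0)
(.sy (.ofNat 5267302431)
(.lf (.ofNat 930000000) 0)
.ou))
(.sx (.ofNat 9492525000)
(.lf (.ofNat 950000000) 0)
.ou))
.ou))
(.sx (.ofNat 8136450000)
(.sy (.ofNat 8065556846)
(.sx (.ofNat 6780375000)
(.sx (.ofNat 6102337500)
(.lf (.ofNat 130000000) 1)
(.lf (.ofNat 630000000) 0))
(.sy (.ofNat 7374223403)
(.lf (.ofNat 1130000000) 0)
.ou))
(.sx (.ofNat 6780375000)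
(.sx (.ofNat 6102337500)
(.lf (.ofNat 720000000) 0)
(.sy (.ofNat 8193581558)
(.lf (.ofNat 1030000000) 0)
.ou))
.ou))
.ou)))
.ou)))

theorem run_tr14_0B : Tr.run 0 1 T14.C T14.K0 R14 (.ofNat 5000000000) tr14_0B (.ofNat 0) (.ofNat 10848600000) (.negSucc 9999999999) (.ofNat 10000000000)
    (-100000000000) 100000000000 = true := by decide +kernel

/-- tree -/
def tr14_0BB : Tr :=
(.sy (.ofNat 0)
(.sy (.negSucc 4999999999)
(.sx (.negSucc 4247899999)
(.sy (.negSucc 7499999999)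
(.sx (.negSucc 6371849999)
(.sy (.negSucc 7847014603)
.ou
(.lf (.negSucc 9999999) 0))
(.sy (.negSucc 8749999999)
(.sx (.negSucc 5309874999)
(.sy (.negSucc 9416417523)
.ou
(.lf (.ofNat 250000000) 0))
(.lf (.ofNat 180000000) 0))
(.sx (.negSucc 5309874999)
(.lf (.ofNat 60000000) 0)
(.lf (.negSucc 39999999) 0))))
(.sy (.negSucc 6249999999)
(.sx (.negSucc 6371849999)
(.sy (.negSucc 6874999999)
(.lf (.negSucc 79999999) 0)
(.lf (.negSucc 169999999) 0))
(.sy (.negSucc 6874999999)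
(.lf (.negSucc 119999999) 0)
(.lf (.negSucc 189999999) 0)))
(.sx (.negSucc 6371849999)
(.sy (.negSucc 5624999999)
(.lf (.negSucc 249999999) 0)
(.lf (.negSucc 309999999) 0))
(.sy (.negSucc 5624999999)
(.lf (.negSucc 239999999) 0)
(.lf (.negSucc 279999999) 0)))))
(.sy (.negSucc 7499999999)
(.sy (.negSucc 8749999999)
(.sx (.negSucc 2123949999)
(.sx (.negSucc 3185924999)
(.lf (.negSucc 69999999) 0)
(.lf (.negSucc 399999999) 0))
(.lf (.negSucc 909999999) 0))
(.sx (.negSucc 2123949999)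
(.sy (.negSucc 8124999999)
(.lf (.negSucc 289999999) 0)
(.lf (.negSucc 319999999) 0))
(.lf (.negSucc 719999999) 0)))
(.sy (.negSucc 6249999999)
(.sx (.negSucc 2123949999)
(.sy (.negSucc 6874999999)
(.lf (.negSucc 329999999) 0)
(.lf (.negSucc 329999999) 0))
(.sy (.negSucc 6874999999)
(.lf (.negSucc 579999999) 0)
(.lf (.negSucc 499999999) 0)))
(.sx (.negSucc 2123949999)
(.sy (.negSucc 5624999999)
(.lf (.negSucc 319999999) 0)
(.lf (.negSucc 299999999) 0))
(.sy (.negSucc 5624999999)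
(.lf (.negSucc 429999999) 0)
(.lf (.negSucc 349999999) 0))))))
(.sx (.negSucc 4247899999)
(.sy (.negSucc 2499999999)
(.sx (.negSucc 6371849999)
(.sy (.negSucc 3749999999)
(.sy (.negSucc 4374999999)
(.lf (.negSucc 359999999) 0)
(.lf (.negSucc 389999999) 0))
(.sx (.negSucc 7433824999)
(.sy (.negSucc 3124999999)
(.lf (.negSucc 419999999) 0)
(.lf (.negSucc 419999999) 0))
(.lf (.negSucc 359999999) 0)))
(.sy (.negSucc 3749999999)
(.sx (.negSucc 5309874999)
(.lf (.negSucc 319999999) 0)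
(.lf (.negSucc 289999999) 0))
(.sx (.negSucc 5309874999)
(.lf (.negSucc 309999999) 0)
(.lf (.negSucc 259999999) 0))))
(.sx (.negSucc 6371849999)
(.sy (.negSucc 1249999999)
(.lf (.negSucc 339999999) 0)
(.lf (.negSucc 229999999) 0))
(.sy (.negSucc 1249999999)
(.lf (.negSucc 229999999) 0)
(.lf (.negSucc 139999999) 0))))
(.sy (.negSucc 2499999999)
(.sx (.negSucc 2123949999)
(.sy (.negSucc 3749999999)
(.sy (.negSucc 4374999999)
(.lf (.negSucc 279999999) 0)
(.lf (.negSucc 249999999) 0))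
(.sx (.negSucc 3185924999)
(.lf (.negSucc 219999999) 0)
(.lf (.negSucc 189999999) 0)))
(.sy (.negSucc 3749999999)
(.sy (.negSucc 4374999999)
(.lf (.negSucc 289999999) 0)
(.lf (.negSucc 229999999) 0))
(.lf (.negSucc 149999999) 0)))
(.sx (.negSucc 2123949999)
(.sy (.negSucc 1249999999)
(.lf (.negSucc 139999999) 0)
(.lf (.negSucc 69999999) 0))
(.sy (.negSucc 1249999999)
(.lf (.negSucc 69999999) 0)
(.lf (.negSucc 19999999) 0))))))
(.sy (.ofNat 5000000000)
(.sx (.negSucc 4247899999)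
(.sy (.ofNat 2500000000)
(.sy (.ofNat 1250000000)
(.lf (.negSucc 59999999) 0)
(.lf (.ofNat 60000000) 0))
(.sx (.negSucc 6371849999)
(.sy (.ofNat 3750000000)
(.lf (.ofNat 250000000) 0)
(.lf (.ofNat 390000000) 0))
(.sy (.ofNat 3750000000)
(.lf (.ofNat 110000000) 0)
(.lf (.ofNat 160000000) 0))))
(.sy (.ofNat 2500000000)
(.sx (.negSucc 2123949999)
(.sy (.ofNat 1250000000)
(.lf (.negSucc 19999999) 0)
(.lf (.ofNat 10000000) 0))
(.sy (.ofNat 1250000000)
(.lf (.negSucc 9999999) 0)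
(.lf (.negSucc 29999999) 0)))
(.sx (.negSucc 2123949999)
(.sy (.ofNat 3750000000)
(.lf (.ofNat 10000000) 0)
(.lf (.negSucc 19999999) 0))
(.sy (.ofNat 3750000000)
(.lf (.negSucc 89999999) 0)
(.lf (.negSucc 179999999) 0)))))
(.sx (.negSucc 4247899999)
(.sy (.ofNat 7500000000)
(.sx (.negSucc 6371849999)
(.sy (.ofNat 6250000000)
(.lf (.ofNat 510000000) 0)
(.lf (.ofNat 610000000) 0))
(.sy (.ofNat 6250000000)
(.lf (.ofNat 170000000) 0)
(.lf (.ofNat 140000000) 0)))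
(.sx (.negSucc 6371849999)
(.sy (.ofNat 7847014604)
(.lf (.ofNat 660000000) 0)
.ou)
(.sy (.ofNat 8750000000)
(.lf (.ofNat 70000000) 0)
(.lf (.negSucc 29999999) 0))))
(.sy (.ofNat 7500000000)
(.sx (.negSucc 2123949999)
(.sy (.ofNat 6250000000)
(.lf (.negSucc 89999999) 0)
(.lf (.negSucc 199999999) 0))
(.sy (.ofNat 6250000000)
(.sx (.negSucc 1061974999)
(.lf (.negSucc 259999999) 0)
(.lf (.negSucc 369999999) 0))
(.sx (.negSucc 1061974999)
(.lf (.negSucc 419999999) 0)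
(.lf (.negSucc 569999999) 0))))
(.sx (.negSucc 2123949999)
(.sy (.ofNat 8750000000)
(.sx (.negSucc 3185924999)
(.lf (.negSucc 249999999) 0)
(.lf (.negSucc 439999999) 0))
(.sx (.negSucc 3185924999)
(.lf (.negSucc 419999999) 0)
(.lf (.negSucc 649999999) 0)))
(.sy (.ofNat 8750000000)
(.sx (.negSucc 1061974999)
(.lf (.negSucc 629999999) 0)
(.sy (.ofNat 8125000000)
(.lf (.negSucc 739999999) 0)
(.lf (.negSucc 869999999) 0)))
(.sx (.negSucc 1061974999)
(.lf (.negSucc 879999999) 0)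
(.sy (.ofNat 9375000000)
(.lf (.negSucc 1009999999) 0)
(.lf (.negSucc 1159999999) 0)))))))))

theorem run_tr14_0BB : Tr.run 0 1 T14.C T14.K0 R14 (.ofNat 5000000000) tr14_0BB (.negSucc 8495799999) (.ofNat 0) (.negSucc 9999999999) (.ofNat 10000000000)
    (-100000000000) 100000000000 = true := by decide +kernel

/-- tree -/
def tr14_0P : Tr :=
(.sy (.ofNat 1176400000)
(.sy (.negSucc 3659699999)
(.sy (.negSucc 6077749999)
(.sy (.negSucc 7286774999)
(.sy (.negSucc 7891287499)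
(.lf (.negSucc 139999999) 0)
(.lf (.negSucc 59999999) 0))
(.sy (.negSucc 6682262499)
(.lf (.ofNat 0) 0)
(.lf (.ofNat 50000000) 0)))
(.sy (.negSucc 4868724999)
(.sy (.negSucc 5473237499)
(.lf (.ofNat 90000000) 0)
(.sx (.ofNat 5325000000)
(.lf (.ofNat 100000000) 0)
(.lf (.ofNat 140000000) 0)))
(.sx (.ofNat 5325000000)
(.sy (.negSucc 4264212499)
(.lf (.ofNat 120000000) 0)
(.lf (.ofNat 140000000) 0))
(.sy (.negSucc 4264212499)
(.lf (.ofNat 160000000) 0)
(.lf (.ofNat 180000000) 0)))))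
(.sy (.negSucc 1241649999)
(.sy (.negSucc 2450674999)
(.sx (.ofNat 5325000000)
(.sy (.negSucc 3055187499)
(.lf (.ofNat 140000000) 0)
(.lf (.ofNat 140000000) 0))
(.sy (.negSucc 3055187499)
(.lf (.ofNat 180000000) 0)
(.sx (.ofNat 5487500000)
(.lf (.ofNat 170000000) 0)
(.lf (.ofNat 190000000) 0))))
(.sx (.ofNat 5325000000)
(.sy (.negSucc 1846162499)
(.lf (.ofNat 130000000) 0)
(.lf (.ofNat 120000000) 0))
(.sy (.negSucc 1846162499)
(.sx (.ofNat 5487500000)
(.lf (.ofNat 170000000) 0)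
(.lf (.ofNat 190000000) 0))
(.sx (.ofNat 5487500000)
(.lf (.ofNat 150000000) 0)
(.sy (.negSucc 1543906249)
(.lf (.ofNat 180000000) 0)
(.lf (.ofNat 180000000) 0))))))
(.sy (.negSucc 32624999)
(.sx (.ofNat 5325000000)
(.sy (.negSucc 637137499)
(.lf (.ofNat 110000000) 0)
(.lf (.ofNat 90000000) 0))
(.sy (.negSucc 637137499)
(.sx (.ofNat 5487500000)
(.lf (.ofNat 140000000) 0)
(.lf (.ofNat 170000000) 0))
(.sx (.ofNat 5487500000)
(.lf (.ofNat 130000000) 0)
(.lf (.ofNat 160000000) 0))))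
(.sx (.ofNat 5325000000)
(.sy (.ofNat 571887500)
(.lf (.ofNat 80000000) 0)
(.lf (.ofNat 70000000) 0))
(.sy (.ofNat 571887500)
(.sx (.ofNat 5487500000)
(.lf (.ofNat 120000000) 0)
(.lf (.ofNat 150000000) 0))
(.sx (.ofNat 5487500000)
(.lf (.ofNat 110000000) 0)
(.lf (.ofNat 140000000) 0)))))))
(.sy (.ofNat 6012500000)
(.sy (.ofNat 3594450000)
(.sy (.ofNat 2385425000)
(.sx (.ofNat 5325000000)
(.sy (.ofNat 1780912500)
(.lf (.ofNat 70000000) 0)
(.lf (.ofNat 70000000) 0))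
(.sy (.ofNat 1780912500)
(.lf (.ofNat 130000000) 0)
(.lf (.ofNat 140000000) 0)))
(.sx (.ofNat 5325000000)
(.lf (.ofNat 90000000) 0)
(.lf (.ofNat 170000000) 0)))
(.sy (.ofNat 4803475000)
(.sx (.ofNat 5325000000)
(.lf (.ofNat 150000000) 0)
(.lf (.ofNat 250000000) 0))
(.sx (.ofNat 5325000000)
(.lf (.ofNat 260000000) 0)
(.lf (.ofNat 390000000) 0))))
(.sy (.ofNat 8430550000)
(.sy (.ofNat 7221525000)
(.lf (.ofNat 490000000) 0)
(.lf (.ofNat 690000000) 0))
(.lf (.ofNat 1040000000) 1))))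

theorem run_tr14_0P : Tr.run 0 2 T14.C T14.K0 R14 (.ofNat 5000000000) tr14_0P (.ofNat 5000000000) (.ofNat 5650000000) (.negSucc 8495799999) (.ofNat 10848600000)
    (-100000000000) 100000000000 = true := by decide +kernel

/-- tree -/
def tr14_0N : Tr :=
(.sy (.ofNat 1176400000)
(.sy (.negSucc 3659699999)
(.sy (.negSucc 6077749999)
(.sx (.negSucc 6649999999)
(.sy (.negSucc 7286774999)
(.sx (.negSucc 7474999999)
(.lf (.ofNat 770000000) 0)
(.lf (.ofNat 640000000) 0))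
(.sy (.negSucc 6682262499)
(.lf (.ofNat 270000000) 0)
(.sx (.negSucc 7474999999)
(.lf (.ofNat 50000000) 0)
(.lf (.ofNat 80000000) 0))))
(.sy (.negSucc 7286774999)
(.sx (.negSucc 5824999999)
(.lf (.ofNat 540000000) 0)
(.lf (.ofNat 470000000) 0))
(.sx (.negSucc 5824999999)
(.lf (.ofNat 180000000) 0)
(.lf (.ofNat 190000000) 0))))
(.sx (.negSucc 6649999999)
(.sy (.negSucc 4868724999)
(.sx (.negSucc 7474999999)
(.lf (.negSucc 209999999) 0)
(.lf (.negSucc 129999999) 0))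
(.sx (.negSucc 7474999999)
(.sy (.negSucc 4264212499)
(.lf (.negSucc 399999999) 0)
(.lf (.negSucc 509999999) 0))
(.sy (.negSucc 4264212499)
(.lf (.negSucc 299999999) 0)
(.lf (.negSucc 399999999) 0))))
(.sy (.negSucc 4868724999)
(.sx (.negSucc 5824999999)
(.lf (.negSucc 69999999) 0)
(.sy (.negSucc 5473237499)
(.lf (.ofNat 30000000) 0)
(.lf (.negSucc 49999999) 0)))
(.sx (.negSucc 5824999999)
(.sy (.negSucc 4264212499)
(.lf (.negSucc 209999999) 0)
(.lf (.negSucc 289999999) 0))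
(.sy (.negSucc 4264212499)
(.lf (.negSucc 129999999) 0)
(.lf (.negSucc 199999999) 1))))))
(.sx (.negSucc 6649999999)
(.sy (.negSucc 1241649999)
(.sx (.negSucc 7474999999)
(.sy (.negSucc 2450674999)
(.sy (.negSucc 3055187499)
(.lf (.negSucc 599999999) 0)
(.lf (.negSucc 679999999) 0))
(.sx (.negSucc 7887499999)
(.sy (.negSucc 1846162499)
(.lf (.negSucc 789999999) 0)
(.lf (.negSucc 849999999) 0))
(.sy (.negSucc 1846162499)
(.lf (.negSucc 709999999) 0)
(.lf (.negSucc 769999999) 0))))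
(.sy (.negSucc 2450674999)
(.sy (.negSucc 3055187499)
(.lf (.negSucc 479999999) 0)
(.sx (.negSucc 7062499999)
(.lf (.negSucc 579999999) 0)
(.lf (.negSucc 509999999) 0)))
(.sx (.negSucc 7062499999)
(.sy (.negSucc 1846162499)
(.lf (.negSucc 639999999) 0)
(.lf (.negSucc 699999999) 0))
(.sy (.negSucc 1846162499)
(.lf (.negSucc 569999999) 0)
(.lf (.negSucc 619999999) 0)))))
(.sx (.negSucc 7474999999)
(.sy (.negSucc 32624999)
(.sx (.negSucc 7887499999)
(.sy (.negSucc 637137499)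
(.lf (.negSucc 899999999) 0)
(.lf (.negSucc 949999999) 0))
(.sy (.negSucc 637137499)
(.lf (.negSucc 819999999) 0)
(.lf (.negSucc 869999999) 0)))
(.sx (.negSucc 7887499999)
(.sy (.ofNat 571887500)
(.lf (.negSucc 989999999) 0)
(.lf (.negSucc 1019999999) 0))
(.sy (.ofNat 571887500)
(.lf (.negSucc 899999999) 0)
(.lf (.negSucc 929999999) 0))))
(.sy (.negSucc 32624999)
(.sx (.negSucc 7062499999)
(.sy (.negSucc 637137499)
(.lf (.negSucc 739999999) 0)
(.lf (.negSucc 779999999) 0))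
(.sy (.negSucc 637137499)
(.lf (.negSucc 669999999) 0)
(.lf (.negSucc 709999999) 0)))
(.sx (.negSucc 7062499999)
(.lf (.negSucc 829999999) 0)
(.lf (.negSucc 749999999) 0)))))
(.sy (.negSucc 1241649999)
(.sx (.negSucc 5824999999)
(.sy (.negSucc 2450674999)
(.sy (.negSucc 3055187499)
(.sx (.negSucc 6237499999)
(.lf (.negSucc 389999999) 0)
(.lf (.negSucc 329999999) 0))
(.sx (.negSucc 6237499999)
(.lf (.negSucc 449999999) 0)
(.lf (.negSucc 389999999) 0)))
(.sx (.negSucc 6237499999)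
(.sy (.negSucc 1846162499)
(.lf (.negSucc 499999999) 0)
(.lf (.negSucc 549999999) 0))
(.sy (.negSucc 1846162499)
(.lf (.negSucc 439999999) 0)
(.lf (.negSucc 479999999) 0))))
(.sy (.negSucc 2450674999)
(.sx (.negSucc 5412499999)
(.sy (.negSucc 3055187499)
(.lf (.negSucc 279999999) 0)
(.lf (.negSucc 329999999) 0))
(.sy (.negSucc 3055187499)
(.lf (.negSucc 229999999) 0)
(.lf (.negSucc 279999999) 0)))
(.sx (.negSucc 5412499999)
(.sy (.negSucc 1846162499)
(.lf (.negSucc 379999999) 0)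
(.lf (.negSucc 419999999) 0))
(.sy (.negSucc 1846162499)
(.lf (.negSucc 319999999) 0)
(.lf (.negSucc 359999999) 0)))))
(.sx (.negSucc 5824999999)
(.sy (.negSucc 32624999)
(.sx (.negSucc 6237499999)
(.sy (.negSucc 637137499)
(.lf (.negSucc 589999999) 0)
(.lf (.negSucc 629999999) 0))
(.sy (.negSucc 637137499)
(.lf (.negSucc 519999999) 0)
(.lf (.negSucc 559999999) 0)))
(.sx (.negSucc 6237499999)
(.lf (.negSucc 669999999) 0)
(.lf (.negSucc 589999999) 0)))
(.sy (.negSucc 32624999)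
(.sx (.negSucc 5412499999)
(.sy (.negSucc 637137499)
(.lf (.negSucc 449999999) 0)
(.lf (.negSucc 479999999) 0))
(.sy (.negSucc 637137499)
(.lf (.negSucc 389999999) 0)
(.lf (.negSucc 419999999) 0)))
(.sx (.negSucc 5412499999)
(.lf (.negSucc 519999999) 0)
(.sx (.negSucc 5206249999)
(.lf (.negSucc 469999999) 0)
(.lf (.negSucc 429999999) 0))))))))
(.sy (.ofNat 6012500000)
(.sx (.negSucc 6649999999)
(.sy (.ofNat 3594450000)
(.sx (.negSucc 7474999999)
(.sx (.negSucc 7887499999)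
(.sy (.ofNat 2385425000)
(.sx (.negSucc 8093749999)
(.lf (.negSucc 1079999999) 0)
(.lf (.negSucc 1029999999) 0))
(.sx (.negSucc 8093749999)
(.lf (.negSucc 1109999999) 0)
(.lf (.negSucc 1059999999) 0)))
(.sy (.ofNat 2385425000)
(.lf (.negSucc 969999999) 0)
(.lf (.negSucc 999999999) 0)))
(.sx (.negSucc 7062499999)
(.sy (.ofNat 2385425000)
(.lf (.negSucc 879999999) 0)
(.lf (.negSucc 909999999) 0))
(.sy (.ofNat 2385425000)
(.lf (.negSucc 799999999) 0)
(.lf (.negSucc 819999999) 0))))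
(.sx (.negSucc 7474999999)
(.sx (.negSucc 7887499999)
(.sy (.ofNat 4803475000)
(.lf (.negSucc 1099999999) 0)
(.lf (.negSucc 1089999999) 0))
(.sy (.ofNat 4803475000)
(.lf (.negSucc 1009999999) 0)
(.lf (.negSucc 999999999) 0)))
(.sx (.negSucc 7062499999)
(.sy (.ofNat 4803475000)
(.lf (.negSucc 919999999) 0)
(.lf (.negSucc 909999999) 0))
(.sy (.ofNat 4803475000)
(.lf (.negSucc 829999999) 0)
(.lf (.negSucc 819999999) 0)))))
(.sy (.ofNat 3594450000)
(.sx (.negSucc 5824999999)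
(.sx (.negSucc 6237499999)
(.sy (.ofNat 2385425000)
(.lf (.negSucc 709999999) 0)
(.lf (.negSucc 729999999) 0))
(.sy (.ofNat 2385425000)
(.lf (.negSucc 629999999) 0)
(.lf (.negSucc 649999999) 0)))
(.sx (.negSucc 5412499999)
(.sy (.ofNat 2385425000)
(.lf (.negSucc 549999999) 0)
(.lf (.negSucc 569999999) 0))
(.sy (.ofNat 2385425000)
(.lf (.negSucc 479999999) 0)
(.lf (.negSucc 489999999) 0))))
(.sx (.negSucc 5824999999)
(.sx (.negSucc 6237499999)
(.sy (.ofNat 4803475000)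
(.lf (.negSucc 739999999) 0)
(.lf (.negSucc 729999999) 0))
(.sy (.ofNat 4803475000)
(.lf (.negSucc 659999999) 0)
(.lf (.negSucc 649999999) 0)))
(.sx (.negSucc 5412499999)
(.sy (.ofNat 4803475000)
(.lf (.negSucc 569999999) 0)
(.lf (.negSucc 569999999) 0))
(.sy (.ofNat 4803475000)
(.lf (.negSucc 499999999) 0)
(.lf (.negSucc 489999999) 0))))))
(.sx (.negSucc 6649999999)
(.sy (.ofNat 8430550000)
(.sx (.negSucc 7474999999)
(.sy (.ofNat 7221525000)
(.sx (.negSucc 7887499999)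
(.lf (.negSucc 1069999999) 0)
(.lf (.negSucc 979999999) 0))
(.sx (.negSucc 7887499999)
(.lf (.negSucc 1029999999) 0)
(.lf (.negSucc 939999999) 0)))
(.sy (.ofNat 7221525000)
(.sx (.negSucc 7062499999)
(.lf (.negSucc 889999999) 0)
(.lf (.negSucc 799999999) 0))
(.sx (.negSucc 7062499999)
(.lf (.negSucc 849999999) 0)
(.lf (.negSucc 769999999) 0))))
(.sx (.negSucc 7474999999)
(.sy (.ofNat 9639575000)
(.sx (.negSucc 7887499999)
(.lf (.negSucc 969999999) 0)
(.lf (.negSucc 889999999) 0))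
(.lf (.negSucc 869999999) 0))
(.sy (.ofNat 9639575000)
(.lf (.negSucc 769999999) 0)
(.lf (.negSucc 709999999) 0))))
(.sy (.ofNat 8430550000)
(.sx (.negSucc 5824999999)
(.sy (.ofNat 7221525000)
(.sx (.negSucc 6237499999)
(.lf (.negSucc 709999999) 0)
(.lf (.negSucc 629999999) 0))
(.lf (.negSucc 639999999) 0))
(.sy (.ofNat 7221525000)
(.sx (.negSucc 5412499999)
(.lf (.negSucc 549999999) 0)
(.lf (.negSucc 469999999) 0))
(.lf (.negSucc 479999999) 0)))
(.sx (.negSucc 5824999999)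
(.sy (.ofNat 9639575000)
(.lf (.negSucc 599999999) 0)
(.lf (.negSucc 559999999) 0))
(.sy (.ofNat 9639575000)
(.lf (.negSucc 449999999) 0)
(.lf (.negSucc 419999999) 0)))))))

theorem run_tr14_0N : Tr.run 0 2 T14.C T14.K0 R14 (.ofNat 5000000000) tr14_0N (.negSucc 8299999999) (.negSucc 4999999999) (.negSucc 8495799999) (.ofNat 10848600000)
    (-100000000000) 100000000000 = true := by decide +kernel

end Pool.Agent.Helper30.DL
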