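import Pool.Agent.Helper30.DL.Run.C14

/-! MP_b4564f_an, all delays. Cell 14: kernel computations (generated). -/

set_option autoImplicit false
set_option maxRecDepth 100000

namespace Pool.Agent.Helper30.DL

/-- tree -/
def tr14_1A : Tr :=
(.sy (.ofNat 0)
(.sy (.negSucc 4999999999)
(.sy (.negSucc 7499999999)
(.sx (.ofNat 1000000000)
(.lf (.negSucc 6729999999) 0)
(.lf (.negSucc 3499999999) 0))
(.sx (.ofNat 1000000000)
(.lf (.negSucc 9179999999) 0)
(.lf (.negSucc 4629999999) 0)))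
(.sy (.negSucc 2499999999)
(.sx (.ofNat 1000000000)
(.sx (.ofNat 500000000)
(.lf (.negSucc 20229999999) 0)
(.lf (.negSucc 8789999999) 0))
(.lf (.negSucc 5809999999) 0))
(.sx (.ofNat 1000000000)
(.sx (.ofNat 500000000)
(.lf (.negSucc 24829999999) 0)
(.lf (.negSucc 10609999999) 0))
(.lf (.negSucc 7029999999) 0))))
(.sy (.ofNat 5000000000)
(.sx (.ofNat 1000000000)
(.sx (.ofNat 500000000)
(.lf (.ofNat 0) 0)
(.lf (.negSucc 13389999999) 0))
(.sy (.ofNat 2500000000)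
(.lf (.negSucc 8309999999) 1)
(.sx (.ofNat 1500000000)
(.lf (.negSucc 10539999999) 0)
(.lf (.negSucc 9019999999) 0))))
(.sx (.ofNat 1000000000)
(.sx (.ofNat 500000000)
(.lf (.ofNat 0) 0)
(.lf (.negSucc 17209999999) 0))
(.sy (.ofNat 7500000000)
(.sx (.ofNat 1500000000)
(.lf (.negSucc 11989999999) 0)
(.lf (.negSucc 10369999999) 0))
(.sx (.ofNat 1500000000)
(.lf (.negSucc 13479999999) 0)
(.lf (.negSucc 11769999999) 0))))))

theorem run_tr14_1A : Tr.run 1 0 (T14.C.mdA 2000) (T14.K1.shA (w2n 2000 541653907 18068)) R14 (.ofNat 2000000000) tr14_1A (.ofNat 0) (.ofNat 2000000000) (.negSucc 9999999999) (.ofNat 10000000000)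
    (-100000000000) 100000000000 = true := by decide +kernel

/-- tree -/
def tr14_1AA : Tr :=
(.sy (.ofNat 0)
(.sy (.negSucc 4999999999)
(.sy (.negSucc 7499999999)
(.sx (.negSucc 999999999)
(.lf (.negSucc 1289999999) 0)
(.lf (.ofNat 1650000000) 0))
(.sx (.negSucc 999999999)
(.lf (.negSucc 779999999) 0)
(.lf (.ofNat 3530000000) 0)))
(.sx (.negSucc 999999999)
(.lf (.ofNat 0) 0)
(.sy (.negSucc 2499999999)
(.lf (.ofNat 5410000000) 0)
(.lf (.ofNat 7280000000) 0))))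
(.sy (.ofNat 5000000000)
(.sx (.negSucc 999999999)
(.lf (.ofNat 1060000000) 0)
(.sx (.negSucc 499999999)
(.lf (.ofNat 5510000000) 0)
(.sx (.negSucc 249999999)
(.lf (.ofNat 14670000000) 0)
(.lf (.ofNat 0) 0))))
(.sx (.negSucc 999999999)
(.lf (.ofNat 2160000000) 0)
(.sx (.negSucc 499999999)
(.lf (.ofNat 7860000000) 0)
(.lf (.ofNat 0) 0)))))

theorem run_tr14_1AA : Tr.run 1 0 (T14.C.mdA 2000) (T14.K1.shA (w2n 2000 541653907 18068)) R14 (.ofNat 2000000000) tr14_1AA (.negSucc 1999999999) (.ofNat 0) (.negSucc 9999999999) (.ofNat 10000000000)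
    (-100000000000) 100000000000 = true := by decide +kernel

/-- tree -/
def tr14_1B : Tr :=
(.sy (.ofNat 0)
(.sy (.negSucc 4999999999)
(.sx (.ofNat 5424300000)
(.sy (.negSucc 7499999999)
(.sx (.ofNat 2712150000)
(.sx (.ofNat 1356075000)
(.lf (.negSucc 539999999) 0)
(.lf (.negSucc 1489999999) 0))
.ou)
(.sx (.ofNat 2712150000)
(.sx (.ofNat 1356075000)
(.lf (.negSucc 1619999999) 0)
(.lf (.negSucc 1099999999) 0))
(.sy (.negSucc 6249999999)
(.sx (.ofNat 4068225000)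
(.lf (.negSucc 1139999999) 0)
.ou)
(.lf (.negSucc 859999999) 0))))
.ou)
(.sx (.ofNat 5424300000)
(.sx (.ofNat 2712150000)
(.sy (.negSucc 2499999999)
(.lf (.negSucc 1659999999) 0)
(.lf (.negSucc 2589999999) 0))
(.sy (.negSucc 2499999999)
(.sx (.ofNat 4068225000)
(.lf (.negSucc 759999999) 0)
(.lf (.negSucc 599999999) 0))
(.lf (.negSucc 839999999) 0)))
(.sy (.negSucc 3687111701)
.ou
(.sx (.ofNat 8136450000)
(.sy (.negSucc 1843555850)
(.lf (.negSucc 419999999) 0)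
(.lf (.negSucc 559999999) 0))
(.sy (.negSucc 2458074467)
.ou
(.sy (.negSucc 1229037233)
(.lf (.negSucc 339999999) 0)
(.lf (.negSucc 509999999) 1)))))))
(.sy (.ofNat 5000000000)
(.sx (.ofNat 5424300000)
(.sx (.ofNat 2712150000)
(.sy (.ofNat 2500000000)
(.sx (.ofNat 1356075000)
(.lf (.negSucc 7709999999) 0)
(.lf (.negSucc 2829999999) 0))
(.sx (.ofNat 1356075000)
(.sx (.ofNat 678037500)
(.lf (.negSucc 20209999999) 0)
(.lf (.negSucc 7589999999) 0))
(.sy (.ofNat 3750000000)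
(.lf (.negSucc 4069999999) 0)
(.lf (.negSucc 5109999999) 0))))
(.sy (.ofNat 2500000000)
(.sy (.ofNat 1250000000)
(.lf (.negSucc 1389999999) 0)
(.sx (.ofNat 4068225000)
(.lf (.negSucc 2219999999) 0)
(.lf (.negSucc 1859999999) 0)))
(.sy (.ofNat 3750000000)
(.sx (.ofNat 4068225000)
(.lf (.negSucc 3049999999) 0)
(.lf (.negSucc 2739999999) 1))
(.sx (.ofNat 4068225000)
(.sy (.ofNat 4375000000)
(.lf (.negSucc 3819999999) 0)
(.lf (.negSucc 4399999999) 1))
(.sy (.ofNat 4375000000)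
(.lf (.negSucc 3589999999) 1)
(.sy (.ofNat 4687500000)
(.lf (.negSucc 4079999999) 1)
(.lf (.negSucc 4429999999) 1)))))))
(.sy (.ofNat 3687111702)
(.sy (.ofNat 1843555851)
(.sx (.ofNat 8136450000)
(.sy (.ofNat 921777925)
(.lf (.negSucc 929999999) 1)
(.lf (.negSucc 1359999999) 1))
(.sy (.ofNat 921777925)
(.lf (.negSucc 829999999) 1)
(.sy (.ofNat 1382666888)
(.lf (.negSucc 1139999999) 1)
(.lf (.negSucc 1389999999) 1))))
(.sx (.ofNat 8136450000)
(.sy (.ofNat 2765333776)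
(.sx (.ofNat 6780375000)
(.lf (.negSucc 1989999999) 1)
(.lf (.negSucc 1929999999) 1))
(.sx (.ofNat 6780375000)
(.sy (.ofNat 3226222739)
(.lf (.negSucc 2539999999) 1)
(.lf (.negSucc 2959999999) 1))
(.sy (.ofNat 2949689361)
(.lf (.negSucc 2359999999) 1)
.ou)))
(.sy (.ofNat 2458074468)
(.sx (.ofNat 9492525000)
(.lf (.negSucc 1739999999) 1)
(.sy (.ofNat 2106920973)
(.lf (.negSucc 1489999999) 1)
.ou))
.ou)))
.ou))
(.sx (.ofNat 5424300000)
(.sx (.ofNat 2712150000)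
(.sx (.ofNat 1356075000)
(.sx (.ofNat 678037500)
(.sx (.ofNat 339018750)
(.lf (.ofNat 0) 0)
(.sy (.ofNat 7500000000)
(.lf (.negSucc 18089999999) 0)
(.lf (.negSucc 22799999999) 0)))
(.sy (.ofNat 7500000000)
(.lf (.negSucc 10469999999) 0)
(.sy (.ofNat 8750000000)
(.lf (.negSucc 12999999999) 0)
(.lf (.negSucc 14869999999) 0))))
(.sy (.ofNat 7500000000)
(.sy (.ofNat 6250000000)
(.sx (.ofNat 2034112500)
(.lf (.negSucc 6939999999) 0)
(.lf (.negSucc 5919999999) 0))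
(.sx (.ofNat 2034112500)
(.lf (.negSucc 8349999999) 0)
(.lf (.negSucc 7329999999) 0)))
(.sy (.ofNat 8750000000)
(.sx (.ofNat 2034112500)
(.lf (.negSucc 9919999999) 0)
(.lf (.negSucc 8949999999) 1))
(.sx (.ofNat 2034112500)
(.lf (.negSucc 11669999999) 1)
(.sy (.ofNat 9375000000)
(.lf (.negSucc 10289999999) 1)
(.lf (.negSucc 11249999999) 1))))))
(.sy (.ofNat 7374223403)
(.sy (.ofNat 6187111701)
(.sx (.ofNat 4068225000)
(.sy (.ofNat 5593555850)
(.lf (.negSucc 5029999999) 1)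
(.sx (.ofNat 3390187500)
(.lf (.negSucc 5789999999) 0)
(.sy (.ofNat 5899378722)
(.lf (.negSucc 5499999999) 1)
.ou)))
.ou)
(.sx (.ofNat 4068225000)
(.sy (.ofNat 6780667552)
(.sx (.ofNat 3390187500)
(.lf (.negSucc 6499999999) 0)
.ou)
(.sx (.ofNat 3390187500)
(.lf (.negSucc 7249999999) 1)
.ou))
.ou))
.ou))
.ou)))

theorem run_tr14_1B : Tr.run 1 1 (T14.C.mdA 2000) (T14.K1.shA (w2n 2000 541653907 18068)) R14 (.ofNat 2000000000) tr14_1B (.ofNat 0) (.ofNat 10848600000) (.negSucc 9999999999) (.ofNat 10000000000)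
    (-100000000000) 100000000000 = true := by decide +kernel

/-- tree -/
def tr14_1BB : Tr :=
(.sy (.ofNat 0)
(.sy (.negSucc 4999999999)
(.sx (.negSucc 4247899999)
.ou
(.sy (.negSucc 7499999999)
(.sx (.negSucc 2123949999)
(.sy (.negSucc 9416417523)
.ou
(.sx (.negSucc 3185924999)
.ou
(.lf (.negSucc 1109999999) 0)))
(.sy (.negSucc 8749999999)
(.sx (.negSucc 1061974999)
(.lf (.negSucc 2359999999) 0)
(.lf (.negSucc 4289999999) 0))
(.lf (.negSucc 1719999999) 0)))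
(.sx (.negSucc 2123949999)
(.sy (.negSucc 6249999999)
(.lf (.negSucc 359999999) 0)
(.lf (.ofNat 20000000) 0))
(.lf (.negSucc 59999999) 0))))
(.sx (.negSucc 4247899999)
(.sy (.negSucc 4708208761)
.ou
(.sy (.negSucc 2354104380)
(.sx (.negSucc 6371849999)
(.sy (.negSucc 3138805841)
.ou
(.lf (.ofNat 180000000) 0))
(.lf (.ofNat 300000000) 0))
(.sx (.negSucc 6371849999)
(.sy (.negSucc 1177052190)
(.lf (.ofNat 240000000) 0)
(.lf (.ofNat 330000000) 0))
(.lf (.ofNat 550000000) 0))))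
(.sx (.negSucc 2123949999)
(.sy (.negSucc 2499999999)
(.lf (.ofNat 540000000) 0)
(.lf (.ofNat 1050000000) 0))
(.sy (.negSucc 2499999999)
(.lf (.ofNat 1820000000) 0)
(.lf (.ofNat 3310000000) 0)))))
(.sy (.ofNat 5000000000)
(.sx (.negSucc 4247899999)
(.sy (.ofNat 4708208762)
(.sy (.ofNat 2354104381)
(.sx (.negSucc 6371849999)
(.sy (.ofNat 1177052190)
(.lf (.ofNat 410000000) 0)
(.lf (.ofNat 450000000) 0))
(.lf (.ofNat 700000000) 0))
(.sx (.negSucc 6371849999)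
(.sy (.ofNat 3138805842)
(.lf (.ofNat 460000000) 0)
.ou)
(.sy (.ofNat 3531156571)
(.lf (.ofNat 670000000) 0)
(.lf (.ofNat 590000000) 0))))
.ou)
(.sx (.negSucc 2123949999)
(.sy (.ofNat 2500000000)
(.lf (.ofNat 1300000000) 0)
(.sx (.negSucc 3185924999)
(.lf (.ofNat 1020000000) 0)
(.lf (.ofNat 1620000000) 0)))
(.sx (.negSucc 1061974999)
(.sy (.ofNat 2500000000)
(.lf (.ofNat 2850000000) 0)
(.lf (.ofNat 3140000000) 0))
(.sy (.ofNat 2500000000)
(.lf (.ofNat 9100000000) 0)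
(.lf (.ofNat 11150000000) 0)))))
(.sx (.negSucc 4247899999)
.ou
(.sx (.negSucc 2123949999)
(.sy (.ofNat 9416417524)
(.sy (.ofNat 7208208762)
(.sx (.negSucc 3185924999)
(.sy (.ofNat 6277611683)
(.lf (.ofNat 780000000) 0)
.ou)
(.lf (.ofNat 1350000000) 0))
(.sx (.negSucc 3185924999)
.ou
(.lf (.ofNat 860000000) 0)))
.ou)
(.sx (.negSucc 1061974999)
(.sy (.ofNat 7500000000)
(.lf (.ofNat 3090000000) 0)
(.lf (.ofNat 2700000000) 0))
(.sx (.negSucc 530987499)
(.sy (.ofNat 7500000000)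
(.lf (.ofNat 7870000000) 0)
(.lf (.ofNat 8240000000) 0))
(.sx (.negSucc 265493749)
(.lf (.ofNat 18830000000) 0)
(.lf (.ofNat 0) 0))))))))

theorem run_tr14_1BB : Tr.run 1 1 (T14.C.mdA 2000) (T14.K1.shA (w2n 2000 541653907 18068)) R14 (.ofNat 2000000000) tr14_1BB (.negSucc 8495799999) (.ofNat 0) (.negSucc 9999999999) (.ofNat 10000000000)
    (-100000000000) 100000000000 = true := by decide +kernel

/-- tree -/
def tr14_1P : Tr :=
(.sy (.ofNat 1176400000)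
(.sy (.negSucc 3659699999)
(.sx (.ofNat 3825000000)
(.sy (.negSucc 6077749999)
(.sx (.ofNat 2912500000)
(.lf (.ofNat 80000000) 0)
(.lf (.ofNat 80000000) 0))
(.sx (.ofNat 2912500000)
(.lf (.ofNat 30000000) 0)
(.lf (.ofNat 0) 0)))
(.sy (.negSucc 6077749999)
(.sx (.ofNat 4737500000)
(.lf (.ofNat 120000000) 0)
(.lf (.ofNat 230000000) 0))
(.sx (.ofNat 4737500000)
(.lf (.ofNat 0) 0)
(.lf (.ofNat 70000000) 0))))
(.sx (.ofNat 3825000000)
(.sy (.negSucc 1241649999)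
(.sx (.ofNat 2912500000)
(.sy (.negSucc 2450674999)
(.lf (.negSucc 69999999) 0)
(.sx (.ofNat 2456250000)
(.lf (.negSucc 139999999) 0)
(.lf (.negSucc 209999999) 0)))
(.sy (.negSucc 2450674999)
(.lf (.negSucc 159999999) 0)
(.lf (.negSucc 299999999) 1)))
(.sx (.ofNat 2912500000)
(.sy (.negSucc 32624999)
(.sx (.ofNat 2456250000)
(.sy (.negSucc 637137499)
(.lf (.negSucc 219999999) 0)
(.lf (.negSucc 279999999) 0))
(.lf (.negSucc 339999999) 0))
(.sx (.ofNat 2456250000)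
(.sy (.ofNat 571887500)
(.lf (.negSucc 349999999) 0)
(.lf (.negSucc 419999999) 0))
(.sy (.ofNat 571887500)
(.lf (.negSucc 459999999) 0)
(.lf (.negSucc 549999999) 0))))
(.sy (.negSucc 32624999)
(.sx (.ofNat 3368750000)
(.lf (.negSucc 439999999) 0)
(.lf (.negSucc 529999999) 0))
(.sx (.ofNat 3368750000)
(.sy (.ofNat 571887500)
(.lf (.negSucc 579999999) 0)
(.lf (.negSucc 689999999) 0))
(.lf (.negSucc 759999999) 1)))))
(.sy (.negSucc 1241649999)
(.sx (.ofNat 4737500000)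
(.sy (.negSucc 2450674999)
(.lf (.negSucc 209999999) 0)
(.lf (.negSucc 399999999) 0))
(.lf (.negSucc 289999999) 1))
(.sx (.ofNat 4737500000)
(.sy (.negSucc 32624999)
(.sx (.ofNat 4281250000)
(.lf (.negSucc 609999999) 0)
(.lf (.negSucc 669999999) 0))
(.sx (.ofNat 4281250000)
(.lf (.negSucc 879999999) 1)
(.lf (.negSucc 959999999) 0)))
(.sy (.negSucc 32624999)
(.lf (.negSucc 689999999) 0)
(.lf (.negSucc 989999999) 1))))))
(.sy (.ofNat 6012500000)
(.sx (.ofNat 3825000000)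
(.sy (.ofNat 3594450000)
(.sx (.ofNat 2912500000)
(.sy (.ofNat 2385425000)
(.sx (.ofNat 2456250000)
(.sy (.ofNat 1780912500)
(.lf (.negSucc 489999999) 0)
(.lf (.negSucc 569999999) 0))
(.sy (.ofNat 1780912500)
(.lf (.negSucc 639999999) 1)
(.lf (.negSucc 739999999) 1)))
(.sx (.ofNat 2456250000)
(.sy (.ofNat 2989937500)
(.lf (.negSucc 649999999) 0)
(.lf (.negSucc 739999999) 0))
(.sy (.ofNat 2989937500)
(.lf (.negSucc 839999999) 1)
(.lf (.negSucc 949999999) 1))))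
(.sy (.ofNat 2385425000)
(.sx (.ofNat 3368750000)
(.sy (.ofNat 1780912500)
(.lf (.negSucc 799999999) 1)
(.lf (.negSucc 919999999) 1))
(.sy (.ofNat 1780912500)
(.lf (.negSucc 959999999) 1)
(.lf (.negSucc 1099999999) 1)))
(.sx (.ofNat 3368750000)
(.sy (.ofNat 2989937500)
(.lf (.negSucc 1049999999) 1)
(.lf (.negSucc 1169999999) 1))
(.sy (.ofNat 2989937500)
(.lf (.negSucc 1249999999) 1)
(.lf (.negSucc 1389999999) 1)))))
(.sx (.ofNat 2912500000)
(.sy (.ofNat 4803475000)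
(.sx (.ofNat 2456250000)
(.lf (.negSucc 869999999) 1)
(.lf (.negSucc 1109999999) 1))
(.sx (.ofNat 2456250000)
(.lf (.negSucc 1059999999) 1)
(.lf (.negSucc 1329999999) 1)))
(.sy (.ofNat 4803475000)
(.sx (.ofNat 3368750000)
(.sy (.ofNat 4198962500)
(.lf (.negSucc 1299999999) 1)
(.lf (.negSucc 1429999999) 1))
(.sy (.ofNat 4198962500)
(.lf (.negSucc 1519999999) 1)
(.lf (.negSucc 1639999999) 1)))
(.sx (.ofNat 3368750000)
(.lf (.negSucc 1589999999) 1)
(.lf (.negSucc 1779999999) 1)))))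
(.sy (.ofNat 3594450000)
(.sx (.ofNat 4737500000)
(.sy (.ofNat 2385425000)
(.sx (.ofNat 4281250000)
(.sy (.ofNat 1780912500)
(.lf (.negSucc 1099999999) 1)
(.lf (.negSucc 1249999999) 1))
(.lf (.negSucc 1269999999) 1))
(.sx (.ofNat 4281250000)
(.sy (.ofNat 2989937500)
(.lf (.negSucc 1409999999) 1)
(.lf (.negSucc 1549999999) 1))
(.lf (.negSucc 1559999999) 1)))
(.sy (.ofNat 2385425000)
(.sx (.ofNat 5193750000)
(.lf (.negSucc 1299999999) 1)
(.lf (.negSucc 1249999999) 0))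
(.sx (.ofNat 5193750000)
(.lf (.negSucc 1539999999) 1)
(.lf (.negSucc 1429999999) 0))))
(.sx (.ofNat 4737500000)
(.sy (.ofNat 4803475000)
(.sx (.ofNat 4281250000)
(.sy (.ofNat 4198962500)
(.lf (.negSucc 1669999999) 1)
(.lf (.negSucc 1759999999) 1))
(.sy (.ofNat 4198962500)
(.lf (.negSucc 1709999999) 1)
(.lf (.negSucc 1769999999) 1)))
(.sx (.ofNat 4281250000)
(.lf (.negSucc 1839999999) 1)
(.lf (.negSucc 1789999999) 1)))
(.sy (.ofNat 4803475000)
(.sx (.ofNat 5193750000)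
(.lf (.negSucc 1649999999) 1)
(.lf (.negSucc 1479999999) 0))
(.sx (.ofNat 5193750000)
(.lf (.negSucc 1629999999) 1)
(.lf (.negSucc 1409999999) 0))))))
(.sx (.ofNat 3825000000)
(.sy (.ofNat 8430550000)
(.sx (.ofNat 2912500000)
(.sy (.ofNat 7221525000)
(.lf (.negSucc 1389999999) 1)
(.lf (.negSucc 1529999999) 1))
(.sy (.ofNat 7221525000)
(.sy (.ofNat 6617012500)
(.lf (.negSucc 1789999999) 1)
(.lf (.negSucc 1819999999) 1))
(.lf (.negSucc 1809999999) 1)))
(.sy (.ofNat 9639575000)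
(.sx (.ofNat 2912500000)
(.lf (.negSucc 1619999999) 1)
(.lf (.negSucc 1719999999) 1))
(.sx (.ofNat 2912500000)
(.lf (.negSucc 1649999999) 1)
(.lf (.negSucc 1579999999) 1))))
(.sy (.ofNat 8430550000)
(.sx (.ofNat 4737500000)
(.sy (.ofNat 7221525000)
(.sx (.ofNat 4281250000)
(.lf (.negSucc 1829999999) 1)
(.lf (.negSucc 1699999999) 1))
(.lf (.negSucc 1619999999) 1))
(.sy (.ofNat 7221525000)
(.sx (.ofNat 5193750000)
(.lf (.negSucc 1489999999) 0)
(.lf (.negSucc 1219999999) 0))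
(.lf (.negSucc 1119999999) 1)))
(.sx (.ofNat 4737500000)
(.sy (.ofNat 9639575000)
(.lf (.negSucc 1409999999) 1)
(.lf (.negSucc 1169999999) 0))
(.lf (.negSucc 699999999) 1))))))

theorem run_tr14_1P : Tr.run 1 2 (T14.C.mdA 2000) (T14.K1.shA (w2n 2000 541653907 18068)) R14 (.ofNat 2000000000) tr14_1P (.ofNat 2000000000) (.ofNat 5650000000) (.negSucc 8495799999) (.ofNat 10848600000)
    (-100000000000) 100000000000 = true := by decide +kernel

/-- tree -/
def tr14_1N : Tr :=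
(.sy (.ofNat 1176400000)
(.sx (.negSucc 5149999999)
(.sy (.negSucc 3659699999)
(.sy (.negSucc 6077749999)
(.sx (.negSucc 6724999999)
(.lf (.negSucc 489999999) 0)
(.sy (.negSucc 7286774999)
(.lf (.negSucc 79999999) 0)
(.lf (.negSucc 209999999) 0)))
(.sx (.negSucc 6724999999)
(.sy (.negSucc 4868724999)
(.lf (.negSucc 659999999) 0)
(.lf (.negSucc 759999999) 0))
(.sy (.negSucc 4868724999)
(.lf (.negSucc 309999999) 0)
(.lf (.negSucc 399999999) 0))))
(.sx (.negSucc 6724999999)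
(.sy (.negSucc 1241649999)
(.sy (.negSucc 2450674999)
(.lf (.negSucc 829999999) 0)
(.sx (.negSucc 7512499999)
(.lf (.negSucc 999999999) 0)
(.lf (.negSucc 799999999) 0)))
(.sx (.negSucc 7512499999)
(.sy (.negSucc 32624999)
(.lf (.negSucc 1049999999) 0)
(.sx (.negSucc 7906249999)
(.lf (.negSucc 1139999999) 0)
(.lf (.negSucc 1039999999) 0)))
(.sy (.negSucc 32624999)
(.lf (.negSucc 859999999) 0)
(.sx (.negSucc 7118749999)
(.lf (.negSucc 949999999) 0)
(.lf (.negSucc 849999999) 0)))))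
(.sy (.negSucc 1241649999)
(.sx (.negSucc 5937499999)
(.sy (.negSucc 2450674999)
(.lf (.negSucc 559999999) 0)
(.lf (.negSucc 619999999) 0))
(.sy (.negSucc 2450674999)
(.lf (.negSucc 389999999) 0)
(.lf (.negSucc 449999999) 0)))
(.sx (.negSucc 5937499999)
(.sy (.negSucc 32624999)
(.lf (.negSucc 679999999) 0)
(.lf (.negSucc 719999999) 0))
(.sy (.negSucc 32624999)
(.lf (.negSucc 509999999) 0)
(.lf (.negSucc 549999999) 1))))))
(.sy (.negSucc 3659699999)
(.sy (.negSucc 6077749999)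
(.sx (.negSucc 3574999999)
(.sy (.negSucc 7286774999)
(.lf (.ofNat 140000000) 0)
(.lf (.ofNat 50000000) 0))
(.sy (.negSucc 7286774999)
(.lf (.ofNat 250000000) 0)
(.lf (.ofNat 190000000) 0)))
(.sx (.negSucc 3574999999)
(.sy (.negSucc 4868724999)
(.lf (.negSucc 39999999) 0)
(.lf (.negSucc 109999999) 0))
(.sy (.negSucc 4868724999)
(.lf (.ofNat 130000000) 0)
(.sx (.negSucc 2787499999)
(.lf (.ofNat 40000000) 0)
(.lf (.ofNat 110000000) 0)))))
(.sx (.negSucc 3574999999)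
(.sy (.negSucc 1241649999)
(.sx (.negSucc 4362499999)
(.sy (.negSucc 2450674999)
(.lf (.negSucc 239999999) 0)
(.lf (.negSucc 299999999) 0))
(.sy (.negSucc 2450674999)
(.lf (.negSucc 119999999) 0)
(.lf (.negSucc 169999999) 0)))
(.sx (.negSucc 4362499999)
(.sy (.negSucc 32624999)
(.lf (.negSucc 349999999) 0)
(.sx (.negSucc 4756249999)
(.lf (.negSucc 429999999) 0)
(.lf (.negSucc 359999999) 0)))
(.sy (.negSucc 32624999)
(.sx (.negSucc 3968749999)
(.lf (.negSucc 249999999) 0)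
(.lf (.negSucc 189999999) 0))
(.sx (.negSucc 3968749999)
(.lf (.negSucc 289999999) 0)
(.lf (.negSucc 229999999) 0)))))
(.sy (.negSucc 1241649999)
(.sx (.negSucc 2787499999)
(.sy (.negSucc 2450674999)
(.lf (.negSucc 19999999) 0)
(.lf (.negSucc 69999999) 0))
(.sy (.negSucc 2450674999)
(.lf (.ofNat 60000000) 0)
(.sx (.negSucc 2393749999)
(.lf (.ofNat 0) 0)
(.lf (.ofNat 30000000) 0))))
(.sx (.negSucc 2787499999)
(.sy (.negSucc 32624999)
(.sx (.negSucc 3181249999)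
(.lf (.negSucc 129999999) 0)
(.lf (.negSucc 89999999) 0))
(.sx (.negSucc 3181249999)
(.lf (.negSucc 169999999) 0)
(.lf (.negSucc 119999999) 0)))
(.sy (.negSucc 32624999)
(.sx (.negSucc 2393749999)
(.lf (.negSucc 39999999) 0)
(.sy (.negSucc 637137499)
(.lf (.ofNat 0) 0)
(.lf (.negSucc 19999999) 0)))
(.sx (.negSucc 2393749999)
(.lf (.negSucc 79999999) 0)
(.lf (.negSucc 49999999) 0))))))))
(.sx (.negSucc 5149999999)
(.sy (.ofNat 6012500000)
(.sx (.negSucc 6724999999)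
(.sy (.ofNat 3594450000)
(.sx (.negSucc 7512499999)
(.sx (.negSucc 7906249999)
(.sy (.ofNat 2385425000)
(.sx (.negSucc 8103124999)
(.sy (.ofNat 1780912500)
(.lf (.negSucc 1189999999) 0)
(.lf (.negSucc 1199999999) 0))
(.lf (.negSucc 1139999999) 0))
(.sx (.negSucc 8103124999)
(.sy (.ofNat 2989937500)
(.lf (.negSucc 1209999999) 0)
(.lf (.negSucc 1209999999) 0))
(.sy (.ofNat 2989937500)
(.lf (.negSucc 1159999999) 0)
(.lf (.negSucc 1169999999) 0))))
(.sy (.ofNat 2385425000)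
(.lf (.negSucc 1069999999) 0)
(.sx (.negSucc 7709374999)
(.lf (.negSucc 1119999999) 0)
(.lf (.negSucc 1069999999) 0))))
(.sx (.negSucc 7118749999)
(.sy (.ofNat 2385425000)
(.lf (.negSucc 979999999) 0)
(.lf (.negSucc 999999999) 0))
(.sy (.ofNat 2385425000)
(.lf (.negSucc 889999999) 0)
(.lf (.negSucc 909999999) 0))))
(.sx (.negSucc 7512499999)
(.sx (.negSucc 7906249999)
(.sy (.ofNat 4803475000)
(.sx (.negSucc 8103124999)
(.sx (.negSucc 8201562499)
(.sy (.ofNat 4198962500)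
(.lf (.negSucc 1229999999) 0)
(.lf (.negSucc 1229999999) 0))
(.sy (.ofNat 4198962500)
(.lf (.negSucc 1199999999) 0)
(.lf (.negSucc 1199999999) 0)))
(.sx (.negSucc 8004687499)
(.sy (.ofNat 4198962500)
(.lf (.negSucc 1179999999) 0)
(.lf (.negSucc 1179999999) 0))
(.lf (.negSucc 1159999999) 0)))
(.sx (.negSucc 8103124999)
(.sy (.ofNat 5407987500)
(.lf (.negSucc 1209999999) 0)
(.lf (.negSucc 1199999999) 0))
(.lf (.negSucc 1159999999) 0)))
(.sy (.ofNat 4803475000)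
(.sx (.negSucc 7709374999)
(.lf (.negSucc 1119999999) 0)
(.lf (.negSucc 1079999999) 0))
(.lf (.negSucc 1099999999) 0)))
(.sx (.negSucc 7118749999)
(.sy (.ofNat 4803475000)
(.lf (.negSucc 1009999999) 0)
(.lf (.negSucc 1009999999) 0))
(.sy (.ofNat 4803475000)
(.lf (.negSucc 919999999) 0)
(.lf (.negSucc 919999999) 0)))))
(.sy (.ofNat 3594450000)
(.sx (.negSucc 5937499999)
(.sx (.negSucc 6331249999)
(.sy (.ofNat 2385425000)
(.lf (.negSucc 799999999) 0)
(.lf (.negSucc 819999999) 0))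
(.sy (.ofNat 2385425000)
(.lf (.negSucc 709999999) 0)
(.lf (.negSucc 729999999) 0)))
(.sy (.ofNat 2385425000)
(.lf (.negSucc 579999999) 0)
(.lf (.negSucc 609999999) 0)))
(.sx (.negSucc 5937499999)
(.sy (.ofNat 4803475000)
(.lf (.negSucc 789999999) 0)
(.lf (.negSucc 789999999) 0))
(.sy (.ofNat 4803475000)
(.lf (.negSucc 619999999) 0)
(.lf (.negSucc 629999999) 0)))))
(.sx (.negSucc 6724999999)
(.sy (.ofNat 8430550000)
(.sx (.negSucc 7512499999)
(.sy (.ofNat 7221525000)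
(.sx (.negSucc 7906249999)
(.sy (.ofNat 6617012500)
(.lf (.negSucc 1169999999) 0)
(.lf (.negSucc 1159999999) 0))
(.lf (.negSucc 1079999999) 0))
(.sx (.negSucc 7906249999)
(.lf (.negSucc 1129999999) 0)
(.lf (.negSucc 1049999999) 0)))
(.sy (.ofNat 7221525000)
(.lf (.negSucc 949999999) 0)
(.lf (.negSucc 929999999) 0)))
(.sy (.ofNat 9639575000)
(.sx (.negSucc 7512499999)
(.lf (.negSucc 1049999999) 0)
(.lf (.negSucc 899999999) 0))
(.lf (.negSucc 929999999) 0)))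
(.sy (.ofNat 8430550000)
(.sx (.negSucc 5937499999)
(.sy (.ofNat 7221525000)
(.lf (.negSucc 789999999) 0)
(.lf (.negSucc 769999999) 0))
(.lf (.negSucc 629999999) 0))
(.sy (.ofNat 9639575000)
(.lf (.negSucc 679999999) 0)
(.lf (.negSucc 659999999) 0)))))
(.sy (.ofNat 6012500000)
(.sx (.negSucc 3574999999)
(.sy (.ofNat 3594450000)
(.sx (.negSucc 4362499999)
(.sy (.ofNat 2385425000)
(.lf (.negSucc 429999999) 0)
(.lf (.negSucc 449999999) 0))
(.sy (.ofNat 2385425000)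
(.sx (.negSucc 3968749999)
(.lf (.negSucc 319999999) 0)
(.lf (.negSucc 259999999) 0))
(.lf (.negSucc 319999999) 0)))
(.sx (.negSucc 4362499999)
(.sy (.ofNat 4803475000)
(.lf (.negSucc 469999999) 0)
(.lf (.negSucc 479999999) 0))
(.sy (.ofNat 4803475000)
(.lf (.negSucc 339999999) 0)
(.lf (.negSucc 349999999) 0))))
(.sy (.ofNat 3594450000)
(.sx (.negSucc 2787499999)
(.sy (.ofNat 2385425000)
(.sx (.negSucc 3181249999)
(.lf (.negSucc 209999999) 0)
(.lf (.negSucc 159999999) 0))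
(.lf (.negSucc 209999999) 0))
(.sy (.ofNat 2385425000)
(.sx (.negSucc 2393749999)
(.lf (.negSucc 109999999) 0)
(.lf (.negSucc 79999999) 0))
(.lf (.negSucc 129999999) 0)))
(.sx (.negSucc 2787499999)
(.lf (.negSucc 239999999) 0)
(.lf (.negSucc 169999999) 0))))
(.sy (.ofNat 8430550000)
(.sx (.negSucc 3574999999)
(.sx (.negSucc 4362499999)
(.lf (.negSucc 489999999) 0)
(.lf (.negSucc 369999999) 0))
(.sy (.ofNat 7221525000)
(.lf (.negSucc 229999999) 0)
(.lf (.negSucc 259999999) 0)))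
(.sx (.negSucc 3574999999)
(.lf (.negSucc 439999999) 0)
(.lf (.negSucc 309999999) 0))))))

theorem run_tr14_1N : Tr.run 1 2 (T14.C.mdA 2000) (T14.K1.shA (w2n 2000 541653907 18068)) R14 (.ofNat 2000000000) tr14_1N (.negSucc 8299999999) (.negSucc 1999999999) (.negSucc 8495799999) (.ofNat 10848600000)
    (-100000000000) 100000000000 = true := by decide +kernel

/-- tree -/
def br14 : Tr :=
(.sy (.ofNat 1176400000)
(.sz (.negSucc 219449999)
(.sy (.negSucc 3659699999)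
(.lf (.ofNat 0) 0)
(.lf (.ofNat 0) 0))
(.sy (.negSucc 3659699999)
(.lf (.ofNat 0) 0)
(.lf (.ofNat 0) 0)))
(.sz (.negSucc 219449999)
(.lf (.ofNat 0) 0)
(.lf (.ofNat 0) 0)))

theorem run_br14 : Tr.runB T14.C T14.K0 (D14.bt * 2000 / 10000 + 1) R14.om br14 (-D14.m) D14.M D14.ylo D14.yhi
    (-R14.bl) R14.bh = true := by decide +kernel

end Pool.Agent.Helper30.DL
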