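import Pool.Agent.Helper30.DL.Run.C19

/-! MP_b4564f_an, all delays. Cell 19: kernel computations (generated). -/

set_option autoImplicit false
set_option maxRecDepth 100000

namespace Pool.Agent.Helper30.DL

/-- tree -/
def tr19_0A : Tr :=
(.sy (.ofNat 0)
(.sy (.negSucc 4999999999)
(.sx (.ofNat 2500000000)
(.sy (.negSucc 7499999999)
(.lf (.negSucc 899999999) 0)
(.lf (.negSucc 889999999) 0))
(.sx (.ofNat 3750000000)
(.sy (.negSucc 7499999999)
(.lf (.negSucc 209999999) 0)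
(.lf (.negSucc 179999999) 0))
(.sy (.negSucc 7499999999)
(.sx (.ofNat 4375000000)
(.lf (.ofNat 120000000) 0)
(.sy (.negSucc 8749999999)
(.lf (.ofNat 260000000) 0)
(.lf (.ofNat 360000000) 0)))
(.sx (.ofNat 4375000000)
(.lf (.ofNat 200000000) 0)
(.sx (.ofNat 4687500000)
(.lf (.ofNat 380000000) 0)
(.sy (.negSucc 6249999999)
(.lf (.ofNat 470000000) 0)
(.lf (.ofNat 490000000) 0)))))))
(.sx (.ofNat 2500000000)
(.sy (.negSucc 2499999999)
(.lf (.negSucc 909999999) 0)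
(.lf (.negSucc 959999999) 0))
(.sx (.ofNat 3750000000)
(.sy (.negSucc 2499999999)
(.lf (.negSucc 219999999) 0)
(.lf (.negSucc 319999999) 0))
(.sy (.negSucc 2499999999)
(.sx (.ofNat 4375000000)
(.lf (.ofNat 170000000) 0)
(.sx (.ofNat 4687500000)
(.lf (.ofNat 360000000) 0)
(.lf (.ofNat 480000000) 1)))
(.sx (.ofNat 4375000000)
(.lf (.ofNat 50000000) 0)
(.sx (.ofNat 4687500000)
(.lf (.ofNat 240000000) 0)
(.lf (.ofNat 360000000) 0)))))))
(.sy (.ofNat 5000000000)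
(.sx (.ofNat 2500000000)
(.sy (.ofNat 2500000000)
(.lf (.negSucc 1019999999) 0)
(.lf (.negSucc 1099999999) 0))
(.sx (.ofNat 3750000000)
(.sy (.ofNat 2500000000)
(.lf (.negSucc 479999999) 0)
(.lf (.negSucc 669999999) 0))
(.sy (.ofNat 2500000000)
(.sx (.ofNat 4375000000)
(.lf (.negSucc 139999999) 0)
(.lf (.ofNat 110000000) 0))
(.sx (.ofNat 4375000000)
(.lf (.negSucc 359999999) 0)
(.lf (.negSucc 109999999) 0)))))
(.sx (.ofNat 2500000000)
(.sy (.ofNat 7500000000)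
(.sx (.ofNat 1250000000)
(.lf (.negSucc 1239999999) 0)
(.lf (.negSucc 1129999999) 0))
(.sy (.ofNat 8750000000)
(.sx (.ofNat 1250000000)
(.lf (.negSucc 1279999999) 0)
(.lf (.negSucc 1249999999) 0))
(.sx (.ofNat 1250000000)
(.lf (.negSucc 1309999999) 0)
(.lf (.negSucc 1329999999) 0))))
(.sy (.ofNat 7500000000)
(.sx (.ofNat 3750000000)
(.lf (.negSucc 889999999) 0)
(.sy (.ofNat 6250000000)
(.lf (.negSucc 399999999) 0)
(.lf (.negSucc 489999999) 0)))
(.sx (.ofNat 3750000000)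
(.sy (.ofNat 8750000000)
(.lf (.negSucc 1049999999) 0)
(.lf (.negSucc 1149999999) 0))
(.sy (.ofNat 8750000000)
(.lf (.negSucc 559999999) 0)
(.lf (.negSucc 599999999) 0)))))))

theorem run_tr19_0A : Tr.run 0 0 T19.C T19.K0 R19 (.ofNat 5000000000) tr19_0A (.ofNat 0) (.ofNat 5000000000) (.negSucc 9999999999) (.ofNat 10000000000)
    (-100000000000) 100000000000 = true := by decide +kernel

/-- tree -/
def tr19_0AA : Tr :=
(.sy (.ofNat 0)
(.sy (.negSucc 4999999999)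
(.sx (.negSucc 2499999999)
(.sy (.negSucc 7499999999)
(.sx (.negSucc 3749999999)
(.lf (.negSucc 1789999999) 0)
(.lf (.negSucc 1739999999) 0))
(.sx (.negSucc 3749999999)
(.lf (.negSucc 1809999999) 0)
(.lf (.negSucc 1749999999) 0)))
(.sy (.negSucc 7499999999)
(.lf (.negSucc 1519999999) 0)
(.lf (.negSucc 1529999999) 0)))
(.sx (.negSucc 2499999999)
(.sy (.negSucc 2499999999)
(.sx (.negSucc 3749999999)
(.lf (.negSucc 1789999999) 0)
(.lf (.negSucc 1729999999) 0))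
(.sx (.negSucc 3749999999)
(.lf (.negSucc 1719999999) 0)
(.lf (.negSucc 1659999999) 0)))
(.sy (.negSucc 2499999999)
(.lf (.negSucc 1509999999) 0)
(.lf (.negSucc 1479999999) 0))))
(.sy (.ofNat 5000000000)
(.sx (.negSucc 2499999999)
(.sy (.ofNat 2500000000)
(.sx (.negSucc 3749999999)
(.lf (.negSucc 1589999999) 0)
(.lf (.negSucc 1559999999) 0))
(.sy (.ofNat 3750000000)
(.lf (.negSucc 1449999999) 0)
(.lf (.negSucc 1339999999) 0)))
(.sy (.ofNat 2500000000)
(.lf (.negSucc 1429999999) 0)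
(.lf (.negSucc 1349999999) 0)))
(.sy (.ofNat 7500000000)
(.sx (.negSucc 2499999999)
(.sy (.ofNat 6250000000)
(.lf (.negSucc 1209999999) 0)
(.lf (.negSucc 1059999999) 0))
(.sy (.ofNat 6250000000)
(.lf (.negSucc 1279999999) 0)
(.lf (.negSucc 1229999999) 0)))
(.sx (.negSucc 2499999999)
(.sy (.ofNat 8750000000)
(.sx (.negSucc 3749999999)
(.lf (.negSucc 809999999) 0)
(.lf (.negSucc 969999999) 0))
(.sx (.negSucc 3749999999)
(.lf (.negSucc 579999999) 0)
(.lf (.negSucc 819999999) 0)))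
(.sx (.negSucc 1249999999)
(.sy (.ofNat 8750000000)
(.lf (.negSucc 1119999999) 0)
(.lf (.negSucc 1019999999) 0))
(.sy (.ofNat 8750000000)
(.lf (.negSucc 1229999999) 0)
(.lf (.negSucc 1199999999) 0)))))))

theorem run_tr19_0AA : Tr.run 0 0 T19.C T19.K0 R19 (.ofNat 5000000000) tr19_0AA (.negSucc 4999999999) (.ofNat 0) (.negSucc 9999999999) (.ofNat 10000000000)
    (-100000000000) 100000000000 = true := by decide +kernel

/-- tree -/
def tr19_0B : Tr :=
(.sy (.ofNat 0)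
(.sy (.negSucc 4999999999)
(.sx (.ofNat 5303750000)
(.sy (.negSucc 7499999999)
(.sy (.negSucc 8749999999)
(.sx (.ofNat 2651875000)
(.sy (.negSucc 9374999999)
(.lf (.negSucc 1429999999) 0)
(.lf (.negSucc 1229999999) 0))
(.sy (.negSucc 9374999999)
(.sx (.ofNat 3977812500)
(.lf (.negSucc 1619999999) 0)
(.lf (.negSucc 1659999999) 0))
(.lf (.negSucc 1419999999) 0)))
(.sx (.ofNat 2651875000)
(.sy (.negSucc 8124999999)
(.lf (.negSucc 1049999999) 0)
(.lf (.negSucc 889999999) 0))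
(.sy (.negSucc 8124999999)
(.lf (.negSucc 1209999999) 0)
(.lf (.negSucc 1009999999) 0))))
(.sy (.negSucc 6249999999)
(.sx (.ofNat 2651875000)
(.sy (.negSucc 6874999999)
(.lf (.negSucc 729999999) 0)
(.lf (.negSucc 599999999) 0))
(.sy (.negSucc 6874999999)
(.lf (.negSucc 829999999) 0)
(.lf (.negSucc 669999999) 0)))
(.sx (.ofNat 2651875000)
(.sy (.negSucc 5624999999)
(.lf (.negSucc 479999999) 0)
(.lf (.negSucc 369999999) 0))
(.sy (.negSucc 5624999999)
(.lf (.negSucc 519999999) 0)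
(.lf (.negSucc 389999999) 0)))))
(.sy (.negSucc 9427292010)
.ou
(.sy (.negSucc 7213646005)
(.sx (.ofNat 7955625000)
(.sy (.negSucc 8320469008)
(.sy (.negSucc 8873880509)
(.sx (.ofNat 6629687500)
(.lf (.negSucc 1459999999) 0)
.ou)
(.sx (.ofNat 6629687500)
(.lf (.negSucc 1279999999) 0)
.ou))
(.sy (.negSucc 7767057507)
(.lf (.negSucc 1099999999) 0)
(.lf (.negSucc 939999999) 0)))
.ou)
(.sy (.negSucc 6106823002)
(.sx (.ofNat 7955625000)
(.sy (.negSucc 6660234504)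
(.lf (.negSucc 789999999) 0)
(.lf (.negSucc 649999999) 0))
(.sy (.negSucc 6284861340)
.ou
(.lf (.negSucc 599999999) 0)))
(.sx (.ofNat 7955625000)
(.sy (.negSucc 5553411501)
(.lf (.negSucc 519999999) 0)
(.lf (.negSucc 409999999) 0))
(.sy (.negSucc 5553411501)
(.lf (.negSucc 519999999) 0)
(.lf (.negSucc 419999999) 0)))))))
(.sx (.ofNat 5303750000)
(.sy (.negSucc 2499999999)
(.sx (.ofNat 2651875000)
(.sy (.negSucc 3749999999)
(.sy (.negSucc 4374999999)
(.lf (.negSucc 269999999) 0)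
(.lf (.negSucc 189999999) 0))
(.lf (.negSucc 99999999) 0))
(.sy (.negSucc 3749999999)
(.sy (.negSucc 4374999999)
(.lf (.negSucc 279999999) 0)
(.lf (.negSucc 189999999) 0))
(.lf (.negSucc 79999999) 0)))
(.sx (.ofNat 2651875000)
(.sy (.negSucc 1249999999)
(.lf (.negSucc 19999999) 0)
(.lf (.ofNat 10000000) 0))
(.sy (.negSucc 1249999999)
(.lf (.ofNat 10000000) 0)
(.lf (.ofNat 30000000) 0))))
(.sy (.negSucc 2499999999)
(.sx (.ofNat 7955625000)
(.sy (.negSucc 3749999999)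
(.sy (.negSucc 4374999999)
(.lf (.negSucc 299999999) 0)
(.lf (.negSucc 199999999) 0))
(.lf (.negSucc 79999999) 0))
(.sy (.negSucc 3749999999)
(.sy (.negSucc 4374999999)
(.lf (.negSucc 309999999) 0)
(.lf (.negSucc 219999999) 0))
(.lf (.negSucc 99999999) 1)))
(.sx (.ofNat 7955625000)
(.sy (.negSucc 1249999999)
(.lf (.ofNat 20000000) 0)
(.lf (.ofNat 40000000) 0))
(.sy (.negSucc 1249999999)
(.lf (.ofNat 0) 0)
(.lf (.ofNat 20000000) 0))))))
(.sy (.ofNat 5000000000)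
(.sx (.ofNat 5303750000)
(.sy (.ofNat 2500000000)
(.sx (.ofNat 2651875000)
(.sy (.ofNat 1250000000)
(.lf (.negSucc 9999999) 0)
(.lf (.negSucc 69999999) 0))
(.sy (.ofNat 1250000000)
(.lf (.negSucc 9999999) 0)
(.lf (.negSucc 109999999) 0)))
(.sx (.ofNat 2651875000)
(.sy (.ofNat 3750000000)
(.lf (.negSucc 179999999) 0)
(.sx (.ofNat 1325937500)
(.lf (.negSucc 289999999) 0)
(.lf (.negSucc 359999999) 0)))
(.sy (.ofNat 3750000000)
(.lf (.negSucc 249999999) 0)
(.sx (.ofNat 3977812500)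
(.lf (.negSucc 409999999) 0)
(.lf (.negSucc 419999999) 0)))))
(.sy (.ofNat 2500000000)
(.sx (.ofNat 7955625000)
(.sy (.ofNat 1250000000)
(.lf (.negSucc 9999999) 0)
(.lf (.negSucc 99999999) 0))
(.sy (.ofNat 1250000000)
(.lf (.ofNat 0) 0)
(.lf (.negSucc 39999999) 0)))
(.sx (.ofNat 7955625000)
(.sy (.ofNat 3750000000)
(.sx (.ofNat 6629687500)
(.lf (.negSucc 239999999) 0)
(.lf (.negSucc 179999999) 0))
(.sx (.ofNat 6629687500)
(.sy (.ofNat 4375000000)
(.lf (.negSucc 329999999) 0)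
(.lf (.negSucc 379999999) 0))
(.sy (.ofNat 4375000000)
(.lf (.negSucc 199999999) 0)
(.lf (.negSucc 179999999) 0))))
(.sy (.ofNat 3750000000)
(.sx (.ofNat 9281562500)
(.lf (.negSucc 69999999) 0)
(.lf (.ofNat 90000000) 1))
(.sx (.ofNat 9281562500)
(.sy (.ofNat 4375000000)
(.lf (.ofNat 20000000) 0)
(.lf (.ofNat 140000000) 0))
(.sy (.ofNat 4375000000)
(.lf (.ofNat 300000000) 0)
(.lf (.ofNat 510000000) 0)))))))
(.sx (.ofNat 5303750000)
(.sy (.ofNat 7500000000)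
(.sx (.ofNat 2651875000)
(.sy (.ofNat 6250000000)
(.sx (.ofNat 1325937500)
(.lf (.negSucc 459999999) 0)
(.sy (.ofNat 5625000000)
(.lf (.negSucc 499999999) 0)
(.lf (.negSucc 599999999) 0)))
(.sx (.ofNat 1325937500)
(.sy (.ofNat 6875000000)
(.lf (.negSucc 609999999) 0)
(.lf (.negSucc 719999999) 0))
(.sy (.ofNat 6875000000)
(.lf (.negSucc 709999999) 0)
(.lf (.negSucc 829999999) 0))))
(.sy (.ofNat 6250000000)
(.sx (.ofNat 3977812500)
(.sy (.ofNat 5625000000)
(.lf (.negSucc 549999999) 0)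
(.lf (.negSucc 649999999) 0))
(.sy (.ofNat 5625000000)
(.lf (.negSucc 539999999) 0)
(.lf (.negSucc 599999999) 0)))
(.sx (.ofNat 3977812500)
(.sy (.ofNat 6875000000)
(.lf (.negSucc 749999999) 0)
(.lf (.negSucc 839999999) 0))
(.sx (.ofNat 4640781250)
(.sy (.ofNat 6875000000)
(.lf (.negSucc 699999999) 0)
(.lf (.negSucc 749999999) 0))
(.sy (.ofNat 6875000000)
(.lf (.negSucc 599999999) 0)
(.lf (.negSucc 609999999) 0))))))
(.sx (.ofNat 2651875000)
(.sy (.ofNat 8750000000)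
(.sy (.ofNat 8125000000)
(.sx (.ofNat 1325937500)
(.lf (.negSucc 839999999) 0)
(.lf (.negSucc 949999999) 0))
(.sx (.ofNat 1325937500)
(.lf (.negSucc 969999999) 0)
(.lf (.negSucc 1069999999) 0)))
(.sy (.ofNat 9375000000)
(.sx (.ofNat 1325937500)
(.lf (.negSucc 1109999999) 0)
(.lf (.negSucc 1189999999) 0))
(.sx (.ofNat 1325937500)
(.lf (.negSucc 1259999999) 0)
(.lf (.negSucc 1309999999) 0))))
(.sx (.ofNat 3977812500)
(.sy (.ofNat 8750000000)
(.sy (.ofNat 8125000000)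
(.lf (.negSucc 929999999) 0)
(.lf (.negSucc 1009999999) 0))
(.sx (.ofNat 3314843750)
(.sy (.ofNat 9375000000)
(.lf (.negSucc 1129999999) 0)
(.lf (.negSucc 1209999999) 0))
(.sy (.ofNat 9375000000)
(.lf (.negSucc 999999999) 0)
(.lf (.negSucc 1019999999) 0))))
(.sy (.ofNat 8750000000)
(.sx (.ofNat 4640781250)
(.sy (.ofNat 8125000000)
(.lf (.negSucc 779999999) 0)
(.lf (.negSucc 789999999) 0))
(.sy (.ofNat 8125000000)
(.lf (.negSucc 579999999) 0)
(.lf (.negSucc 509999999) 0)))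
(.sx (.ofNat 4640781250)
(.sy (.ofNat 9375000000)
(.lf (.negSucc 759999999) 0)
(.lf (.negSucc 699999999) 0))
(.sy (.ofNat 9375000000)
(.lf (.negSucc 399999999) 0)
(.lf (.negSucc 229999999) 0)))))))
(.sy (.ofNat 9427292011)
(.sy (.ofNat 7213646005)
(.sx (.ofNat 7955625000)
(.sx (.ofNat 6629687500)
(.sy (.ofNat 6106823002)
(.sx (.ofNat 5966718750)
(.lf (.negSucc 459999999) 0)
(.lf (.negSucc 329999999) 0))
(.sx (.ofNat 5966718750)
(.lf (.negSucc 439999999) 0)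
(.lf (.negSucc 209999999) 0)))
(.sy (.ofNat 6106823002)
(.sx (.ofNat 7292656250)
(.lf (.negSucc 159999999) 0)
(.lf (.ofNat 50000000) 0))
(.sx (.ofNat 7292656250)
(.lf (.ofNat 90000000) 0)
(.sy (.ofNat 6856212372)
(.lf (.ofNat 350000000) 0)
.ou))))
(.sy (.ofNat 6284861341)
(.sx (.ofNat 9281562500)
(.sy (.ofNat 5642430670)
(.lf (.ofNat 330000000) 0)
(.lf (.ofNat 590000000) 0))
(.sy (.ofNat 5387024006)
(.lf (.ofNat 730000000) 0)
.ou))
.ou))
(.sx (.ofNat 7955625000)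
(.sx (.ofNat 6629687500)
(.sy (.ofNat 8320469008)
(.sx (.ofNat 5966718750)
(.lf (.negSucc 289999999) 0)
(.lf (.ofNat 90000000) 0))
(.sx (.ofNat 5966718750)
(.lf (.ofNat 20000000) 0)
(.sy (.ofNat 8379815121)
(.lf (.ofNat 320000000) 0)
.ou)))
(.sy (.ofNat 7541833609)
(.lf (.ofNat 560000000) 0)
.ou))
.ou))
.ou))))

theorem run_tr19_0B : Tr.run 0 1 T19.C T19.K0 R19 (.ofNat 5000000000) tr19_0B (.ofNat 0) (.ofNat 10607500000) (.negSucc 9999999999) (.ofNat 10000000000)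
    (-100000000000) 100000000000 = true := by decide +kernel

/-- tree -/
def tr19_0BB : Tr :=
(.sy (.ofNat 0)
(.sy (.negSucc 4999999999)
(.sx (.negSucc 4134399999)
(.sy (.negSucc 7499999999)
(.sx (.negSucc 6201599999)
(.sy (.negSucc 8062435500)
.ou
(.sx (.negSucc 7235199999)
.ou
(.lf (.negSucc 119999999) 0)))
(.sy (.negSucc 8749999999)
(.sx (.negSucc 5167999999)
(.sy (.negSucc 9674922600)
.ou
(.sx (.negSucc 5684799999)
(.sy (.negSucc 8795384182)
.ou
(.lf (.ofNat 70000000) 0))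
(.lf (.ofNat 130000000) 0)))
(.sy (.negSucc 9374999999)
(.lf (.ofNat 110000000) 0)
(.lf (.negSucc 19999999) 0)))
(.sx (.negSucc 5167999999)
(.sy (.negSucc 8124999999)
(.lf (.negSucc 19999999) 0)
(.lf (.negSucc 139999999) 0))
(.sy (.negSucc 8124999999)
(.lf (.negSucc 129999999) 0)
(.lf (.negSucc 219999999) 0)))))
(.sy (.negSucc 6249999999)
(.sx (.negSucc 6201599999)
(.sy (.negSucc 6874999999)
(.sx (.negSucc 7235199999)
(.sy (.negSucc 6910659000)
.ou
(.lf (.negSucc 299999999) 0))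
(.lf (.negSucc 229999999) 0))
(.sx (.negSucc 7235199999)
(.lf (.negSucc 349999999) 0)
(.lf (.negSucc 319999999) 0)))
(.sy (.negSucc 6874999999)
(.lf (.negSucc 259999999) 0)
(.lf (.negSucc 319999999) 0)))
(.sx (.negSucc 6201599999)
(.sy (.negSucc 5624999999)
(.lf (.negSucc 409999999) 0)
(.lf (.negSucc 459999999) 0))
(.sy (.negSucc 5624999999)
(.lf (.negSucc 359999999) 0)
(.lf (.negSucc 379999999) 0)))))
(.sy (.negSucc 7499999999)
(.sx (.negSucc 2067199999)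
(.sy (.negSucc 8749999999)
(.sx (.negSucc 3100799999)
(.sy (.negSucc 9374999999)
(.lf (.negSucc 149999999) 0)
(.lf (.negSucc 229999999) 0))
(.lf (.negSucc 469999999) 0))
(.sx (.negSucc 3100799999)
(.sy (.negSucc 8124999999)
(.lf (.negSucc 289999999) 0)
(.lf (.negSucc 329999999) 0))
(.lf (.negSucc 469999999) 0)))
(.sy (.negSucc 8749999999)
(.sy (.negSucc 9374999999)
(.lf (.negSucc 929999999) 0)
(.lf (.negSucc 839999999) 0))
(.sy (.negSucc 8124999999)
(.lf (.negSucc 749999999) 0)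
(.lf (.negSucc 659999999) 0))))
(.sy (.negSucc 6249999999)
(.sx (.negSucc 2067199999)
(.sy (.negSucc 6874999999)
(.lf (.negSucc 399999999) 0)
(.lf (.negSucc 389999999) 0))
(.sy (.negSucc 6874999999)
(.lf (.negSucc 569999999) 0)
(.lf (.negSucc 499999999) 0)))
(.sx (.negSucc 2067199999)
(.sy (.negSucc 5624999999)
(.lf (.negSucc 379999999) 0)
(.lf (.negSucc 349999999) 0))
(.sy (.negSucc 5624999999)
(.lf (.negSucc 419999999) 0)
(.lf (.negSucc 349999999) 0))))))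
(.sx (.negSucc 4134399999)
(.sy (.negSucc 2499999999)
(.sx (.negSucc 6201599999)
(.sy (.negSucc 3749999999)
(.sx (.negSucc 7235199999)
(.sy (.negSucc 4374999999)
(.lf (.negSucc 519999999) 0)
(.lf (.negSucc 519999999) 0))
(.sy (.negSucc 4374999999)
(.lf (.negSucc 459999999) 0)
(.lf (.negSucc 459999999) 0)))
(.sx (.negSucc 7235199999)
(.lf (.negSucc 489999999) 0)
(.lf (.negSucc 419999999) 0)))
(.sy (.negSucc 3749999999)
(.sx (.negSucc 5167999999)
(.sy (.negSucc 4374999999)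
(.lf (.negSucc 399999999) 0)
(.lf (.negSucc 389999999) 0))
(.lf (.negSucc 349999999) 0))
(.lf (.negSucc 319999999) 0)))
(.sx (.negSucc 6201599999)
(.sy (.negSucc 1249999999)
(.lf (.negSucc 339999999) 0)
(.lf (.negSucc 169999999) 0))
(.sy (.negSucc 1249999999)
(.lf (.negSucc 219999999) 0)
(.lf (.negSucc 109999999) 0))))
(.sy (.negSucc 2499999999)
(.sx (.negSucc 2067199999)
(.sy (.negSucc 3749999999)
(.sx (.negSucc 3100799999)
(.lf (.negSucc 319999999) 0)
(.lf (.negSucc 289999999) 0))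
(.lf (.negSucc 219999999) 0))
(.sy (.negSucc 3749999999)
(.lf (.negSucc 249999999) 1)
(.lf (.negSucc 149999999) 0)))
(.sx (.negSucc 2067199999)
(.sy (.negSucc 1249999999)
(.lf (.negSucc 139999999) 0)
(.lf (.negSucc 59999999) 0))
(.sy (.negSucc 1249999999)
(.lf (.negSucc 69999999) 0)
(.lf (.negSucc 19999999) 0))))))
(.sy (.ofNat 5000000000)
(.sx (.negSucc 4134399999)
(.sy (.ofNat 2500000000)
(.sx (.negSucc 6201599999)
(.sy (.ofNat 1250000000)
(.lf (.ofNat 10000000) 0)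
(.lf (.ofNat 200000000) 0))
(.sy (.ofNat 1250000000)
(.lf (.ofNat 10000000) 0)
(.lf (.ofNat 110000000) 0)))
(.sx (.negSucc 6201599999)
(.sy (.ofNat 3750000000)
(.lf (.ofNat 360000000) 0)
(.lf (.ofNat 480000000) 0))
(.sy (.ofNat 3750000000)
(.lf (.ofNat 180000000) 0)
(.lf (.ofNat 210000000) 0))))
(.sy (.ofNat 2500000000)
(.sx (.negSucc 2067199999)
(.sy (.ofNat 1250000000)
(.lf (.ofNat 0) 0)
(.lf (.ofNat 40000000) 0))
(.lf (.negSucc 9999999) 0))
(.sx (.negSucc 2067199999)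
(.sy (.ofNat 3750000000)
(.lf (.ofNat 40000000) 0)
(.lf (.ofNat 0) 0))
(.sy (.ofNat 3750000000)
(.lf (.negSucc 69999999) 0)
(.lf (.negSucc 169999999) 0)))))
(.sx (.negSucc 4134399999)
(.sy (.ofNat 7500000000)
(.sx (.negSucc 6201599999)
(.sx (.negSucc 7235199999)
(.sy (.ofNat 6910659001)
(.sy (.ofNat 5955329500)
(.lf (.ofNat 660000000) 0)
(.lf (.ofNat 710000000) 0))
.ou)
(.sy (.ofNat 6250000000)
(.lf (.ofNat 450000000) 0)
(.lf (.ofNat 450000000) 0)))
(.sx (.negSucc 5167999999)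
(.sy (.ofNat 6250000000)
(.lf (.ofNat 270000000) 0)
(.lf (.ofNat 230000000) 0))
(.sy (.ofNat 6250000000)
(.lf (.ofNat 120000000) 0)
(.lf (.ofNat 40000000) 0))))
(.sx (.negSucc 6201599999)
(.sy (.ofNat 8062435501)
(.lf (.ofNat 570000000) 0)
.ou)
(.sy (.ofNat 8750000000)
(.sx (.negSucc 5167999999)
(.lf (.ofNat 130000000) 0)
(.lf (.negSucc 89999999) 0))
(.sx (.negSucc 5167999999)
(.sy (.ofNat 9674922601)
(.lf (.ofNat 10000000) 0)
.ou)
(.lf (.negSucc 269999999) 0)))))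
(.sy (.ofNat 7500000000)
(.sx (.negSucc 2067199999)
(.sy (.ofNat 6250000000)
(.sx (.negSucc 3100799999)
(.lf (.negSucc 9999999) 0)
(.lf (.negSucc 139999999) 0))
(.sx (.negSucc 3100799999)
(.lf (.negSucc 119999999) 0)
(.lf (.negSucc 269999999) 0)))
(.sy (.ofNat 6250000000)
(.sx (.negSucc 1033599999)
(.lf (.negSucc 249999999) 0)
(.lf (.negSucc 349999999) 0))
(.sx (.negSucc 1033599999)
(.sy (.ofNat 6875000000)
(.lf (.negSucc 369999999) 0)
(.lf (.negSucc 459999999) 0))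
(.sy (.ofNat 6875000000)
(.lf (.negSucc 489999999) 0)
(.lf (.negSucc 589999999) 0)))))
(.sx (.negSucc 2067199999)
(.sy (.ofNat 8750000000)
(.sx (.negSucc 3100799999)
(.lf (.negSucc 289999999) 0)
(.sy (.ofNat 8125000000)
(.lf (.negSucc 409999999) 0)
(.lf (.negSucc 519999999) 0)))
(.sx (.negSucc 3100799999)
(.lf (.negSucc 499999999) 0)
(.sy (.ofNat 9375000000)
(.lf (.negSucc 639999999) 0)
(.lf (.negSucc 769999999) 0))))
(.sy (.ofNat 8750000000)
(.sx (.negSucc 1033599999)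
(.sy (.ofNat 8125000000)
(.lf (.negSucc 569999999) 0)
(.lf (.negSucc 679999999) 0))
(.sy (.ofNat 8125000000)
(.lf (.negSucc 709999999) 0)
(.lf (.negSucc 829999999) 0)))
(.sx (.negSucc 1033599999)
(.sy (.ofNat 9375000000)
(.lf (.negSucc 809999999) 0)
(.lf (.negSucc 949999999) 0))
(.sy (.ofNat 9375000000)
(.lf (.negSucc 969999999) 0)
(.lf (.negSucc 1119999999) 0)))))))))

theorem run_tr19_0BB : Tr.run 0 1 T19.C T19.K0 R19 (.ofNat 5000000000) tr19_0BB (.negSucc 8268799999) (.ofNat 0) (.negSucc 9999999999) (.ofNat 10000000000)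
    (-100000000000) 100000000000 = true := by decide +kernel

/-- tree -/
def tr19_0P : Tr :=
(.sy (.ofNat 1169350000)
(.sy (.negSucc 3549724999)
(.sy (.negSucc 5909262499)
(.sy (.negSucc 7089031249)
(.sy (.negSucc 7678915624)
(.lf (.negSucc 229999999) 0)
(.lf (.negSucc 139999999) 0))
(.sy (.negSucc 6499146874)
(.sy (.negSucc 6794089062)
(.lf (.negSucc 79999999) 0)
(.lf (.negSucc 39999999) 0))
(.sx (.ofNat 5250000000)
(.lf (.negSucc 9999999) 0)
(.lf (.ofNat 20000000) 0))))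
(.sy (.negSucc 4729493749)
(.sy (.negSucc 5319378124)
(.sx (.ofNat 5250000000)
(.lf (.ofNat 40000000) 0)
(.lf (.ofNat 80000000) 0))
(.sx (.ofNat 5250000000)
(.lf (.ofNat 80000000) 0)
(.lf (.ofNat 120000000) 0)))
(.sy (.negSucc 4139609374)
(.sx (.ofNat 5250000000)
(.lf (.ofNat 110000000) 0)
(.lf (.ofNat 150000000) 0))
(.sx (.ofNat 5250000000)
(.lf (.ofNat 140000000) 0)
(.sx (.ofNat 5375000000)
(.lf (.ofNat 170000000) 0)
(.lf (.ofNat 190000000) 0))))))
(.sy (.negSucc 1190187499)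
(.sy (.negSucc 2369956249)
(.sx (.ofNat 5250000000)
(.sy (.negSucc 2959840624)
(.lf (.ofNat 150000000) 0)
(.lf (.ofNat 160000000) 0))
(.sy (.negSucc 2959840624)
(.sx (.ofNat 5375000000)
(.lf (.ofNat 180000000) 0)
(.lf (.ofNat 200000000) 0))
(.sx (.ofNat 5375000000)
(.lf (.ofNat 190000000) 0)
(.lf (.ofNat 210000000) 0))))
(.sx (.ofNat 5250000000)
(.sy (.negSucc 1780071874)
(.lf (.ofNat 150000000) 0)
(.lf (.ofNat 150000000) 0))
(.sy (.negSucc 1780071874)
(.sx (.ofNat 5375000000)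
(.lf (.ofNat 180000000) 0)
(.lf (.ofNat 200000000) 0))
(.sx (.ofNat 5375000000)
(.lf (.ofNat 170000000) 0)
(.lf (.ofNat 190000000) 0)))))
(.sy (.negSucc 10418749)
(.sy (.negSucc 600303124)
(.sx (.ofNat 5250000000)
(.lf (.ofNat 130000000) 0)
(.sx (.ofNat 5375000000)
(.lf (.ofNat 160000000) 0)
(.lf (.ofNat 180000000) 0)))
(.sx (.ofNat 5250000000)
(.lf (.ofNat 110000000) 0)
(.sx (.ofNat 5375000000)
(.lf (.ofNat 140000000) 0)
(.lf (.ofNat 160000000) 0))))
(.sy (.ofNat 579465625)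
(.sx (.ofNat 5250000000)
(.lf (.ofNat 90000000) 0)
(.sx (.ofNat 5375000000)
(.lf (.ofNat 120000000) 0)
(.lf (.ofNat 140000000) 0)))
(.sx (.ofNat 5250000000)
(.lf (.ofNat 60000000) 0)
(.sx (.ofNat 5375000000)
(.lf (.ofNat 90000000) 0)
(.lf (.ofNat 110000000) 0)))))))
(.sy (.ofNat 5888425000)
(.sy (.ofNat 3528887500)
(.sy (.ofNat 2349118750)
(.sy (.ofNat 1759234375)
(.sx (.ofNat 5250000000)
(.lf (.ofNat 40000000) 0)
(.sy (.ofNat 1464292187)
(.lf (.ofNat 80000000) 0)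
(.lf (.ofNat 70000000) 0)))
(.sx (.ofNat 5250000000)
(.lf (.ofNat 10000000) 0)
(.lf (.ofNat 50000000) 0)))
(.sy (.ofNat 2939003125)
(.sx (.ofNat 5250000000)
(.lf (.negSucc 9999999) 0)
(.lf (.ofNat 30000000) 0))
(.sx (.ofNat 5250000000)
(.lf (.negSucc 19999999) 0)
(.lf (.ofNat 20000000) 0))))
(.sy (.ofNat 4708656250)
(.sy (.ofNat 4118771875)
(.sx (.ofNat 5250000000)
(.lf (.negSucc 29999999) 0)
(.lf (.ofNat 20000000) 0))
(.lf (.ofNat 0) 0))
(.sy (.ofNat 5298540625)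
(.lf (.ofNat 30000000) 0)
(.lf (.ofNat 60000000) 0))))
(.sy (.ofNat 8247962500)
(.sy (.ofNat 7068193750)
(.lf (.ofNat 150000000) 0)
(.lf (.ofNat 310000000) 0))
(.lf (.ofNat 650000000) 0))))

theorem run_tr19_0P : Tr.run 0 2 T19.C T19.K0 R19 (.ofNat 5000000000) tr19_0P (.ofNat 5000000000) (.ofNat 5500000000) (.negSucc 8268799999) (.ofNat 10607500000)
    (-100000000000) 100000000000 = true := by decide +kernel

/-- tree -/
def tr19_0N : Tr :=
(.sy (.ofNat 1169350000)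
(.sy (.negSucc 3549724999)
(.sy (.negSucc 5909262499)
(.sx (.negSucc 6549999999)
(.sy (.negSucc 7089031249)
(.sy (.negSucc 7678915624)
(.sx (.negSucc 7324999999)
(.lf (.ofNat 540000000) 0)
(.lf (.ofNat 530000000) 0))
(.sx (.negSucc 7324999999)
(.lf (.ofNat 270000000) 0)
(.lf (.ofNat 300000000) 0)))
(.sx (.negSucc 7324999999)
(.sy (.negSucc 6499146874)
(.lf (.ofNat 50000000) 0)
(.lf (.negSucc 129999999) 0))
(.sy (.negSucc 6499146874)
(.lf (.ofNat 110000000) 0)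
(.lf (.negSucc 39999999) 0))))
(.sy (.negSucc 7089031249)
(.sy (.negSucc 7678915624)
(.sx (.negSucc 5774999999)
(.lf (.ofNat 520000000) 0)
(.lf (.ofNat 500000000) 0))
(.sx (.negSucc 5774999999)
(.lf (.ofNat 330000000) 0)
(.lf (.ofNat 340000000) 0)))
(.sx (.negSucc 5774999999)
(.sy (.negSucc 6499146874)
(.lf (.ofNat 160000000) 0)
(.lf (.ofNat 30000000) 0))
(.sy (.negSucc 6499146874)
(.lf (.ofNat 200000000) 0)
(.lf (.ofNat 80000000) 0)))))
(.sx (.negSucc 6549999999)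
(.sy (.negSucc 4729493749)
(.sx (.negSucc 7324999999)
(.sy (.negSucc 5319378124)
(.lf (.negSucc 279999999) 0)
(.lf (.negSucc 409999999) 0))
(.sy (.negSucc 5319378124)
(.lf (.negSucc 179999999) 0)
(.lf (.negSucc 299999999) 0)))
(.sx (.negSucc 7324999999)
(.sy (.negSucc 4139609374)
(.lf (.negSucc 519999999) 0)
(.sx (.negSucc 7712499999)
(.lf (.negSucc 649999999) 0)
(.lf (.negSucc 579999999) 0)))
(.sy (.negSucc 4139609374)
(.sx (.negSucc 6937499999)
(.lf (.negSucc 429999999) 0)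
(.lf (.negSucc 359999999) 0))
(.sx (.negSucc 6937499999)
(.lf (.negSucc 509999999) 0)
(.lf (.negSucc 449999999) 0)))))
(.sy (.negSucc 4729493749)
(.sx (.negSucc 5774999999)
(.sy (.negSucc 5319378124)
(.lf (.negSucc 89999999) 0)
(.sx (.negSucc 6162499999)
(.lf (.negSucc 219999999) 0)
(.lf (.negSucc 169999999) 0)))
(.sy (.negSucc 5319378124)
(.sx (.negSucc 5387499999)
(.lf (.negSucc 39999999) 0)
(.lf (.ofNat 0) 0))
(.sx (.negSucc 5387499999)
(.lf (.negSucc 129999999) 0)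
(.lf (.negSucc 89999999) 0))))
(.sx (.negSucc 5774999999)
(.sy (.negSucc 4139609374)
(.sx (.negSucc 6162499999)
(.lf (.negSucc 309999999) 0)
(.lf (.negSucc 249999999) 0))
(.sx (.negSucc 6162499999)
(.lf (.negSucc 379999999) 0)
(.lf (.negSucc 329999999) 0)))
(.sy (.negSucc 4139609374)
(.sx (.negSucc 5387499999)
(.lf (.negSucc 209999999) 0)
(.lf (.negSucc 159999999) 0))
(.sx (.negSucc 5387499999)
(.lf (.negSucc 269999999) 0)
(.lf (.negSucc 219999999) 0)))))))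
(.sx (.negSucc 6549999999)
(.sy (.negSucc 1190187499)
(.sx (.negSucc 7324999999)
(.sy (.negSucc 2369956249)
(.sx (.negSucc 7712499999)
(.sy (.negSucc 2959840624)
(.lf (.negSucc 739999999) 0)
(.lf (.negSucc 809999999) 0))
(.sy (.negSucc 2959840624)
(.lf (.negSucc 659999999) 0)
(.lf (.negSucc 729999999) 0)))
(.sx (.negSucc 7712499999)
(.sy (.negSucc 1780071874)
(.lf (.negSucc 869999999) 0)
(.lf (.negSucc 919999999) 0))
(.sy (.negSucc 1780071874)
(.lf (.negSucc 789999999) 0)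
(.lf (.negSucc 839999999) 0))))
(.sy (.negSucc 2369956249)
(.sx (.negSucc 6937499999)
(.sy (.negSucc 2959840624)
(.lf (.negSucc 589999999) 0)
(.lf (.negSucc 649999999) 0))
(.sy (.negSucc 2959840624)
(.lf (.negSucc 519999999) 0)
(.lf (.negSucc 579999999) 0)))
(.sx (.negSucc 6937499999)
(.sy (.negSucc 1780071874)
(.lf (.negSucc 709999999) 0)
(.lf (.negSucc 749999999) 0))
(.sy (.negSucc 1780071874)
(.lf (.negSucc 629999999) 0)
(.lf (.negSucc 679999999) 0)))))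
(.sx (.negSucc 7324999999)
(.sy (.negSucc 10418749)
(.sx (.negSucc 7712499999)
(.sy (.negSucc 600303124)
(.lf (.negSucc 969999999) 0)
(.lf (.negSucc 1009999999) 0))
(.sy (.negSucc 600303124)
(.lf (.negSucc 879999999) 0)
(.lf (.negSucc 909999999) 0)))
(.sx (.negSucc 7712499999)
(.sx (.negSucc 7906249999)
(.lf (.negSucc 1069999999) 0)
(.lf (.negSucc 1019999999) 0))
(.sx (.negSucc 7518749999)
(.lf (.negSucc 979999999) 0)
(.lf (.negSucc 929999999) 0))))
(.sy (.negSucc 10418749)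
(.sx (.negSucc 6937499999)
(.sy (.negSucc 600303124)
(.lf (.negSucc 789999999) 0)
(.lf (.negSucc 829999999) 0))
(.sy (.negSucc 600303124)
(.lf (.negSucc 709999999) 0)
(.lf (.negSucc 739999999) 0)))
(.sx (.negSucc 6937499999)
(.sx (.negSucc 7131249999)
(.lf (.negSucc 889999999) 0)
(.lf (.negSucc 839999999) 0))
(.lf (.negSucc 779999999) 1)))))
(.sy (.negSucc 1190187499)
(.sx (.negSucc 5774999999)
(.sy (.negSucc 2369956249)
(.sx (.negSucc 6162499999)
(.sy (.negSucc 2959840624)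
(.lf (.negSucc 449999999) 0)
(.lf (.negSucc 509999999) 0))
(.sy (.negSucc 2959840624)
(.lf (.negSucc 389999999) 0)
(.lf (.negSucc 439999999) 0)))
(.sx (.negSucc 6162499999)
(.sy (.negSucc 1780071874)
(.lf (.negSucc 559999999) 0)
(.lf (.negSucc 599999999) 0))
(.sy (.negSucc 1780071874)
(.lf (.negSucc 489999999) 0)
(.lf (.negSucc 529999999) 0))))
(.sy (.negSucc 2369956249)
(.sx (.negSucc 5387499999)
(.sy (.negSucc 2959840624)
(.lf (.negSucc 329999999) 0)
(.lf (.negSucc 379999999) 0))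
(.sy (.negSucc 2959840624)
(.lf (.negSucc 279999999) 0)
(.lf (.negSucc 319999999) 0)))
(.sx (.negSucc 5387499999)
(.sy (.negSucc 1780071874)
(.lf (.negSucc 419999999) 0)
(.lf (.negSucc 459999999) 0))
(.sy (.negSucc 1780071874)
(.lf (.negSucc 359999999) 0)
(.lf (.negSucc 389999999) 0)))))
(.sx (.negSucc 5774999999)
(.sy (.negSucc 10418749)
(.sx (.negSucc 6162499999)
(.sy (.negSucc 600303124)
(.lf (.negSucc 629999999) 0)
(.lf (.negSucc 659999999) 0))
(.sx (.negSucc 5968749999)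
(.lf (.negSucc 589999999) 0)
(.lf (.negSucc 549999999) 0)))
(.sx (.negSucc 6162499999)
(.lf (.negSucc 689999999) 0)
(.lf (.negSucc 609999999) 0)))
(.sy (.negSucc 10418749)
(.sx (.negSucc 5387499999)
(.sy (.negSucc 600303124)
(.lf (.negSucc 489999999) 0)
(.lf (.negSucc 509999999) 0))
(.sy (.negSucc 600303124)
(.lf (.negSucc 419999999) 0)
(.lf (.negSucc 439999999) 0)))
(.sx (.negSucc 5387499999)
(.lf (.negSucc 539999999) 0)
(.sx (.negSucc 5193749999)
(.lf (.negSucc 479999999) 0)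
(.lf (.negSucc 449999999) 0))))))))
(.sy (.ofNat 5888425000)
(.sx (.negSucc 6549999999)
(.sy (.ofNat 3528887500)
(.sx (.negSucc 7324999999)
(.sx (.negSucc 7712499999)
(.sy (.ofNat 2349118750)
(.sx (.negSucc 7906249999)
(.lf (.negSucc 1109999999) 0)
(.lf (.negSucc 1059999999) 0))
(.sx (.negSucc 7906249999)
(.lf (.negSucc 1129999999) 0)
(.lf (.negSucc 1079999999) 0)))
(.sy (.ofNat 2349118750)
(.sx (.negSucc 7518749999)
(.lf (.negSucc 1009999999) 0)
(.lf (.negSucc 969999999) 0))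
(.lf (.negSucc 1009999999) 0)))
(.sx (.negSucc 6937499999)
(.sy (.ofNat 2349118750)
(.lf (.negSucc 899999999) 0)
(.lf (.negSucc 909999999) 0))
(.sy (.ofNat 2349118750)
(.lf (.negSucc 809999999) 0)
(.lf (.negSucc 819999999) 0))))
(.sx (.negSucc 7324999999)
(.sx (.negSucc 7712499999)
(.sy (.ofNat 4708656250)
(.lf (.negSucc 1109999999) 0)
(.lf (.negSucc 1099999999) 0))
(.sy (.ofNat 4708656250)
(.lf (.negSucc 1009999999) 0)
(.lf (.negSucc 999999999) 0)))
(.sx (.negSucc 6937499999)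
(.sy (.ofNat 4708656250)
(.lf (.negSucc 909999999) 0)
(.lf (.negSucc 899999999) 0))
(.sy (.ofNat 4708656250)
(.lf (.negSucc 819999999) 0)
(.lf (.negSucc 809999999) 0)))))
(.sy (.ofNat 3528887500)
(.sx (.negSucc 5774999999)
(.sx (.negSucc 6162499999)
(.sy (.ofNat 2349118750)
(.lf (.negSucc 719999999) 0)
(.lf (.negSucc 729999999) 0))
(.sy (.ofNat 2349118750)
(.lf (.negSucc 639999999) 0)
(.lf (.negSucc 649999999) 0)))
(.sx (.negSucc 5387499999)
(.sy (.ofNat 2349118750)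
(.lf (.negSucc 559999999) 0)
(.lf (.negSucc 569999999) 0))
(.sy (.ofNat 2349118750)
(.lf (.negSucc 489999999) 0)
(.lf (.negSucc 489999999) 0))))
(.sx (.negSucc 5774999999)
(.sx (.negSucc 6162499999)
(.sy (.ofNat 4708656250)
(.lf (.negSucc 729999999) 0)
(.lf (.negSucc 719999999) 0))
(.sy (.ofNat 4708656250)
(.lf (.negSucc 649999999) 0)
(.lf (.negSucc 639999999) 0)))
(.sx (.negSucc 5387499999)
(.sy (.ofNat 4708656250)
(.lf (.negSucc 569999999) 0)
(.lf (.negSucc 549999999) 0))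
(.sy (.ofNat 4708656250)
(.lf (.negSucc 489999999) 0)
(.lf (.negSucc 479999999) 0))))))
(.sx (.negSucc 6549999999)
(.sy (.ofNat 8247962500)
(.sx (.negSucc 7324999999)
(.sy (.ofNat 7068193750)
(.sx (.negSucc 7712499999)
(.lf (.negSucc 1079999999) 0)
(.lf (.negSucc 979999999) 0))
(.sx (.negSucc 7712499999)
(.lf (.negSucc 1049999999) 0)
(.lf (.negSucc 949999999) 0)))
(.sy (.ofNat 7068193750)
(.sx (.negSucc 6937499999)
(.lf (.negSucc 879999999) 0)
(.lf (.negSucc 789999999) 0))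
(.sx (.negSucc 6937499999)
(.lf (.negSucc 859999999) 0)
(.lf (.negSucc 769999999) 0))))
(.sx (.negSucc 7324999999)
(.sy (.ofNat 9427731250)
(.lf (.negSucc 969999999) 0)
(.lf (.negSucc 929999999) 0))
(.sy (.ofNat 9427731250)
(.lf (.negSucc 779999999) 0)
(.lf (.negSucc 749999999) 0))))
(.sy (.ofNat 8247962500)
(.sx (.negSucc 5774999999)
(.sy (.ofNat 7068193750)
(.sx (.negSucc 6162499999)
(.lf (.negSucc 699999999) 0)
(.lf (.negSucc 619999999) 0))
(.lf (.negSucc 639999999) 0))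
(.sy (.ofNat 7068193750)
(.sx (.negSucc 5387499999)
(.lf (.negSucc 539999999) 0)
(.lf (.negSucc 459999999) 0))
(.lf (.negSucc 479999999) 0)))
(.sx (.negSucc 5774999999)
(.sy (.ofNat 9427731250)
(.lf (.negSucc 609999999) 0)
(.lf (.negSucc 589999999) 0))
(.sy (.ofNat 9427731250)
(.lf (.negSucc 449999999) 0)
(.lf (.negSucc 439999999) 0)))))))

theorem run_tr19_0N : Tr.run 0 2 T19.C T19.K0 R19 (.ofNat 5000000000) tr19_0N (.negSucc 8099999999) (.negSucc 4999999999) (.negSucc 8268799999) (.ofNat 10607500000)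
    (-100000000000) 100000000000 = true := by decide +kernel

end Pool.Agent.Helper30.DL
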