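import Pool.Agent.Helper30.DL.Run.C19

/-! MP_b4564f_an, all delays. Cell 19: kernel computations (generated). -/

set_option autoImplicit false
set_option maxRecDepth 100000

namespace Pool.Agent.Helper30.DL

/-- tree -/
def tr19_1A : Tr :=
(.sy (.ofNat 0)
(.sy (.negSucc 4999999999)
(.sy (.negSucc 7499999999)
(.lf (.negSucc 2779999999) 0)
(.sx (.ofNat 1000000000)
(.lf (.negSucc 5529999999) 0)
(.lf (.negSucc 2979999999) 0)))
(.sy (.negSucc 2499999999)
(.sx (.ofNat 1000000000)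
(.lf (.negSucc 7159999999) 0)
(.lf (.negSucc 3719999999) 0))
(.sx (.ofNat 1000000000)
(.lf (.negSucc 8799999999) 0)
(.lf (.negSucc 4499999999) 0))))
(.sy (.ofNat 5000000000)
(.sy (.ofNat 2500000000)
(.sx (.ofNat 1000000000)
(.lf (.negSucc 10459999999) 0)
(.lf (.negSucc 5329999999) 0))
(.sx (.ofNat 1000000000)
(.sx (.ofNat 500000000)
(.lf (.negSucc 21209999999) 0)
(.lf (.negSucc 9139999999) 0))
(.lf (.negSucc 6189999999) 0)))
(.sy (.ofNat 7500000000)
(.sx (.ofNat 1000000000)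
(.sx (.ofNat 500000000)
(.lf (.negSucc 24289999999) 0)
(.lf (.negSucc 10389999999) 0))
(.lf (.negSucc 7089999999) 0))
(.sx (.ofNat 1000000000)
(.sx (.ofNat 500000000)
(.lf (.negSucc 27389999999) 0)
(.lf (.negSucc 11669999999) 0))
(.lf (.negSucc 8029999999) 0)))))

theorem run_tr19_1A : Tr.run 1 0 (T19.C.mdA 1500) (T19.K1.shA (w2n 1500 402768290 17774)) R19 (.ofNat 2000000000) tr19_1A (.ofNat 0) (.ofNat 2000000000) (.negSucc 9999999999) (.ofNat 10000000000)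
    (-100000000000) 100000000000 = true := by decide +kernel

/-- tree -/
def tr19_1AA : Tr :=
(.sy (.ofNat 0)
(.sy (.negSucc 4999999999)
(.sy (.negSucc 7499999999)
(.lf (.negSucc 1159999999) 0)
(.lf (.negSucc 599999999) 1))
(.sy (.negSucc 2499999999)
(.lf (.negSucc 39999999) 0)
(.lf (.ofNat 540000000) 0)))
(.sy (.ofNat 5000000000)
(.sy (.ofNat 2500000000)
(.sx (.negSucc 999999999)
(.lf (.negSucc 129999999) 0)
(.lf (.ofNat 4940000000) 0))
(.sx (.negSucc 999999999)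
(.lf (.ofNat 260000000) 0)
(.lf (.ofNat 6200000000) 0)))
(.sx (.negSucc 999999999)
(.lf (.ofNat 890000000) 0)
(.sy (.ofNat 7500000000)
(.lf (.ofNat 7470000000) 0)
(.lf (.ofNat 8730000000) 0)))))

theorem run_tr19_1AA : Tr.run 1 0 (T19.C.mdA 1500) (T19.K1.shA (w2n 1500 402768290 17774)) R19 (.ofNat 2000000000) tr19_1AA (.negSucc 1999999999) (.ofNat 0) (.negSucc 9999999999) (.ofNat 10000000000)
    (-100000000000) 100000000000 = true := by decide +kernel

/-- tree -/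
def tr19_1B : Tr :=
(.sy (.ofNat 0)
(.sy (.negSucc 4999999999)
(.sx (.ofNat 5303750000)
(.sy (.negSucc 7499999999)
(.sx (.ofNat 2651875000)
(.sy (.negSucc 8749999999)
(.sx (.ofNat 1325937500)
(.lf (.negSucc 1099999999) 0)
(.lf (.negSucc 1649999999) 0))
(.sx (.ofNat 1325937500)
(.lf (.negSucc 1239999999) 0)
(.lf (.negSucc 1319999999) 0)))
(.sy (.negSucc 7541833608)
.ou
(.lf (.negSucc 1179999999) 0)))
(.sx (.ofNat 2651875000)
(.sx (.ofNat 1325937500)
(.lf (.negSucc 1619999999) 0)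
(.lf (.negSucc 999999999) 0))
(.sy (.negSucc 6249999999)
(.sx (.ofNat 3977812500)
(.lf (.negSucc 1029999999) 0)
.ou)
(.lf (.negSucc 739999999) 0))))
.ou)
(.sx (.ofNat 5303750000)
(.sx (.ofNat 2651875000)
(.sy (.negSucc 2499999999)
(.lf (.negSucc 1279999999) 0)
(.lf (.negSucc 1799999999) 0))
(.sy (.negSucc 2499999999)
(.sx (.ofNat 3977812500)
(.lf (.negSucc 589999999) 0)
(.lf (.negSucc 459999999) 0))
(.lf (.negSucc 569999999) 0)))
(.sy (.negSucc 3770916804)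
.ou
(.sx (.ofNat 7955625000)
(.sy (.negSucc 1885458402)
(.lf (.negSucc 309999999) 0)
(.lf (.negSucc 349999999) 0))
(.sy (.negSucc 2513944536)
.ou
(.sy (.negSucc 1256972268)
(.lf (.negSucc 229999999) 0)
(.lf (.negSucc 289999999) 0)))))))
(.sy (.ofNat 5000000000)
(.sx (.ofNat 5303750000)
(.sx (.ofNat 2651875000)
(.sy (.ofNat 2500000000)
(.lf (.negSucc 2699999999) 0)
(.sx (.ofNat 1325937500)
(.lf (.negSucc 7049999999) 0)
(.lf (.negSucc 3019999999) 0)))
(.sy (.ofNat 2500000000)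
(.sy (.ofNat 1250000000)
(.lf (.negSucc 919999999) 0)
(.lf (.negSucc 1319999999) 0))
(.sy (.ofNat 3750000000)
(.sx (.ofNat 3977812500)
(.lf (.negSucc 1999999999) 0)
(.lf (.negSucc 1759999999) 0))
(.sx (.ofNat 3977812500)
(.lf (.negSucc 2669999999) 0)
(.lf (.negSucc 2479999999) 1)))))
(.sy (.ofNat 3770916805)
(.sx (.ofNat 7955625000)
(.sy (.ofNat 1885458402)
(.lf (.negSucc 709999999) 1)
(.sy (.ofNat 2828187603)
(.lf (.negSucc 1219999999) 1)
(.sx (.ofNat 6629687500)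
(.lf (.negSucc 1739999999) 0)
(.sy (.ofNat 3016733444)
(.lf (.negSucc 1429999999) 0)
.ou))))
(.sy (.ofNat 2513944537)
(.sy (.ofNat 1256972268)
(.lf (.negSucc 489999999) 0)
(.sx (.ofNat 9281562500)
(.lf (.negSucc 879999999) 1)
(.sy (.ofNat 2154809603)
(.lf (.negSucc 709999999) 0)
.ou)))
.ou))
.ou))
(.sx (.ofNat 5303750000)
(.sx (.ofNat 2651875000)
(.sy (.ofNat 7500000000)
(.sx (.ofNat 1325937500)
(.sx (.ofNat 662968750)
(.lf (.negSucc 16799999999) 0)
(.lf (.negSucc 6859999999) 0))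
(.sy (.ofNat 6250000000)
(.lf (.negSucc 4149999999) 0)
(.lf (.negSucc 5049999999) 1)))
(.sx (.ofNat 1325937500)
(.sx (.ofNat 662968750)
(.sx (.ofNat 331484375)
(.lf (.ofNat 0) 0)
(.lf (.negSucc 14829999999) 0))
(.lf (.negSucc 9099999999) 0))
(.sy (.ofNat 8750000000)
(.sx (.ofNat 1988906250)
(.lf (.negSucc 6489999999) 0)
(.lf (.negSucc 5789999999) 0))
(.sx (.ofNat 1988906250)
(.lf (.negSucc 7599999999) 0)
(.lf (.negSucc 6919999999) 0)))))
(.sy (.ofNat 7541833609)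
(.sy (.ofNat 6270916804)
(.sx (.ofNat 3977812500)
(.lf (.negSucc 3489999999) 1)
(.sy (.ofNat 5027889073)
(.lf (.negSucc 2919999999) 0)
.ou))
(.sx (.ofNat 3977812500)
(.sy (.ofNat 6906375206)
(.lf (.negSucc 4199999999) 1)
(.sx (.ofNat 3314843750)
(.lf (.negSucc 4779999999) 0)
.ou))
.ou))
.ou))
.ou)))

theorem run_tr19_1B : Tr.run 1 1 (T19.C.mdA 1500) (T19.K1.shA (w2n 1500 402768290 17774)) R19 (.ofNat 2000000000) tr19_1B (.ofNat 0) (.ofNat 10607500000) (.negSucc 9999999999) (.ofNat 10000000000)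
    (-100000000000) 100000000000 = true := by decide +kernel

/-- tree -/
def tr19_1BB : Tr :=
(.sy (.ofNat 0)
(.sy (.negSucc 4999999999)
(.sx (.negSucc 4134399999)
.ou
(.sy (.negSucc 7499999999)
(.sx (.negSucc 2067199999)
(.sy (.negSucc 9674922600)
.ou
(.sy (.negSucc 8587461300)
(.lf (.negSucc 869999999) 1)
(.lf (.negSucc 639999999) 0)))
(.sy (.negSucc 8749999999)
(.lf (.negSucc 1869999999) 0)
(.lf (.negSucc 1039999999) 0)))
(.sx (.negSucc 2067199999)
(.lf (.negSucc 229999999) 0)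
(.lf (.ofNat 80000000) 0))))
(.sx (.negSucc 4134399999)
(.sy (.negSucc 4837461300)
.ou
(.sy (.negSucc 2418730650)
(.sx (.negSucc 6201599999)
(.sy (.negSucc 3224974200)
.ou
(.lf (.negSucc 49999999) 0))
(.lf (.ofNat 60000000) 0))
(.sx (.negSucc 6201599999)
(.lf (.ofNat 140000000) 0)
(.lf (.ofNat 350000000) 0))))
(.sy (.negSucc 2499999999)
(.sx (.negSucc 2067199999)
(.lf (.ofNat 300000000) 0)
(.lf (.ofNat 1330000000) 0))
(.lf (.ofNat 1120000000) 0))))
(.sy (.ofNat 5000000000)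
(.sx (.negSucc 4134399999)
(.sy (.ofNat 4837461301)
(.sy (.ofNat 2418730650)
(.sx (.negSucc 6201599999)
(.lf (.ofNat 430000000) 0)
(.lf (.ofNat 550000000) 0))
(.sx (.negSucc 6201599999)
(.sy (.ofNat 3224974201)
(.lf (.ofNat 540000000) 0)
.ou)
(.sy (.ofNat 3628095975)
(.lf (.ofNat 590000000) 0)
(.lf (.ofNat 540000000) 0))))
.ou)
(.sx (.negSucc 2067199999)
(.sy (.ofNat 2500000000)
(.lf (.ofNat 930000000) 0)
(.lf (.ofNat 900000000) 0))
(.sy (.ofNat 2500000000)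
(.lf (.ofNat 2990000000) 0)
(.sx (.negSucc 1033599999)
(.lf (.ofNat 2090000000) 0)
(.lf (.ofNat 7340000000) 0)))))
(.sx (.negSucc 4134399999)
.ou
(.sx (.negSucc 2067199999)
(.sy (.ofNat 9674922601)
(.sy (.ofNat 7337461300)
(.sx (.negSucc 3100799999)
(.sy (.ofNat 6449948401)
(.lf (.ofNat 560000000) 0)
.ou)
(.lf (.ofNat 870000000) 0))
(.sx (.negSucc 3100799999)
.ou
(.lf (.ofNat 390000000) 0)))
.ou)
(.sx (.negSucc 1033599999)
(.sy (.ofNat 7500000000)
(.lf (.ofNat 1960000000) 0)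
(.lf (.ofNat 1530000000) 0))
(.sx (.negSucc 516799999)
(.lf (.ofNat 5100000000) 0)
(.sy (.ofNat 7500000000)
(.lf (.ofNat 17890000000) 0)
(.lf (.ofNat 20110000000) 0))))))))

theorem run_tr19_1BB : Tr.run 1 1 (T19.C.mdA 1500) (T19.K1.shA (w2n 1500 402768290 17774)) R19 (.ofNat 2000000000) tr19_1BB (.negSucc 8268799999) (.ofNat 0) (.negSucc 9999999999) (.ofNat 10000000000)
    (-100000000000) 100000000000 = true := by decide +kernel

/-- tree -/
def tr19_1P : Tr :=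
(.sy (.ofNat 1169350000)
(.sy (.negSucc 3549724999)
(.sx (.ofNat 3750000000)
(.sy (.negSucc 5909262499)
(.sx (.ofNat 2875000000)
(.lf (.negSucc 49999999) 0)
(.lf (.negSucc 89999999) 0))
(.sx (.ofNat 2875000000)
(.lf (.negSucc 19999999) 0)
(.lf (.negSucc 59999999) 0)))
(.sy (.negSucc 5909262499)
(.sx (.ofNat 4625000000)
(.lf (.negSucc 79999999) 0)
(.lf (.negSucc 29999999) 0))
(.sx (.ofNat 4625000000)
(.lf (.negSucc 59999999) 0)
(.lf (.negSucc 19999999) 0))))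
(.sx (.ofNat 3750000000)
(.sy (.negSucc 1190187499)
(.sx (.ofNat 2875000000)
(.sy (.negSucc 2369956249)
(.lf (.negSucc 59999999) 0)
(.sx (.ofNat 2437500000)
(.lf (.negSucc 99999999) 0)
(.lf (.negSucc 139999999) 0)))
(.sy (.negSucc 2369956249)
(.lf (.negSucc 119999999) 0)
(.lf (.negSucc 199999999) 0)))
(.sx (.ofNat 2875000000)
(.sy (.negSucc 10418749)
(.sx (.ofNat 2437500000)
(.lf (.negSucc 159999999) 0)
(.lf (.negSucc 219999999) 0))
(.sx (.ofNat 2437500000)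
(.lf (.negSucc 239999999) 0)
(.lf (.negSucc 309999999) 0)))
(.sy (.negSucc 10418749)
(.sx (.ofNat 3312500000)
(.lf (.negSucc 269999999) 0)
(.lf (.negSucc 329999999) 0))
(.sx (.ofNat 3312500000)
(.lf (.negSucc 389999999) 0)
(.lf (.negSucc 469999999) 0)))))
(.sy (.negSucc 1190187499)
(.sx (.ofNat 4625000000)
(.sy (.negSucc 2369956249)
(.lf (.negSucc 149999999) 0)
(.lf (.negSucc 259999999) 0))
(.lf (.negSucc 199999999) 1))
(.sx (.ofNat 4625000000)
(.sy (.negSucc 10418749)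
(.lf (.negSucc 399999999) 0)
(.sx (.ofNat 4187500000)
(.lf (.negSucc 549999999) 0)
(.lf (.negSucc 619999999) 0)))
(.sy (.negSucc 10418749)
(.lf (.negSucc 459999999) 0)
(.lf (.negSucc 709999999) 1))))))
(.sy (.ofNat 5888425000)
(.sx (.ofNat 3750000000)
(.sy (.ofNat 3528887500)
(.sx (.ofNat 2875000000)
(.sy (.ofNat 2349118750)
(.sx (.ofNat 2437500000)
(.lf (.negSucc 329999999) 0)
(.lf (.negSucc 429999999) 0))
(.sx (.ofNat 2437500000)
(.lf (.negSucc 439999999) 0)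
(.lf (.negSucc 549999999) 0)))
(.sy (.ofNat 2349118750)
(.sx (.ofNat 3312500000)
(.lf (.negSucc 529999999) 0)
(.lf (.negSucc 639999999) 0))
(.sx (.ofNat 3312500000)
(.lf (.negSucc 689999999) 0)
(.lf (.negSucc 829999999) 0))))
(.sx (.ofNat 2875000000)
(.sy (.ofNat 4708656250)
(.sx (.ofNat 2437500000)
(.lf (.negSucc 549999999) 0)
(.lf (.negSucc 689999999) 0))
(.lf (.negSucc 729999999) 1))
(.sy (.ofNat 4708656250)
(.sx (.ofNat 3312500000)
(.lf (.negSucc 849999999) 0)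
(.lf (.negSucc 1019999999) 1))
(.sx (.ofNat 3312500000)
(.lf (.negSucc 999999999) 0)
(.lf (.negSucc 1199999999) 0)))))
(.sy (.ofNat 3528887500)
(.sx (.ofNat 4625000000)
(.sy (.ofNat 2349118750)
(.sx (.ofNat 4187500000)
(.lf (.negSucc 749999999) 0)
(.lf (.negSucc 859999999) 0))
(.sx (.ofNat 4187500000)
(.lf (.negSucc 979999999) 1)
(.lf (.negSucc 1129999999) 1)))
(.sy (.ofNat 2349118750)
(.sx (.ofNat 5062500000)
(.lf (.negSucc 959999999) 0)
(.lf (.negSucc 1039999999) 0))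
(.sx (.ofNat 5062500000)
(.lf (.negSucc 1279999999) 1)
(.lf (.negSucc 1389999999) 1))))
(.sx (.ofNat 4625000000)
(.sy (.ofNat 4708656250)
(.sx (.ofNat 4187500000)
(.lf (.negSucc 1209999999) 1)
(.lf (.negSucc 1399999999) 1))
(.sx (.ofNat 4187500000)
(.lf (.negSucc 1399999999) 1)
(.lf (.negSucc 1599999999) 1)))
(.sy (.ofNat 4708656250)
(.sx (.ofNat 5062500000)
(.lf (.negSucc 1579999999) 1)
(.lf (.negSucc 1699999999) 1))
(.sx (.ofNat 5062500000)
(.lf (.negSucc 1749999999) 1)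
(.lf (.negSucc 1829999999) 1))))))
(.sx (.ofNat 3750000000)
(.sy (.ofNat 8247962500)
(.sx (.ofNat 2875000000)
(.lf (.negSucc 859999999) 1)
(.sy (.ofNat 7068193750)
(.lf (.negSucc 1199999999) 1)
(.lf (.negSucc 1219999999) 1)))
(.sy (.ofNat 9427731250)
(.sx (.ofNat 2875000000)
(.lf (.negSucc 909999999) 0)
(.lf (.negSucc 1139999999) 0))
(.lf (.negSucc 949999999) 1)))
(.sy (.ofNat 8247962500)
(.sy (.ofNat 7068193750)
(.sx (.ofNat 4625000000)
(.sx (.ofNat 4187500000)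
(.lf (.negSucc 1479999999) 1)
(.lf (.negSucc 1629999999) 1))
(.sy (.ofNat 6478309375)
(.lf (.negSucc 1749999999) 1)
(.lf (.negSucc 1649999999) 1)))
(.sx (.ofNat 4625000000)
(.lf (.negSucc 1449999999) 1)
(.lf (.negSucc 1419999999) 1)))
(.sy (.ofNat 9427731250)
(.sx (.ofNat 4625000000)
(.lf (.negSucc 1219999999) 0)
(.lf (.negSucc 1029999999) 0))
(.sx (.ofNat 4625000000)
(.lf (.negSucc 909999999) 0)
(.lf (.negSucc 619999999) 0)))))))

theorem run_tr19_1P : Tr.run 1 2 (T19.C.mdA 1500) (T19.K1.shA (w2n 1500 402768290 17774)) R19 (.ofNat 2000000000) tr19_1P (.ofNat 2000000000) (.ofNat 5500000000) (.negSucc 8268799999) (.ofNat 10607500000)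
    (-100000000000) 100000000000 = true := by decide +kernel

/-- tree -/
def tr19_1N : Tr :=
(.sy (.ofNat 1169350000)
(.sx (.negSucc 5049999999)
(.sy (.negSucc 3549724999)
(.sy (.negSucc 5909262499)
(.sx (.negSucc 6574999999)
(.sy (.negSucc 7089031249)
(.lf (.ofNat 80000000) 0)
(.lf (.negSucc 229999999) 0))
(.sy (.negSucc 7089031249)
(.lf (.ofNat 240000000) 0)
(.lf (.negSucc 9999999) 0)))
(.sx (.negSucc 6574999999)
(.sy (.negSucc 4729493749)
(.lf (.negSucc 459999999) 0)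
(.lf (.negSucc 629999999) 0))
(.sy (.negSucc 4729493749)
(.lf (.negSucc 189999999) 0)
(.lf (.negSucc 329999999) 1))))
(.sx (.negSucc 6574999999)
(.sy (.negSucc 1190187499)
(.sx (.negSucc 7337499999)
(.sy (.negSucc 2369956249)
(.lf (.negSucc 849999999) 0)
(.lf (.negSucc 949999999) 0))
(.sy (.negSucc 2369956249)
(.lf (.negSucc 669999999) 0)
(.lf (.negSucc 759999999) 0)))
(.sx (.negSucc 7337499999)
(.sy (.negSucc 10418749)
(.lf (.negSucc 1019999999) 0)
(.sx (.negSucc 7718749999)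
(.lf (.negSucc 1119999999) 0)
(.lf (.negSucc 1019999999) 0)))
(.sy (.negSucc 10418749)
(.lf (.negSucc 829999999) 0)
(.sx (.negSucc 6956249999)
(.lf (.negSucc 929999999) 0)
(.lf (.negSucc 829999999) 0)))))
(.sy (.negSucc 1190187499)
(.sx (.negSucc 5812499999)
(.sy (.negSucc 2369956249)
(.lf (.negSucc 509999999) 0)
(.lf (.negSucc 599999999) 0))
(.sy (.negSucc 2369956249)
(.lf (.negSucc 369999999) 0)
(.lf (.negSucc 439999999) 0)))
(.sx (.negSucc 5812499999)
(.sy (.negSucc 10418749)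
(.lf (.negSucc 659999999) 0)
(.sx (.negSucc 6193749999)
(.lf (.negSucc 739999999) 0)
(.lf (.negSucc 659999999) 0)))
(.sy (.negSucc 10418749)
(.lf (.negSucc 499999999) 0)
(.sx (.negSucc 5431249999)
(.lf (.negSucc 579999999) 0)
(.lf (.negSucc 499999999) 0)))))))
(.sy (.negSucc 3549724999)
(.sy (.negSucc 5909262499)
(.sx (.negSucc 3524999999)
(.sy (.negSucc 7089031249)
(.lf (.ofNat 340000000) 0)
(.lf (.ofNat 150000000) 0))
(.sy (.negSucc 7089031249)
(.lf (.ofNat 350000000) 0)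
(.lf (.ofNat 230000000) 0)))
(.sx (.negSucc 3524999999)
(.sy (.negSucc 4729493749)
(.lf (.ofNat 10000000) 0)
(.sx (.negSucc 4287499999)
(.lf (.negSucc 149999999) 0)
(.lf (.negSucc 49999999) 0)))
(.sy (.negSucc 4729493749)
(.lf (.ofNat 130000000) 0)
(.sx (.negSucc 2762499999)
(.lf (.ofNat 30000000) 0)
(.lf (.ofNat 80000000) 0)))))
(.sx (.negSucc 3524999999)
(.sy (.negSucc 1190187499)
(.sx (.negSucc 4287499999)
(.sy (.negSucc 2369956249)
(.lf (.negSucc 239999999) 0)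
(.lf (.negSucc 299999999) 0))
(.sy (.negSucc 2369956249)
(.lf (.negSucc 129999999) 0)
(.lf (.negSucc 189999999) 0)))
(.sx (.negSucc 4287499999)
(.sy (.negSucc 10418749)
(.lf (.negSucc 349999999) 0)
(.sx (.negSucc 4668749999)
(.lf (.negSucc 419999999) 0)
(.lf (.negSucc 359999999) 0)))
(.sy (.negSucc 10418749)
(.sx (.negSucc 3906249999)
(.lf (.negSucc 259999999) 0)
(.lf (.negSucc 199999999) 0))
(.sx (.negSucc 3906249999)
(.lf (.negSucc 289999999) 0)
(.lf (.negSucc 229999999) 0)))))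
(.sy (.negSucc 1190187499)
(.sx (.negSucc 2762499999)
(.sy (.negSucc 2369956249)
(.lf (.negSucc 39999999) 0)
(.lf (.negSucc 89999999) 0))
(.sy (.negSucc 2369956249)
(.lf (.ofNat 30000000) 0)
(.sx (.negSucc 2381249999)
(.lf (.negSucc 29999999) 0)
(.lf (.ofNat 0) 0))))
(.sx (.negSucc 2762499999)
(.sy (.negSucc 10418749)
(.sx (.negSucc 3143749999)
(.lf (.negSucc 149999999) 0)
(.lf (.negSucc 109999999) 0))
(.sx (.negSucc 3143749999)
(.lf (.negSucc 179999999) 0)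
(.lf (.negSucc 129999999) 0)))
(.sy (.negSucc 10418749)
(.sx (.negSucc 2381249999)
(.lf (.negSucc 69999999) 0)
(.lf (.negSucc 29999999) 0))
(.sx (.negSucc 2381249999)
(.lf (.negSucc 99999999) 0)
(.lf (.negSucc 59999999) 0))))))))
(.sx (.negSucc 5049999999)
(.sy (.ofNat 5888425000)
(.sx (.negSucc 6574999999)
(.sy (.ofNat 3528887500)
(.sx (.negSucc 7337499999)
(.sx (.negSucc 7718749999)
(.sy (.ofNat 2349118750)
(.sx (.negSucc 7909374999)
(.lf (.negSucc 1179999999) 0)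
(.lf (.negSucc 1129999999) 0))
(.sx (.negSucc 7909374999)
(.lf (.negSucc 1199999999) 0)
(.lf (.negSucc 1149999999) 0)))
(.sy (.ofNat 2349118750)
(.lf (.negSucc 1049999999) 0)
(.lf (.negSucc 1069999999) 0)))
(.sx (.negSucc 6956249999)
(.sy (.ofNat 2349118750)
(.lf (.negSucc 959999999) 0)
(.lf (.negSucc 979999999) 0))
(.sy (.ofNat 2349118750)
(.lf (.negSucc 859999999) 0)
(.lf (.negSucc 879999999) 0))))
(.sx (.negSucc 7337499999)
(.sx (.negSucc 7718749999)
(.sy (.ofNat 4708656250)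
(.sx (.negSucc 7909374999)
(.lf (.negSucc 1199999999) 0)
(.lf (.negSucc 1149999999) 0))
(.lf (.negSucc 1169999999) 0))
(.sy (.ofNat 4708656250)
(.lf (.negSucc 1079999999) 0)
(.lf (.negSucc 1069999999) 0)))
(.sx (.negSucc 6956249999)
(.sy (.ofNat 4708656250)
(.lf (.negSucc 979999999) 0)
(.lf (.negSucc 979999999) 0))
(.sy (.ofNat 4708656250)
(.lf (.negSucc 889999999) 0)
(.lf (.negSucc 889999999) 0)))))
(.sy (.ofNat 3528887500)
(.sx (.negSucc 5812499999)
(.sx (.negSucc 6193749999)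
(.sy (.ofNat 2349118750)
(.lf (.negSucc 769999999) 0)
(.lf (.negSucc 789999999) 0))
(.sy (.ofNat 2349118750)
(.lf (.negSucc 689999999) 0)
(.lf (.negSucc 699999999) 0)))
(.sx (.negSucc 5431249999)
(.sy (.ofNat 2349118750)
(.lf (.negSucc 599999999) 0)
(.lf (.negSucc 619999999) 0))
(.sy (.ofNat 2349118750)
(.lf (.negSucc 519999999) 0)
(.lf (.negSucc 539999999) 0))))
(.sx (.negSucc 5812499999)
(.sy (.ofNat 4708656250)
(.lf (.negSucc 749999999) 0)
(.lf (.negSucc 749999999) 0))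
(.sy (.ofNat 4708656250)
(.lf (.negSucc 589999999) 0)
(.lf (.negSucc 589999999) 0)))))
(.sx (.negSucc 6574999999)
(.sy (.ofNat 8247962500)
(.sx (.negSucc 7337499999)
(.sy (.ofNat 7068193750)
(.sx (.negSucc 7718749999)
(.lf (.negSucc 1159999999) 0)
(.lf (.negSucc 1059999999) 0))
(.lf (.negSucc 1089999999) 0))
(.sy (.ofNat 7068193750)
(.lf (.negSucc 919999999) 0)
(.lf (.negSucc 909999999) 0)))
(.sx (.negSucc 7337499999)
(.lf (.negSucc 1059999999) 0)
(.lf (.negSucc 879999999) 0)))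
(.sy (.ofNat 8247962500)
(.sx (.negSucc 5812499999)
(.lf (.negSucc 739999999) 0)
(.lf (.negSucc 579999999) 0))
(.lf (.negSucc 639999999) 0))))
(.sy (.ofNat 5888425000)
(.sx (.negSucc 3524999999)
(.sy (.ofNat 3528887500)
(.sx (.negSucc 4287499999)
(.sy (.ofNat 2349118750)
(.sx (.negSucc 4668749999)
(.lf (.negSucc 449999999) 0)
(.lf (.negSucc 379999999) 0))
(.lf (.negSucc 429999999) 0))
(.sy (.ofNat 2349118750)
(.sx (.negSucc 3906249999)
(.lf (.negSucc 319999999) 0)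
(.lf (.negSucc 259999999) 0))
(.lf (.negSucc 299999999) 0)))
(.sx (.negSucc 4287499999)
(.sy (.ofNat 4708656250)
(.lf (.negSucc 439999999) 0)
(.lf (.negSucc 439999999) 0))
(.sy (.ofNat 4708656250)
(.lf (.negSucc 309999999) 0)
(.lf (.negSucc 309999999) 0))))
(.sy (.ofNat 3528887500)
(.sx (.negSucc 2762499999)
(.sy (.ofNat 2349118750)
(.sx (.negSucc 3143749999)
(.lf (.negSucc 199999999) 0)
(.lf (.negSucc 159999999) 0))
(.lf (.negSucc 189999999) 0))
(.sy (.ofNat 2349118750)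
(.sx (.negSucc 2381249999)
(.lf (.negSucc 119999999) 0)
(.lf (.negSucc 79999999) 0))
(.lf (.negSucc 119999999) 0)))
(.sx (.negSucc 2762499999)
(.lf (.negSucc 209999999) 0)
(.lf (.negSucc 139999999) 0))))
(.sx (.negSucc 3524999999)
(.sy (.ofNat 8247962500)
(.sx (.negSucc 4287499999)
(.lf (.negSucc 439999999) 0)
(.lf (.negSucc 319999999) 0))
(.lf (.negSucc 389999999) 0))
(.sy (.ofNat 8247962500)
(.lf (.negSucc 189999999) 0)
(.lf (.negSucc 229999999) 0))))))

theorem run_tr19_1N : Tr.run 1 2 (T19.C.mdA 1500) (T19.K1.shA (w2n 1500 402768290 17774)) R19 (.ofNat 2000000000) tr19_1N (.negSucc 8099999999) (.negSucc 1999999999) (.negSucc 8268799999) (.ofNat 10607500000)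
    (-100000000000) 100000000000 = true := by decide +kernel

/-- tree -/
def br19 : Tr :=
(.sy (.ofNat 1169350000)
(.lf (.ofNat 0) 0)
(.lf (.ofNat 0) 0))

theorem run_br19 : Tr.runB T19.C T19.K0 (D19.bt * 1500 / 10000 + 1) R19.om br19 (-D19.m) D19.M D19.ylo D19.yhi
    (-R19.bl) R19.bh = true := by decide +kernel

end Pool.Agent.Helper30.DL
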