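import Pool.Agent.Helper30.DL.Run.C19
import Pool.Agent.Helper30.DL.Seg

/-! MP_b4564f_an, all delays. Cell 19: kernel computations (generated). -/

set_option autoImplicit false
set_option maxRecDepth 100000

namespace Pool.Agent.Helper30.DL

theorem seg19_0 : tblSeg P19 (AF.cst (1500 * 1000000) 0 0) (AF.cst ((10000 - 1500) * 1000000) 0 0) 257507593 402768290 64 T19 0 8 = true := by
  decide +kernel

theorem seg19_1 : tblSeg P19 (AF.cst (1500 * 1000000) 0 0) (AF.cst ((10000 - 1500) * 1000000) 0 0) 257507593 402768290 64 T19 8 8 = true := by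
  decide +kernel

theorem seg19_2 : tblSeg P19 (AF.cst (1500 * 1000000) 0 0) (AF.cst ((10000 - 1500) * 1000000) 0 0) 257507593 402768290 64 T19 16 8 = true := by
  decide +kernel

theorem seg19_3 : tblSeg P19 (AF.cst (1500 * 1000000) 0 0) (AF.cst ((10000 - 1500) * 1000000) 0 0) 257507593 402768290 64 T19 24 8 = true := by
  decide +kernel

theorem seg19_4 : tblSeg P19 (AF.cst (1500 * 1000000) 0 0) (AF.cst ((10000 - 1500) * 1000000) 0 0) 257507593 402768290 64 T19 32 8 = true := by
  decide +kernel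

theorem seg19_5 : tblSeg P19 (AF.cst (1500 * 1000000) 0 0) (AF.cst ((10000 - 1500) * 1000000) 0 0) 257507593 402768290 64 T19 40 8 = true := by
  decide +kernel

theorem seg19_6 : tblSeg P19 (AF.cst (1500 * 1000000) 0 0) (AF.cst ((10000 - 1500) * 1000000) 0 0) 257507593 402768290 64 T19 48 8 = true := by
  decide +kernel

theorem seg19_7 : tblSeg P19 (AF.cst (1500 * 1000000) 0 0) (AF.cst ((10000 - 1500) * 1000000) 0 0) 257507593 402768290 64 T19 56 8 = true := by
  decide +kernel

theorem tbl19 : tblOK P19 (AF.cst (1500 * 1000000) 0 0) (AF.cst ((10000 - 1500) * 1000000) 0 0) 257507593 402768290 64 T19 64 = true := by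
  have h0 : tblOK P19 (AF.cst (1500 * 1000000) 0 0) (AF.cst ((10000 - 1500) * 1000000) 0 0) 257507593 402768290 64 T19 0 = true := rfl
  have h1 := tblOK_seg 0 h0 8 seg19_0
  have h2 := tblOK_seg 8 h1 8 seg19_1
  have h3 := tblOK_seg 16 h2 8 seg19_2
  have h4 := tblOK_seg 24 h3 8 seg19_3
  have h5 := tblOK_seg 32 h4 8 seg19_4
  have h6 := tblOK_seg 40 h5 8 seg19_5
  have h7 := tblOK_seg 48 h6 8 seg19_6
  have h8 := tblOK_seg 56 h7 8 seg19_7
  exact h8

theorem sc19 : scC T19 1500 R19 D19 = true := by decide +kernel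

end Pool.Agent.Helper30.DL
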