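import Pool.Agent.Helper30.DL.Run.C31

/-! MP_b4564f_an, all delays. Cell 31: kernel computations (generated). -/

set_option autoImplicit false
set_option maxRecDepth 100000

namespace Pool.Agent.Helper30.DL

/-- tree -/
def tr31_0A : Tr :=
(.sy (.ofNat 0)
(.sy (.negSucc 4999999999)
(.sx (.ofNat 2500000000)
(.sx (.ofNat 1250000000)
(.sy (.negSucc 7499999999)
(.lf (.negSucc 1269999999) 0)
(.lf (.negSucc 1269999999) 0))
(.sy (.negSucc 7499999999)
(.lf (.negSucc 839999999) 0)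
(.lf (.negSucc 829999999) 0)))
(.sx (.ofNat 3750000000)
(.sy (.negSucc 7499999999)
(.lf (.negSucc 339999999) 0)
(.lf (.negSucc 289999999) 0))
(.sy (.negSucc 7499999999)
(.sx (.ofNat 4375000000)
(.lf (.ofNat 20000000) 0)
(.sy (.negSucc 8749999999)
(.lf (.ofNat 160000000) 0)
(.lf (.ofNat 270000000) 0)))
(.sx (.ofNat 4375000000)
(.lf (.ofNat 110000000) 0)
(.sx (.ofNat 4687500000)
(.lf (.ofNat 300000000) 0)
(.sy (.negSucc 6249999999)
(.lf (.ofNat 400000000) 0)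
(.lf (.ofNat 440000000) 0)))))))
(.sx (.ofNat 2500000000)
(.sy (.negSucc 2499999999)
(.lf (.negSucc 1079999999) 0)
(.lf (.negSucc 1119999999) 0))
(.sx (.ofNat 3750000000)
(.sy (.negSucc 2499999999)
(.lf (.negSucc 329999999) 0)
(.lf (.negSucc 429999999) 0))
(.sy (.negSucc 2499999999)
(.sx (.ofNat 4375000000)
(.lf (.ofNat 90000000) 0)
(.sx (.ofNat 4687500000)
(.lf (.ofNat 300000000) 0)
(.sy (.negSucc 3749999999)
(.lf (.ofNat 440000000) 0)
(.lf (.ofNat 410000000) 0))))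
(.sx (.ofNat 4375000000)
(.lf (.negSucc 19999999) 0)
(.sx (.ofNat 4687500000)
(.lf (.ofNat 190000000) 0)
(.sy (.negSucc 1249999999)
(.lf (.ofNat 360000000) 0)
(.lf (.ofNat 290000000) 0))))))))
(.sy (.ofNat 5000000000)
(.sx (.ofNat 2500000000)
(.sy (.ofNat 2500000000)
(.lf (.negSucc 1189999999) 0)
(.lf (.negSucc 1269999999) 1))
(.sx (.ofNat 3750000000)
(.sy (.ofNat 2500000000)
(.lf (.negSucc 589999999) 0)
(.lf (.negSucc 789999999) 0))
(.sy (.ofNat 2500000000)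
(.sx (.ofNat 4375000000)
(.lf (.negSucc 209999999) 0)
(.sx (.ofNat 4687500000)
(.lf (.ofNat 0) 0)
(.lf (.ofNat 140000000) 0)))
(.sx (.ofNat 4375000000)
(.lf (.negSucc 419999999) 0)
(.sy (.ofNat 3750000000)
(.lf (.negSucc 79999999) 0)
(.lf (.negSucc 179999999) 0))))))
(.sx (.ofNat 2500000000)
(.sy (.ofNat 7500000000)
(.sx (.ofNat 1250000000)
(.lf (.negSucc 1419999999) 0)
(.lf (.negSucc 1289999999) 0))
(.sy (.ofNat 8750000000)
(.sx (.ofNat 1250000000)
(.lf (.negSucc 1459999999) 0)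
(.lf (.negSucc 1419999999) 0))
(.sx (.ofNat 1250000000)
(.lf (.negSucc 1489999999) 0)
(.lf (.negSucc 1499999999) 0))))
(.sy (.ofNat 7500000000)
(.sx (.ofNat 3750000000)
(.lf (.negSucc 999999999) 0)
(.sy (.ofNat 6250000000)
(.lf (.negSucc 429999999) 0)
(.lf (.negSucc 499999999) 0)))
(.sx (.ofNat 3750000000)
(.sy (.ofNat 8750000000)
(.lf (.negSucc 1159999999) 0)
(.lf (.negSucc 1259999999) 0))
(.sy (.ofNat 8750000000)
(.lf (.negSucc 549999999) 0)
(.lf (.negSucc 559999999) 0)))))))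

theorem run_tr31_0A : Tr.run 0 0 T31.C T31.K0 R31 (.ofNat 5000000000) tr31_0A (.ofNat 0) (.ofNat 5000000000) (.negSucc 9999999999) (.ofNat 10000000000)
    (-100000000000) 100000000000 = true := by decide +kernel

/-- tree -/
def tr31_0AA : Tr :=
(.sy (.ofNat 0)
(.sy (.negSucc 4999999999)
(.sx (.negSucc 2499999999)
(.sy (.negSucc 7499999999)
(.sx (.negSucc 3749999999)
(.lf (.negSucc 1939999999) 0)
(.lf (.negSucc 1899999999) 0))
(.sx (.negSucc 3749999999)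
(.lf (.negSucc 1959999999) 0)
(.lf (.negSucc 1909999999) 0)))
(.sy (.negSucc 7499999999)
(.lf (.negSucc 1699999999) 0)
(.lf (.negSucc 1709999999) 0)))
(.sx (.negSucc 2499999999)
(.sy (.negSucc 2499999999)
(.sx (.negSucc 3749999999)
(.lf (.negSucc 1949999999) 0)
(.lf (.negSucc 1889999999) 0))
(.sx (.negSucc 3749999999)
(.lf (.negSucc 1879999999) 0)
(.lf (.negSucc 1829999999) 0)))
(.sy (.negSucc 2499999999)
(.lf (.negSucc 1689999999) 0)
(.lf (.negSucc 1659999999) 0))))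
(.sy (.ofNat 5000000000)
(.sx (.negSucc 2499999999)
(.sy (.ofNat 2500000000)
(.sx (.negSucc 3749999999)
(.lf (.negSucc 1749999999) 0)
(.lf (.negSucc 1719999999) 0))
(.sy (.ofNat 3750000000)
(.lf (.negSucc 1609999999) 0)
(.lf (.negSucc 1499999999) 0)))
(.sy (.ofNat 2500000000)
(.lf (.negSucc 1609999999) 0)
(.sx (.negSucc 1249999999)
(.lf (.negSucc 1549999999) 0)
(.lf (.negSucc 1499999999) 0))))
(.sy (.ofNat 7500000000)
(.sx (.negSucc 2499999999)
(.sy (.ofNat 6250000000)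
(.lf (.negSucc 1369999999) 0)
(.sx (.negSucc 3749999999)
(.lf (.negSucc 1149999999) 0)
(.lf (.negSucc 1269999999) 0)))
(.sy (.ofNat 6250000000)
(.lf (.negSucc 1459999999) 0)
(.lf (.negSucc 1409999999) 0)))
(.sx (.negSucc 2499999999)
(.sy (.ofNat 8750000000)
(.sx (.negSucc 3749999999)
(.lf (.negSucc 949999999) 0)
(.lf (.negSucc 1129999999) 0))
(.sx (.negSucc 3749999999)
(.lf (.negSucc 709999999) 0)
(.lf (.negSucc 959999999) 0)))
(.sx (.negSucc 1249999999)
(.sy (.ofNat 8750000000)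
(.lf (.negSucc 1279999999) 0)
(.lf (.negSucc 1189999999) 0))
(.sy (.ofNat 8750000000)
(.lf (.negSucc 1399999999) 0)
(.lf (.negSucc 1369999999) 0)))))))

theorem run_tr31_0AA : Tr.run 0 0 T31.C T31.K0 R31 (.ofNat 5000000000) tr31_0AA (.negSucc 4999999999) (.ofNat 0) (.negSucc 9999999999) (.ofNat 10000000000)
    (-100000000000) 100000000000 = true := by decide +kernel

/-- tree -/
def tr31_0B : Tr :=
(.sy (.ofNat 0)
(.sy (.negSucc 4999999999)
(.sy (.negSucc 7499999999)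
(.sx (.ofNat 5114150000)
(.sy (.negSucc 8749999999)
(.sx (.ofNat 2557075000)
(.sy (.negSucc 9374999999)
(.lf (.negSucc 1579999999) 0)
(.lf (.negSucc 1369999999) 0))
(.sy (.negSucc 9374999999)
(.sx (.ofNat 3835612500)
(.lf (.negSucc 1759999999) 0)
(.lf (.negSucc 1779999999) 0))
(.lf (.negSucc 1539999999) 0)))
(.sx (.ofNat 2557075000)
(.sy (.negSucc 8124999999)
(.lf (.negSucc 1169999999) 0)
(.lf (.negSucc 989999999) 0))
(.sy (.negSucc 8124999999)
(.lf (.negSucc 1309999999) 0)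
(.lf (.negSucc 1099999999) 0))))
(.sy (.negSucc 9776795752)
.ou
(.sy (.negSucc 8638397876)
(.sx (.ofNat 7671225000)
(.sy (.negSucc 9207596814)
(.sx (.ofNat 6392687500)
(.lf (.negSucc 1689999999) 0)
.ou)
(.sx (.ofNat 6392687500)
(.lf (.negSucc 1489999999) 0)
.ou))
.ou)
(.sx (.ofNat 7671225000)
(.sy (.negSucc 8069198938)
(.sx (.ofNat 6392687500)
(.lf (.negSucc 1289999999) 0)
.ou)
(.lf (.negSucc 1099999999) 0))
.ou))))
(.sx (.ofNat 5114150000)
(.sy (.negSucc 6249999999)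
(.sx (.ofNat 2557075000)
(.sy (.negSucc 6874999999)
(.lf (.negSucc 819999999) 0)
(.lf (.negSucc 669999999) 0))
(.sy (.negSucc 6874999999)
(.lf (.negSucc 909999999) 0)
(.lf (.negSucc 729999999) 0)))
(.sx (.ofNat 2557075000)
(.sy (.negSucc 5624999999)
(.lf (.negSucc 539999999) 0)
(.lf (.negSucc 419999999) 0))
(.sy (.negSucc 5624999999)
(.lf (.negSucc 579999999) 0)
(.lf (.negSucc 439999999) 0))))
(.sy (.negSucc 6249999999)
(.sx (.ofNat 7671225000)
(.sy (.negSucc 6874999999)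
(.lf (.negSucc 919999999) 0)
(.lf (.negSucc 749999999) 0))
(.sy (.negSucc 6517863835)
.ou
(.lf (.negSucc 689999999) 0)))
(.sx (.ofNat 7671225000)
(.sy (.negSucc 5624999999)
(.lf (.negSucc 589999999) 0)
(.lf (.negSucc 449999999) 0))
(.sy (.negSucc 5624999999)
(.lf (.negSucc 589999999) 0)
(.lf (.negSucc 459999999) 0))))))
(.sx (.ofNat 5114150000)
(.sy (.negSucc 2499999999)
(.sx (.ofNat 2557075000)
(.sy (.negSucc 3749999999)
(.sy (.negSucc 4374999999)
(.lf (.negSucc 309999999) 0)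
(.lf (.negSucc 219999999) 0))
(.lf (.negSucc 119999999) 0))
(.sy (.negSucc 3749999999)
(.sy (.negSucc 4374999999)
(.lf (.negSucc 319999999) 0)
(.lf (.negSucc 209999999) 0))
(.lf (.negSucc 89999999) 0)))
(.sx (.ofNat 2557075000)
(.sy (.negSucc 1249999999)
(.lf (.negSucc 19999999) 0)
(.lf (.ofNat 10000000) 0))
(.sy (.negSucc 1249999999)
(.lf (.ofNat 0) 0)
(.lf (.ofNat 30000000) 0))))
(.sy (.negSucc 2499999999)
(.sx (.ofNat 7671225000)
(.sy (.negSucc 3749999999)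
(.sy (.negSucc 4374999999)
(.lf (.negSucc 329999999) 0)
(.lf (.negSucc 219999999) 0))
(.sy (.negSucc 3124999999)
(.lf (.negSucc 129999999) 0)
(.lf (.negSucc 59999999) 0)))
(.sy (.negSucc 3749999999)
(.sy (.negSucc 4374999999)
(.lf (.negSucc 339999999) 0)
(.lf (.negSucc 239999999) 0))
(.sy (.negSucc 3124999999)
(.lf (.negSucc 149999999) 0)
(.lf (.negSucc 79999999) 0))))
(.sx (.ofNat 7671225000)
(.sy (.negSucc 1249999999)
(.lf (.ofNat 10000000) 0)
(.lf (.ofNat 30000000) 0))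
(.sy (.negSucc 1249999999)
(.lf (.negSucc 9999999) 0)
(.lf (.ofNat 20000000) 0))))))
(.sy (.ofNat 5000000000)
(.sx (.ofNat 5114150000)
(.sy (.ofNat 2500000000)
(.sx (.ofNat 2557075000)
(.sy (.ofNat 1250000000)
(.lf (.negSucc 9999999) 0)
(.lf (.negSucc 79999999) 0))
(.sy (.ofNat 1250000000)
(.lf (.negSucc 9999999) 0)
(.lf (.negSucc 119999999) 0)))
(.sx (.ofNat 2557075000)
(.sy (.ofNat 3750000000)
(.lf (.negSucc 199999999) 0)
(.sx (.ofNat 1278537500)
(.lf (.negSucc 319999999) 0)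
(.lf (.negSucc 399999999) 0)))
(.sy (.ofNat 3750000000)
(.lf (.negSucc 269999999) 0)
(.sy (.ofNat 4375000000)
(.lf (.negSucc 409999999) 0)
(.lf (.negSucc 499999999) 0)))))
(.sy (.ofNat 2500000000)
(.sx (.ofNat 7671225000)
(.sy (.ofNat 1250000000)
(.lf (.negSucc 9999999) 0)
(.lf (.negSucc 109999999) 0))
(.sy (.ofNat 1250000000)
(.lf (.negSucc 9999999) 0)
(.lf (.negSucc 49999999) 1)))
(.sx (.ofNat 7671225000)
(.sy (.ofNat 3750000000)
(.sx (.ofNat 6392687500)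
(.lf (.negSucc 259999999) 0)
(.lf (.negSucc 189999999) 0))
(.sx (.ofNat 6392687500)
(.sy (.ofNat 4375000000)
(.lf (.negSucc 349999999) 0)
(.lf (.negSucc 399999999) 0))
(.sy (.ofNat 4375000000)
(.lf (.negSucc 219999999) 0)
(.lf (.negSucc 189999999) 0))))
(.sy (.ofNat 3750000000)
(.sx (.ofNat 8949762500)
(.lf (.negSucc 79999999) 0)
(.sy (.ofNat 3125000000)
(.lf (.ofNat 40000000) 0)
(.lf (.ofNat 140000000) 0)))
(.sx (.ofNat 8949762500)
(.sy (.ofNat 4375000000)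
(.lf (.ofNat 10000000) 0)
(.lf (.ofNat 140000000) 0))
(.sy (.ofNat 4375000000)
(.lf (.ofNat 300000000) 0)
(.lf (.ofNat 530000000) 0)))))))
(.sx (.ofNat 5114150000)
(.sy (.ofNat 7500000000)
(.sx (.ofNat 2557075000)
(.sy (.ofNat 6250000000)
(.sx (.ofNat 1278537500)
(.sy (.ofNat 5625000000)
(.lf (.negSucc 459999999) 0)
(.lf (.negSucc 569999999) 0))
(.sy (.ofNat 5625000000)
(.lf (.negSucc 549999999) 0)
(.lf (.negSucc 669999999) 0)))
(.sx (.ofNat 1278537500)
(.sy (.ofNat 6875000000)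
(.lf (.negSucc 689999999) 0)
(.lf (.negSucc 819999999) 0))
(.sy (.ofNat 6875000000)
(.lf (.negSucc 789999999) 0)
(.lf (.negSucc 919999999) 0))))
(.sy (.ofNat 6250000000)
(.sx (.ofNat 3835612500)
(.sy (.ofNat 5625000000)
(.lf (.negSucc 599999999) 0)
(.lf (.negSucc 709999999) 0))
(.sy (.ofNat 5625000000)
(.lf (.negSucc 579999999) 0)
(.lf (.negSucc 649999999) 0)))
(.sx (.ofNat 3835612500)
(.sy (.ofNat 6875000000)
(.lf (.negSucc 819999999) 0)
(.lf (.negSucc 929999999) 0))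
(.sx (.ofNat 4474881250)
(.sy (.ofNat 6875000000)
(.lf (.negSucc 759999999) 0)
(.lf (.negSucc 819999999) 0))
(.sy (.ofNat 6875000000)
(.lf (.negSucc 649999999) 0)
(.lf (.negSucc 659999999) 0))))))
(.sx (.ofNat 2557075000)
(.sy (.ofNat 8750000000)
(.sy (.ofNat 8125000000)
(.sx (.ofNat 1278537500)
(.lf (.negSucc 949999999) 0)
(.lf (.negSucc 1049999999) 0))
(.sx (.ofNat 1278537500)
(.lf (.negSucc 1099999999) 0)
(.lf (.negSucc 1189999999) 0)))
(.sy (.ofNat 9375000000)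
(.sx (.ofNat 1278537500)
(.lf (.negSucc 1259999999) 0)
(.lf (.negSucc 1329999999) 0))
(.sx (.ofNat 1278537500)
(.lf (.negSucc 1429999999) 0)
(.lf (.negSucc 1469999999) 1))))
(.sx (.ofNat 3835612500)
(.sy (.ofNat 8750000000)
(.sy (.ofNat 8125000000)
(.lf (.negSucc 1029999999) 0)
(.lf (.negSucc 1119999999) 0))
(.sx (.ofNat 3196343750)
(.sy (.ofNat 9375000000)
(.lf (.negSucc 1259999999) 0)
(.lf (.negSucc 1349999999) 0))
(.sy (.ofNat 9375000000)
(.lf (.negSucc 1109999999) 0)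
(.lf (.negSucc 1129999999) 0))))
(.sy (.ofNat 8750000000)
(.sx (.ofNat 4474881250)
(.sy (.ofNat 8125000000)
(.lf (.negSucc 859999999) 0)
(.lf (.negSucc 869999999) 0))
(.sy (.ofNat 8125000000)
(.lf (.negSucc 629999999) 0)
(.lf (.negSucc 559999999) 0)))
(.sx (.ofNat 4474881250)
(.sy (.ofNat 9375000000)
(.lf (.negSucc 839999999) 0)
(.lf (.negSucc 779999999) 0))
(.sy (.ofNat 9375000000)
(.lf (.negSucc 439999999) 0)
(.lf (.negSucc 259999999) 0)))))))
(.sy (.ofNat 9776795753)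
(.sy (.ofNat 7388397876)
(.sx (.ofNat 7671225000)
(.sx (.ofNat 6392687500)
(.sy (.ofNat 6194198938)
(.sx (.ofNat 5753418750)
(.lf (.negSucc 489999999) 0)
(.lf (.negSucc 349999999) 0))
(.sx (.ofNat 5753418750)
(.lf (.negSucc 469999999) 0)
(.lf (.negSucc 199999999) 0)))
(.sy (.ofNat 6194198938)
(.sy (.ofNat 5597099469)
(.lf (.negSucc 109999999) 0)
(.lf (.ofNat 10000000) 0))
(.sy (.ofNat 6791298407)
(.lf (.ofNat 200000000) 0)
(.lf (.ofNat 450000000) 0))))
(.sy (.ofNat 6517863836)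
(.sx (.ofNat 8949762500)
(.sy (.ofNat 5758931918)
(.lf (.ofNat 360000000) 0)
(.lf (.ofNat 700000000) 0))
(.sy (.ofNat 5586740431)
(.lf (.ofNat 810000000) 0)
.ou))
.ou))
(.sx (.ofNat 7671225000)
(.sx (.ofNat 6392687500)
(.sy (.ofNat 8582596814)
(.sx (.ofNat 5753418750)
(.lf (.negSucc 269999999) 1)
(.lf (.ofNat 180000000) 0))
(.sx (.ofNat 5753418750)
(.lf (.ofNat 150000000) 1)
(.sy (.ofNat 8690485114)
(.lf (.ofNat 480000000) 0)
.ou)))
(.sy (.ofNat 7821436603)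
(.lf (.ofNat 710000000) 0)
.ou))
.ou))
.ou))))

theorem run_tr31_0B : Tr.run 0 1 T31.C T31.K0 R31 (.ofNat 5000000000) tr31_0B (.ofNat 0) (.ofNat 10228300000) (.negSucc 9999999999) (.ofNat 10000000000)
    (-100000000000) 100000000000 = true := by decide +kernel

/-- tree -/
def tr31_0BB : Tr :=
(.sy (.ofNat 0)
(.sy (.negSucc 4999999999)
(.sx (.negSucc 3959449999)
(.sy (.negSucc 7499999999)
(.sx (.negSucc 5939174999)
(.sy (.negSucc 8418677678)
.ou
(.sx (.negSucc 6929037499)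
.ou
(.sy (.negSucc 7959338839)
(.lf (.negSucc 149999999) 0)
(.lf (.negSucc 239999999) 0))))
(.sy (.negSucc 8749999999)
(.sx (.negSucc 4949312499)
(.sx (.negSucc 5444243749)
(.sy (.negSucc 9184012012)
.ou
(.lf (.negSucc 9999999) 0))
(.sy (.negSucc 9374999999)
(.lf (.ofNat 110000000) 0)
(.lf (.negSucc 39999999) 0)))
(.sx (.negSucc 4454381249)
(.sy (.negSucc 9374999999)
(.lf (.ofNat 10000000) 0)
(.lf (.negSucc 119999999) 0))
(.lf (.negSucc 159999999) 0)))
(.sx (.negSucc 4949312499)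
(.sy (.negSucc 8124999999)
(.lf (.negSucc 149999999) 0)
(.lf (.negSucc 259999999) 0))
(.sy (.negSucc 8124999999)
(.lf (.negSucc 259999999) 0)
(.lf (.negSucc 339999999) 0)))))
(.sy (.negSucc 6249999999)
(.sx (.negSucc 5939174999)
(.sx (.negSucc 6929037499)
(.sy (.negSucc 7216009438)
.ou
(.sy (.negSucc 6733004719)
(.lf (.negSucc 389999999) 0)
(.lf (.negSucc 449999999) 0)))
(.sy (.negSucc 6874999999)
(.lf (.negSucc 329999999) 0)
(.lf (.negSucc 409999999) 0)))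
(.sy (.negSucc 6874999999)
(.lf (.negSucc 359999999) 0)
(.lf (.negSucc 409999999) 0)))
(.sx (.negSucc 5939174999)
(.sy (.negSucc 5624999999)
(.lf (.negSucc 489999999) 0)
(.lf (.negSucc 529999999) 0))
(.sy (.negSucc 5624999999)
(.lf (.negSucc 439999999) 0)
(.lf (.negSucc 439999999) 0)))))
(.sy (.negSucc 7499999999)
(.sx (.negSucc 1979724999)
(.sy (.negSucc 8749999999)
(.sx (.negSucc 2969587499)
(.sy (.negSucc 9374999999)
(.lf (.negSucc 319999999) 0)
(.lf (.negSucc 389999999) 0))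
(.lf (.negSucc 639999999) 0))
(.sx (.negSucc 2969587499)
(.sy (.negSucc 8124999999)
(.lf (.negSucc 429999999) 0)
(.lf (.negSucc 449999999) 0))
(.lf (.negSucc 599999999) 0)))
(.sy (.negSucc 8749999999)
(.sy (.negSucc 9374999999)
(.lf (.negSucc 1109999999) 0)
(.lf (.negSucc 989999999) 0))
(.sy (.negSucc 8124999999)
(.lf (.negSucc 879999999) 0)
(.lf (.negSucc 769999999) 0))))
(.sy (.negSucc 6249999999)
(.sx (.negSucc 1979724999)
(.sy (.negSucc 6874999999)
(.lf (.negSucc 499999999) 0)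
(.lf (.negSucc 479999999) 0))
(.sy (.negSucc 6874999999)
(.lf (.negSucc 669999999) 0)
(.lf (.negSucc 579999999) 0)))
(.sx (.negSucc 1979724999)
(.sy (.negSucc 5624999999)
(.lf (.negSucc 449999999) 0)
(.lf (.negSucc 409999999) 0))
(.sy (.negSucc 5624999999)
(.lf (.negSucc 489999999) 0)
(.lf (.negSucc 399999999) 0))))))
(.sx (.negSucc 3959449999)
(.sy (.negSucc 2499999999)
(.sx (.negSucc 5939174999)
(.sy (.negSucc 3749999999)
(.sx (.negSucc 6929037499)
(.sy (.negSucc 4374999999)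
(.lf (.negSucc 579999999) 0)
(.lf (.negSucc 569999999) 0))
(.sy (.negSucc 4374999999)
(.lf (.negSucc 509999999) 0)
(.lf (.negSucc 499999999) 0)))
(.sx (.negSucc 6929037499)
(.lf (.negSucc 519999999) 0)
(.lf (.negSucc 439999999) 0)))
(.sy (.negSucc 3749999999)
(.sx (.negSucc 4949312499)
(.sy (.negSucc 4374999999)
(.lf (.negSucc 449999999) 0)
(.lf (.negSucc 429999999) 0))
(.sy (.negSucc 4374999999)
(.lf (.negSucc 409999999) 0)
(.lf (.negSucc 379999999) 0)))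
(.sx (.negSucc 4949312499)
(.lf (.negSucc 369999999) 0)
(.lf (.negSucc 309999999) 0))))
(.sx (.negSucc 5939174999)
(.sy (.negSucc 1249999999)
(.lf (.negSucc 339999999) 0)
(.lf (.negSucc 169999999) 0))
(.sy (.negSucc 1249999999)
(.lf (.negSucc 229999999) 0)
(.lf (.negSucc 109999999) 0))))
(.sy (.negSucc 2499999999)
(.sx (.negSucc 1979724999)
(.sy (.negSucc 3749999999)
(.sy (.negSucc 4374999999)
(.lf (.negSucc 359999999) 0)
(.lf (.negSucc 309999999) 0))
(.lf (.negSucc 239999999) 0))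
(.sy (.negSucc 3749999999)
(.sy (.negSucc 4374999999)
(.lf (.negSucc 329999999) 0)
(.lf (.negSucc 259999999) 0))
(.lf (.negSucc 169999999) 0)))
(.sx (.negSucc 1979724999)
(.sy (.negSucc 1249999999)
(.lf (.negSucc 139999999) 0)
(.lf (.negSucc 59999999) 0))
(.sy (.negSucc 1249999999)
(.lf (.negSucc 79999999) 0)
(.lf (.negSucc 19999999) 0))))))
(.sy (.ofNat 5000000000)
(.sx (.negSucc 3959449999)
(.sy (.ofNat 2500000000)
(.sx (.negSucc 5939174999)
(.sy (.ofNat 1250000000)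
(.lf (.ofNat 20000000) 0)
(.lf (.ofNat 200000000) 0))
(.sy (.ofNat 1250000000)
(.lf (.ofNat 10000000) 0)
(.lf (.ofNat 110000000) 0)))
(.sx (.negSucc 5939174999)
(.sy (.ofNat 3750000000)
(.lf (.ofNat 340000000) 0)
(.lf (.ofNat 440000000) 0))
(.sx (.negSucc 4949312499)
(.sy (.ofNat 3750000000)
(.lf (.ofNat 200000000) 0)
(.lf (.ofNat 240000000) 0))
(.sy (.ofNat 3750000000)
(.lf (.ofNat 130000000) 0)
(.lf (.ofNat 120000000) 0)))))
(.sy (.ofNat 2500000000)
(.sx (.negSucc 1979724999)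
(.sy (.ofNat 1250000000)
(.lf (.ofNat 0) 0)
(.lf (.ofNat 30000000) 0))
(.sy (.ofNat 1250000000)
(.lf (.ofNat 0) 0)
(.lf (.negSucc 29999999) 0)))
(.sx (.negSucc 1979724999)
(.sy (.ofNat 3750000000)
(.lf (.ofNat 20000000) 0)
(.lf (.negSucc 29999999) 0))
(.sy (.ofNat 3750000000)
(.lf (.negSucc 89999999) 0)
(.lf (.negSucc 199999999) 0)))))
(.sx (.negSucc 3959449999)
(.sy (.ofNat 7500000000)
(.sx (.negSucc 5939174999)
(.sx (.negSucc 6929037499)
(.sy (.ofNat 7216009439)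
(.sy (.ofNat 6108004719)
(.lf (.ofNat 590000000) 0)
(.lf (.ofNat 620000000) 0))
.ou)
(.sy (.ofNat 6250000000)
(.lf (.ofNat 390000000) 0)
(.lf (.ofNat 360000000) 0)))
(.sy (.ofNat 6250000000)
(.sx (.negSucc 4949312499)
(.lf (.ofNat 220000000) 0)
(.lf (.ofNat 70000000) 0))
(.sx (.negSucc 4949312499)
(.lf (.ofNat 140000000) 0)
(.lf (.negSucc 39999999) 0))))
(.sx (.negSucc 5939174999)
(.sy (.ofNat 8418677679)
(.lf (.ofNat 430000000) 0)
.ou)
(.sy (.ofNat 8750000000)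
(.sx (.negSucc 4949312499)
(.lf (.ofNat 10000000) 0)
(.lf (.negSucc 209999999) 0))
(.sx (.negSucc 4949312499)
(.lf (.negSucc 169999999) 0)
(.lf (.negSucc 429999999) 0)))))
(.sy (.ofNat 7500000000)
(.sx (.negSucc 1979724999)
(.sy (.ofNat 6250000000)
(.sx (.negSucc 2969587499)
(.lf (.negSucc 69999999) 0)
(.lf (.negSucc 189999999) 0))
(.sx (.negSucc 2969587499)
(.lf (.negSucc 209999999) 0)
(.lf (.negSucc 359999999) 0)))
(.sy (.ofNat 6250000000)
(.sx (.negSucc 989862499)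
(.lf (.negSucc 299999999) 0)
(.lf (.negSucc 409999999) 0))
(.sx (.negSucc 989862499)
(.sy (.ofNat 6875000000)
(.lf (.negSucc 439999999) 0)
(.lf (.negSucc 549999999) 0))
(.sy (.ofNat 6875000000)
(.lf (.negSucc 569999999) 0)
(.lf (.negSucc 689999999) 0)))))
(.sx (.negSucc 1979724999)
(.sy (.ofNat 8750000000)
(.sx (.negSucc 2969587499)
(.lf (.negSucc 399999999) 1)
(.sy (.ofNat 8125000000)
(.lf (.negSucc 519999999) 0)
(.lf (.negSucc 639999999) 0)))
(.sx (.negSucc 2969587499)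
(.sy (.ofNat 9375000000)
(.lf (.negSucc 579999999) 0)
(.lf (.negSucc 719999999) 0))
(.sy (.ofNat 9375000000)
(.lf (.negSucc 779999999) 0)
(.lf (.negSucc 929999999) 0))))
(.sy (.ofNat 8750000000)
(.sx (.negSucc 989862499)
(.sy (.ofNat 8125000000)
(.lf (.negSucc 669999999) 0)
(.lf (.negSucc 809999999) 0))
(.sy (.ofNat 8125000000)
(.lf (.negSucc 819999999) 0)
(.lf (.negSucc 959999999) 0)))
(.sx (.negSucc 989862499)
(.sy (.ofNat 9375000000)
(.lf (.negSucc 959999999) 0)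
(.lf (.negSucc 1119999999) 0))
(.sy (.ofNat 9375000000)
(.lf (.negSucc 1119999999) 0)
(.lf (.negSucc 1279999999) 0)))))))))

theorem run_tr31_0BB : Tr.run 0 1 T31.C T31.K0 R31 (.ofNat 5000000000) tr31_0BB (.negSucc 7918899999) (.ofNat 0) (.negSucc 9999999999) (.ofNat 10000000000)
    (-100000000000) 100000000000 = true := by decide +kernel

/-- tree -/
def tr31_0P : Tr :=
(.sy (.ofNat 1154700000)
(.sy (.negSucc 3382099999)
(.sy (.negSucc 5650499999)
(.sy (.negSucc 6784699999)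
(.sy (.negSucc 7351799999)
(.lf (.negSucc 249999999) 0)
(.lf (.negSucc 159999999) 0))
(.sy (.negSucc 6217599999)
(.lf (.negSucc 89999999) 0)
(.lf (.negSucc 19999999) 0)))
(.sy (.negSucc 4516299999)
(.sy (.negSucc 5083399999)
(.lf (.ofNat 30000000) 1)
(.sy (.negSucc 4799849999)
(.lf (.ofNat 60000000) 0)
(.lf (.ofNat 80000000) 0)))
(.sy (.negSucc 3949199999)
(.sx (.ofNat 5150000000)
(.lf (.ofNat 100000000) 0)
(.lf (.ofNat 120000000) 0))
(.sx (.ofNat 5150000000)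
(.lf (.ofNat 120000000) 0)
(.lf (.ofNat 140000000) 0)))))
(.sy (.negSucc 1113699999)
(.sy (.negSucc 2247899999)
(.sy (.negSucc 2814999999)
(.sx (.ofNat 5150000000)
(.lf (.ofNat 130000000) 0)
(.lf (.ofNat 150000000) 0))
(.sx (.ofNat 5150000000)
(.lf (.ofNat 140000000) 0)
(.sx (.ofNat 5225000000)
(.lf (.ofNat 150000000) 0)
(.lf (.ofNat 170000000) 0))))
(.sy (.negSucc 1680799999)
(.sx (.ofNat 5150000000)
(.lf (.ofNat 140000000) 0)
(.sx (.ofNat 5225000000)
(.lf (.ofNat 150000000) 0)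
(.lf (.ofNat 170000000) 0)))
(.sx (.ofNat 5150000000)
(.lf (.ofNat 130000000) 0)
(.sy (.negSucc 1397249999)
(.lf (.ofNat 150000000) 0)
(.lf (.ofNat 150000000) 0)))))
(.sy (.ofNat 20500000)
(.sy (.negSucc 546599999)
(.sx (.ofNat 5150000000)
(.lf (.ofNat 120000000) 0)
(.sy (.negSucc 830149999)
(.lf (.ofNat 140000000) 0)
(.lf (.ofNat 130000000) 0)))
(.sx (.ofNat 5150000000)
(.lf (.ofNat 100000000) 0)
(.sy (.negSucc 263049999)
(.lf (.ofNat 130000000) 0)
(.lf (.ofNat 120000000) 0))))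
(.sy (.ofNat 587600000)
(.sx (.ofNat 5150000000)
(.lf (.ofNat 80000000) 0)
(.lf (.ofNat 100000000) 0))
(.sx (.ofNat 5150000000)
(.lf (.ofNat 50000000) 0)
(.lf (.ofNat 80000000) 0))))))
(.sy (.ofNat 5691500000)
(.sy (.ofNat 3423100000)
(.sy (.ofNat 2288900000)
(.sy (.ofNat 1721800000)
(.sx (.ofNat 5150000000)
(.lf (.ofNat 30000000) 0)
(.lf (.ofNat 60000000) 0))
(.sx (.ofNat 5150000000)
(.lf (.ofNat 10000000) 0)
(.lf (.ofNat 40000000) 0)))
(.sy (.ofNat 2856000000)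
(.lf (.ofNat 10000000) 0)
(.lf (.ofNat 0) 0)))
(.sy (.ofNat 4557300000)
(.lf (.ofNat 10000000) 0)
(.lf (.ofNat 60000000) 0)))
(.sy (.ofNat 7959900000)
(.sy (.ofNat 6825700000)
(.lf (.ofNat 170000000) 0)
(.lf (.ofNat 340000000) 0))
(.lf (.ofNat 670000000) 0))))

theorem run_tr31_0P : Tr.run 0 2 T31.C T31.K0 R31 (.ofNat 5000000000) tr31_0P (.ofNat 5000000000) (.ofNat 5300000000) (.negSucc 7918899999) (.ofNat 10228300000)
    (-100000000000) 100000000000 = true := by decide +kernel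

/-- tree -/
def tr31_0N : Tr :=
(.sy (.ofNat 1154700000)
(.sy (.negSucc 3382099999)
(.sy (.negSucc 5650499999)
(.sx (.negSucc 6424999999)
(.sy (.negSucc 6784699999)
(.sy (.negSucc 7351799999)
(.sx (.negSucc 7137499999)
(.lf (.ofNat 360000000) 0)
(.lf (.ofNat 380000000) 0))
(.sx (.negSucc 7137499999)
(.lf (.ofNat 120000000) 0)
(.lf (.ofNat 180000000) 0)))
(.sx (.negSucc 7137499999)
(.sy (.negSucc 6217599999)
(.lf (.negSucc 69999999) 0)
(.lf (.negSucc 229999999) 0))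
(.sy (.negSucc 6217599999)
(.lf (.ofNat 10000000) 0)
(.lf (.negSucc 139999999) 0))))
(.sy (.negSucc 6784699999)
(.sy (.negSucc 7351799999)
(.sx (.negSucc 5712499999)
(.lf (.ofNat 400000000) 0)
(.lf (.ofNat 400000000) 0))
(.sx (.negSucc 5712499999)
(.lf (.ofNat 220000000) 0)
(.lf (.ofNat 250000000) 0)))
(.sx (.negSucc 5712499999)
(.sy (.negSucc 6217599999)
(.lf (.ofNat 70000000) 0)
(.lf (.negSucc 59999999) 0))
(.sy (.negSucc 6217599999)
(.lf (.ofNat 120000000) 0)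
(.lf (.ofNat 10000000) 0)))))
(.sx (.negSucc 6424999999)
(.sy (.negSucc 4516299999)
(.sx (.negSucc 7137499999)
(.sy (.negSucc 5083399999)
(.lf (.negSucc 369999999) 0)
(.lf (.negSucc 479999999) 0))
(.sy (.negSucc 5083399999)
(.lf (.negSucc 259999999) 0)
(.lf (.negSucc 369999999) 0)))
(.sx (.negSucc 7137499999)
(.sy (.negSucc 3949199999)
(.lf (.negSucc 589999999) 0)
(.lf (.negSucc 669999999) 1))
(.sy (.negSucc 3949199999)
(.lf (.negSucc 459999999) 0)
(.sx (.negSucc 6781249999)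
(.lf (.negSucc 569999999) 0)
(.lf (.negSucc 499999999) 0)))))
(.sy (.negSucc 4516299999)
(.sx (.negSucc 5712499999)
(.sy (.negSucc 5083399999)
(.lf (.negSucc 169999999) 0)
(.lf (.negSucc 259999999) 0))
(.sy (.negSucc 5083399999)
(.lf (.negSucc 89999999) 0)
(.sx (.negSucc 5356249999)
(.lf (.negSucc 189999999) 0)
(.lf (.negSucc 149999999) 0))))
(.sx (.negSucc 5712499999)
(.sy (.negSucc 3949199999)
(.sx (.negSucc 6068749999)
(.lf (.negSucc 369999999) 0)
(.lf (.negSucc 309999999) 0))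
(.sx (.negSucc 6068749999)
(.lf (.negSucc 439999999) 0)
(.lf (.negSucc 379999999) 0)))
(.sy (.negSucc 3949199999)
(.sx (.negSucc 5356249999)
(.lf (.negSucc 259999999) 0)
(.lf (.negSucc 219999999) 0))
(.sx (.negSucc 5356249999)
(.lf (.negSucc 329999999) 0)
(.lf (.negSucc 269999999) 0)))))))
(.sx (.negSucc 6424999999)
(.sy (.negSucc 1113699999)
(.sx (.negSucc 7137499999)
(.sy (.negSucc 2247899999)
(.sx (.negSucc 7493749999)
(.sy (.negSucc 2814999999)
(.lf (.negSucc 779999999) 0)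
(.lf (.negSucc 849999999) 0))
(.sy (.negSucc 2814999999)
(.lf (.negSucc 709999999) 0)
(.lf (.negSucc 769999999) 0)))
(.sx (.negSucc 7493749999)
(.sy (.negSucc 1680799999)
(.lf (.negSucc 909999999) 0)
(.lf (.negSucc 949999999) 0))
(.sy (.negSucc 1680799999)
(.lf (.negSucc 829999999) 0)
(.lf (.negSucc 869999999) 0))))
(.sy (.negSucc 2247899999)
(.sx (.negSucc 6781249999)
(.sy (.negSucc 2814999999)
(.lf (.negSucc 639999999) 0)
(.lf (.negSucc 699999999) 0))
(.sy (.negSucc 2814999999)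
(.lf (.negSucc 569999999) 0)
(.lf (.negSucc 619999999) 0)))
(.sx (.negSucc 6781249999)
(.sy (.negSucc 1680799999)
(.lf (.negSucc 749999999) 0)
(.lf (.negSucc 789999999) 0))
(.sy (.negSucc 1680799999)
(.lf (.negSucc 669999999) 0)
(.lf (.negSucc 709999999) 0)))))
(.sx (.negSucc 7137499999)
(.sy (.ofNat 20500000)
(.sx (.negSucc 7493749999)
(.sy (.negSucc 546599999)
(.lf (.negSucc 989999999) 0)
(.lf (.negSucc 1029999999) 0))
(.sy (.negSucc 546599999)
(.lf (.negSucc 909999999) 0)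
(.lf (.negSucc 939999999) 0)))
(.sx (.negSucc 7493749999)
(.sx (.negSucc 7671874999)
(.lf (.negSucc 1089999999) 0)
(.lf (.negSucc 1039999999) 0))
(.sx (.negSucc 7315624999)
(.lf (.negSucc 999999999) 0)
(.lf (.negSucc 949999999) 0))))
(.sy (.ofNat 20500000)
(.sx (.negSucc 6781249999)
(.sx (.negSucc 6959374999)
(.lf (.negSucc 859999999) 0)
(.lf (.negSucc 819999999) 0))
(.sx (.negSucc 6603124999)
(.lf (.negSucc 779999999) 0)
(.lf (.negSucc 739999999) 0)))
(.sx (.negSucc 6781249999)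
(.lf (.negSucc 889999999) 0)
(.lf (.negSucc 809999999) 0)))))
(.sy (.negSucc 1113699999)
(.sx (.negSucc 5712499999)
(.sy (.negSucc 2247899999)
(.sx (.negSucc 6068749999)
(.sy (.negSucc 2814999999)
(.lf (.negSucc 499999999) 0)
(.lf (.negSucc 549999999) 0))
(.sy (.negSucc 2814999999)
(.lf (.negSucc 439999999) 0)
(.lf (.negSucc 489999999) 0)))
(.sx (.negSucc 6068749999)
(.sy (.negSucc 1680799999)
(.lf (.negSucc 599999999) 0)
(.lf (.negSucc 639999999) 0))
(.sy (.negSucc 1680799999)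
(.lf (.negSucc 529999999) 0)
(.lf (.negSucc 569999999) 0))))
(.sy (.negSucc 2247899999)
(.sx (.negSucc 5356249999)
(.sy (.negSucc 2814999999)
(.lf (.negSucc 379999999) 0)
(.lf (.negSucc 429999999) 0))
(.sy (.negSucc 2814999999)
(.lf (.negSucc 319999999) 0)
(.lf (.negSucc 369999999) 0)))
(.sx (.negSucc 5356249999)
(.sy (.negSucc 1680799999)
(.lf (.negSucc 469999999) 0)
(.lf (.negSucc 499999999) 0))
(.sy (.negSucc 1680799999)
(.lf (.negSucc 399999999) 0)
(.lf (.negSucc 429999999) 0)))))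
(.sx (.negSucc 5712499999)
(.sy (.ofNat 20500000)
(.sx (.negSucc 6068749999)
(.lf (.negSucc 679999999) 0)
(.lf (.negSucc 609999999) 0))
(.sx (.negSucc 6068749999)
(.lf (.negSucc 729999999) 0)
(.lf (.negSucc 649999999) 0)))
(.sy (.ofNat 20500000)
(.sx (.negSucc 5356249999)
(.sx (.negSucc 5534374999)
(.lf (.negSucc 559999999) 0)
(.lf (.negSucc 519999999) 0))
(.sx (.negSucc 5178124999)
(.lf (.negSucc 489999999) 0)
(.lf (.negSucc 449999999) 0)))
(.sx (.negSucc 5356249999)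
(.lf (.negSucc 569999999) 0)
(.lf (.negSucc 499999999) 0)))))))
(.sy (.ofNat 5691500000)
(.sx (.negSucc 6424999999)
(.sx (.negSucc 7137499999)
(.sy (.ofNat 3423100000)
(.sx (.negSucc 7493749999)
(.sy (.ofNat 2288900000)
(.sx (.negSucc 7671874999)
(.lf (.negSucc 1119999999) 0)
(.lf (.negSucc 1079999999) 0))
(.sx (.negSucc 7671874999)
(.lf (.negSucc 1139999999) 0)
(.lf (.negSucc 1089999999) 0)))
(.sy (.ofNat 2288900000)
(.sx (.negSucc 7315624999)
(.lf (.negSucc 1029999999) 0)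
(.lf (.negSucc 989999999) 0))
(.lf (.negSucc 1019999999) 0)))
(.sx (.negSucc 7493749999)
(.sy (.ofNat 4557300000)
(.lf (.negSucc 1119999999) 0)
(.lf (.negSucc 1099999999) 0))
(.sy (.ofNat 4557300000)
(.lf (.negSucc 1019999999) 0)
(.lf (.negSucc 1009999999) 0))))
(.sy (.ofNat 3423100000)
(.sx (.negSucc 6781249999)
(.sy (.ofNat 2288900000)
(.lf (.negSucc 919999999) 0)
(.lf (.negSucc 929999999) 0))
(.sy (.ofNat 2288900000)
(.lf (.negSucc 829999999) 0)
(.lf (.negSucc 839999999) 0)))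
(.sx (.negSucc 6781249999)
(.sy (.ofNat 4557300000)
(.lf (.negSucc 929999999) 0)
(.lf (.negSucc 919999999) 0))
(.sy (.ofNat 4557300000)
(.lf (.negSucc 839999999) 0)
(.lf (.negSucc 829999999) 0)))))
(.sy (.ofNat 3423100000)
(.sx (.negSucc 5712499999)
(.sx (.negSucc 6068749999)
(.sy (.ofNat 2288900000)
(.lf (.negSucc 749999999) 0)
(.lf (.negSucc 759999999) 0))
(.sy (.ofNat 2288900000)
(.lf (.negSucc 669999999) 0)
(.lf (.negSucc 679999999) 0)))
(.sx (.negSucc 5356249999)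
(.sy (.ofNat 2288900000)
(.lf (.negSucc 589999999) 0)
(.lf (.negSucc 599999999) 0))
(.sy (.ofNat 2288900000)
(.lf (.negSucc 519999999) 0)
(.lf (.negSucc 529999999) 0))))
(.sx (.negSucc 5712499999)
(.sx (.negSucc 6068749999)
(.sy (.ofNat 4557300000)
(.lf (.negSucc 759999999) 0)
(.lf (.negSucc 749999999) 0))
(.sy (.ofNat 4557300000)
(.lf (.negSucc 679999999) 0)
(.lf (.negSucc 659999999) 0)))
(.sx (.negSucc 5356249999)
(.sy (.ofNat 4557300000)
(.lf (.negSucc 599999999) 0)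
(.lf (.negSucc 589999999) 0))
(.sy (.ofNat 4557300000)
(.lf (.negSucc 519999999) 0)
(.lf (.negSucc 509999999) 0))))))
(.sx (.negSucc 6424999999)
(.sy (.ofNat 7959900000)
(.sx (.negSucc 7137499999)
(.sx (.negSucc 7493749999)
(.sy (.ofNat 6825700000)
(.lf (.negSucc 1079999999) 0)
(.lf (.negSucc 1049999999) 0))
(.sy (.ofNat 6825700000)
(.lf (.negSucc 989999999) 0)
(.lf (.negSucc 959999999) 0)))
(.sy (.ofNat 6825700000)
(.sx (.negSucc 6781249999)
(.lf (.negSucc 899999999) 0)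
(.lf (.negSucc 809999999) 0))
(.lf (.negSucc 829999999) 0)))
(.sx (.negSucc 7137499999)
(.sy (.ofNat 9094100000)
(.lf (.negSucc 969999999) 0)
(.lf (.negSucc 939999999) 0))
(.sy (.ofNat 9094100000)
(.lf (.negSucc 799999999) 0)
(.lf (.negSucc 769999999) 0))))
(.sy (.ofNat 7959900000)
(.sx (.negSucc 5712499999)
(.sy (.ofNat 6825700000)
(.sx (.negSucc 6068749999)
(.lf (.negSucc 729999999) 0)
(.lf (.negSucc 649999999) 0))
(.lf (.negSucc 659999999) 0))
(.sy (.ofNat 6825700000)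
(.sx (.negSucc 5356249999)
(.lf (.negSucc 569999999) 0)
(.lf (.negSucc 489999999) 0))
(.lf (.negSucc 509999999) 0)))
(.sx (.negSucc 5712499999)
(.sy (.ofNat 9094100000)
(.lf (.negSucc 639999999) 0)
(.lf (.negSucc 609999999) 0))
(.sy (.ofNat 9094100000)
(.lf (.negSucc 489999999) 0)
(.lf (.negSucc 469999999) 0)))))))

theorem run_tr31_0N : Tr.run 0 2 T31.C T31.K0 R31 (.ofNat 5000000000) tr31_0N (.negSucc 7849999999) (.negSucc 4999999999) (.negSucc 7918899999) (.ofNat 10228300000)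
    (-100000000000) 100000000000 = true := by decide +kernel

end Pool.Agent.Helper30.DL
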