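import Pool.Agent.Helper30.DL.Run.C31

/-! MP_b4564f_an, all delays. Cell 31: kernel computations (generated). -/

set_option autoImplicit false
set_option maxRecDepth 100000

namespace Pool.Agent.Helper30.DL

/-- tree -/
def tr31_1A : Tr :=
(.sy (.ofNat 0)
(.sy (.negSucc 4999999999)
(.sy (.negSucc 7499999999)
(.lf (.negSucc 3549999999) 0)
(.lf (.negSucc 4659999999) 0))
(.sy (.negSucc 2499999999)
(.sx (.ofNat 750000000)
(.lf (.negSucc 9099999999) 0)
(.lf (.negSucc 4659999999) 0))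
(.sx (.ofNat 750000000)
(.lf (.negSucc 11149999999) 0)
(.lf (.negSucc 5549999999) 0))))
(.sy (.ofNat 5000000000)
(.sy (.ofNat 2500000000)
(.sx (.ofNat 750000000)
(.lf (.negSucc 13219999999) 0)
(.lf (.negSucc 6479999999) 0))
(.sx (.ofNat 750000000)
(.lf (.negSucc 15299999999) 0)
(.lf (.negSucc 7429999999) 0)))
(.sy (.ofNat 7500000000)
(.sx (.ofNat 750000000)
(.lf (.negSucc 17389999999) 0)
(.lf (.negSucc 8419999999) 0))
(.sx (.ofNat 750000000)
(.lf (.negSucc 19499999999) 0)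
(.lf (.negSucc 9429999999) 0)))))

theorem run_tr31_1A : Tr.run 1 0 (T31.C.mdA 1500) (T31.K1.shA (w2n 1500 249332752 17391)) R31 (.ofNat 1500000000) tr31_1A (.ofNat 0) (.ofNat 1500000000) (.negSucc 9999999999) (.ofNat 10000000000)
    (-100000000000) 100000000000 = true := by decide +kernel

/-- tree -/
def tr31_1AA : Tr :=
(.sy (.ofNat 0)
(.sy (.negSucc 4999999999)
(.lf (.negSucc 609999999) 1)
(.sy (.negSucc 2499999999)
(.lf (.ofNat 530000000) 0)
(.lf (.ofNat 1300000000) 0)))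
(.sy (.ofNat 5000000000)
(.sy (.ofNat 2500000000)
(.lf (.ofNat 2080000000) 0)
(.lf (.ofNat 2860000000) 1))
(.sx (.negSucc 749999999)
(.lf (.ofNat 1710000000) 0)
(.lf (.ofNat 11290000000) 0))))

theorem run_tr31_1AA : Tr.run 1 0 (T31.C.mdA 1500) (T31.K1.shA (w2n 1500 249332752 17391)) R31 (.ofNat 1500000000) tr31_1AA (.negSucc 1499999999) (.ofNat 0) (.negSucc 9999999999) (.ofNat 10000000000)
    (-100000000000) 100000000000 = true := by decide +kernel

/-- tree -/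
def tr31_1B : Tr :=
(.sy (.ofNat 0)
(.sy (.negSucc 4999999999)
(.sx (.ofNat 5114150000)
(.sy (.negSucc 7499999999)
(.sx (.ofNat 2557075000)
(.sy (.negSucc 8749999999)
(.sx (.ofNat 1278537500)
(.lf (.negSucc 1209999999) 0)
(.lf (.negSucc 1809999999) 0))
(.sx (.ofNat 1278537500)
(.lf (.negSucc 1309999999) 0)
(.lf (.negSucc 1439999999) 0)))
.ou)
(.sx (.ofNat 2557075000)
(.sx (.ofNat 1278537500)
(.lf (.negSucc 1649999999) 0)
(.lf (.negSucc 1069999999) 0))
(.sy (.negSucc 5866077451)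
.ou
(.lf (.negSucc 769999999) 0))))
.ou)
(.sx (.ofNat 5114150000)
(.sx (.ofNat 2557075000)
(.sy (.negSucc 2499999999)
(.lf (.negSucc 1299999999) 0)
(.lf (.negSucc 1799999999) 0))
(.sy (.negSucc 2499999999)
(.sx (.ofNat 3835612500)
(.lf (.negSucc 619999999) 0)
(.sy (.negSucc 3910718301)
.ou
(.lf (.negSucc 449999999) 0)))
(.lf (.negSucc 569999999) 0)))
(.sy (.negSucc 2933038725)
.ou
(.sx (.ofNat 7671225000)
(.sy (.negSucc 1466519362)
(.lf (.negSucc 299999999) 0)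
(.lf (.negSucc 379999999) 0))
(.sy (.negSucc 1955359150)
.ou
(.lf (.negSucc 269999999) 0))))))
(.sy (.ofNat 5000000000)
(.sx (.ofNat 5114150000)
(.sx (.ofNat 2557075000)
(.sy (.ofNat 2500000000)
(.lf (.negSucc 2719999999) 0)
(.sx (.ofNat 1278537500)
(.lf (.negSucc 7169999999) 0)
(.lf (.negSucc 3089999999) 0)))
(.sy (.ofNat 2500000000)
(.sy (.ofNat 1250000000)
(.lf (.negSucc 919999999) 0)
(.lf (.negSucc 1339999999) 0))
(.sy (.ofNat 3750000000)
(.sx (.ofNat 3835612500)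
(.lf (.negSucc 2049999999) 0)
(.lf (.negSucc 1809999999) 0))
(.sx (.ofNat 3835612500)
(.lf (.negSucc 2759999999) 0)
(.sy (.ofNat 3910718302)
(.lf (.negSucc 2209999999) 0)
.ou)))))
(.sy (.ofNat 2933038726)
(.sx (.ofNat 7671225000)
(.sy (.ofNat 1466519363)
(.lf (.negSucc 659999999) 0)
(.sy (.ofNat 2199779044)
(.lf (.negSucc 1019999999) 0)
(.lf (.negSucc 1339999999) 1)))
(.sy (.ofNat 1955359151)
(.sy (.ofNat 977679575)
(.lf (.negSucc 469999999) 0)
(.lf (.negSucc 709999999) 1))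
.ou))
.ou))
(.sx (.ofNat 5114150000)
(.sx (.ofNat 2557075000)
(.sy (.ofNat 7500000000)
(.sx (.ofNat 1278537500)
(.sx (.ofNat 639268750)
(.lf (.negSucc 17149999999) 0)
(.lf (.negSucc 7059999999) 0))
(.sy (.ofNat 6250000000)
(.lf (.negSucc 4289999999) 0)
(.lf (.negSucc 5249999999) 1)))
(.sx (.ofNat 1278537500)
(.sx (.ofNat 639268750)
(.sx (.ofNat 319634375)
(.lf (.ofNat 0) 0)
(.lf (.negSucc 15259999999) 0))
(.lf (.negSucc 9449999999) 0))
(.sy (.ofNat 8750000000)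
(.sx (.ofNat 1917806250)
(.lf (.negSucc 6769999999) 0)
(.sy (.ofNat 7821436603)
(.lf (.negSucc 5649999999) 0)
.ou))
(.sx (.ofNat 1917806250)
(.lf (.negSucc 7979999999) 0)
.ou))))
(.sy (.ofNat 5866077452)
(.sx (.ofNat 3835612500)
(.lf (.negSucc 3479999999) 0)
.ou)
.ou))
.ou)))

theorem run_tr31_1B : Tr.run 1 1 (T31.C.mdA 1500) (T31.K1.shA (w2n 1500 249332752 17391)) R31 (.ofNat 1500000000) tr31_1B (.ofNat 0) (.ofNat 10228300000) (.negSucc 9999999999) (.ofNat 10000000000)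
    (-100000000000) 100000000000 = true := by decide +kernel

/-- tree -/
def tr31_1BB : Tr :=
(.sy (.ofNat 0)
(.sy (.negSucc 4999999999)
(.sx (.negSucc 3959449999)
.ou
(.sy (.negSucc 7499999999)
(.sx (.negSucc 1979724999)
(.sy (.negSucc 7576809910)
.ou
(.lf (.negSucc 729999999) 0))
(.sy (.negSucc 8749999999)
(.lf (.negSucc 2219999999) 0)
(.lf (.negSucc 1309999999) 0)))
(.sx (.negSucc 1979724999)
(.lf (.negSucc 369999999) 0)
(.lf (.negSucc 79999999) 0))))
(.sx (.negSucc 3959449999)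
(.sy (.negSucc 3788404955)
.ou
(.sy (.negSucc 1894202477)
(.sx (.negSucc 5939174999)
(.sy (.negSucc 2525603303)
.ou
(.lf (.ofNat 10000000) 0))
(.lf (.ofNat 130000000) 0))
(.lf (.ofNat 280000000) 0)))
(.sy (.negSucc 2499999999)
(.sx (.negSucc 1979724999)
(.lf (.ofNat 260000000) 0)
(.lf (.ofNat 1280000000) 0))
(.lf (.ofNat 1130000000) 0))))
(.sy (.ofNat 5000000000)
(.sx (.negSucc 3959449999)
(.sy (.ofNat 3788404956)
(.sy (.ofNat 1894202478)
(.sx (.negSucc 5939174999)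
(.lf (.ofNat 420000000) 0)
(.lf (.ofNat 550000000) 0))
(.sx (.negSucc 5939174999)
(.sy (.ofNat 2525603304)
(.lf (.ofNat 510000000) 0)
.ou)
(.lf (.ofNat 590000000) 0)))
.ou)
(.sx (.negSucc 1979724999)
(.sy (.ofNat 2500000000)
(.lf (.ofNat 940000000) 0)
(.lf (.ofNat 900000000) 0))
(.sy (.ofNat 2500000000)
(.lf (.ofNat 3040000000) 0)
(.sx (.negSucc 989862499)
(.lf (.ofNat 2110000000) 0)
(.lf (.ofNat 7460000000) 0)))))
(.sx (.negSucc 3959449999)
.ou
(.sx (.negSucc 1979724999)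
(.sy (.ofNat 7576809911)
(.sy (.ofNat 6288404955)
(.lf (.ofNat 670000000) 0)
(.lf (.ofNat 430000000) 0))
.ou)
(.sx (.negSucc 989862499)
(.sy (.ofNat 7500000000)
(.lf (.ofNat 1930000000) 0)
(.lf (.ofNat 1430000000) 0))
(.sx (.negSucc 494931249)
(.lf (.ofNat 5110000000) 0)
(.sy (.ofNat 7500000000)
(.lf (.ofNat 18210000000) 0)
(.lf (.ofNat 20440000000) 0))))))))

theorem run_tr31_1BB : Tr.run 1 1 (T31.C.mdA 1500) (T31.K1.shA (w2n 1500 249332752 17391)) R31 (.ofNat 1500000000) tr31_1BB (.negSucc 7918899999) (.ofNat 0) (.negSucc 9999999999) (.ofNat 10000000000)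
    (-100000000000) 100000000000 = true := by decide +kernel

/-- tree -/
def tr31_1P : Tr :=
(.sy (.ofNat 1154700000)
(.sy (.negSucc 3382099999)
(.sx (.ofNat 3400000000)
(.sy (.negSucc 5650499999)
(.sx (.ofNat 2450000000)
(.lf (.negSucc 29999999) 0)
(.lf (.negSucc 99999999) 0))
(.sx (.ofNat 2450000000)
(.sy (.negSucc 4516299999)
(.lf (.negSucc 9999999) 0)
(.lf (.negSucc 19999999) 0))
(.sy (.negSucc 4516299999)
(.lf (.negSucc 69999999) 0)
(.lf (.negSucc 89999999) 0))))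
(.sy (.negSucc 5650499999)
(.sx (.ofNat 4350000000)
(.lf (.negSucc 129999999) 0)
(.lf (.negSucc 99999999) 0))
(.sx (.ofNat 4350000000)
(.lf (.negSucc 109999999) 0)
(.lf (.negSucc 89999999) 0))))
(.sx (.ofNat 3400000000)
(.sy (.negSucc 1113699999)
(.sx (.ofNat 2450000000)
(.sy (.negSucc 2247899999)
(.lf (.negSucc 49999999) 0)
(.sx (.ofNat 1975000000)
(.lf (.negSucc 69999999) 0)
(.lf (.negSucc 119999999) 0)))
(.sy (.negSucc 2247899999)
(.lf (.negSucc 129999999) 0)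
(.sx (.ofNat 2925000000)
(.lf (.negSucc 169999999) 0)
(.lf (.negSucc 219999999) 0))))
(.sx (.ofNat 2450000000)
(.sy (.ofNat 20500000)
(.sx (.ofNat 1975000000)
(.sy (.negSucc 546599999)
(.lf (.negSucc 99999999) 0)
(.lf (.negSucc 129999999) 0))
(.lf (.negSucc 179999999) 0))
(.sx (.ofNat 1975000000)
(.sy (.ofNat 587600000)
(.lf (.negSucc 159999999) 0)
(.lf (.negSucc 199999999) 0))
(.lf (.negSucc 259999999) 0)))
(.sy (.ofNat 20500000)
(.sx (.ofNat 2925000000)
(.lf (.negSucc 249999999) 0)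
(.lf (.negSucc 319999999) 0))
(.sx (.ofNat 2925000000)
(.lf (.negSucc 349999999) 0)
(.lf (.negSucc 439999999) 0)))))
(.sy (.negSucc 1113699999)
(.sx (.ofNat 4350000000)
(.sy (.negSucc 2247899999)
(.lf (.negSucc 189999999) 0)
(.lf (.negSucc 289999999) 0))
(.sy (.negSucc 2247899999)
(.lf (.negSucc 209999999) 0)
(.lf (.negSucc 339999999) 0)))
(.sx (.ofNat 4350000000)
(.sy (.ofNat 20500000)
(.sx (.ofNat 3875000000)
(.lf (.negSucc 389999999) 0)
(.lf (.negSucc 459999999) 0))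
(.sx (.ofNat 3875000000)
(.lf (.negSucc 539999999) 0)
(.lf (.negSucc 639999999) 0)))
(.sy (.ofNat 20500000)
(.lf (.negSucc 529999999) 0)
(.sx (.ofNat 4825000000)
(.lf (.negSucc 729999999) 0)
(.lf (.negSucc 809999999) 0)))))))
(.sy (.ofNat 5691500000)
(.sx (.ofNat 3400000000)
(.sy (.ofNat 3423100000)
(.sx (.ofNat 2450000000)
(.sy (.ofNat 2288900000)
(.sx (.ofNat 1975000000)
(.sy (.ofNat 1721800000)
(.lf (.negSucc 229999999) 0)
(.lf (.negSucc 269999999) 0))
(.lf (.negSucc 349999999) 1))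
(.sx (.ofNat 1975000000)
(.lf (.negSucc 329999999) 0)
(.lf (.negSucc 449999999) 0)))
(.sy (.ofNat 2288900000)
(.sx (.ofNat 2925000000)
(.lf (.negSucc 459999999) 0)
(.lf (.negSucc 589999999) 0))
(.sx (.ofNat 2925000000)
(.lf (.negSucc 589999999) 0)
(.lf (.negSucc 749999999) 1))))
(.sx (.ofNat 2450000000)
(.sy (.ofNat 4557300000)
(.sx (.ofNat 1975000000)
(.lf (.negSucc 409999999) 0)
(.lf (.negSucc 549999999) 0))
(.lf (.negSucc 569999999) 1))
(.sy (.ofNat 4557300000)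
(.sx (.ofNat 2925000000)
(.lf (.negSucc 719999999) 0)
(.lf (.negSucc 909999999) 1))
(.sx (.ofNat 2925000000)
(.lf (.negSucc 839999999) 0)
(.lf (.negSucc 1059999999) 0)))))
(.sy (.ofNat 3423100000)
(.sx (.ofNat 4350000000)
(.sy (.ofNat 2288900000)
(.sx (.ofNat 3875000000)
(.lf (.negSucc 719999999) 0)
(.lf (.negSucc 869999999) 1))
(.sx (.ofNat 3875000000)
(.lf (.negSucc 929999999) 1)
(.lf (.negSucc 1119999999) 1)))
(.sy (.ofNat 2288900000)
(.sx (.ofNat 4825000000)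
(.lf (.negSucc 1009999999) 1)
(.lf (.negSucc 1129999999) 1))
(.sx (.ofNat 4825000000)
(.lf (.negSucc 1309999999) 1)
(.lf (.negSucc 1479999999) 1))))
(.sx (.ofNat 4350000000)
(.sy (.ofNat 4557300000)
(.sx (.ofNat 3875000000)
(.lf (.negSucc 1129999999) 1)
(.sy (.ofNat 3990200000)
(.lf (.negSucc 1309999999) 1)
(.lf (.negSucc 1419999999) 1)))
(.sx (.ofNat 3875000000)
(.lf (.negSucc 1289999999) 1)
(.lf (.negSucc 1539999999) 1)))
(.sy (.ofNat 4557300000)
(.sx (.ofNat 4825000000)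
(.sy (.ofNat 3990200000)
(.lf (.negSucc 1529999999) 1)
(.lf (.negSucc 1649999999) 1))
(.lf (.negSucc 1789999999) 1))
(.sx (.ofNat 4825000000)
(.lf (.negSucc 1749999999) 1)
(.lf (.negSucc 1869999999) 1))))))
(.sx (.ofNat 3400000000)
(.sy (.ofNat 7959900000)
(.sx (.ofNat 2450000000)
(.lf (.negSucc 689999999) 1)
(.sy (.ofNat 6825700000)
(.lf (.negSucc 1039999999) 1)
(.lf (.negSucc 1069999999) 1)))
(.sx (.ofNat 2450000000)
(.lf (.negSucc 749999999) 0)
(.lf (.negSucc 979999999) 1)))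
(.sy (.ofNat 7959900000)
(.sx (.ofNat 4350000000)
(.sy (.ofNat 6825700000)
(.sx (.ofNat 3875000000)
(.lf (.negSucc 1369999999) 1)
(.lf (.negSucc 1559999999) 1))
(.lf (.negSucc 1369999999) 1))
(.sy (.ofNat 6825700000)
(.sx (.ofNat 4825000000)
(.lf (.negSucc 1679999999) 1)
(.lf (.negSucc 1679999999) 1))
(.lf (.negSucc 1379999999) 1)))
(.sx (.ofNat 4350000000)
(.sy (.ofNat 9094100000)
(.lf (.negSucc 1169999999) 1)
(.lf (.negSucc 889999999) 0))
(.sy (.ofNat 9094100000)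
(.lf (.negSucc 999999999) 0)
(.lf (.negSucc 609999999) 0)))))))

theorem run_tr31_1P : Tr.run 1 2 (T31.C.mdA 1500) (T31.K1.shA (w2n 1500 249332752 17391)) R31 (.ofNat 1500000000) tr31_1P (.ofNat 1500000000) (.ofNat 5300000000) (.negSucc 7918899999) (.ofNat 10228300000)
    (-100000000000) 100000000000 = true := by decide +kernel

/-- tree -/
def tr31_1N : Tr :=
(.sy (.ofNat 1154700000)
(.sx (.negSucc 4674999999)
(.sy (.negSucc 3382099999)
(.sy (.negSucc 5650499999)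
(.sx (.negSucc 6262499999)
(.sy (.negSucc 6784699999)
(.lf (.negSucc 19999999) 0)
(.lf (.negSucc 299999999) 0))
(.sy (.negSucc 6784699999)
(.lf (.ofNat 170000000) 0)
(.lf (.negSucc 49999999) 0)))
(.sx (.negSucc 6262499999)
(.sy (.negSucc 4516299999)
(.lf (.negSucc 509999999) 0)
(.sx (.negSucc 7056249999)
(.lf (.negSucc 759999999) 0)
(.lf (.negSucc 579999999) 0)))
(.sy (.negSucc 4516299999)
(.lf (.negSucc 209999999) 0)
(.sx (.negSucc 5468749999)
(.lf (.negSucc 409999999) 0)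
(.lf (.negSucc 269999999) 0)))))
(.sx (.negSucc 6262499999)
(.sy (.negSucc 1113699999)
(.sx (.negSucc 7056249999)
(.sy (.negSucc 2247899999)
(.lf (.negSucc 879999999) 0)
(.lf (.negSucc 969999999) 0))
(.sy (.negSucc 2247899999)
(.lf (.negSucc 689999999) 0)
(.lf (.negSucc 769999999) 0)))
(.sx (.negSucc 7056249999)
(.sy (.ofNat 20500000)
(.sx (.negSucc 7453124999)
(.lf (.negSucc 1089999999) 0)
(.lf (.negSucc 979999999) 0))
(.sx (.negSucc 7453124999)
(.lf (.negSucc 1129999999) 0)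
(.lf (.negSucc 1029999999) 0)))
(.sy (.ofNat 20500000)
(.lf (.negSucc 829999999) 0)
(.sx (.negSucc 6659374999)
(.lf (.negSucc 929999999) 0)
(.lf (.negSucc 829999999) 0)))))
(.sy (.negSucc 1113699999)
(.sx (.negSucc 5468749999)
(.sy (.negSucc 2247899999)
(.lf (.negSucc 509999999) 0)
(.lf (.negSucc 589999999) 0))
(.sy (.negSucc 2247899999)
(.lf (.negSucc 359999999) 0)
(.lf (.negSucc 429999999) 0)))
(.sx (.negSucc 5468749999)
(.sy (.ofNat 20500000)
(.lf (.negSucc 649999999) 0)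
(.sx (.negSucc 5865624999)
(.lf (.negSucc 729999999) 0)
(.lf (.negSucc 639999999) 0)))
(.sy (.ofNat 20500000)
(.lf (.negSucc 479999999) 0)
(.sx (.negSucc 5071874999)
(.lf (.negSucc 549999999) 0)
(.lf (.negSucc 469999999) 0)))))))
(.sy (.negSucc 3382099999)
(.sy (.negSucc 5650499999)
(.sx (.negSucc 3087499999)
(.sy (.negSucc 6784699999)
(.lf (.ofNat 290000000) 0)
(.lf (.ofNat 130000000) 0))
(.sy (.negSucc 6784699999)
(.lf (.ofNat 300000000) 0)
(.lf (.ofNat 200000000) 0)))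
(.sx (.negSucc 3087499999)
(.sy (.negSucc 4516299999)
(.lf (.ofNat 10000000) 0)
(.sx (.negSucc 3881249999)
(.lf (.negSucc 139999999) 0)
(.lf (.negSucc 39999999) 0)))
(.sy (.negSucc 4516299999)
(.lf (.ofNat 130000000) 1)
(.sx (.negSucc 2293749999)
(.lf (.ofNat 40000000) 0)
(.lf (.ofNat 90000000) 0)))))
(.sx (.negSucc 3087499999)
(.sy (.negSucc 1113699999)
(.sx (.negSucc 3881249999)
(.sy (.negSucc 2247899999)
(.lf (.negSucc 219999999) 0)
(.lf (.negSucc 279999999) 0))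
(.sy (.negSucc 2247899999)
(.lf (.negSucc 109999999) 0)
(.lf (.negSucc 159999999) 0)))
(.sx (.negSucc 3881249999)
(.sy (.ofNat 20500000)
(.sx (.negSucc 4278124999)
(.lf (.negSucc 359999999) 0)
(.lf (.negSucc 289999999) 0))
(.sx (.negSucc 4278124999)
(.lf (.negSucc 389999999) 0)
(.lf (.negSucc 319999999) 0)))
(.sy (.ofNat 20500000)
(.sx (.negSucc 3484374999)
(.lf (.negSucc 229999999) 0)
(.lf (.negSucc 169999999) 0))
(.sx (.negSucc 3484374999)
(.lf (.negSucc 259999999) 0)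
(.lf (.negSucc 199999999) 0)))))
(.sy (.negSucc 1113699999)
(.sx (.negSucc 2293749999)
(.sy (.negSucc 2247899999)
(.lf (.negSucc 19999999) 0)
(.sx (.negSucc 2690624999)
(.lf (.negSucc 79999999) 0)
(.lf (.negSucc 39999999) 0)))
(.sy (.negSucc 2247899999)
(.lf (.ofNat 40000000) 0)
(.sx (.negSucc 1896874999)
(.lf (.negSucc 9999999) 0)
(.lf (.ofNat 20000000) 0))))
(.sx (.negSucc 2293749999)
(.sy (.ofNat 20500000)
(.sx (.negSucc 2690624999)
(.lf (.negSucc 119999999) 0)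
(.lf (.negSucc 79999999) 0))
(.sx (.negSucc 2690624999)
(.lf (.negSucc 149999999) 0)
(.lf (.negSucc 99999999) 0)))
(.sy (.ofNat 20500000)
(.sx (.negSucc 1896874999)
(.sy (.negSucc 546599999)
(.lf (.negSucc 29999999) 0)
(.lf (.negSucc 49999999) 0))
(.sy (.negSucc 546599999)
(.lf (.negSucc 9999999) 0)
(.lf (.negSucc 19999999) 0)))
(.sx (.negSucc 1896874999)
(.lf (.negSucc 69999999) 0)
(.sy (.ofNat 587600000)
(.lf (.negSucc 29999999) 0)
(.lf (.negSucc 39999999) 0)))))))))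
(.sx (.negSucc 4674999999)
(.sy (.ofNat 5691500000)
(.sx (.negSucc 6262499999)
(.sx (.negSucc 7056249999)
(.sy (.ofNat 3423100000)
(.sx (.negSucc 7453124999)
(.sy (.ofNat 2288900000)
(.sx (.negSucc 7651562499)
(.lf (.negSucc 1189999999) 0)
(.lf (.negSucc 1139999999) 0))
(.sx (.negSucc 7651562499)
(.lf (.negSucc 1209999999) 0)
(.lf (.negSucc 1149999999) 0)))
(.sy (.ofNat 2288900000)
(.lf (.negSucc 1059999999) 0)
(.lf (.negSucc 1069999999) 0)))
(.sx (.negSucc 7453124999)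
(.sy (.ofNat 4557300000)
(.sx (.negSucc 7651562499)
(.lf (.negSucc 1209999999) 0)
(.lf (.negSucc 1159999999) 0))
(.lf (.negSucc 1179999999) 0))
(.sy (.ofNat 4557300000)
(.lf (.negSucc 1079999999) 0)
(.lf (.negSucc 1069999999) 0))))
(.sy (.ofNat 3423100000)
(.sx (.negSucc 6659374999)
(.sy (.ofNat 2288900000)
(.lf (.negSucc 949999999) 0)
(.lf (.negSucc 969999999) 0))
(.sy (.ofNat 2288900000)
(.lf (.negSucc 849999999) 0)
(.lf (.negSucc 869999999) 0)))
(.sx (.negSucc 6659374999)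
(.sy (.ofNat 4557300000)
(.lf (.negSucc 979999999) 0)
(.lf (.negSucc 969999999) 0))
(.sy (.ofNat 4557300000)
(.lf (.negSucc 869999999) 0)
(.lf (.negSucc 869999999) 0)))))
(.sy (.ofNat 3423100000)
(.sx (.negSucc 5468749999)
(.sx (.negSucc 5865624999)
(.sy (.ofNat 2288900000)
(.lf (.negSucc 759999999) 0)
(.lf (.negSucc 769999999) 0))
(.sy (.ofNat 2288900000)
(.lf (.negSucc 669999999) 0)
(.lf (.negSucc 679999999) 0)))
(.sx (.negSucc 5071874999)
(.sy (.ofNat 2288900000)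
(.lf (.negSucc 579999999) 0)
(.lf (.negSucc 589999999) 0))
(.sy (.ofNat 2288900000)
(.lf (.negSucc 489999999) 0)
(.lf (.negSucc 509999999) 0))))
(.sx (.negSucc 5468749999)
(.sx (.negSucc 5865624999)
(.lf (.negSucc 779999999) 0)
(.lf (.negSucc 679999999) 0))
(.sx (.negSucc 5071874999)
(.lf (.negSucc 599999999) 0)
(.lf (.negSucc 509999999) 0)))))
(.sx (.negSucc 6262499999)
(.sy (.ofNat 7959900000)
(.sx (.negSucc 7056249999)
(.sy (.ofNat 6825700000)
(.sx (.negSucc 7453124999)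
(.lf (.negSucc 1169999999) 0)
(.lf (.negSucc 1059999999) 0))
(.lf (.negSucc 1089999999) 0))
(.sy (.ofNat 6825700000)
(.lf (.negSucc 909999999) 0)
(.lf (.negSucc 899999999) 0)))
(.sx (.negSucc 7056249999)
(.lf (.negSucc 1059999999) 0)
(.lf (.negSucc 869999999) 0)))
(.sy (.ofNat 7959900000)
(.sx (.negSucc 5468749999)
(.lf (.negSucc 719999999) 0)
(.lf (.negSucc 549999999) 0))
(.sx (.negSucc 5468749999)
(.lf (.negSucc 699999999) 0)
(.lf (.negSucc 539999999) 0)))))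
(.sy (.ofNat 5691500000)
(.sx (.negSucc 3087499999)
(.sy (.ofNat 3423100000)
(.sx (.negSucc 3881249999)
(.sx (.negSucc 4278124999)
(.sy (.ofNat 2288900000)
(.lf (.negSucc 419999999) 0)
(.lf (.negSucc 429999999) 0))
(.sy (.ofNat 2288900000)
(.lf (.negSucc 339999999) 0)
(.lf (.negSucc 359999999) 0)))
(.sy (.ofNat 2288900000)
(.sx (.negSucc 3484374999)
(.lf (.negSucc 279999999) 0)
(.lf (.negSucc 219999999) 0))
(.lf (.negSucc 259999999) 0)))
(.sx (.negSucc 3881249999)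
(.sy (.ofNat 4557300000)
(.lf (.negSucc 399999999) 0)
(.lf (.negSucc 399999999) 0))
(.lf (.negSucc 269999999) 1)))
(.sy (.ofNat 3423100000)
(.sx (.negSucc 2293749999)
(.sy (.ofNat 2288900000)
(.sx (.negSucc 2690624999)
(.lf (.negSucc 169999999) 0)
(.lf (.negSucc 119999999) 0))
(.lf (.negSucc 159999999) 0))
(.sy (.ofNat 2288900000)
(.sx (.negSucc 1896874999)
(.lf (.negSucc 79999999) 0)
(.lf (.negSucc 59999999) 0))
(.lf (.negSucc 89999999) 0)))
(.sx (.negSucc 2293749999)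
(.lf (.negSucc 169999999) 0)
(.lf (.negSucc 109999999) 0))))
(.sx (.negSucc 3087499999)
(.sy (.ofNat 7959900000)
(.sx (.negSucc 3881249999)
(.lf (.negSucc 399999999) 0)
(.lf (.negSucc 279999999) 0))
(.lf (.negSucc 349999999) 0))
(.sy (.ofNat 7959900000)
(.lf (.negSucc 159999999) 1)
(.lf (.negSucc 209999999) 0))))))

theorem run_tr31_1N : Tr.run 1 2 (T31.C.mdA 1500) (T31.K1.shA (w2n 1500 249332752 17391)) R31 (.ofNat 1500000000) tr31_1N (.negSucc 7849999999) (.negSucc 1499999999) (.negSucc 7918899999) (.ofNat 10228300000)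
    (-100000000000) 100000000000 = true := by decide +kernel

/-- tree -/
def br31 : Tr :=
(.lf (.ofNat 0) 0)

theorem run_br31 : Tr.runB T31.C T31.K0 (D31.bt * 1500 / 10000 + 1) R31.om br31 (-D31.m) D31.M D31.ylo D31.yhi
    (-R31.bl) R31.bh = true := by decide +kernel

end Pool.Agent.Helper30.DL
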