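import Pool.Agent.Helper30.DL.Run.C3

/-! MP_b4564f_an, all delays. Cell 3: kernel computations (generated). -/

set_option autoImplicit false
set_option maxRecDepth 100000

namespace Pool.Agent.Helper30.DL

/-- tree -/
def tr3_0A : Tr :=
(.sy (.ofNat 0)
(.sy (.negSucc 4999999999)
(.sy (.negSucc 7499999999)
(.lf (.negSucc 39999999) 0)
(.lf (.negSucc 79999999) 0))
(.sy (.negSucc 2499999999)
(.lf (.negSucc 119999999) 0)
(.lf (.negSucc 169999999) 0)))
(.sy (.ofNat 5000000000)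
(.sy (.ofNat 2500000000)
(.lf (.negSucc 219999999) 0)
(.lf (.negSucc 269999999) 0))
(.sy (.ofNat 7500000000)
(.sx (.ofNat 2500000000)
(.lf (.negSucc 299999999) 0)
(.lf (.negSucc 309999999) 0))
(.sx (.ofNat 2500000000)
(.lf (.negSucc 319999999) 0)
(.lf (.negSucc 339999999) 0)))))

theorem run_tr3_0A : Tr.run 0 0 T3.C T3.K0 R3 (.ofNat 5000000000) tr3_0A (.ofNat 0) (.ofNat 5000000000) (.negSucc 9999999999) (.ofNat 10000000000)
    (-100000000000) 100000000000 = true := by decide +kernel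

/-- tree -/
def tr3_0AA : Tr :=
(.sy (.ofNat 0)
(.sy (.negSucc 4999999999)
(.sy (.negSucc 7499999999)
(.lf (.negSucc 439999999) 0)
(.lf (.negSucc 409999999) 0))
(.sy (.negSucc 2499999999)
(.lf (.negSucc 369999999) 0)
(.lf (.negSucc 329999999) 0)))
(.sy (.ofNat 5000000000)
(.sy (.ofNat 2500000000)
(.lf (.negSucc 289999999) 0)
(.lf (.negSucc 229999999) 0))
(.sy (.ofNat 7500000000)
(.sx (.negSucc 2499999999)
(.lf (.negSucc 99999999) 0)
(.lf (.negSucc 209999999) 0))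
(.sx (.negSucc 2499999999)
(.lf (.ofNat 20000000) 0)
(.lf (.negSucc 179999999) 0)))))

theorem run_tr3_0AA : Tr.run 0 0 T3.C T3.K0 R3 (.ofNat 5000000000) tr3_0AA (.negSucc 4999999999) (.ofNat 0) (.negSucc 9999999999) (.ofNat 10000000000)
    (-100000000000) 100000000000 = true := by decide +kernel

/-- tree -/
def tr3_0B : Tr :=
(.sy (.ofNat 0)
(.sx (.ofNat 6841700000)
(.sy (.negSucc 4999999999)
(.sy (.negSucc 7499999999)
(.sx (.ofNat 3420850000)
(.sy (.negSucc 8749999999)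
(.lf (.negSucc 339999999) 0)
(.lf (.negSucc 249999999) 0))
(.sy (.negSucc 8749999999)
(.lf (.negSucc 499999999) 0)
(.lf (.negSucc 379999999) 0)))
(.sx (.ofNat 3420850000)
(.lf (.negSucc 139999999) 0)
(.sy (.negSucc 6249999999)
(.lf (.negSucc 269999999) 0)
(.lf (.negSucc 169999999) 0))))
(.sx (.ofNat 3420850000)
(.sy (.negSucc 2499999999)
(.lf (.negSucc 49999999) 0)
(.lf (.ofNat 0) 0))
(.sy (.negSucc 2499999999)
(.lf (.negSucc 69999999) 0)
(.lf (.ofNat 0) 0))))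
(.sy (.negSucc 7308125173)
.ou
(.sy (.negSucc 3654062586)
(.sx (.ofNat 10262550000)
(.sy (.negSucc 5481093880)
(.lf (.negSucc 279999999) 0)
(.lf (.negSucc 149999999) 0))
(.sy (.negSucc 4872083449)
.ou
(.lf (.negSucc 169999999) 0)))
(.sx (.ofNat 10262550000)
(.sy (.negSucc 1827031293)
(.lf (.negSucc 59999999) 0)
(.lf (.negSucc 9999999) 0))
(.sy (.negSucc 1827031293)
(.lf (.negSucc 89999999) 0)
(.lf (.negSucc 19999999) 0))))))
(.sx (.ofNat 6841700000)
(.sy (.ofNat 5000000000)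
(.sx (.ofNat 3420850000)
(.sy (.ofNat 2500000000)
(.lf (.negSucc 9999999) 0)
(.lf (.negSucc 59999999) 0))
(.sy (.ofNat 2500000000)
(.lf (.ofNat 0) 0)
(.lf (.negSucc 59999999) 0)))
(.sx (.ofNat 3420850000)
(.sy (.ofNat 7500000000)
(.sy (.ofNat 6250000000)
(.lf (.negSucc 119999999) 0)
(.lf (.negSucc 179999999) 0))
(.sy (.ofNat 8750000000)
(.lf (.negSucc 249999999) 0)
(.lf (.negSucc 319999999) 0)))
(.sy (.ofNat 7500000000)
(.sx (.ofNat 5131275000)
(.lf (.negSucc 159999999) 0)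
(.sy (.ofNat 6250000000)
(.lf (.negSucc 79999999) 0)
(.lf (.negSucc 89999999) 0)))
(.sx (.ofNat 5131275000)
(.sy (.ofNat 8750000000)
(.lf (.negSucc 239999999) 0)
(.lf (.negSucc 279999999) 0))
(.sy (.ofNat 9744166899)
(.lf (.negSucc 59999999) 1)
.ou)))))
(.sy (.ofNat 7308125174)
(.sy (.ofNat 3654062587)
(.sx (.ofNat 10262550000)
(.sy (.ofNat 1827031293)
(.lf (.ofNat 10000000) 0)
(.lf (.ofNat 20000000) 0))
(.sy (.ofNat 1827031293)
(.lf (.ofNat 30000000) 0)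
(.lf (.ofNat 130000000) 0)))
(.sx (.ofNat 10262550000)
(.sy (.ofNat 5481093880)
(.lf (.ofNat 60000000) 0)
(.sx (.ofNat 8552125000)
(.lf (.ofNat 80000000) 0)
(.sy (.ofNat 5846500139)
(.lf (.ofNat 240000000) 0)
.ou)))
(.sy (.ofNat 4872083450)
(.lf (.ofNat 320000000) 0)
.ou)))
.ou)))

theorem run_tr3_0B : Tr.run 0 1 T3.C T3.K0 R3 (.ofNat 5000000000) tr3_0B (.ofNat 0) (.ofNat 13683400000) (.negSucc 9999999999) (.ofNat 10000000000)
    (-100000000000) 100000000000 = true := by decide +kernel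

/-- tree -/
def tr3_0BB : Tr :=
(.sy (.ofNat 0)
(.sx (.negSucc 5877999999)
(.sy (.negSucc 8506294658)
.ou
(.sy (.negSucc 4253147329)
(.sy (.negSucc 6379720994)
(.sx (.negSucc 8816999999)
.ou
(.lf (.ofNat 90000000) 0))
(.sx (.negSucc 8816999999)
(.sy (.negSucc 5670863105)
.ou
(.lf (.negSucc 39999999) 0))
(.lf (.negSucc 9999999) 0)))
(.sx (.negSucc 8816999999)
(.sy (.negSucc 2126573664)
(.lf (.negSucc 89999999) 0)
(.lf (.negSucc 69999999) 0))
(.sy (.negSucc 2126573664)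
(.lf (.negSucc 59999999) 0)
(.lf (.negSucc 39999999) 0)))))
(.sy (.negSucc 4999999999)
(.sy (.negSucc 7499999999)
(.sx (.negSucc 2938999999)
(.sy (.negSucc 8749999999)
(.lf (.ofNat 100000000) 0)
(.lf (.ofNat 50000000) 0))
(.lf (.negSucc 99999999) 0))
(.sx (.negSucc 2938999999)
(.lf (.ofNat 0) 0)
(.lf (.negSucc 59999999) 0)))
(.sx (.negSucc 2938999999)
(.sy (.negSucc 2499999999)
(.lf (.negSucc 29999999) 0)
(.lf (.negSucc 19999999) 0))
(.sy (.negSucc 2499999999)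
(.lf (.negSucc 29999999) 0)
(.lf (.negSucc 9999999) 0)))))
(.sx (.negSucc 5877999999)
(.sy (.ofNat 8506294659)
(.sy (.ofNat 4253147329)
(.sx (.negSucc 8816999999)
(.sy (.ofNat 2126573664)
(.lf (.ofNat 40000000) 0)
(.lf (.ofNat 230000000) 0))
(.sy (.ofNat 2126573664)
(.lf (.ofNat 20000000) 0)
(.lf (.ofNat 130000000) 0)))
(.sx (.negSucc 8816999999)
(.sy (.ofNat 5670863106)
(.lf (.ofNat 440000000) 0)
.ou)
(.sy (.ofNat 6379720994)
(.lf (.ofNat 250000000) 0)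
(.sx (.negSucc 7347499999)
(.sy (.ofNat 6805035727)
(.lf (.ofNat 400000000) 0)
.ou)
(.lf (.ofNat 320000000) 0)))))
.ou)
(.sy (.ofNat 5000000000)
(.sx (.negSucc 2938999999)
(.sy (.ofNat 2500000000)
(.lf (.ofNat 10000000) 0)
(.lf (.ofNat 60000000) 0))
(.sy (.ofNat 2500000000)
(.lf (.ofNat 0) 0)
(.lf (.negSucc 9999999) 0)))
(.sx (.negSucc 2938999999)
(.sy (.ofNat 7500000000)
(.sx (.negSucc 4408499999)
(.lf (.ofNat 160000000) 0)
(.lf (.ofNat 70000000) 0))
(.sx (.negSucc 4408499999)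
(.lf (.ofNat 230000000) 0)
(.lf (.ofNat 90000000) 0)))
(.sy (.ofNat 7500000000)
(.lf (.negSucc 39999999) 0)
(.sy (.ofNat 8750000000)
(.lf (.negSucc 79999999) 0)
(.lf (.negSucc 109999999) 0)))))))

theorem run_tr3_0BB : Tr.run 0 1 T3.C T3.K0 R3 (.ofNat 5000000000) tr3_0BB (.negSucc 11755999999) (.ofNat 0) (.negSucc 9999999999) (.ofNat 10000000000)
    (-100000000000) 100000000000 = true := by decide +kernel

/-- tree -/
def tr3_0P : Tr :=
(.sy (.ofNat 963700000)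
(.sy (.negSucc 5396149999)
(.sy (.negSucc 8576074999)
(.sx (.ofNat 6250000000)
(.sy (.negSucc 10166037499)
(.lf (.negSucc 59999999) 0)
(.lf (.ofNat 10000000) 0))
(.sy (.negSucc 10166037499)
(.lf (.ofNat 0) 0)
(.lf (.ofNat 70000000) 0)))
(.sx (.ofNat 6250000000)
(.sy (.negSucc 6986112499)
(.lf (.ofNat 50000000) 0)
(.sx (.ofNat 5625000000)
(.lf (.ofNat 50000000) 0)
(.lf (.ofNat 70000000) 0)))
(.sy (.negSucc 6986112499)
(.lf (.ofNat 110000000) 0)
(.sx (.ofNat 6875000000)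
(.lf (.ofNat 100000000) 0)
(.lf (.ofNat 120000000) 0)))))
(.sy (.negSucc 2216224999)
(.sx (.ofNat 6250000000)
(.sy (.negSucc 3806187499)
(.sx (.ofNat 5625000000)
(.lf (.ofNat 50000000) 0)
(.lf (.ofNat 60000000) 0))
(.sx (.ofNat 5625000000)
(.lf (.ofNat 30000000) 0)
(.lf (.ofNat 30000000) 0)))
(.sy (.negSucc 3806187499)
(.sx (.ofNat 6875000000)
(.lf (.ofNat 80000000) 0)
(.lf (.ofNat 90000000) 0))
(.sx (.ofNat 6875000000)
(.lf (.ofNat 40000000) 0)
(.lf (.ofNat 40000000) 0))))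
(.sx (.ofNat 6250000000)
(.sy (.negSucc 626262499)
(.sx (.ofNat 5625000000)
(.lf (.ofNat 0) 0)
(.lf (.ofNat 0) 0))
(.sx (.ofNat 5625000000)
(.lf (.negSucc 39999999) 0)
(.lf (.negSucc 39999999) 0)))
(.sy (.negSucc 626262499)
(.sx (.ofNat 6875000000)
(.lf (.ofNat 0) 0)
(.lf (.negSucc 9999999) 0))
(.sx (.ofNat 6875000000)
(.lf (.negSucc 49999999) 0)
(.lf (.negSucc 49999999) 0))))))
(.sy (.ofNat 7323550000)
(.sy (.ofNat 4143625000)
(.sx (.ofNat 6250000000)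
(.sy (.ofNat 2553662500)
(.sx (.ofNat 5625000000)
(.lf (.negSucc 59999999) 0)
(.lf (.negSucc 69999999) 0))
(.sx (.ofNat 5625000000)
(.lf (.negSucc 69999999) 0)
(.lf (.negSucc 69999999) 0)))
(.sy (.ofNat 2553662500)
(.sx (.ofNat 6875000000)
(.lf (.negSucc 69999999) 0)
(.lf (.negSucc 69999999) 0))
(.sx (.ofNat 6875000000)
(.lf (.negSucc 59999999) 0)
(.lf (.negSucc 49999999) 0))))
(.sx (.ofNat 6250000000)
(.sy (.ofNat 5733587500)
(.sx (.ofNat 5625000000)
(.lf (.negSucc 49999999) 0)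
(.lf (.negSucc 39999999) 0))
(.lf (.ofNat 20000000) 0))
(.sy (.ofNat 5733587500)
(.sx (.ofNat 6875000000)
(.lf (.negSucc 9999999) 0)
(.lf (.ofNat 20000000) 0))
(.lf (.ofNat 120000000) 0))))
(.sy (.ofNat 10503475000)
(.sx (.ofNat 6250000000)
(.sy (.ofNat 8913512500)
(.lf (.ofNat 130000000) 0)
(.lf (.ofNat 280000000) 0))
(.sy (.ofNat 8913512500)
(.lf (.ofNat 290000000) 0)
(.lf (.ofNat 520000000) 0)))
(.sx (.ofNat 6250000000)
(.lf (.ofNat 590000000) 0)
(.lf (.ofNat 940000000) 0)))))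

theorem run_tr3_0P : Tr.run 0 2 T3.C T3.K0 R3 (.ofNat 5000000000) tr3_0P (.ofNat 5000000000) (.ofNat 7500000000) (.negSucc 11755999999) (.ofNat 13683400000)
    (-100000000000) 100000000000 = true := by decide +kernel

/-- tree -/
def tr3_0N : Tr :=
(.sy (.ofNat 963700000)
(.sy (.negSucc 5396149999)
(.sx (.negSucc 7499999999)
(.sy (.negSucc 8576074999)
(.sy (.negSucc 10166037499)
(.sx (.negSucc 8749999999)
(.lf (.ofNat 1560000000) 0)
(.lf (.ofNat 1160000000) 0))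
(.sx (.negSucc 8749999999)
(.lf (.ofNat 940000000) 0)
(.lf (.ofNat 730000000) 0)))
(.sy (.negSucc 6986112499)
(.sx (.negSucc 8749999999)
(.lf (.ofNat 540000000) 0)
(.lf (.ofNat 430000000) 0))
(.sx (.negSucc 8749999999)
(.lf (.ofNat 260000000) 0)
(.lf (.ofNat 210000000) 0))))
(.sy (.negSucc 8576074999)
(.sy (.negSucc 10166037499)
(.sx (.negSucc 6249999999)
(.lf (.ofNat 860000000) 0)
(.lf (.ofNat 630000000) 0))
(.sx (.negSucc 6249999999)
(.lf (.ofNat 560000000) 0)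
(.lf (.ofNat 420000000) 0)))
(.sx (.negSucc 6249999999)
(.sy (.negSucc 6986112499)
(.lf (.ofNat 340000000) 0)
(.sy (.negSucc 6191131249)
(.lf (.ofNat 210000000) 0)
(.lf (.ofNat 140000000) 0)))
(.sy (.negSucc 6986112499)
(.lf (.ofNat 260000000) 0)
(.sy (.negSucc 6191131249)
(.lf (.ofNat 160000000) 0)
(.lf (.ofNat 110000000) 0))))))
(.sx (.negSucc 7499999999)
(.sy (.negSucc 2216224999)
(.sx (.negSucc 8749999999)
(.sy (.negSucc 3806187499)
(.lf (.ofNat 60000000) 0)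
(.sy (.negSucc 3011206249)
(.lf (.negSucc 59999999) 0)
(.lf (.negSucc 119999999) 0)))
(.sy (.negSucc 3806187499)
(.sy (.negSucc 4601168749)
(.lf (.ofNat 90000000) 0)
(.lf (.ofNat 20000000) 0))
(.sx (.negSucc 8124999999)
(.lf (.negSucc 79999999) 0)
(.lf (.negSucc 59999999) 0))))
(.sx (.negSucc 8749999999)
(.sy (.negSucc 626262499)
(.sx (.negSucc 9374999999)
(.lf (.negSucc 219999999) 0)
(.lf (.negSucc 189999999) 0))
(.lf (.negSucc 289999999) 0))
(.sy (.negSucc 626262499)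
(.sx (.negSucc 8124999999)
(.lf (.negSucc 169999999) 0)
(.lf (.negSucc 149999999) 0))
(.sx (.negSucc 8124999999)
(.lf (.negSucc 249999999) 0)
(.lf (.negSucc 209999999) 0)))))
(.sy (.negSucc 2216224999)
(.sx (.negSucc 6249999999)
(.sy (.negSucc 3806187499)
(.sy (.negSucc 4601168749)
(.lf (.ofNat 80000000) 0)
(.lf (.ofNat 20000000) 0))
(.sx (.negSucc 6874999999)
(.lf (.negSucc 49999999) 0)
(.lf (.negSucc 39999999) 0)))
(.sy (.negSucc 3806187499)
(.sx (.negSucc 5624999999)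
(.lf (.ofNat 50000000) 0)
(.lf (.ofNat 40000000) 0))
(.sx (.negSucc 5624999999)
(.lf (.negSucc 29999999) 0)
(.sy (.negSucc 3011206249)
(.lf (.ofNat 0) 0)
(.lf (.negSucc 29999999) 0)))))
(.sx (.negSucc 6249999999)
(.sy (.negSucc 626262499)
(.sx (.negSucc 6874999999)
(.lf (.negSucc 129999999) 0)
(.lf (.negSucc 99999999) 0))
(.sx (.negSucc 6874999999)
(.lf (.negSucc 179999999) 0)
(.lf (.negSucc 149999999) 0)))
(.sy (.negSucc 626262499)
(.sx (.negSucc 5624999999)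
(.lf (.negSucc 79999999) 0)
(.lf (.negSucc 69999999) 0))
(.sx (.negSucc 5624999999)
(.lf (.negSucc 129999999) 0)
(.lf (.negSucc 99999999) 0)))))))
(.sy (.ofNat 7323550000)
(.sx (.negSucc 7499999999)
(.sy (.ofNat 4143625000)
(.sx (.negSucc 8749999999)
(.sy (.ofNat 2553662500)
(.lf (.negSucc 359999999) 0)
(.lf (.negSucc 409999999) 0))
(.sy (.ofNat 2553662500)
(.sx (.negSucc 8124999999)
(.lf (.negSucc 299999999) 0)
(.lf (.negSucc 259999999) 0))
(.lf (.negSucc 319999999) 0)))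
(.sx (.negSucc 8749999999)
(.sy (.ofNat 5733587500)
(.lf (.negSucc 449999999) 0)
(.lf (.negSucc 479999999) 0))
(.sy (.ofNat 5733587500)
(.lf (.negSucc 349999999) 0)
(.lf (.negSucc 379999999) 0))))
(.sy (.ofNat 4143625000)
(.sx (.negSucc 6249999999)
(.sy (.ofNat 2553662500)
(.sx (.negSucc 6874999999)
(.lf (.negSucc 229999999) 0)
(.lf (.negSucc 189999999) 0))
(.sx (.negSucc 6874999999)
(.lf (.negSucc 259999999) 0)
(.lf (.negSucc 219999999) 0)))
(.sy (.ofNat 2553662500)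
(.sx (.negSucc 5624999999)
(.lf (.negSucc 159999999) 0)
(.lf (.negSucc 129999999) 0))
(.sx (.negSucc 5624999999)
(.lf (.negSucc 179999999) 0)
(.lf (.negSucc 139999999) 0))))
(.sx (.negSucc 6249999999)
(.sy (.ofNat 5733587500)
(.lf (.negSucc 259999999) 0)
(.lf (.negSucc 279999999) 0))
(.sy (.ofNat 5733587500)
(.sx (.negSucc 5624999999)
(.lf (.negSucc 199999999) 0)
(.lf (.negSucc 159999999) 0))
(.lf (.negSucc 189999999) 0)))))
(.sx (.negSucc 7499999999)
(.sy (.ofNat 10503475000)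
(.sx (.negSucc 8749999999)
(.lf (.negSucc 519999999) 0)
(.sy (.ofNat 8913512500)
(.lf (.negSucc 409999999) 0)
(.lf (.negSucc 429999999) 0)))
(.sx (.negSucc 8749999999)
(.lf (.negSucc 589999999) 0)
(.lf (.negSucc 489999999) 0)))
(.sy (.ofNat 10503475000)
(.sx (.negSucc 6249999999)
(.sy (.ofNat 8913512500)
(.lf (.negSucc 309999999) 0)
(.lf (.negSucc 329999999) 0))
(.sy (.ofNat 8913512500)
(.lf (.negSucc 209999999) 0)
(.lf (.negSucc 229999999) 0)))
(.sx (.negSucc 6249999999)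
(.lf (.negSucc 379999999) 0)
(.lf (.negSucc 279999999) 0))))))

theorem run_tr3_0N : Tr.run 0 2 T3.C T3.K0 R3 (.ofNat 5000000000) tr3_0N (.negSucc 9999999999) (.negSucc 4999999999) (.negSucc 11755999999) (.ofNat 13683400000)
    (-100000000000) 100000000000 = true := by decide +kernel

end Pool.Agent.Helper30.DL
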