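import Pool.Agent.Helper30.DL.Run.C3

/-! MP_b4564f_an, all delays. Cell 3: kernel computations (generated). -/

set_option autoImplicit false
set_option maxRecDepth 100000

namespace Pool.Agent.Helper30.DL

/-- tree -/
def tr3_1A : Tr :=
(.sy (.ofNat 0)
(.sy (.negSucc 4999999999)
(.sy (.negSucc 7499999999)
(.sx (.ofNat 1750000000)
(.lf (.negSucc 5109999999) 0)
(.lf (.negSucc 1849999999) 0))
(.sx (.ofNat 1750000000)
(.lf (.negSucc 6389999999) 0)
(.lf (.negSucc 2449999999) 0)))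
(.sx (.ofNat 1750000000)
(.sx (.ofNat 875000000)
(.sx (.ofNat 437500000)
(.lf (.ofNat 0) 0)
(.lf (.negSucc 10769999999) 0))
(.lf (.negSucc 5879999999) 0))
(.sy (.negSucc 2499999999)
(.lf (.negSucc 3059999999) 0)
(.lf (.negSucc 3689999999) 0))))
(.sy (.ofNat 5000000000)
(.sx (.ofNat 1750000000)
(.sx (.ofNat 875000000)
(.sx (.ofNat 437500000)
(.lf (.ofNat 0) 0)
(.lf (.negSucc 14109999999) 0))
(.lf (.negSucc 7789999999) 0))
(.sy (.ofNat 2500000000)
(.sx (.ofNat 2625000000)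
(.lf (.negSucc 4929999999) 0)
(.lf (.negSucc 3899999999) 0))
(.sx (.ofNat 2625000000)
(.lf (.negSucc 5629999999) 0)
(.lf (.negSucc 4509999999) 0))))
(.sx (.ofNat 1750000000)
(.sx (.ofNat 875000000)
(.sx (.ofNat 437500000)
(.lf (.ofNat 0) 0)
(.lf (.negSucc 17479999999) 0))
(.lf (.negSucc 9739999999) 0))
(.sy (.ofNat 7500000000)
(.sx (.ofNat 2625000000)
(.lf (.negSucc 6349999999) 0)
(.lf (.negSucc 5129999999) 0))
(.sx (.ofNat 2625000000)
(.lf (.negSucc 7059999999) 0)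
(.lf (.negSucc 5739999999) 0))))))

theorem run_tr3_1A : Tr.run 1 0 (T3.C.mdA 2000) (T3.K1.shA (w2n 2000 2243994754 22182)) R3 (.ofNat 3500000000) tr3_1A (.ofNat 0) (.ofNat 3500000000) (.negSucc 9999999999) (.ofNat 10000000000)
    (-100000000000) 100000000000 = true := by decide +kernel

/-- tree -/
def tr3_1AA : Tr :=
(.sy (.ofNat 0)
(.sy (.negSucc 4999999999)
(.sy (.negSucc 7499999999)
(.sx (.negSucc 1749999999)
(.lf (.ofNat 660000000) 0)
(.lf (.ofNat 3780000000) 0))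
(.sx (.negSucc 1749999999)
(.lf (.ofNat 920000000) 0)
(.lf (.ofNat 4750000000) 0)))
(.sx (.negSucc 1749999999)
(.lf (.ofNat 1320000000) 0)
(.sx (.negSucc 874999999)
(.lf (.ofNat 3760000000) 0)
(.lf (.ofNat 13510000000) 0))))
(.sy (.ofNat 5000000000)
(.sx (.negSucc 1749999999)
(.sy (.ofNat 2500000000)
(.lf (.ofNat 1720000000) 0)
(.lf (.ofNat 1990000000) 0))
(.sx (.negSucc 874999999)
(.lf (.ofNat 4970000000) 0)
(.sx (.negSucc 437499999)
(.lf (.ofNat 11280000000) 0)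
(.lf (.ofNat 0) 0))))
(.sx (.negSucc 1749999999)
(.sy (.ofNat 7500000000)
(.lf (.ofNat 2260000000) 0)
(.lf (.ofNat 2530000000) 0))
(.sx (.negSucc 874999999)
(.lf (.ofNat 6160000000) 0)
(.sx (.negSucc 437499999)
(.lf (.ofNat 13900000000) 0)
(.lf (.ofNat 0) 0))))))

theorem run_tr3_1AA : Tr.run 1 0 (T3.C.mdA 2000) (T3.K1.shA (w2n 2000 2243994754 22182)) R3 (.ofNat 3500000000) tr3_1AA (.negSucc 3499999999) (.ofNat 0) (.negSucc 9999999999) (.ofNat 10000000000)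
    (-100000000000) 100000000000 = true := by decide +kernel

/-- tree -/
def tr3_1B : Tr :=
(.sy (.ofNat 0)
(.sx (.ofNat 6841700000)
(.sy (.negSucc 4999999999)
(.sx (.ofNat 3420850000)
(.sy (.negSucc 7499999999)
(.sx (.ofNat 1710425000)
(.lf (.ofNat 2540000000) 0)
(.lf (.ofNat 440000000) 0))
(.lf (.ofNat 260000000) 0))
(.sy (.negSucc 7499999999)
(.sx (.ofNat 5131275000)
(.sy (.negSucc 8749999999)
(.lf (.negSucc 29999999) 0)
(.lf (.negSucc 19999999) 0))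
.ou)
(.sx (.ofNat 5131275000)
(.lf (.negSucc 69999999) 0)
(.sy (.negSucc 6820916828)
.ou
(.lf (.negSucc 149999999) 0)))))
(.sx (.ofNat 3420850000)
(.sy (.negSucc 2499999999)
(.lf (.negSucc 629999999) 0)
(.lf (.negSucc 1709999999) 0))
(.sy (.negSucc 2499999999)
(.lf (.negSucc 239999999) 0)
(.lf (.negSucc 559999999) 0))))
(.sy (.negSucc 5115687621)
.ou
(.sx (.ofNat 10262550000)
(.sy (.negSucc 2557843810)
(.sx (.ofNat 8552125000)
(.lf (.negSucc 199999999) 0)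
(.sy (.negSucc 4092550097)
.ou
(.lf (.negSucc 209999999) 0)))
(.lf (.negSucc 339999999) 0))
(.sy (.negSucc 3410458414)
.ou
(.sy (.negSucc 1705229207)
(.lf (.negSucc 209999999) 0)
(.lf (.negSucc 289999999) 0))))))
(.sx (.ofNat 6841700000)
(.sy (.ofNat 5000000000)
(.sx (.ofNat 3420850000)
(.sx (.ofNat 1710425000)
(.sy (.ofNat 2500000000)
(.lf (.negSucc 5749999999) 0)
(.sx (.ofNat 855212500)
(.lf (.negSucc 15979999999) 0)
(.lf (.negSucc 5679999999) 0)))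
(.sy (.ofNat 2500000000)
(.lf (.negSucc 2029999999) 0)
(.lf (.negSucc 3119999999) 0)))
(.sy (.ofNat 2500000000)
(.lf (.negSucc 1099999999) 0)
(.sx (.ofNat 5131275000)
(.lf (.negSucc 2109999999) 0)
(.lf (.negSucc 1659999999) 0))))
(.sx (.ofNat 3420850000)
(.sx (.ofNat 1710425000)
(.sx (.ofNat 855212500)
(.sx (.ofNat 427606250)
(.lf (.ofNat 0) 0)
(.lf (.negSucc 15939999999) 0))
(.sy (.ofNat 7500000000)
(.lf (.negSucc 7639999999) 0)
(.lf (.negSucc 9779999999) 0)))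
(.sy (.ofNat 7500000000)
(.sx (.ofNat 2565637500)
(.lf (.negSucc 5049999999) 0)
(.lf (.negSucc 3959999999) 0))
(.sx (.ofNat 2565637500)
(.lf (.negSucc 6659999999) 0)
(.lf (.negSucc 5359999999) 0))))
(.sy (.ofNat 7500000000)
(.sx (.ofNat 5131275000)
(.sy (.ofNat 6250000000)
(.lf (.negSucc 2869999999) 0)
(.lf (.negSucc 3439999999) 0))
(.sy (.ofNat 6820916829)
(.sy (.ofNat 5910458414)
(.lf (.negSucc 2249999999) 0)
(.lf (.negSucc 2579999999) 0))
.ou))
(.sx (.ofNat 5131275000)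
(.sy (.ofNat 8750000000)
(.sx (.ofNat 4276062500)
(.lf (.negSucc 4299999999) 0)
(.sy (.ofNat 8185100195)
(.lf (.negSucc 3689999999) 0)
.ou))
(.sx (.ofNat 4276062500)
(.lf (.negSucc 4969999999) 0)
.ou))
.ou))))
(.sy (.ofNat 5115687622)
(.sx (.ofNat 10262550000)
(.sy (.ofNat 2557843811)
(.lf (.negSucc 709999999) 0)
(.sx (.ofNat 8552125000)
(.sy (.ofNat 3836765716)
(.lf (.negSucc 1219999999) 0)
(.lf (.negSucc 1559999999) 0))
(.sy (.ofNat 4092550098)
(.lf (.negSucc 1019999999) 0)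
.ou)))
(.sy (.ofNat 3410458415)
(.sx (.ofNat 11972975000)
(.sy (.ofNat 1705229207)
(.lf (.negSucc 489999999) 0)
(.lf (.negSucc 699999999) 0))
(.sy (.ofNat 2923250070)
(.lf (.negSucc 459999999) 0)
.ou))
.ou))
.ou)))

theorem run_tr3_1B : Tr.run 1 1 (T3.C.mdA 2000) (T3.K1.shA (w2n 2000 2243994754 22182)) R3 (.ofNat 3500000000) tr3_1B (.ofNat 0) (.ofNat 13683400000) (.negSucc 9999999999) (.ofNat 10000000000)
    (-100000000000) 100000000000 = true := by decide +kernel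

/-- tree -/
def tr3_1BB : Tr :=
(.sy (.ofNat 0)
(.sx (.negSucc 5877999999)
(.sy (.negSucc 5954406260)
.ou
(.sy (.negSucc 2977203130)
(.sx (.negSucc 8816999999)
(.sy (.negSucc 3969604173)
.ou
(.lf (.ofNat 190000000) 0))
(.sy (.negSucc 4465804695)
(.lf (.ofNat 150000000) 0)
(.lf (.ofNat 240000000) 0)))
(.sx (.negSucc 8816999999)
(.lf (.ofNat 260000000) 0)
(.lf (.ofNat 380000000) 0))))
(.sy (.negSucc 4999999999)
(.sx (.negSucc 2938999999)
(.sy (.negSucc 7499999999)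
(.sx (.negSucc 4408499999)
(.sy (.negSucc 7939208347)
.ou
(.lf (.negSucc 209999999) 0))
(.lf (.negSucc 709999999) 0))
(.lf (.negSucc 79999999) 0))
(.sy (.negSucc 7499999999)
(.sx (.negSucc 1469499999)
(.lf (.negSucc 1349999999) 0)
(.lf (.negSucc 3819999999) 0))
(.lf (.negSucc 539999999) 0)))
(.sx (.negSucc 2938999999)
(.sy (.negSucc 2499999999)
(.lf (.ofNat 330000000) 0)
(.lf (.ofNat 680000000) 0))
(.sy (.negSucc 2499999999)
(.lf (.ofNat 810000000) 0)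
(.lf (.ofNat 2020000000) 0)))))
(.sx (.negSucc 5877999999)
(.sy (.ofNat 5954406261)
(.sy (.ofNat 2977203130)
(.sx (.negSucc 8816999999)
(.sy (.ofNat 1488601565)
(.lf (.ofNat 360000000) 0)
(.lf (.ofNat 430000000) 0))
(.lf (.ofNat 560000000) 0))
(.sx (.negSucc 8816999999)
(.sy (.ofNat 3969604174)
(.lf (.ofNat 470000000) 0)
.ou)
(.sy (.ofNat 4465804695)
(.lf (.ofNat 630000000) 0)
(.lf (.ofNat 650000000) 0))))
.ou)
(.sy (.ofNat 5000000000)
(.sx (.negSucc 2938999999)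
(.sy (.ofNat 2500000000)
(.lf (.ofNat 960000000) 0)
(.sx (.negSucc 4408499999)
(.lf (.ofNat 950000000) 0)
(.lf (.ofNat 1420000000) 0)))
(.sx (.negSucc 1469499999)
(.sy (.ofNat 2500000000)
(.lf (.ofNat 2030000000) 0)
(.lf (.ofNat 2580000000) 0))
(.sy (.ofNat 2500000000)
(.lf (.ofNat 6360000000) 0)
(.lf (.ofNat 8550000000) 0))))
(.sx (.negSucc 2938999999)
(.sy (.ofNat 7500000000)
(.sx (.negSucc 4408499999)
(.lf (.ofNat 1000000000) 0)
(.lf (.ofNat 1570000000) 0))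
(.sx (.negSucc 4408499999)
(.sy (.ofNat 7939208348)
(.lf (.ofNat 980000000) 0)
.ou)
(.lf (.ofNat 1610000000) 0)))
(.sx (.negSucc 1469499999)
(.sy (.ofNat 7500000000)
(.lf (.ofNat 3010000000) 0)
(.lf (.ofNat 3320000000) 0))
(.sx (.negSucc 734749999)
(.sy (.ofNat 7500000000)
(.lf (.ofNat 6780000000) 0)
(.lf (.ofNat 7870000000) 0))
(.sx (.negSucc 367374999)
(.lf (.ofNat 15800000000) 0)
(.lf (.ofNat 0) 0))))))))

theorem run_tr3_1BB : Tr.run 1 1 (T3.C.mdA 2000) (T3.K1.shA (w2n 2000 2243994754 22182)) R3 (.ofNat 3500000000) tr3_1BB (.negSucc 11755999999) (.ofNat 0) (.negSucc 9999999999) (.ofNat 10000000000)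
    (-100000000000) 100000000000 = true := by decide +kernel

/-- tree -/
def tr3_1P : Tr :=
(.sy (.ofNat 963700000)
(.sy (.negSucc 5396149999)
(.sy (.negSucc 8576074999)
(.sx (.ofNat 5500000000)
(.lf (.ofNat 180000000) 0)
(.lf (.ofNat 210000000) 0))
(.sx (.ofNat 5500000000)
(.sy (.negSucc 6986112499)
(.lf (.ofNat 80000000) 0)
(.lf (.negSucc 9999999) 0))
(.sy (.negSucc 6986112499)
(.lf (.ofNat 60000000) 0)
(.lf (.negSucc 79999999) 0))))
(.sx (.ofNat 5500000000)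
(.sy (.negSucc 2216224999)
(.sy (.negSucc 3806187499)
(.sx (.ofNat 4500000000)
(.lf (.negSucc 99999999) 0)
(.lf (.negSucc 169999999) 0))
(.sx (.ofNat 4500000000)
(.lf (.negSucc 219999999) 0)
(.lf (.negSucc 319999999) 0)))
(.sx (.ofNat 4500000000)
(.sy (.negSucc 626262499)
(.sx (.ofNat 4000000000)
(.lf (.negSucc 319999999) 0)
(.lf (.negSucc 379999999) 0))
(.sx (.ofNat 4000000000)
(.lf (.negSucc 449999999) 0)
(.lf (.negSucc 529999999) 0)))
(.sy (.negSucc 626262499)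
(.sx (.ofNat 5000000000)
(.lf (.negSucc 449999999) 0)
(.lf (.negSucc 519999999) 0))
(.sx (.ofNat 5000000000)
(.lf (.negSucc 619999999) 0)
(.lf (.negSucc 699999999) 0)))))
(.sy (.negSucc 2216224999)
(.sy (.negSucc 3806187499)
(.sx (.ofNat 6500000000)
(.lf (.negSucc 229999999) 0)
(.lf (.negSucc 279999999) 0))
(.sx (.ofNat 6500000000)
(.lf (.negSucc 409999999) 0)
(.lf (.negSucc 499999999) 0)))
(.sx (.ofNat 6500000000)
(.sy (.negSucc 626262499)
(.lf (.negSucc 609999999) 0)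
(.sx (.ofNat 6000000000)
(.lf (.negSucc 779999999) 0)
(.lf (.negSucc 859999999) 0)))
(.sy (.negSucc 626262499)
(.lf (.negSucc 739999999) 0)
(.sx (.ofNat 7000000000)
(.lf (.negSucc 939999999) 0)
(.lf (.negSucc 1009999999) 0)))))))
(.sy (.ofNat 7323550000)
(.sx (.ofNat 5500000000)
(.sy (.ofNat 4143625000)
(.sx (.ofNat 4500000000)
(.sy (.ofNat 2553662500)
(.sx (.ofNat 4000000000)
(.lf (.negSucc 589999999) 0)
(.lf (.negSucc 689999999) 0))
(.sx (.ofNat 4000000000)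
(.lf (.negSucc 729999999) 0)
(.lf (.negSucc 829999999) 0)))
(.sy (.ofNat 2553662500)
(.sx (.ofNat 5000000000)
(.lf (.negSucc 779999999) 0)
(.lf (.negSucc 879999999) 0))
(.sx (.ofNat 5000000000)
(.lf (.negSucc 939999999) 1)
(.sy (.ofNat 3348643750)
(.lf (.negSucc 1009999999) 0)
(.lf (.negSucc 1079999999) 0)))))
(.sy (.ofNat 5733587500)
(.sx (.ofNat 4500000000)
(.lf (.negSucc 899999999) 0)
(.sy (.ofNat 4938606250)
(.lf (.negSucc 1089999999) 1)
(.lf (.negSucc 1139999999) 0)))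
(.sx (.ofNat 4500000000)
(.lf (.negSucc 989999999) 0)
(.lf (.negSucc 1189999999) 0))))
(.sy (.ofNat 4143625000)
(.sx (.ofNat 6500000000)
(.sy (.ofNat 2553662500)
(.sx (.ofNat 6000000000)
(.lf (.negSucc 979999999) 0)
(.lf (.negSucc 1069999999) 0))
(.sx (.ofNat 6000000000)
(.sy (.ofNat 3348643750)
(.lf (.negSucc 1109999999) 0)
(.lf (.negSucc 1179999999) 0))
(.sy (.ofNat 3348643750)
(.lf (.negSucc 1199999999) 0)
(.lf (.negSucc 1269999999) 0))))
(.sy (.ofNat 2553662500)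
(.sx (.ofNat 7000000000)
(.lf (.negSucc 1149999999) 0)
(.lf (.negSucc 1219999999) 0))
(.sx (.ofNat 7000000000)
(.sy (.ofNat 3348643750)
(.lf (.negSucc 1279999999) 0)
(.lf (.negSucc 1339999999) 0))
(.sy (.ofNat 3348643750)
(.lf (.negSucc 1339999999) 0)
(.lf (.negSucc 1399999999) 0)))))
(.sx (.ofNat 6500000000)
(.sy (.ofNat 5733587500)
(.sx (.ofNat 6000000000)
(.lf (.negSucc 1259999999) 0)
(.lf (.negSucc 1339999999) 1))
(.lf (.negSucc 1339999999) 1))
(.sy (.ofNat 5733587500)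
(.sx (.ofNat 7000000000)
(.sy (.ofNat 4938606250)
(.lf (.negSucc 1379999999) 0)
(.lf (.negSucc 1399999999) 0))
(.sy (.ofNat 4938606250)
(.lf (.negSucc 1429999999) 0)
(.lf (.negSucc 1429999999) 0)))
(.sy (.ofNat 6528568750)
(.lf (.negSucc 1409999999) 0)
(.lf (.negSucc 1369999999) 0))))))
(.sy (.ofNat 10503475000)
(.sx (.ofNat 5500000000)
(.sy (.ofNat 8913512500)
(.sx (.ofNat 4500000000)
(.lf (.negSucc 1039999999) 0)
(.lf (.negSucc 1199999999) 0))
(.lf (.negSucc 1099999999) 0))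
(.sy (.ofNat 8913512500)
(.sx (.ofNat 6500000000)
(.lf (.negSucc 1289999999) 0)
(.lf (.negSucc 1259999999) 0))
(.sx (.ofNat 6500000000)
(.lf (.negSucc 1149999999) 0)
(.lf (.negSucc 1039999999) 0))))
(.sx (.ofNat 5500000000)
(.lf (.negSucc 939999999) 0)
(.sy (.ofNat 12093437500)
(.lf (.negSucc 849999999) 0)
(.lf (.negSucc 539999999) 0))))))

theorem run_tr3_1P : Tr.run 1 2 (T3.C.mdA 2000) (T3.K1.shA (w2n 2000 2243994754 22182)) R3 (.ofNat 3500000000) tr3_1P (.ofNat 3500000000) (.ofNat 7500000000) (.negSucc 11755999999) (.ofNat 13683400000)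
    (-100000000000) 100000000000 = true := by decide +kernel

/-- tree -/
def tr3_1N : Tr :=
(.sy (.ofNat 963700000)
(.sy (.negSucc 5396149999)
(.sx (.negSucc 6749999999)
(.sy (.negSucc 8576074999)
(.sx (.negSucc 8374999999)
(.lf (.ofNat 440000000) 0)
(.lf (.ofNat 490000000) 0))
(.sx (.negSucc 8374999999)
(.lf (.ofNat 140000000) 0)
(.sy (.negSucc 6986112499)
(.lf (.ofNat 280000000) 0)
(.lf (.ofNat 180000000) 0))))
(.sy (.negSucc 8576074999)
(.sx (.negSucc 5124999999)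
(.lf (.ofNat 510000000) 0)
(.lf (.ofNat 510000000) 0))
(.sx (.negSucc 5124999999)
(.sy (.negSucc 6986112499)
(.lf (.ofNat 340000000) 0)
(.lf (.ofNat 260000000) 0))
(.sy (.negSucc 6986112499)
(.lf (.ofNat 370000000) 0)
(.lf (.ofNat 300000000) 0)))))
(.sx (.negSucc 6749999999)
(.sy (.negSucc 2216224999)
(.sx (.negSucc 8374999999)
(.sy (.negSucc 3806187499)
(.lf (.ofNat 0) 0)
(.lf (.negSucc 69999999) 0))
(.sy (.negSucc 3806187499)
(.lf (.ofNat 100000000) 0)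
(.lf (.ofNat 40000000) 0)))
(.sx (.negSucc 8374999999)
(.sy (.negSucc 626262499)
(.sx (.negSucc 9187499999)
(.lf (.negSucc 149999999) 0)
(.lf (.negSucc 99999999) 0))
(.sx (.negSucc 9187499999)
(.lf (.negSucc 199999999) 0)
(.lf (.negSucc 139999999) 0)))
(.sy (.negSucc 626262499)
(.sx (.negSucc 7562499999)
(.lf (.negSucc 39999999) 0)
(.lf (.ofNat 10000000) 0))
(.sx (.negSucc 7562499999)
(.lf (.negSucc 79999999) 0)
(.lf (.negSucc 29999999) 0)))))
(.sy (.negSucc 2216224999)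
(.sx (.negSucc 5124999999)
(.sy (.negSucc 3806187499)
(.lf (.ofNat 190000000) 0)
(.sx (.negSucc 5937499999)
(.lf (.ofNat 110000000) 0)
(.lf (.ofNat 150000000) 0)))
(.sy (.negSucc 3806187499)
(.lf (.ofNat 240000000) 0)
(.sx (.negSucc 4312499999)
(.lf (.ofNat 170000000) 0)
(.lf (.ofNat 190000000) 0))))
(.sx (.negSucc 5124999999)
(.sy (.negSucc 626262499)
(.sx (.negSucc 5937499999)
(.lf (.ofNat 60000000) 0)
(.lf (.ofNat 100000000) 0))
(.sx (.negSucc 5937499999)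
(.lf (.ofNat 20000000) 0)
(.lf (.ofNat 50000000) 0)))
(.sy (.negSucc 626262499)
(.sx (.negSucc 4312499999)
(.lf (.ofNat 130000000) 0)
(.lf (.ofNat 140000000) 0))
(.sx (.negSucc 4312499999)
(.lf (.ofNat 80000000) 0)
(.sy (.ofNat 168718750)
(.lf (.ofNat 110000000) 0)
(.lf (.ofNat 90000000) 0))))))))
(.sy (.ofNat 7323550000)
(.sx (.negSucc 6749999999)
(.sy (.ofNat 4143625000)
(.sx (.negSucc 8374999999)
(.sx (.negSucc 9187499999)
(.sy (.ofNat 2553662500)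
(.sy (.ofNat 1758681250)
(.lf (.negSucc 229999999) 0)
(.sx (.negSucc 9593749999)
(.lf (.negSucc 259999999) 0)
(.lf (.negSucc 229999999) 0)))
(.sx (.negSucc 9593749999)
(.lf (.negSucc 279999999) 0)
(.lf (.negSucc 249999999) 0)))
(.sy (.ofNat 2553662500)
(.sx (.negSucc 8781249999)
(.lf (.negSucc 189999999) 0)
(.lf (.negSucc 159999999) 0))
(.sx (.negSucc 8781249999)
(.lf (.negSucc 229999999) 0)
(.lf (.negSucc 199999999) 0))))
(.sx (.negSucc 7562499999)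
(.sy (.ofNat 2553662500)
(.lf (.negSucc 119999999) 0)
(.lf (.negSucc 159999999) 0))
(.sy (.ofNat 2553662500)
(.lf (.negSucc 69999999) 0)
(.lf (.negSucc 109999999) 0))))
(.sx (.negSucc 8374999999)
(.sy (.ofNat 5733587500)
(.sx (.negSucc 9187499999)
(.sy (.ofNat 4938606250)
(.sx (.negSucc 9593749999)
(.lf (.negSucc 299999999) 0)
(.lf (.negSucc 279999999) 0))
(.sx (.negSucc 9593749999)
(.lf (.negSucc 319999999) 0)
(.lf (.negSucc 289999999) 0)))
(.sy (.ofNat 4938606250)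
(.lf (.negSucc 239999999) 0)
(.lf (.negSucc 249999999) 0)))
(.sx (.negSucc 9187499999)
(.sy (.ofNat 6528568750)
(.lf (.negSucc 319999999) 0)
(.lf (.negSucc 329999999) 0))
(.lf (.negSucc 269999999) 0)))
(.sy (.ofNat 5733587500)
(.sx (.negSucc 7562499999)
(.lf (.negSucc 189999999) 0)
(.lf (.negSucc 139999999) 0))
(.sx (.negSucc 7562499999)
(.lf (.negSucc 219999999) 0)
(.lf (.negSucc 179999999) 0)))))
(.sy (.ofNat 4143625000)
(.sx (.negSucc 5124999999)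
(.sy (.ofNat 2553662500)
(.sx (.negSucc 5937499999)
(.lf (.negSucc 19999999) 0)
(.lf (.ofNat 20000000) 0))
(.sx (.negSucc 5937499999)
(.lf (.negSucc 59999999) 0)
(.lf (.negSucc 19999999) 0)))
(.sy (.ofNat 2553662500)
(.sx (.negSucc 4312499999)
(.lf (.ofNat 40000000) 0)
(.lf (.ofNat 60000000) 0))
(.sx (.negSucc 4312499999)
(.lf (.ofNat 0) 0)
(.lf (.ofNat 20000000) 0))))
(.sx (.negSucc 5124999999)
(.sy (.ofNat 5733587500)
(.sx (.negSucc 5937499999)
(.lf (.negSucc 99999999) 0)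
(.lf (.negSucc 59999999) 0))
(.lf (.negSucc 119999999) 0))
(.sy (.ofNat 5733587500)
(.sx (.negSucc 4312499999)
(.lf (.negSucc 39999999) 0)
(.lf (.negSucc 19999999) 0))
(.lf (.negSucc 69999999) 0)))))
(.sx (.negSucc 6749999999)
(.sy (.ofNat 10503475000)
(.sx (.negSucc 8374999999)
(.sy (.ofNat 8913512500)
(.sx (.negSucc 9187499999)
(.lf (.negSucc 349999999) 0)
(.lf (.negSucc 309999999) 0))
(.sy (.ofNat 9708493750)
(.lf (.negSucc 359999999) 0)
(.lf (.negSucc 379999999) 0)))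
(.sy (.ofNat 8913512500)
(.lf (.negSucc 239999999) 0)
(.lf (.negSucc 279999999) 0)))
(.sy (.ofNat 12093437500)
(.sx (.negSucc 8374999999)
(.lf (.negSucc 409999999) 0)
(.lf (.negSucc 339999999) 0))
(.sx (.negSucc 8374999999)
(.lf (.negSucc 459999999) 0)
(.lf (.negSucc 399999999) 0))))
(.sy (.ofNat 10503475000)
(.sx (.negSucc 5124999999)
(.sy (.ofNat 8913512500)
(.lf (.negSucc 159999999) 0)
(.lf (.negSucc 219999999) 0))
(.lf (.negSucc 149999999) 0))
(.sy (.ofNat 12093437500)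
(.lf (.negSucc 259999999) 0)
(.lf (.negSucc 339999999) 0))))))

theorem run_tr3_1N : Tr.run 1 2 (T3.C.mdA 2000) (T3.K1.shA (w2n 2000 2243994754 22182)) R3 (.ofNat 3500000000) tr3_1N (.negSucc 9999999999) (.negSucc 3499999999) (.negSucc 11755999999) (.ofNat 13683400000)
    (-100000000000) 100000000000 = true := by decide +kernel

/-- tree -/
def br3 : Tr :=
(.sy (.ofNat 963700000)
(.sy (.negSucc 5396149999)
(.sz (.negSucc 126949999)
(.sx (.negSucc 1249999999)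
(.sy (.negSucc 8576074999)
(.lf (.ofNat 0) 0)
(.lf (.ofNat 0) 0))
(.sy (.negSucc 8576074999)
(.lf (.ofNat 0) 0)
(.lf (.ofNat 0) 0)))
(.sx (.negSucc 1249999999)
(.sy (.negSucc 8576074999)
(.lf (.ofNat 0) 0)
(.lf (.ofNat 0) 0))
(.sy (.negSucc 8576074999)
(.lf (.ofNat 0) 0)
(.lf (.ofNat 0) 0))))
(.sz (.negSucc 126949999)
(.sx (.negSucc 1249999999)
(.sy (.negSucc 2216224999)
(.lf (.ofNat 0) 0)
(.lf (.ofNat 0) 0))
(.lf (.ofNat 0) 0))
(.sx (.negSucc 1249999999)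
(.sy (.negSucc 2216224999)
(.lf (.ofNat 0) 0)
(.lf (.ofNat 0) 0))
(.lf (.ofNat 0) 0))))
(.sy (.ofNat 7323550000)
(.sz (.negSucc 126949999)
(.sx (.negSucc 1249999999)
(.lf (.ofNat 0) 0)
(.lf (.ofNat 0) 0))
(.sx (.negSucc 1249999999)
(.lf (.ofNat 0) 0)
(.lf (.ofNat 0) 0)))
(.sz (.negSucc 126949999)
(.sx (.negSucc 1249999999)
(.lf (.ofNat 0) 0)
(.lf (.ofNat 0) 0))
(.sx (.negSucc 1249999999)
(.lf (.ofNat 0) 0)
(.lf (.ofNat 0) 0)))))

theorem run_br3 : Tr.runB T3.C T3.K0 (D3.bt * 2000 / 10000 + 1) R3.om br3 (-D3.m) D3.M D3.ylo D3.yhi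
    (-R3.bl) R3.bh = true := by decide +kernel

end Pool.Agent.Helper30.DL
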