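import Pool.Agent.Helper30.DL.Run.C4

/-! MP_b4564f_an, all delays. Cell 4: kernel computations (generated). -/

set_option autoImplicit false
set_option maxRecDepth 100000

namespace Pool.Agent.Helper30.DL

/-- tree -/
def tr4_0A : Tr :=
(.sy (.ofNat 0)
(.sy (.negSucc 4999999999)
(.sx (.ofNat 2500000000)
(.sy (.negSucc 7499999999)
(.lf (.negSucc 269999999) 0)
(.lf (.negSucc 289999999) 0))
(.sy (.negSucc 7499999999)
(.lf (.ofNat 50000000) 0)
(.lf (.ofNat 10000000) 0)))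
(.sx (.ofNat 2500000000)
(.lf (.negSucc 319999999) 0)
(.sy (.negSucc 2499999999)
(.lf (.negSucc 49999999) 0)
(.lf (.negSucc 129999999) 0))))
(.sy (.ofNat 5000000000)
(.sx (.ofNat 2500000000)
(.lf (.negSucc 379999999) 0)
(.sy (.ofNat 2500000000)
(.lf (.negSucc 219999999) 0)
(.lf (.negSucc 309999999) 0)))
(.sy (.ofNat 7500000000)
(.sx (.ofNat 2500000000)
(.lf (.negSucc 439999999) 0)
(.lf (.negSucc 389999999) 0))
(.sx (.ofNat 2500000000)
(.lf (.negSucc 479999999) 0)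
(.lf (.negSucc 439999999) 0)))))

theorem run_tr4_0A : Tr.run 0 0 T4.C T4.K0 R4 (.ofNat 5000000000) tr4_0A (.ofNat 0) (.ofNat 5000000000) (.negSucc 9999999999) (.ofNat 10000000000)
    (-100000000000) 100000000000 = true := by decide +kernel

/-- tree -/
def tr4_0AA : Tr :=
(.sy (.ofNat 0)
(.sy (.negSucc 4999999999)
(.sy (.negSucc 7499999999)
(.lf (.negSucc 649999999) 0)
(.lf (.negSucc 629999999) 0))
(.sx (.negSucc 2499999999)
(.sy (.negSucc 2499999999)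
(.lf (.negSucc 659999999) 0)
(.lf (.negSucc 599999999) 0))
(.lf (.negSucc 509999999) 0)))
(.sy (.ofNat 5000000000)
(.sy (.ofNat 2500000000)
(.lf (.negSucc 499999999) 0)
(.lf (.negSucc 429999999) 0))
(.sy (.ofNat 7500000000)
(.sx (.negSucc 2499999999)
(.lf (.negSucc 289999999) 0)
(.lf (.negSucc 389999999) 0))
(.sx (.negSucc 2499999999)
(.lf (.negSucc 139999999) 0)
(.lf (.negSucc 339999999) 0)))))

theorem run_tr4_0AA : Tr.run 0 0 T4.C T4.K0 R4 (.ofNat 5000000000) tr4_0AA (.negSucc 4999999999) (.ofNat 0) (.negSucc 9999999999) (.ofNat 10000000000)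
    (-100000000000) 100000000000 = true := by decide +kernel

/-- tree -/
def tr4_0B : Tr :=
(.sy (.ofNat 0)
(.sx (.ofNat 6473050000)
(.sy (.negSucc 4999999999)
(.sy (.negSucc 7499999999)
(.sx (.ofNat 3236525000)
(.sy (.negSucc 8749999999)
(.lf (.negSucc 509999999) 0)
(.lf (.negSucc 379999999) 0))
(.sy (.negSucc 8749999999)
(.lf (.negSucc 689999999) 0)
(.lf (.negSucc 509999999) 0)))
(.sx (.ofNat 3236525000)
(.sy (.negSucc 6249999999)
(.lf (.negSucc 259999999) 0)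
(.lf (.negSucc 169999999) 0))
(.sy (.negSucc 6249999999)
(.lf (.negSucc 349999999) 0)
(.lf (.negSucc 229999999) 0))))
(.sx (.ofNat 3236525000)
(.sy (.negSucc 2499999999)
(.lf (.negSucc 59999999) 0)
(.lf (.ofNat 0) 0))
(.sy (.negSucc 2499999999)
(.lf (.negSucc 89999999) 0)
(.lf (.ofNat 0) 0))))
(.sy (.negSucc 7724333969)
.ou
(.sy (.negSucc 3862166984)
(.sx (.ofNat 9709575000)
(.sy (.negSucc 5793250477)
(.sy (.negSucc 6758792223)
(.lf (.negSucc 449999999) 0)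
(.lf (.negSucc 339999999) 0))
(.lf (.negSucc 199999999) 0))
(.sy (.negSucc 5149555979)
.ou
(.lf (.negSucc 199999999) 0)))
(.sx (.ofNat 9709575000)
(.sy (.negSucc 1931083492)
(.lf (.negSucc 69999999) 0)
(.lf (.ofNat 0) 0))
(.sy (.negSucc 1931083492)
(.lf (.negSucc 99999999) 0)
(.lf (.negSucc 19999999) 0))))))
(.sx (.ofNat 6473050000)
(.sy (.ofNat 5000000000)
(.sx (.ofNat 3236525000)
(.sy (.ofNat 2500000000)
(.lf (.negSucc 9999999) 0)
(.lf (.negSucc 89999999) 0))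
(.sy (.ofNat 2500000000)
(.lf (.negSucc 9999999) 0)
(.sy (.ofNat 3750000000)
(.lf (.negSucc 79999999) 0)
(.lf (.negSucc 129999999) 0))))
(.sy (.ofNat 7500000000)
(.sx (.ofNat 3236525000)
(.sy (.ofNat 6250000000)
(.lf (.negSucc 189999999) 0)
(.lf (.negSucc 269999999) 0))
(.sy (.ofNat 6250000000)
(.lf (.negSucc 189999999) 0)
(.lf (.negSucc 239999999) 0)))
(.sx (.ofNat 3236525000)
(.sy (.ofNat 8750000000)
(.lf (.negSucc 359999999) 0)
(.lf (.negSucc 459999999) 0))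
(.sx (.ofNat 4854787500)
(.sy (.ofNat 8750000000)
(.lf (.negSucc 339999999) 0)
(.lf (.negSucc 399999999) 0))
(.sy (.ofNat 8750000000)
(.lf (.negSucc 149999999) 0)
(.lf (.negSucc 59999999) 0))))))
(.sy (.ofNat 7724333970)
(.sy (.ofNat 3862166985)
(.sx (.ofNat 9709575000)
(.sy (.ofNat 1931083492)
(.lf (.ofNat 0) 0)
(.lf (.negSucc 19999999) 0))
(.sy (.ofNat 1931083492)
(.lf (.ofNat 20000000) 0)
(.lf (.ofNat 110000000) 0)))
(.sx (.ofNat 9709575000)
(.sy (.ofNat 5793250477)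
(.sx (.ofNat 8091312500)
(.lf (.negSucc 49999999) 0)
(.lf (.ofNat 100000000) 0))
(.sx (.ofNat 8091312500)
(.lf (.ofNat 60000000) 0)
(.sy (.ofNat 6179467176)
(.lf (.ofNat 270000000) 0)
.ou)))
(.sy (.ofNat 5149555980)
(.lf (.ofNat 350000000) 0)
.ou)))
.ou)))

theorem run_tr4_0B : Tr.run 0 1 T4.C T4.K0 R4 (.ofNat 5000000000) tr4_0B (.ofNat 0) (.ofNat 12946100000) (.negSucc 9999999999) (.ofNat 10000000000)
    (-100000000000) 100000000000 = true := by decide +kernel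

/-- tree -/
def tr4_0BB : Tr :=
(.sy (.ofNat 0)
(.sy (.negSucc 4999999999)
(.sx (.negSucc 5390549999)
(.sy (.negSucc 9275491369)
.ou
(.sy (.negSucc 7137745684)
(.sx (.negSucc 8085824999)
.ou
(.sy (.negSucc 8206618527)
(.lf (.ofNat 160000000) 0)
(.lf (.ofNat 70000000) 0)))
(.sx (.negSucc 8085824999)
(.sy (.negSucc 6183660912)
.ou
(.lf (.negSucc 79999999) 0))
(.sy (.negSucc 6068872842)
(.lf (.ofNat 0) 0)
(.lf (.negSucc 49999999) 0)))))
(.sy (.negSucc 7499999999)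
(.sx (.negSucc 2695274999)
(.sy (.negSucc 8749999999)
(.lf (.ofNat 50000000) 0)
(.lf (.negSucc 9999999) 0))
(.sy (.negSucc 8749999999)
(.lf (.negSucc 229999999) 0)
(.lf (.negSucc 189999999) 0)))
(.sx (.negSucc 2695274999)
(.sy (.negSucc 6249999999)
(.lf (.negSucc 39999999) 0)
(.lf (.negSucc 59999999) 0))
(.sy (.negSucc 6249999999)
(.lf (.negSucc 149999999) 0)
(.lf (.negSucc 109999999) 0)))))
(.sx (.negSucc 5390549999)
(.sx (.negSucc 8085824999)
(.sy (.negSucc 2499999999)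
(.sy (.negSucc 3749999999)
(.lf (.negSucc 129999999) 0)
(.lf (.negSucc 149999999) 0))
(.lf (.negSucc 109999999) 0))
(.sy (.negSucc 2499999999)
(.sy (.negSucc 3749999999)
(.lf (.negSucc 89999999) 0)
(.lf (.negSucc 99999999) 0))
(.lf (.negSucc 69999999) 0)))
(.sy (.negSucc 2499999999)
(.sx (.negSucc 2695274999)
(.lf (.negSucc 69999999) 0)
(.lf (.negSucc 59999999) 0))
(.lf (.negSucc 19999999) 0))))
(.sx (.negSucc 5390549999)
(.sy (.ofNat 9275491370)
(.sy (.ofNat 4637745685)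
(.sy (.ofNat 2318872842)
(.lf (.ofNat 30000000) 0)
(.sx (.negSucc 8085824999)
(.lf (.ofNat 260000000) 1)
(.lf (.ofNat 140000000) 0)))
(.sy (.ofNat 6956618527)
(.sx (.negSucc 8085824999)
(.sy (.ofNat 6183660913)
(.lf (.ofNat 450000000) 0)
.ou)
(.sy (.ofNat 5797182106)
(.lf (.ofNat 220000000) 0)
(.lf (.ofNat 260000000) 0)))
(.sx (.negSucc 8085824999)
.ou
(.sy (.ofNat 8116054948)
(.lf (.ofNat 300000000) 0)
(.lf (.ofNat 330000000) 0)))))
.ou)
(.sy (.ofNat 5000000000)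
(.sx (.negSucc 2695274999)
(.sy (.ofNat 2500000000)
(.lf (.ofNat 10000000) 0)
(.lf (.ofNat 50000000) 0))
(.sy (.ofNat 2500000000)
(.lf (.ofNat 0) 0)
(.lf (.negSucc 29999999) 0)))
(.sy (.ofNat 7500000000)
(.sx (.negSucc 2695274999)
(.sx (.negSucc 4042912499)
(.lf (.ofNat 110000000) 0)
(.lf (.ofNat 20000000) 0))
(.sy (.ofNat 6250000000)
(.lf (.negSucc 79999999) 0)
(.lf (.negSucc 119999999) 0)))
(.sx (.negSucc 2695274999)
(.sy (.ofNat 8750000000)
(.lf (.ofNat 40000000) 0)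
(.lf (.ofNat 10000000) 0))
(.sy (.ofNat 8750000000)
(.lf (.negSucc 179999999) 0)
(.lf (.negSucc 259999999) 0)))))))

theorem run_tr4_0BB : Tr.run 0 1 T4.C T4.K0 R4 (.ofNat 5000000000) tr4_0BB (.negSucc 10781099999) (.ofNat 0) (.negSucc 9999999999) (.ofNat 10000000000)
    (-100000000000) 100000000000 = true := by decide +kernel

/-- tree -/
def tr4_0P : Tr :=
(.sy (.ofNat 1082500000)
(.sy (.negSucc 4849299999)
(.sy (.negSucc 7815199999)
(.sy (.negSucc 9298149999)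
(.sx (.ofNat 6000000000)
(.lf (.negSucc 99999999) 0)
(.lf (.negSucc 39999999) 0))
(.sx (.ofNat 6000000000)
(.lf (.negSucc 9999999) 0)
(.lf (.ofNat 50000000) 0)))
(.sx (.ofNat 6000000000)
(.sy (.negSucc 6332249999)
(.lf (.ofNat 40000000) 0)
(.sx (.ofNat 5500000000)
(.lf (.ofNat 50000000) 0)
(.lf (.ofNat 80000000) 0)))
(.sy (.negSucc 6332249999)
(.lf (.ofNat 100000000) 0)
(.sx (.ofNat 6500000000)
(.lf (.ofNat 110000000) 0)
(.lf (.ofNat 130000000) 0)))))
(.sy (.negSucc 1883399999)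
(.sx (.ofNat 6000000000)
(.sy (.negSucc 3366349999)
(.sx (.ofNat 5500000000)
(.lf (.ofNat 50000000) 0)
(.lf (.ofNat 80000000) 0))
(.sx (.ofNat 5500000000)
(.lf (.ofNat 40000000) 0)
(.lf (.ofNat 50000000) 0)))
(.sy (.negSucc 3366349999)
(.sx (.ofNat 6500000000)
(.lf (.ofNat 100000000) 0)
(.lf (.ofNat 120000000) 0))
(.sx (.ofNat 6500000000)
(.lf (.ofNat 70000000) 0)
(.lf (.ofNat 90000000) 0))))
(.sx (.ofNat 6000000000)
(.sy (.negSucc 400449999)
(.sx (.ofNat 5500000000)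
(.lf (.ofNat 10000000) 0)
(.lf (.ofNat 20000000) 0))
(.sx (.ofNat 5500000000)
(.lf (.negSucc 29999999) 0)
(.lf (.negSucc 19999999) 0)))
(.sy (.negSucc 400449999)
(.sx (.ofNat 6500000000)
(.lf (.ofNat 30000000) 0)
(.lf (.ofNat 40000000) 0))
(.sx (.ofNat 6500000000)
(.lf (.negSucc 9999999) 0)
(.lf (.ofNat 0) 0))))))
(.sy (.ofNat 7014300000)
(.sy (.ofNat 4048400000)
(.sx (.ofNat 6000000000)
(.sy (.ofNat 2565450000)
(.sx (.ofNat 5500000000)
(.lf (.negSucc 49999999) 0)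
(.lf (.negSucc 49999999) 0))
(.sx (.ofNat 5500000000)
(.lf (.negSucc 59999999) 0)
(.lf (.negSucc 49999999) 0)))
(.sy (.ofNat 2565450000)
(.sx (.ofNat 6500000000)
(.lf (.negSucc 29999999) 0)
(.lf (.negSucc 19999999) 0))
(.sx (.ofNat 6500000000)
(.lf (.negSucc 29999999) 0)
(.lf (.ofNat 0) 0))))
(.sx (.ofNat 6000000000)
(.sy (.ofNat 5531350000)
(.sx (.ofNat 5500000000)
(.lf (.negSucc 49999999) 0)
(.lf (.negSucc 19999999) 0))
(.lf (.ofNat 20000000) 0))
(.sy (.ofNat 5531350000)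
(.lf (.ofNat 30000000) 0)
(.lf (.ofNat 140000000) 0))))
(.sy (.ofNat 9980200000)
(.sx (.ofNat 6000000000)
(.sy (.ofNat 8497250000)
(.lf (.ofNat 130000000) 0)
(.lf (.ofNat 280000000) 0))
(.sy (.ofNat 8497250000)
(.lf (.ofNat 300000000) 0)
(.lf (.ofNat 510000000) 0)))
(.sx (.ofNat 6000000000)
(.lf (.ofNat 580000000) 0)
(.lf (.ofNat 910000000) 0)))))

theorem run_tr4_0P : Tr.run 0 2 T4.C T4.K0 R4 (.ofNat 5000000000) tr4_0P (.ofNat 5000000000) (.ofNat 7000000000) (.negSucc 10781099999) (.ofNat 12946100000)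
    (-100000000000) 100000000000 = true := by decide +kernel

/-- tree -/
def tr4_0N : Tr :=
(.sy (.ofNat 1082500000)
(.sy (.negSucc 4849299999)
(.sx (.negSucc 7349999999)
(.sy (.negSucc 7815199999)
(.sy (.negSucc 9298149999)
(.sx (.negSucc 8524999999)
(.lf (.ofNat 1100000000) 0)
(.lf (.ofNat 870000000) 0))
(.sx (.negSucc 8524999999)
(.lf (.ofNat 590000000) 0)
(.lf (.ofNat 490000000) 0)))
(.sy (.negSucc 6332249999)
(.sx (.negSucc 8524999999)
(.lf (.ofNat 250000000) 0)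
(.lf (.ofNat 220000000) 0))
(.sx (.negSucc 8524999999)
(.lf (.ofNat 0) 0)
(.lf (.ofNat 30000000) 0))))
(.sy (.negSucc 7815199999)
(.sy (.negSucc 9298149999)
(.sx (.negSucc 6174999999)
(.lf (.ofNat 700000000) 0)
(.lf (.ofNat 540000000) 0))
(.sx (.negSucc 6174999999)
(.lf (.ofNat 410000000) 0)
(.lf (.ofNat 330000000) 0)))
(.sy (.negSucc 6332249999)
(.sx (.negSucc 6174999999)
(.lf (.ofNat 200000000) 0)
(.lf (.ofNat 180000000) 0))
(.sx (.negSucc 6174999999)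
(.sy (.negSucc 5590774999)
(.lf (.ofNat 80000000) 0)
(.lf (.ofNat 10000000) 0))
(.sy (.negSucc 5590774999)
(.lf (.ofNat 80000000) 0)
(.lf (.ofNat 30000000) 0))))))
(.sx (.negSucc 7349999999)
(.sy (.negSucc 1883399999)
(.sx (.negSucc 8524999999)
(.sy (.negSucc 3366349999)
(.lf (.negSucc 179999999) 0)
(.sx (.negSucc 9112499999)
(.lf (.negSucc 329999999) 0)
(.lf (.negSucc 289999999) 0)))
(.sy (.negSucc 3366349999)
(.sy (.negSucc 4107824999)
(.lf (.negSucc 89999999) 0)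
(.lf (.negSucc 149999999) 0))
(.sx (.negSucc 7937499999)
(.lf (.negSucc 249999999) 0)
(.lf (.negSucc 219999999) 0))))
(.sx (.negSucc 8524999999)
(.sy (.negSucc 400449999)
(.sx (.negSucc 9112499999)
(.lf (.negSucc 439999999) 0)
(.lf (.negSucc 389999999) 0))
(.lf (.negSucc 489999999) 0))
(.sy (.negSucc 400449999)
(.sx (.negSucc 7937499999)
(.lf (.negSucc 339999999) 0)
(.lf (.negSucc 299999999) 0))
(.sx (.negSucc 7937499999)
(.lf (.negSucc 409999999) 0)
(.lf (.negSucc 359999999) 0)))))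
(.sy (.negSucc 1883399999)
(.sx (.negSucc 6174999999)
(.sy (.negSucc 3366349999)
(.sx (.negSucc 6762499999)
(.lf (.negSucc 79999999) 0)
(.lf (.negSucc 59999999) 0))
(.sx (.negSucc 6762499999)
(.lf (.negSucc 179999999) 0)
(.lf (.negSucc 149999999) 0)))
(.sy (.negSucc 3366349999)
(.sx (.negSucc 5587499999)
(.lf (.negSucc 39999999) 0)
(.lf (.negSucc 29999999) 0))
(.sx (.negSucc 5587499999)
(.lf (.negSucc 119999999) 0)
(.sy (.negSucc 2624874999)
(.lf (.negSucc 69999999) 0)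
(.lf (.negSucc 99999999) 0)))))
(.sx (.negSucc 6174999999)
(.sy (.negSucc 400449999)
(.sx (.negSucc 6762499999)
(.lf (.negSucc 249999999) 0)
(.lf (.negSucc 209999999) 0))
(.sx (.negSucc 6762499999)
(.lf (.negSucc 299999999) 0)
(.lf (.negSucc 259999999) 0)))
(.sy (.negSucc 400449999)
(.sx (.negSucc 5587499999)
(.lf (.negSucc 169999999) 0)
(.lf (.negSucc 139999999) 0))
(.sx (.negSucc 5587499999)
(.lf (.negSucc 209999999) 0)
(.lf (.negSucc 169999999) 0)))))))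
(.sy (.ofNat 7014300000)
(.sx (.negSucc 7349999999)
(.sy (.ofNat 4048400000)
(.sx (.negSucc 8524999999)
(.sy (.ofNat 2565450000)
(.lf (.negSucc 549999999) 0)
(.lf (.negSucc 589999999) 0))
(.sy (.ofNat 2565450000)
(.sx (.negSucc 7937499999)
(.lf (.negSucc 459999999) 0)
(.lf (.negSucc 399999999) 0))
(.lf (.negSucc 459999999) 0)))
(.sx (.negSucc 8524999999)
(.sy (.ofNat 5531350000)
(.lf (.negSucc 619999999) 0)
(.lf (.negSucc 639999999) 0))
(.sy (.ofNat 5531350000)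
(.lf (.negSucc 479999999) 0)
(.lf (.negSucc 499999999) 0))))
(.sy (.ofNat 4048400000)
(.sx (.negSucc 6174999999)
(.sy (.ofNat 2565450000)
(.sx (.negSucc 6762499999)
(.lf (.negSucc 339999999) 0)
(.lf (.negSucc 289999999) 0))
(.sx (.negSucc 6762499999)
(.lf (.negSucc 369999999) 0)
(.lf (.negSucc 309999999) 0)))
(.sy (.ofNat 2565450000)
(.sx (.negSucc 5587499999)
(.lf (.negSucc 239999999) 0)
(.lf (.negSucc 189999999) 0))
(.sx (.negSucc 5587499999)
(.lf (.negSucc 259999999) 0)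
(.lf (.negSucc 209999999) 0))))
(.sx (.negSucc 6174999999)
(.sy (.ofNat 5531350000)
(.lf (.negSucc 359999999) 0)
(.lf (.negSucc 369999999) 0))
(.sy (.ofNat 5531350000)
(.sx (.negSucc 5587499999)
(.lf (.negSucc 269999999) 0)
(.lf (.negSucc 219999999) 0))
(.lf (.negSucc 259999999) 0)))))
(.sx (.negSucc 7349999999)
(.sy (.ofNat 9980200000)
(.sx (.negSucc 8524999999)
(.sy (.ofNat 8497250000)
(.lf (.negSucc 649999999) 0)
(.lf (.negSucc 659999999) 0))
(.sy (.ofNat 8497250000)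
(.lf (.negSucc 509999999) 0)
(.lf (.negSucc 529999999) 0)))
(.sx (.negSucc 8524999999)
(.lf (.negSucc 679999999) 0)
(.lf (.negSucc 549999999) 0)))
(.sy (.ofNat 9980200000)
(.sx (.negSucc 6174999999)
(.sy (.ofNat 8497250000)
(.lf (.negSucc 379999999) 0)
(.lf (.negSucc 399999999) 0))
(.sy (.ofNat 8497250000)
(.lf (.negSucc 269999999) 0)
(.lf (.negSucc 279999999) 0)))
(.sx (.negSucc 6174999999)
(.lf (.negSucc 419999999) 0)
(.lf (.negSucc 309999999) 0))))))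

theorem run_tr4_0N : Tr.run 0 2 T4.C T4.K0 R4 (.ofNat 5000000000) tr4_0N (.negSucc 9699999999) (.negSucc 4999999999) (.negSucc 10781099999) (.ofNat 12946100000)
    (-100000000000) 100000000000 = true := by decide +kernel

end Pool.Agent.Helper30.DL
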