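import Pool.Agent.Helper30.DL.Run.C4

/-! MP_b4564f_an, all delays. Cell 4: kernel computations (generated). -/

set_option autoImplicit false
set_option maxRecDepth 100000

namespace Pool.Agent.Helper30.DL

/-- tree -/
def tr4_1A : Tr :=
(.sy (.ofNat 0)
(.sy (.negSucc 4999999999)
(.sx (.ofNat 2250000000)
(.sy (.negSucc 7499999999)
(.lf (.negSucc 4219999999) 0)
(.sx (.ofNat 1125000000)
(.lf (.negSucc 9499999999) 0)
(.lf (.negSucc 3789999999) 0)))
(.sy (.negSucc 7499999999)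
(.lf (.negSucc 1549999999) 0)
(.lf (.negSucc 2099999999) 0)))
(.sx (.ofNat 2250000000)
(.sx (.ofNat 1125000000)
(.sx (.ofNat 562500000)
(.lf (.negSucc 23119999999) 0)
(.lf (.negSucc 8649999999) 0))
(.lf (.negSucc 4979999999) 0))
(.sy (.negSucc 2499999999)
(.sx (.ofNat 3375000000)
(.lf (.negSucc 3119999999) 0)
(.lf (.negSucc 2369999999) 0))
(.sx (.ofNat 3375000000)
(.lf (.negSucc 3769999999) 0)
(.lf (.negSucc 2989999999) 0)))))
(.sy (.ofNat 5000000000)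
(.sx (.ofNat 2250000000)
(.sx (.ofNat 1125000000)
(.sx (.ofNat 562500000)
(.lf (.ofNat 0) 0)
(.lf (.negSucc 11309999999) 0))
(.sy (.ofNat 2500000000)
(.lf (.negSucc 6219999999) 0)
(.lf (.negSucc 7059999999) 0)))
(.sy (.ofNat 2500000000)
(.sx (.ofNat 3375000000)
(.lf (.negSucc 4439999999) 0)
(.lf (.negSucc 3639999999) 0))
(.sx (.ofNat 3375000000)
(.lf (.negSucc 5129999999) 0)
(.lf (.negSucc 4309999999) 0))))
(.sx (.ofNat 2250000000)
(.sx (.ofNat 1125000000)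
(.sx (.ofNat 562500000)
(.lf (.ofNat 0) 0)
(.lf (.negSucc 14009999999) 0))
(.sy (.ofNat 7500000000)
(.lf (.negSucc 7909999999) 0)
(.lf (.negSucc 8779999999) 0)))
(.sy (.ofNat 7500000000)
(.sx (.ofNat 3375000000)
(.lf (.negSucc 5839999999) 0)
(.sy (.ofNat 6250000000)
(.lf (.negSucc 4809999999) 0)
(.lf (.negSucc 5139999999) 0)))
(.sx (.ofNat 3375000000)
(.lf (.negSucc 6549999999) 0)
(.sy (.ofNat 8750000000)
(.lf (.negSucc 5459999999) 0)
(.lf (.negSucc 5779999999) 0)))))))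

theorem run_tr4_1A : Tr.run 1 0 (T4.C.mdA 2000) (T4.K1.shA (w2n 2000 1745329253 20974)) R4 (.ofNat 4500000000) tr4_1A (.ofNat 0) (.ofNat 4500000000) (.negSucc 9999999999) (.ofNat 10000000000)
    (-100000000000) 100000000000 = true := by decide +kernel

/-- tree -/
def tr4_1AA : Tr :=
(.sy (.ofNat 0)
(.sy (.negSucc 4999999999)
(.sx (.negSucc 2249999999)
(.sy (.negSucc 7499999999)
(.lf (.negSucc 109999999) 0)
(.lf (.ofNat 60000000) 0))
(.sy (.negSucc 7499999999)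
(.lf (.ofNat 2230000000) 0)
(.sx (.negSucc 1124999999)
(.lf (.ofNat 1490000000) 0)
(.lf (.ofNat 7130000000) 0))))
(.sx (.negSucc 2249999999)
(.sy (.negSucc 2499999999)
(.lf (.ofNat 240000000) 0)
(.lf (.ofNat 430000000) 0))
(.sx (.negSucc 1124999999)
(.lf (.ofNat 2130000000) 0)
(.sx (.negSucc 562499999)
(.lf (.ofNat 5750000000) 0)
(.lf (.ofNat 20210000000) 0)))))
(.sy (.ofNat 5000000000)
(.sx (.negSucc 2249999999)
(.sy (.ofNat 2500000000)
(.lf (.ofNat 610000000) 0)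
(.lf (.ofNat 810000000) 0))
(.sx (.negSucc 1124999999)
(.lf (.ofNat 2970000000) 0)
(.sx (.negSucc 562499999)
(.lf (.ofNat 7630000000) 0)
(.sx (.negSucc 281249999)
(.lf (.ofNat 17030000000) 0)
(.lf (.ofNat 0) 0)))))
(.sx (.negSucc 2249999999)
(.sy (.ofNat 7500000000)
(.lf (.ofNat 1020000000) 0)
(.lf (.ofNat 1240000000) 0))
(.sx (.negSucc 1124999999)
(.lf (.ofNat 3810000000) 0)
(.sx (.negSucc 562499999)
(.lf (.ofNat 9500000000) 0)
(.lf (.ofNat 0) 0))))))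

theorem run_tr4_1AA : Tr.run 1 0 (T4.C.mdA 2000) (T4.K1.shA (w2n 2000 1745329253 20974)) R4 (.ofNat 4500000000) tr4_1AA (.negSucc 4499999999) (.ofNat 0) (.negSucc 9999999999) (.ofNat 10000000000)
    (-100000000000) 100000000000 = true := by decide +kernel

/-- tree -/
def tr4_1B : Tr :=
(.sy (.ofNat 0)
(.sx (.ofNat 6473050000)
(.sy (.negSucc 4999999999)
(.sx (.ofNat 3236525000)
(.sy (.negSucc 7499999999)
(.sx (.ofNat 1618262500)
(.lf (.ofNat 2300000000) 0)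
(.lf (.ofNat 190000000) 0))
(.lf (.ofNat 140000000) 0))
(.sy (.negSucc 7499999999)
(.sx (.ofNat 4854787500)
(.sy (.negSucc 8749999999)
(.lf (.negSucc 319999999) 0)
(.lf (.negSucc 229999999) 0))
(.sy (.negSucc 9269200763)
.ou
(.lf (.negSucc 419999999) 0)))
(.sx (.ofNat 4854787500)
(.lf (.negSucc 179999999) 0)
(.lf (.negSucc 259999999) 0))))
(.sx (.ofNat 3236525000)
(.sy (.negSucc 2499999999)
(.lf (.negSucc 679999999) 0)
(.lf (.negSucc 1729999999) 0))
(.sy (.negSucc 2499999999)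
(.lf (.negSucc 279999999) 0)
(.lf (.negSucc 569999999) 0))))
(.sy (.negSucc 6951900572)
.ou
(.sy (.negSucc 3475950286)
(.sx (.ofNat 9709575000)
(.sy (.negSucc 5213925429)
(.sx (.ofNat 8091312500)
(.lf (.negSucc 289999999) 0)
(.sy (.negSucc 5561520457)
.ou
(.lf (.negSucc 279999999) 0)))
(.lf (.negSucc 229999999) 0))
(.sy (.negSucc 4634600381)
.ou
(.lf (.negSucc 229999999) 0)))
(.sx (.ofNat 9709575000)
(.sy (.negSucc 1737975143)
(.lf (.negSucc 249999999) 0)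
(.lf (.negSucc 389999999) 0))
(.sy (.negSucc 1737975143)
(.lf (.negSucc 219999999) 0)
(.lf (.negSucc 299999999) 0))))))
(.sx (.ofNat 6473050000)
(.sy (.ofNat 5000000000)
(.sx (.ofNat 3236525000)
(.sx (.ofNat 1618262500)
(.sy (.ofNat 2500000000)
(.lf (.negSucc 5849999999) 0)
(.sx (.ofNat 809131250)
(.lf (.negSucc 16269999999) 0)
(.lf (.negSucc 5849999999) 0)))
(.sy (.ofNat 2500000000)
(.lf (.negSucc 2079999999) 0)
(.lf (.negSucc 3279999999) 0)))
(.sy (.ofNat 2500000000)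
(.lf (.negSucc 1149999999) 0)
(.sx (.ofNat 4854787500)
(.lf (.negSucc 2279999999) 0)
(.lf (.negSucc 1859999999) 1))))
(.sx (.ofNat 3236525000)
(.sx (.ofNat 1618262500)
(.sx (.ofNat 809131250)
(.sx (.ofNat 404565625)
(.lf (.ofNat 0) 0)
(.lf (.negSucc 16429999999) 0))
(.sy (.ofNat 7500000000)
(.lf (.negSucc 7959999999) 0)
(.lf (.negSucc 10319999999) 0)))
(.sy (.ofNat 7500000000)
(.sx (.ofNat 2427393750)
(.lf (.negSucc 5369999999) 0)
(.lf (.negSucc 4299999999) 0))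
(.sx (.ofNat 2427393750)
(.lf (.negSucc 7219999999) 0)
(.sy (.ofNat 8750000000)
(.lf (.negSucc 5519999999) 0)
(.lf (.negSucc 6409999999) 0)))))
(.sy (.ofNat 7500000000)
(.sx (.ofNat 4854787500)
(.sy (.ofNat 6250000000)
(.lf (.negSucc 3189999999) 0)
(.lf (.negSucc 3879999999) 0))
(.sy (.ofNat 6250000000)
(.lf (.negSucc 2679999999) 0)
(.sx (.ofNat 5663918750)
(.lf (.negSucc 3419999999) 0)
(.lf (.negSucc 3129999999) 0))))
(.sx (.ofNat 4854787500)
(.sy (.ofNat 8750000000)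
(.sx (.ofNat 4045656250)
(.lf (.negSucc 4869999999) 0)
(.lf (.negSucc 4439999999) 0))
(.sx (.ofNat 4045656250)
(.lf (.negSucc 5709999999) 0)
(.lf (.negSucc 5189999999) 0)))
(.sy (.ofNat 9269200764)
(.sx (.ofNat 5663918750)
(.sy (.ofNat 8384600382)
(.lf (.negSucc 3969999999) 0)
(.lf (.negSucc 4409999999) 0))
(.sy (.ofNat 7945029226)
(.lf (.negSucc 3469999999) 0)
.ou))
.ou)))))
(.sy (.ofNat 6951900573)
(.sy (.ofNat 3475950286)
(.sx (.ofNat 9709575000)
(.sy (.ofNat 1737975143)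
(.lf (.negSucc 679999999) 0)
(.sx (.ofNat 8091312500)
(.lf (.negSucc 1209999999) 0)
(.lf (.negSucc 1029999999) 0)))
(.sy (.ofNat 1737975143)
(.lf (.negSucc 509999999) 0)
(.sx (.ofNat 11327837500)
(.lf (.negSucc 859999999) 0)
(.lf (.negSucc 669999999) 0))))
(.sx (.ofNat 9709575000)
(.sx (.ofNat 8091312500)
(.sy (.ofNat 5213925429)
(.lf (.negSucc 1789999999) 0)
(.sx (.ofNat 7282181250)
(.lf (.negSucc 2519999999) 0)
(.sy (.ofNat 6179467176)
(.lf (.negSucc 2129999999) 0)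
.ou)))
(.sy (.ofNat 5561520458)
(.sy (.ofNat 4518735372)
(.lf (.negSucc 1379999999) 0)
(.lf (.negSucc 1589999999) 0))
.ou))
(.sy (.ofNat 4634600382)
(.sx (.ofNat 11327837500)
(.lf (.negSucc 1039999999) 0)
(.sy (.ofNat 3972514613)
(.lf (.negSucc 679999999) 0)
.ou))
.ou)))
.ou)))

theorem run_tr4_1B : Tr.run 1 1 (T4.C.mdA 2000) (T4.K1.shA (w2n 2000 1745329253 20974)) R4 (.ofNat 4500000000) tr4_1B (.ofNat 0) (.ofNat 12946100000) (.negSucc 9999999999) (.ofNat 10000000000)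
    (-100000000000) 100000000000 = true := by decide +kernel

/-- tree -/
def tr4_1BB : Tr :=
(.sy (.ofNat 0)
(.sy (.negSucc 4999999999)
(.sx (.negSucc 5390549999)
(.sy (.negSucc 8347942232)
.ou
(.sx (.negSucc 8085824999)
(.sy (.negSucc 5565294821)
.ou
(.lf (.ofNat 120000000) 0))
(.sy (.negSucc 6673971116)
(.sx (.negSucc 6738187499)
(.sy (.negSucc 6678353785)
.ou
(.lf (.ofNat 50000000) 0))
(.lf (.negSucc 109999999) 0))
(.lf (.ofNat 40000000) 0))))
(.sy (.negSucc 7499999999)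
(.sx (.negSucc 2695274999)
(.sx (.negSucc 4042912499)
(.lf (.negSucc 509999999) 0)
(.lf (.negSucc 929999999) 0))
(.sx (.negSucc 1347637499)
(.lf (.negSucc 1609999999) 0)
(.lf (.negSucc 4189999999) 0)))
(.sx (.negSucc 2695274999)
(.lf (.negSucc 179999999) 0)
(.lf (.negSucc 659999999) 0))))
(.sx (.negSucc 5390549999)
(.sx (.negSucc 8085824999)
(.sy (.negSucc 2499999999)
(.sy (.negSucc 3749999999)
(.lf (.ofNat 120000000) 0)
(.lf (.ofNat 160000000) 0))
(.lf (.ofNat 250000000) 0))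
(.sy (.negSucc 2499999999)
(.lf (.ofNat 200000000) 0)
(.lf (.ofNat 400000000) 0)))
(.sx (.negSucc 2695274999)
(.sy (.negSucc 2499999999)
(.lf (.ofNat 300000000) 0)
(.lf (.ofNat 700000000) 0))
(.sy (.negSucc 2499999999)
(.lf (.ofNat 810000000) 0)
(.lf (.ofNat 2110000000) 0)))))
(.sx (.negSucc 5390549999)
(.sy (.ofNat 8347942233)
(.sy (.ofNat 4173971116)
(.sx (.negSucc 8085824999)
(.sy (.ofNat 2086985558)
(.lf (.ofNat 380000000) 0)
(.lf (.ofNat 460000000) 0))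
(.sy (.ofNat 2086985558)
(.lf (.ofNat 550000000) 0)
(.lf (.ofNat 620000000) 0)))
(.sx (.negSucc 8085824999)
(.sy (.ofNat 5565294822)
(.lf (.ofNat 460000000) 0)
.ou)
(.sy (.ofNat 6260956674)
(.sx (.negSucc 6738187499)
(.lf (.ofNat 550000000) 0)
(.lf (.ofNat 690000000) 0))
(.sx (.negSucc 6738187499)
(.sy (.ofNat 6678353786)
(.lf (.ofNat 490000000) 0)
.ou)
(.lf (.ofNat 590000000) 0)))))
.ou)
(.sy (.ofNat 5000000000)
(.sx (.negSucc 2695274999)
(.sy (.ofNat 2500000000)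
(.lf (.ofNat 990000000) 0)
(.lf (.ofNat 1150000000) 0))
(.sx (.negSucc 1347637499)
(.sy (.ofNat 2500000000)
(.lf (.ofNat 2110000000) 0)
(.lf (.ofNat 2640000000) 0))
(.sy (.ofNat 2500000000)
(.lf (.ofNat 6640000000) 0)
(.lf (.ofNat 8870000000) 0))))
(.sx (.negSucc 2695274999)
(.sy (.ofNat 7500000000)
(.sx (.negSucc 4042912499)
(.lf (.ofNat 940000000) 0)
(.lf (.ofNat 1520000000) 0))
(.sx (.negSucc 4042912499)
(.lf (.ofNat 780000000) 0)
(.lf (.ofNat 1450000000) 0)))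
(.sx (.negSucc 1347637499)
(.sy (.ofNat 7500000000)
(.lf (.ofNat 3010000000) 0)
(.lf (.ofNat 3210000000) 0))
(.sx (.negSucc 673818749)
(.sy (.ofNat 7500000000)
(.lf (.ofNat 6930000000) 0)
(.lf (.ofNat 7930000000) 0))
(.sx (.negSucc 336909374)
(.lf (.ofNat 16270000000) 0)
(.lf (.ofNat 0) 0))))))))

theorem run_tr4_1BB : Tr.run 1 1 (T4.C.mdA 2000) (T4.K1.shA (w2n 2000 1745329253 20974)) R4 (.ofNat 4500000000) tr4_1BB (.negSucc 10781099999) (.ofNat 0) (.negSucc 9999999999) (.ofNat 10000000000)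
    (-100000000000) 100000000000 = true := by decide +kernel

/-- tree -/
def tr4_1P : Tr :=
(.sy (.ofNat 1082500000)
(.sy (.negSucc 4849299999)
(.sy (.negSucc 7815199999)
(.sx (.ofNat 5750000000)
(.lf (.ofNat 100000000) 0)
(.lf (.ofNat 140000000) 0))
(.sx (.ofNat 5750000000)
(.lf (.negSucc 39999999) 0)
(.lf (.negSucc 49999999) 0)))
(.sy (.negSucc 1883399999)
(.sx (.ofNat 5750000000)
(.sy (.negSucc 3366349999)
(.lf (.negSucc 229999999) 0)
(.lf (.negSucc 389999999) 0))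
(.sy (.negSucc 3366349999)
(.lf (.negSucc 299999999) 0)
(.lf (.negSucc 509999999) 0)))
(.sx (.ofNat 5750000000)
(.sy (.negSucc 400449999)
(.sx (.ofNat 5125000000)
(.lf (.negSucc 529999999) 0)
(.lf (.negSucc 619999999) 0))
(.sx (.ofNat 5125000000)
(.lf (.negSucc 719999999) 0)
(.lf (.negSucc 829999999) 0)))
(.sy (.negSucc 400449999)
(.lf (.negSucc 739999999) 1)
(.sx (.ofNat 6375000000)
(.lf (.negSucc 939999999) 0)
(.lf (.negSucc 1029999999) 0))))))
(.sy (.ofNat 7014300000)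
(.sy (.ofNat 4048400000)
(.sx (.ofNat 5750000000)
(.sy (.ofNat 2565450000)
(.sx (.ofNat 5125000000)
(.lf (.negSucc 899999999) 0)
(.lf (.negSucc 1039999999) 0))
(.sx (.ofNat 5125000000)
(.sy (.ofNat 3306925000)
(.lf (.negSucc 1039999999) 0)
(.lf (.negSucc 1119999999) 0))
(.sy (.ofNat 3306925000)
(.lf (.negSucc 1189999999) 0)
(.lf (.negSucc 1269999999) 0))))
(.sy (.ofNat 2565450000)
(.sx (.ofNat 6375000000)
(.lf (.negSucc 1169999999) 0)
(.lf (.negSucc 1259999999) 0))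
(.sx (.ofNat 6375000000)
(.lf (.negSucc 1359999999) 0)
(.lf (.negSucc 1439999999) 0))))
(.sx (.ofNat 5750000000)
(.sy (.ofNat 5531350000)
(.sx (.ofNat 5125000000)
(.lf (.negSucc 1229999999) 0)
(.lf (.negSucc 1369999999) 0))
(.sx (.ofNat 5125000000)
(.lf (.negSucc 1319999999) 0)
(.lf (.negSucc 1429999999) 0)))
(.sy (.ofNat 5531350000)
(.sx (.ofNat 6375000000)
(.lf (.negSucc 1469999999) 0)
(.lf (.negSucc 1529999999) 0))
(.sx (.ofNat 6375000000)
(.lf (.negSucc 1499999999) 0)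
(.lf (.negSucc 1499999999) 0)))))
(.sy (.ofNat 9980200000)
(.sx (.ofNat 5750000000)
(.sy (.ofNat 8497250000)
(.lf (.negSucc 1379999999) 0)
(.lf (.negSucc 1289999999) 0))
(.sy (.ofNat 8497250000)
(.lf (.negSucc 1399999999) 0)
(.lf (.negSucc 1189999999) 0)))
(.sx (.ofNat 5750000000)
(.lf (.negSucc 1029999999) 0)
(.lf (.negSucc 749999999) 0)))))

theorem run_tr4_1P : Tr.run 1 2 (T4.C.mdA 2000) (T4.K1.shA (w2n 2000 1745329253 20974)) R4 (.ofNat 4500000000) tr4_1P (.ofNat 4500000000) (.ofNat 7000000000) (.negSucc 10781099999) (.ofNat 12946100000)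
    (-100000000000) 100000000000 = true := by decide +kernel

/-- tree -/
def tr4_1N : Tr :=
(.sy (.ofNat 1082500000)
(.sy (.negSucc 4849299999)
(.sx (.negSucc 7099999999)
(.sy (.negSucc 7815199999)
(.sy (.negSucc 9298149999)
(.lf (.ofNat 280000000) 0)
(.lf (.ofNat 110000000) 0))
(.sx (.negSucc 8399999999)
(.lf (.negSucc 139999999) 0)
(.lf (.negSucc 9999999) 0)))
(.sy (.negSucc 7815199999)
(.sy (.negSucc 9298149999)
(.lf (.ofNat 430000000) 0)
(.lf (.ofNat 300000000) 0))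
(.sx (.negSucc 5799999999)
(.lf (.ofNat 110000000) 0)
(.lf (.ofNat 200000000) 0))))
(.sx (.negSucc 7099999999)
(.sy (.negSucc 1883399999)
(.sx (.negSucc 8399999999)
(.sy (.negSucc 3366349999)
(.lf (.negSucc 269999999) 0)
(.lf (.negSucc 339999999) 0))
(.sy (.negSucc 3366349999)
(.lf (.negSucc 129999999) 0)
(.lf (.negSucc 189999999) 0)))
(.sx (.negSucc 8399999999)
(.sy (.negSucc 400449999)
(.lf (.negSucc 389999999) 0)
(.sx (.negSucc 9049999999)
(.lf (.negSucc 469999999) 0)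
(.lf (.negSucc 389999999) 0)))
(.sy (.negSucc 400449999)
(.lf (.negSucc 239999999) 0)
(.sx (.negSucc 7749999999)
(.lf (.negSucc 319999999) 0)
(.lf (.negSucc 249999999) 0)))))
(.sy (.negSucc 1883399999)
(.sx (.negSucc 5799999999)
(.sy (.negSucc 3366349999)
(.lf (.ofNat 0) 0)
(.lf (.negSucc 59999999) 0))
(.sy (.negSucc 3366349999)
(.lf (.ofNat 100000000) 0)
(.lf (.ofNat 40000000) 0)))
(.sx (.negSucc 5799999999)
(.sy (.negSucc 400449999)
(.sx (.negSucc 6449999999)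
(.lf (.negSucc 139999999) 0)
(.lf (.negSucc 79999999) 0))
(.sx (.negSucc 6449999999)
(.lf (.negSucc 179999999) 0)
(.lf (.negSucc 119999999) 0)))
(.sy (.negSucc 400449999)
(.sx (.negSucc 5149999999)
(.lf (.negSucc 29999999) 0)
(.lf (.ofNat 20000000) 0))
(.sx (.negSucc 5149999999)
(.lf (.negSucc 69999999) 0)
(.lf (.negSucc 19999999) 0)))))))
(.sy (.ofNat 7014300000)
(.sx (.negSucc 7099999999)
(.sy (.ofNat 4048400000)
(.sx (.negSucc 8399999999)
(.sy (.ofNat 2565450000)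
(.sx (.negSucc 9049999999)
(.sy (.ofNat 1823975000)
(.lf (.negSucc 489999999) 0)
(.lf (.negSucc 509999999) 0))
(.lf (.negSucc 429999999) 0))
(.sx (.negSucc 9049999999)
(.sx (.negSucc 9374999999)
(.lf (.negSucc 549999999) 0)
(.lf (.negSucc 509999999) 0))
(.lf (.negSucc 449999999) 0)))
(.sx (.negSucc 7749999999)
(.sy (.ofNat 2565450000)
(.lf (.negSucc 349999999) 0)
(.lf (.negSucc 379999999) 0))
(.sy (.ofNat 2565450000)
(.lf (.negSucc 279999999) 0)
(.lf (.negSucc 309999999) 0))))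
(.sx (.negSucc 8399999999)
(.sy (.ofNat 5531350000)
(.sx (.negSucc 9049999999)
(.sy (.ofNat 4789875000)
(.lf (.negSucc 539999999) 0)
(.lf (.negSucc 549999999) 0))
(.lf (.negSucc 479999999) 0))
(.sx (.negSucc 9049999999)
(.sy (.ofNat 6272825000)
(.lf (.negSucc 559999999) 0)
(.lf (.negSucc 569999999) 0))
(.lf (.negSucc 499999999) 0)))
(.sy (.ofNat 5531350000)
(.sx (.negSucc 7749999999)
(.lf (.negSucc 409999999) 0)
(.lf (.negSucc 339999999) 0))
(.sx (.negSucc 7749999999)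
(.lf (.negSucc 429999999) 0)
(.lf (.negSucc 359999999) 0)))))
(.sy (.ofNat 4048400000)
(.sx (.negSucc 5799999999)
(.sy (.ofNat 2565450000)
(.sx (.negSucc 6449999999)
(.lf (.negSucc 219999999) 0)
(.lf (.negSucc 159999999) 0))
(.sx (.negSucc 6449999999)
(.lf (.negSucc 249999999) 0)
(.lf (.negSucc 189999999) 0)))
(.sy (.ofNat 2565450000)
(.sx (.negSucc 5149999999)
(.lf (.negSucc 99999999) 0)
(.lf (.negSucc 49999999) 0))
(.sx (.negSucc 5149999999)
(.lf (.negSucc 129999999) 0)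
(.lf (.negSucc 89999999) 0))))
(.sx (.negSucc 5799999999)
(.sy (.ofNat 5531350000)
(.sx (.negSucc 6449999999)
(.lf (.negSucc 269999999) 0)
(.lf (.negSucc 209999999) 0))
(.lf (.negSucc 269999999) 0))
(.sy (.ofNat 5531350000)
(.lf (.negSucc 139999999) 0)
(.lf (.negSucc 169999999) 0)))))
(.sx (.negSucc 7099999999)
(.sy (.ofNat 9980200000)
(.sx (.negSucc 8399999999)
(.sy (.ofNat 8497250000)
(.sx (.negSucc 9049999999)
(.lf (.negSucc 579999999) 0)
(.lf (.negSucc 509999999) 0))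
(.lf (.negSucc 559999999) 0))
(.sy (.ofNat 8497250000)
(.lf (.negSucc 419999999) 0)
(.lf (.negSucc 439999999) 0)))
(.sy (.ofNat 11463150000)
(.sx (.negSucc 8399999999)
(.lf (.negSucc 579999999) 0)
(.lf (.negSucc 469999999) 0))
(.lf (.negSucc 559999999) 0)))
(.sy (.ofNat 9980200000)
(.sx (.negSucc 5799999999)
(.lf (.negSucc 319999999) 0)
(.lf (.negSucc 229999999) 0))
(.sy (.ofNat 11463150000)
(.lf (.negSucc 329999999) 0)
(.lf (.negSucc 379999999) 0))))))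

theorem run_tr4_1N : Tr.run 1 2 (T4.C.mdA 2000) (T4.K1.shA (w2n 2000 1745329253 20974)) R4 (.ofNat 4500000000) tr4_1N (.negSucc 9699999999) (.negSucc 4499999999) (.negSucc 10781099999) (.ofNat 12946100000)
    (-100000000000) 100000000000 = true := by decide +kernel

/-- tree -/
def br4 : Tr :=
(.sy (.ofNat 1082500000)
(.sy (.negSucc 4849299999)
(.sz (.negSucc 159399999)
(.sx (.negSucc 1349999999)
(.sy (.negSucc 7815199999)
(.lf (.ofNat 0) 0)
(.lf (.ofNat 0) 0))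
(.sy (.negSucc 7815199999)
(.lf (.ofNat 0) 0)
(.lf (.ofNat 0) 0)))
(.sx (.negSucc 1349999999)
(.lf (.ofNat 0) 0)
(.lf (.ofNat 0) 0)))
(.sz (.negSucc 159399999)
(.sx (.negSucc 1349999999)
(.lf (.ofNat 0) 0)
(.lf (.ofNat 0) 0))
(.sx (.negSucc 1349999999)
(.lf (.ofNat 0) 0)
(.lf (.ofNat 0) 0))))
(.sy (.ofNat 7014300000)
(.sz (.negSucc 159399999)
(.sx (.negSucc 1349999999)
(.lf (.ofNat 0) 0)
(.lf (.ofNat 0) 0))
(.sx (.negSucc 1349999999)
(.lf (.ofNat 0) 0)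
(.lf (.ofNat 0) 0)))
(.sz (.negSucc 159399999)
(.lf (.ofNat 0) 0)
(.lf (.ofNat 0) 0))))

theorem run_br4 : Tr.runB T4.C T4.K0 (D4.bt * 2000 / 10000 + 1) R4.om br4 (-D4.m) D4.M D4.ylo D4.yhi
    (-R4.bl) R4.bh = true := by decide +kernel

end Pool.Agent.Helper30.DL
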