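import Pool.Agent.Helper30.DL.Run.C4
import Pool.Agent.Helper30.DL.Seg

/-! MP_b4564f_an, all delays. Cell 4: kernel computations (generated). -/

set_option autoImplicit false
set_option maxRecDepth 100000

namespace Pool.Agent.Helper30.DL

theorem tbl4 : tblOK P4 (AF.cst (2000 * 1000000) 0 0) (AF.cst ((10000 - 2000) * 1000000) 0 0) 1745329250 1745329253 1 T4 1 = true := by
  decide +kernel

theorem sc4 : scC T4 2000 R4 D4 = true := by decide +kernel

end Pool.Agent.Helper30.DL
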