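import Pool.Agent.Helper30.DL.Run.C5

/-! MP_b4564f_an, all delays. Cell 5: kernel computations (generated). -/

set_option autoImplicit false
set_option maxRecDepth 100000

namespace Pool.Agent.Helper30.DL

/-- tree -/
def tr5_0A : Tr :=
(.sy (.ofNat 0)
(.sy (.negSucc 4999999999)
(.sx (.ofNat 2500000000)
(.sy (.negSucc 7499999999)
(.lf (.negSucc 349999999) 0)
(.lf (.negSucc 369999999) 0))
(.sy (.negSucc 7499999999)
(.lf (.ofNat 70000000) 0)
(.lf (.ofNat 40000000) 0)))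
(.sx (.ofNat 2500000000)
(.lf (.negSucc 409999999) 0)
(.sy (.negSucc 2499999999)
(.lf (.negSucc 19999999) 0)
(.lf (.negSucc 119999999) 0))))
(.sy (.ofNat 5000000000)
(.sx (.ofNat 2500000000)
(.sy (.ofNat 2500000000)
(.lf (.negSucc 459999999) 0)
(.lf (.negSucc 509999999) 0))
(.sy (.ofNat 2500000000)
(.lf (.negSucc 229999999) 0)
(.lf (.negSucc 339999999) 0)))
(.sy (.ofNat 7500000000)
(.sx (.ofNat 2500000000)
(.lf (.negSucc 559999999) 0)
(.lf (.negSucc 439999999) 0))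
(.sx (.ofNat 2500000000)
(.lf (.negSucc 609999999) 0)
(.lf (.negSucc 509999999) 0)))))

theorem run_tr5_0A : Tr.run 0 0 T5.C T5.K0 R5 (.ofNat 5000000000) tr5_0A (.ofNat 0) (.ofNat 5000000000) (.negSucc 9999999999) (.ofNat 10000000000)
    (-100000000000) 100000000000 = true := by decide +kernel

/-- tree -/
def tr5_0AA : Tr :=
(.sy (.ofNat 0)
(.sy (.negSucc 4999999999)
(.sx (.negSucc 2499999999)
(.sy (.negSucc 7499999999)
(.lf (.negSucc 929999999) 0)
(.lf (.negSucc 899999999) 0))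
(.sy (.negSucc 7499999999)
(.lf (.negSucc 709999999) 0)
(.lf (.negSucc 699999999) 0)))
(.sx (.negSucc 2499999999)
(.sy (.negSucc 2499999999)
(.lf (.negSucc 859999999) 0)
(.lf (.negSucc 789999999) 0))
(.lf (.negSucc 669999999) 0)))
(.sy (.ofNat 5000000000)
(.sy (.ofNat 2500000000)
(.lf (.negSucc 669999999) 0)
(.sx (.negSucc 2499999999)
(.lf (.negSucc 569999999) 0)
(.lf (.negSucc 569999999) 0)))
(.sy (.ofNat 7500000000)
(.sx (.negSucc 2499999999)
(.lf (.negSucc 409999999) 0)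
(.lf (.negSucc 519999999) 0))
(.sx (.negSucc 2499999999)
(.lf (.negSucc 199999999) 0)
(.lf (.negSucc 449999999) 0)))))

theorem run_tr5_0AA : Tr.run 0 0 T5.C T5.K0 R5 (.ofNat 5000000000) tr5_0AA (.negSucc 4999999999) (.ofNat 0) (.negSucc 9999999999) (.ofNat 10000000000)
    (-100000000000) 100000000000 = true := by decide +kernel

/-- tree -/
def tr5_0B : Tr :=
(.sy (.ofNat 0)
(.sy (.negSucc 4999999999)
(.sx (.ofNat 6133150000)
(.sy (.negSucc 7499999999)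
(.sx (.ofNat 3066575000)
(.sy (.negSucc 8749999999)
(.lf (.negSucc 649999999) 0)
(.lf (.negSucc 469999999) 0))
(.sy (.negSucc 8749999999)
(.lf (.negSucc 849999999) 0)
(.lf (.negSucc 619999999) 0)))
(.sx (.ofNat 3066575000)
(.sy (.negSucc 6249999999)
(.lf (.negSucc 329999999) 0)
(.lf (.negSucc 209999999) 0))
(.sy (.negSucc 6249999999)
(.lf (.negSucc 429999999) 0)
(.lf (.negSucc 269999999) 0))))
(.sy (.negSucc 8152417599)
.ou
(.sy (.negSucc 6576208799)
(.sx (.ofNat 9199725000)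
(.lf (.negSucc 549999999) 0)
.ou)
(.sx (.ofNat 9199725000)
(.lf (.negSucc 329999999) 0)
(.sy (.negSucc 5434945066)
.ou
(.lf (.negSucc 289999999) 0))))))
(.sx (.ofNat 6133150000)
(.sx (.ofNat 3066575000)
(.sy (.negSucc 2499999999)
(.lf (.negSucc 79999999) 0)
(.lf (.ofNat 0) 0))
(.sy (.negSucc 2499999999)
(.sy (.negSucc 3749999999)
(.lf (.negSucc 139999999) 0)
(.lf (.negSucc 59999999) 0))
(.lf (.ofNat 10000000) 0)))
(.sx (.ofNat 9199725000)
(.sy (.negSucc 2499999999)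
(.sy (.negSucc 3749999999)
(.lf (.negSucc 179999999) 0)
(.lf (.negSucc 79999999) 0))
(.lf (.ofNat 0) 0))
(.sy (.negSucc 2499999999)
(.sy (.negSucc 3749999999)
(.lf (.negSucc 209999999) 0)
(.lf (.negSucc 109999999) 0))
(.lf (.negSucc 29999999) 0)))))
(.sx (.ofNat 6133150000)
(.sy (.ofNat 5000000000)
(.sx (.ofNat 3066575000)
(.sy (.ofNat 2500000000)
(.lf (.negSucc 9999999) 0)
(.lf (.negSucc 119999999) 0))
(.sy (.ofNat 2500000000)
(.lf (.negSucc 19999999) 0)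
(.sy (.ofNat 3750000000)
(.lf (.negSucc 99999999) 0)
(.lf (.negSucc 179999999) 0))))
(.sy (.ofNat 7500000000)
(.sx (.ofNat 3066575000)
(.sy (.ofNat 6250000000)
(.lf (.negSucc 239999999) 0)
(.lf (.negSucc 339999999) 0))
(.sy (.ofNat 6250000000)
(.lf (.negSucc 249999999) 0)
(.lf (.negSucc 309999999) 0)))
(.sx (.ofNat 3066575000)
(.sy (.ofNat 8750000000)
(.lf (.negSucc 459999999) 0)
(.lf (.negSucc 589999999) 0))
(.sx (.ofNat 4599862500)
(.sy (.ofNat 8750000000)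
(.lf (.negSucc 439999999) 0)
(.lf (.negSucc 489999999) 0))
(.sy (.ofNat 8750000000)
(.lf (.negSucc 199999999) 0)
(.lf (.negSucc 89999999) 0))))))
(.sy (.ofNat 8152417600)
(.sy (.ofNat 4076208800)
(.sx (.ofNat 9199725000)
(.sy (.ofNat 2038104400)
(.lf (.ofNat 0) 0)
(.lf (.negSucc 39999999) 0))
(.sy (.ofNat 2038104400)
(.lf (.ofNat 20000000) 0)
(.sx (.ofNat 10733012500)
(.lf (.ofNat 80000000) 0)
(.lf (.ofNat 190000000) 1))))
(.sx (.ofNat 9199725000)
(.sy (.ofNat 6114313200)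
(.sx (.ofNat 7666437500)
(.lf (.negSucc 69999999) 0)
(.sy (.ofNat 5095261000)
(.lf (.ofNat 70000000) 0)
(.lf (.ofNat 210000000) 0)))
(.sx (.ofNat 7666437500)
(.sy (.ofNat 7133365400)
(.lf (.ofNat 30000000) 0)
(.lf (.ofNat 190000000) 0))
(.sy (.ofNat 6521934080)
(.lf (.ofNat 360000000) 0)
.ou)))
(.sy (.ofNat 5434945067)
(.lf (.ofNat 460000000) 1)
.ou)))
.ou)))

theorem run_tr5_0B : Tr.run 0 1 T5.C T5.K0 R5 (.ofNat 5000000000) tr5_0B (.ofNat 0) (.ofNat 12266300000) (.negSucc 9999999999) (.ofNat 10000000000)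
    (-100000000000) 100000000000 = true := by decide +kernel

/-- tree -/
def tr5_0BB : Tr :=
(.sy (.ofNat 0)
(.sy (.negSucc 4999999999)
(.sx (.negSucc 5024399999)
(.sy (.negSucc 7499999999)
(.sx (.negSucc 7536599999)
.ou
(.sy (.negSucc 8749999999)
(.lf (.ofNat 240000000) 0)
(.lf (.ofNat 90000000) 0)))
(.sx (.negSucc 7536599999)
(.sy (.negSucc 6634291325)
.ou
(.lf (.negSucc 119999999) 0))
(.sy (.negSucc 6249999999)
(.lf (.negSucc 19999999) 0)
(.lf (.negSucc 99999999) 0))))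
(.sy (.negSucc 7499999999)
(.sx (.negSucc 2512199999)
(.sy (.negSucc 8749999999)
(.lf (.ofNat 20000000) 0)
(.lf (.negSucc 49999999) 0))
(.sy (.negSucc 8749999999)
(.lf (.negSucc 319999999) 0)
(.lf (.negSucc 259999999) 0)))
(.sx (.negSucc 2512199999)
(.sy (.negSucc 6249999999)
(.lf (.negSucc 89999999) 0)
(.lf (.negSucc 109999999) 0))
(.sy (.negSucc 6249999999)
(.lf (.negSucc 199999999) 0)
(.lf (.negSucc 149999999) 0)))))
(.sx (.negSucc 5024399999)
(.sy (.negSucc 2499999999)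
(.sx (.negSucc 7536599999)
(.sy (.negSucc 3749999999)
(.lf (.negSucc 189999999) 0)
(.lf (.negSucc 209999999) 0))
(.sy (.negSucc 3749999999)
(.lf (.negSucc 139999999) 0)
(.lf (.negSucc 139999999) 0)))
(.lf (.negSucc 109999999) 0))
(.sy (.negSucc 2499999999)
(.sx (.negSucc 2512199999)
(.sy (.negSucc 3749999999)
(.lf (.negSucc 109999999) 0)
(.lf (.negSucc 89999999) 0))
(.lf (.negSucc 79999999) 0))
(.lf (.negSucc 29999999) 0))))
(.sy (.ofNat 5000000000)
(.sx (.negSucc 5024399999)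
(.sy (.ofNat 2500000000)
(.lf (.ofNat 50000000) 0)
(.sx (.negSucc 7536599999)
(.sy (.ofNat 3750000000)
(.lf (.ofNat 280000000) 0)
(.lf (.ofNat 430000000) 0))
(.sy (.ofNat 3750000000)
(.lf (.ofNat 150000000) 0)
(.lf (.ofNat 220000000) 0))))
(.sy (.ofNat 2500000000)
(.lf (.ofNat 10000000) 0)
(.sx (.negSucc 2512199999)
(.lf (.ofNat 60000000) 0)
(.lf (.negSucc 39999999) 0))))
(.sx (.negSucc 5024399999)
(.sy (.ofNat 7500000000)
(.sx (.negSucc 7536599999)
(.sy (.ofNat 6634291326)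
(.lf (.ofNat 610000000) 0)
.ou)
(.sy (.ofNat 6250000000)
(.lf (.ofNat 280000000) 0)
(.lf (.ofNat 330000000) 0)))
(.sx (.negSucc 7536599999)
.ou
(.sx (.negSucc 6280499999)
(.sy (.ofNat 7961149591)
(.lf (.ofNat 450000000) 0)
.ou)
(.sy (.ofNat 8750000000)
(.lf (.ofNat 260000000) 0)
(.lf (.ofNat 260000000) 0)))))
(.sy (.ofNat 7500000000)
(.sx (.negSucc 2512199999)
(.sx (.negSucc 3768299999)
(.lf (.ofNat 110000000) 0)
(.lf (.ofNat 10000000) 0))
(.sy (.ofNat 6250000000)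
(.lf (.negSucc 99999999) 0)
(.lf (.negSucc 169999999) 0)))
(.sx (.negSucc 2512199999)
(.sy (.ofNat 8750000000)
(.lf (.ofNat 10000000) 0)
(.lf (.negSucc 39999999) 0))
(.sy (.ofNat 8750000000)
(.lf (.negSucc 259999999) 0)
(.lf (.negSucc 359999999) 0)))))))

theorem run_tr5_0BB : Tr.run 0 1 T5.C T5.K0 R5 (.ofNat 5000000000) tr5_0BB (.negSucc 10048799999) (.ofNat 0) (.negSucc 9999999999) (.ofNat 10000000000)
    (-100000000000) 100000000000 = true := by decide +kernel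

/-- tree -/
def tr5_0P : Tr :=
(.sy (.ofNat 1108750000)
(.sy (.negSucc 4470024999)
(.sy (.negSucc 7259412499)
(.sy (.negSucc 8654106249)
(.sx (.ofNat 5800000000)
(.lf (.negSucc 119999999) 0)
(.lf (.negSucc 69999999) 0))
(.sx (.ofNat 5800000000)
(.lf (.negSucc 19999999) 0)
(.lf (.ofNat 40000000) 0)))
(.sy (.negSucc 5864718749)
(.sx (.ofNat 5800000000)
(.lf (.ofNat 50000000) 0)
(.lf (.ofNat 110000000) 0))
(.sx (.ofNat 5800000000)
(.sx (.ofNat 5400000000)
(.lf (.ofNat 70000000) 0)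
(.lf (.ofNat 90000000) 0))
(.sx (.ofNat 6200000000)
(.lf (.ofNat 120000000) 0)
(.lf (.ofNat 150000000) 0)))))
(.sy (.negSucc 1680637499)
(.sx (.ofNat 5800000000)
(.sy (.negSucc 3075331249)
(.sx (.ofNat 5400000000)
(.lf (.ofNat 70000000) 0)
(.lf (.ofNat 100000000) 0))
(.sx (.ofNat 5400000000)
(.lf (.ofNat 50000000) 0)
(.lf (.ofNat 70000000) 0)))
(.sy (.negSucc 3075331249)
(.sx (.ofNat 6200000000)
(.lf (.ofNat 120000000) 0)
(.lf (.ofNat 150000000) 0))
(.sy (.negSucc 2377984374)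
(.lf (.ofNat 110000000) 0)
(.lf (.ofNat 100000000) 0))))
(.sy (.negSucc 285943749)
(.sx (.ofNat 5800000000)
(.sy (.negSucc 983290624)
(.lf (.ofNat 40000000) 0)
(.lf (.ofNat 20000000) 0))
(.sy (.negSucc 983290624)
(.lf (.ofNat 80000000) 0)
(.lf (.ofNat 50000000) 0)))
(.sx (.ofNat 5800000000)
(.sx (.ofNat 5400000000)
(.lf (.negSucc 9999999) 0)
(.lf (.ofNat 0) 0))
(.sx (.ofNat 6200000000)
(.lf (.ofNat 10000000) 0)
(.lf (.ofNat 30000000) 0))))))
(.sy (.ofNat 6687525000)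
(.sy (.ofNat 3898137500)
(.sx (.ofNat 5800000000)
(.sy (.ofNat 2503443750)
(.sx (.ofNat 5400000000)
(.lf (.negSucc 49999999) 0)
(.lf (.negSucc 29999999) 0))
(.sx (.ofNat 5400000000)
(.lf (.negSucc 59999999) 0)
(.lf (.negSucc 39999999) 0)))
(.sy (.ofNat 2503443750)
(.sx (.ofNat 6200000000)
(.lf (.negSucc 19999999) 0)
(.lf (.ofNat 0) 0))
(.sx (.ofNat 6200000000)
(.lf (.negSucc 19999999) 0)
(.lf (.ofNat 10000000) 0))))
(.sy (.ofNat 5292831250)
(.sx (.ofNat 5800000000)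
(.lf (.negSucc 29999999) 0)
(.lf (.ofNat 40000000) 0))
(.sx (.ofNat 5800000000)
(.lf (.ofNat 40000000) 0)
(.lf (.ofNat 150000000) 0))))
(.sy (.ofNat 9476912500)
(.sy (.ofNat 8082218750)
(.sx (.ofNat 5800000000)
(.lf (.ofNat 150000000) 0)
(.lf (.ofNat 320000000) 0))
(.sx (.ofNat 5800000000)
(.lf (.ofNat 320000000) 0)
(.lf (.ofNat 530000000) 0)))
(.sy (.ofNat 10871606250)
(.lf (.ofNat 650000000) 0)
(.lf (.ofNat 920000000) 0)))))

theorem run_tr5_0P : Tr.run 0 2 T5.C T5.K0 R5 (.ofNat 5000000000) tr5_0P (.ofNat 5000000000) (.ofNat 6600000000) (.negSucc 10048799999) (.ofNat 12266300000)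
    (-100000000000) 100000000000 = true := by decide +kernel

/-- tree -/
def tr5_0N : Tr :=
(.sy (.ofNat 1108750000)
(.sy (.negSucc 4470024999)
(.sy (.negSucc 7259412499)
(.sx (.negSucc 7149999999)
(.sy (.negSucc 8654106249)
(.sx (.negSucc 8224999999)
(.lf (.ofNat 1250000000) 0)
(.lf (.ofNat 1000000000) 0))
(.sx (.negSucc 8224999999)
(.lf (.ofNat 620000000) 0)
(.lf (.ofNat 520000000) 0)))
(.sy (.negSucc 8654106249)
(.sx (.negSucc 6074999999)
(.lf (.ofNat 800000000) 0)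
(.lf (.ofNat 640000000) 0))
(.sx (.negSucc 6074999999)
(.lf (.ofNat 440000000) 0)
(.lf (.ofNat 370000000) 0))))
(.sx (.negSucc 7149999999)
(.sy (.negSucc 5864718749)
(.sx (.negSucc 8224999999)
(.lf (.ofNat 220000000) 0)
(.lf (.ofNat 200000000) 0))
(.sx (.negSucc 8224999999)
(.lf (.negSucc 59999999) 0)
(.sy (.negSucc 5167371874)
(.lf (.ofNat 20000000) 0)
(.lf (.negSucc 69999999) 0))))
(.sy (.negSucc 5864718749)
(.sx (.negSucc 6074999999)
(.lf (.ofNat 190000000) 0)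
(.sy (.negSucc 6562065624)
(.lf (.ofNat 220000000) 0)
(.lf (.ofNat 140000000) 0)))
(.sx (.negSucc 6074999999)
(.sy (.negSucc 5167371874)
(.lf (.ofNat 50000000) 0)
(.lf (.negSucc 29999999) 0))
(.sy (.negSucc 5167371874)
(.lf (.ofNat 70000000) 0)
(.lf (.ofNat 10000000) 0))))))
(.sx (.negSucc 7149999999)
(.sy (.negSucc 1680637499)
(.sx (.negSucc 8224999999)
(.sy (.negSucc 3075331249)
(.sy (.negSucc 3772678124)
(.lf (.negSucc 219999999) 0)
(.lf (.negSucc 309999999) 0))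
(.sx (.negSucc 8762499999)
(.lf (.negSucc 439999999) 0)
(.lf (.negSucc 389999999) 0)))
(.sy (.negSucc 3075331249)
(.sy (.negSucc 3772678124)
(.lf (.negSucc 159999999) 0)
(.lf (.negSucc 229999999) 0))
(.sx (.negSucc 7687499999)
(.lf (.negSucc 339999999) 0)
(.lf (.negSucc 299999999) 0))))
(.sx (.negSucc 8224999999)
(.sy (.negSucc 285943749)
(.sx (.negSucc 8762499999)
(.lf (.negSucc 559999999) 0)
(.lf (.negSucc 499999999) 0))
(.lf (.negSucc 609999999) 0))
(.sy (.negSucc 285943749)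
(.sx (.negSucc 7687499999)
(.lf (.negSucc 439999999) 0)
(.lf (.negSucc 379999999) 0))
(.sx (.negSucc 7687499999)
(.lf (.negSucc 509999999) 0)
(.lf (.negSucc 449999999) 0)))))
(.sy (.negSucc 1680637499)
(.sx (.negSucc 6074999999)
(.sy (.negSucc 3075331249)
(.sy (.negSucc 3772678124)
(.lf (.negSucc 99999999) 0)
(.lf (.negSucc 159999999) 0))
(.sx (.negSucc 6612499999)
(.lf (.negSucc 249999999) 0)
(.lf (.negSucc 209999999) 0)))
(.sy (.negSucc 3075331249)
(.sx (.negSucc 5537499999)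
(.lf (.negSucc 79999999) 0)
(.lf (.negSucc 59999999) 0))
(.sx (.negSucc 5537499999)
(.lf (.negSucc 169999999) 0)
(.sy (.negSucc 2377984374)
(.lf (.negSucc 119999999) 0)
(.lf (.negSucc 149999999) 0)))))
(.sx (.negSucc 6074999999)
(.sy (.negSucc 285943749)
(.sx (.negSucc 6612499999)
(.lf (.negSucc 329999999) 0)
(.lf (.negSucc 279999999) 0))
(.sx (.negSucc 6612499999)
(.lf (.negSucc 389999999) 0)
(.lf (.negSucc 329999999) 0)))
(.sy (.negSucc 285943749)
(.sx (.negSucc 5537499999)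
(.lf (.negSucc 229999999) 0)
(.lf (.negSucc 189999999) 0))
(.sx (.negSucc 5537499999)
(.lf (.negSucc 269999999) 0)
(.lf (.negSucc 229999999) 0)))))))
(.sy (.ofNat 6687525000)
(.sx (.negSucc 7149999999)
(.sy (.ofNat 3898137500)
(.sx (.negSucc 8224999999)
(.sy (.ofNat 2503443750)
(.lf (.negSucc 659999999) 0)
(.lf (.negSucc 699999999) 0))
(.sy (.ofNat 2503443750)
(.sx (.negSucc 7687499999)
(.lf (.negSucc 559999999) 0)
(.lf (.negSucc 489999999) 0))
(.lf (.negSucc 549999999) 0)))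
(.sx (.negSucc 8224999999)
(.sy (.ofNat 5292831250)
(.lf (.negSucc 719999999) 0)
(.lf (.negSucc 739999999) 0))
(.sy (.ofNat 5292831250)
(.lf (.negSucc 569999999) 0)
(.lf (.negSucc 579999999) 0))))
(.sy (.ofNat 3898137500)
(.sx (.negSucc 6074999999)
(.sy (.ofNat 2503443750)
(.sx (.negSucc 6612499999)
(.lf (.negSucc 419999999) 0)
(.lf (.negSucc 359999999) 0))
(.sx (.negSucc 6612499999)
(.lf (.negSucc 449999999) 0)
(.lf (.negSucc 379999999) 0)))
(.sy (.ofNat 2503443750)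
(.sx (.negSucc 5537499999)
(.lf (.negSucc 299999999) 0)
(.lf (.negSucc 249999999) 0))
(.sx (.negSucc 5537499999)
(.lf (.negSucc 319999999) 0)
(.lf (.negSucc 269999999) 0))))
(.sx (.negSucc 6074999999)
(.sy (.ofNat 5292831250)
(.lf (.negSucc 429999999) 0)
(.lf (.negSucc 439999999) 0))
(.sy (.ofNat 5292831250)
(.sx (.negSucc 5537499999)
(.lf (.negSucc 329999999) 0)
(.lf (.negSucc 269999999) 0))
(.lf (.negSucc 309999999) 0)))))
(.sx (.negSucc 7149999999)
(.sy (.ofNat 9476912500)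
(.sx (.negSucc 8224999999)
(.sy (.ofNat 8082218750)
(.lf (.negSucc 739999999) 0)
(.lf (.negSucc 739999999) 0))
(.sy (.ofNat 8082218750)
(.lf (.negSucc 589999999) 0)
(.lf (.negSucc 589999999) 0)))
(.sx (.negSucc 8224999999)
(.lf (.negSucc 749999999) 0)
(.lf (.negSucc 599999999) 0)))
(.sy (.ofNat 9476912500)
(.sx (.negSucc 6074999999)
(.sy (.ofNat 8082218750)
(.lf (.negSucc 439999999) 0)
(.lf (.negSucc 449999999) 0))
(.sy (.ofNat 8082218750)
(.lf (.negSucc 309999999) 0)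
(.lf (.negSucc 319999999) 0)))
(.sx (.negSucc 6074999999)
(.lf (.negSucc 459999999) 0)
(.lf (.negSucc 329999999) 0))))))

theorem run_tr5_0N : Tr.run 0 2 T5.C T5.K0 R5 (.ofNat 5000000000) tr5_0N (.negSucc 9299999999) (.negSucc 4999999999) (.negSucc 10048799999) (.ofNat 12266300000)
    (-100000000000) 100000000000 = true := by decide +kernel

end Pool.Agent.Helper30.DL
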