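import Pool.Agent.Helper30.DL.Run.C5

/-! MP_b4564f_an, all delays. Cell 5: kernel computations (generated). -/

set_option autoImplicit false
set_option maxRecDepth 100000

namespace Pool.Agent.Helper30.DL

/-- tree -/
def tr5_1A : Tr :=
(.sy (.ofNat 0)
(.sy (.negSucc 4999999999)
(.sy (.negSucc 7499999999)
(.sx (.ofNat 1750000000)
(.lf (.negSucc 4659999999) 0)
(.lf (.negSucc 1879999999) 0))
(.sx (.ofNat 1750000000)
(.lf (.negSucc 5979999999) 0)
(.lf (.negSucc 2529999999) 0)))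
(.sx (.ofNat 1750000000)
(.sx (.ofNat 875000000)
(.sy (.negSucc 2499999999)
(.lf (.negSucc 13139999999) 0)
(.lf (.negSucc 15569999999) 0))
(.lf (.negSucc 5849999999) 0))
(.sy (.negSucc 2499999999)
(.lf (.negSucc 3229999999) 0)
(.sx (.ofNat 2625000000)
(.lf (.negSucc 4459999999) 0)
(.lf (.negSucc 3579999999) 0)))))
(.sy (.ofNat 5000000000)
(.sx (.ofNat 1750000000)
(.sx (.ofNat 875000000)
(.sx (.ofNat 437500000)
(.lf (.ofNat 0) 0)
(.lf (.negSucc 13559999999) 0))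
(.lf (.negSucc 7909999999) 0))
(.sy (.ofNat 2500000000)
(.sx (.ofNat 2625000000)
(.lf (.negSucc 5269999999) 0)
(.lf (.negSucc 4329999999) 0))
(.sx (.ofNat 2625000000)
(.lf (.negSucc 6089999999) 0)
(.lf (.negSucc 5119999999) 0))))
(.sx (.ofNat 1750000000)
(.sx (.ofNat 875000000)
(.sx (.ofNat 437500000)
(.lf (.ofNat 0) 0)
(.lf (.negSucc 17049999999) 0))
(.lf (.negSucc 10039999999) 0))
(.sy (.ofNat 7500000000)
(.sx (.ofNat 2625000000)
(.lf (.negSucc 6939999999) 0)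
(.lf (.negSucc 5919999999) 0))
(.sx (.ofNat 2625000000)
(.lf (.negSucc 7809999999) 0)
(.lf (.negSucc 6729999999) 0))))))

theorem run_tr5_1A : Tr.run 1 0 (T5.C.mdA 2000) (T5.K1.shA (w2n 2000 1427996662 20061)) R5 (.ofNat 3500000000) tr5_1A (.ofNat 0) (.ofNat 3500000000) (.negSucc 9999999999) (.ofNat 10000000000)
    (-100000000000) 100000000000 = true := by decide +kernel

/-- tree -/
def tr5_1AA : Tr :=
(.sy (.ofNat 0)
(.sy (.negSucc 4999999999)
(.sy (.negSucc 7499999999)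
(.sx (.negSucc 1749999999)
(.lf (.negSucc 239999999) 0)
(.lf (.ofNat 2260000000) 0))
(.sx (.negSucc 1749999999)
(.lf (.ofNat 0) 0)
(.lf (.ofNat 3200000000) 0)))
(.sx (.negSucc 1749999999)
(.lf (.ofNat 370000000) 0)
(.sx (.negSucc 874999999)
(.lf (.ofNat 2480000000) 0)
(.lf (.ofNat 10940000000) 0))))
(.sy (.ofNat 5000000000)
(.sx (.negSucc 1749999999)
(.sy (.ofNat 2500000000)
(.lf (.ofNat 760000000) 0)
(.lf (.ofNat 1040000000) 0))
(.sx (.negSucc 874999999)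
(.lf (.ofNat 3640000000) 0)
(.sx (.negSucc 437499999)
(.lf (.ofNat 9280000000) 0)
(.lf (.ofNat 0) 0))))
(.sx (.negSucc 1749999999)
(.sy (.ofNat 7500000000)
(.lf (.ofNat 1320000000) 0)
(.lf (.ofNat 1630000000) 0))
(.sx (.negSucc 874999999)
(.lf (.ofNat 4810000000) 0)
(.sx (.negSucc 437499999)
(.lf (.ofNat 11840000000) 0)
(.lf (.ofNat 0) 0))))))

theorem run_tr5_1AA : Tr.run 1 0 (T5.C.mdA 2000) (T5.K1.shA (w2n 2000 1427996662 20061)) R5 (.ofNat 3500000000) tr5_1AA (.negSucc 3499999999) (.ofNat 0) (.negSucc 9999999999) (.ofNat 10000000000)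
    (-100000000000) 100000000000 = true := by decide +kernel

/-- tree -/
def tr5_1B : Tr :=
(.sy (.ofNat 0)
(.sx (.ofNat 6133150000)
(.sy (.negSucc 4999999999)
(.sx (.ofNat 3066575000)
(.sy (.negSucc 7499999999)
(.sx (.ofNat 1533287500)
(.lf (.ofNat 1540000000) 0)
(.lf (.negSucc 169999999) 0))
(.lf (.negSucc 199999999) 0))
(.sy (.negSucc 7499999999)
(.sx (.ofNat 4599862500)
(.sy (.negSucc 8749999999)
(.lf (.negSucc 619999999) 0)
(.lf (.negSucc 469999999) 0))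
(.sy (.negSucc 7608923092)
.ou
(.lf (.negSucc 529999999) 0)))
(.sx (.ofNat 4599862500)
(.lf (.negSucc 359999999) 0)
(.lf (.negSucc 399999999) 0))))
(.sx (.ofNat 3066575000)
(.sy (.negSucc 2499999999)
(.lf (.negSucc 949999999) 0)
(.lf (.negSucc 1959999999) 0))
(.sy (.negSucc 2499999999)
(.lf (.negSucc 369999999) 0)
(.lf (.negSucc 639999999) 0))))
(.sy (.negSucc 5706692319)
.ou
(.sx (.ofNat 9199725000)
(.sy (.negSucc 2853346159)
(.sx (.ofNat 7666437500)
(.lf (.negSucc 299999999) 0)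
(.sy (.negSucc 4565353855)
.ou
(.lf (.negSucc 279999999) 0)))
(.lf (.negSucc 369999999) 0))
(.sy (.negSucc 3804461546)
.ou
(.sy (.negSucc 1902230773)
(.lf (.negSucc 249999999) 0)
(.lf (.negSucc 329999999) 0))))))
(.sx (.ofNat 6133150000)
(.sy (.ofNat 5000000000)
(.sx (.ofNat 3066575000)
(.sx (.ofNat 1533287500)
(.sy (.ofNat 2500000000)
(.lf (.negSucc 6289999999) 0)
(.sx (.ofNat 766643750)
(.lf (.negSucc 17079999999) 0)
(.lf (.negSucc 6189999999) 0)))
(.sy (.ofNat 2500000000)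
(.lf (.negSucc 2249999999) 0)
(.lf (.negSucc 3509999999) 0)))
(.sy (.ofNat 2500000000)
(.lf (.negSucc 1249999999) 0)
(.sy (.ofNat 3750000000)
(.lf (.negSucc 1959999999) 0)
(.sx (.ofNat 4599862500)
(.lf (.negSucc 2809999999) 0)
(.lf (.negSucc 2359999999) 0)))))
(.sx (.ofNat 3066575000)
(.sx (.ofNat 1533287500)
(.sx (.ofNat 766643750)
(.sx (.ofNat 383321875)
(.lf (.ofNat 0) 0)
(.lf (.negSucc 17059999999) 0))
(.sy (.ofNat 7500000000)
(.lf (.negSucc 8379999999) 0)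
(.lf (.negSucc 10849999999) 0)))
(.sy (.ofNat 7500000000)
(.sx (.ofNat 2299931250)
(.lf (.negSucc 5729999999) 0)
(.lf (.negSucc 4649999999) 0))
(.sx (.ofNat 2299931250)
(.lf (.negSucc 7729999999) 0)
(.sy (.ofNat 8750000000)
(.lf (.negSucc 5999999999) 0)
(.lf (.negSucc 6989999999) 0)))))
(.sy (.ofNat 7500000000)
(.sy (.ofNat 6250000000)
(.sx (.ofNat 4599862500)
(.lf (.negSucc 3509999999) 0)
(.lf (.negSucc 3019999999) 0))
(.sx (.ofNat 4599862500)
(.sx (.ofNat 3833218750)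
(.lf (.negSucc 4489999999) 0)
(.lf (.negSucc 4139999999) 0))
(.sx (.ofNat 5366506250)
(.lf (.negSucc 3859999999) 0)
(.sy (.ofNat 6521934080)
(.lf (.negSucc 3309999999) 0)
.ou))))
(.sx (.ofNat 4599862500)
(.sy (.ofNat 8750000000)
(.sx (.ofNat 3833218750)
(.lf (.negSucc 5379999999) 0)
(.lf (.negSucc 4979999999) 0))
(.sx (.ofNat 3833218750)
(.lf (.negSucc 6329999999) 0)
(.sy (.ofNat 9130707712)
(.lf (.negSucc 5549999999) 0)
.ou)))
(.sy (.ofNat 7608923093)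
(.lf (.negSucc 4099999999) 0)
.ou)))))
(.sy (.ofNat 5706692320)
(.sx (.ofNat 9199725000)
(.sy (.ofNat 2853346160)
(.sy (.ofNat 1426673080)
(.lf (.negSucc 719999999) 0)
(.lf (.negSucc 1099999999) 0))
(.sx (.ofNat 7666437500)
(.sy (.ofNat 4280019240)
(.lf (.negSucc 1719999999) 0)
(.lf (.negSucc 2309999999) 1))
(.sy (.ofNat 4565353856)
(.lf (.negSucc 1489999999) 0)
.ou)))
(.sy (.ofNat 3804461547)
(.sy (.ofNat 1902230773)
(.lf (.negSucc 579999999) 0)
(.sx (.ofNat 10733012500)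
(.lf (.negSucc 1009999999) 0)
(.sy (.ofNat 3260967040)
(.lf (.negSucc 739999999) 0)
.ou)))
.ou))
.ou)))

theorem run_tr5_1B : Tr.run 1 1 (T5.C.mdA 2000) (T5.K1.shA (w2n 2000 1427996662 20061)) R5 (.ofNat 3500000000) tr5_1B (.ofNat 0) (.ofNat 12266300000) (.negSucc 9999999999) (.ofNat 10000000000)
    (-100000000000) 100000000000 = true := by decide +kernel

/-- tree -/
def tr5_1BB : Tr :=
(.sy (.ofNat 0)
(.sy (.negSucc 4999999999)
(.sx (.negSucc 5024399999)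
(.sy (.negSucc 6966005891)
.ou
(.sx (.negSucc 7536599999)
.ou
(.lf (.ofNat 60000000) 0)))
(.sy (.negSucc 7499999999)
(.sx (.negSucc 2512199999)
(.sy (.negSucc 8749999999)
(.lf (.negSucc 789999999) 0)
(.lf (.negSucc 529999999) 0))
(.sx (.negSucc 1256099999)
(.lf (.negSucc 1499999999) 0)
(.lf (.negSucc 3639999999) 0)))
(.sx (.negSucc 2512199999)
(.lf (.negSucc 119999999) 0)
(.lf (.negSucc 389999999) 0))))
(.sx (.negSucc 5024399999)
(.sy (.negSucc 2499999999)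
(.sx (.negSucc 7536599999)
(.sy (.negSucc 4644003927)
.ou
(.lf (.ofNat 130000000) 0))
(.lf (.ofNat 220000000) 0))
(.sx (.negSucc 7536599999)
(.lf (.ofNat 270000000) 0)
(.lf (.ofNat 450000000) 0)))
(.sx (.negSucc 2512199999)
(.sy (.negSucc 2499999999)
(.lf (.ofNat 380000000) 0)
(.lf (.ofNat 790000000) 0))
(.sy (.negSucc 2499999999)
(.lf (.ofNat 1120000000) 0)
(.lf (.ofNat 2420000000) 0)))))
(.sx (.negSucc 5024399999)
(.sy (.ofNat 6966005892)
(.sy (.ofNat 3483002946)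
(.sx (.negSucc 7536599999)
(.sy (.ofNat 1741501473)
(.lf (.ofNat 420000000) 0)
(.lf (.ofNat 520000000) 0))
(.sy (.ofNat 1741501473)
(.lf (.ofNat 600000000) 0)
(.lf (.ofNat 670000000) 0)))
(.sx (.negSucc 7536599999)
(.sy (.ofNat 4644003928)
(.lf (.ofNat 560000000) 0)
.ou)
(.sy (.ofNat 5224504419)
(.lf (.ofNat 680000000) 0)
(.lf (.ofNat 620000000) 0))))
.ou)
(.sy (.ofNat 5000000000)
(.sx (.negSucc 2512199999)
(.sy (.ofNat 2500000000)
(.lf (.ofNat 1080000000) 0)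
(.lf (.ofNat 1220000000) 0))
(.sx (.negSucc 1256099999)
(.sy (.ofNat 2500000000)
(.lf (.ofNat 2290000000) 0)
(.lf (.ofNat 2780000000) 0))
(.sy (.ofNat 2500000000)
(.lf (.ofNat 7220000000) 0)
(.lf (.ofNat 9390000000) 0))))
(.sx (.negSucc 2512199999)
(.sy (.ofNat 7500000000)
(.sx (.negSucc 3768299999)
(.lf (.ofNat 950000000) 0)
(.lf (.ofNat 1540000000) 0))
(.sx (.negSucc 3768299999)
(.sy (.ofNat 9288007856)
(.lf (.ofNat 780000000) 0)
.ou)
(.lf (.ofNat 1390000000) 0)))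
(.sx (.negSucc 1256099999)
(.sy (.ofNat 7500000000)
(.lf (.ofNat 3080000000) 0)
(.lf (.ofNat 3180000000) 0))
(.sx (.negSucc 628049999)
(.lf (.ofNat 7630000000) 0)
(.sx (.negSucc 314024999)
(.lf (.ofNat 16810000000) 0)
(.lf (.ofNat 0) 0))))))))

theorem run_tr5_1BB : Tr.run 1 1 (T5.C.mdA 2000) (T5.K1.shA (w2n 2000 1427996662 20061)) R5 (.ofNat 3500000000) tr5_1BB (.negSucc 10048799999) (.ofNat 0) (.negSucc 9999999999) (.ofNat 10000000000)
    (-100000000000) 100000000000 = true := by decide +kernel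

/-- tree -/
def tr5_1P : Tr :=
(.sy (.ofNat 1108750000)
(.sy (.negSucc 4470024999)
(.sy (.negSucc 7259412499)
(.sx (.ofNat 5050000000)
(.lf (.ofNat 80000000) 0)
(.lf (.ofNat 130000000) 0))
(.sx (.ofNat 5050000000)
(.sy (.negSucc 5864718749)
(.lf (.ofNat 20000000) 0)
(.lf (.negSucc 59999999) 0))
(.sy (.negSucc 5864718749)
(.lf (.ofNat 30000000) 0)
(.lf (.negSucc 89999999) 0))))
(.sy (.negSucc 1680637499)
(.sx (.ofNat 5050000000)
(.sy (.negSucc 3075331249)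
(.lf (.negSucc 169999999) 0)
(.sx (.ofNat 4275000000)
(.lf (.negSucc 259999999) 0)
(.lf (.negSucc 339999999) 0)))
(.sy (.negSucc 3075331249)
(.lf (.negSucc 249999999) 0)
(.lf (.negSucc 449999999) 1)))
(.sx (.ofNat 5050000000)
(.sy (.negSucc 285943749)
(.sx (.ofNat 4275000000)
(.lf (.negSucc 409999999) 0)
(.lf (.negSucc 519999999) 0))
(.sx (.ofNat 4275000000)
(.sy (.ofNat 411403125)
(.lf (.negSucc 519999999) 0)
(.lf (.negSucc 609999999) 0))
(.lf (.negSucc 719999999) 0)))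
(.sy (.negSucc 285943749)
(.sx (.ofNat 5825000000)
(.lf (.negSucc 629999999) 0)
(.lf (.negSucc 719999999) 0))
(.sx (.ofNat 5825000000)
(.lf (.negSucc 859999999) 0)
(.lf (.negSucc 989999999) 0))))))
(.sy (.ofNat 6687525000)
(.sy (.ofNat 3898137500)
(.sx (.ofNat 5050000000)
(.sx (.ofNat 4275000000)
(.sy (.ofNat 2503443750)
(.sx (.ofNat 3887500000)
(.lf (.negSucc 689999999) 0)
(.lf (.negSucc 779999999) 0))
(.sy (.ofNat 3200790625)
(.lf (.negSucc 869999999) 0)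
(.lf (.negSucc 949999999) 0)))
(.sy (.ofNat 2503443750)
(.sx (.ofNat 4662500000)
(.lf (.negSucc 879999999) 0)
(.lf (.negSucc 969999999) 0))
(.sx (.ofNat 4662500000)
(.lf (.negSucc 1069999999) 0)
(.lf (.negSucc 1169999999) 0))))
(.sx (.ofNat 5825000000)
(.sy (.ofNat 2503443750)
(.lf (.negSucc 1099999999) 0)
(.sx (.ofNat 5437500000)
(.lf (.negSucc 1269999999) 0)
(.lf (.negSucc 1359999999) 0)))
(.sy (.ofNat 2503443750)
(.lf (.negSucc 1239999999) 0)
(.lf (.negSucc 1449999999) 0))))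
(.sx (.ofNat 5050000000)
(.sy (.ofNat 5292831250)
(.sx (.ofNat 4275000000)
(.lf (.negSucc 1059999999) 0)
(.lf (.negSucc 1279999999) 0))
(.sx (.ofNat 4275000000)
(.lf (.negSucc 1179999999) 0)
(.lf (.negSucc 1379999999) 0)))
(.sy (.ofNat 5292831250)
(.sx (.ofNat 5825000000)
(.lf (.negSucc 1459999999) 1)
(.lf (.negSucc 1559999999) 0))
(.sx (.ofNat 5825000000)
(.lf (.negSucc 1509999999) 0)
(.lf (.negSucc 1539999999) 0)))))
(.sy (.ofNat 9476912500)
(.sx (.ofNat 5050000000)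
(.sy (.ofNat 8082218750)
(.lf (.negSucc 1319999999) 0)
(.lf (.negSucc 1269999999) 0))
(.sy (.ofNat 8082218750)
(.sx (.ofNat 5825000000)
(.lf (.negSucc 1449999999) 0)
(.lf (.negSucc 1389999999) 0))
(.lf (.negSucc 1219999999) 0)))
(.sx (.ofNat 5050000000)
(.lf (.negSucc 1059999999) 0)
(.sy (.ofNat 10871606250)
(.lf (.negSucc 939999999) 0)
(.lf (.negSucc 599999999) 0))))))

theorem run_tr5_1P : Tr.run 1 2 (T5.C.mdA 2000) (T5.K1.shA (w2n 2000 1427996662 20061)) R5 (.ofNat 3500000000) tr5_1P (.ofNat 3500000000) (.ofNat 6600000000) (.negSucc 10048799999) (.ofNat 12266300000)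
    (-100000000000) 100000000000 = true := by decide +kernel

/-- tree -/
def tr5_1N : Tr :=
(.sy (.ofNat 1108750000)
(.sy (.negSucc 4470024999)
(.sx (.negSucc 6399999999)
(.sy (.negSucc 7259412499)
(.sx (.negSucc 7849999999)
(.lf (.ofNat 240000000) 0)
(.lf (.ofNat 320000000) 0))
(.sx (.negSucc 7849999999)
(.lf (.negSucc 179999999) 0)
(.lf (.negSucc 19999999) 0)))
(.sy (.negSucc 7259412499)
(.sx (.negSucc 4949999999)
(.lf (.ofNat 390000000) 0)
(.lf (.ofNat 420000000) 0))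
(.sx (.negSucc 4949999999)
(.sy (.negSucc 5864718749)
(.lf (.ofNat 170000000) 0)
(.lf (.ofNat 60000000) 0))
(.sy (.negSucc 5864718749)
(.lf (.ofNat 250000000) 0)
(.lf (.ofNat 160000000) 0)))))
(.sx (.negSucc 6399999999)
(.sy (.negSucc 1680637499)
(.sx (.negSucc 7849999999)
(.sy (.negSucc 3075331249)
(.lf (.negSucc 359999999) 0)
(.lf (.negSucc 449999999) 0))
(.sy (.negSucc 3075331249)
(.lf (.negSucc 179999999) 0)
(.lf (.negSucc 259999999) 0)))
(.sx (.negSucc 7849999999)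
(.sy (.negSucc 285943749)
(.sx (.negSucc 8574999999)
(.lf (.negSucc 559999999) 0)
(.lf (.negSucc 459999999) 0))
(.sx (.negSucc 8574999999)
(.lf (.negSucc 619999999) 0)
(.lf (.negSucc 509999999) 0)))
(.sy (.negSucc 285943749)
(.sx (.negSucc 7124999999)
(.lf (.negSucc 359999999) 0)
(.lf (.negSucc 269999999) 0))
(.sx (.negSucc 7124999999)
(.lf (.negSucc 409999999) 0)
(.lf (.negSucc 319999999) 0)))))
(.sy (.negSucc 1680637499)
(.sx (.negSucc 4949999999)
(.sy (.negSucc 3075331249)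
(.lf (.negSucc 19999999) 0)
(.lf (.negSucc 89999999) 0))
(.sy (.negSucc 3075331249)
(.lf (.ofNat 90000000) 0)
(.sx (.negSucc 4224999999)
(.lf (.ofNat 10000000) 0)
(.lf (.ofNat 60000000) 0))))
(.sx (.negSucc 4949999999)
(.sy (.negSucc 285943749)
(.sx (.negSucc 5674999999)
(.lf (.negSucc 179999999) 0)
(.lf (.negSucc 109999999) 0))
(.sx (.negSucc 5674999999)
(.lf (.negSucc 229999999) 0)
(.lf (.negSucc 149999999) 0)))
(.sy (.negSucc 285943749)
(.sx (.negSucc 4224999999)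
(.lf (.negSucc 39999999) 0)
(.lf (.ofNat 10000000) 0))
(.sx (.negSucc 4224999999)
(.lf (.negSucc 79999999) 0)
(.lf (.negSucc 29999999) 0)))))))
(.sy (.ofNat 6687525000)
(.sx (.negSucc 6399999999)
(.sx (.negSucc 7849999999)
(.sy (.ofNat 3898137500)
(.sx (.negSucc 8574999999)
(.sy (.ofNat 2503443750)
(.sx (.negSucc 8937499999)
(.lf (.negSucc 679999999) 0)
(.lf (.negSucc 629999999) 0))
(.sx (.negSucc 8937499999)
(.lf (.negSucc 709999999) 0)
(.lf (.negSucc 649999999) 0)))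
(.sy (.ofNat 2503443750)
(.lf (.negSucc 549999999) 0)
(.lf (.negSucc 579999999) 0)))
(.sx (.negSucc 8574999999)
(.sy (.ofNat 5292831250)
(.sx (.negSucc 8937499999)
(.lf (.negSucc 729999999) 0)
(.lf (.negSucc 669999999) 0))
(.lf (.negSucc 709999999) 0))
(.sy (.ofNat 5292831250)
(.lf (.negSucc 599999999) 0)
(.lf (.negSucc 609999999) 0))))
(.sy (.ofNat 3898137500)
(.sx (.negSucc 7124999999)
(.sy (.ofNat 2503443750)
(.lf (.negSucc 449999999) 0)
(.lf (.negSucc 479999999) 0))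
(.sy (.ofNat 2503443750)
(.lf (.negSucc 349999999) 0)
(.lf (.negSucc 379999999) 0)))
(.sy (.ofNat 5292831250)
(.sx (.negSucc 7124999999)
(.lf (.negSucc 499999999) 0)
(.lf (.negSucc 399999999) 0))
(.sx (.negSucc 7124999999)
(.lf (.negSucc 519999999) 0)
(.lf (.negSucc 429999999) 0)))))
(.sy (.ofNat 3898137500)
(.sx (.negSucc 4949999999)
(.sx (.negSucc 5674999999)
(.sy (.ofNat 2503443750)
(.lf (.negSucc 259999999) 0)
(.lf (.negSucc 289999999) 0))
(.sy (.ofNat 2503443750)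
(.lf (.negSucc 179999999) 0)
(.lf (.negSucc 209999999) 0)))
(.sy (.ofNat 2503443750)
(.sx (.negSucc 4224999999)
(.lf (.negSucc 119999999) 0)
(.lf (.negSucc 59999999) 0))
(.sx (.negSucc 4224999999)
(.lf (.negSucc 149999999) 0)
(.lf (.negSucc 89999999) 0))))
(.sx (.negSucc 4949999999)
(.sy (.ofNat 5292831250)
(.sx (.negSucc 5674999999)
(.lf (.negSucc 319999999) 0)
(.lf (.negSucc 239999999) 0))
(.lf (.negSucc 299999999) 0))
(.sy (.ofNat 5292831250)
(.lf (.negSucc 149999999) 0)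
(.lf (.negSucc 179999999) 0)))))
(.sx (.negSucc 6399999999)
(.sy (.ofNat 9476912500)
(.sx (.negSucc 7849999999)
(.sy (.ofNat 8082218750)
(.sx (.negSucc 8574999999)
(.lf (.negSucc 719999999) 0)
(.lf (.negSucc 629999999) 0))
(.lf (.negSucc 689999999) 0))
(.sy (.ofNat 8082218750)
(.lf (.negSucc 489999999) 0)
(.lf (.negSucc 509999999) 0)))
(.sx (.negSucc 7849999999)
(.sy (.ofNat 10871606250)
(.lf (.negSucc 699999999) 0)
(.lf (.negSucc 719999999) 0))
(.lf (.negSucc 549999999) 0)))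
(.sy (.ofNat 9476912500)
(.sx (.negSucc 4949999999)
(.lf (.negSucc 339999999) 0)
(.lf (.negSucc 229999999) 0))
(.sx (.negSucc 4949999999)
(.lf (.negSucc 409999999) 0)
(.lf (.negSucc 319999999) 0))))))

theorem run_tr5_1N : Tr.run 1 2 (T5.C.mdA 2000) (T5.K1.shA (w2n 2000 1427996662 20061)) R5 (.ofNat 3500000000) tr5_1N (.negSucc 9299999999) (.negSucc 3499999999) (.negSucc 10048799999) (.ofNat 12266300000)
    (-100000000000) 100000000000 = true := by decide +kernel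

/-- tree -/
def br5 : Tr :=
(.sy (.ofNat 1108750000)
(.sz (.negSucc 173849999)
(.sy (.negSucc 4470024999)
(.sx (.negSucc 1349999999)
(.lf (.ofNat 0) 0)
(.lf (.ofNat 0) 0))
(.sx (.negSucc 1349999999)
(.lf (.ofNat 0) 0)
(.lf (.ofNat 0) 0)))
(.sy (.negSucc 4470024999)
(.sx (.negSucc 1349999999)
(.lf (.ofNat 0) 0)
(.lf (.ofNat 0) 0))
(.sx (.negSucc 1349999999)
(.lf (.ofNat 0) 0)
(.lf (.ofNat 0) 0))))
(.sz (.negSucc 173849999)
(.sy (.ofNat 6687525000)
(.lf (.ofNat 0) 0)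
(.lf (.ofNat 0) 0))
(.sy (.ofNat 6687525000)
(.lf (.ofNat 0) 0)
(.lf (.ofNat 0) 0))))

theorem run_br5 : Tr.runB T5.C T5.K0 (D5.bt * 2000 / 10000 + 1) R5.om br5 (-D5.m) D5.M D5.ylo D5.yhi
    (-R5.bl) R5.bh = true := by decide +kernel

end Pool.Agent.Helper30.DL
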