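import Pool.Agent.Helper30.DL.Run.C5
import Pool.Agent.Helper30.DL.Seg

/-! MP_b4564f_an, all delays. Cell 5: kernel computations (generated). -/

set_option autoImplicit false
set_option maxRecDepth 100000

namespace Pool.Agent.Helper30.DL

theorem tbl5 : tblOK P5 (AF.cst (2000 * 1000000) 0 0) (AF.cst ((10000 - 2000) * 1000000) 0 0) 1427996659 1427996662 1 T5 1 = true := by
  decide +kernel

theorem sc5 : scC T5 2000 R5 D5 = true := by decide +kernel

end Pool.Agent.Helper30.DL
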