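import Pool.Agent.Helper30.DL.Run.C61

/-! MP_b4564f_an, all delays. Cell 61: kernel computations (generated). -/

set_option autoImplicit false
set_option maxRecDepth 100000

namespace Pool.Agent.Helper30.DL

/-- tree -/
def tr61_0A : Tr :=
(.sy (.ofNat 0)
(.sy (.negSucc 4999999999)
(.sx (.ofNat 2500000000)
(.sx (.ofNat 1250000000)
(.lf (.negSucc 1349999999) 0)
(.sy (.negSucc 7499999999)
(.lf (.negSucc 879999999) 0)
(.lf (.negSucc 869999999) 0)))
(.sx (.ofNat 3750000000)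
(.sy (.negSucc 7499999999)
(.lf (.negSucc 339999999) 0)
(.lf (.negSucc 289999999) 0))
(.sy (.negSucc 7499999999)
(.sx (.ofNat 4375000000)
(.lf (.ofNat 40000000) 0)
(.sy (.negSucc 8749999999)
(.lf (.ofNat 190000000) 0)
(.lf (.ofNat 310000000) 0)))
(.sx (.ofNat 4375000000)
(.lf (.ofNat 150000000) 0)
(.sx (.ofNat 4687500000)
(.lf (.ofNat 350000000) 0)
(.sy (.negSucc 6249999999)
(.lf (.ofNat 450000000) 0)
(.lf (.ofNat 500000000) 0)))))))
(.sx (.ofNat 2500000000)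
(.sy (.negSucc 2499999999)
(.lf (.negSucc 1139999999) 0)
(.lf (.negSucc 1189999999) 0))
(.sx (.ofNat 3750000000)
(.sy (.negSucc 2499999999)
(.lf (.negSucc 329999999) 0)
(.lf (.negSucc 439999999) 0))
(.sy (.negSucc 2499999999)
(.sx (.ofNat 4375000000)
(.lf (.ofNat 130000000) 0)
(.sx (.ofNat 4687500000)
(.lf (.ofNat 350000000) 0)
(.sy (.negSucc 3749999999)
(.lf (.ofNat 500000000) 0)
(.lf (.ofNat 480000000) 0))))
(.sx (.ofNat 4375000000)
(.lf (.ofNat 10000000) 0)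
(.sx (.ofNat 4687500000)
(.lf (.ofNat 230000000) 0)
(.sy (.negSucc 1249999999)
(.lf (.ofNat 420000000) 0)
(.lf (.ofNat 340000000) 0))))))))
(.sy (.ofNat 5000000000)
(.sx (.ofNat 2500000000)
(.sy (.ofNat 2500000000)
(.lf (.negSucc 1259999999) 0)
(.lf (.negSucc 1359999999) 1))
(.sx (.ofNat 3750000000)
(.sy (.ofNat 2500000000)
(.lf (.negSucc 619999999) 0)
(.lf (.negSucc 839999999) 0))
(.sy (.ofNat 2500000000)
(.sx (.ofNat 4375000000)
(.lf (.negSucc 189999999) 0)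
(.sx (.ofNat 4687500000)
(.lf (.ofNat 40000000) 0)
(.lf (.ofNat 190000000) 0)))
(.sx (.ofNat 4375000000)
(.lf (.negSucc 429999999) 0)
(.sy (.ofNat 3750000000)
(.lf (.negSucc 49999999) 0)
(.lf (.negSucc 159999999) 0))))))
(.sx (.ofNat 2500000000)
(.sy (.ofNat 7500000000)
(.sx (.ofNat 1250000000)
(.lf (.negSucc 1509999999) 0)
(.lf (.negSucc 1389999999) 0))
(.sy (.ofNat 8750000000)
(.sx (.ofNat 1250000000)
(.lf (.negSucc 1559999999) 0)
(.lf (.negSucc 1519999999) 0))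
(.sx (.ofNat 1250000000)
(.lf (.negSucc 1599999999) 0)
(.lf (.negSucc 1619999999) 0))))
(.sy (.ofNat 7500000000)
(.sx (.ofNat 3750000000)
(.lf (.negSucc 1079999999) 0)
(.sx (.ofNat 4375000000)
(.lf (.negSucc 669999999) 0)
(.lf (.negSucc 289999999) 0)))
(.sx (.ofNat 3750000000)
(.sy (.ofNat 8750000000)
(.lf (.negSucc 1259999999) 0)
(.lf (.negSucc 1369999999) 0))
(.sy (.ofNat 8750000000)
(.lf (.negSucc 589999999) 0)
(.lf (.negSucc 619999999) 0)))))))

theorem run_tr61_0A : Tr.run 0 0 T61.C T61.K0 R61 (.ofNat 5000000000) tr61_0A (.ofNat 0) (.ofNat 5000000000) (.negSucc 9999999999) (.ofNat 10000000000)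
    (-100000000000) 100000000000 = true := by decide +kernel

/-- tree -/
def tr61_0AA : Tr :=
(.sy (.ofNat 0)
(.sy (.negSucc 4999999999)
(.sx (.negSucc 2499999999)
(.sy (.negSucc 7499999999)
(.sx (.negSucc 3749999999)
(.lf (.negSucc 2039999999) 0)
(.lf (.negSucc 2009999999) 0))
(.sx (.negSucc 3749999999)
(.lf (.negSucc 2069999999) 0)
(.lf (.negSucc 2029999999) 0)))
(.sy (.negSucc 7499999999)
(.lf (.negSucc 1809999999) 0)
(.lf (.negSucc 1809999999) 0)))
(.sx (.negSucc 2499999999)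
(.sy (.negSucc 2499999999)
(.sx (.negSucc 3749999999)
(.lf (.negSucc 2049999999) 0)
(.lf (.negSucc 1999999999) 0))
(.sx (.negSucc 3749999999)
(.lf (.negSucc 1979999999) 0)
(.lf (.negSucc 1939999999) 0)))
(.sy (.negSucc 2499999999)
(.lf (.negSucc 1799999999) 0)
(.lf (.negSucc 1759999999) 0))))
(.sy (.ofNat 5000000000)
(.sy (.ofNat 2500000000)
(.sx (.negSucc 2499999999)
(.sy (.ofNat 1250000000)
(.lf (.negSucc 1869999999) 0)
(.lf (.negSucc 1789999999) 0))
(.lf (.negSucc 1699999999) 0))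
(.sx (.negSucc 2499999999)
(.sy (.ofNat 3750000000)
(.lf (.negSucc 1689999999) 0)
(.lf (.negSucc 1569999999) 0))
(.lf (.negSucc 1619999999) 0)))
(.sy (.ofNat 7500000000)
(.sx (.negSucc 2499999999)
(.sy (.ofNat 6250000000)
(.lf (.negSucc 1439999999) 0)
(.lf (.negSucc 1279999999) 0))
(.sy (.ofNat 6250000000)
(.lf (.negSucc 1549999999) 0)
(.lf (.negSucc 1489999999) 0)))
(.sx (.negSucc 2499999999)
(.sy (.ofNat 8750000000)
(.sx (.negSucc 3749999999)
(.lf (.negSucc 999999999) 0)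
(.lf (.negSucc 1189999999) 0))
(.sx (.negSucc 3749999999)
(.lf (.negSucc 749999999) 0)
(.lf (.negSucc 1019999999) 0)))
(.sx (.negSucc 1249999999)
(.sy (.ofNat 8750000000)
(.lf (.negSucc 1349999999) 0)
(.lf (.negSucc 1249999999) 0))
(.sy (.ofNat 8750000000)
(.lf (.negSucc 1489999999) 0)
(.lf (.negSucc 1449999999) 0)))))))

theorem run_tr61_0AA : Tr.run 0 0 T61.C T61.K0 R61 (.ofNat 5000000000) tr61_0AA (.negSucc 4999999999) (.ofNat 0) (.negSucc 9999999999) (.ofNat 10000000000)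
    (-100000000000) 100000000000 = true := by decide +kernel

/-- tree -/
def tr61_0B : Tr :=
(.sy (.ofNat 0)
(.sy (.negSucc 4999999999)
(.sy (.negSucc 7499999999)
(.sx (.ofNat 5072050000)
(.sy (.negSucc 8749999999)
(.sx (.ofNat 2536025000)
(.sy (.negSucc 9374999999)
(.lf (.negSucc 1679999999) 0)
(.lf (.negSucc 1449999999) 0))
(.sy (.negSucc 9374999999)
(.lf (.negSucc 1879999999) 0)
(.lf (.negSucc 1629999999) 0)))
(.sx (.ofNat 2536025000)
(.sy (.negSucc 8124999999)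
(.lf (.negSucc 1239999999) 0)
(.lf (.negSucc 1049999999) 0))
(.sy (.negSucc 8124999999)
(.lf (.negSucc 1389999999) 0)
(.lf (.negSucc 1169999999) 0))))
(.sy (.negSucc 8749999999)
(.sx (.ofNat 7608075000)
(.sy (.negSucc 9374999999)
(.sx (.ofNat 6340062500)
(.lf (.negSucc 1859999999) 0)
.ou)
(.sx (.ofNat 6340062500)
(.lf (.negSucc 1619999999) 0)
.ou))
.ou)
(.sx (.ofNat 7608075000)
(.sy (.negSucc 8124999999)
(.sx (.ofNat 6340062500)
(.lf (.negSucc 1389999999) 0)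
.ou)
(.lf (.negSucc 1169999999) 0))
.ou)))
(.sx (.ofNat 5072050000)
(.sy (.negSucc 6249999999)
(.sx (.ofNat 2536025000)
(.sy (.negSucc 6874999999)
(.lf (.negSucc 869999999) 0)
(.lf (.negSucc 709999999) 0))
(.sy (.negSucc 6874999999)
(.lf (.negSucc 969999999) 0)
(.lf (.negSucc 779999999) 0)))
(.sx (.ofNat 2536025000)
(.sy (.negSucc 5624999999)
(.lf (.negSucc 569999999) 0)
(.lf (.negSucc 439999999) 0))
(.sy (.negSucc 5624999999)
(.lf (.negSucc 609999999) 0)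
(.lf (.negSucc 459999999) 0))))
(.sy (.negSucc 6249999999)
(.sx (.ofNat 7608075000)
(.sy (.negSucc 6874999999)
(.lf (.negSucc 979999999) 0)
(.lf (.negSucc 799999999) 0))
(.sy (.negSucc 6571964655)
.ou
(.lf (.negSucc 729999999) 0)))
(.sx (.ofNat 7608075000)
(.sy (.negSucc 5624999999)
(.lf (.negSucc 629999999) 0)
(.lf (.negSucc 479999999) 0))
(.sy (.negSucc 5624999999)
(.lf (.negSucc 619999999) 0)
(.lf (.negSucc 479999999) 0))))))
(.sx (.ofNat 5072050000)
(.sy (.negSucc 2499999999)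
(.sx (.ofNat 2536025000)
(.sy (.negSucc 3749999999)
(.sy (.negSucc 4374999999)
(.lf (.negSucc 329999999) 0)
(.lf (.negSucc 239999999) 0))
(.lf (.negSucc 119999999) 0))
(.sy (.negSucc 3749999999)
(.sy (.negSucc 4374999999)
(.lf (.negSucc 339999999) 0)
(.lf (.negSucc 229999999) 0))
(.lf (.negSucc 99999999) 0)))
(.sx (.ofNat 2536025000)
(.sy (.negSucc 1249999999)
(.lf (.negSucc 29999999) 0)
(.lf (.ofNat 10000000) 0))
(.sy (.negSucc 1249999999)
(.lf (.ofNat 10000000) 0)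
(.lf (.ofNat 30000000) 0))))
(.sy (.negSucc 2499999999)
(.sx (.ofNat 7608075000)
(.sy (.negSucc 3749999999)
(.sy (.negSucc 4374999999)
(.lf (.negSucc 349999999) 0)
(.lf (.negSucc 229999999) 0))
(.sy (.negSucc 3124999999)
(.lf (.negSucc 139999999) 0)
(.lf (.negSucc 59999999) 0)))
(.sy (.negSucc 3749999999)
(.sy (.negSucc 4374999999)
(.lf (.negSucc 359999999) 0)
(.lf (.negSucc 249999999) 0))
(.sy (.negSucc 3124999999)
(.lf (.negSucc 159999999) 0)
(.lf (.negSucc 89999999) 0))))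
(.sx (.ofNat 7608075000)
(.sy (.negSucc 1249999999)
(.lf (.ofNat 10000000) 0)
(.lf (.ofNat 30000000) 0))
(.sy (.negSucc 1249999999)
(.lf (.negSucc 9999999) 0)
(.lf (.ofNat 10000000) 0))))))
(.sy (.ofNat 5000000000)
(.sx (.ofNat 5072050000)
(.sy (.ofNat 2500000000)
(.sx (.ofNat 2536025000)
(.sy (.ofNat 1250000000)
(.lf (.negSucc 9999999) 0)
(.lf (.negSucc 79999999) 0))
(.sy (.ofNat 1250000000)
(.lf (.negSucc 9999999) 0)
(.lf (.negSucc 129999999) 0)))
(.sx (.ofNat 2536025000)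
(.sy (.ofNat 3750000000)
(.lf (.negSucc 209999999) 0)
(.sx (.ofNat 1268012500)
(.lf (.negSucc 339999999) 0)
(.lf (.negSucc 429999999) 0)))
(.sy (.ofNat 3750000000)
(.lf (.negSucc 289999999) 0)
(.sx (.ofNat 3804037500)
(.lf (.negSucc 479999999) 0)
(.sy (.ofNat 4375000000)
(.lf (.negSucc 449999999) 0)
(.lf (.negSucc 549999999) 0))))))
(.sy (.ofNat 2500000000)
(.sx (.ofNat 7608075000)
(.sy (.ofNat 1250000000)
(.lf (.negSucc 19999999) 0)
(.lf (.negSucc 129999999) 0))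
(.sy (.ofNat 1250000000)
(.lf (.negSucc 19999999) 0)
(.lf (.negSucc 79999999) 1)))
(.sx (.ofNat 7608075000)
(.sy (.ofNat 3750000000)
(.sx (.ofNat 6340062500)
(.lf (.negSucc 289999999) 0)
(.lf (.negSucc 239999999) 0))
(.sx (.ofNat 6340062500)
(.sy (.ofNat 4375000000)
(.lf (.negSucc 409999999) 0)
(.lf (.negSucc 469999999) 0))
(.sx (.ofNat 6974068750)
(.lf (.negSucc 329999999) 0)
(.lf (.negSucc 209999999) 0))))
(.sy (.ofNat 3750000000)
(.sx (.ofNat 8876087500)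
(.lf (.negSucc 129999999) 1)
(.sy (.ofNat 3125000000)
(.lf (.ofNat 0) 0)
(.lf (.ofNat 90000000) 0)))
(.sx (.ofNat 8876087500)
(.sy (.ofNat 4375000000)
(.lf (.negSucc 39999999) 0)
(.lf (.ofNat 90000000) 0))
(.sy (.ofNat 4375000000)
(.lf (.ofNat 260000000) 0)
(.lf (.ofNat 490000000) 0)))))))
(.sx (.ofNat 5072050000)
(.sy (.ofNat 7500000000)
(.sx (.ofNat 2536025000)
(.sy (.ofNat 6250000000)
(.sx (.ofNat 1268012500)
(.lf (.negSucc 549999999) 0)
(.sy (.ofNat 5625000000)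
(.lf (.negSucc 589999999) 0)
(.lf (.negSucc 719999999) 0)))
(.sx (.ofNat 1268012500)
(.sy (.ofNat 6875000000)
(.lf (.negSucc 729999999) 0)
(.lf (.negSucc 869999999) 0))
(.sy (.ofNat 6875000000)
(.lf (.negSucc 849999999) 0)
(.lf (.negSucc 989999999) 0))))
(.sy (.ofNat 6250000000)
(.sx (.ofNat 3804037500)
(.sy (.ofNat 5625000000)
(.lf (.negSucc 659999999) 0)
(.lf (.negSucc 779999999) 0))
(.sy (.ofNat 5625000000)
(.lf (.negSucc 649999999) 0)
(.lf (.negSucc 729999999) 0)))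
(.sx (.ofNat 3804037500)
(.sy (.ofNat 6875000000)
(.lf (.negSucc 899999999) 0)
(.lf (.negSucc 1009999999) 0))
(.sx (.ofNat 4438043750)
(.sy (.ofNat 6875000000)
(.lf (.negSucc 839999999) 0)
(.lf (.negSucc 909999999) 0))
(.sy (.ofNat 6875000000)
(.lf (.negSucc 739999999) 0)
(.lf (.negSucc 759999999) 0))))))
(.sx (.ofNat 2536025000)
(.sy (.ofNat 8750000000)
(.sy (.ofNat 8125000000)
(.sx (.ofNat 1268012500)
(.lf (.negSucc 1019999999) 0)
(.lf (.negSucc 1129999999) 0))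
(.sx (.ofNat 1268012500)
(.lf (.negSucc 1179999999) 0)
(.lf (.negSucc 1279999999) 0)))
(.sy (.ofNat 9375000000)
(.sx (.ofNat 1268012500)
(.lf (.negSucc 1339999999) 0)
(.lf (.negSucc 1429999999) 0))
(.sx (.ofNat 1268012500)
(.lf (.negSucc 1519999999) 0)
(.lf (.negSucc 1589999999) 0))))
(.sx (.ofNat 3804037500)
(.sy (.ofNat 8750000000)
(.sy (.ofNat 8125000000)
(.lf (.negSucc 1119999999) 0)
(.lf (.negSucc 1229999999) 0))
(.sx (.ofNat 3170031250)
(.sy (.ofNat 9375000000)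
(.lf (.negSucc 1369999999) 0)
(.lf (.negSucc 1469999999) 0))
(.sy (.ofNat 9375000000)
(.lf (.negSucc 1219999999) 0)
(.lf (.negSucc 1259999999) 0))))
(.sy (.ofNat 8750000000)
(.sx (.ofNat 4438043750)
(.sy (.ofNat 8125000000)
(.lf (.negSucc 959999999) 0)
(.lf (.negSucc 969999999) 0))
(.sy (.ofNat 8125000000)
(.lf (.negSucc 729999999) 0)
(.lf (.negSucc 659999999) 0)))
(.sx (.ofNat 4438043750)
(.sy (.ofNat 9375000000)
(.lf (.negSucc 949999999) 0)
(.lf (.negSucc 889999999) 0))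
(.lf (.negSucc 439999999) 1))))))
(.sy (.ofNat 7500000000)
(.sx (.ofNat 7608075000)
(.sx (.ofNat 6340062500)
(.sy (.ofNat 6250000000)
(.sx (.ofNat 5706056250)
(.lf (.negSucc 569999999) 0)
(.lf (.negSucc 429999999) 0))
(.sx (.ofNat 5706056250)
(.lf (.negSucc 549999999) 1)
(.lf (.negSucc 259999999) 1)))
(.sy (.ofNat 6250000000)
(.sy (.ofNat 5625000000)
(.lf (.negSucc 179999999) 0)
(.lf (.negSucc 39999999) 0))
(.sy (.ofNat 6875000000)
(.lf (.ofNat 170000000) 0)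
(.lf (.ofNat 450000000) 0))))
(.sy (.ofNat 6571964656)
(.sx (.ofNat 8876087500)
(.sy (.ofNat 5785982328)
(.lf (.ofNat 320000000) 0)
(.lf (.ofNat 690000000) 0))
(.sy (.ofNat 5633112563)
(.lf (.ofNat 790000000) 0)
.ou))
.ou))
(.sx (.ofNat 7608075000)
(.sx (.ofNat 6340062500)
(.sy (.ofNat 8750000000)
(.sx (.ofNat 5706056250)
(.lf (.negSucc 309999999) 1)
(.lf (.ofNat 180000000) 1))
(.sx (.ofNat 5706056250)
(.lf (.ofNat 190000000) 1)
(.sy (.ofNat 8762619542)
(.lf (.ofNat 510000000) 0)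
.ou)))
(.sy (.ofNat 7886357588)
(.lf (.ofNat 730000000) 0)
.ou))
.ou)))))

theorem run_tr61_0B : Tr.run 0 1 T61.C T61.K0 R61 (.ofNat 5000000000) tr61_0B (.ofNat 0) (.ofNat 10144100000) (.negSucc 9999999999) (.ofNat 10000000000)
    (-100000000000) 100000000000 = true := by decide +kernel

/-- tree -/
def tr61_0BB : Tr :=
(.sy (.ofNat 0)
(.sy (.negSucc 4999999999)
(.sx (.negSucc 3916799999)
(.sy (.negSucc 7499999999)
(.sx (.negSucc 5875199999)
(.sy (.negSucc 8510348583)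
.ou
(.sx (.negSucc 6854399999)
.ou
(.sy (.negSucc 8005174291)
(.lf (.negSucc 139999999) 0)
(.lf (.negSucc 239999999) 0))))
(.sy (.negSucc 8749999999)
(.sx (.negSucc 4895999999)
(.sx (.negSucc 5385599999)
(.sy (.negSucc 9284016636)
.ou
(.lf (.ofNat 10000000) 0))
(.sy (.negSucc 9374999999)
(.lf (.ofNat 120000000) 0)
(.lf (.negSucc 39999999) 0)))
(.sx (.negSucc 4406399999)
(.lf (.negSucc 49999999) 0)
(.lf (.negSucc 169999999) 0)))
(.sx (.negSucc 4895999999)
(.sy (.negSucc 8124999999)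
(.lf (.negSucc 149999999) 0)
(.lf (.negSucc 269999999) 0))
(.sy (.negSucc 8124999999)
(.lf (.negSucc 269999999) 0)
(.lf (.negSucc 349999999) 0)))))
(.sy (.negSucc 6249999999)
(.sx (.negSucc 5875199999)
(.sx (.negSucc 6854399999)
(.sy (.negSucc 7294584500)
.ou
(.sy (.negSucc 6772292250)
(.lf (.negSucc 399999999) 0)
(.lf (.negSucc 469999999) 0)))
(.sy (.negSucc 6874999999)
(.lf (.negSucc 339999999) 0)
(.lf (.negSucc 429999999) 0)))
(.sy (.negSucc 6874999999)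
(.lf (.negSucc 379999999) 0)
(.lf (.negSucc 429999999) 0)))
(.sx (.negSucc 5875199999)
(.sy (.negSucc 5624999999)
(.lf (.negSucc 509999999) 0)
(.lf (.negSucc 559999999) 0))
(.sy (.negSucc 5624999999)
(.lf (.negSucc 459999999) 0)
(.lf (.negSucc 469999999) 0)))))
(.sy (.negSucc 7499999999)
(.sx (.negSucc 1958399999)
(.sy (.negSucc 8749999999)
(.sx (.negSucc 2937599999)
(.lf (.negSucc 369999999) 0)
(.lf (.negSucc 679999999) 0))
(.sx (.negSucc 2937599999)
(.lf (.negSucc 469999999) 0)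
(.lf (.negSucc 629999999) 0)))
(.sy (.negSucc 8749999999)
(.lf (.negSucc 1109999999) 0)
(.sy (.negSucc 8124999999)
(.lf (.negSucc 929999999) 0)
(.lf (.negSucc 819999999) 0))))
(.sy (.negSucc 6249999999)
(.sx (.negSucc 1958399999)
(.sy (.negSucc 6874999999)
(.lf (.negSucc 529999999) 0)
(.lf (.negSucc 509999999) 0))
(.sy (.negSucc 6874999999)
(.lf (.negSucc 709999999) 0)
(.lf (.negSucc 609999999) 0)))
(.sx (.negSucc 1958399999)
(.sy (.negSucc 5624999999)
(.lf (.negSucc 469999999) 0)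
(.lf (.negSucc 429999999) 0))
(.sy (.negSucc 5624999999)
(.lf (.negSucc 519999999) 0)
(.lf (.negSucc 429999999) 0))))))
(.sx (.negSucc 3916799999)
(.sy (.negSucc 2499999999)
(.sx (.negSucc 5875199999)
(.sy (.negSucc 3749999999)
(.sx (.negSucc 6854399999)
(.sy (.negSucc 4374999999)
(.lf (.negSucc 609999999) 0)
(.lf (.negSucc 599999999) 0))
(.sy (.negSucc 4374999999)
(.lf (.negSucc 539999999) 0)
(.lf (.negSucc 529999999) 0)))
(.sx (.negSucc 6854399999)
(.sy (.negSucc 3124999999)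
(.lf (.negSucc 579999999) 0)
(.lf (.negSucc 519999999) 0))
(.lf (.negSucc 469999999) 0)))
(.sy (.negSucc 3749999999)
(.sx (.negSucc 4895999999)
(.sy (.negSucc 4374999999)
(.lf (.negSucc 479999999) 0)
(.lf (.negSucc 459999999) 0))
(.sy (.negSucc 4374999999)
(.lf (.negSucc 439999999) 0)
(.lf (.negSucc 399999999) 0)))
(.sx (.negSucc 4895999999)
(.lf (.negSucc 399999999) 0)
(.lf (.negSucc 329999999) 0))))
(.sx (.negSucc 5875199999)
(.sy (.negSucc 1249999999)
(.lf (.negSucc 369999999) 0)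
(.lf (.negSucc 189999999) 0))
(.sy (.negSucc 1249999999)
(.lf (.negSucc 249999999) 0)
(.lf (.negSucc 119999999) 0))))
(.sy (.negSucc 2499999999)
(.sx (.negSucc 1958399999)
(.sy (.negSucc 3749999999)
(.sy (.negSucc 4374999999)
(.lf (.negSucc 379999999) 0)
(.lf (.negSucc 329999999) 0))
(.lf (.negSucc 259999999) 0))
(.sy (.negSucc 3749999999)
(.sy (.negSucc 4374999999)
(.lf (.negSucc 349999999) 0)
(.lf (.negSucc 269999999) 0))
(.lf (.negSucc 179999999) 0)))
(.sx (.negSucc 1958399999)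
(.sy (.negSucc 1249999999)
(.lf (.negSucc 149999999) 0)
(.lf (.negSucc 59999999) 0))
(.sy (.negSucc 1249999999)
(.lf (.negSucc 79999999) 0)
(.lf (.negSucc 19999999) 0))))))
(.sy (.ofNat 5000000000)
(.sx (.negSucc 3916799999)
(.sy (.ofNat 2500000000)
(.sy (.ofNat 1250000000)
(.lf (.ofNat 0) 0)
(.lf (.ofNat 140000000) 0))
(.sx (.negSucc 5875199999)
(.sy (.ofNat 3750000000)
(.lf (.ofNat 340000000) 0)
(.lf (.ofNat 440000000) 0))
(.sx (.negSucc 4895999999)
(.sy (.ofNat 3750000000)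
(.lf (.ofNat 200000000) 0)
(.lf (.ofNat 230000000) 0))
(.sy (.ofNat 3750000000)
(.lf (.ofNat 120000000) 0)
(.lf (.ofNat 120000000) 0)))))
(.sy (.ofNat 2500000000)
(.sx (.negSucc 1958399999)
(.sy (.ofNat 1250000000)
(.lf (.ofNat 0) 0)
(.lf (.ofNat 30000000) 0))
(.sy (.ofNat 1250000000)
(.lf (.ofNat 0) 0)
(.lf (.negSucc 29999999) 0)))
(.sx (.negSucc 1958399999)
(.sy (.ofNat 3750000000)
(.lf (.ofNat 20000000) 0)
(.lf (.negSucc 39999999) 0))
(.sy (.ofNat 3750000000)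
(.lf (.negSucc 99999999) 0)
(.lf (.negSucc 209999999) 0)))))
(.sx (.negSucc 3916799999)
(.sy (.ofNat 7500000000)
(.sx (.negSucc 5875199999)
(.sx (.negSucc 6854399999)
(.sy (.ofNat 7294584501)
(.sy (.ofNat 6147292250)
(.lf (.ofNat 590000000) 0)
(.lf (.ofNat 610000000) 0))
.ou)
(.sy (.ofNat 6250000000)
(.lf (.ofNat 380000000) 0)
(.lf (.ofNat 350000000) 0)))
(.sy (.ofNat 6250000000)
(.lf (.ofNat 130000000) 0)
(.lf (.ofNat 30000000) 0)))
(.sx (.negSucc 5875199999)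
(.sy (.ofNat 8510348584)
(.lf (.ofNat 410000000) 0)
.ou)
(.sy (.ofNat 8750000000)
(.sx (.negSucc 4895999999)
(.lf (.negSucc 9999999) 0)
(.lf (.negSucc 229999999) 0))
(.sx (.negSucc 4895999999)
(.lf (.negSucc 209999999) 0)
(.lf (.negSucc 469999999) 0)))))
(.sy (.ofNat 7500000000)
(.sx (.negSucc 1958399999)
(.sy (.ofNat 6250000000)
(.lf (.negSucc 139999999) 0)
(.sx (.negSucc 2937599999)
(.lf (.negSucc 229999999) 0)
(.lf (.negSucc 379999999) 0)))
(.sy (.ofNat 6250000000)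
(.sx (.negSucc 979199999)
(.lf (.negSucc 319999999) 0)
(.lf (.negSucc 429999999) 0))
(.sx (.negSucc 979199999)
(.lf (.negSucc 529999999) 0)
(.lf (.negSucc 659999999) 0))))
(.sx (.negSucc 1958399999)
(.sy (.ofNat 8750000000)
(.sx (.negSucc 2937599999)
(.lf (.negSucc 429999999) 0)
(.lf (.negSucc 619999999) 0))
(.sx (.negSucc 2937599999)
(.lf (.negSucc 699999999) 0)
(.lf (.negSucc 909999999) 0)))
(.sy (.ofNat 8750000000)
(.sx (.negSucc 979199999)
(.sy (.ofNat 8125000000)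
(.lf (.negSucc 719999999) 0)
(.lf (.negSucc 859999999) 0))
(.sy (.ofNat 8125000000)
(.lf (.negSucc 869999999) 0)
(.lf (.negSucc 1019999999) 0)))
(.sx (.negSucc 979199999)
(.sy (.ofNat 9375000000)
(.lf (.negSucc 1019999999) 0)
(.lf (.negSucc 1189999999) 0))
(.sy (.ofNat 9375000000)
(.lf (.negSucc 1189999999) 0)
(.lf (.negSucc 1359999999) 0)))))))))

theorem run_tr61_0BB : Tr.run 0 1 T61.C T61.K0 R61 (.ofNat 5000000000) tr61_0BB (.negSucc 7833599999) (.ofNat 0) (.negSucc 9999999999) (.ofNat 10000000000)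
    (-100000000000) 100000000000 = true := by decide +kernel

/-- tree -/
def tr61_0P : Tr :=
(.sy (.ofNat 1155250000)
(.sy (.negSucc 3339174999)
(.sy (.negSucc 5586387499)
(.sy (.negSucc 6709993749)
(.sy (.negSucc 7271796874)
(.lf (.negSucc 249999999) 0)
(.lf (.negSucc 159999999) 0))
(.sy (.negSucc 6148190624)
(.lf (.negSucc 79999999) 0)
(.lf (.negSucc 9999999) 0)))
(.sy (.negSucc 4462781249)
(.sy (.negSucc 5024584374)
(.lf (.ofNat 40000000) 0)
(.lf (.ofNat 90000000) 0))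
(.sy (.negSucc 3900978124)
(.sx (.ofNat 5150000000)
(.lf (.ofNat 110000000) 0)
(.lf (.ofNat 130000000) 0))
(.sx (.ofNat 5150000000)
(.lf (.ofNat 130000000) 0)
(.lf (.ofNat 160000000) 0)))))
(.sy (.negSucc 1091962499)
(.sy (.negSucc 2215568749)
(.sy (.negSucc 2777371874)
(.sx (.ofNat 5150000000)
(.lf (.ofNat 150000000) 0)
(.lf (.ofNat 170000000) 0))
(.sx (.ofNat 5150000000)
(.lf (.ofNat 150000000) 0)
(.lf (.ofNat 180000000) 0)))
(.sy (.negSucc 1653765624)
(.sx (.ofNat 5150000000)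
(.lf (.ofNat 150000000) 0)
(.lf (.ofNat 180000000) 0))
(.sx (.ofNat 5150000000)
(.lf (.ofNat 150000000) 0)
(.lf (.ofNat 170000000) 0))))
(.sy (.ofNat 31643750)
(.sy (.negSucc 530159374)
(.sx (.ofNat 5150000000)
(.lf (.ofNat 130000000) 0)
(.lf (.ofNat 160000000) 0))
(.sx (.ofNat 5150000000)
(.lf (.ofNat 110000000) 0)
(.lf (.ofNat 140000000) 0)))
(.sy (.ofNat 593446875)
(.sx (.ofNat 5150000000)
(.lf (.ofNat 90000000) 0)
(.lf (.ofNat 120000000) 0))
(.sx (.ofNat 5150000000)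
(.lf (.ofNat 70000000) 0)
(.lf (.ofNat 90000000) 0))))))
(.sy (.ofNat 5649675000)
(.sy (.ofNat 3402462500)
(.sy (.ofNat 2278856250)
(.sy (.ofNat 1717053125)
(.sx (.ofNat 5150000000)
(.lf (.ofNat 50000000) 0)
(.lf (.ofNat 70000000) 0))
(.lf (.ofNat 40000000) 0))
(.sy (.ofNat 2840659375)
(.lf (.ofNat 20000000) 0)
(.lf (.ofNat 10000000) 0)))
(.sy (.ofNat 4526068750)
(.lf (.ofNat 10000000) 0)
(.lf (.ofNat 60000000) 0)))
(.sy (.ofNat 7896887500)
(.lf (.ofNat 240000000) 1)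
(.lf (.ofNat 650000000) 0))))

theorem run_tr61_0P : Tr.run 0 2 T61.C T61.K0 R61 (.ofNat 5000000000) tr61_0P (.ofNat 5000000000) (.ofNat 5300000000) (.negSucc 7833599999) (.ofNat 10144100000)
    (-100000000000) 100000000000 = true := by decide +kernel

/-- tree -/
def tr61_0N : Tr :=
(.sy (.ofNat 1155250000)
(.sy (.negSucc 3339174999)
(.sy (.negSucc 5586387499)
(.sx (.negSucc 6424999999)
(.sy (.negSucc 6709993749)
(.sy (.negSucc 7271796874)
(.lf (.ofNat 340000000) 0)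
(.sx (.negSucc 7137499999)
(.lf (.ofNat 90000000) 0)
(.lf (.ofNat 150000000) 0)))
(.sx (.negSucc 7137499999)
(.lf (.negSucc 189999999) 0)
(.lf (.negSucc 99999999) 0)))
(.sy (.negSucc 6709993749)
(.sy (.negSucc 7271796874)
(.sx (.negSucc 5712499999)
(.lf (.ofNat 380000000) 0)
(.lf (.ofNat 390000000) 0))
(.sx (.negSucc 5712499999)
(.lf (.ofNat 200000000) 0)
(.lf (.ofNat 230000000) 0)))
(.sx (.negSucc 5712499999)
(.lf (.negSucc 19999999) 0)
(.sy (.negSucc 6148190624)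
(.lf (.ofNat 100000000) 0)
(.lf (.negSucc 9999999) 0)))))
(.sx (.negSucc 6424999999)
(.sy (.negSucc 4462781249)
(.sx (.negSucc 7137499999)
(.sy (.negSucc 5024584374)
(.lf (.negSucc 409999999) 0)
(.lf (.negSucc 519999999) 0))
(.sy (.negSucc 5024584374)
(.lf (.negSucc 289999999) 0)
(.lf (.negSucc 399999999) 0)))
(.sx (.negSucc 7137499999)
(.sy (.negSucc 3900978124)
(.lf (.negSucc 629999999) 0)
(.lf (.negSucc 709999999) 0))
(.sy (.negSucc 3900978124)
(.lf (.negSucc 489999999) 0)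
(.lf (.negSucc 569999999) 0))))
(.sy (.negSucc 4462781249)
(.sx (.negSucc 5712499999)
(.sy (.negSucc 5024584374)
(.lf (.negSucc 189999999) 0)
(.lf (.negSucc 289999999) 0))
(.sy (.negSucc 5024584374)
(.lf (.negSucc 99999999) 0)
(.lf (.negSucc 189999999) 0)))
(.sx (.negSucc 5712499999)
(.sy (.negSucc 3900978124)
(.lf (.negSucc 369999999) 0)
(.lf (.negSucc 439999999) 0))
(.sy (.negSucc 3900978124)
(.lf (.negSucc 259999999) 0)
(.sx (.negSucc 5356249999)
(.lf (.negSucc 349999999) 0)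
(.lf (.negSucc 289999999) 0)))))))
(.sx (.negSucc 6424999999)
(.sy (.negSucc 1091962499)
(.sx (.negSucc 7137499999)
(.sy (.negSucc 2215568749)
(.sx (.negSucc 7493749999)
(.lf (.negSucc 859999999) 0)
(.lf (.negSucc 779999999) 0))
(.sx (.negSucc 7493749999)
(.sy (.negSucc 1653765624)
(.lf (.negSucc 949999999) 0)
(.lf (.negSucc 999999999) 0))
(.sy (.negSucc 1653765624)
(.lf (.negSucc 869999999) 0)
(.lf (.negSucc 909999999) 0))))
(.sy (.negSucc 2215568749)
(.sx (.negSucc 6781249999)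
(.lf (.negSucc 709999999) 0)
(.lf (.negSucc 629999999) 0))
(.sx (.negSucc 6781249999)
(.sy (.negSucc 1653765624)
(.lf (.negSucc 789999999) 0)
(.lf (.negSucc 829999999) 0))
(.lf (.negSucc 729999999) 1))))
(.sx (.negSucc 7137499999)
(.sy (.ofNat 31643750)
(.sx (.negSucc 7493749999)
(.sy (.negSucc 530159374)
(.lf (.negSucc 1039999999) 0)
(.lf (.negSucc 1079999999) 0))
(.sy (.negSucc 530159374)
(.lf (.negSucc 949999999) 0)
(.lf (.negSucc 979999999) 0)))
(.sx (.negSucc 7493749999)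
(.sx (.negSucc 7671874999)
(.lf (.negSucc 1139999999) 0)
(.lf (.negSucc 1089999999) 0))
(.lf (.negSucc 1019999999) 0)))
(.sy (.ofNat 31643750)
(.sx (.negSucc 6781249999)
(.lf (.negSucc 879999999) 0)
(.lf (.negSucc 799999999) 0))
(.sx (.negSucc 6781249999)
(.lf (.negSucc 929999999) 0)
(.lf (.negSucc 849999999) 0)))))
(.sy (.negSucc 1091962499)
(.sx (.negSucc 5712499999)
(.sy (.negSucc 2215568749)
(.sx (.negSucc 6068749999)
(.lf (.negSucc 559999999) 0)
(.sy (.negSucc 2777371874)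
(.lf (.negSucc 469999999) 0)
(.lf (.negSucc 519999999) 0)))
(.sx (.negSucc 6068749999)
(.sy (.negSucc 1653765624)
(.lf (.negSucc 629999999) 0)
(.lf (.negSucc 669999999) 0))
(.sy (.negSucc 1653765624)
(.lf (.negSucc 559999999) 0)
(.lf (.negSucc 599999999) 0))))
(.sy (.negSucc 2215568749)
(.sx (.negSucc 5356249999)
(.sy (.negSucc 2777371874)
(.lf (.negSucc 399999999) 0)
(.lf (.negSucc 449999999) 0))
(.sy (.negSucc 2777371874)
(.lf (.negSucc 339999999) 0)
(.lf (.negSucc 389999999) 0)))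
(.sx (.negSucc 5356249999)
(.sy (.negSucc 1653765624)
(.lf (.negSucc 489999999) 0)
(.lf (.negSucc 519999999) 0))
(.sy (.negSucc 1653765624)
(.lf (.negSucc 429999999) 0)
(.lf (.negSucc 459999999) 0)))))
(.sx (.negSucc 5712499999)
(.sy (.ofNat 31643750)
(.sx (.negSucc 6068749999)
(.lf (.negSucc 719999999) 0)
(.lf (.negSucc 639999999) 0))
(.sx (.negSucc 6068749999)
(.lf (.negSucc 759999999) 0)
(.lf (.negSucc 679999999) 0)))
(.sy (.ofNat 31643750)
(.sx (.negSucc 5356249999)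
(.lf (.negSucc 569999999) 0)
(.lf (.negSucc 499999999) 0))
(.sx (.negSucc 5356249999)
(.lf (.negSucc 599999999) 0)
(.lf (.negSucc 529999999) 0)))))))
(.sy (.ofNat 5649675000)
(.sx (.negSucc 6424999999)
(.sx (.negSucc 7137499999)
(.sy (.ofNat 3402462500)
(.sx (.negSucc 7493749999)
(.sy (.ofNat 2278856250)
(.sx (.negSucc 7671874999)
(.lf (.negSucc 1169999999) 0)
(.lf (.negSucc 1129999999) 0))
(.lf (.negSucc 1169999999) 0))
(.sy (.ofNat 2278856250)
(.lf (.negSucc 1059999999) 0)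
(.lf (.negSucc 1069999999) 0)))
(.sx (.negSucc 7493749999)
(.sy (.ofNat 4526068750)
(.lf (.negSucc 1169999999) 0)
(.lf (.negSucc 1159999999) 0))
(.sy (.ofNat 4526068750)
(.lf (.negSucc 1069999999) 0)
(.lf (.negSucc 1059999999) 0))))
(.sy (.ofNat 3402462500)
(.sx (.negSucc 6781249999)
(.sy (.ofNat 2278856250)
(.lf (.negSucc 959999999) 0)
(.lf (.negSucc 979999999) 0))
(.sy (.ofNat 2278856250)
(.lf (.negSucc 869999999) 0)
(.lf (.negSucc 889999999) 0)))
(.sx (.negSucc 6781249999)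
(.sy (.ofNat 4526068750)
(.lf (.negSucc 979999999) 0)
(.lf (.negSucc 969999999) 0))
(.sy (.ofNat 4526068750)
(.lf (.negSucc 889999999) 0)
(.lf (.negSucc 869999999) 0)))))
(.sy (.ofNat 3402462500)
(.sx (.negSucc 5712499999)
(.sx (.negSucc 6068749999)
(.sy (.ofNat 2278856250)
(.lf (.negSucc 789999999) 0)
(.lf (.negSucc 799999999) 0))
(.sy (.ofNat 2278856250)
(.lf (.negSucc 699999999) 0)
(.lf (.negSucc 709999999) 0)))
(.sx (.negSucc 5356249999)
(.sy (.ofNat 2278856250)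
(.lf (.negSucc 619999999) 0)
(.lf (.negSucc 629999999) 0))
(.sy (.ofNat 2278856250)
(.lf (.negSucc 549999999) 0)
(.lf (.negSucc 559999999) 0))))
(.sx (.negSucc 5712499999)
(.sx (.negSucc 6068749999)
(.sy (.ofNat 4526068750)
(.lf (.negSucc 799999999) 0)
(.lf (.negSucc 779999999) 0))
(.sy (.ofNat 4526068750)
(.lf (.negSucc 709999999) 0)
(.lf (.negSucc 699999999) 0)))
(.sx (.negSucc 5356249999)
(.sy (.ofNat 4526068750)
(.lf (.negSucc 629999999) 0)
(.lf (.negSucc 619999999) 0))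
(.sy (.ofNat 4526068750)
(.lf (.negSucc 549999999) 0)
(.lf (.negSucc 539999999) 0))))))
(.sx (.negSucc 6424999999)
(.sy (.ofNat 7896887500)
(.sx (.negSucc 7137499999)
(.sx (.negSucc 7493749999)
(.sy (.ofNat 6773281250)
(.lf (.negSucc 1129999999) 0)
(.lf (.negSucc 1109999999) 0))
(.sy (.ofNat 6773281250)
(.lf (.negSucc 1039999999) 0)
(.lf (.negSucc 1009999999) 0)))
(.sx (.negSucc 6781249999)
(.sy (.ofNat 6773281250)
(.lf (.negSucc 939999999) 0)
(.lf (.negSucc 919999999) 0))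
(.sy (.ofNat 6773281250)
(.lf (.negSucc 849999999) 0)
(.lf (.negSucc 829999999) 0))))
(.sx (.negSucc 7137499999)
(.sy (.ofNat 9020493750)
(.lf (.negSucc 1019999999) 0)
(.lf (.negSucc 989999999) 0))
(.sy (.ofNat 9020493750)
(.lf (.negSucc 839999999) 0)
(.lf (.negSucc 809999999) 0))))
(.sy (.ofNat 7896887500)
(.sx (.negSucc 5712499999)
(.sy (.ofNat 6773281250)
(.lf (.negSucc 719999999) 0)
(.lf (.negSucc 699999999) 0))
(.sy (.ofNat 6773281250)
(.lf (.negSucc 559999999) 1)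
(.lf (.negSucc 539999999) 0)))
(.sx (.negSucc 5712499999)
(.sy (.ofNat 9020493750)
(.lf (.negSucc 669999999) 0)
(.lf (.negSucc 649999999) 0))
(.sy (.ofNat 9020493750)
(.lf (.negSucc 509999999) 0)
(.lf (.negSucc 499999999) 0)))))))

theorem run_tr61_0N : Tr.run 0 2 T61.C T61.K0 R61 (.ofNat 5000000000) tr61_0N (.negSucc 7849999999) (.negSucc 4999999999) (.negSucc 7833599999) (.ofNat 10144100000)
    (-100000000000) 100000000000 = true := by decide +kernel

end Pool.Agent.Helper30.DL
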