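import Pool.Agent.Helper30.DL.Run.C61
import Pool.Agent.Helper30.DL.Seg

/-! MP_b4564f_an, all delays. Cell 61: kernel computations (generated). -/

set_option autoImplicit false
set_option maxRecDepth 100000

namespace Pool.Agent.Helper30.DL

theorem seg61_0 : tblSeg P61 (AF.cst (1500 * 1000000) 0 0) (AF.cst ((10000 - 1500) * 1000000) 0 0) 65178269 127707020 64 T61 0 8 = true := by
  decide +kernel

theorem seg61_1 : tblSeg P61 (AF.cst (1500 * 1000000) 0 0) (AF.cst ((10000 - 1500) * 1000000) 0 0) 65178269 127707020 64 T61 8 8 = true := by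
  decide +kernel

theorem seg61_2 : tblSeg P61 (AF.cst (1500 * 1000000) 0 0) (AF.cst ((10000 - 1500) * 1000000) 0 0) 65178269 127707020 64 T61 16 8 = true := by
  decide +kernel

theorem seg61_3 : tblSeg P61 (AF.cst (1500 * 1000000) 0 0) (AF.cst ((10000 - 1500) * 1000000) 0 0) 65178269 127707020 64 T61 24 8 = true := by
  decide +kernel

theorem seg61_4 : tblSeg P61 (AF.cst (1500 * 1000000) 0 0) (AF.cst ((10000 - 1500) * 1000000) 0 0) 65178269 127707020 64 T61 32 8 = true := by
  decide +kernel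

theorem seg61_5 : tblSeg P61 (AF.cst (1500 * 1000000) 0 0) (AF.cst ((10000 - 1500) * 1000000) 0 0) 65178269 127707020 64 T61 40 8 = true := by
  decide +kernel

theorem seg61_6 : tblSeg P61 (AF.cst (1500 * 1000000) 0 0) (AF.cst ((10000 - 1500) * 1000000) 0 0) 65178269 127707020 64 T61 48 8 = true := by
  decide +kernel

theorem seg61_7 : tblSeg P61 (AF.cst (1500 * 1000000) 0 0) (AF.cst ((10000 - 1500) * 1000000) 0 0) 65178269 127707020 64 T61 56 8 = true := by
  decide +kernel

theorem tbl61 : tblOK P61 (AF.cst (1500 * 1000000) 0 0) (AF.cst ((10000 - 1500) * 1000000) 0 0) 65178269 127707020 64 T61 64 = true := by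
  have h0 : tblOK P61 (AF.cst (1500 * 1000000) 0 0) (AF.cst ((10000 - 1500) * 1000000) 0 0) 65178269 127707020 64 T61 0 = true := rfl
  have h1 := tblOK_seg 0 h0 8 seg61_0
  have h2 := tblOK_seg 8 h1 8 seg61_1
  have h3 := tblOK_seg 16 h2 8 seg61_2
  have h4 := tblOK_seg 24 h3 8 seg61_3
  have h5 := tblOK_seg 32 h4 8 seg61_4
  have h6 := tblOK_seg 40 h5 8 seg61_5
  have h7 := tblOK_seg 48 h6 8 seg61_6
  have h8 := tblOK_seg 56 h7 8 seg61_7
  exact h8

theorem sc61 : scC T61 1500 R61 D61 = true := by decide +kernel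

end Pool.Agent.Helper30.DL
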