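import Pool.Agent.Helper30.DL.Run.C6

/-! MP_b4564f_an, all delays. Cell 6: kernel computations (generated). -/

set_option autoImplicit false
set_option maxRecDepth 100000

namespace Pool.Agent.Helper30.DL

/-- tree -/
def tr6_0A : Tr :=
(.sy (.ofNat 0)
(.sy (.negSucc 4999999999)
(.sx (.ofNat 2500000000)
(.sy (.negSucc 7499999999)
(.lf (.negSucc 439999999) 0)
(.lf (.negSucc 449999999) 0))
(.sy (.negSucc 7499999999)
(.lf (.ofNat 60000000) 0)
(.lf (.ofNat 30000000) 0)))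
(.sx (.ofNat 2500000000)
(.sy (.negSucc 2499999999)
(.lf (.negSucc 479999999) 0)
(.lf (.negSucc 509999999) 0))
(.sy (.negSucc 2499999999)
(.lf (.negSucc 29999999) 0)
(.lf (.negSucc 129999999) 0))))
(.sy (.ofNat 5000000000)
(.sx (.ofNat 2500000000)
(.sy (.ofNat 2500000000)
(.lf (.negSucc 559999999) 0)
(.lf (.negSucc 609999999) 0))
(.sy (.ofNat 2500000000)
(.lf (.negSucc 249999999) 0)
(.lf (.negSucc 369999999) 0)))
(.sy (.ofNat 7500000000)
(.sx (.ofNat 2500000000)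
(.lf (.negSucc 659999999) 0)
(.lf (.negSucc 489999999) 0))
(.sx (.ofNat 2500000000)
(.lf (.negSucc 719999999) 0)
(.sx (.ofNat 3750000000)
(.lf (.negSucc 669999999) 0)
(.lf (.negSucc 439999999) 0))))))

theorem run_tr6_0A : Tr.run 0 0 T6.C T6.K0 R6 (.ofNat 5000000000) tr6_0A (.ofNat 0) (.ofNat 5000000000) (.negSucc 9999999999) (.ofNat 10000000000)
    (-100000000000) 100000000000 = true := by decide +kernel

/-- tree -/
def tr6_0AA : Tr :=
(.sy (.ofNat 0)
(.sy (.negSucc 4999999999)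
(.sx (.negSucc 2499999999)
(.sy (.negSucc 7499999999)
(.lf (.negSucc 1069999999) 0)
(.lf (.negSucc 1049999999) 0))
(.sy (.negSucc 7499999999)
(.lf (.negSucc 849999999) 0)
(.lf (.negSucc 829999999) 0)))
(.sx (.negSucc 2499999999)
(.sy (.negSucc 2499999999)
(.lf (.negSucc 999999999) 0)
(.lf (.negSucc 929999999) 0))
(.lf (.negSucc 799999999) 0)))
(.sy (.ofNat 5000000000)
(.sy (.ofNat 2500000000)
(.lf (.negSucc 799999999) 1)
(.sx (.negSucc 2499999999)
(.lf (.negSucc 709999999) 0)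
(.lf (.negSucc 699999999) 0)))
(.sy (.ofNat 7500000000)
(.sx (.negSucc 2499999999)
(.lf (.negSucc 539999999) 0)
(.lf (.negSucc 639999999) 0))
(.sx (.negSucc 2499999999)
(.lf (.negSucc 319999999) 0)
(.lf (.negSucc 569999999) 0)))))

theorem run_tr6_0AA : Tr.run 0 0 T6.C T6.K0 R6 (.ofNat 5000000000) tr6_0AA (.negSucc 4999999999) (.ofNat 0) (.negSucc 9999999999) (.ofNat 10000000000)
    (-100000000000) 100000000000 = true := by decide +kernel

/-- tree -/
def tr6_0B : Tr :=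
(.sy (.ofNat 0)
(.sy (.negSucc 4999999999)
(.sx (.ofNat 6030900000)
(.sy (.negSucc 7499999999)
(.sx (.ofNat 3015450000)
(.sy (.negSucc 8749999999)
(.lf (.negSucc 759999999) 0)
(.lf (.negSucc 559999999) 0))
(.sy (.negSucc 8749999999)
(.lf (.negSucc 959999999) 0)
(.lf (.negSucc 709999999) 0)))
(.sx (.ofNat 3015450000)
(.sy (.negSucc 6249999999)
(.lf (.negSucc 379999999) 0)
(.lf (.negSucc 239999999) 0))
(.sy (.negSucc 6249999999)
(.lf (.negSucc 479999999) 0)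
(.lf (.negSucc 299999999) 0))))
(.sy (.negSucc 8290636555)
.ou
(.sy (.negSucc 6645318277)
(.sx (.ofNat 9046350000)
(.sy (.negSucc 7467977416)
(.lf (.negSucc 699999999) 0)
(.lf (.negSucc 559999999) 0))
.ou)
(.sx (.ofNat 9046350000)
(.lf (.negSucc 369999999) 0)
(.sy (.negSucc 5527091036)
.ou
(.lf (.negSucc 319999999) 0))))))
(.sx (.ofNat 6030900000)
(.sx (.ofNat 3015450000)
(.sy (.negSucc 2499999999)
(.sy (.negSucc 3749999999)
(.lf (.negSucc 139999999) 0)
(.lf (.negSucc 59999999) 0))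
(.lf (.ofNat 0) 0))
(.sy (.negSucc 2499999999)
(.sy (.negSucc 3749999999)
(.lf (.negSucc 159999999) 0)
(.lf (.negSucc 59999999) 0))
(.lf (.ofNat 10000000) 0)))
(.sy (.negSucc 2499999999)
(.sx (.ofNat 9046350000)
(.sy (.negSucc 3749999999)
(.lf (.negSucc 189999999) 0)
(.lf (.negSucc 79999999) 0))
(.sy (.negSucc 3749999999)
(.lf (.negSucc 219999999) 0)
(.lf (.negSucc 109999999) 0)))
(.sx (.ofNat 9046350000)
(.lf (.ofNat 0) 0)
(.lf (.negSucc 19999999) 0)))))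
(.sx (.ofNat 6030900000)
(.sy (.ofNat 5000000000)
(.sx (.ofNat 3015450000)
(.sy (.ofNat 2500000000)
(.lf (.negSucc 19999999) 0)
(.sy (.ofNat 3750000000)
(.lf (.negSucc 99999999) 0)
(.lf (.negSucc 179999999) 0)))
(.sy (.ofNat 2500000000)
(.lf (.negSucc 29999999) 0)
(.sy (.ofNat 3750000000)
(.lf (.negSucc 129999999) 0)
(.lf (.negSucc 219999999) 0))))
(.sy (.ofNat 7500000000)
(.sx (.ofNat 3015450000)
(.sy (.ofNat 6250000000)
(.lf (.negSucc 279999999) 0)
(.lf (.negSucc 399999999) 0))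
(.sy (.ofNat 6250000000)
(.lf (.negSucc 309999999) 0)
(.sx (.ofNat 4523175000)
(.lf (.negSucc 429999999) 0)
(.lf (.negSucc 309999999) 0))))
(.sx (.ofNat 3015450000)
(.sy (.ofNat 8750000000)
(.lf (.negSucc 539999999) 0)
(.sy (.ofNat 9375000000)
(.lf (.negSucc 649999999) 0)
(.lf (.negSucc 729999999) 0)))
(.sx (.ofNat 4523175000)
(.sy (.ofNat 8750000000)
(.lf (.negSucc 519999999) 0)
(.lf (.negSucc 579999999) 0))
(.sy (.ofNat 8750000000)
(.lf (.negSucc 269999999) 0)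
(.lf (.negSucc 149999999) 0))))))
(.sy (.ofNat 8290636556)
(.sy (.ofNat 4145318278)
(.sx (.ofNat 9046350000)
(.sy (.ofNat 2072659139)
(.lf (.negSucc 19999999) 0)
(.sx (.ofNat 7538625000)
(.lf (.negSucc 99999999) 0)
(.lf (.negSucc 49999999) 0)))
(.sy (.ofNat 2072659139)
(.lf (.negSucc 9999999) 0)
(.sy (.ofNat 3108988708)
(.lf (.ofNat 40000000) 0)
(.lf (.ofNat 150000000) 0))))
(.sx (.ofNat 9046350000)
(.sy (.ofNat 6217977417)
(.sx (.ofNat 7538625000)
(.sy (.ofNat 5181647847)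
(.lf (.negSucc 139999999) 0)
(.lf (.negSucc 119999999) 0))
(.sy (.ofNat 5181647847)
(.lf (.ofNat 20000000) 0)
(.lf (.ofNat 170000000) 0)))
(.sx (.ofNat 7538625000)
(.sy (.ofNat 7254306986)
(.lf (.negSucc 19999999) 0)
(.lf (.ofNat 160000000) 0))
(.sy (.ofNat 6632509245)
(.lf (.ofNat 340000000) 0)
.ou)))
(.sy (.ofNat 5527091037)
(.sx (.ofNat 10554075000)
(.lf (.ofNat 290000000) 0)
(.sy (.ofNat 4737506603)
(.lf (.ofNat 440000000) 0)
.ou))
.ou)))
.ou)))

theorem run_tr6_0B : Tr.run 0 1 T6.C T6.K0 R6 (.ofNat 5000000000) tr6_0B (.ofNat 0) (.ofNat 12061800000) (.negSucc 9999999999) (.ofNat 10000000000)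
    (-100000000000) 100000000000 = true := by decide +kernel

/-- tree -/
def tr6_0BB : Tr :=
(.sy (.ofNat 0)
(.sy (.negSucc 4999999999)
(.sx (.negSucc 4904199999)
(.sy (.negSucc 7499999999)
(.sx (.negSucc 7356299999)
.ou
(.sy (.negSucc 8749999999)
(.sx (.negSucc 6130249999)
.ou
(.lf (.ofNat 210000000) 0))
(.lf (.ofNat 90000000) 0)))
(.sx (.negSucc 7356299999)
(.sy (.negSucc 6796895178)
.ou
(.sy (.negSucc 5898447589)
(.lf (.negSucc 89999999) 0)
(.lf (.negSucc 159999999) 0)))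
(.sy (.negSucc 6249999999)
(.lf (.negSucc 39999999) 0)
(.lf (.negSucc 119999999) 0))))
(.sy (.negSucc 7499999999)
(.sx (.negSucc 2452099999)
(.sy (.negSucc 8749999999)
(.lf (.negSucc 9999999) 0)
(.lf (.negSucc 79999999) 0))
(.sy (.negSucc 8749999999)
(.lf (.negSucc 399999999) 0)
(.lf (.negSucc 329999999) 0)))
(.sx (.negSucc 2452099999)
(.sy (.negSucc 6249999999)
(.lf (.negSucc 119999999) 0)
(.lf (.negSucc 139999999) 0))
(.sy (.negSucc 6249999999)
(.lf (.negSucc 249999999) 0)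
(.lf (.negSucc 179999999) 0)))))
(.sx (.negSucc 4904199999)
(.sy (.negSucc 2499999999)
(.sx (.negSucc 7356299999)
(.sy (.negSucc 3749999999)
(.lf (.negSucc 219999999) 0)
(.lf (.negSucc 229999999) 0))
(.sy (.negSucc 3749999999)
(.lf (.negSucc 159999999) 0)
(.lf (.negSucc 159999999) 0)))
(.sx (.negSucc 7356299999)
(.lf (.negSucc 159999999) 0)
(.lf (.negSucc 99999999) 0)))
(.sy (.negSucc 2499999999)
(.sx (.negSucc 2452099999)
(.sy (.negSucc 3749999999)
(.lf (.negSucc 129999999) 0)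
(.lf (.negSucc 109999999) 0))
(.lf (.negSucc 99999999) 0))
(.lf (.negSucc 39999999) 0))))
(.sy (.ofNat 5000000000)
(.sx (.negSucc 4904199999)
(.sy (.ofNat 2500000000)
(.sx (.negSucc 7356299999)
(.lf (.ofNat 60000000) 0)
(.lf (.ofNat 30000000) 0))
(.sx (.negSucc 7356299999)
(.sy (.ofNat 3750000000)
(.lf (.ofNat 260000000) 0)
(.lf (.ofNat 390000000) 0))
(.sy (.ofNat 3750000000)
(.lf (.ofNat 140000000) 0)
(.lf (.ofNat 190000000) 0))))
(.sy (.ofNat 2500000000)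
(.lf (.ofNat 0) 0)
(.sx (.negSucc 2452099999)
(.lf (.ofNat 50000000) 0)
(.lf (.negSucc 49999999) 0))))
(.sx (.negSucc 4904199999)
(.sy (.ofNat 7500000000)
(.sx (.negSucc 7356299999)
(.sy (.ofNat 6796895179)
(.lf (.ofNat 540000000) 0)
.ou)
(.sy (.ofNat 6250000000)
(.lf (.ofNat 230000000) 0)
(.lf (.ofNat 250000000) 0)))
(.sx (.negSucc 7356299999)
.ou
(.sy (.ofNat 8750000000)
(.lf (.ofNat 250000000) 0)
(.lf (.ofNat 230000000) 0))))
(.sy (.ofNat 7500000000)
(.sx (.negSucc 2452099999)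
(.sy (.ofNat 6250000000)
(.lf (.ofNat 30000000) 0)
(.lf (.negSucc 9999999) 0))
(.sy (.ofNat 6250000000)
(.lf (.negSucc 139999999) 0)
(.lf (.negSucc 219999999) 0)))
(.sx (.negSucc 2452099999)
(.sy (.ofNat 8750000000)
(.lf (.negSucc 69999999) 0)
(.lf (.negSucc 159999999) 0))
(.sy (.ofNat 8750000000)
(.lf (.negSucc 329999999) 0)
(.lf (.negSucc 459999999) 0)))))))

theorem run_tr6_0BB : Tr.run 0 1 T6.C T6.K0 R6 (.ofNat 5000000000) tr6_0BB (.negSucc 9808399999) (.ofNat 0) (.negSucc 9999999999) (.ofNat 10000000000)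
    (-100000000000) 100000000000 = true := by decide +kernel

/-- tree -/
def tr6_0P : Tr :=
(.sy (.ofNat 1126700000)
(.sy (.negSucc 4340849999)
(.sy (.negSucc 7074624999)
(.sy (.negSucc 8441512499)
(.sx (.ofNat 5750000000)
(.lf (.negSucc 119999999) 0)
(.lf (.negSucc 59999999) 0))
(.sx (.ofNat 5750000000)
(.lf (.negSucc 9999999) 0)
(.lf (.ofNat 50000000) 0)))
(.sy (.negSucc 5707737499)
(.sx (.ofNat 5750000000)
(.lf (.ofNat 50000000) 0)
(.lf (.ofNat 120000000) 0))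
(.sx (.ofNat 5750000000)
(.sx (.ofNat 5375000000)
(.lf (.ofNat 70000000) 0)
(.lf (.ofNat 100000000) 0))
(.sy (.negSucc 5024293749)
(.lf (.ofNat 150000000) 0)
(.lf (.ofNat 150000000) 0)))))
(.sy (.negSucc 1607074999)
(.sx (.ofNat 5750000000)
(.sy (.negSucc 2973962499)
(.sx (.ofNat 5375000000)
(.lf (.ofNat 80000000) 0)
(.lf (.ofNat 110000000) 0))
(.sx (.ofNat 5375000000)
(.lf (.ofNat 60000000) 0)
(.lf (.ofNat 90000000) 0)))
(.sy (.negSucc 2973962499)
(.sx (.ofNat 6125000000)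
(.lf (.ofNat 140000000) 0)
(.lf (.ofNat 170000000) 0))
(.sx (.ofNat 6125000000)
(.lf (.ofNat 110000000) 0)
(.lf (.ofNat 140000000) 0))))
(.sy (.negSucc 240187499)
(.sx (.ofNat 5750000000)
(.sy (.negSucc 923631249)
(.lf (.ofNat 50000000) 0)
(.lf (.ofNat 30000000) 0))
(.sy (.negSucc 923631249)
(.lf (.ofNat 100000000) 0)
(.lf (.ofNat 80000000) 0)))
(.sx (.ofNat 5750000000)
(.sx (.ofNat 5375000000)
(.lf (.ofNat 0) 0)
(.lf (.ofNat 10000000) 0))
(.sx (.ofNat 6125000000)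
(.lf (.ofNat 40000000) 0)
(.lf (.ofNat 60000000) 0))))))
(.sy (.ofNat 6594250000)
(.sy (.ofNat 3860475000)
(.sx (.ofNat 5750000000)
(.sy (.ofNat 2493587500)
(.sx (.ofNat 5375000000)
(.lf (.negSucc 39999999) 0)
(.lf (.negSucc 19999999) 0))
(.sx (.ofNat 5375000000)
(.lf (.negSucc 49999999) 0)
(.lf (.negSucc 29999999) 0)))
(.sy (.ofNat 2493587500)
(.sx (.ofNat 6125000000)
(.lf (.ofNat 10000000) 0)
(.lf (.ofNat 40000000) 0))
(.sx (.ofNat 6125000000)
(.lf (.ofNat 0) 0)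
(.lf (.ofNat 40000000) 0))))
(.sy (.ofNat 5227362500)
(.sx (.ofNat 5750000000)
(.lf (.negSucc 29999999) 0)
(.lf (.ofNat 60000000) 0))
(.sx (.ofNat 5750000000)
(.lf (.ofNat 30000000) 0)
(.lf (.ofNat 150000000) 0))))
(.sy (.ofNat 9328025000)
(.sy (.ofNat 7961137500)
(.sx (.ofNat 5750000000)
(.lf (.ofNat 130000000) 0)
(.lf (.ofNat 300000000) 0))
(.sx (.ofNat 5750000000)
(.lf (.ofNat 290000000) 0)
(.lf (.ofNat 510000000) 0)))
(.sy (.ofNat 10694912500)
(.lf (.ofNat 610000000) 0)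
(.lf (.ofNat 860000000) 0)))))

theorem run_tr6_0P : Tr.run 0 2 T6.C T6.K0 R6 (.ofNat 5000000000) tr6_0P (.ofNat 5000000000) (.ofNat 6500000000) (.negSucc 9808399999) (.ofNat 12061800000)
    (-100000000000) 100000000000 = true := by decide +kernel

/-- tree -/
def tr6_0N : Tr :=
(.sy (.ofNat 1126700000)
(.sy (.negSucc 4340849999)
(.sy (.negSucc 7074624999)
(.sx (.negSucc 7099999999)
(.sy (.negSucc 8441512499)
(.sx (.negSucc 8149999999)
(.lf (.ofNat 930000000) 0)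
(.lf (.ofNat 780000000) 0))
(.sx (.negSucc 8149999999)
(.lf (.ofNat 400000000) 0)
(.lf (.ofNat 370000000) 0)))
(.sy (.negSucc 8441512499)
(.sx (.negSucc 6049999999)
(.lf (.ofNat 650000000) 0)
(.lf (.ofNat 540000000) 0))
(.sx (.negSucc 6049999999)
(.lf (.ofNat 330000000) 0)
(.lf (.ofNat 300000000) 0))))
(.sx (.negSucc 7099999999)
(.sy (.negSucc 5707737499)
(.sx (.negSucc 8149999999)
(.lf (.ofNat 50000000) 0)
(.lf (.ofNat 80000000) 0))
(.sx (.negSucc 8149999999)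
(.lf (.negSucc 199999999) 0)
(.lf (.negSucc 129999999) 0)))
(.sy (.negSucc 5707737499)
(.sx (.negSucc 6049999999)
(.lf (.ofNat 100000000) 0)
(.lf (.ofNat 120000000) 0))
(.sx (.negSucc 6049999999)
(.sy (.negSucc 5024293749)
(.lf (.negSucc 29999999) 0)
(.lf (.negSucc 99999999) 0))
(.sy (.negSucc 5024293749)
(.lf (.ofNat 10000000) 0)
(.lf (.negSucc 49999999) 0))))))
(.sx (.negSucc 7099999999)
(.sy (.negSucc 1607074999)
(.sx (.negSucc 8149999999)
(.sy (.negSucc 2973962499)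
(.sy (.negSucc 3657406249)
(.lf (.negSucc 349999999) 0)
(.lf (.negSucc 429999999) 0))
(.sx (.negSucc 8674999999)
(.lf (.negSucc 559999999) 0)
(.lf (.negSucc 489999999) 0)))
(.sy (.negSucc 2973962499)
(.sy (.negSucc 3657406249)
(.lf (.negSucc 249999999) 0)
(.lf (.negSucc 319999999) 0))
(.sx (.negSucc 7624999999)
(.lf (.negSucc 429999999) 0)
(.lf (.negSucc 369999999) 0))))
(.sx (.negSucc 8149999999)
(.sy (.negSucc 240187499)
(.sx (.negSucc 8674999999)
(.lf (.negSucc 659999999) 0)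
(.lf (.negSucc 589999999) 0))
(.sx (.negSucc 8674999999)
(.lf (.negSucc 739999999) 0)
(.lf (.negSucc 659999999) 0)))
(.sy (.negSucc 240187499)
(.sx (.negSucc 7624999999)
(.lf (.negSucc 519999999) 0)
(.lf (.negSucc 459999999) 0))
(.sx (.negSucc 7624999999)
(.lf (.negSucc 589999999) 0)
(.lf (.negSucc 519999999) 0)))))
(.sy (.negSucc 1607074999)
(.sx (.negSucc 6049999999)
(.sy (.negSucc 2973962499)
(.sx (.negSucc 6574999999)
(.lf (.negSucc 219999999) 0)
(.lf (.negSucc 179999999) 0))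
(.sx (.negSucc 6574999999)
(.lf (.negSucc 319999999) 0)
(.lf (.negSucc 269999999) 0)))
(.sy (.negSucc 2973962499)
(.sx (.negSucc 5524999999)
(.lf (.negSucc 139999999) 0)
(.lf (.negSucc 99999999) 0))
(.sx (.negSucc 5524999999)
(.lf (.negSucc 219999999) 0)
(.sy (.negSucc 2290518749)
(.lf (.negSucc 159999999) 0)
(.lf (.negSucc 189999999) 0)))))
(.sx (.negSucc 6049999999)
(.sy (.negSucc 240187499)
(.sx (.negSucc 6574999999)
(.lf (.negSucc 389999999) 0)
(.lf (.negSucc 329999999) 0))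
(.sx (.negSucc 6574999999)
(.lf (.negSucc 449999999) 0)
(.lf (.negSucc 379999999) 0)))
(.sy (.negSucc 240187499)
(.sx (.negSucc 5524999999)
(.lf (.negSucc 279999999) 0)
(.lf (.negSucc 229999999) 0))
(.sx (.negSucc 5524999999)
(.lf (.negSucc 319999999) 0)
(.lf (.negSucc 269999999) 0)))))))
(.sy (.ofNat 6594250000)
(.sx (.negSucc 7099999999)
(.sy (.ofNat 3860475000)
(.sx (.negSucc 8149999999)
(.sy (.ofNat 2493587500)
(.sx (.negSucc 8674999999)
(.lf (.negSucc 789999999) 0)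
(.lf (.negSucc 709999999) 0))
(.lf (.negSucc 789999999) 0))
(.sy (.ofNat 2493587500)
(.sx (.negSucc 7624999999)
(.lf (.negSucc 639999999) 0)
(.lf (.negSucc 559999999) 0))
(.lf (.negSucc 629999999) 0)))
(.sx (.negSucc 8149999999)
(.sy (.ofNat 5227362500)
(.lf (.negSucc 809999999) 0)
(.lf (.negSucc 819999999) 0))
(.sx (.negSucc 7624999999)
(.lf (.negSucc 689999999) 0)
(.lf (.negSucc 609999999) 0))))
(.sy (.ofNat 3860475000)
(.sx (.negSucc 6049999999)
(.sy (.ofNat 2493587500)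
(.sx (.negSucc 6574999999)
(.lf (.negSucc 489999999) 0)
(.lf (.negSucc 419999999) 0))
(.sx (.negSucc 6574999999)
(.lf (.negSucc 509999999) 0)
(.lf (.negSucc 439999999) 0)))
(.sy (.ofNat 2493587500)
(.sx (.negSucc 5524999999)
(.lf (.negSucc 349999999) 0)
(.lf (.negSucc 289999999) 0))
(.sx (.negSucc 5524999999)
(.lf (.negSucc 369999999) 0)
(.lf (.negSucc 299999999) 0))))
(.sx (.negSucc 6049999999)
(.sy (.ofNat 5227362500)
(.lf (.negSucc 479999999) 0)
(.lf (.negSucc 489999999) 0))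
(.sy (.ofNat 5227362500)
(.sx (.negSucc 5524999999)
(.lf (.negSucc 379999999) 0)
(.lf (.negSucc 309999999) 0))
(.lf (.negSucc 349999999) 0)))))
(.sx (.negSucc 7099999999)
(.sy (.ofNat 9328025000)
(.sx (.negSucc 8149999999)
(.sy (.ofNat 7961137500)
(.lf (.negSucc 819999999) 0)
(.lf (.negSucc 809999999) 0))
(.sy (.ofNat 7961137500)
(.lf (.negSucc 649999999) 0)
(.lf (.negSucc 639999999) 0)))
(.sx (.negSucc 8149999999)
(.lf (.negSucc 799999999) 0)
(.lf (.negSucc 639999999) 0)))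
(.sy (.ofNat 9328025000)
(.sx (.negSucc 6049999999)
(.sy (.ofNat 7961137500)
(.lf (.negSucc 489999999) 0)
(.lf (.negSucc 489999999) 0))
(.sy (.ofNat 7961137500)
(.lf (.negSucc 339999999) 0)
(.lf (.negSucc 339999999) 0)))
(.sx (.negSucc 6049999999)
(.lf (.negSucc 489999999) 0)
(.lf (.negSucc 349999999) 0))))))

theorem run_tr6_0N : Tr.run 0 2 T6.C T6.K0 R6 (.ofNat 5000000000) tr6_0N (.negSucc 9199999999) (.negSucc 4999999999) (.negSucc 9808399999) (.ofNat 12061800000)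
    (-100000000000) 100000000000 = true := by decide +kernel

end Pool.Agent.Helper30.DL
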