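import Pool.Agent.Helper30.DL.Run.C6
import Pool.Agent.Helper30.DL.Seg

/-! MP_b4564f_an, all delays. Cell 6: kernel computations (generated). -/

set_option autoImplicit false
set_option maxRecDepth 100000

namespace Pool.Agent.Helper30.DL

theorem tbl6 : tblOK P6 (AF.cst (2000 * 1000000) 0 0) (AF.cst ((10000 - 2000) * 1000000) 0 0) 1208304865 1208304868 1 T6 1 = true := by
  decide +kernel

theorem sc6 : scC T6 2000 R6 D6 = true := by decide +kernel

end Pool.Agent.Helper30.DL
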