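import Pool.Agent.Helper30.DL.Run.C7

/-! MP_b4564f_an, all delays. Cell 7: kernel computations (generated). -/

set_option autoImplicit false
set_option maxRecDepth 100000

namespace Pool.Agent.Helper30.DL

/-- tree -/
def tr7_0A : Tr :=
(.sy (.ofNat 0)
(.sy (.negSucc 4999999999)
(.sx (.ofNat 2500000000)
(.sy (.negSucc 7499999999)
(.lf (.negSucc 569999999) 0)
(.lf (.negSucc 579999999) 0))
(.sy (.negSucc 7499999999)
(.lf (.ofNat 0) 0)
(.lf (.negSucc 9999999) 0)))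
(.sx (.ofNat 2500000000)
(.sy (.negSucc 2499999999)
(.lf (.negSucc 609999999) 0)
(.lf (.negSucc 639999999) 0))
(.sy (.negSucc 2499999999)
(.lf (.negSucc 79999999) 0)
(.lf (.negSucc 189999999) 0))))
(.sy (.ofNat 5000000000)
(.sx (.ofNat 2500000000)
(.sy (.ofNat 2500000000)
(.lf (.negSucc 689999999) 0)
(.lf (.negSucc 749999999) 0))
(.sy (.ofNat 2500000000)
(.lf (.negSucc 319999999) 0)
(.lf (.negSucc 449999999) 0)))
(.sy (.ofNat 7500000000)
(.sx (.ofNat 2500000000)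
(.lf (.negSucc 809999999) 0)
(.sx (.ofNat 3750000000)
(.lf (.negSucc 669999999) 0)
(.lf (.negSucc 419999999) 0)))
(.sx (.ofNat 2500000000)
(.lf (.negSucc 879999999) 0)
(.sx (.ofNat 3750000000)
(.lf (.negSucc 779999999) 0)
(.lf (.negSucc 449999999) 0))))))

theorem run_tr7_0A : Tr.run 0 0 T7.C T7.K0 R7 (.ofNat 5000000000) tr7_0A (.ofNat 0) (.ofNat 5000000000) (.negSucc 9999999999) (.ofNat 10000000000)
    (-100000000000) 100000000000 = true := by decide +kernel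

/-- tree -/
def tr7_0AA : Tr :=
(.sy (.ofNat 0)
(.sy (.negSucc 4999999999)
(.sx (.negSucc 2499999999)
(.sy (.negSucc 7499999999)
(.lf (.negSucc 1219999999) 0)
(.lf (.negSucc 1199999999) 0))
(.sy (.negSucc 7499999999)
(.lf (.negSucc 1009999999) 0)
(.lf (.negSucc 989999999) 0)))
(.sx (.negSucc 2499999999)
(.sy (.negSucc 2499999999)
(.lf (.negSucc 1159999999) 0)
(.lf (.negSucc 1089999999) 0))
(.sy (.negSucc 2499999999)
(.lf (.negSucc 969999999) 0)
(.lf (.negSucc 939999999) 0))))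
(.sy (.ofNat 5000000000)
(.sy (.ofNat 2500000000)
(.sx (.negSucc 2499999999)
(.lf (.negSucc 979999999) 0)
(.lf (.negSucc 899999999) 0))
(.sx (.negSucc 2499999999)
(.lf (.negSucc 839999999) 0)
(.lf (.negSucc 849999999) 0)))
(.sy (.ofNat 7500000000)
(.sx (.negSucc 2499999999)
(.lf (.negSucc 659999999) 0)
(.lf (.negSucc 779999999) 0))
(.sx (.negSucc 2499999999)
(.lf (.negSucc 429999999) 0)
(.sx (.negSucc 1249999999)
(.lf (.negSucc 639999999) 0)
(.lf (.negSucc 759999999) 0))))))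

theorem run_tr7_0AA : Tr.run 0 0 T7.C T7.K0 R7 (.ofNat 5000000000) tr7_0AA (.negSucc 4999999999) (.ofNat 0) (.negSucc 9999999999) (.ofNat 10000000000)
    (-100000000000) 100000000000 = true := by decide +kernel

/-- tree -/
def tr7_0B : Tr :=
(.sy (.ofNat 0)
(.sy (.negSucc 4999999999)
(.sx (.ofNat 5871600000)
(.sy (.negSucc 7499999999)
(.sx (.ofNat 2935800000)
(.sy (.negSucc 8749999999)
(.lf (.negSucc 899999999) 0)
(.lf (.negSucc 659999999) 0))
(.sy (.negSucc 8749999999)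
(.lf (.negSucc 1089999999) 0)
(.lf (.negSucc 799999999) 0)))
(.sx (.ofNat 2935800000)
(.sy (.negSucc 6249999999)
(.lf (.negSucc 459999999) 0)
(.lf (.negSucc 289999999) 0))
(.sy (.negSucc 6249999999)
(.lf (.negSucc 549999999) 0)
(.lf (.negSucc 349999999) 0))))
(.sy (.negSucc 8515566455)
.ou
(.sy (.negSucc 6757783227)
(.sx (.ofNat 8807400000)
(.sy (.negSucc 7636674841)
(.lf (.negSucc 819999999) 0)
(.lf (.negSucc 639999999) 0))
.ou)
(.sx (.ofNat 8807400000)
(.sy (.negSucc 5878891613)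
(.lf (.negSucc 489999999) 0)
(.lf (.negSucc 349999999) 0))
(.sy (.negSucc 5677044303)
.ou
(.lf (.negSucc 349999999) 0))))))
(.sx (.ofNat 5871600000)
(.sy (.negSucc 2499999999)
(.sx (.ofNat 2935800000)
(.sy (.negSucc 3749999999)
(.lf (.negSucc 159999999) 0)
(.lf (.negSucc 69999999) 0))
(.sy (.negSucc 3749999999)
(.lf (.negSucc 189999999) 0)
(.lf (.negSucc 69999999) 0)))
(.lf (.ofNat 10000000) 0))
(.sy (.negSucc 2499999999)
(.sx (.ofNat 8807400000)
(.sy (.negSucc 3749999999)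
(.lf (.negSucc 209999999) 0)
(.lf (.negSucc 89999999) 0))
(.sy (.negSucc 3749999999)
(.lf (.negSucc 229999999) 0)
(.lf (.negSucc 109999999) 0)))
(.sx (.ofNat 8807400000)
(.lf (.ofNat 0) 0)
(.sy (.negSucc 1249999999)
(.lf (.negSucc 39999999) 0)
(.lf (.negSucc 9999999) 0))))))
(.sx (.ofNat 5871600000)
(.sy (.ofNat 5000000000)
(.sy (.ofNat 2500000000)
(.lf (.negSucc 29999999) 0)
(.sx (.ofNat 2935800000)
(.sy (.ofNat 3750000000)
(.lf (.negSucc 109999999) 0)
(.lf (.negSucc 209999999) 0))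
(.sy (.ofNat 3750000000)
(.lf (.negSucc 149999999) 0)
(.lf (.negSucc 249999999) 0))))
(.sy (.ofNat 7500000000)
(.sx (.ofNat 2935800000)
(.sy (.ofNat 6250000000)
(.lf (.negSucc 329999999) 0)
(.lf (.negSucc 479999999) 0))
(.sy (.ofNat 6250000000)
(.lf (.negSucc 359999999) 0)
(.sx (.ofNat 4403700000)
(.lf (.negSucc 499999999) 0)
(.lf (.negSucc 349999999) 0))))
(.sx (.ofNat 2935800000)
(.sy (.ofNat 8750000000)
(.sx (.ofNat 1467900000)
(.lf (.negSucc 599999999) 0)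
(.lf (.negSucc 669999999) 0))
(.sy (.ofNat 9375000000)
(.lf (.negSucc 779999999) 0)
(.lf (.negSucc 869999999) 0)))
(.sx (.ofNat 4403700000)
(.sy (.ofNat 8750000000)
(.lf (.negSucc 609999999) 0)
(.lf (.negSucc 679999999) 0))
(.sy (.ofNat 8750000000)
(.lf (.negSucc 299999999) 0)
(.lf (.negSucc 129999999) 0))))))
(.sy (.ofNat 8515566456)
(.sy (.ofNat 4257783228)
(.sx (.ofNat 8807400000)
(.sy (.ofNat 2128891614)
(.lf (.negSucc 19999999) 0)
(.sx (.ofNat 7339500000)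
(.lf (.negSucc 119999999) 0)
(.sy (.ofNat 3193337421)
(.lf (.negSucc 59999999) 0)
(.lf (.negSucc 49999999) 0))))
(.sy (.ofNat 2128891614)
(.lf (.negSucc 9999999) 0)
(.sy (.ofNat 3193337421)
(.lf (.ofNat 50000000) 0)
(.lf (.ofNat 190000000) 0))))
(.sx (.ofNat 8807400000)
(.sy (.ofNat 6386674842)
(.sx (.ofNat 7339500000)
(.sy (.ofNat 5322229035)
(.lf (.negSucc 159999999) 0)
(.lf (.negSucc 109999999) 0))
(.sy (.ofNat 5322229035)
(.lf (.ofNat 40000000) 0)
(.lf (.ofNat 240000000) 0)))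
(.sx (.ofNat 7339500000)
(.sy (.ofNat 7451120649)
(.lf (.ofNat 30000000) 0)
(.lf (.ofNat 290000000) 0))
(.sy (.ofNat 6812453165)
(.lf (.ofNat 470000000) 0)
.ou)))
(.sy (.ofNat 5677044304)
(.sx (.ofNat 10275300000)
(.lf (.ofNat 370000000) 0)
(.sy (.ofNat 4866037975)
(.lf (.ofNat 540000000) 0)
.ou))
.ou)))
.ou)))

theorem run_tr7_0B : Tr.run 0 1 T7.C T7.K0 R7 (.ofNat 5000000000) tr7_0B (.ofNat 0) (.ofNat 11743200000) (.negSucc 9999999999) (.ofNat 10000000000)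
    (-100000000000) 100000000000 = true := by decide +kernel

/-- tree -/
def tr7_0BB : Tr :=
(.sy (.ofNat 0)
(.sy (.negSucc 4999999999)
(.sx (.negSucc 4731799999)
(.sy (.negSucc 7499999999)
(.sx (.negSucc 7097699999)
.ou
(.sy (.negSucc 8749999999)
(.sx (.negSucc 5914749999)
.ou
(.lf (.ofNat 150000000) 0))
(.lf (.ofNat 30000000) 0)))
(.sx (.negSucc 7097699999)
(.sy (.negSucc 7044535553)
.ou
(.sy (.negSucc 6022267776)
(.lf (.negSucc 129999999) 0)
(.lf (.negSucc 209999999) 0)))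
(.sy (.negSucc 6249999999)
(.lf (.negSucc 89999999) 0)
(.lf (.negSucc 169999999) 0))))
(.sy (.negSucc 7499999999)
(.sx (.negSucc 2365899999)
(.sy (.negSucc 8749999999)
(.lf (.negSucc 99999999) 0)
(.lf (.negSucc 159999999) 0))
(.sy (.negSucc 8749999999)
(.lf (.negSucc 519999999) 0)
(.lf (.negSucc 419999999) 0)))
(.sx (.negSucc 2365899999)
(.sy (.negSucc 6249999999)
(.lf (.negSucc 179999999) 0)
(.lf (.negSucc 179999999) 0))
(.sy (.negSucc 6249999999)
(.lf (.negSucc 319999999) 0)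
(.lf (.negSucc 229999999) 0)))))
(.sx (.negSucc 4731799999)
(.sy (.negSucc 2499999999)
(.sx (.negSucc 7097699999)
(.sy (.negSucc 3749999999)
(.lf (.negSucc 259999999) 0)
(.lf (.negSucc 269999999) 0))
(.sy (.negSucc 3749999999)
(.lf (.negSucc 199999999) 0)
(.lf (.negSucc 189999999) 0)))
(.sx (.negSucc 7097699999)
(.sy (.negSucc 1249999999)
(.lf (.negSucc 219999999) 0)
(.lf (.negSucc 129999999) 0))
(.lf (.negSucc 109999999) 0)))
(.sy (.negSucc 2499999999)
(.sx (.negSucc 2365899999)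
(.sy (.negSucc 3749999999)
(.lf (.negSucc 159999999) 0)
(.lf (.negSucc 129999999) 0))
(.sy (.negSucc 3749999999)
(.lf (.negSucc 149999999) 0)
(.lf (.negSucc 89999999) 0)))
(.lf (.negSucc 39999999) 0))))
(.sy (.ofNat 5000000000)
(.sx (.negSucc 4731799999)
(.sy (.ofNat 2500000000)
(.sx (.negSucc 7097699999)
(.sy (.ofNat 1250000000)
(.lf (.negSucc 9999999) 0)
(.lf (.ofNat 120000000) 0))
(.lf (.ofNat 30000000) 0))
(.sx (.negSucc 7097699999)
(.sy (.ofNat 3750000000)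
(.lf (.ofNat 260000000) 0)
(.lf (.ofNat 380000000) 0))
(.sy (.ofNat 3750000000)
(.lf (.ofNat 130000000) 0)
(.lf (.ofNat 180000000) 0))))
(.sy (.ofNat 2500000000)
(.lf (.ofNat 0) 0)
(.sx (.negSucc 2365899999)
(.sy (.ofNat 3750000000)
(.lf (.ofNat 30000000) 0)
(.lf (.ofNat 30000000) 0))
(.lf (.negSucc 69999999) 0))))
(.sx (.negSucc 4731799999)
(.sy (.ofNat 7500000000)
(.sx (.negSucc 7097699999)
(.sy (.ofNat 7044535554)
(.sy (.ofNat 6022267777)
(.lf (.ofNat 480000000) 0)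
(.lf (.ofNat 560000000) 0))
.ou)
(.sy (.ofNat 6250000000)
(.lf (.ofNat 210000000) 0)
(.lf (.ofNat 210000000) 0)))
(.sx (.negSucc 7097699999)
.ou
(.sy (.ofNat 8750000000)
(.lf (.ofNat 190000000) 0)
(.lf (.ofNat 140000000) 0))))
(.sy (.ofNat 7500000000)
(.sx (.negSucc 2365899999)
(.sy (.ofNat 6250000000)
(.lf (.ofNat 0) 0)
(.lf (.negSucc 59999999) 0))
(.sy (.ofNat 6250000000)
(.lf (.negSucc 179999999) 0)
(.lf (.negSucc 289999999) 0)))
(.sx (.negSucc 2365899999)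
(.sy (.ofNat 8750000000)
(.lf (.negSucc 149999999) 0)
(.lf (.negSucc 259999999) 0))
(.sy (.ofNat 8750000000)
(.lf (.negSucc 419999999) 0)
(.lf (.negSucc 579999999) 0)))))))

theorem run_tr7_0BB : Tr.run 0 1 T7.C T7.K0 R7 (.ofNat 5000000000) tr7_0BB (.negSucc 9463599999) (.ofNat 0) (.negSucc 9999999999) (.ofNat 10000000000)
    (-100000000000) 100000000000 = true := by decide +kernel

/-- tree -/
def tr7_0P : Tr :=
(.sy (.ofNat 1139800000)
(.sy (.negSucc 4161899999)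
(.sy (.negSucc 6812749999)
(.sy (.negSucc 8138174999)
(.sx (.ofNat 5650000000)
(.lf (.negSucc 149999999) 0)
(.lf (.negSucc 99999999) 0))
(.sx (.ofNat 5650000000)
(.lf (.negSucc 29999999) 0)
(.lf (.ofNat 20000000) 0)))
(.sy (.negSucc 5487324999)
(.sx (.ofNat 5650000000)
(.lf (.ofNat 40000000) 0)
(.lf (.ofNat 100000000) 0))
(.sx (.ofNat 5650000000)
(.sy (.negSucc 4824612499)
(.lf (.ofNat 70000000) 0)
(.lf (.ofNat 80000000) 0))
(.sy (.negSucc 4824612499)
(.lf (.ofNat 130000000) 0)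
(.lf (.ofNat 140000000) 0)))))
(.sy (.negSucc 1511049999)
(.sy (.negSucc 2836474999)
(.sx (.ofNat 5650000000)
(.sx (.ofNat 5325000000)
(.lf (.ofNat 80000000) 0)
(.lf (.ofNat 100000000) 0))
(.sy (.negSucc 3499187499)
(.lf (.ofNat 140000000) 0)
(.lf (.ofNat 140000000) 0)))
(.sx (.ofNat 5650000000)
(.sy (.negSucc 2173762499)
(.lf (.ofNat 80000000) 0)
(.lf (.ofNat 60000000) 0))
(.sy (.negSucc 2173762499)
(.lf (.ofNat 130000000) 0)
(.lf (.ofNat 120000000) 0))))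
(.sy (.negSucc 185624999)
(.sx (.ofNat 5650000000)
(.sy (.negSucc 848337499)
(.lf (.ofNat 50000000) 0)
(.lf (.ofNat 30000000) 0))
(.sy (.negSucc 848337499)
(.lf (.ofNat 100000000) 0)
(.lf (.ofNat 80000000) 0)))
(.sx (.ofNat 5650000000)
(.sy (.ofNat 477087500)
(.lf (.ofNat 10000000) 0)
(.lf (.ofNat 0) 0))
(.sy (.ofNat 477087500)
(.lf (.ofNat 60000000) 0)
(.lf (.ofNat 50000000) 0))))))
(.sy (.ofNat 6441500000)
(.sy (.ofNat 3790650000)
(.sy (.ofNat 2465225000)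
(.sx (.ofNat 5650000000)
(.sy (.ofNat 1802512500)
(.lf (.negSucc 19999999) 0)
(.lf (.negSucc 29999999) 0))
(.sx (.ofNat 5975000000)
(.lf (.ofNat 20000000) 0)
(.lf (.ofNat 50000000) 0)))
(.sx (.ofNat 5650000000)
(.sx (.ofNat 5325000000)
(.lf (.negSucc 49999999) 0)
(.lf (.negSucc 19999999) 0))
(.lf (.ofNat 40000000) 0)))
(.sy (.ofNat 5116075000)
(.sx (.ofNat 5650000000)
(.lf (.ofNat 0) 0)
(.lf (.ofNat 100000000) 0))
(.sx (.ofNat 5650000000)
(.lf (.ofNat 70000000) 0)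
(.lf (.ofNat 200000000) 0))))
(.sy (.ofNat 9092350000)
(.sy (.ofNat 7766925000)
(.sx (.ofNat 5650000000)
(.lf (.ofNat 190000000) 0)
(.lf (.ofNat 370000000) 0))
(.lf (.ofNat 460000000) 0))
(.sy (.ofNat 10417775000)
(.lf (.ofNat 690000000) 0)
(.lf (.ofNat 940000000) 0)))))

theorem run_tr7_0P : Tr.run 0 2 T7.C T7.K0 R7 (.ofNat 5000000000) tr7_0P (.ofNat 5000000000) (.ofNat 6300000000) (.negSucc 9463599999) (.ofNat 11743200000)
    (-100000000000) 100000000000 = true := by decide +kernel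

/-- tree -/
def tr7_0N : Tr :=
(.sy (.ofNat 1139800000)
(.sy (.negSucc 4161899999)
(.sy (.negSucc 6812749999)
(.sx (.negSucc 6999999999)
(.sy (.negSucc 8138174999)
(.sx (.negSucc 7999999999)
(.lf (.ofNat 800000000) 0)
(.lf (.ofNat 680000000) 0))
(.sx (.negSucc 7999999999)
(.lf (.ofNat 290000000) 0)
(.lf (.ofNat 280000000) 0)))
(.sy (.negSucc 8138174999)
(.sx (.negSucc 5999999999)
(.lf (.ofNat 580000000) 0)
(.lf (.ofNat 490000000) 0))
(.sx (.negSucc 5999999999)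
(.lf (.ofNat 270000000) 0)
(.lf (.ofNat 250000000) 0))))
(.sx (.negSucc 6999999999)
(.sy (.negSucc 5487324999)
(.sx (.negSucc 7999999999)
(.lf (.negSucc 39999999) 0)
(.lf (.ofNat 0) 0))
(.sx (.negSucc 7999999999)
(.lf (.negSucc 279999999) 0)
(.lf (.negSucc 199999999) 0)))
(.sy (.negSucc 5487324999)
(.sx (.negSucc 5999999999)
(.lf (.ofNat 50000000) 0)
(.lf (.ofNat 80000000) 0))
(.sx (.negSucc 5999999999)
(.sy (.negSucc 4824612499)
(.lf (.negSucc 79999999) 0)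
(.lf (.negSucc 159999999) 0))
(.sy (.negSucc 4824612499)
(.lf (.negSucc 29999999) 0)
(.lf (.negSucc 89999999) 0))))))
(.sx (.negSucc 6999999999)
(.sy (.negSucc 1511049999)
(.sx (.negSucc 7999999999)
(.sy (.negSucc 2836474999)
(.sy (.negSucc 3499187499)
(.lf (.negSucc 419999999) 0)
(.lf (.negSucc 499999999) 0))
(.sx (.negSucc 8499999999)
(.lf (.negSucc 629999999) 0)
(.lf (.negSucc 559999999) 0)))
(.sy (.negSucc 2836474999)
(.sy (.negSucc 3499187499)
(.lf (.negSucc 319999999) 0)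
(.lf (.negSucc 379999999) 0))
(.sx (.negSucc 7499999999)
(.lf (.negSucc 489999999) 0)
(.lf (.negSucc 429999999) 0))))
(.sx (.negSucc 7999999999)
(.sy (.negSucc 185624999)
(.sx (.negSucc 8499999999)
(.lf (.negSucc 729999999) 0)
(.lf (.negSucc 649999999) 0))
(.sx (.negSucc 8499999999)
(.lf (.negSucc 799999999) 0)
(.lf (.negSucc 719999999) 0)))
(.sy (.negSucc 185624999)
(.sx (.negSucc 7499999999)
(.lf (.negSucc 579999999) 0)
(.lf (.negSucc 509999999) 0))
(.sx (.negSucc 7499999999)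
(.lf (.negSucc 649999999) 0)
(.lf (.negSucc 569999999) 0)))))
(.sy (.negSucc 1511049999)
(.sx (.negSucc 5999999999)
(.sy (.negSucc 2836474999)
(.sx (.negSucc 6499999999)
(.lf (.negSucc 269999999) 0)
(.lf (.negSucc 219999999) 0))
(.sx (.negSucc 6499999999)
(.lf (.negSucc 369999999) 0)
(.lf (.negSucc 319999999) 0)))
(.sy (.negSucc 2836474999)
(.sx (.negSucc 5499999999)
(.lf (.negSucc 179999999) 0)
(.lf (.negSucc 139999999) 0))
(.sx (.negSucc 5499999999)
(.lf (.negSucc 259999999) 0)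
(.sy (.negSucc 2173762499)
(.lf (.negSucc 199999999) 0)
(.lf (.negSucc 229999999) 0)))))
(.sx (.negSucc 5999999999)
(.sy (.negSucc 185624999)
(.sx (.negSucc 6499999999)
(.lf (.negSucc 449999999) 0)
(.lf (.negSucc 379999999) 0))
(.sx (.negSucc 6499999999)
(.lf (.negSucc 499999999) 0)
(.lf (.negSucc 429999999) 0)))
(.sy (.negSucc 185624999)
(.sx (.negSucc 5499999999)
(.lf (.negSucc 319999999) 0)
(.lf (.negSucc 269999999) 0))
(.sx (.negSucc 5499999999)
(.lf (.negSucc 369999999) 0)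
(.lf (.negSucc 299999999) 0)))))))
(.sy (.ofNat 6441500000)
(.sx (.negSucc 6999999999)
(.sy (.ofNat 3790650000)
(.sx (.negSucc 7999999999)
(.sy (.ofNat 2465225000)
(.sx (.negSucc 8499999999)
(.lf (.negSucc 849999999) 0)
(.lf (.negSucc 769999999) 0))
(.lf (.negSucc 839999999) 0))
(.sy (.ofNat 2465225000)
(.sx (.negSucc 7499999999)
(.lf (.negSucc 689999999) 0)
(.lf (.negSucc 609999999) 0))
(.lf (.negSucc 679999999) 0)))
(.sx (.negSucc 7999999999)
(.sx (.negSucc 8499999999)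
(.lf (.negSucc 909999999) 0)
(.lf (.negSucc 819999999) 0))
(.sx (.negSucc 7499999999)
(.lf (.negSucc 739999999) 0)
(.lf (.negSucc 649999999) 0))))
(.sy (.ofNat 3790650000)
(.sx (.negSucc 5999999999)
(.sy (.ofNat 2465225000)
(.sx (.negSucc 6499999999)
(.lf (.negSucc 539999999) 0)
(.lf (.negSucc 459999999) 0))
(.sx (.negSucc 6499999999)
(.lf (.negSucc 559999999) 0)
(.lf (.negSucc 479999999) 0)))
(.sy (.ofNat 2465225000)
(.sx (.negSucc 5499999999)
(.lf (.negSucc 389999999) 0)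
(.lf (.negSucc 329999999) 0))
(.sx (.negSucc 5499999999)
(.lf (.negSucc 409999999) 0)
(.lf (.negSucc 339999999) 0))))
(.sx (.negSucc 5999999999)
(.sx (.negSucc 6499999999)
(.lf (.negSucc 569999999) 0)
(.lf (.negSucc 489999999) 0))
(.sx (.negSucc 5499999999)
(.lf (.negSucc 419999999) 0)
(.lf (.negSucc 349999999) 0)))))
(.sx (.negSucc 6999999999)
(.sy (.ofNat 9092350000)
(.sx (.negSucc 7999999999)
(.sy (.ofNat 7766925000)
(.lf (.negSucc 859999999) 0)
(.lf (.negSucc 849999999) 0))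
(.sy (.ofNat 7766925000)
(.lf (.negSucc 689999999) 0)
(.lf (.negSucc 679999999) 0)))
(.sx (.negSucc 7999999999)
(.lf (.negSucc 829999999) 0)
(.lf (.negSucc 669999999) 0)))
(.sy (.ofNat 9092350000)
(.sx (.negSucc 5999999999)
(.sy (.ofNat 7766925000)
(.lf (.negSucc 529999999) 0)
(.lf (.negSucc 519999999) 0))
(.sy (.ofNat 7766925000)
(.lf (.negSucc 379999999) 0)
(.lf (.negSucc 369999999) 0)))
(.sx (.negSucc 5999999999)
(.lf (.negSucc 509999999) 0)
(.lf (.negSucc 369999999) 0))))))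

theorem run_tr7_0N : Tr.run 0 2 T7.C T7.K0 R7 (.ofNat 5000000000) tr7_0N (.negSucc 8999999999) (.negSucc 4999999999) (.negSucc 9463599999) (.ofNat 11743200000)
    (-100000000000) 100000000000 = true := by decide +kernel

end Pool.Agent.Helper30.DL
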