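import Pool.Agent.Helper30.DL.Run.C7

/-! MP_b4564f_an, all delays. Cell 7: kernel computations (generated). -/

set_option autoImplicit false
set_option maxRecDepth 100000

namespace Pool.Agent.Helper30.DL

/-- tree -/
def tr7_1A : Tr :=
(.sy (.ofNat 0)
(.sy (.negSucc 4999999999)
(.sy (.negSucc 7499999999)
(.lf (.negSucc 4449999999) 0)
(.sx (.ofNat 1000000000)
(.lf (.negSucc 9609999999) 0)
(.lf (.negSucc 4249999999) 0)))
(.sx (.ofNat 1000000000)
(.sy (.negSucc 2499999999)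
(.lf (.negSucc 11729999999) 0)
(.sx (.ofNat 500000000)
(.lf (.negSucc 25379999999) 0)
(.lf (.negSucc 10009999999) 0)))
(.lf (.negSucc 5659999999) 0)))
(.sy (.ofNat 5000000000)
(.sx (.ofNat 1000000000)
(.sx (.ofNat 500000000)
(.lf (.ofNat 0) 0)
(.lf (.negSucc 12329999999) 0))
(.sy (.ofNat 2500000000)
(.lf (.negSucc 7129999999) 0)
(.lf (.negSucc 8139999999) 0)))
(.sx (.ofNat 1000000000)
(.sx (.ofNat 500000000)
(.lf (.ofNat 0) 0)
(.lf (.negSucc 15469999999) 0))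
(.sy (.ofNat 7500000000)
(.lf (.negSucc 9169999999) 0)
(.lf (.negSucc 10219999999) 0)))))

theorem run_tr7_1A : Tr.run 1 0 (T7.C.mdA 2000) (T7.K1.shA (w2n 2000 1047197553 19406)) R7 (.ofNat 2000000000) tr7_1A (.ofNat 0) (.ofNat 2000000000) (.negSucc 9999999999) (.ofNat 10000000000)
    (-100000000000) 100000000000 = true := by decide +kernel

/-- tree -/
def tr7_1AA : Tr :=
(.sy (.ofNat 0)
(.sy (.negSucc 4999999999)
(.sy (.negSucc 7499999999)
(.lf (.ofNat 1150000000) 0)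
(.sx (.negSucc 999999999)
(.lf (.ofNat 600000000) 0)
(.lf (.ofNat 5840000000) 0)))
(.sx (.negSucc 999999999)
(.lf (.ofNat 1310000000) 0)
(.sx (.negSucc 499999999)
(.lf (.ofNat 4830000000) 0)
(.lf (.ofNat 18960000000) 0))))
(.sy (.ofNat 5000000000)
(.sx (.negSucc 999999999)
(.lf (.ofNat 2270000000) 0)
(.sx (.negSucc 499999999)
(.lf (.ofNat 6960000000) 0)
(.sx (.negSucc 249999999)
(.lf (.ofNat 16470000000) 0)
(.lf (.ofNat 0) 0))))
(.sx (.negSucc 999999999)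
(.lf (.ofNat 3240000000) 0)
(.sx (.negSucc 499999999)
(.lf (.ofNat 9080000000) 0)
(.lf (.ofNat 0) 0)))))

theorem run_tr7_1AA : Tr.run 1 0 (T7.C.mdA 2000) (T7.K1.shA (w2n 2000 1047197553 19406)) R7 (.ofNat 2000000000) tr7_1AA (.negSucc 1999999999) (.ofNat 0) (.negSucc 9999999999) (.ofNat 10000000000)
    (-100000000000) 100000000000 = true := by decide +kernel

/-- tree -/
def tr7_1B : Tr :=
(.sy (.ofNat 0)
(.sx (.ofNat 5871600000)
(.sy (.negSucc 4999999999)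
(.sx (.ofNat 2935800000)
(.sy (.negSucc 7499999999)
(.sx (.ofNat 1467900000)
(.lf (.ofNat 1120000000) 0)
(.lf (.negSucc 519999999) 0))
(.lf (.negSucc 409999999) 0))
(.sy (.negSucc 6812453164)
.ou
(.sx (.ofNat 4403700000)
(.lf (.negSucc 499999999) 0)
.ou)))
(.sx (.ofNat 2935800000)
(.sy (.negSucc 2499999999)
(.lf (.negSucc 1039999999) 0)
(.lf (.negSucc 1999999999) 0))
(.sy (.negSucc 2499999999)
(.lf (.negSucc 429999999) 0)
(.lf (.negSucc 649999999) 0))))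
(.sy (.negSucc 3406226582)
.ou
(.sx (.ofNat 8807400000)
(.sy (.negSucc 1703113291)
(.lf (.negSucc 309999999) 0)
(.lf (.negSucc 449999999) 0))
(.sy (.negSucc 2270817721)
.ou
(.lf (.negSucc 319999999) 0)))))
(.sx (.ofNat 5871600000)
(.sy (.ofNat 5000000000)
(.sx (.ofNat 2935800000)
(.sy (.ofNat 2500000000)
(.sx (.ofNat 1467900000)
(.lf (.negSucc 6399999999) 0)
(.lf (.negSucc 2309999999) 0))
(.sx (.ofNat 1467900000)
(.sx (.ofNat 733950000)
(.lf (.negSucc 17359999999) 0)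
(.lf (.negSucc 6369999999) 0))
(.lf (.negSucc 3679999999) 0)))
(.sy (.ofNat 2500000000)
(.lf (.negSucc 1309999999) 1)
(.sy (.ofNat 3750000000)
(.lf (.negSucc 2119999999) 1)
(.sx (.ofNat 4403700000)
(.lf (.negSucc 3059999999) 0)
(.sy (.ofNat 4541635443)
(.lf (.negSucc 2529999999) 0)
.ou)))))
(.sx (.ofNat 2935800000)
(.sx (.ofNat 1467900000)
(.sx (.ofNat 733950000)
(.sx (.ofNat 366975000)
(.lf (.ofNat 0) 0)
(.lf (.negSucc 17569999999) 0))
(.sy (.ofNat 7500000000)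
(.lf (.negSucc 8739999999) 0)
(.lf (.negSucc 11479999999) 0)))
(.sy (.ofNat 7500000000)
(.sy (.ofNat 6250000000)
(.lf (.negSucc 4989999999) 0)
(.lf (.negSucc 5989999999) 1))
(.sx (.ofNat 2201850000)
(.lf (.negSucc 8399999999) 0)
(.sy (.ofNat 9083270886)
(.lf (.negSucc 6809999999) 0)
.ou))))
(.sy (.ofNat 6812453165)
(.sx (.ofNat 4403700000)
(.sy (.ofNat 5906226582)
(.lf (.negSucc 3779999999) 0)
(.lf (.negSucc 4459999999) 0))
.ou)
.ou)))
(.sy (.ofNat 3406226583)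
(.sx (.ofNat 8807400000)
(.sy (.ofNat 1703113291)
(.lf (.negSucc 799999999) 0)
(.sx (.ofNat 7339500000)
(.lf (.negSucc 1489999999) 0)
(.sy (.ofNat 2724981266)
(.lf (.negSucc 1189999999) 0)
.ou)))
(.sy (.ofNat 2270817722)
(.sy (.ofNat 1135408861)
(.lf (.negSucc 569999999) 0)
(.lf (.negSucc 839999999) 1))
.ou))
.ou)))

theorem run_tr7_1B : Tr.run 1 1 (T7.C.mdA 2000) (T7.K1.shA (w2n 2000 1047197553 19406)) R7 (.ofNat 2000000000) tr7_1B (.ofNat 0) (.ofNat 11743200000) (.negSucc 9999999999) (.ofNat 10000000000)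
    (-100000000000) 100000000000 = true := by decide +kernel

/-- tree -/
def tr7_1BB : Tr :=
(.sy (.ofNat 0)
(.sy (.negSucc 4999999999)
(.sx (.negSucc 4731799999)
.ou
(.sy (.negSucc 7499999999)
(.sx (.negSucc 2365899999)
(.sy (.negSucc 8453442664)
.ou
(.lf (.negSucc 699999999) 0))
(.sx (.negSucc 1182949999)
(.lf (.negSucc 1799999999) 0)
(.lf (.negSucc 3929999999) 0)))
(.sx (.negSucc 2365899999)
(.lf (.negSucc 249999999) 0)
(.lf (.negSucc 499999999) 0))))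
(.sx (.negSucc 4731799999)
(.sy (.negSucc 4226721332)
.ou
(.sy (.negSucc 2113360666)
(.sx (.negSucc 7097699999)
(.sy (.negSucc 2817814221)
.ou
(.lf (.ofNat 160000000) 0))
(.lf (.ofNat 250000000) 0))
(.lf (.ofNat 360000000) 0)))
(.sx (.negSucc 2365899999)
(.sy (.negSucc 2499999999)
(.lf (.ofNat 350000000) 0)
(.lf (.ofNat 810000000) 0))
(.sy (.negSucc 2499999999)
(.lf (.ofNat 1140000000) 0)
(.lf (.ofNat 2510000000) 0)))))
(.sx (.negSucc 4731799999)
(.sy (.ofNat 4226721333)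
(.sy (.ofNat 2113360666)
(.sx (.negSucc 7097699999)
(.lf (.ofNat 420000000) 0)
(.lf (.ofNat 610000000) 0))
(.sx (.negSucc 7097699999)
(.sy (.ofNat 2817814222)
(.lf (.ofNat 480000000) 0)
.ou)
(.lf (.ofNat 650000000) 0)))
.ou)
(.sy (.ofNat 5000000000)
(.sx (.negSucc 2365899999)
(.sy (.ofNat 2500000000)
(.lf (.ofNat 1100000000) 0)
(.lf (.ofNat 1180000000) 0))
(.sx (.negSucc 1182949999)
(.sy (.ofNat 2500000000)
(.lf (.ofNat 2350000000) 0)
(.lf (.ofNat 2780000000) 0))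
(.sy (.ofNat 2500000000)
(.lf (.ofNat 7440000000) 0)
(.lf (.ofNat 9560000000) 0))))
(.sx (.negSucc 2365899999)
(.sy (.ofNat 8453442665)
(.sx (.negSucc 3548849999)
(.sy (.ofNat 5635628444)
(.lf (.ofNat 900000000) 0)
.ou)
(.lf (.ofNat 1370000000) 0))
.ou)
(.sx (.negSucc 1182949999)
(.sy (.ofNat 7500000000)
(.lf (.ofNat 2970000000) 0)
(.lf (.ofNat 2910000000) 0))
(.sx (.negSucc 591474999)
(.lf (.ofNat 7540000000) 0)
(.sx (.negSucc 295737499)
(.lf (.ofNat 16940000000) 0)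
(.lf (.ofNat 0) 0))))))))

theorem run_tr7_1BB : Tr.run 1 1 (T7.C.mdA 2000) (T7.K1.shA (w2n 2000 1047197553 19406)) R7 (.ofNat 2000000000) tr7_1BB (.negSucc 9463599999) (.ofNat 0) (.negSucc 9999999999) (.ofNat 10000000000)
    (-100000000000) 100000000000 = true := by decide +kernel

/-- tree -/
def tr7_1P : Tr :=
(.sy (.ofNat 1139800000)
(.sy (.negSucc 4161899999)
(.sx (.ofNat 4150000000)
(.sy (.negSucc 6812749999)
(.sx (.ofNat 3075000000)
(.lf (.ofNat 80000000) 0)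
(.lf (.ofNat 40000000) 0))
(.sx (.ofNat 3075000000)
(.lf (.ofNat 30000000) 0)
(.lf (.negSucc 29999999) 0)))
(.sy (.negSucc 6812749999)
(.sx (.ofNat 5225000000)
(.lf (.ofNat 50000000) 0)
(.lf (.ofNat 100000000) 0))
(.sx (.ofNat 5225000000)
(.lf (.negSucc 69999999) 0)
(.lf (.negSucc 49999999) 0))))
(.sx (.ofNat 4150000000)
(.sy (.negSucc 1511049999)
(.sx (.ofNat 3075000000)
(.sy (.negSucc 2836474999)
(.lf (.negSucc 59999999) 0)
(.sx (.ofNat 2537500000)
(.lf (.negSucc 109999999) 0)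
(.lf (.negSucc 179999999) 0)))
(.sy (.negSucc 2836474999)
(.lf (.negSucc 159999999) 0)
(.lf (.negSucc 279999999) 0)))
(.sx (.ofNat 3075000000)
(.sy (.negSucc 185624999)
(.sx (.ofNat 2537500000)
(.sy (.negSucc 848337499)
(.lf (.negSucc 179999999) 0)
(.lf (.negSucc 229999999) 0))
(.lf (.negSucc 289999999) 0))
(.sx (.ofNat 2537500000)
(.sy (.ofNat 477087500)
(.lf (.negSucc 279999999) 0)
(.lf (.negSucc 329999999) 0))
(.sy (.ofNat 477087500)
(.lf (.negSucc 379999999) 0)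
(.lf (.negSucc 439999999) 0))))
(.sy (.negSucc 185624999)
(.sx (.ofNat 3612500000)
(.lf (.negSucc 379999999) 0)
(.lf (.negSucc 469999999) 0))
(.sx (.ofNat 3612500000)
(.lf (.negSucc 529999999) 0)
(.lf (.negSucc 649999999) 0)))))
(.sy (.negSucc 1511049999)
(.sx (.ofNat 5225000000)
(.sy (.negSucc 2836474999)
(.lf (.negSucc 249999999) 0)
(.lf (.negSucc 409999999) 0))
(.lf (.negSucc 389999999) 0))
(.sx (.ofNat 5225000000)
(.sy (.negSucc 185624999)
(.sx (.ofNat 4687500000)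
(.lf (.negSucc 569999999) 0)
(.lf (.negSucc 649999999) 0))
(.sx (.ofNat 4687500000)
(.lf (.negSucc 769999999) 0)
(.lf (.negSucc 889999999) 0)))
(.sy (.negSucc 185624999)
(.lf (.negSucc 749999999) 0)
(.lf (.negSucc 1019999999) 1))))))
(.sy (.ofNat 6441500000)
(.sx (.ofNat 4150000000)
(.sy (.ofNat 3790650000)
(.sx (.ofNat 3075000000)
(.sy (.ofNat 2465225000)
(.sx (.ofNat 2537500000)
(.sy (.ofNat 1802512500)
(.lf (.negSucc 389999999) 0)
(.lf (.negSucc 449999999) 0))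
(.sy (.ofNat 1802512500)
(.lf (.negSucc 509999999) 0)
(.lf (.negSucc 579999999) 0)))
(.sx (.ofNat 2537500000)
(.lf (.negSucc 529999999) 0)
(.lf (.negSucc 689999999) 0)))
(.sy (.ofNat 2465225000)
(.sx (.ofNat 3612500000)
(.lf (.negSucc 689999999) 0)
(.lf (.negSucc 839999999) 0))
(.sx (.ofNat 3612500000)
(.lf (.negSucc 859999999) 0)
(.lf (.negSucc 1039999999) 0))))
(.sx (.ofNat 3075000000)
(.sy (.ofNat 5116075000)
(.sx (.ofNat 2537500000)
(.lf (.negSucc 649999999) 0)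
(.lf (.negSucc 829999999) 0))
(.lf (.negSucc 859999999) 0))
(.sy (.ofNat 5116075000)
(.sx (.ofNat 3612500000)
(.lf (.negSucc 1019999999) 0)
(.lf (.negSucc 1219999999) 0))
(.lf (.negSucc 1259999999) 0))))
(.sy (.ofNat 3790650000)
(.sx (.ofNat 5225000000)
(.sy (.ofNat 2465225000)
(.sx (.ofNat 4687500000)
(.lf (.negSucc 999999999) 0)
(.lf (.negSucc 1139999999) 0))
(.sx (.ofNat 4687500000)
(.lf (.negSucc 1219999999) 0)
(.lf (.negSucc 1369999999) 0)))
(.sy (.ofNat 2465225000)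
(.sx (.ofNat 5762500000)
(.lf (.negSucc 1249999999) 0)
(.lf (.negSucc 1319999999) 0))
(.sx (.ofNat 5762500000)
(.lf (.negSucc 1489999999) 0)
(.lf (.negSucc 1529999999) 0))))
(.sx (.ofNat 5225000000)
(.sy (.ofNat 5116075000)
(.sx (.ofNat 4687500000)
(.lf (.negSucc 1399999999) 0)
(.lf (.negSucc 1549999999) 0))
(.sx (.ofNat 4687500000)
(.lf (.negSucc 1519999999) 0)
(.lf (.negSucc 1629999999) 0)))
(.sy (.ofNat 5116075000)
(.sx (.ofNat 5762500000)
(.lf (.negSucc 1629999999) 0)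
(.lf (.negSucc 1629999999) 0))
(.sx (.ofNat 5762500000)
(.lf (.negSucc 1649999999) 0)
(.lf (.negSucc 1589999999) 0))))))
(.sx (.ofNat 4150000000)
(.sy (.ofNat 9092350000)
(.sx (.ofNat 3075000000)
(.lf (.negSucc 1009999999) 0)
(.lf (.negSucc 1359999999) 1))
(.sy (.ofNat 10417775000)
(.lf (.negSucc 1209999999) 1)
(.lf (.negSucc 1149999999) 0)))
(.sy (.ofNat 9092350000)
(.sx (.ofNat 5225000000)
(.sy (.ofNat 7766925000)
(.lf (.negSucc 1569999999) 0)
(.lf (.negSucc 1459999999) 0))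
(.sy (.ofNat 7766925000)
(.lf (.negSucc 1489999999) 0)
(.lf (.negSucc 1249999999) 0)))
(.sx (.ofNat 5225000000)
(.lf (.negSucc 1139999999) 0)
(.lf (.negSucc 779999999) 0))))))

theorem run_tr7_1P : Tr.run 1 2 (T7.C.mdA 2000) (T7.K1.shA (w2n 2000 1047197553 19406)) R7 (.ofNat 2000000000) tr7_1P (.ofNat 2000000000) (.ofNat 6300000000) (.negSucc 9463599999) (.ofNat 11743200000)
    (-100000000000) 100000000000 = true := by decide +kernel

/-- tree -/
def tr7_1N : Tr :=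
(.sy (.ofNat 1139800000)
(.sx (.negSucc 5499999999)
(.sy (.negSucc 4161899999)
(.sy (.negSucc 6812749999)
(.sx (.negSucc 7249999999)
(.lf (.negSucc 109999999) 0)
(.lf (.ofNat 120000000) 0))
(.sx (.negSucc 7249999999)
(.sy (.negSucc 5487324999)
(.lf (.negSucc 349999999) 0)
(.lf (.negSucc 469999999) 0))
(.sy (.negSucc 5487324999)
(.lf (.negSucc 89999999) 0)
(.lf (.negSucc 189999999) 0))))
(.sx (.negSucc 7249999999)
(.sy (.negSucc 1511049999)
(.sy (.negSucc 2836474999)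
(.lf (.negSucc 559999999) 0)
(.sx (.negSucc 8124999999)
(.lf (.negSucc 709999999) 0)
(.lf (.negSucc 549999999) 0)))
(.sx (.negSucc 8124999999)
(.sy (.negSucc 185624999)
(.lf (.negSucc 769999999) 0)
(.lf (.negSucc 809999999) 0))
(.sy (.negSucc 185624999)
(.lf (.negSucc 609999999) 0)
(.lf (.negSucc 649999999) 0))))
(.sy (.negSucc 1511049999)
(.sx (.negSucc 6374999999)
(.sy (.negSucc 2836474999)
(.lf (.negSucc 339999999) 0)
(.lf (.negSucc 399999999) 0))
(.sy (.negSucc 2836474999)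
(.lf (.negSucc 209999999) 0)
(.lf (.negSucc 269999999) 0)))
(.sx (.negSucc 6374999999)
(.sy (.negSucc 185624999)
(.lf (.negSucc 459999999) 0)
(.lf (.negSucc 499999999) 0))
(.sy (.negSucc 185624999)
(.lf (.negSucc 319999999) 0)
(.lf (.negSucc 359999999) 0))))))
(.sy (.negSucc 4161899999)
(.sy (.negSucc 6812749999)
(.sx (.negSucc 3749999999)
(.lf (.ofNat 270000000) 0)
(.sy (.negSucc 8138174999)
(.lf (.ofNat 370000000) 0)
(.lf (.ofNat 290000000) 0)))
(.sx (.negSucc 3749999999)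
(.sy (.negSucc 5487324999)
(.lf (.ofNat 110000000) 0)
(.lf (.ofNat 20000000) 0))
(.sy (.negSucc 5487324999)
(.lf (.ofNat 220000000) 0)
(.lf (.ofNat 150000000) 0))))
(.sx (.negSucc 3749999999)
(.sy (.negSucc 1511049999)
(.sx (.negSucc 4624999999)
(.sy (.negSucc 2836474999)
(.lf (.negSucc 89999999) 0)
(.lf (.negSucc 149999999) 0))
(.sy (.negSucc 2836474999)
(.lf (.ofNat 0) 0)
(.lf (.negSucc 49999999) 0)))
(.sx (.negSucc 4624999999)
(.sy (.negSucc 185624999)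
(.lf (.negSucc 199999999) 0)
(.lf (.negSucc 239999999) 0))
(.sy (.negSucc 185624999)
(.lf (.negSucc 99999999) 0)
(.sx (.negSucc 4187499999)
(.lf (.negSucc 159999999) 0)
(.lf (.negSucc 109999999) 0)))))
(.sy (.negSucc 1511049999)
(.sx (.negSucc 2874999999)
(.sy (.negSucc 2836474999)
(.lf (.ofNat 70000000) 0)
(.lf (.ofNat 30000000) 0))
(.sy (.negSucc 2836474999)
(.lf (.ofNat 120000000) 0)
(.sy (.negSucc 2173762499)
(.lf (.ofNat 90000000) 0)
(.lf (.ofNat 70000000) 0))))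
(.sx (.negSucc 2874999999)
(.sy (.negSucc 185624999)
(.sx (.negSucc 3312499999)
(.lf (.negSucc 29999999) 0)
(.lf (.ofNat 0) 0))
(.sx (.negSucc 3312499999)
(.lf (.negSucc 69999999) 0)
(.lf (.negSucc 39999999) 0)))
(.sy (.negSucc 185624999)
(.sx (.negSucc 2437499999)
(.lf (.ofNat 30000000) 0)
(.sy (.negSucc 848337499)
(.lf (.ofNat 60000000) 0)
(.lf (.ofNat 40000000) 0)))
(.sx (.negSucc 2437499999)
(.lf (.negSucc 9999999) 0)
(.lf (.ofNat 10000000) 0))))))))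
(.sx (.negSucc 5499999999)
(.sy (.ofNat 6441500000)
(.sx (.negSucc 7249999999)
(.sy (.ofNat 3790650000)
(.sx (.negSucc 8124999999)
(.sy (.ofNat 2465225000)
(.sx (.negSucc 8562499999)
(.lf (.negSucc 879999999) 0)
(.lf (.negSucc 799999999) 0))
(.sx (.negSucc 8562499999)
(.lf (.negSucc 899999999) 0)
(.lf (.negSucc 819999999) 0)))
(.sy (.ofNat 2465225000)
(.lf (.negSucc 679999999) 0)
(.lf (.negSucc 709999999) 0)))
(.sx (.negSucc 8124999999)
(.sy (.ofNat 5116075000)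
(.sx (.negSucc 8562499999)
(.sx (.negSucc 8781249999)
(.lf (.negSucc 929999999) 0)
(.lf (.negSucc 889999999) 0))
(.lf (.negSucc 839999999) 0))
(.sx (.negSucc 8562499999)
(.lf (.negSucc 919999999) 0)
(.lf (.negSucc 839999999) 0)))
(.sy (.ofNat 5116075000)
(.lf (.negSucc 719999999) 0)
(.lf (.negSucc 729999999) 0))))
(.sy (.ofNat 3790650000)
(.sx (.negSucc 6374999999)
(.sy (.ofNat 2465225000)
(.lf (.negSucc 529999999) 0)
(.lf (.negSucc 559999999) 0))
(.sy (.ofNat 2465225000)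
(.lf (.negSucc 389999999) 0)
(.lf (.negSucc 419999999) 0)))
(.sx (.negSucc 6374999999)
(.sy (.ofNat 5116075000)
(.lf (.negSucc 569999999) 0)
(.lf (.negSucc 589999999) 0))
(.sy (.ofNat 5116075000)
(.lf (.negSucc 439999999) 0)
(.lf (.negSucc 449999999) 0)))))
(.sy (.ofNat 9092350000)
(.sx (.negSucc 7249999999)
(.sx (.negSucc 8124999999)
(.sy (.ofNat 7766925000)
(.lf (.negSucc 879999999) 0)
(.lf (.negSucc 879999999) 0))
(.sy (.ofNat 7766925000)
(.lf (.negSucc 739999999) 0)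
(.lf (.negSucc 739999999) 0)))
(.sx (.negSucc 6374999999)
(.lf (.negSucc 599999999) 0)
(.lf (.negSucc 479999999) 0)))
(.sx (.negSucc 7249999999)
(.sy (.ofNat 10417775000)
(.lf (.negSucc 799999999) 0)
(.lf (.negSucc 799999999) 0))
(.lf (.negSucc 559999999) 0))))
(.sy (.ofNat 6441500000)
(.sx (.negSucc 3749999999)
(.sy (.ofNat 3790650000)
(.sx (.negSucc 4624999999)
(.sy (.ofNat 2465225000)
(.lf (.negSucc 269999999) 0)
(.lf (.negSucc 289999999) 0))
(.sy (.ofNat 2465225000)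
(.lf (.negSucc 159999999) 0)
(.lf (.negSucc 189999999) 0)))
(.sx (.negSucc 4624999999)
(.sy (.ofNat 5116075000)
(.lf (.negSucc 319999999) 0)
(.lf (.negSucc 339999999) 0))
(.sy (.ofNat 5116075000)
(.lf (.negSucc 219999999) 0)
(.lf (.negSucc 239999999) 0))))
(.sy (.ofNat 3790650000)
(.sx (.negSucc 2874999999)
(.sy (.ofNat 2465225000)
(.sx (.negSucc 3312499999)
(.lf (.negSucc 99999999) 0)
(.lf (.negSucc 69999999) 0))
(.lf (.negSucc 109999999) 0))
(.sy (.ofNat 2465225000)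
(.sx (.negSucc 2437499999)
(.lf (.negSucc 39999999) 0)
(.lf (.negSucc 19999999) 0))
(.lf (.negSucc 59999999) 0)))
(.sy (.ofNat 5116075000)
(.sx (.negSucc 2874999999)
(.lf (.negSucc 139999999) 0)
(.lf (.negSucc 89999999) 0))
(.lf (.negSucc 139999999) 0))))
(.sy (.ofNat 9092350000)
(.sx (.negSucc 3749999999)
(.sy (.ofNat 7766925000)
(.lf (.negSucc 309999999) 0)
(.lf (.negSucc 329999999) 0))
(.lf (.negSucc 189999999) 0))
(.sx (.negSucc 3749999999)
(.lf (.negSucc 369999999) 0)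
(.lf (.negSucc 279999999) 0))))))

theorem run_tr7_1N : Tr.run 1 2 (T7.C.mdA 2000) (T7.K1.shA (w2n 2000 1047197553 19406)) R7 (.ofNat 2000000000) tr7_1N (.negSucc 8999999999) (.negSucc 1999999999) (.negSucc 9463599999) (.ofNat 11743200000)
    (-100000000000) 100000000000 = true := by decide +kernel

/-- tree -/
def br7 : Tr :=
(.sy (.ofNat 1139800000)
(.sz (.negSucc 207199999)
(.sy (.negSucc 4161899999)
(.sx (.negSucc 1349999999)
(.lf (.ofNat 0) 0)
(.lf (.ofNat 0) 0))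
(.lf (.ofNat 0) 0))
(.sy (.negSucc 4161899999)
(.sx (.negSucc 1349999999)
(.lf (.ofNat 0) 0)
(.lf (.ofNat 0) 0))
(.sx (.negSucc 1349999999)
(.lf (.ofNat 0) 0)
(.lf (.ofNat 0) 0))))
(.sz (.negSucc 207199999)
(.lf (.ofNat 0) 0)
(.lf (.ofNat 0) 0)))

theorem run_br7 : Tr.runB T7.C T7.K0 (D7.bt * 2000 / 10000 + 1) R7.om br7 (-D7.m) D7.M D7.ylo D7.yhi
    (-R7.bl) R7.bh = true := by decide +kernel

end Pool.Agent.Helper30.DL
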