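import Pool.Agent.Helper30.DL.Run.C8

/-! MP_b4564f_an, all delays. Cell 8: kernel computations (generated). -/

set_option autoImplicit false
set_option maxRecDepth 100000

namespace Pool.Agent.Helper30.DL

/-- tree -/
def tr8_0A : Tr :=
(.sy (.ofNat 0)
(.sy (.negSucc 4999999999)
(.sx (.ofNat 2500000000)
(.sy (.negSucc 7499999999)
(.lf (.negSucc 659999999) 0)
(.lf (.negSucc 679999999) 0))
(.sy (.negSucc 7499999999)
(.lf (.negSucc 9999999) 0)
(.lf (.negSucc 39999999) 0)))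
(.sx (.ofNat 2500000000)
(.sy (.negSucc 2499999999)
(.lf (.negSucc 709999999) 0)
(.lf (.negSucc 749999999) 0))
(.sy (.negSucc 2499999999)
(.lf (.negSucc 119999999) 0)
(.lf (.negSucc 229999999) 0))))
(.sy (.ofNat 5000000000)
(.sx (.ofNat 2500000000)
(.sy (.ofNat 2500000000)
(.lf (.negSucc 809999999) 0)
(.lf (.negSucc 869999999) 0))
(.sy (.ofNat 2500000000)
(.lf (.negSucc 369999999) 0)
(.lf (.negSucc 509999999) 1)))
(.sx (.ofNat 2500000000)
(.sy (.ofNat 7500000000)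
(.lf (.negSucc 939999999) 0)
(.sy (.ofNat 8750000000)
(.lf (.negSucc 999999999) 0)
(.lf (.negSucc 1029999999) 0)))
(.sy (.ofNat 7500000000)
(.sx (.ofNat 3750000000)
(.lf (.negSucc 769999999) 0)
(.lf (.negSucc 449999999) 0))
(.sx (.ofNat 3750000000)
(.lf (.negSucc 879999999) 0)
(.lf (.negSucc 449999999) 0))))))

theorem run_tr8_0A : Tr.run 0 0 T8.C T8.K0 R8 (.ofNat 5000000000) tr8_0A (.ofNat 0) (.ofNat 5000000000) (.negSucc 9999999999) (.ofNat 10000000000)
    (-100000000000) 100000000000 = true := by decide +kernel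

/-- tree -/
def tr8_0AA : Tr :=
(.sy (.ofNat 0)
(.sy (.negSucc 4999999999)
(.sx (.negSucc 2499999999)
(.sy (.negSucc 7499999999)
(.lf (.negSucc 1369999999) 0)
(.lf (.negSucc 1349999999) 0))
(.sy (.negSucc 7499999999)
(.lf (.negSucc 1149999999) 0)
(.lf (.negSucc 1139999999) 0)))
(.sx (.negSucc 2499999999)
(.sy (.negSucc 2499999999)
(.lf (.negSucc 1299999999) 0)
(.lf (.negSucc 1219999999) 0))
(.sy (.negSucc 2499999999)
(.lf (.negSucc 1109999999) 0)
(.lf (.negSucc 1079999999) 0))))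
(.sy (.ofNat 5000000000)
(.sy (.ofNat 2500000000)
(.sx (.negSucc 2499999999)
(.lf (.negSucc 1109999999) 0)
(.lf (.negSucc 1029999999) 0))
(.sx (.negSucc 2499999999)
(.lf (.negSucc 949999999) 0)
(.lf (.negSucc 969999999) 0)))
(.sy (.ofNat 7500000000)
(.sx (.negSucc 2499999999)
(.sy (.ofNat 6250000000)
(.lf (.negSucc 809999999) 0)
(.lf (.negSucc 689999999) 0))
(.lf (.negSucc 899999999) 0))
(.sx (.negSucc 2499999999)
(.sy (.ofNat 8750000000)
(.lf (.negSucc 569999999) 0)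
(.lf (.negSucc 429999999) 0))
(.sx (.negSucc 1249999999)
(.lf (.negSucc 739999999) 0)
(.lf (.negSucc 879999999) 0))))))

theorem run_tr8_0AA : Tr.run 0 0 T8.C T8.K0 R8 (.ofNat 5000000000) tr8_0AA (.negSucc 4999999999) (.ofNat 0) (.negSucc 9999999999) (.ofNat 10000000000)
    (-100000000000) 100000000000 = true := by decide +kernel

/-- tree -/
def tr8_0B : Tr :=
(.sy (.ofNat 0)
(.sy (.negSucc 4999999999)
(.sx (.ofNat 5788700000)
(.sy (.negSucc 7499999999)
(.sx (.ofNat 2894350000)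
(.sy (.negSucc 8749999999)
(.lf (.negSucc 1029999999) 0)
(.lf (.negSucc 749999999) 0))
(.sy (.negSucc 8749999999)
(.sy (.negSucc 9374999999)
(.lf (.negSucc 1299999999) 0)
(.lf (.negSucc 1129999999) 0))
(.lf (.negSucc 889999999) 0)))
(.sx (.ofNat 2894350000)
(.sy (.negSucc 6249999999)
(.lf (.negSucc 519999999) 0)
(.lf (.negSucc 329999999) 0))
(.sy (.negSucc 6249999999)
(.lf (.negSucc 619999999) 0)
(.lf (.negSucc 389999999) 0))))
(.sy (.negSucc 8637517922)
.ou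
(.sy (.negSucc 6818758961)
(.sx (.ofNat 8683050000)
(.sy (.negSucc 7728138442)
(.lf (.negSucc 909999999) 0)
(.lf (.negSucc 719999999) 0))
.ou)
(.sx (.ofNat 8683050000)
(.sy (.negSucc 5909379480)
(.lf (.negSucc 539999999) 0)
(.lf (.negSucc 389999999) 0))
(.sy (.negSucc 5758345281)
.ou
(.lf (.negSucc 379999999) 0))))))
(.sx (.ofNat 5788700000)
(.sy (.negSucc 2499999999)
(.sx (.ofNat 2894350000)
(.sy (.negSucc 3749999999)
(.lf (.negSucc 189999999) 0)
(.lf (.negSucc 79999999) 0))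
(.sy (.negSucc 3749999999)
(.lf (.negSucc 209999999) 0)
(.lf (.negSucc 79999999) 0)))
(.lf (.ofNat 10000000) 0))
(.sy (.negSucc 2499999999)
(.sx (.ofNat 8683050000)
(.sy (.negSucc 3749999999)
(.lf (.negSucc 229999999) 0)
(.lf (.negSucc 99999999) 0))
(.sy (.negSucc 3749999999)
(.lf (.negSucc 249999999) 0)
(.lf (.negSucc 119999999) 0)))
(.sx (.ofNat 8683050000)
(.lf (.ofNat 0) 0)
(.sy (.negSucc 1249999999)
(.lf (.negSucc 39999999) 0)
(.lf (.negSucc 9999999) 0))))))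
(.sx (.ofNat 5788700000)
(.sy (.ofNat 5000000000)
(.sy (.ofNat 2500000000)
(.sx (.ofNat 2894350000)
(.lf (.negSucc 19999999) 0)
(.lf (.negSucc 29999999) 0))
(.sx (.ofNat 2894350000)
(.sy (.ofNat 3750000000)
(.lf (.negSucc 129999999) 0)
(.lf (.negSucc 239999999) 0))
(.sy (.ofNat 3750000000)
(.lf (.negSucc 169999999) 0)
(.lf (.negSucc 289999999) 0))))
(.sy (.ofNat 7500000000)
(.sx (.ofNat 2894350000)
(.sy (.ofNat 6250000000)
(.lf (.negSucc 379999999) 0)
(.sx (.ofNat 1447175000)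
(.lf (.negSucc 499999999) 0)
(.lf (.negSucc 579999999) 0)))
(.sy (.ofNat 6250000000)
(.sx (.ofNat 4341525000)
(.lf (.negSucc 429999999) 0)
(.lf (.negSucc 359999999) 0))
(.sx (.ofNat 4341525000)
(.lf (.negSucc 569999999) 0)
(.lf (.negSucc 379999999) 0))))
(.sx (.ofNat 2894350000)
(.sy (.ofNat 8750000000)
(.sx (.ofNat 1447175000)
(.lf (.negSucc 689999999) 0)
(.lf (.negSucc 769999999) 0))
(.sy (.ofNat 9375000000)
(.lf (.negSucc 899999999) 0)
(.lf (.negSucc 1009999999) 0)))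
(.sx (.ofNat 4341525000)
(.sy (.ofNat 8750000000)
(.lf (.negSucc 689999999) 0)
(.lf (.negSucc 769999999) 0))
(.sy (.ofNat 8750000000)
(.lf (.negSucc 309999999) 0)
(.lf (.negSucc 99999999) 1))))))
(.sy (.ofNat 8637517923)
(.sy (.ofNat 4318758961)
(.sx (.ofNat 8683050000)
(.sy (.ofNat 2159379480)
(.lf (.negSucc 29999999) 0)
(.sx (.ofNat 7235875000)
(.sy (.ofNat 3239069220)
(.lf (.negSucc 119999999) 0)
(.lf (.negSucc 169999999) 0))
(.sy (.ofNat 3239069220)
(.lf (.negSucc 69999999) 0)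
(.lf (.negSucc 49999999) 0))))
(.sy (.ofNat 2159379480)
(.lf (.negSucc 19999999) 1)
(.sy (.ofNat 3239069220)
(.lf (.ofNat 40000000) 0)
(.lf (.ofNat 220000000) 1))))
(.sy (.ofNat 6478138442)
(.sx (.ofNat 8683050000)
(.sx (.ofNat 7235875000)
(.sy (.ofNat 5398448701)
(.lf (.negSucc 179999999) 0)
(.lf (.negSucc 109999999) 0))
(.sy (.ofNat 5398448701)
(.lf (.ofNat 60000000) 0)
(.lf (.ofNat 320000000) 0)))
(.sy (.ofNat 5758345282)
(.sx (.ofNat 10130225000)
(.lf (.ofNat 450000000) 1)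
(.sy (.ofNat 4935724528)
(.lf (.ofNat 630000000) 0)
.ou))
.ou))
(.sx (.ofNat 8683050000)
(.sx (.ofNat 7235875000)
(.sy (.ofNat 7557828182)
(.lf (.ofNat 80000000) 0)
(.lf (.ofNat 420000000) 0))
(.sy (.ofNat 6910014339)
(.lf (.ofNat 600000000) 0)
.ou))
.ou)))
.ou)))

theorem run_tr8_0B : Tr.run 0 1 T8.C T8.K0 R8 (.ofNat 5000000000) tr8_0B (.ofNat 0) (.ofNat 11577400000) (.negSucc 9999999999) (.ofNat 10000000000)
    (-100000000000) 100000000000 = true := by decide +kernel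

/-- tree -/
def tr8_0BB : Tr :=
(.sy (.ofNat 0)
(.sy (.negSucc 4999999999)
(.sx (.negSucc 4638899999)
(.sy (.negSucc 7499999999)
(.sx (.negSucc 6958349999)
.ou
(.sy (.negSucc 8749999999)
(.sx (.negSucc 5798624999)
.ou
(.lf (.ofNat 160000000) 0))
(.lf (.ofNat 30000000) 0)))
(.sy (.negSucc 6249999999)
(.sx (.negSucc 6958349999)
(.sy (.negSucc 7185611531)
.ou
(.lf (.negSucc 109999999) 0))
(.lf (.negSucc 99999999) 0))
(.sx (.negSucc 6958349999)
(.lf (.negSucc 209999999) 0)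
(.lf (.negSucc 179999999) 0))))
(.sy (.negSucc 7499999999)
(.sx (.negSucc 2319449999)
(.sy (.negSucc 8749999999)
(.lf (.negSucc 129999999) 0)
(.lf (.negSucc 189999999) 0))
(.sy (.negSucc 8749999999)
(.lf (.negSucc 619999999) 0)
(.lf (.negSucc 489999999) 0)))
(.sx (.negSucc 2319449999)
(.sy (.negSucc 6249999999)
(.lf (.negSucc 219999999) 0)
(.lf (.negSucc 209999999) 0))
(.sy (.negSucc 6249999999)
(.lf (.negSucc 369999999) 0)
(.lf (.negSucc 269999999) 0)))))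
(.sx (.negSucc 4638899999)
(.sy (.negSucc 2499999999)
(.sx (.negSucc 6958349999)
(.sy (.negSucc 3749999999)
(.lf (.negSucc 269999999) 0)
(.lf (.negSucc 279999999) 0))
(.sy (.negSucc 3749999999)
(.lf (.negSucc 209999999) 0)
(.lf (.negSucc 199999999) 0)))
(.sx (.negSucc 6958349999)
(.sy (.negSucc 1249999999)
(.lf (.negSucc 229999999) 0)
(.lf (.negSucc 139999999) 0))
(.lf (.negSucc 119999999) 0)))
(.sy (.negSucc 2499999999)
(.sx (.negSucc 2319449999)
(.sy (.negSucc 3749999999)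
(.lf (.negSucc 179999999) 0)
(.lf (.negSucc 139999999) 0))
(.sy (.negSucc 3749999999)
(.lf (.negSucc 179999999) 0)
(.lf (.negSucc 99999999) 0)))
(.lf (.negSucc 49999999) 0))))
(.sy (.ofNat 5000000000)
(.sx (.negSucc 4638899999)
(.sy (.ofNat 2500000000)
(.sx (.negSucc 6958349999)
(.sy (.ofNat 1250000000)
(.lf (.negSucc 19999999) 0)
(.lf (.ofNat 120000000) 0))
(.lf (.ofNat 30000000) 0))
(.sx (.negSucc 6958349999)
(.sy (.ofNat 3750000000)
(.lf (.ofNat 260000000) 0)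
(.lf (.ofNat 390000000) 0))
(.sy (.ofNat 3750000000)
(.lf (.ofNat 130000000) 0)
(.lf (.ofNat 180000000) 0))))
(.sy (.ofNat 2500000000)
(.lf (.ofNat 0) 0)
(.sx (.negSucc 2319449999)
(.sy (.ofNat 3750000000)
(.lf (.ofNat 30000000) 0)
(.lf (.ofNat 20000000) 0))
(.sy (.ofNat 3750000000)
(.lf (.negSucc 59999999) 0)
(.lf (.negSucc 119999999) 0)))))
(.sx (.negSucc 4638899999)
(.sy (.ofNat 7500000000)
(.sx (.negSucc 6958349999)
(.sy (.ofNat 7185611532)
(.sy (.ofNat 6092805766)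
(.lf (.ofNat 500000000) 0)
(.lf (.ofNat 590000000) 0))
.ou)
(.sy (.ofNat 6250000000)
(.lf (.ofNat 200000000) 0)
(.lf (.ofNat 200000000) 0)))
(.sx (.negSucc 6958349999)
.ou
(.sy (.ofNat 8750000000)
(.lf (.ofNat 170000000) 0)
(.lf (.ofNat 110000000) 0))))
(.sy (.ofNat 7500000000)
(.sx (.negSucc 2319449999)
(.sy (.ofNat 6250000000)
(.lf (.negSucc 19999999) 0)
(.lf (.negSucc 89999999) 0))
(.sy (.ofNat 6250000000)
(.lf (.negSucc 209999999) 0)
(.lf (.negSucc 339999999) 0)))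
(.sx (.negSucc 2319449999)
(.sy (.ofNat 8750000000)
(.lf (.negSucc 189999999) 0)
(.lf (.negSucc 319999999) 0))
(.sy (.ofNat 8750000000)
(.lf (.negSucc 489999999) 0)
(.lf (.negSucc 679999999) 0)))))))

theorem run_tr8_0BB : Tr.run 0 1 T8.C T8.K0 R8 (.ofNat 5000000000) tr8_0BB (.negSucc 9277799999) (.ofNat 0) (.negSucc 9999999999) (.ofNat 10000000000)
    (-100000000000) 100000000000 = true := by decide +kernel

/-- tree -/
def tr8_0P : Tr :=
(.sy (.ofNat 1149800000)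
(.sy (.negSucc 4063999999)
(.sy (.negSucc 6670899999)
(.sy (.negSucc 7974349999)
(.sy (.negSucc 8626074999)
(.lf (.negSucc 149999999) 0)
(.lf (.negSucc 79999999) 0))
(.sx (.ofNat 5600000000)
(.lf (.negSucc 19999999) 0)
(.lf (.ofNat 30000000) 0)))
(.sy (.negSucc 5367449999)
(.sx (.ofNat 5600000000)
(.lf (.ofNat 50000000) 0)
(.lf (.ofNat 110000000) 0))
(.sx (.ofNat 5600000000)
(.sy (.negSucc 4715724999)
(.lf (.ofNat 80000000) 0)
(.lf (.ofNat 90000000) 0))
(.sy (.negSucc 4715724999)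
(.lf (.ofNat 140000000) 0)
(.lf (.ofNat 150000000) 0)))))
(.sy (.negSucc 1457099999)
(.sy (.negSucc 2760549999)
(.sx (.ofNat 5600000000)
(.sy (.negSucc 3412274999)
(.lf (.ofNat 90000000) 0)
(.lf (.ofNat 90000000) 0))
(.sy (.negSucc 3412274999)
(.lf (.ofNat 150000000) 0)
(.lf (.ofNat 140000000) 0)))
(.sx (.ofNat 5600000000)
(.sy (.negSucc 2108824999)
(.lf (.ofNat 80000000) 0)
(.lf (.ofNat 60000000) 0))
(.sy (.negSucc 2108824999)
(.lf (.ofNat 130000000) 0)
(.lf (.ofNat 120000000) 0))))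
(.sy (.negSucc 153649999)
(.sx (.ofNat 5600000000)
(.sy (.negSucc 805374999)
(.lf (.ofNat 50000000) 0)
(.lf (.ofNat 30000000) 0))
(.sy (.negSucc 805374999)
(.lf (.ofNat 100000000) 0)
(.lf (.ofNat 80000000) 0)))
(.sx (.ofNat 5600000000)
(.sy (.ofNat 498075000)
(.lf (.ofNat 10000000) 0)
(.lf (.ofNat 0) 0))
(.sy (.ofNat 498075000)
(.lf (.ofNat 60000000) 0)
(.lf (.ofNat 50000000) 0))))))
(.sy (.ofNat 6363600000)
(.sy (.ofNat 3756700000)
(.sy (.ofNat 2453250000)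
(.sx (.ofNat 5600000000)
(.sy (.ofNat 1801525000)
(.lf (.negSucc 19999999) 0)
(.lf (.negSucc 19999999) 0))
(.sx (.ofNat 5900000000)
(.lf (.ofNat 20000000) 0)
(.lf (.ofNat 60000000) 0)))
(.sx (.ofNat 5600000000)
(.sy (.ofNat 3104975000)
(.lf (.negSucc 19999999) 0)
(.lf (.negSucc 19999999) 0))
(.lf (.ofNat 60000000) 0)))
(.sy (.ofNat 5060150000)
(.sx (.ofNat 5600000000)
(.lf (.ofNat 20000000) 0)
(.lf (.ofNat 130000000) 0))
(.sx (.ofNat 5600000000)
(.lf (.ofNat 110000000) 0)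
(.lf (.ofNat 260000000) 0))))
(.sy (.ofNat 8970500000)
(.sy (.ofNat 7667050000)
(.sx (.ofNat 5600000000)
(.lf (.ofNat 240000000) 0)
(.lf (.ofNat 440000000) 0))
(.lf (.ofNat 530000000) 0))
(.sy (.ofNat 10273950000)
(.lf (.ofNat 770000000) 0)
(.lf (.ofNat 1030000000) 0)))))

theorem run_tr8_0P : Tr.run 0 2 T8.C T8.K0 R8 (.ofNat 5000000000) tr8_0P (.ofNat 5000000000) (.ofNat 6200000000) (.negSucc 9277799999) (.ofNat 11577400000)
    (-100000000000) 100000000000 = true := by decide +kernel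

/-- tree -/
def tr8_0N : Tr :=
(.sy (.ofNat 1149800000)
(.sy (.negSucc 4063999999)
(.sy (.negSucc 6670899999)
(.sx (.negSucc 6949999999)
(.sy (.negSucc 7974349999)
(.sx (.negSucc 7924999999)
(.lf (.ofNat 840000000) 0)
(.lf (.ofNat 700000000) 0))
(.sx (.negSucc 7924999999)
(.lf (.ofNat 280000000) 0)
(.lf (.ofNat 270000000) 0)))
(.sy (.negSucc 7974349999)
(.sx (.negSucc 5974999999)
(.lf (.ofNat 600000000) 0)
(.lf (.ofNat 510000000) 0))
(.sx (.negSucc 5974999999)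
(.lf (.ofNat 260000000) 0)
(.lf (.ofNat 250000000) 0))))
(.sx (.negSucc 6949999999)
(.sy (.negSucc 5367449999)
(.sx (.negSucc 7924999999)
(.lf (.negSucc 69999999) 0)
(.lf (.negSucc 19999999) 0))
(.sx (.negSucc 7924999999)
(.lf (.negSucc 329999999) 0)
(.lf (.negSucc 229999999) 0)))
(.sy (.negSucc 5367449999)
(.sx (.negSucc 5974999999)
(.lf (.ofNat 30000000) 0)
(.lf (.ofNat 60000000) 0))
(.sx (.negSucc 5974999999)
(.sy (.negSucc 4715724999)
(.lf (.negSucc 109999999) 0)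
(.lf (.negSucc 189999999) 0))
(.sy (.negSucc 4715724999)
(.lf (.negSucc 49999999) 0)
(.lf (.negSucc 109999999) 0))))))
(.sx (.negSucc 6949999999)
(.sy (.negSucc 1457099999)
(.sx (.negSucc 7924999999)
(.sy (.negSucc 2760549999)
(.sy (.negSucc 3412274999)
(.lf (.negSucc 469999999) 0)
(.lf (.negSucc 549999999) 0))
(.sx (.negSucc 8412499999)
(.lf (.negSucc 679999999) 0)
(.lf (.negSucc 609999999) 0)))
(.sy (.negSucc 2760549999)
(.sy (.negSucc 3412274999)
(.lf (.negSucc 359999999) 0)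
(.lf (.negSucc 419999999) 0))
(.sx (.negSucc 7437499999)
(.lf (.negSucc 539999999) 0)
(.lf (.negSucc 479999999) 0))))
(.sx (.negSucc 7924999999)
(.sy (.negSucc 153649999)
(.sx (.negSucc 8412499999)
(.lf (.negSucc 789999999) 0)
(.lf (.negSucc 709999999) 0))
(.sx (.negSucc 8412499999)
(.lf (.negSucc 859999999) 0)
(.lf (.negSucc 779999999) 0)))
(.sy (.negSucc 153649999)
(.sx (.negSucc 7437499999)
(.lf (.negSucc 629999999) 0)
(.lf (.negSucc 559999999) 0))
(.sx (.negSucc 7437499999)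
(.lf (.negSucc 699999999) 0)
(.lf (.negSucc 619999999) 0)))))
(.sy (.negSucc 1457099999)
(.sx (.negSucc 5974999999)
(.sy (.negSucc 2760549999)
(.sx (.negSucc 6462499999)
(.lf (.negSucc 309999999) 0)
(.lf (.negSucc 259999999) 0))
(.sx (.negSucc 6462499999)
(.lf (.negSucc 409999999) 0)
(.lf (.negSucc 349999999) 0)))
(.sy (.negSucc 2760549999)
(.sx (.negSucc 5487499999)
(.lf (.negSucc 209999999) 0)
(.lf (.negSucc 169999999) 0))
(.sx (.negSucc 5487499999)
(.lf (.negSucc 299999999) 0)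
(.sy (.negSucc 2108824999)
(.lf (.negSucc 229999999) 0)
(.lf (.negSucc 259999999) 0)))))
(.sx (.negSucc 5974999999)
(.sy (.negSucc 153649999)
(.sx (.negSucc 6462499999)
(.lf (.negSucc 489999999) 0)
(.lf (.negSucc 419999999) 0))
(.sx (.negSucc 6462499999)
(.lf (.negSucc 549999999) 0)
(.lf (.negSucc 469999999) 0)))
(.sy (.negSucc 153649999)
(.sx (.negSucc 5487499999)
(.lf (.negSucc 359999999) 0)
(.lf (.negSucc 299999999) 0))
(.sx (.negSucc 5487499999)
(.lf (.negSucc 399999999) 0)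
(.lf (.negSucc 339999999) 0)))))))
(.sy (.ofNat 6363600000)
(.sx (.negSucc 6949999999)
(.sy (.ofNat 3756700000)
(.sx (.negSucc 7924999999)
(.sy (.ofNat 2453250000)
(.sx (.negSucc 8412499999)
(.lf (.negSucc 919999999) 0)
(.lf (.negSucc 829999999) 0))
(.lf (.negSucc 909999999) 0))
(.sy (.ofNat 2453250000)
(.sx (.negSucc 7437499999)
(.lf (.negSucc 749999999) 0)
(.lf (.negSucc 659999999) 0))
(.lf (.negSucc 729999999) 0)))
(.sx (.negSucc 7924999999)
(.sx (.negSucc 8412499999)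
(.lf (.negSucc 969999999) 0)
(.lf (.negSucc 879999999) 0))
(.sx (.negSucc 7437499999)
(.lf (.negSucc 789999999) 0)
(.lf (.negSucc 699999999) 0))))
(.sy (.ofNat 3756700000)
(.sx (.negSucc 5974999999)
(.sy (.ofNat 2453250000)
(.sx (.negSucc 6462499999)
(.lf (.negSucc 579999999) 0)
(.lf (.negSucc 509999999) 0))
(.sx (.negSucc 6462499999)
(.lf (.negSucc 609999999) 0)
(.lf (.negSucc 529999999) 0)))
(.sy (.ofNat 2453250000)
(.sx (.negSucc 5487499999)
(.lf (.negSucc 429999999) 0)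
(.lf (.negSucc 359999999) 0))
(.sx (.negSucc 5487499999)
(.lf (.negSucc 449999999) 0)
(.lf (.negSucc 379999999) 0))))
(.sx (.negSucc 5974999999)
(.sx (.negSucc 6462499999)
(.lf (.negSucc 619999999) 0)
(.lf (.negSucc 539999999) 0))
(.sx (.negSucc 5487499999)
(.lf (.negSucc 459999999) 0)
(.lf (.negSucc 379999999) 0)))))
(.sx (.negSucc 6949999999)
(.sy (.ofNat 8970500000)
(.sx (.negSucc 7924999999)
(.sy (.ofNat 7667050000)
(.lf (.negSucc 919999999) 0)
(.lf (.negSucc 899999999) 0))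
(.sy (.ofNat 7667050000)
(.lf (.negSucc 739999999) 0)
(.lf (.negSucc 719999999) 0)))
(.sx (.negSucc 7924999999)
(.lf (.negSucc 859999999) 0)
(.lf (.negSucc 699999999) 0)))
(.sy (.ofNat 8970500000)
(.sx (.negSucc 5974999999)
(.sy (.ofNat 7667050000)
(.lf (.negSucc 569999999) 0)
(.lf (.negSucc 559999999) 0))
(.sy (.ofNat 7667050000)
(.lf (.negSucc 409999999) 0)
(.lf (.negSucc 399999999) 0)))
(.sx (.negSucc 5974999999)
(.lf (.negSucc 539999999) 0)
(.lf (.negSucc 389999999) 0))))))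

theorem run_tr8_0N : Tr.run 0 2 T8.C T8.K0 R8 (.ofNat 5000000000) tr8_0N (.negSucc 8899999999) (.negSucc 4999999999) (.negSucc 9277799999) (.ofNat 11577400000)
    (-100000000000) 100000000000 = true := by decide +kernel

end Pool.Agent.Helper30.DL
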