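import Pool.Agent.Helper30.DL.Run.C8

/-! MP_b4564f_an, all delays. Cell 8: kernel computations (generated). -/

set_option autoImplicit false
set_option maxRecDepth 100000

namespace Pool.Agent.Helper30.DL

/-- tree -/
def tr8_1A : Tr :=
(.sy (.ofNat 0)
(.sy (.negSucc 4999999999)
(.sy (.negSucc 7499999999)
(.sx (.ofNat 1000000000)
(.lf (.negSucc 7389999999) 0)
(.lf (.negSucc 3419999999) 0))
(.sx (.ofNat 1000000000)
(.lf (.negSucc 9559999999) 0)
(.lf (.negSucc 4369999999) 0)))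
(.sy (.negSucc 2499999999)
(.sx (.ofNat 1000000000)
(.lf (.negSucc 11749999999) 0)
(.lf (.negSucc 5349999999) 0))
(.sx (.ofNat 1000000000)
(.sx (.ofNat 500000000)
(.lf (.negSucc 25299999999) 0)
(.lf (.negSucc 10159999999) 0))
(.lf (.negSucc 6359999999) 0))))
(.sy (.ofNat 5000000000)
(.sx (.ofNat 1000000000)
(.sx (.ofNat 500000000)
(.lf (.ofNat 0) 0)
(.lf (.negSucc 12569999999) 0))
(.sy (.ofNat 2500000000)
(.lf (.negSucc 7399999999) 0)
(.lf (.negSucc 8469999999) 0)))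
(.sx (.ofNat 1000000000)
(.sx (.ofNat 500000000)
(.lf (.ofNat 0) 0)
(.lf (.negSucc 15839999999) 0))
(.sy (.ofNat 7500000000)
(.lf (.negSucc 9559999999) 0)
(.lf (.negSucc 10679999999) 0)))))

theorem run_tr8_1A : Tr.run 1 0 (T8.C.mdA 2000) (T8.K1.shA (w2n 2000 923997841 19193)) R8 (.ofNat 2000000000) tr8_1A (.ofNat 0) (.ofNat 2000000000) (.negSucc 9999999999) (.ofNat 10000000000)
    (-100000000000) 100000000000 = true := by decide +kernel

/-- tree -/
def tr8_1AA : Tr :=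
(.sy (.ofNat 0)
(.sy (.negSucc 4999999999)
(.sy (.negSucc 7499999999)
(.lf (.ofNat 780000000) 0)
(.sx (.negSucc 999999999)
(.lf (.ofNat 300000000) 0)
(.lf (.ofNat 5350000000) 0)))
(.sx (.negSucc 999999999)
(.lf (.ofNat 1020000000) 0)
(.sx (.negSucc 499999999)
(.lf (.ofNat 4460000000) 0)
(.lf (.ofNat 18310000000) 0))))
(.sy (.ofNat 5000000000)
(.sx (.negSucc 999999999)
(.lf (.ofNat 1990000000) 0)
(.sx (.negSucc 499999999)
(.lf (.ofNat 6630000000) 0)
(.sx (.negSucc 249999999)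
(.lf (.ofNat 16070000000) 0)
(.lf (.ofNat 0) 0))))
(.sx (.negSucc 999999999)
(.lf (.ofNat 2990000000) 0)
(.sx (.negSucc 499999999)
(.lf (.ofNat 8800000000) 0)
(.lf (.ofNat 0) 0)))))

theorem run_tr8_1AA : Tr.run 1 0 (T8.C.mdA 2000) (T8.K1.shA (w2n 2000 923997841 19193)) R8 (.ofNat 2000000000) tr8_1AA (.negSucc 1999999999) (.ofNat 0) (.negSucc 9999999999) (.ofNat 10000000000)
    (-100000000000) 100000000000 = true := by decide +kernel

/-- tree -/
def tr8_1B : Tr :=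
(.sy (.ofNat 0)
(.sx (.ofNat 5788700000)
(.sy (.negSucc 4999999999)
(.sx (.ofNat 2894350000)
(.sy (.negSucc 7499999999)
(.sx (.ofNat 1447175000)
(.lf (.ofNat 780000000) 0)
(.lf (.negSucc 739999999) 0))
(.lf (.negSucc 569999999) 0))
(.sy (.negSucc 6910014338)
.ou
(.sx (.ofNat 4341525000)
(.lf (.negSucc 609999999) 0)
.ou)))
(.sx (.ofNat 2894350000)
(.sy (.negSucc 2499999999)
(.lf (.negSucc 1159999999) 0)
(.lf (.negSucc 2109999999) 0))
(.sy (.negSucc 2499999999)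
(.lf (.negSucc 479999999) 0)
(.lf (.negSucc 689999999) 0))))
(.sy (.negSucc 3455007169)
.ou
(.sx (.ofNat 8683050000)
(.sy (.negSucc 1727503584)
(.lf (.negSucc 339999999) 0)
(.lf (.negSucc 469999999) 0))
(.sy (.negSucc 2303338112)
.ou
(.lf (.negSucc 339999999) 1)))))
(.sy (.ofNat 5000000000)
(.sx (.ofNat 5788700000)
(.sx (.ofNat 2894350000)
(.sy (.ofNat 2500000000)
(.sx (.ofNat 1447175000)
(.lf (.negSucc 6629999999) 0)
(.lf (.negSucc 2399999999) 0))
(.sx (.ofNat 1447175000)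
(.sx (.ofNat 723587500)
(.lf (.negSucc 17869999999) 0)
(.lf (.negSucc 6589999999) 0))
(.lf (.negSucc 3849999999) 0)))
(.sy (.ofNat 2500000000)
(.sy (.ofNat 1250000000)
(.lf (.negSucc 1149999999) 0)
(.lf (.negSucc 1629999999) 0))
(.sy (.ofNat 3750000000)
(.sx (.ofNat 4341525000)
(.lf (.negSucc 2469999999) 0)
(.lf (.negSucc 2099999999) 0))
(.sx (.ofNat 4341525000)
(.lf (.negSucc 3259999999) 0)
(.sy (.ofNat 4606676226)
(.lf (.negSucc 2759999999) 0)
.ou)))))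
(.sy (.ofNat 3455007170)
(.sx (.ofNat 8683050000)
(.sy (.ofNat 1727503585)
(.lf (.negSucc 849999999) 0)
(.sy (.ofNat 2591255377)
(.lf (.negSucc 1339999999) 1)
(.sx (.ofNat 7235875000)
(.lf (.negSucc 1839999999) 0)
(.sy (.ofNat 2764005736)
(.lf (.negSucc 1499999999) 0)
.ou))))
(.sy (.ofNat 2303338113)
(.sy (.ofNat 1151669056)
(.lf (.negSucc 619999999) 0)
(.lf (.negSucc 929999999) 1))
.ou))
.ou))
(.sx (.ofNat 5788700000)
(.sx (.ofNat 2894350000)
(.sx (.ofNat 1447175000)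
(.sx (.ofNat 723587500)
(.sx (.ofNat 361793750)
(.lf (.ofNat 0) 0)
(.lf (.negSucc 18099999999) 0))
(.sy (.ofNat 7500000000)
(.lf (.negSucc 9069999999) 0)
(.lf (.negSucc 11959999999) 0)))
(.sy (.ofNat 7500000000)
(.sy (.ofNat 6250000000)
(.lf (.negSucc 5249999999) 0)
(.sx (.ofNat 2170762500)
(.lf (.negSucc 6979999999) 0)
(.lf (.negSucc 5909999999) 0)))
(.sy (.ofNat 8750000000)
(.sx (.ofNat 2170762500)
(.lf (.negSucc 8219999999) 0)
(.lf (.negSucc 7109999999) 0))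
(.sx (.ofNat 2170762500)
(.lf (.negSucc 9569999999) 0)
(.sy (.ofNat 9213352452)
(.lf (.negSucc 8009999999) 0)
.ou)))))
(.sy (.ofNat 6910014339)
(.sy (.ofNat 5955007169)
(.sx (.ofNat 4341525000)
(.lf (.negSucc 4069999999) 0)
.ou)
(.sx (.ofNat 4341525000)
(.sx (.ofNat 3617937500)
(.lf (.negSucc 5019999999) 0)
.ou)
.ou))
.ou))
.ou)))

theorem run_tr8_1B : Tr.run 1 1 (T8.C.mdA 2000) (T8.K1.shA (w2n 2000 923997841 19193)) R8 (.ofNat 2000000000) tr8_1B (.ofNat 0) (.ofNat 11577400000) (.negSucc 9999999999) (.ofNat 10000000000)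
    (-100000000000) 100000000000 = true := by decide +kernel

/-- tree -/
def tr8_1BB : Tr :=
(.sy (.ofNat 0)
(.sy (.negSucc 4999999999)
(.sx (.negSucc 4638899999)
.ou
(.sy (.negSucc 7499999999)
(.sx (.negSucc 2319449999)
(.sy (.negSucc 8622733837)
.ou
(.lf (.negSucc 739999999) 0))
(.sx (.negSucc 1159724999)
(.lf (.negSucc 1849999999) 0)
(.lf (.negSucc 3849999999) 0)))
(.sx (.negSucc 2319449999)
(.lf (.negSucc 239999999) 0)
(.lf (.negSucc 439999999) 0))))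
(.sx (.negSucc 4638899999)
(.sy (.negSucc 4311366918)
.ou
(.sy (.negSucc 2155683459)
(.sx (.negSucc 6958349999)
(.sy (.negSucc 2874244612)
.ou
(.lf (.ofNat 170000000) 0))
(.lf (.ofNat 260000000) 0))
(.sx (.negSucc 6958349999)
(.lf (.ofNat 280000000) 0)
(.lf (.ofNat 480000000) 0))))
(.sx (.negSucc 2319449999)
(.sy (.negSucc 2499999999)
(.lf (.ofNat 380000000) 0)
(.lf (.ofNat 860000000) 0))
(.sy (.negSucc 2499999999)
(.lf (.ofNat 1260000000) 0)
(.lf (.ofNat 2650000000) 0)))))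
(.sy (.ofNat 5000000000)
(.sx (.negSucc 4638899999)
(.sy (.ofNat 4311366919)
(.sy (.ofNat 2155683459)
(.sx (.negSucc 6958349999)
(.lf (.ofNat 430000000) 0)
(.lf (.ofNat 630000000) 0))
(.sx (.negSucc 6958349999)
(.sy (.ofNat 2874244613)
(.lf (.ofNat 480000000) 0)
.ou)
(.lf (.ofNat 650000000) 0)))
.ou)
(.sx (.negSucc 2319449999)
(.sy (.ofNat 2500000000)
(.lf (.ofNat 1130000000) 0)
(.lf (.ofNat 1190000000) 0))
(.sx (.negSucc 1159724999)
(.sy (.ofNat 2500000000)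
(.lf (.ofNat 2440000000) 0)
(.lf (.ofNat 2840000000) 0))
(.sy (.ofNat 2500000000)
(.lf (.ofNat 7730000000) 0)
(.lf (.ofNat 9830000000) 0)))))
(.sx (.negSucc 4638899999)
.ou
(.sx (.negSucc 2319449999)
(.sy (.ofNat 8622733838)
(.sy (.ofNat 6811366919)
(.lf (.ofNat 1050000000) 0)
(.sx (.negSucc 3479174999)
.ou
(.lf (.ofNat 1190000000) 0)))
.ou)
(.sx (.negSucc 1159724999)
(.sy (.ofNat 7500000000)
(.lf (.ofNat 2970000000) 0)
(.lf (.ofNat 2830000000) 0))
(.sx (.negSucc 579862499)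
(.lf (.ofNat 7600000000) 0)
(.sx (.negSucc 289931249)
(.lf (.ofNat 17220000000) 0)
(.lf (.ofNat 0) 0))))))))

theorem run_tr8_1BB : Tr.run 1 1 (T8.C.mdA 2000) (T8.K1.shA (w2n 2000 923997841 19193)) R8 (.ofNat 2000000000) tr8_1BB (.negSucc 9277799999) (.ofNat 0) (.negSucc 9999999999) (.ofNat 10000000000)
    (-100000000000) 100000000000 = true := by decide +kernel

/-- tree -/
def tr8_1P : Tr :=
(.sy (.ofNat 1149800000)
(.sy (.negSucc 4063999999)
(.sx (.ofNat 4100000000)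
(.sy (.negSucc 6670899999)
(.sx (.ofNat 3050000000)
(.lf (.ofNat 90000000) 0)
(.lf (.ofNat 60000000) 0))
(.sx (.ofNat 3050000000)
(.lf (.ofNat 30000000) 0)
(.lf (.negSucc 29999999) 0)))
(.sy (.negSucc 6670899999)
(.sx (.ofNat 5150000000)
(.lf (.ofNat 70000000) 0)
(.lf (.ofNat 140000000) 0))
(.sx (.ofNat 5150000000)
(.lf (.negSucc 49999999) 0)
(.lf (.negSucc 29999999) 0))))
(.sx (.ofNat 4100000000)
(.sy (.negSucc 1457099999)
(.sx (.ofNat 3050000000)
(.sy (.negSucc 2760549999)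
(.lf (.negSucc 69999999) 0)
(.sx (.ofNat 2525000000)
(.lf (.negSucc 119999999) 0)
(.lf (.negSucc 189999999) 0)))
(.sy (.negSucc 2760549999)
(.lf (.negSucc 169999999) 0)
(.lf (.negSucc 299999999) 1)))
(.sx (.ofNat 3050000000)
(.sy (.negSucc 153649999)
(.sx (.ofNat 2525000000)
(.sy (.negSucc 805374999)
(.lf (.negSucc 189999999) 0)
(.lf (.negSucc 239999999) 0))
(.lf (.negSucc 299999999) 0))
(.sx (.ofNat 2525000000)
(.sy (.ofNat 498075000)
(.lf (.negSucc 299999999) 0)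
(.lf (.negSucc 349999999) 0))
(.sy (.ofNat 498075000)
(.lf (.negSucc 399999999) 0)
(.lf (.negSucc 469999999) 0))))
(.sy (.negSucc 153649999)
(.sx (.ofNat 3575000000)
(.lf (.negSucc 399999999) 0)
(.lf (.negSucc 499999999) 0))
(.sx (.ofNat 3575000000)
(.lf (.negSucc 559999999) 0)
(.lf (.negSucc 689999999) 0)))))
(.sy (.negSucc 1457099999)
(.sx (.ofNat 5150000000)
(.sy (.negSucc 2760549999)
(.lf (.negSucc 249999999) 0)
(.lf (.negSucc 429999999) 0))
(.lf (.negSucc 389999999) 1))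
(.sx (.ofNat 5150000000)
(.sy (.negSucc 153649999)
(.sx (.ofNat 4625000000)
(.lf (.negSucc 589999999) 0)
(.lf (.negSucc 679999999) 0))
(.sx (.ofNat 4625000000)
(.lf (.negSucc 819999999) 0)
(.lf (.negSucc 939999999) 0)))
(.sy (.negSucc 153649999)
(.lf (.negSucc 769999999) 0)
(.lf (.negSucc 1059999999) 1))))))
(.sy (.ofNat 6363600000)
(.sx (.ofNat 4100000000)
(.sy (.ofNat 3756700000)
(.sx (.ofNat 3050000000)
(.sy (.ofNat 2453250000)
(.sx (.ofNat 2525000000)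
(.sy (.ofNat 1801525000)
(.lf (.negSucc 409999999) 0)
(.lf (.negSucc 469999999) 0))
(.sy (.ofNat 1801525000)
(.lf (.negSucc 539999999) 0)
(.lf (.negSucc 619999999) 0)))
(.sx (.ofNat 2525000000)
(.lf (.negSucc 569999999) 0)
(.lf (.negSucc 729999999) 0)))
(.sy (.ofNat 2453250000)
(.sx (.ofNat 3575000000)
(.lf (.negSucc 739999999) 1)
(.lf (.negSucc 899999999) 0))
(.sx (.ofNat 3575000000)
(.lf (.negSucc 919999999) 0)
(.lf (.negSucc 1109999999) 1))))
(.sx (.ofNat 3050000000)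
(.sy (.ofNat 5060150000)
(.sx (.ofNat 2525000000)
(.lf (.negSucc 689999999) 0)
(.lf (.negSucc 879999999) 0))
(.lf (.negSucc 919999999) 0))
(.sy (.ofNat 5060150000)
(.sx (.ofNat 3575000000)
(.lf (.negSucc 1089999999) 0)
(.lf (.negSucc 1299999999) 0))
(.lf (.negSucc 1339999999) 1))))
(.sy (.ofNat 3756700000)
(.sx (.ofNat 5150000000)
(.sy (.ofNat 2453250000)
(.sx (.ofNat 4625000000)
(.lf (.negSucc 1059999999) 0)
(.lf (.negSucc 1209999999) 0))
(.sx (.ofNat 4625000000)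
(.lf (.negSucc 1299999999) 0)
(.lf (.negSucc 1449999999) 0)))
(.sy (.ofNat 2453250000)
(.sx (.ofNat 5675000000)
(.lf (.negSucc 1309999999) 0)
(.lf (.negSucc 1359999999) 0))
(.sx (.ofNat 5675000000)
(.lf (.negSucc 1539999999) 0)
(.lf (.negSucc 1549999999) 0))))
(.sx (.ofNat 5150000000)
(.sy (.ofNat 5060150000)
(.sx (.ofNat 4625000000)
(.lf (.negSucc 1489999999) 0)
(.lf (.negSucc 1619999999) 0))
(.sx (.ofNat 4625000000)
(.lf (.negSucc 1599999999) 0)
(.lf (.negSucc 1669999999) 0)))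
(.sy (.ofNat 5060150000)
(.sx (.ofNat 5675000000)
(.lf (.negSucc 1669999999) 0)
(.lf (.negSucc 1619999999) 0))
(.sx (.ofNat 5675000000)
(.lf (.negSucc 1649999999) 0)
(.lf (.negSucc 1539999999) 0))))))
(.sx (.ofNat 4100000000)
(.sy (.ofNat 8970500000)
(.sx (.ofNat 3050000000)
(.lf (.negSucc 1079999999) 0)
(.sy (.ofNat 7667050000)
(.lf (.negSucc 1419999999) 0)
(.lf (.negSucc 1419999999) 0)))
(.sy (.ofNat 10273950000)
(.lf (.negSucc 1269999999) 1)
(.lf (.negSucc 1209999999) 0)))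
(.sy (.ofNat 8970500000)
(.sx (.ofNat 5150000000)
(.sy (.ofNat 7667050000)
(.lf (.negSucc 1609999999) 0)
(.lf (.negSucc 1459999999) 0))
(.sy (.ofNat 7667050000)
(.lf (.negSucc 1439999999) 0)
(.lf (.negSucc 1169999999) 0)))
(.sx (.ofNat 5150000000)
(.lf (.negSucc 1119999999) 0)
(.lf (.negSucc 679999999) 0))))))

theorem run_tr8_1P : Tr.run 1 2 (T8.C.mdA 2000) (T8.K1.shA (w2n 2000 923997841 19193)) R8 (.ofNat 2000000000) tr8_1P (.ofNat 2000000000) (.ofNat 6200000000) (.negSucc 9277799999) (.ofNat 11577400000)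
    (-100000000000) 100000000000 = true := by decide +kernel

/-- tree -/
def tr8_1N : Tr :=
(.sy (.ofNat 1149800000)
(.sx (.negSucc 5449999999)
(.sy (.negSucc 4063999999)
(.sy (.negSucc 6670899999)
(.sx (.negSucc 7174999999)
(.lf (.negSucc 189999999) 0)
(.lf (.ofNat 60000000) 0))
(.sx (.negSucc 7174999999)
(.sy (.negSucc 5367449999)
(.lf (.negSucc 429999999) 0)
(.lf (.negSucc 539999999) 0))
(.sy (.negSucc 5367449999)
(.lf (.negSucc 139999999) 0)
(.lf (.negSucc 239999999) 0))))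
(.sx (.negSucc 7174999999)
(.sy (.negSucc 1457099999)
(.sy (.negSucc 2760549999)
(.lf (.negSucc 629999999) 0)
(.sx (.negSucc 8037499999)
(.lf (.negSucc 789999999) 0)
(.lf (.negSucc 619999999) 0)))
(.sx (.negSucc 8037499999)
(.sy (.negSucc 153649999)
(.lf (.negSucc 849999999) 0)
(.lf (.negSucc 889999999) 0))
(.sy (.negSucc 153649999)
(.lf (.negSucc 679999999) 0)
(.lf (.negSucc 719999999) 0))))
(.sy (.negSucc 1457099999)
(.sx (.negSucc 6312499999)
(.sy (.negSucc 2760549999)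
(.lf (.negSucc 399999999) 0)
(.lf (.negSucc 459999999) 0))
(.sy (.negSucc 2760549999)
(.lf (.negSucc 259999999) 0)
(.lf (.negSucc 319999999) 0)))
(.sx (.negSucc 6312499999)
(.sy (.negSucc 153649999)
(.lf (.negSucc 519999999) 0)
(.lf (.negSucc 559999999) 0))
(.sy (.negSucc 153649999)
(.lf (.negSucc 369999999) 0)
(.lf (.negSucc 409999999) 0))))))
(.sy (.negSucc 4063999999)
(.sy (.negSucc 6670899999)
(.sx (.negSucc 3724999999)
(.lf (.ofNat 230000000) 0)
(.sy (.negSucc 7974349999)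
(.lf (.ofNat 350000000) 0)
(.lf (.ofNat 270000000) 0)))
(.sx (.negSucc 3724999999)
(.sy (.negSucc 5367449999)
(.lf (.ofNat 70000000) 0)
(.lf (.negSucc 9999999) 0))
(.sy (.negSucc 5367449999)
(.lf (.ofNat 200000000) 0)
(.sx (.negSucc 2862499999)
(.lf (.ofNat 110000000) 0)
(.lf (.ofNat 160000000) 0)))))
(.sx (.negSucc 3724999999)
(.sy (.negSucc 1457099999)
(.sx (.negSucc 4587499999)
(.sy (.negSucc 2760549999)
(.lf (.negSucc 129999999) 0)
(.lf (.negSucc 189999999) 0))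
(.sy (.negSucc 2760549999)
(.lf (.negSucc 29999999) 0)
(.lf (.negSucc 79999999) 0)))
(.sx (.negSucc 4587499999)
(.sy (.negSucc 153649999)
(.lf (.negSucc 239999999) 0)
(.lf (.negSucc 279999999) 0))
(.sy (.negSucc 153649999)
(.lf (.negSucc 129999999) 0)
(.sx (.negSucc 4156249999)
(.lf (.negSucc 189999999) 0)
(.lf (.negSucc 139999999) 0)))))
(.sy (.negSucc 1457099999)
(.sx (.negSucc 2862499999)
(.sy (.negSucc 2760549999)
(.lf (.ofNat 50000000) 0)
(.lf (.ofNat 0) 0))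
(.sy (.negSucc 2760549999)
(.lf (.ofNat 110000000) 0)
(.sy (.negSucc 2108824999)
(.lf (.ofNat 70000000) 0)
(.lf (.ofNat 50000000) 0))))
(.sx (.negSucc 2862499999)
(.sy (.negSucc 153649999)
(.sx (.negSucc 3293749999)
(.lf (.negSucc 59999999) 0)
(.lf (.negSucc 19999999) 0))
(.sx (.negSucc 3293749999)
(.lf (.negSucc 99999999) 0)
(.lf (.negSucc 59999999) 0)))
(.sy (.negSucc 153649999)
(.sx (.negSucc 2431249999)
(.lf (.ofNat 10000000) 0)
(.sy (.negSucc 805374999)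
(.lf (.ofNat 40000000) 0)
(.lf (.ofNat 30000000) 0)))
(.sx (.negSucc 2431249999)
(.lf (.negSucc 29999999) 0)
(.lf (.ofNat 0) 0))))))))
(.sx (.negSucc 5449999999)
(.sy (.ofNat 6363600000)
(.sx (.negSucc 7174999999)
(.sy (.ofNat 3756700000)
(.sx (.negSucc 8037499999)
(.sy (.ofNat 2453250000)
(.sx (.negSucc 8468749999)
(.lf (.negSucc 969999999) 0)
(.lf (.negSucc 879999999) 0))
(.sx (.negSucc 8468749999)
(.lf (.negSucc 989999999) 0)
(.lf (.negSucc 899999999) 0)))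
(.sy (.ofNat 2453250000)
(.lf (.negSucc 759999999) 0)
(.lf (.negSucc 779999999) 0)))
(.sx (.negSucc 8037499999)
(.sy (.ofNat 5060150000)
(.sx (.negSucc 8468749999)
(.sx (.negSucc 8684374999)
(.lf (.negSucc 1019999999) 0)
(.lf (.negSucc 979999999) 0))
(.lf (.negSucc 919999999) 0))
(.sx (.negSucc 8468749999)
(.lf (.negSucc 999999999) 0)
(.lf (.negSucc 919999999) 0)))
(.sy (.ofNat 5060150000)
(.lf (.negSucc 789999999) 0)
(.lf (.negSucc 799999999) 0))))
(.sy (.ofNat 3756700000)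
(.sx (.negSucc 6312499999)
(.sy (.ofNat 2453250000)
(.lf (.negSucc 589999999) 0)
(.lf (.negSucc 619999999) 0))
(.sy (.ofNat 2453250000)
(.lf (.negSucc 449999999) 0)
(.lf (.negSucc 469999999) 0)))
(.sx (.negSucc 6312499999)
(.sy (.ofNat 5060150000)
(.lf (.negSucc 639999999) 0)
(.lf (.negSucc 649999999) 0))
(.sy (.ofNat 5060150000)
(.lf (.negSucc 489999999) 0)
(.lf (.negSucc 509999999) 0)))))
(.sx (.negSucc 7174999999)
(.sy (.ofNat 8970500000)
(.sx (.negSucc 8037499999)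
(.sy (.ofNat 7667050000)
(.lf (.negSucc 959999999) 0)
(.lf (.negSucc 949999999) 0))
(.sy (.ofNat 7667050000)
(.lf (.negSucc 799999999) 0)
(.lf (.negSucc 799999999) 0)))
(.sy (.ofNat 10273950000)
(.lf (.negSucc 859999999) 0)
(.lf (.negSucc 849999999) 0)))
(.sy (.ofNat 8970500000)
(.sx (.negSucc 6312499999)
(.lf (.negSucc 659999999) 0)
(.lf (.negSucc 519999999) 0))
(.lf (.negSucc 599999999) 0))))
(.sy (.ofNat 6363600000)
(.sx (.negSucc 3724999999)
(.sy (.ofNat 3756700000)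
(.sx (.negSucc 4587499999)
(.sy (.ofNat 2453250000)
(.lf (.negSucc 309999999) 0)
(.lf (.negSucc 339999999) 0))
(.sy (.ofNat 2453250000)
(.lf (.negSucc 199999999) 0)
(.lf (.negSucc 219999999) 0)))
(.sx (.negSucc 4587499999)
(.sy (.ofNat 5060150000)
(.lf (.negSucc 359999999) 0)
(.lf (.negSucc 379999999) 0))
(.sy (.ofNat 5060150000)
(.lf (.negSucc 249999999) 0)
(.lf (.negSucc 269999999) 0))))
(.sy (.ofNat 3756700000)
(.sx (.negSucc 2862499999)
(.sy (.ofNat 2453250000)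
(.sx (.negSucc 3293749999)
(.lf (.negSucc 129999999) 0)
(.lf (.negSucc 89999999) 0))
(.lf (.negSucc 139999999) 0))
(.sy (.ofNat 2453250000)
(.sx (.negSucc 2431249999)
(.lf (.negSucc 59999999) 0)
(.lf (.negSucc 39999999) 0))
(.lf (.negSucc 79999999) 0)))
(.sy (.ofNat 5060150000)
(.sx (.negSucc 2862499999)
(.lf (.negSucc 159999999) 0)
(.lf (.negSucc 109999999) 0))
(.lf (.negSucc 159999999) 0))))
(.sy (.ofNat 8970500000)
(.sx (.negSucc 3724999999)
(.sy (.ofNat 7667050000)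
(.lf (.negSucc 339999999) 0)
(.lf (.negSucc 359999999) 0))
(.lf (.negSucc 209999999) 0))
(.sx (.negSucc 3724999999)
(.lf (.negSucc 399999999) 0)
(.lf (.negSucc 299999999) 0))))))

theorem run_tr8_1N : Tr.run 1 2 (T8.C.mdA 2000) (T8.K1.shA (w2n 2000 923997841 19193)) R8 (.ofNat 2000000000) tr8_1N (.negSucc 8899999999) (.negSucc 1999999999) (.negSucc 9277799999) (.ofNat 11577400000)
    (-100000000000) 100000000000 = true := by decide +kernel

/-- tree -/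
def br8 : Tr :=
(.sy (.ofNat 1149800000)
(.sz (.negSucc 217099999)
(.sy (.negSucc 4063999999)
(.sx (.negSucc 1349999999)
(.lf (.ofNat 0) 0)
(.lf (.ofNat 0) 0))
(.lf (.ofNat 0) 0))
(.sy (.negSucc 4063999999)
(.sx (.negSucc 1349999999)
(.lf (.ofNat 0) 0)
(.lf (.ofNat 0) 0))
(.lf (.ofNat 0) 0)))
(.sz (.negSucc 217099999)
(.lf (.ofNat 0) 0)
(.lf (.ofNat 0) 0)))

theorem run_br8 : Tr.runB T8.C T8.K0 (D8.bt * 2000 / 10000 + 1) R8.om br8 (-D8.m) D8.M D8.ylo D8.yhi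
    (-R8.bl) R8.bh = true := by decide +kernel

end Pool.Agent.Helper30.DL
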