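import Pool.Agent.Helper30.DL.Run.C8
import Pool.Agent.Helper30.DL.Seg

/-! MP_b4564f_an, all delays. Cell 8: kernel computations (generated). -/

set_option autoImplicit false
set_option maxRecDepth 100000

namespace Pool.Agent.Helper30.DL

theorem tbl8 : tblOK P8 (AF.cst (2000 * 1000000) 0 0) (AF.cst ((10000 - 2000) * 1000000) 0 0) 923997838 923997841 1 T8 1 = true := by
  decide +kernel

theorem sc8 : scC T8 2000 R8 D8 = true := by decide +kernel

end Pool.Agent.Helper30.DL
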