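import Pool.Agent.Helper30.DL.Run.C9

/-! MP_b4564f_an, all delays. Cell 9: kernel computations (generated). -/

set_option autoImplicit false
set_option maxRecDepth 100000

namespace Pool.Agent.Helper30.DL

/-- tree -/
def tr9_0A : Tr :=
(.sy (.ofNat 0)
(.sy (.negSucc 4999999999)
(.sx (.ofNat 2500000000)
(.sy (.negSucc 7499999999)
(.lf (.negSucc 769999999) 0)
(.lf (.negSucc 779999999) 0))
(.sy (.negSucc 7499999999)
(.sx (.ofNat 3750000000)
(.lf (.negSucc 209999999) 0)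
(.lf (.ofNat 130000000) 0))
(.sx (.ofNat 3750000000)
(.lf (.negSucc 239999999) 0)
(.lf (.ofNat 130000000) 0))))
(.sx (.ofNat 2500000000)
(.sy (.negSucc 2499999999)
(.lf (.negSucc 819999999) 0)
(.lf (.negSucc 859999999) 0))
(.sy (.negSucc 2499999999)
(.sx (.ofNat 3750000000)
(.lf (.negSucc 309999999) 0)
(.lf (.ofNat 60000000) 0))
(.sx (.ofNat 3750000000)
(.lf (.negSucc 419999999) 0)
(.lf (.negSucc 59999999) 0)))))
(.sy (.ofNat 5000000000)
(.sx (.ofNat 2500000000)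
(.sy (.ofNat 2500000000)
(.lf (.negSucc 919999999) 0)
(.lf (.negSucc 989999999) 0))
(.sy (.ofNat 2500000000)
(.sx (.ofNat 3750000000)
(.lf (.negSucc 549999999) 0)
(.lf (.negSucc 209999999) 0))
(.sx (.ofNat 3750000000)
(.lf (.negSucc 699999999) 0)
(.lf (.negSucc 329999999) 0))))
(.sx (.ofNat 2500000000)
(.sy (.ofNat 7500000000)
(.sy (.ofNat 6250000000)
(.lf (.negSucc 1049999999) 0)
(.lf (.negSucc 1089999999) 0))
(.sy (.ofNat 8750000000)
(.lf (.negSucc 1129999999) 0)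
(.lf (.negSucc 1169999999) 0)))
(.sy (.ofNat 7500000000)
(.sx (.ofNat 3750000000)
(.lf (.negSucc 839999999) 0)
(.lf (.negSucc 409999999) 0))
(.sx (.ofNat 3750000000)
(.lf (.negSucc 959999999) 0)
(.lf (.negSucc 399999999) 0))))))

theorem run_tr9_0A : Tr.run 0 0 T9.C T9.K0 R9 (.ofNat 5000000000) tr9_0A (.ofNat 0) (.ofNat 5000000000) (.negSucc 9999999999) (.ofNat 10000000000)
    (-100000000000) 100000000000 = true := by decide +kernel

/-- tree -/
def tr9_0AA : Tr :=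
(.sy (.ofNat 0)
(.sy (.negSucc 4999999999)
(.sx (.negSucc 2499999999)
(.sy (.negSucc 7499999999)
(.lf (.negSucc 1509999999) 0)
(.lf (.negSucc 1489999999) 0))
(.sy (.negSucc 7499999999)
(.lf (.negSucc 1289999999) 0)
(.lf (.negSucc 1279999999) 0)))
(.sx (.negSucc 2499999999)
(.sy (.negSucc 2499999999)
(.lf (.negSucc 1439999999) 0)
(.lf (.negSucc 1359999999) 0))
(.sy (.negSucc 2499999999)
(.lf (.negSucc 1259999999) 0)
(.lf (.negSucc 1219999999) 0))))
(.sy (.ofNat 5000000000)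
(.sy (.ofNat 2500000000)
(.sx (.negSucc 2499999999)
(.lf (.negSucc 1239999999) 0)
(.lf (.negSucc 1169999999) 0))
(.sx (.negSucc 2499999999)
(.lf (.negSucc 1069999999) 0)
(.lf (.negSucc 1099999999) 0)))
(.sy (.ofNat 7500000000)
(.sx (.negSucc 2499999999)
(.sy (.ofNat 6250000000)
(.lf (.negSucc 919999999) 0)
(.lf (.negSucc 799999999) 0))
(.sx (.negSucc 1249999999)
(.lf (.negSucc 989999999) 0)
(.lf (.negSucc 1049999999) 0)))
(.sx (.negSucc 2499999999)
(.sy (.ofNat 8750000000)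
(.lf (.negSucc 669999999) 0)
(.lf (.negSucc 519999999) 0))
(.sx (.negSucc 1249999999)
(.lf (.negSucc 849999999) 0)
(.lf (.negSucc 1009999999) 0))))))

theorem run_tr9_0AA : Tr.run 0 0 T9.C T9.K0 R9 (.ofNat 5000000000) tr9_0AA (.negSucc 4999999999) (.ofNat 0) (.negSucc 9999999999) (.ofNat 10000000000)
    (-100000000000) 100000000000 = true := by decide +kernel

/-- tree -/
def tr9_0B : Tr :=
(.sy (.ofNat 0)
(.sy (.negSucc 4999999999)
(.sx (.ofNat 5689500000)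
(.sy (.negSucc 7499999999)
(.sy (.negSucc 8749999999)
(.sx (.ofNat 2844750000)
(.sy (.negSucc 9374999999)
(.lf (.negSucc 1229999999) 0)
(.lf (.negSucc 1069999999) 0))
(.sy (.negSucc 9374999999)
(.lf (.negSucc 1419999999) 0)
(.lf (.negSucc 1229999999) 0)))
(.sx (.ofNat 2844750000)
(.sy (.negSucc 8124999999)
(.lf (.negSucc 909999999) 0)
(.lf (.negSucc 769999999) 0))
(.sy (.negSucc 8124999999)
(.lf (.negSucc 1059999999) 0)
(.lf (.negSucc 899999999) 0))))
(.sx (.ofNat 2844750000)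
(.sy (.negSucc 6249999999)
(.lf (.negSucc 579999999) 0)
(.lf (.negSucc 369999999) 0))
(.sy (.negSucc 6249999999)
(.sy (.negSucc 6874999999)
(.lf (.negSucc 749999999) 0)
(.lf (.negSucc 609999999) 0))
(.sy (.negSucc 5624999999)
(.lf (.negSucc 479999999) 0)
(.lf (.negSucc 369999999) 0)))))
(.sy (.negSucc 8788118463)
.ou
(.sy (.negSucc 6894059231)
(.sx (.ofNat 8534250000)
(.sy (.negSucc 7841088847)
(.sx (.ofNat 7111875000)
(.lf (.negSucc 1029999999) 0)
.ou)
(.sy (.negSucc 7367574039)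
(.lf (.negSucc 849999999) 0)
(.lf (.negSucc 739999999) 0)))
.ou)
(.sx (.ofNat 8534250000)
(.sy (.negSucc 5947029615)
(.lf (.negSucc 589999999) 0)
(.lf (.negSucc 409999999) 0))
(.sy (.negSucc 5858745642)
.ou
(.lf (.negSucc 399999999) 0))))))
(.sx (.ofNat 5689500000)
(.sy (.negSucc 2499999999)
(.sx (.ofNat 2844750000)
(.sy (.negSucc 3749999999)
(.lf (.negSucc 209999999) 0)
(.lf (.negSucc 89999999) 0))
(.sy (.negSucc 3749999999)
(.lf (.negSucc 229999999) 0)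
(.lf (.negSucc 89999999) 0)))
(.sx (.ofNat 2844750000)
(.lf (.ofNat 0) 0)
(.lf (.ofNat 20000000) 0)))
(.sy (.negSucc 2499999999)
(.sx (.ofNat 8534250000)
(.sy (.negSucc 3749999999)
(.lf (.negSucc 239999999) 0)
(.lf (.negSucc 99999999) 0))
(.sy (.negSucc 3749999999)
(.lf (.negSucc 249999999) 0)
(.lf (.negSucc 119999999) 0)))
(.sx (.ofNat 8534250000)
(.sx (.ofNat 7111875000)
(.lf (.ofNat 20000000) 0)
(.sy (.negSucc 1249999999)
(.lf (.negSucc 9999999) 0)
(.lf (.ofNat 10000000) 0)))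
(.sx (.ofNat 9956625000)
(.sy (.negSucc 1249999999)
(.lf (.negSucc 29999999) 0)
(.lf (.ofNat 0) 0))
(.sy (.negSucc 1249999999)
(.lf (.negSucc 39999999) 0)
(.lf (.negSucc 19999999) 0)))))))
(.sx (.ofNat 5689500000)
(.sy (.ofNat 5000000000)
(.sy (.ofNat 2500000000)
(.sx (.ofNat 2844750000)
(.lf (.negSucc 19999999) 0)
(.sy (.ofNat 1250000000)
(.lf (.ofNat 0) 0)
(.lf (.negSucc 79999999) 0)))
(.sx (.ofNat 2844750000)
(.sy (.ofNat 3750000000)
(.lf (.negSucc 149999999) 0)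
(.lf (.negSucc 269999999) 0))
(.sy (.ofNat 3750000000)
(.lf (.negSucc 189999999) 0)
(.sx (.ofNat 4267125000)
(.lf (.negSucc 329999999) 0)
(.lf (.negSucc 309999999) 0)))))
(.sy (.ofNat 7500000000)
(.sx (.ofNat 2844750000)
(.sy (.ofNat 6250000000)
(.sx (.ofNat 1422375000)
(.lf (.negSucc 389999999) 0)
(.lf (.negSucc 469999999) 0))
(.sx (.ofNat 1422375000)
(.lf (.negSucc 569999999) 0)
(.lf (.negSucc 659999999) 0)))
(.sy (.ofNat 6250000000)
(.sx (.ofNat 4267125000)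
(.lf (.negSucc 489999999) 0)
(.lf (.negSucc 409999999) 1))
(.sx (.ofNat 4267125000)
(.sy (.ofNat 6875000000)
(.lf (.negSucc 609999999) 0)
(.lf (.negSucc 679999999) 0))
(.sx (.ofNat 4978312500)
(.lf (.negSucc 499999999) 0)
(.lf (.negSucc 329999999) 0)))))
(.sx (.ofNat 2844750000)
(.sy (.ofNat 8750000000)
(.sx (.ofNat 1422375000)
(.lf (.negSucc 779999999) 0)
(.sy (.ofNat 8125000000)
(.lf (.negSucc 809999999) 0)
(.lf (.negSucc 919999999) 0)))
(.sy (.ofNat 9375000000)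
(.sx (.ofNat 1422375000)
(.lf (.negSucc 959999999) 0)
(.lf (.negSucc 1029999999) 0))
(.sx (.ofNat 1422375000)
(.lf (.negSucc 1089999999) 0)
(.lf (.negSucc 1139999999) 0))))
(.sx (.ofNat 4267125000)
(.sy (.ofNat 8750000000)
(.sx (.ofNat 3555937500)
(.lf (.negSucc 819999999) 0)
(.lf (.negSucc 699999999) 0))
(.sx (.ofNat 3555937500)
(.lf (.negSucc 949999999) 0)
(.lf (.negSucc 699999999) 0)))
(.sy (.ofNat 8750000000)
(.sx (.ofNat 4978312500)
(.lf (.negSucc 469999999) 0)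
(.lf (.negSucc 139999999) 0))
(.sx (.ofNat 4978312500)
(.lf (.negSucc 299999999) 0)
(.lf (.ofNat 250000000) 0)))))))
(.sy (.ofNat 8788118464)
(.sy (.ofNat 4394059232)
(.sx (.ofNat 8534250000)
(.sy (.ofNat 2197029616)
(.lf (.negSucc 39999999) 1)
(.sx (.ofNat 7111875000)
(.sy (.ofNat 3295544424)
(.lf (.negSucc 149999999) 0)
(.lf (.negSucc 209999999) 0))
(.sy (.ofNat 3295544424)
(.lf (.negSucc 99999999) 0)
(.lf (.negSucc 79999999) 0))))
(.sy (.ofNat 2197029616)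
(.sx (.ofNat 9956625000)
(.lf (.negSucc 39999999) 1)
(.sy (.ofNat 1098514808)
(.lf (.negSucc 39999999) 0)
(.lf (.negSucc 29999999) 0)))
(.sy (.ofNat 3295544424)
(.lf (.ofNat 20000000) 0)
(.sx (.ofNat 9956625000)
(.lf (.ofNat 120000000) 0)
(.lf (.ofNat 350000000) 0)))))
(.sy (.ofNat 6591088848)
(.sx (.ofNat 8534250000)
(.sx (.ofNat 7111875000)
(.sy (.ofNat 5492574040)
(.lf (.negSucc 209999999) 0)
(.lf (.negSucc 99999999) 1))
(.sy (.ofNat 5492574040)
(.lf (.ofNat 70000000) 0)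
(.lf (.ofNat 400000000) 1)))
(.sy (.ofNat 5858745643)
(.sx (.ofNat 9956625000)
(.sy (.ofNat 5126402437)
(.lf (.ofNat 370000000) 0)
(.lf (.ofNat 670000000) 0))
(.sy (.ofNat 5021781980)
(.lf (.ofNat 700000000) 0)
.ou))
.ou))
(.sx (.ofNat 8534250000)
(.sx (.ofNat 7111875000)
(.sy (.ofNat 7689603656)
(.lf (.ofNat 150000000) 1)
(.lf (.ofNat 590000000) 1))
(.sy (.ofNat 7030494772)
(.lf (.ofNat 740000000) 0)
.ou))
.ou)))
.ou)))

theorem run_tr9_0B : Tr.run 0 1 T9.C T9.K0 R9 (.ofNat 5000000000) tr9_0B (.ofNat 0) (.ofNat 11379000000) (.negSucc 9999999999) (.ofNat 10000000000)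
    (-100000000000) 100000000000 = true := by decide +kernel

/-- tree -/
def tr9_0BB : Tr :=
(.sy (.ofNat 0)
(.sy (.negSucc 4999999999)
(.sx (.negSucc 4520049999)
(.sy (.negSucc 7499999999)
(.sx (.negSucc 6780074999)
.ou
(.sy (.negSucc 8749999999)
(.sx (.negSucc 5650062499)
(.sy (.negSucc 8849459629)
.ou
(.lf (.ofNat 120000000) 0))
(.lf (.ofNat 120000000) 0))
(.sx (.negSucc 5650062499)
(.lf (.ofNat 20000000) 0)
(.lf (.negSucc 49999999) 0))))
(.sy (.negSucc 6249999999)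
(.sx (.negSucc 6780074999)
(.sx (.negSucc 7910087499)
(.sy (.negSucc 6321042592)
.ou
(.lf (.negSucc 229999999) 0))
(.lf (.negSucc 129999999) 0))
(.lf (.negSucc 149999999) 0))
(.sx (.negSucc 6780074999)
(.sy (.negSucc 5624999999)
(.lf (.negSucc 239999999) 0)
(.lf (.negSucc 279999999) 0))
(.lf (.negSucc 229999999) 0))))
(.sy (.negSucc 7499999999)
(.sx (.negSucc 2260024999)
(.sy (.negSucc 8749999999)
(.lf (.negSucc 189999999) 1)
(.lf (.negSucc 249999999) 0))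
(.sy (.negSucc 8749999999)
(.lf (.negSucc 719999999) 0)
(.lf (.negSucc 569999999) 0)))
(.sx (.negSucc 2260024999)
(.sy (.negSucc 6249999999)
(.lf (.negSucc 269999999) 0)
(.lf (.negSucc 249999999) 0))
(.sy (.negSucc 6249999999)
(.lf (.negSucc 429999999) 0)
(.lf (.negSucc 309999999) 0)))))
(.sx (.negSucc 4520049999)
(.sy (.negSucc 2499999999)
(.sx (.negSucc 6780074999)
(.sy (.negSucc 3749999999)
(.sx (.negSucc 7910087499)
(.lf (.negSucc 349999999) 0)
(.lf (.negSucc 299999999) 0))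
(.lf (.negSucc 329999999) 0))
(.sy (.negSucc 3749999999)
(.lf (.negSucc 249999999) 0)
(.lf (.negSucc 239999999) 0)))
(.sx (.negSucc 6780074999)
(.sy (.negSucc 1249999999)
(.lf (.negSucc 279999999) 0)
(.lf (.negSucc 169999999) 0))
(.sy (.negSucc 1249999999)
(.lf (.negSucc 179999999) 0)
(.lf (.negSucc 109999999) 0))))
(.sy (.negSucc 2499999999)
(.sx (.negSucc 2260024999)
(.sy (.negSucc 3749999999)
(.lf (.negSucc 219999999) 0)
(.lf (.negSucc 169999999) 0))
(.sy (.negSucc 3749999999)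
(.lf (.negSucc 199999999) 0)
(.lf (.negSucc 119999999) 0)))
(.sx (.negSucc 2260024999)
(.sy (.negSucc 1249999999)
(.lf (.negSucc 109999999) 0)
(.lf (.negSucc 59999999) 0))
(.lf (.negSucc 29999999) 0)))))
(.sy (.ofNat 5000000000)
(.sx (.negSucc 4520049999)
(.sy (.ofNat 2500000000)
(.sx (.negSucc 6780074999)
(.sy (.ofNat 1250000000)
(.lf (.negSucc 39999999) 0)
(.lf (.ofNat 100000000) 0))
(.sy (.ofNat 1250000000)
(.lf (.negSucc 29999999) 0)
(.lf (.ofNat 50000000) 0)))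
(.sx (.negSucc 6780074999)
(.sy (.ofNat 3750000000)
(.lf (.ofNat 230000000) 0)
(.lf (.ofNat 350000000) 0))
(.sy (.ofNat 3750000000)
(.lf (.ofNat 110000000) 0)
(.lf (.ofNat 150000000) 0))))
(.sy (.ofNat 2500000000)
(.sx (.negSucc 2260024999)
(.lf (.ofNat 0) 0)
(.lf (.negSucc 9999999) 0))
(.sx (.negSucc 2260024999)
(.sy (.ofNat 3750000000)
(.lf (.ofNat 20000000) 0)
(.lf (.negSucc 9999999) 0))
(.sy (.ofNat 3750000000)
(.lf (.negSucc 69999999) 0)
(.lf (.negSucc 139999999) 0)))))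
(.sx (.negSucc 4520049999)
(.sy (.ofNat 7500000000)
(.sx (.negSucc 6780074999)
(.sy (.ofNat 6250000000)
(.lf (.ofNat 450000000) 0)
(.lf (.ofNat 530000000) 0))
(.sy (.ofNat 6250000000)
(.lf (.ofNat 160000000) 0)
(.lf (.ofNat 140000000) 0)))
(.sx (.negSucc 6780074999)
.ou
(.sy (.ofNat 8750000000)
(.lf (.ofNat 90000000) 0)
(.lf (.ofNat 0) 0))))
(.sy (.ofNat 7500000000)
(.sx (.negSucc 2260024999)
(.sy (.ofNat 6250000000)
(.lf (.negSucc 59999999) 0)
(.lf (.negSucc 139999999) 0))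
(.sy (.ofNat 6250000000)
(.lf (.negSucc 249999999) 0)
(.lf (.negSucc 389999999) 0)))
(.sx (.negSucc 2260024999)
(.sy (.ofNat 8750000000)
(.lf (.negSucc 259999999) 0)
(.lf (.negSucc 419999999) 0))
(.sy (.ofNat 8750000000)
(.sx (.negSucc 1130012499)
(.lf (.negSucc 499999999) 0)
(.lf (.negSucc 639999999) 0))
(.sx (.negSucc 1130012499)
(.lf (.negSucc 699999999) 0)
(.lf (.negSucc 869999999) 0))))))))

theorem run_tr9_0BB : Tr.run 0 1 T9.C T9.K0 R9 (.ofNat 5000000000) tr9_0BB (.negSucc 9040099999) (.ofNat 0) (.negSucc 9999999999) (.ofNat 10000000000)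
    (-100000000000) 100000000000 = true := by decide +kernel

/-- tree -/
def tr9_0P : Tr :=
(.sy (.ofNat 1169450000)
(.sy (.negSucc 3935324999)
(.sy (.negSucc 6487712499)
(.sy (.negSucc 7763906249)
(.sy (.negSucc 8402003124)
(.lf (.negSucc 179999999) 0)
(.lf (.negSucc 109999999) 0))
(.sy (.negSucc 7125809374)
(.lf (.negSucc 39999999) 0)
(.sx (.ofNat 5500000000)
(.lf (.negSucc 9999999) 0)
(.lf (.ofNat 30000000) 0))))
(.sy (.negSucc 5211518749)
(.sx (.ofNat 5500000000)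
(.sy (.negSucc 5849615624)
(.lf (.ofNat 30000000) 0)
(.lf (.ofNat 60000000) 0))
(.sy (.negSucc 5849615624)
(.lf (.ofNat 80000000) 0)
(.lf (.ofNat 110000000) 0)))
(.sx (.ofNat 5500000000)
(.sy (.negSucc 4573421874)
(.lf (.ofNat 80000000) 0)
(.lf (.ofNat 90000000) 0))
(.sy (.negSucc 4573421874)
(.lf (.ofNat 130000000) 0)
(.lf (.ofNat 140000000) 0)))))
(.sy (.negSucc 1382937499)
(.sy (.negSucc 2659131249)
(.sx (.ofNat 5500000000)
(.sy (.negSucc 3297228124)
(.lf (.ofNat 100000000) 0)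
(.lf (.ofNat 90000000) 0))
(.sy (.negSucc 3297228124)
(.lf (.ofNat 150000000) 0)
(.sx (.ofNat 5750000000)
(.lf (.ofNat 130000000) 0)
(.lf (.ofNat 160000000) 0))))
(.sx (.ofNat 5500000000)
(.sy (.negSucc 2021034374)
(.lf (.ofNat 90000000) 0)
(.lf (.ofNat 80000000) 0))
(.sy (.negSucc 2021034374)
(.sx (.ofNat 5750000000)
(.lf (.ofNat 120000000) 0)
(.lf (.ofNat 150000000) 0))
(.sx (.ofNat 5750000000)
(.lf (.ofNat 110000000) 0)
(.lf (.ofNat 140000000) 0)))))
(.sy (.negSucc 106743749)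
(.sx (.ofNat 5500000000)
(.sy (.negSucc 744840624)
(.lf (.ofNat 60000000) 0)
(.lf (.ofNat 50000000) 0))
(.sy (.negSucc 744840624)
(.sx (.ofNat 5750000000)
(.lf (.ofNat 100000000) 0)
(.lf (.ofNat 130000000) 0))
(.sx (.ofNat 5750000000)
(.lf (.ofNat 80000000) 0)
(.lf (.ofNat 110000000) 0))))
(.sx (.ofNat 5500000000)
(.sy (.ofNat 531353125)
(.lf (.ofNat 30000000) 0)
(.lf (.ofNat 20000000) 0))
(.sy (.ofNat 531353125)
(.lf (.ofNat 90000000) 0)
(.lf (.ofNat 80000000) 0))))))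
(.sy (.ofNat 6274225000)
(.sy (.ofNat 3721837500)
(.sy (.ofNat 2445643750)
(.sx (.ofNat 5500000000)
(.sy (.ofNat 1807546875)
(.lf (.ofNat 10000000) 0)
(.lf (.ofNat 0) 0))
(.sy (.ofNat 1807546875)
(.lf (.ofNat 70000000) 0)
(.lf (.ofNat 80000000) 0)))
(.sx (.ofNat 5500000000)
(.sy (.ofNat 3083740625)
(.lf (.ofNat 10000000) 0)
(.lf (.ofNat 20000000) 0))
(.sy (.ofNat 3083740625)
(.lf (.ofNat 90000000) 0)
(.lf (.ofNat 120000000) 0))))
(.sy (.ofNat 4998031250)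
(.sx (.ofNat 5500000000)
(.lf (.ofNat 60000000) 0)
(.lf (.ofNat 180000000) 0))
(.sx (.ofNat 5500000000)
(.lf (.ofNat 160000000) 0)
(.lf (.ofNat 310000000) 0))))
(.sy (.ofNat 8826612500)
(.sy (.ofNat 7550418750)
(.sx (.ofNat 5500000000)
(.lf (.ofNat 300000000) 0)
(.lf (.ofNat 480000000) 0))
(.lf (.ofNat 580000000) 0))
(.sy (.ofNat 10102806250)
(.lf (.ofNat 810000000) 0)
(.lf (.ofNat 1060000000) 0)))))

theorem run_tr9_0P : Tr.run 0 2 T9.C T9.K0 R9 (.ofNat 5000000000) tr9_0P (.ofNat 5000000000) (.ofNat 6000000000) (.negSucc 9040099999) (.ofNat 11379000000)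
    (-100000000000) 100000000000 = true := by decide +kernel

/-- tree -/
def tr9_0N : Tr :=
(.sy (.ofNat 1169450000)
(.sy (.negSucc 3935324999)
(.sy (.negSucc 6487712499)
(.sx (.negSucc 6849999999)
(.sy (.negSucc 7763906249)
(.sx (.negSucc 7774999999)
(.lf (.ofNat 660000000) 0)
(.lf (.ofNat 570000000) 0))
(.sx (.negSucc 7774999999)
(.lf (.ofNat 160000000) 0)
(.lf (.ofNat 180000000) 0)))
(.sy (.negSucc 7763906249)
(.sx (.negSucc 5924999999)
(.lf (.ofNat 500000000) 0)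
(.lf (.ofNat 430000000) 0))
(.sx (.negSucc 5924999999)
(.lf (.ofNat 190000000) 0)
(.lf (.ofNat 190000000) 0))))
(.sx (.negSucc 6849999999)
(.sy (.negSucc 5211518749)
(.sx (.negSucc 7774999999)
(.lf (.negSucc 169999999) 0)
(.lf (.negSucc 99999999) 0))
(.sx (.negSucc 7774999999)
(.lf (.negSucc 399999999) 0)
(.sy (.negSucc 4573421874)
(.lf (.negSucc 249999999) 0)
(.lf (.negSucc 329999999) 0))))
(.sy (.negSucc 5211518749)
(.sx (.negSucc 5924999999)
(.lf (.negSucc 29999999) 0)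
(.sy (.negSucc 5849615624)
(.lf (.ofNat 60000000) 0)
(.lf (.negSucc 19999999) 0)))
(.sx (.negSucc 5924999999)
(.sy (.negSucc 4573421874)
(.lf (.negSucc 159999999) 0)
(.lf (.negSucc 229999999) 0))
(.sy (.negSucc 4573421874)
(.lf (.negSucc 89999999) 0)
(.lf (.negSucc 149999999) 0))))))
(.sx (.negSucc 6849999999)
(.sy (.negSucc 1382937499)
(.sx (.negSucc 7774999999)
(.sy (.negSucc 2659131249)
(.sy (.negSucc 3297228124)
(.lf (.negSucc 529999999) 0)
(.lf (.negSucc 609999999) 0))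
(.sx (.negSucc 8237499999)
(.lf (.negSucc 739999999) 0)
(.lf (.negSucc 659999999) 0)))
(.sy (.negSucc 2659131249)
(.sy (.negSucc 3297228124)
(.lf (.negSucc 409999999) 0)
(.lf (.negSucc 469999999) 0))
(.sx (.negSucc 7312499999)
(.lf (.negSucc 589999999) 0)
(.lf (.negSucc 519999999) 0))))
(.sx (.negSucc 7774999999)
(.sy (.negSucc 106743749)
(.sx (.negSucc 8237499999)
(.lf (.negSucc 839999999) 0)
(.lf (.negSucc 759999999) 0))
(.sx (.negSucc 8237499999)
(.lf (.negSucc 909999999) 0)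
(.lf (.negSucc 819999999) 0)))
(.sy (.negSucc 106743749)
(.sx (.negSucc 7312499999)
(.lf (.negSucc 679999999) 0)
(.lf (.negSucc 599999999) 0))
(.sx (.negSucc 7312499999)
(.lf (.negSucc 739999999) 0)
(.lf (.negSucc 659999999) 0)))))
(.sy (.negSucc 1382937499)
(.sx (.negSucc 5924999999)
(.sy (.negSucc 2659131249)
(.sx (.negSucc 6387499999)
(.lf (.negSucc 349999999) 0)
(.lf (.negSucc 299999999) 0))
(.sx (.negSucc 6387499999)
(.lf (.negSucc 449999999) 0)
(.sy (.negSucc 2021034374)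
(.lf (.negSucc 369999999) 0)
(.lf (.negSucc 409999999) 0))))
(.sy (.negSucc 2659131249)
(.sx (.negSucc 5462499999)
(.sy (.negSucc 3297228124)
(.lf (.negSucc 219999999) 0)
(.lf (.negSucc 269999999) 0))
(.sy (.negSucc 3297228124)
(.lf (.negSucc 179999999) 0)
(.lf (.negSucc 219999999) 0)))
(.sx (.negSucc 5462499999)
(.sy (.negSucc 2021034374)
(.lf (.negSucc 309999999) 0)
(.lf (.negSucc 349999999) 0))
(.sy (.negSucc 2021034374)
(.lf (.negSucc 259999999) 0)
(.lf (.negSucc 289999999) 0)))))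
(.sx (.negSucc 5924999999)
(.sy (.negSucc 106743749)
(.sx (.negSucc 6387499999)
(.lf (.negSucc 529999999) 0)
(.lf (.negSucc 459999999) 0))
(.sx (.negSucc 6387499999)
(.lf (.negSucc 579999999) 0)
(.lf (.negSucc 509999999) 0)))
(.sy (.negSucc 106743749)
(.sx (.negSucc 5462499999)
(.lf (.negSucc 389999999) 0)
(.sy (.negSucc 744840624)
(.lf (.negSucc 319999999) 0)
(.lf (.negSucc 339999999) 0)))
(.sx (.negSucc 5462499999)
(.lf (.negSucc 439999999) 0)
(.lf (.negSucc 369999999) 0)))))))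
(.sy (.ofNat 6274225000)
(.sx (.negSucc 6849999999)
(.sy (.ofNat 3721837500)
(.sx (.negSucc 7774999999)
(.sy (.ofNat 2445643750)
(.sx (.negSucc 8237499999)
(.lf (.negSucc 959999999) 0)
(.lf (.negSucc 869999999) 0))
(.sx (.negSucc 8237499999)
(.lf (.negSucc 989999999) 0)
(.lf (.negSucc 899999999) 0)))
(.sx (.negSucc 7312499999)
(.sy (.ofNat 2445643750)
(.lf (.negSucc 789999999) 0)
(.lf (.negSucc 809999999) 0))
(.sy (.ofNat 2445643750)
(.lf (.negSucc 699999999) 0)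
(.lf (.negSucc 729999999) 0))))
(.sx (.negSucc 7774999999)
(.sx (.negSucc 8237499999)
(.sy (.ofNat 4998031250)
(.lf (.negSucc 999999999) 0)
(.lf (.negSucc 999999999) 0))
(.sy (.ofNat 4998031250)
(.lf (.negSucc 909999999) 0)
(.lf (.negSucc 909999999) 0)))
(.sx (.negSucc 7312499999)
(.sy (.ofNat 4998031250)
(.lf (.negSucc 819999999) 0)
(.lf (.negSucc 819999999) 0))
(.sy (.ofNat 4998031250)
(.lf (.negSucc 739999999) 0)
(.lf (.negSucc 739999999) 0)))))
(.sy (.ofNat 3721837500)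
(.sx (.negSucc 5924999999)
(.sx (.negSucc 6387499999)
(.sy (.ofNat 2445643750)
(.lf (.negSucc 619999999) 0)
(.lf (.negSucc 639999999) 0))
(.sy (.ofNat 2445643750)
(.lf (.negSucc 539999999) 0)
(.lf (.negSucc 559999999) 0)))
(.sy (.ofNat 2445643750)
(.sx (.negSucc 5462499999)
(.lf (.negSucc 469999999) 0)
(.lf (.negSucc 399999999) 0))
(.sx (.negSucc 5462499999)
(.lf (.negSucc 489999999) 0)
(.lf (.negSucc 409999999) 0))))
(.sx (.negSucc 5924999999)
(.sx (.negSucc 6387499999)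
(.sy (.ofNat 4998031250)
(.lf (.negSucc 649999999) 0)
(.lf (.negSucc 649999999) 0))
(.sy (.ofNat 4998031250)
(.lf (.negSucc 569999999) 0)
(.lf (.negSucc 569999999) 0)))
(.sx (.negSucc 5462499999)
(.sy (.ofNat 4998031250)
(.lf (.negSucc 489999999) 0)
(.lf (.negSucc 489999999) 0))
(.sy (.ofNat 4998031250)
(.lf (.negSucc 419999999) 0)
(.lf (.negSucc 409999999) 0))))))
(.sx (.negSucc 6849999999)
(.sy (.ofNat 8826612500)
(.sx (.negSucc 7774999999)
(.sy (.ofNat 7550418750)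
(.lf (.negSucc 939999999) 0)
(.lf (.negSucc 919999999) 0))
(.sy (.ofNat 7550418750)
(.lf (.negSucc 769999999) 0)
(.lf (.negSucc 749999999) 0)))
(.sx (.negSucc 7774999999)
(.sy (.ofNat 10102806250)
(.lf (.negSucc 879999999) 0)
(.lf (.negSucc 849999999) 0))
(.sy (.ofNat 10102806250)
(.lf (.negSucc 719999999) 0)
(.lf (.negSucc 689999999) 0))))
(.sy (.ofNat 8826612500)
(.sx (.negSucc 5924999999)
(.sy (.ofNat 7550418750)
(.lf (.negSucc 599999999) 0)
(.lf (.negSucc 579999999) 0))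
(.sy (.ofNat 7550418750)
(.lf (.negSucc 439999999) 0)
(.lf (.negSucc 419999999) 0)))
(.sx (.negSucc 5924999999)
(.sy (.ofNat 10102806250)
(.lf (.negSucc 559999999) 0)
(.lf (.negSucc 539999999) 0))
(.sy (.ofNat 10102806250)
(.lf (.negSucc 409999999) 0)
(.lf (.negSucc 389999999) 0)))))))

theorem run_tr9_0N : Tr.run 0 2 T9.C T9.K0 R9 (.ofNat 5000000000) tr9_0N (.negSucc 8699999999) (.negSucc 4999999999) (.negSucc 9040099999) (.ofNat 11379000000)
    (-100000000000) 100000000000 = true := by decide +kernel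

end Pool.Agent.Helper30.DL
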