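import Pool.Agent.Helper30.DL.Run.C9

/-! MP_b4564f_an, all delays. Cell 9: kernel computations (generated). -/

set_option autoImplicit false
set_option maxRecDepth 100000

namespace Pool.Agent.Helper30.DL

/-- tree -/
def tr9_1A : Tr :=
(.sy (.ofNat 0)
(.sy (.negSucc 4999999999)
(.sy (.negSucc 7499999999)
(.sx (.ofNat 1000000000)
(.lf (.negSucc 7489999999) 0)
(.lf (.negSucc 3589999999) 0))
(.sx (.ofNat 1000000000)
(.lf (.negSucc 9709999999) 0)
(.lf (.negSucc 4569999999) 0)))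
(.sy (.negSucc 2499999999)
(.sx (.ofNat 1000000000)
(.sx (.ofNat 500000000)
(.lf (.negSucc 21339999999) 0)
(.lf (.negSucc 8809999999) 0))
(.lf (.negSucc 5599999999) 0))
(.sx (.ofNat 1000000000)
(.sx (.ofNat 500000000)
(.lf (.negSucc 25529999999) 0)
(.lf (.negSucc 10439999999) 0))
(.lf (.negSucc 6649999999) 0))))
(.sy (.ofNat 5000000000)
(.sx (.ofNat 1000000000)
(.sx (.ofNat 500000000)
(.lf (.ofNat 0) 0)
(.lf (.negSucc 12919999999) 0))
(.sy (.ofNat 2500000000)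
(.lf (.negSucc 7749999999) 0)
(.sx (.ofNat 1500000000)
(.lf (.negSucc 9819999999) 0)
(.lf (.negSucc 8209999999) 0))))
(.sx (.ofNat 1000000000)
(.sx (.ofNat 500000000)
(.lf (.ofNat 0) 0)
(.lf (.negSucc 16299999999) 0))
(.sy (.ofNat 7500000000)
(.sx (.ofNat 1500000000)
(.lf (.negSucc 11069999999) 0)
(.lf (.negSucc 9309999999) 0))
(.sx (.ofNat 1500000000)
(.lf (.negSucc 12339999999) 0)
(.lf (.negSucc 10449999999) 0))))))

theorem run_tr9_1A : Tr.run 1 0 (T9.C.mdA 2000) (T9.K1.shA (w2n 2000 826734910 18775)) R9 (.ofNat 2000000000) tr9_1A (.ofNat 0) (.ofNat 2000000000) (.negSucc 9999999999) (.ofNat 10000000000)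
    (-100000000000) 100000000000 = true := by decide +kernel

/-- tree -/
def tr9_1AA : Tr :=
(.sy (.ofNat 0)
(.sy (.negSucc 4999999999)
(.sy (.negSucc 7499999999)
(.lf (.ofNat 480000000) 0)
(.sx (.negSucc 999999999)
(.lf (.ofNat 20000000) 0)
(.lf (.ofNat 5000000000) 0)))
(.sx (.negSucc 999999999)
(.lf (.ofNat 750000000) 0)
(.sx (.negSucc 499999999)
(.lf (.ofNat 4160000000) 0)
(.lf (.ofNat 17950000000) 0))))
(.sy (.ofNat 5000000000)
(.sx (.negSucc 999999999)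
(.lf (.ofNat 1740000000) 0)
(.sx (.negSucc 499999999)
(.lf (.ofNat 6360000000) 0)
(.sx (.negSucc 249999999)
(.lf (.ofNat 15800000000) 0)
(.lf (.ofNat 0) 0))))
(.sx (.negSucc 999999999)
(.lf (.ofNat 2740000000) 0)
(.sx (.negSucc 499999999)
(.lf (.ofNat 8550000000) 0)
(.lf (.ofNat 0) 0)))))

theorem run_tr9_1AA : Tr.run 1 0 (T9.C.mdA 2000) (T9.K1.shA (w2n 2000 826734910 18775)) R9 (.ofNat 2000000000) tr9_1AA (.negSucc 1999999999) (.ofNat 0) (.negSucc 9999999999) (.ofNat 10000000000)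
    (-100000000000) 100000000000 = true := by decide +kernel

/-- tree -/
def tr9_1B : Tr :=
(.sy (.ofNat 0)
(.sx (.ofNat 5689500000)
(.sy (.negSucc 4999999999)
(.sx (.ofNat 2844750000)
(.sy (.negSucc 7499999999)
(.sx (.ofNat 1422375000)
(.lf (.ofNat 540000000) 0)
(.lf (.negSucc 919999999) 0))
(.sy (.negSucc 6249999999)
(.lf (.negSucc 629999999) 0)
(.lf (.negSucc 799999999) 0)))
(.sy (.negSucc 7030494771)
.ou
(.sx (.ofNat 4267125000)
(.lf (.negSucc 699999999) 0)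
.ou)))
(.sx (.ofNat 2844750000)
(.sy (.negSucc 2499999999)
(.lf (.negSucc 1239999999) 0)
(.lf (.negSucc 2199999999) 0))
(.sy (.negSucc 2499999999)
(.lf (.negSucc 519999999) 1)
(.lf (.negSucc 709999999) 0))))
(.sy (.negSucc 3515247385)
.ou
(.sx (.ofNat 8534250000)
(.sy (.negSucc 1757623692)
(.lf (.negSucc 349999999) 0)
(.lf (.negSucc 479999999) 0))
(.sy (.negSucc 2343498257)
.ou
(.sy (.negSucc 1171749128)
(.lf (.negSucc 299999999) 0)
(.lf (.negSucc 419999999) 0))))))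
(.sy (.ofNat 5000000000)
(.sx (.ofNat 5689500000)
(.sx (.ofNat 2844750000)
(.sy (.ofNat 2500000000)
(.sx (.ofNat 1422375000)
(.lf (.negSucc 6859999999) 0)
(.lf (.negSucc 2489999999) 0))
(.sx (.ofNat 1422375000)
(.sx (.ofNat 711187500)
(.lf (.negSucc 18439999999) 0)
(.lf (.negSucc 6839999999) 0))
(.lf (.negSucc 4029999999) 1)))
(.sy (.ofNat 2500000000)
(.sy (.ofNat 1250000000)
(.lf (.negSucc 1199999999) 0)
(.lf (.negSucc 1709999999) 0))
(.sy (.ofNat 3750000000)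
(.sx (.ofNat 4267125000)
(.lf (.negSucc 2619999999) 0)
(.lf (.negSucc 2259999999) 0))
(.sx (.ofNat 4267125000)
(.lf (.negSucc 3469999999) 0)
(.sy (.ofNat 4686996515)
(.lf (.negSucc 3029999999) 1)
.ou)))))
(.sy (.ofNat 3515247386)
(.sx (.ofNat 8534250000)
(.sy (.ofNat 1757623693)
(.lf (.negSucc 909999999) 1)
(.sy (.ofNat 2636435539)
(.lf (.negSucc 1479999999) 1)
(.sx (.ofNat 7111875000)
(.lf (.negSucc 2049999999) 1)
(.sy (.ofNat 2812197909)
(.lf (.negSucc 1699999999) 0)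
.ou))))
(.sy (.ofNat 2343498258)
(.sy (.ofNat 1171749129)
(.lf (.negSucc 679999999) 1)
(.sx (.ofNat 9956625000)
(.lf (.negSucc 1119999999) 1)
(.sy (.ofNat 2008712792)
(.lf (.negSucc 959999999) 0)
.ou)))
.ou))
.ou))
(.sx (.ofNat 5689500000)
(.sx (.ofNat 2844750000)
(.sx (.ofNat 1422375000)
(.sx (.ofNat 711187500)
(.sx (.ofNat 355593750)
(.lf (.ofNat 0) 0)
(.sy (.ofNat 7500000000)
(.lf (.negSucc 16599999999) 0)
(.lf (.negSucc 20989999999) 0)))
(.sy (.ofNat 7500000000)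
(.lf (.negSucc 9449999999) 0)
(.lf (.negSucc 12529999999) 1)))
(.sy (.ofNat 7500000000)
(.sy (.ofNat 6250000000)
(.lf (.negSucc 5539999999) 0)
(.sx (.ofNat 2133562500)
(.lf (.negSucc 7359999999) 0)
(.lf (.negSucc 6299999999) 0)))
(.sy (.ofNat 8750000000)
(.sx (.ofNat 2133562500)
(.lf (.negSucc 8699999999) 0)
(.lf (.negSucc 7619999999) 0))
(.sx (.ofNat 2133562500)
(.lf (.negSucc 10179999999) 0)
(.sy (.ofNat 9373993029)
(.lf (.negSucc 8709999999) 0)
.ou)))))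
(.sy (.ofNat 7030494772)
(.sy (.ofNat 6015247386)
(.sx (.ofNat 4267125000)
(.lf (.negSucc 4399999999) 1)
.ou)
(.sx (.ofNat 4267125000)
(.sx (.ofNat 3555937500)
(.lf (.negSucc 5479999999) 0)
.ou)
.ou))
.ou))
.ou)))

theorem run_tr9_1B : Tr.run 1 1 (T9.C.mdA 2000) (T9.K1.shA (w2n 2000 826734910 18775)) R9 (.ofNat 2000000000) tr9_1B (.ofNat 0) (.ofNat 11379000000) (.negSucc 9999999999) (.ofNat 10000000000)
    (-100000000000) 100000000000 = true := by decide +kernel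

/-- tree -/
def tr9_1BB : Tr :=
(.sy (.ofNat 0)
(.sy (.negSucc 4999999999)
(.sx (.negSucc 4520049999)
.ou
(.sy (.negSucc 7499999999)
(.sx (.negSucc 2260024999)
(.sy (.negSucc 8849459629)
.ou
(.lf (.negSucc 849999999) 1))
(.sy (.negSucc 8749999999)
(.sx (.negSucc 1130012499)
(.lf (.negSucc 2419999999) 0)
(.lf (.negSucc 4889999999) 0))
(.lf (.negSucc 1989999999) 0)))
(.sx (.negSucc 2260024999)
(.sy (.negSucc 6249999999)
(.lf (.negSucc 459999999) 0)
(.lf (.negSucc 99999999) 0))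
(.lf (.negSucc 449999999) 0))))
(.sx (.negSucc 4520049999)
(.sy (.negSucc 4424729814)
.ou
(.sy (.negSucc 2212364907)
(.sx (.negSucc 6780074999)
(.sy (.negSucc 2949819876)
.ou
(.lf (.ofNat 150000000) 0))
(.lf (.ofNat 250000000) 0))
(.sx (.negSucc 6780074999)
(.lf (.ofNat 270000000) 0)
(.lf (.ofNat 490000000) 0))))
(.sx (.negSucc 2260024999)
(.sy (.negSucc 2499999999)
(.lf (.ofNat 390000000) 0)
(.lf (.ofNat 890000000) 0))
(.sy (.negSucc 2499999999)
(.lf (.ofNat 1330000000) 0)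
(.lf (.ofNat 2780000000) 0)))))
(.sy (.ofNat 5000000000)
(.sx (.negSucc 4520049999)
(.sy (.ofNat 4424729815)
(.sy (.ofNat 2212364907)
(.sx (.negSucc 6780074999)
(.lf (.ofNat 410000000) 0)
(.lf (.ofNat 630000000) 0))
(.sx (.negSucc 6780074999)
(.sy (.ofNat 2949819877)
(.lf (.ofNat 450000000) 0)
.ou)
(.lf (.ofNat 620000000) 0)))
.ou)
(.sx (.negSucc 2260024999)
(.sy (.ofNat 2500000000)
(.lf (.ofNat 1170000000) 0)
(.sx (.negSucc 3390037499)
(.lf (.ofNat 970000000) 0)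
(.lf (.ofNat 1520000000) 0)))
(.sx (.negSucc 1130012499)
(.sy (.ofNat 2500000000)
(.lf (.ofNat 2530000000) 0)
(.lf (.ofNat 2910000000) 0))
(.sy (.ofNat 2500000000)
(.lf (.ofNat 8040000000) 0)
(.lf (.ofNat 10160000000) 0)))))
(.sx (.negSucc 4520049999)
.ou
(.sx (.negSucc 2260024999)
(.sy (.ofNat 8849459630)
(.sy (.ofNat 6924729815)
(.sx (.negSucc 3390037499)
(.sy (.ofNat 5899639754)
(.lf (.ofNat 820000000) 0)
.ou)
(.lf (.ofNat 1370000000) 0))
(.sx (.negSucc 3390037499)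
.ou
(.lf (.ofNat 1080000000) 0)))
.ou)
(.sx (.negSucc 1130012499)
(.sy (.ofNat 7500000000)
(.lf (.ofNat 2990000000) 0)
(.lf (.ofNat 2770000000) 0))
(.sx (.negSucc 565006249)
(.sy (.ofNat 7500000000)
(.lf (.ofNat 7410000000) 0)
(.lf (.ofNat 7980000000) 0))
(.sx (.negSucc 282503124)
(.lf (.ofNat 17680000000) 0)
(.lf (.ofNat 0) 0))))))))

theorem run_tr9_1BB : Tr.run 1 1 (T9.C.mdA 2000) (T9.K1.shA (w2n 2000 826734910 18775)) R9 (.ofNat 2000000000) tr9_1BB (.negSucc 9040099999) (.ofNat 0) (.negSucc 9999999999) (.ofNat 10000000000)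
    (-100000000000) 100000000000 = true := by decide +kernel

/-- tree -/
def tr9_1P : Tr :=
(.sy (.ofNat 1169450000)
(.sy (.negSucc 3935324999)
(.sx (.ofNat 4000000000)
(.sy (.negSucc 6487712499)
(.sx (.ofNat 3000000000)
(.lf (.ofNat 70000000) 0)
(.lf (.ofNat 40000000) 0))
(.sx (.ofNat 3000000000)
(.lf (.ofNat 20000000) 0)
(.lf (.negSucc 39999999) 0)))
(.sy (.negSucc 6487712499)
(.sx (.ofNat 5000000000)
(.lf (.ofNat 60000000) 0)
(.lf (.ofNat 130000000) 0))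
(.sx (.ofNat 5000000000)
(.lf (.negSucc 59999999) 0)
(.lf (.negSucc 29999999) 0))))
(.sx (.ofNat 4000000000)
(.sy (.negSucc 1382937499)
(.sx (.ofNat 3000000000)
(.sy (.negSucc 2659131249)
(.lf (.negSucc 79999999) 0)
(.sx (.ofNat 2500000000)
(.lf (.negSucc 129999999) 0)
(.lf (.negSucc 199999999) 0)))
(.sy (.negSucc 2659131249)
(.lf (.negSucc 179999999) 0)
(.sx (.ofNat 3500000000)
(.lf (.negSucc 269999999) 0)
(.lf (.negSucc 339999999) 0))))
(.sx (.ofNat 3000000000)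
(.sy (.negSucc 106743749)
(.sx (.ofNat 2500000000)
(.sy (.negSucc 744840624)
(.lf (.negSucc 199999999) 0)
(.lf (.negSucc 259999999) 0))
(.lf (.negSucc 319999999) 0))
(.sx (.ofNat 2500000000)
(.sy (.ofNat 531353125)
(.lf (.negSucc 309999999) 0)
(.lf (.negSucc 369999999) 0))
(.sy (.ofNat 531353125)
(.lf (.negSucc 419999999) 0)
(.lf (.negSucc 499999999) 0))))
(.sy (.negSucc 106743749)
(.sx (.ofNat 3500000000)
(.lf (.negSucc 419999999) 0)
(.lf (.negSucc 519999999) 0))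
(.sx (.ofNat 3500000000)
(.sy (.ofNat 531353125)
(.lf (.negSucc 539999999) 0)
(.lf (.negSucc 629999999) 0))
(.lf (.negSucc 719999999) 1)))))
(.sy (.negSucc 1382937499)
(.sx (.ofNat 5000000000)
(.sy (.negSucc 2659131249)
(.lf (.negSucc 249999999) 0)
(.lf (.negSucc 429999999) 0))
(.sy (.negSucc 2659131249)
(.lf (.negSucc 269999999) 0)
(.lf (.negSucc 489999999) 0)))
(.sx (.ofNat 5000000000)
(.sy (.negSucc 106743749)
(.sx (.ofNat 4500000000)
(.lf (.negSucc 609999999) 0)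
(.lf (.negSucc 689999999) 0))
(.sx (.ofNat 4500000000)
(.lf (.negSucc 839999999) 0)
(.lf (.negSucc 949999999) 0)))
(.sy (.negSucc 106743749)
(.lf (.negSucc 749999999) 0)
(.sx (.ofNat 5500000000)
(.lf (.negSucc 1019999999) 0)
(.lf (.negSucc 1039999999) 0)))))))
(.sy (.ofNat 6274225000)
(.sx (.ofNat 4000000000)
(.sy (.ofNat 3721837500)
(.sx (.ofNat 3000000000)
(.sy (.ofNat 2445643750)
(.sx (.ofNat 2500000000)
(.sy (.ofNat 1807546875)
(.lf (.negSucc 439999999) 0)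
(.lf (.negSucc 499999999) 0))
(.sy (.ofNat 1807546875)
(.lf (.negSucc 569999999) 0)
(.lf (.negSucc 649999999) 0)))
(.sx (.ofNat 2500000000)
(.lf (.negSucc 599999999) 0)
(.lf (.negSucc 779999999) 1)))
(.sy (.ofNat 2445643750)
(.sx (.ofNat 3500000000)
(.sy (.ofNat 1807546875)
(.lf (.negSucc 719999999) 0)
(.lf (.negSucc 819999999) 0))
(.sy (.ofNat 1807546875)
(.lf (.negSucc 879999999) 0)
(.lf (.negSucc 999999999) 0)))
(.sx (.ofNat 3500000000)
(.sy (.ofNat 3083740625)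
(.lf (.negSucc 919999999) 0)
(.lf (.negSucc 1019999999) 0))
(.sy (.ofNat 3083740625)
(.lf (.negSucc 1109999999) 0)
(.lf (.negSucc 1219999999) 0)))))
(.sx (.ofNat 3000000000)
(.sy (.ofNat 4998031250)
(.sx (.ofNat 2500000000)
(.lf (.negSucc 739999999) 0)
(.lf (.negSucc 939999999) 0))
(.lf (.negSucc 989999999) 1))
(.sy (.ofNat 4998031250)
(.sx (.ofNat 3500000000)
(.lf (.negSucc 1159999999) 1)
(.lf (.negSucc 1379999999) 1))
(.sx (.ofNat 3500000000)
(.lf (.negSucc 1329999999) 0)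
(.lf (.negSucc 1529999999) 0)))))
(.sy (.ofNat 3721837500)
(.sx (.ofNat 5000000000)
(.sy (.ofNat 2445643750)
(.sx (.ofNat 4500000000)
(.sy (.ofNat 1807546875)
(.lf (.negSucc 1029999999) 0)
(.lf (.negSucc 1159999999) 0))
(.lf (.negSucc 1219999999) 1))
(.sx (.ofNat 4500000000)
(.sy (.ofNat 3083740625)
(.lf (.negSucc 1279999999) 0)
(.lf (.negSucc 1399999999) 0))
(.lf (.negSucc 1469999999) 1)))
(.sy (.ofNat 2445643750)
(.sx (.ofNat 5500000000)
(.lf (.negSucc 1299999999) 0)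
(.lf (.negSucc 1309999999) 0))
(.sx (.ofNat 5500000000)
(.lf (.negSucc 1519999999) 0)
(.lf (.negSucc 1489999999) 0))))
(.sx (.ofNat 5000000000)
(.sy (.ofNat 4998031250)
(.sx (.ofNat 4500000000)
(.sy (.ofNat 4359934375)
(.lf (.negSucc 1499999999) 0)
(.lf (.negSucc 1589999999) 0))
(.lf (.negSucc 1639999999) 1))
(.sx (.ofNat 4500000000)
(.lf (.negSucc 1659999999) 0)
(.lf (.negSucc 1699999999) 0)))
(.sy (.ofNat 4998031250)
(.sx (.ofNat 5500000000)
(.lf (.negSucc 1639999999) 0)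
(.lf (.negSucc 1549999999) 0))
(.sx (.ofNat 5500000000)
(.lf (.negSucc 1629999999) 0)
(.lf (.negSucc 1479999999) 0))))))
(.sx (.ofNat 4000000000)
(.sy (.ofNat 8826612500)
(.sx (.ofNat 3000000000)
(.lf (.negSucc 1169999999) 1)
(.sy (.ofNat 7550418750)
(.lf (.negSucc 1529999999) 1)
(.lf (.negSucc 1529999999) 0)))
(.sy (.ofNat 10102806250)
(.sx (.ofNat 3000000000)
(.lf (.negSucc 1279999999) 0)
(.lf (.negSucc 1469999999) 0))
(.lf (.negSucc 1359999999) 1)))
(.sy (.ofNat 8826612500)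
(.sx (.ofNat 5000000000)
(.sy (.ofNat 7550418750)
(.sx (.ofNat 4500000000)
(.lf (.negSucc 1659999999) 0)
(.lf (.negSucc 1629999999) 0))
(.lf (.negSucc 1519999999) 0))
(.sy (.ofNat 7550418750)
(.lf (.negSucc 1399999999) 1)
(.lf (.negSucc 1159999999) 0)))
(.sx (.ofNat 5000000000)
(.lf (.negSucc 1199999999) 1)
(.lf (.negSucc 709999999) 1))))))

theorem run_tr9_1P : Tr.run 1 2 (T9.C.mdA 2000) (T9.K1.shA (w2n 2000 826734910 18775)) R9 (.ofNat 2000000000) tr9_1P (.ofNat 2000000000) (.ofNat 6000000000) (.negSucc 9040099999) (.ofNat 11379000000)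
    (-100000000000) 100000000000 = true := by decide +kernel

/-- tree -/
def tr9_1N : Tr :=
(.sy (.ofNat 1169450000)
(.sx (.negSucc 5349999999)
(.sy (.negSucc 3935324999)
(.sy (.negSucc 6487712499)
(.sx (.negSucc 7024999999)
(.lf (.negSucc 379999999) 0)
(.lf (.negSucc 59999999) 0))
(.sx (.negSucc 7024999999)
(.sy (.negSucc 5211518749)
(.lf (.negSucc 549999999) 0)
(.lf (.negSucc 639999999) 0))
(.sy (.negSucc 5211518749)
(.lf (.negSucc 229999999) 0)
(.lf (.negSucc 309999999) 0))))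
(.sx (.negSucc 7024999999)
(.sy (.negSucc 1382937499)
(.sy (.negSucc 2659131249)
(.lf (.negSucc 719999999) 0)
(.sx (.negSucc 7862499999)
(.lf (.negSucc 869999999) 0)
(.lf (.negSucc 689999999) 0)))
(.sx (.negSucc 7862499999)
(.sy (.negSucc 106743749)
(.lf (.negSucc 919999999) 0)
(.sx (.negSucc 8281249999)
(.lf (.negSucc 999999999) 0)
(.lf (.negSucc 909999999) 0)))
(.sy (.negSucc 106743749)
(.lf (.negSucc 739999999) 0)
(.lf (.negSucc 779999999) 0))))
(.sy (.negSucc 1382937499)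
(.sx (.negSucc 6187499999)
(.sy (.negSucc 2659131249)
(.lf (.negSucc 459999999) 0)
(.lf (.negSucc 519999999) 0))
(.sy (.negSucc 2659131249)
(.lf (.negSucc 309999999) 0)
(.lf (.negSucc 369999999) 0)))
(.sx (.negSucc 6187499999)
(.sy (.negSucc 106743749)
(.lf (.negSucc 569999999) 0)
(.lf (.negSucc 609999999) 0))
(.sy (.negSucc 106743749)
(.lf (.negSucc 419999999) 0)
(.lf (.negSucc 459999999) 0))))))
(.sy (.negSucc 3935324999)
(.sy (.negSucc 6487712499)
(.sx (.negSucc 3674999999)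
(.sy (.negSucc 7763906249)
(.lf (.ofNat 200000000) 0)
(.lf (.ofNat 100000000) 0))
(.sy (.negSucc 7763906249)
(.lf (.ofNat 290000000) 0)
(.lf (.ofNat 230000000) 0)))
(.sx (.negSucc 3674999999)
(.sy (.negSucc 5211518749)
(.lf (.ofNat 20000000) 0)
(.lf (.negSucc 49999999) 0))
(.sy (.negSucc 5211518749)
(.lf (.ofNat 170000000) 0)
(.sx (.negSucc 2837499999)
(.lf (.ofNat 80000000) 0)
(.lf (.ofNat 140000000) 0)))))
(.sx (.negSucc 3674999999)
(.sy (.negSucc 1382937499)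
(.sx (.negSucc 4512499999)
(.sy (.negSucc 2659131249)
(.lf (.negSucc 179999999) 0)
(.lf (.negSucc 229999999) 0))
(.sy (.negSucc 2659131249)
(.lf (.negSucc 59999999) 0)
(.lf (.negSucc 109999999) 0)))
(.sx (.negSucc 4512499999)
(.sy (.negSucc 106743749)
(.lf (.negSucc 279999999) 0)
(.sx (.negSucc 4931249999)
(.lf (.negSucc 349999999) 0)
(.lf (.negSucc 279999999) 0)))
(.sy (.negSucc 106743749)
(.sx (.negSucc 4093749999)
(.lf (.negSucc 189999999) 0)
(.lf (.negSucc 129999999) 0))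
(.sx (.negSucc 4093749999)
(.lf (.negSucc 219999999) 0)
(.lf (.negSucc 169999999) 0)))))
(.sy (.negSucc 1382937499)
(.sx (.negSucc 2837499999)
(.sy (.negSucc 2659131249)
(.lf (.ofNat 30000000) 0)
(.lf (.negSucc 19999999) 0))
(.sy (.negSucc 2659131249)
(.lf (.ofNat 90000000) 0)
(.sx (.negSucc 2418749999)
(.lf (.ofNat 30000000) 0)
(.lf (.ofNat 60000000) 0))))
(.sx (.negSucc 2837499999)
(.sy (.negSucc 106743749)
(.sx (.negSucc 3256249999)
(.lf (.negSucc 79999999) 0)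
(.lf (.negSucc 39999999) 0))
(.sx (.negSucc 3256249999)
(.lf (.negSucc 119999999) 0)
(.lf (.negSucc 79999999) 0)))
(.sy (.negSucc 106743749)
(.sx (.negSucc 2418749999)
(.lf (.negSucc 9999999) 0)
(.sy (.negSucc 744840624)
(.lf (.ofNat 30000000) 0)
(.lf (.ofNat 10000000) 0)))
(.sx (.negSucc 2418749999)
(.lf (.negSucc 39999999) 0)
(.lf (.negSucc 9999999) 0))))))))
(.sx (.negSucc 5349999999)
(.sy (.ofNat 6274225000)
(.sx (.negSucc 7024999999)
(.sy (.ofNat 3721837500)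
(.sx (.negSucc 7862499999)
(.sy (.ofNat 2445643750)
(.sx (.negSucc 8281249999)
(.sx (.negSucc 8490624999)
(.lf (.negSucc 1049999999) 0)
(.lf (.negSucc 1009999999) 0))
(.lf (.negSucc 939999999) 0))
(.sx (.negSucc 8281249999)
(.sx (.negSucc 8490624999)
(.sy (.ofNat 3083740625)
(.lf (.negSucc 1069999999) 0)
(.lf (.negSucc 1069999999) 0))
(.lf (.negSucc 1029999999) 0))
(.lf (.negSucc 959999999) 0)))
(.sx (.negSucc 7443749999)
(.sy (.ofNat 2445643750)
(.lf (.negSucc 849999999) 0)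
(.lf (.negSucc 869999999) 0))
(.sy (.ofNat 2445643750)
(.lf (.negSucc 769999999) 0)
(.lf (.negSucc 789999999) 0))))
(.sx (.negSucc 7862499999)
(.sx (.negSucc 8281249999)
(.sy (.ofNat 4998031250)
(.sx (.negSucc 8490624999)
(.sy (.ofNat 4359934375)
(.lf (.negSucc 1079999999) 0)
(.lf (.negSucc 1079999999) 0))
(.lf (.negSucc 1029999999) 0))
(.sx (.negSucc 8490624999)
(.lf (.negSucc 1069999999) 0)
(.lf (.negSucc 1029999999) 0)))
(.sy (.ofNat 4998031250)
(.lf (.negSucc 969999999) 0)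
(.lf (.negSucc 969999999) 0)))
(.sy (.ofNat 4998031250)
(.sx (.negSucc 7443749999)
(.lf (.negSucc 889999999) 0)
(.lf (.negSucc 799999999) 0))
(.lf (.negSucc 849999999) 0))))
(.sy (.ofNat 3721837500)
(.sx (.negSucc 6187499999)
(.sx (.negSucc 6606249999)
(.sy (.ofNat 2445643750)
(.lf (.negSucc 679999999) 0)
(.lf (.negSucc 709999999) 0))
(.sy (.ofNat 2445643750)
(.lf (.negSucc 599999999) 0)
(.lf (.negSucc 629999999) 0)))
(.sy (.ofNat 2445643750)
(.lf (.negSucc 489999999) 0)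
(.lf (.negSucc 509999999) 0)))
(.sx (.negSucc 6187499999)
(.sy (.ofNat 4998031250)
(.lf (.negSucc 679999999) 0)
(.lf (.negSucc 689999999) 0))
(.sy (.ofNat 4998031250)
(.lf (.negSucc 529999999) 0)
(.lf (.negSucc 539999999) 0)))))
(.sx (.negSucc 7024999999)
(.sy (.ofNat 8826612500)
(.sx (.negSucc 7862499999)
(.sy (.ofNat 7550418750)
(.sx (.negSucc 8281249999)
(.lf (.negSucc 1039999999) 0)
(.lf (.negSucc 959999999) 0))
(.lf (.negSucc 979999999) 0))
(.sy (.ofNat 7550418750)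
(.lf (.negSucc 839999999) 0)
(.lf (.negSucc 829999999) 0)))
(.sy (.ofNat 10102806250)
(.sx (.negSucc 7862499999)
(.lf (.negSucc 959999999) 0)
(.lf (.negSucc 819999999) 0))
(.lf (.negSucc 859999999) 0)))
(.sy (.ofNat 8826612500)
(.sx (.negSucc 6187499999)
(.lf (.negSucc 689999999) 0)
(.lf (.negSucc 549999999) 0))
(.sy (.ofNat 10102806250)
(.lf (.negSucc 619999999) 0)
(.lf (.negSucc 619999999) 0)))))
(.sy (.ofNat 6274225000)
(.sx (.negSucc 3674999999)
(.sy (.ofNat 3721837500)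
(.sx (.negSucc 4512499999)
(.sy (.ofNat 2445643750)
(.lf (.negSucc 349999999) 0)
(.lf (.negSucc 369999999) 0))
(.sy (.ofNat 2445643750)
(.sx (.negSucc 4093749999)
(.lf (.negSucc 249999999) 0)
(.lf (.negSucc 199999999) 0))
(.lf (.negSucc 249999999) 0)))
(.sx (.negSucc 4512499999)
(.sy (.ofNat 4998031250)
(.lf (.negSucc 389999999) 0)
(.lf (.negSucc 409999999) 0))
(.sy (.ofNat 4998031250)
(.lf (.negSucc 269999999) 0)
(.lf (.negSucc 289999999) 0))))
(.sy (.ofNat 3721837500)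
(.sx (.negSucc 2837499999)
(.sy (.ofNat 2445643750)
(.sx (.negSucc 3256249999)
(.lf (.negSucc 149999999) 0)
(.lf (.negSucc 109999999) 0))
(.lf (.negSucc 159999999) 0))
(.sy (.ofNat 2445643750)
(.sx (.negSucc 2418749999)
(.lf (.negSucc 69999999) 0)
(.lf (.negSucc 49999999) 0))
(.lf (.negSucc 89999999) 0)))
(.sy (.ofNat 4998031250)
(.sx (.negSucc 2837499999)
(.lf (.negSucc 179999999) 0)
(.lf (.negSucc 119999999) 0))
(.lf (.negSucc 169999999) 0))))
(.sy (.ofNat 8826612500)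
(.sx (.negSucc 3674999999)
(.sy (.ofNat 7550418750)
(.lf (.negSucc 359999999) 0)
(.lf (.negSucc 379999999) 0))
(.lf (.negSucc 209999999) 0))
(.sx (.negSucc 3674999999)
(.lf (.negSucc 409999999) 0)
(.lf (.negSucc 289999999) 0))))))

theorem run_tr9_1N : Tr.run 1 2 (T9.C.mdA 2000) (T9.K1.shA (w2n 2000 826734910 18775)) R9 (.ofNat 2000000000) tr9_1N (.negSucc 8699999999) (.negSucc 1999999999) (.negSucc 9040099999) (.ofNat 11379000000)
    (-100000000000) 100000000000 = true := by decide +kernel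

/-- tree -/
def br9 : Tr :=
(.sy (.ofNat 1169450000)
(.sz (.negSucc 214149999)
(.sy (.negSucc 3935324999)
(.sx (.negSucc 1349999999)
(.lf (.ofNat 0) 0)
(.lf (.ofNat 0) 0))
(.lf (.ofNat 0) 0))
(.sy (.negSucc 3935324999)
(.sx (.negSucc 1349999999)
(.lf (.ofNat 0) 0)
(.lf (.ofNat 0) 0))
(.lf (.ofNat 0) 0)))
(.sz (.negSucc 214149999)
(.lf (.ofNat 0) 0)
(.lf (.ofNat 0) 0)))

theorem run_br9 : Tr.runB T9.C T9.K0 (D9.bt * 2000 / 10000 + 1) R9.om br9 (-D9.m) D9.M D9.ylo D9.yhi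
    (-R9.bl) R9.bh = true := by decide +kernel

end Pool.Agent.Helper30.DL
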