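import Pool.Agent.Helper30.DL.Run.C3T
import Pool.Agent.Helper30.DL.Run.C3M0
import Pool.Agent.Helper30.DL.Run.C3M1
import Pool.Agent.Helper30.DL.Run.C4T
import Pool.Agent.Helper30.DL.Run.C4M0
import Pool.Agent.Helper30.DL.Run.C4M1
import Pool.Agent.Helper30.DL.Run.C5T
import Pool.Agent.Helper30.DL.Run.C5M0
import Pool.Agent.Helper30.DL.Run.C5M1
import Pool.Agent.Helper30.DL.Run.C6T
import Pool.Agent.Helper30.DL.Run.C6M0
import Pool.Agent.Helper30.DL.Run.C6M1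
import Pool.Agent.Helper30.DL.Run.C7T
import Pool.Agent.Helper30.DL.Run.C7M0
import Pool.Agent.Helper30.DL.Run.C7M1
import Pool.Agent.Helper30.DL.Run.C8T
import Pool.Agent.Helper30.DL.Run.C8M0
import Pool.Agent.Helper30.DL.Run.C8M1
import Pool.Agent.Helper30.DL.Run.C9T
import Pool.Agent.Helper30.DL.Run.C9M0
import Pool.Agent.Helper30.DL.Run.C9M1
import Pool.Agent.Helper30.DL.Run.C11T
import Pool.Agent.Helper30.DL.Run.C11M0
import Pool.Agent.Helper30.DL.Run.C11M1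
import Pool.Agent.Helper30.DL.Run.C14T
import Pool.Agent.Helper30.DL.Run.C14M0
import Pool.Agent.Helper30.DL.Run.C14M1
import Pool.Agent.Helper30.DL.Run.C19T
import Pool.Agent.Helper30.DL.Run.C19M0
import Pool.Agent.Helper30.DL.Run.C19M1
import Pool.Agent.Helper30.DL.Run.C31T
import Pool.Agent.Helper30.DL.Run.C31M0
import Pool.Agent.Helper30.DL.Run.C31M1
import Pool.Agent.Helper30.DL.Run.C61T
import Pool.Agent.Helper30.DL.Run.C61M0
import Pool.Agent.Helper30.DL.Run.C61M1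
import Pool.Agent.Helper30.DL.Run.C121T
import Pool.Agent.Helper30.DL.Run.C121M0
import Pool.Agent.Helper30.DL.Run.C121M1
import Pool.Agent.Helper30.DL.GoalsD

/-! MP_b4564f_an, all delays. The cells (generated). -/

set_option autoImplicit false
set_option maxRecDepth 100000

namespace Pool.Agent.Helper30.DL

theorem six0_3 : Six 0 T3.C T3.K0 R3 D3 5000000000 where
  h0 := by constructor <;> norm_num
  A := ⟨_, run_tr3_0A⟩
  a := ⟨_, run_tr3_0AA⟩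
  B := ⟨_, run_tr3_0B⟩
  b := ⟨_, run_tr3_0BB⟩
  P := ⟨_, run_tr3_0P⟩
  N := ⟨_, run_tr3_0N⟩

theorem six1_3 : Six 1 (T3.C.mdA 2000) (T3.K1.shA (w2n 2000 2243994754 22182)) R3 D3 3500000000 where
  h0 := by constructor <;> norm_num
  A := ⟨_, run_tr3_1A⟩
  a := ⟨_, run_tr3_1AA⟩
  B := ⟨_, run_tr3_1B⟩
  b := ⟨_, run_tr3_1BB⟩
  P := ⟨_, run_tr3_1P⟩
  N := ⟨_, run_tr3_1N⟩

theorem cr3 : CellRun P3 2000 2243994751 2243994754 1 22182 T3 R3 D3 5000000000 3500000000 where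
  tbl := tbl3
  c80 := rfl
  c81 := rfl
  sc := sc3
  six0 := six0_3
  six1 := six1_3
  br := ⟨_, run_br3⟩
  ok := by decide +kernel

theorem six0_4 : Six 0 T4.C T4.K0 R4 D4 5000000000 where
  h0 := by constructor <;> norm_num
  A := ⟨_, run_tr4_0A⟩
  a := ⟨_, run_tr4_0AA⟩
  B := ⟨_, run_tr4_0B⟩
  b := ⟨_, run_tr4_0BB⟩
  P := ⟨_, run_tr4_0P⟩
  N := ⟨_, run_tr4_0N⟩

theorem six1_4 : Six 1 (T4.C.mdA 2000) (T4.K1.shA (w2n 2000 1745329253 20974)) R4 D4 4500000000 where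
  h0 := by constructor <;> norm_num
  A := ⟨_, run_tr4_1A⟩
  a := ⟨_, run_tr4_1AA⟩
  B := ⟨_, run_tr4_1B⟩
  b := ⟨_, run_tr4_1BB⟩
  P := ⟨_, run_tr4_1P⟩
  N := ⟨_, run_tr4_1N⟩

theorem cr4 : CellRun P4 2000 1745329250 1745329253 1 20974 T4 R4 D4 5000000000 4500000000 where
  tbl := tbl4
  c80 := rfl
  c81 := rfl
  sc := sc4
  six0 := six0_4
  six1 := six1_4
  br := ⟨_, run_br4⟩
  ok := by decide +kernel

theorem six0_5 : Six 0 T5.C T5.K0 R5 D5 5000000000 where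
  h0 := by constructor <;> norm_num
  A := ⟨_, run_tr5_0A⟩
  a := ⟨_, run_tr5_0AA⟩
  B := ⟨_, run_tr5_0B⟩
  b := ⟨_, run_tr5_0BB⟩
  P := ⟨_, run_tr5_0P⟩
  N := ⟨_, run_tr5_0N⟩

theorem six1_5 : Six 1 (T5.C.mdA 2000) (T5.K1.shA (w2n 2000 1427996662 20061)) R5 D5 3500000000 where
  h0 := by constructor <;> norm_num
  A := ⟨_, run_tr5_1A⟩
  a := ⟨_, run_tr5_1AA⟩
  B := ⟨_, run_tr5_1B⟩
  b := ⟨_, run_tr5_1BB⟩
  P := ⟨_, run_tr5_1P⟩
  N := ⟨_, run_tr5_1N⟩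

theorem cr5 : CellRun P5 2000 1427996659 1427996662 1 20061 T5 R5 D5 5000000000 3500000000 where
  tbl := tbl5
  c80 := rfl
  c81 := rfl
  sc := sc5
  six0 := six0_5
  six1 := six1_5
  br := ⟨_, run_br5⟩
  ok := by decide +kernel

theorem six0_6 : Six 0 T6.C T6.K0 R6 D6 5000000000 where
  h0 := by constructor <;> norm_num
  A := ⟨_, run_tr6_0A⟩
  a := ⟨_, run_tr6_0AA⟩
  B := ⟨_, run_tr6_0B⟩
  b := ⟨_, run_tr6_0BB⟩
  P := ⟨_, run_tr6_0P⟩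
  N := ⟨_, run_tr6_0N⟩

theorem six1_6 : Six 1 (T6.C.mdA 2000) (T6.K1.shA (w2n 2000 1208304868 19840)) R6 D6 3500000000 where
  h0 := by constructor <;> norm_num
  A := ⟨_, run_tr6_1A⟩
  a := ⟨_, run_tr6_1AA⟩
  B := ⟨_, run_tr6_1B⟩
  b := ⟨_, run_tr6_1BB⟩
  P := ⟨_, run_tr6_1P⟩
  N := ⟨_, run_tr6_1N⟩

theorem cr6 : CellRun P6 2000 1208304865 1208304868 1 19840 T6 R6 D6 5000000000 3500000000 where
  tbl := tbl6
  c80 := rfl
  c81 := rfl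
  sc := sc6
  six0 := six0_6
  six1 := six1_6
  br := ⟨_, run_br6⟩
  ok := by decide +kernel

theorem six0_7 : Six 0 T7.C T7.K0 R7 D7 5000000000 where
  h0 := by constructor <;> norm_num
  A := ⟨_, run_tr7_0A⟩
  a := ⟨_, run_tr7_0AA⟩
  B := ⟨_, run_tr7_0B⟩
  b := ⟨_, run_tr7_0BB⟩
  P := ⟨_, run_tr7_0P⟩
  N := ⟨_, run_tr7_0N⟩

theorem six1_7 : Six 1 (T7.C.mdA 2000) (T7.K1.shA (w2n 2000 1047197553 19406)) R7 D7 2000000000 where
  h0 := by constructor <;> norm_num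
  A := ⟨_, run_tr7_1A⟩
  a := ⟨_, run_tr7_1AA⟩
  B := ⟨_, run_tr7_1B⟩
  b := ⟨_, run_tr7_1BB⟩
  P := ⟨_, run_tr7_1P⟩
  N := ⟨_, run_tr7_1N⟩

theorem cr7 : CellRun P7 2000 1047197550 1047197553 1 19406 T7 R7 D7 5000000000 2000000000 where
  tbl := tbl7
  c80 := rfl
  c81 := rfl
  sc := sc7
  six0 := six0_7
  six1 := six1_7
  br := ⟨_, run_br7⟩
  ok := by decide +kernel

theorem six0_8 : Six 0 T8.C T8.K0 R8 D8 5000000000 where
  h0 := by constructor <;> norm_num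
  A := ⟨_, run_tr8_0A⟩
  a := ⟨_, run_tr8_0AA⟩
  B := ⟨_, run_tr8_0B⟩
  b := ⟨_, run_tr8_0BB⟩
  P := ⟨_, run_tr8_0P⟩
  N := ⟨_, run_tr8_0N⟩

theorem six1_8 : Six 1 (T8.C.mdA 2000) (T8.K1.shA (w2n 2000 923997841 19193)) R8 D8 2000000000 where
  h0 := by constructor <;> norm_num
  A := ⟨_, run_tr8_1A⟩
  a := ⟨_, run_tr8_1AA⟩
  B := ⟨_, run_tr8_1B⟩
  b := ⟨_, run_tr8_1BB⟩
  P := ⟨_, run_tr8_1P⟩
  N := ⟨_, run_tr8_1N⟩

theorem cr8 : CellRun P8 2000 923997838 923997841 1 19193 T8 R8 D8 5000000000 2000000000 where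
  tbl := tbl8
  c80 := rfl
  c81 := rfl
  sc := sc8
  six0 := six0_8
  six1 := six1_8
  br := ⟨_, run_br8⟩
  ok := by decide +kernel

theorem six0_9 : Six 0 T9.C T9.K0 R9 D9 5000000000 where
  h0 := by constructor <;> norm_num
  A := ⟨_, run_tr9_0A⟩
  a := ⟨_, run_tr9_0AA⟩
  B := ⟨_, run_tr9_0B⟩
  b := ⟨_, run_tr9_0BB⟩
  P := ⟨_, run_tr9_0P⟩
  N := ⟨_, run_tr9_0N⟩

theorem six1_9 : Six 1 (T9.C.mdA 2000) (T9.K1.shA (w2n 2000 826734910 18775)) R9 D9 2000000000 where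
  h0 := by constructor <;> norm_num
  A := ⟨_, run_tr9_1A⟩
  a := ⟨_, run_tr9_1AA⟩
  B := ⟨_, run_tr9_1B⟩
  b := ⟨_, run_tr9_1BB⟩
  P := ⟨_, run_tr9_1P⟩
  N := ⟨_, run_tr9_1N⟩

theorem cr9 : CellRun P9 2000 747998249 826734910 64 18775 T9 R9 D9 5000000000 2000000000 where
  tbl := tbl9
  c80 := rfl
  c81 := rfl
  sc := sc9
  six0 := six0_9
  six1 := six1_9
  br := ⟨_, run_br9⟩
  ok := by decide +kernel

theorem six0_11 : Six 0 T11.C T11.K0 R11 D11 5000000000 where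
  h0 := by constructor <;> norm_num
  A := ⟨_, run_tr11_0A⟩
  a := ⟨_, run_tr11_0AA⟩
  B := ⟨_, run_tr11_0B⟩
  b := ⟨_, run_tr11_0BB⟩
  P := ⟨_, run_tr11_0P⟩
  N := ⟨_, run_tr11_0N⟩

theorem six1_11 : Six 1 (T11.C.mdA 2000) (T11.K1.shA (w2n 2000 682954926 18367)) R11 D11 1500000000 where
  h0 := by constructor <;> norm_num
  A := ⟨_, run_tr11_1A⟩
  a := ⟨_, run_tr11_1AA⟩
  B := ⟨_, run_tr11_1B⟩
  b := ⟨_, run_tr11_1BB⟩
  P := ⟨_, run_tr11_1P⟩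
  N := ⟨_, run_tr11_1N⟩

theorem cr11 : CellRun P11 2000 581776416 682954926 64 18367 T11 R11 D11 5000000000 1500000000 where
  tbl := tbl11
  c80 := rfl
  c81 := rfl
  sc := sc11
  six0 := six0_11
  six1 := six1_11
  br := ⟨_, run_br11⟩
  ok := by decide +kernel

theorem six0_14 : Six 0 T14.C T14.K0 R14 D14 5000000000 where
  h0 := by constructor <;> norm_num
  A := ⟨_, run_tr14_0A⟩
  a := ⟨_, run_tr14_0AA⟩
  B := ⟨_, run_tr14_0B⟩
  b := ⟨_, run_tr14_0BB⟩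
  P := ⟨_, run_tr14_0P⟩
  N := ⟨_, run_tr14_0N⟩

theorem six1_14 : Six 1 (T14.C.mdA 2000) (T14.K1.shA (w2n 2000 541653907 18068)) R14 D14 2000000000 where
  h0 := by constructor <;> norm_num
  A := ⟨_, run_tr14_1A⟩
  a := ⟨_, run_tr14_1AA⟩
  B := ⟨_, run_tr14_1B⟩
  b := ⟨_, run_tr14_1BB⟩
  P := ⟨_, run_tr14_1P⟩
  N := ⟨_, run_tr14_1N⟩

theorem cr14 : CellRun P14 2000 424539546 541653907 64 18068 T14 R14 D14 5000000000 2000000000 where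
  tbl := tbl14
  c80 := rfl
  c81 := rfl
  sc := sc14
  six0 := six0_14
  six1 := six1_14
  br := ⟨_, run_br14⟩
  ok := by decide +kernel

theorem six0_19 : Six 0 T19.C T19.K0 R19 D19 5000000000 where
  h0 := by constructor <;> norm_num
  A := ⟨_, run_tr19_0A⟩
  a := ⟨_, run_tr19_0AA⟩
  B := ⟨_, run_tr19_0B⟩
  b := ⟨_, run_tr19_0BB⟩
  P := ⟨_, run_tr19_0P⟩
  N := ⟨_, run_tr19_0N⟩

theorem six1_19 : Six 1 (T19.C.mdA 1500) (T19.K1.shA (w2n 1500 402768290 17774)) R19 D19 2000000000 where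
  h0 := by constructor <;> norm_num
  A := ⟨_, run_tr19_1A⟩
  a := ⟨_, run_tr19_1AA⟩
  B := ⟨_, run_tr19_1B⟩
  b := ⟨_, run_tr19_1BB⟩
  P := ⟨_, run_tr19_1P⟩
  N := ⟨_, run_tr19_1N⟩

theorem cr19 : CellRun P19 1500 257507593 402768290 64 17774 T19 R19 D19 5000000000 2000000000 where
  tbl := tbl19
  c80 := rfl
  c81 := rfl
  sc := sc19
  six0 := six0_19
  six1 := six1_19
  br := ⟨_, run_br19⟩
  ok := by decide +kernel

theorem six0_31 : Six 0 T31.C T31.K0 R31 D31 5000000000 where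
  h0 := by constructor <;> norm_num
  A := ⟨_, run_tr31_0A⟩
  a := ⟨_, run_tr31_0AA⟩
  B := ⟨_, run_tr31_0B⟩
  b := ⟨_, run_tr31_0BB⟩
  P := ⟨_, run_tr31_0P⟩
  N := ⟨_, run_tr31_0N⟩

theorem six1_31 : Six 1 (T31.C.mdA 1500) (T31.K1.shA (w2n 1500 249332752 17391)) R31 D31 1500000000 where
  h0 := by constructor <;> norm_num
  A := ⟨_, run_tr31_1A⟩
  a := ⟨_, run_tr31_1AA⟩
  B := ⟨_, run_tr31_1B⟩
  b := ⟨_, run_tr31_1BB⟩
  P := ⟨_, run_tr31_1P⟩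
  N := ⟨_, run_tr31_1N⟩

theorem cr31 : CellRun P31 1500 129817877 249332752 64 17391 T31 R31 D31 5000000000 1500000000 where
  tbl := tbl31
  c80 := rfl
  c81 := rfl
  sc := sc31
  six0 := six0_31
  six1 := six1_31
  br := ⟨_, run_br31⟩
  ok := by decide +kernel

theorem six0_61 : Six 0 T61.C T61.K0 R61 D61 5000000000 where
  h0 := by constructor <;> norm_num
  A := ⟨_, run_tr61_0A⟩
  a := ⟨_, run_tr61_0AA⟩
  B := ⟨_, run_tr61_0B⟩
  b := ⟨_, run_tr61_0BB⟩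
  P := ⟨_, run_tr61_0P⟩
  N := ⟨_, run_tr61_0N⟩

theorem six1_61 : Six 1 (T61.C.mdA 1500) (T61.K1.shA (w2n 1500 127707020 17391)) R61 D61 1500000000 where
  h0 := by constructor <;> norm_num
  A := ⟨_, run_tr61_1A⟩
  a := ⟨_, run_tr61_1AA⟩
  B := ⟨_, run_tr61_1B⟩
  b := ⟨_, run_tr61_1BB⟩
  P := ⟨_, run_tr61_1P⟩
  N := ⟨_, run_tr61_1N⟩

theorem cr61 : CellRun P61 1500 65178269 127707020 64 17391 T61 R61 D61 5000000000 1500000000 where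
  tbl := tbl61
  c80 := rfl
  c81 := rfl
  sc := sc61
  six0 := six0_61
  six1 := six1_61
  br := ⟨_, run_br61⟩
  ok := by decide +kernel

theorem six0_121 : Six 0 T121.C T121.K0 R121 D121 5000000000 where
  h0 := by constructor <;> norm_num
  A := ⟨_, run_tr121_0A⟩
  a := ⟨_, run_tr121_0AA⟩
  B := ⟨_, run_tr121_0B⟩
  b := ⟨_, run_tr121_0BB⟩
  P := ⟨_, run_tr121_0P⟩
  N := ⟨_, run_tr121_0N⟩

theorem six1_121 : Six 1 (T121.C.mdA 1500) (T121.K1.shA (w2n 1500 64641826 17391)) R121 D121 1500000000 where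
  h0 := by constructor <;> norm_num
  A := ⟨_, run_tr121_1A⟩
  a := ⟨_, run_tr121_1AA⟩
  B := ⟨_, run_tr121_1B⟩
  b := ⟨_, run_tr121_1BB⟩
  P := ⟨_, run_tr121_1P⟩
  N := ⟨_, run_tr121_1N⟩

theorem cr121 : CellRun P121 1500 0 64641826 64 17391 T121 R121 D121 5000000000 1500000000 where
  tbl := tbl121
  c80 := rfl
  c81 := rfl
  sc := sc121
  six0 := six0_121
  six1 := six1_121
  br := ⟨_, run_br121⟩
  ok := by decide +kernel

end Pool.Agent.Helper30.DL
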