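import Pool.Agent.Helper30.DL.Run.C11

/-! MP_b4564f_an, all delays. Cell 11: kernel computations (generated). -/

set_option autoImplicit false
set_option maxRecDepth 100000

namespace Pool.Agent.Helper30.DL

/-- tree -/
def tr11_1A : Tr :=
(.sy (.ofNat 0)
(.sy (.negSucc 4999999999)
(.sy (.negSucc 7499999999)
(.lf (.negSucc 5369999999) 0)
(.sx (.ofNat 750000000)
(.lf (.negSucc 11759999999) 0)
(.lf (.negSucc 5439999999) 0)))
(.sy (.negSucc 2499999999)
(.sx (.ofNat 750000000)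
(.lf (.negSucc 14829999999) 0)
(.lf (.negSucc 6739999999) 0))
(.sx (.ofNat 750000000)
(.sx (.ofNat 375000000)
(.lf (.ofNat 0) 0)
(.lf (.negSucc 12999999999) 0))
(.lf (.negSucc 8069999999) 0))))
(.sy (.ofNat 5000000000)
(.sx (.ofNat 750000000)
(.sx (.ofNat 375000000)
(.lf (.ofNat 0) 0)
(.lf (.negSucc 16319999999) 0))
(.lf (.negSucc 10129999999) 1))
(.sx (.ofNat 750000000)
(.sx (.ofNat 375000000)
(.lf (.ofNat 0) 0)
(.lf (.negSucc 20809999999) 0))
(.sy (.ofNat 7500000000)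
(.lf (.negSucc 12269999999) 0)
(.lf (.negSucc 13729999999) 0)))))

theorem run_tr11_1A : Tr.run 1 0 (T11.C.mdA 2000) (T11.K1.shA (w2n 2000 682954926 18367)) R11 (.ofNat 1500000000) tr11_1A (.ofNat 0) (.ofNat 1500000000) (.negSucc 9999999999) (.ofNat 10000000000)
    (-100000000000) 100000000000 = true := by decide +kernel

/-- tree -/
def tr11_1AA : Tr :=
(.sy (.ofNat 0)
(.sy (.negSucc 4999999999)
(.sy (.negSucc 7499999999)
(.lf (.ofNat 830000000) 0)
(.lf (.ofNat 1990000000) 0))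
(.sx (.negSucc 749999999)
(.lf (.ofNat 1510000000) 0)
(.lf (.ofNat 10410000000) 0)))
(.sy (.ofNat 5000000000)
(.sx (.negSucc 749999999)
(.lf (.ofNat 2960000000) 0)
(.sx (.negSucc 374999999)
(.lf (.ofNat 9140000000) 0)
(.lf (.ofNat 0) 0)))
(.sx (.negSucc 749999999)
(.lf (.ofNat 4420000000) 0)
(.sx (.negSucc 374999999)
(.lf (.ofNat 12320000000) 0)
(.lf (.ofNat 0) 0)))))

theorem run_tr11_1AA : Tr.run 1 0 (T11.C.mdA 2000) (T11.K1.shA (w2n 2000 682954926 18367)) R11 (.ofNat 1500000000) tr11_1AA (.negSucc 1499999999) (.ofNat 0) (.negSucc 9999999999) (.ofNat 10000000000)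
    (-100000000000) 100000000000 = true := by decide +kernel

/-- tree -/
def tr11_1B : Tr :=
(.sy (.ofNat 0)
(.sx (.ofNat 5554650000)
(.sy (.negSucc 4999999999)
(.sy (.negSucc 7499999999)
(.sx (.ofNat 2777325000)
(.sx (.ofNat 1388662500)
(.lf (.ofNat 20000000) 0)
(.lf (.negSucc 1189999999) 0))
.ou)
(.sx (.ofNat 2777325000)
(.sx (.ofNat 1388662500)
(.lf (.negSucc 1179999999) 0)
(.lf (.negSucc 899999999) 0))
(.sy (.negSucc 5400880343)
.ou
(.lf (.negSucc 689999999) 0))))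
(.sx (.ofNat 2777325000)
(.sy (.negSucc 2499999999)
(.lf (.negSucc 1469999999) 0)
(.lf (.negSucc 2419999999) 0))
(.sy (.negSucc 2499999999)
(.sx (.ofNat 4165987500)
(.lf (.negSucc 679999999) 0)
(.sy (.negSucc 3600586895)
.ou
(.lf (.negSucc 519999999) 0)))
(.lf (.negSucc 789999999) 0))))
(.sy (.negSucc 2700440171)
.ou
(.sx (.ofNat 8331975000)
(.sy (.negSucc 1350220085)
(.lf (.negSucc 399999999) 0)
(.lf (.negSucc 569999999) 0))
(.sy (.negSucc 1800293447)
.ou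
(.lf (.negSucc 419999999) 1)))))
(.sy (.ofNat 5000000000)
(.sx (.ofNat 5554650000)
(.sx (.ofNat 2777325000)
(.sy (.ofNat 2500000000)
(.sx (.ofNat 1388662500)
(.lf (.negSucc 7359999999) 0)
(.lf (.negSucc 2689999999) 0))
(.sx (.ofNat 1388662500)
(.sx (.ofNat 694331250)
(.lf (.negSucc 19509999999) 0)
(.lf (.negSucc 7279999999) 0))
(.sy (.ofNat 3750000000)
(.lf (.negSucc 3869999999) 0)
(.lf (.negSucc 4839999999) 0))))
(.sy (.ofNat 2500000000)
(.sy (.ofNat 1250000000)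
(.lf (.negSucc 1309999999) 0)
(.lf (.negSucc 1879999999) 1))
(.sy (.ofNat 3750000000)
(.sx (.ofNat 4165987500)
(.lf (.negSucc 2859999999) 0)
(.sy (.ofNat 3600586896)
(.lf (.negSucc 2469999999) 1)
.ou))
(.sx (.ofNat 4165987500)
(.lf (.negSucc 3809999999) 1)
.ou))))
(.sy (.ofNat 2700440172)
(.sx (.ofNat 8331975000)
(.sy (.ofNat 1350220086)
(.lf (.negSucc 949999999) 1)
(.sy (.ofNat 2025330129)
(.lf (.negSucc 1409999999) 1)
(.sx (.ofNat 6943312500)
(.lf (.negSucc 1859999999) 1)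
(.sy (.ofNat 2160352138)
(.lf (.negSucc 1599999999) 0)
.ou))))
(.sy (.ofNat 1800293448)
(.sy (.ofNat 900146724)
(.lf (.negSucc 749999999) 1)
(.lf (.negSucc 1109999999) 1))
.ou))
.ou))
(.sx (.ofNat 5554650000)
(.sx (.ofNat 2777325000)
(.sx (.ofNat 1388662500)
(.sx (.ofNat 694331250)
(.sx (.ofNat 347165625)
(.lf (.ofNat 0) 0)
(.sy (.ofNat 7500000000)
(.lf (.negSucc 17489999999) 0)
(.lf (.negSucc 22059999999) 0)))
(.sy (.ofNat 7500000000)
(.lf (.negSucc 10029999999) 0)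
(.sx (.ofNat 1041496875)
(.lf (.negSucc 15009999999) 0)
(.lf (.negSucc 12109999999) 0))))
(.sy (.ofNat 7500000000)
(.sy (.ofNat 6250000000)
(.lf (.negSucc 5969999999) 1)
(.sx (.ofNat 2082993750)
(.lf (.negSucc 7899999999) 0)
(.sy (.ofNat 7201173792)
(.lf (.negSucc 6679999999) 0)
.ou)))
(.sy (.ofNat 8750000000)
(.sx (.ofNat 2082993750)
(.lf (.negSucc 9349999999) 0)
.ou)
(.sx (.ofNat 2082993750)
(.lf (.negSucc 10959999999) 0)
.ou))))
(.sy (.ofNat 5400880344)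
(.sx (.ofNat 4165987500)
(.lf (.negSucc 4559999999) 1)
.ou)
.ou))
.ou)))

theorem run_tr11_1B : Tr.run 1 1 (T11.C.mdA 2000) (T11.K1.shA (w2n 2000 682954926 18367)) R11 (.ofNat 1500000000) tr11_1B (.ofNat 0) (.ofNat 11109300000) (.negSucc 9999999999) (.ofNat 10000000000)
    (-100000000000) 100000000000 = true := by decide +kernel

/-- tree -/
def tr11_1BB : Tr :=
(.sy (.ofNat 0)
(.sy (.negSucc 4999999999)
(.sx (.negSucc 4370049999)
.ou
(.sy (.negSucc 7499999999)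
(.sx (.negSucc 2185024999)
.ou
(.sy (.negSucc 8749999999)
(.sx (.negSucc 1092512499)
(.lf (.negSucc 2339999999) 0)
(.lf (.negSucc 4549999999) 0))
(.lf (.negSucc 1819999999) 0)))
(.sx (.negSucc 2185024999)
(.sy (.negSucc 6864910012)
.ou
(.lf (.negSucc 99999999) 0))
(.lf (.negSucc 219999999) 0))))
(.sx (.negSucc 4370049999)
(.sy (.negSucc 3432455006)
.ou
(.sx (.negSucc 6555074999)
(.sy (.negSucc 2288303337)
.ou
(.lf (.ofNat 280000000) 0))
(.sy (.negSucc 1716227503)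
(.lf (.ofNat 380000000) 0)
(.lf (.ofNat 550000000) 0))))
(.sx (.negSucc 2185024999)
(.sy (.negSucc 2499999999)
(.lf (.ofNat 480000000) 0)
(.lf (.ofNat 980000000) 0))
(.sy (.negSucc 2499999999)
(.lf (.ofNat 1610000000) 0)
(.lf (.ofNat 3090000000) 0)))))
(.sy (.ofNat 5000000000)
(.sx (.negSucc 4370049999)
(.sy (.ofNat 3432455007)
(.sx (.negSucc 6555074999)
(.sy (.ofNat 2288303338)
(.lf (.ofNat 430000000) 0)
.ou)
(.sy (.ofNat 1716227503)
(.lf (.ofNat 660000000) 0)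
(.lf (.ofNat 680000000) 0)))
.ou)
(.sx (.negSucc 2185024999)
(.sy (.ofNat 2500000000)
(.lf (.ofNat 1250000000) 0)
(.sx (.negSucc 3277537499)
(.sy (.ofNat 4576606675)
(.lf (.ofNat 1030000000) 0)
.ou)
(.lf (.ofNat 1600000000) 0)))
(.sx (.negSucc 1092512499)
(.sy (.ofNat 2500000000)
(.lf (.ofNat 2720000000) 0)
(.lf (.ofNat 3070000000) 0))
(.sy (.ofNat 2500000000)
(.lf (.ofNat 8680000000) 0)
(.lf (.ofNat 10790000000) 0)))))
(.sx (.negSucc 4370049999)
.ou
(.sx (.negSucc 2185024999)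
(.sy (.ofNat 6864910013)
(.lf (.ofNat 1030000000) 1)
.ou)
(.sx (.negSucc 1092512499)
(.sy (.ofNat 7500000000)
(.lf (.ofNat 3100000000) 0)
(.lf (.ofNat 2810000000) 0))
(.sx (.negSucc 546256249)
(.sy (.ofNat 7500000000)
(.lf (.ofNat 7760000000) 0)
(.lf (.ofNat 8250000000) 0))
(.sx (.negSucc 273128124)
(.lf (.ofNat 18510000000) 0)
(.lf (.ofNat 0) 0))))))))

theorem run_tr11_1BB : Tr.run 1 1 (T11.C.mdA 2000) (T11.K1.shA (w2n 2000 682954926 18367)) R11 (.ofNat 1500000000) tr11_1BB (.negSucc 8740099999) (.ofNat 0) (.negSucc 9999999999) (.ofNat 10000000000)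
    (-100000000000) 100000000000 = true := by decide +kernel

/-- tree -/
def tr11_1P : Tr :=
(.sy (.ofNat 1184600000)
(.sy (.negSucc 3777749999)
(.sx (.ofNat 3650000000)
(.sy (.negSucc 6258924999)
(.sx (.ofNat 2575000000)
(.lf (.ofNat 100000000) 0)
(.lf (.ofNat 80000000) 0))
(.sx (.ofNat 2575000000)
(.sy (.negSucc 5018337499)
(.lf (.ofNat 80000000) 0)
(.lf (.ofNat 40000000) 0))
(.lf (.ofNat 0) 1)))
(.sy (.negSucc 6258924999)
(.sx (.ofNat 4725000000)
(.lf (.ofNat 110000000) 0)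
(.lf (.ofNat 200000000) 0))
(.sx (.ofNat 4725000000)
(.lf (.negSucc 19999999) 0)
(.lf (.ofNat 40000000) 0))))
(.sx (.ofNat 3650000000)
(.sy (.negSucc 1296574999)
(.sx (.ofNat 2575000000)
(.sy (.negSucc 2537162499)
(.sx (.ofNat 2037500000)
(.lf (.ofNat 0) 0)
(.lf (.negSucc 49999999) 0))
(.sx (.ofNat 2037500000)
(.lf (.negSucc 69999999) 0)
(.lf (.negSucc 139999999) 0)))
(.sy (.negSucc 2537162499)
(.lf (.negSucc 129999999) 0)
(.sx (.ofNat 3112500000)
(.lf (.negSucc 219999999) 0)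
(.lf (.negSucc 289999999) 0))))
(.sx (.ofNat 2575000000)
(.sy (.negSucc 55987499)
(.sx (.ofNat 2037500000)
(.sy (.negSucc 676281249)
(.lf (.negSucc 139999999) 0)
(.sx (.ofNat 1768750000)
(.lf (.negSucc 159999999) 0)
(.lf (.negSucc 209999999) 0)))
(.sy (.negSucc 676281249)
(.lf (.negSucc 219999999) 0)
(.lf (.negSucc 279999999) 0)))
(.sx (.ofNat 2037500000)
(.sy (.ofNat 564306250)
(.sx (.ofNat 1768750000)
(.lf (.negSucc 209999999) 0)
(.lf (.negSucc 259999999) 0))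
(.sx (.ofNat 1768750000)
(.lf (.negSucc 259999999) 0)
(.lf (.negSucc 319999999) 0)))
(.sy (.ofNat 564306250)
(.lf (.negSucc 339999999) 1)
(.lf (.negSucc 409999999) 1))))
(.sy (.negSucc 55987499)
(.sx (.ofNat 3112500000)
(.lf (.negSucc 349999999) 1)
(.lf (.negSucc 459999999) 0))
(.sx (.ofNat 3112500000)
(.sy (.ofNat 564306250)
(.lf (.negSucc 469999999) 0)
(.lf (.negSucc 559999999) 0))
(.sy (.ofNat 564306250)
(.lf (.negSucc 609999999) 0)
(.lf (.negSucc 709999999) 0))))))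
(.sy (.negSucc 1296574999)
(.sx (.ofNat 4725000000)
(.sy (.negSucc 2537162499)
(.lf (.negSucc 209999999) 0)
(.lf (.negSucc 389999999) 1))
(.sy (.negSucc 2537162499)
(.lf (.negSucc 209999999) 0)
(.lf (.negSucc 439999999) 0)))
(.sx (.ofNat 4725000000)
(.sy (.negSucc 55987499)
(.sx (.ofNat 4187500000)
(.lf (.negSucc 559999999) 0)
(.lf (.negSucc 649999999) 0))
(.sx (.ofNat 4187500000)
(.lf (.negSucc 799999999) 1)
(.lf (.negSucc 919999999) 0)))
(.sy (.negSucc 55987499)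
(.lf (.negSucc 709999999) 1)
(.sx (.ofNat 5262500000)
(.lf (.negSucc 989999999) 0)
(.lf (.negSucc 989999999) 0)))))))
(.sy (.ofNat 6146950000)
(.sx (.ofNat 3650000000)
(.sy (.ofNat 3665775000)
(.sx (.ofNat 2575000000)
(.sy (.ofNat 2425187500)
(.sx (.ofNat 2037500000)
(.sy (.ofNat 1804893750)
(.lf (.negSucc 339999999) 1)
(.lf (.negSucc 399999999) 0))
(.sy (.ofNat 1804893750)
(.lf (.negSucc 479999999) 1)
(.lf (.negSucc 559999999) 0)))
(.sx (.ofNat 2037500000)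
(.lf (.negSucc 489999999) 0)
(.sy (.ofNat 3045481250)
(.lf (.negSucc 639999999) 0)
(.lf (.negSucc 719999999) 0))))
(.sy (.ofNat 2425187500)
(.sx (.ofNat 3112500000)
(.sy (.ofNat 1804893750)
(.lf (.negSucc 649999999) 1)
(.lf (.negSucc 739999999) 1))
(.sy (.ofNat 1804893750)
(.lf (.negSucc 819999999) 1)
(.lf (.negSucc 939999999) 1)))
(.sx (.ofNat 3112500000)
(.sy (.ofNat 3045481250)
(.lf (.negSucc 839999999) 1)
(.lf (.negSucc 939999999) 0))
(.sy (.ofNat 3045481250)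
(.lf (.negSucc 1059999999) 1)
(.lf (.negSucc 1179999999) 1)))))
(.sx (.ofNat 2575000000)
(.sy (.ofNat 4906362500)
(.sx (.ofNat 2037500000)
(.lf (.negSucc 619999999) 0)
(.lf (.negSucc 839999999) 0))
(.sx (.ofNat 2037500000)
(.lf (.negSucc 769999999) 0)
(.lf (.negSucc 1009999999) 0)))
(.sy (.ofNat 4906362500)
(.sx (.ofNat 3112500000)
(.lf (.negSucc 1089999999) 1)
(.sy (.ofNat 4286068750)
(.lf (.negSucc 1299999999) 1)
(.lf (.negSucc 1409999999) 1)))
(.sx (.ofNat 3112500000)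
(.lf (.negSucc 1289999999) 1)
(.lf (.negSucc 1549999999) 1)))))
(.sy (.ofNat 3665775000)
(.sx (.ofNat 4725000000)
(.sy (.ofNat 2425187500)
(.sx (.ofNat 4187500000)
(.sy (.ofNat 1804893750)
(.lf (.negSucc 989999999) 1)
(.lf (.negSucc 1129999999) 1))
(.sy (.ofNat 1804893750)
(.lf (.negSucc 1129999999) 0)
(.lf (.negSucc 1279999999) 1)))
(.sx (.ofNat 4187500000)
(.sy (.ofNat 3045481250)
(.lf (.negSucc 1269999999) 1)
(.lf (.negSucc 1399999999) 1))
(.sy (.ofNat 3045481250)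
(.lf (.negSucc 1409999999) 1)
(.lf (.negSucc 1539999999) 1))))
(.sy (.ofNat 2425187500)
(.sx (.ofNat 5262500000)
(.lf (.negSucc 1279999999) 1)
(.lf (.negSucc 1259999999) 0))
(.sx (.ofNat 5262500000)
(.lf (.negSucc 1519999999) 1)
(.lf (.negSucc 1449999999) 0))))
(.sx (.ofNat 4725000000)
(.sy (.ofNat 4906362500)
(.sx (.ofNat 4187500000)
(.sy (.ofNat 4286068750)
(.lf (.negSucc 1519999999) 1)
(.lf (.negSucc 1619999999) 1))
(.sy (.ofNat 4286068750)
(.lf (.negSucc 1639999999) 1)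
(.lf (.negSucc 1709999999) 1)))
(.sx (.ofNat 4187500000)
(.lf (.negSucc 1719999999) 1)
(.lf (.negSucc 1759999999) 1)))
(.sy (.ofNat 4906362500)
(.sx (.ofNat 5262500000)
(.lf (.negSucc 1649999999) 1)
(.lf (.negSucc 1509999999) 0))
(.sx (.ofNat 5262500000)
(.lf (.negSucc 1659999999) 0)
(.lf (.negSucc 1449999999) 0))))))
(.sx (.ofNat 3650000000)
(.sy (.ofNat 8628125000)
(.sx (.ofNat 2575000000)
(.sy (.ofNat 7387537500)
(.lf (.negSucc 1039999999) 1)
(.lf (.negSucc 1189999999) 1))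
(.sy (.ofNat 7387537500)
(.sx (.ofNat 3112500000)
(.lf (.negSucc 1449999999) 1)
(.lf (.negSucc 1669999999) 1))
(.lf (.negSucc 1639999999) 1)))
(.sx (.ofNat 2575000000)
(.lf (.negSucc 1369999999) 1)
(.lf (.negSucc 1599999999) 1)))
(.sy (.ofNat 8628125000)
(.sx (.ofNat 4725000000)
(.sy (.ofNat 7387537500)
(.sx (.ofNat 4187500000)
(.lf (.negSucc 1759999999) 0)
(.lf (.negSucc 1709999999) 0))
(.lf (.negSucc 1649999999) 1))
(.sy (.ofNat 7387537500)
(.sx (.ofNat 5262500000)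
(.lf (.negSucc 1539999999) 0)
(.lf (.negSucc 1269999999) 0))
(.lf (.negSucc 1189999999) 1)))
(.sx (.ofNat 4725000000)
(.sy (.ofNat 9868712500)
(.lf (.negSucc 1469999999) 1)
(.lf (.negSucc 1259999999) 0))
(.sy (.ofNat 9868712500)
(.lf (.negSucc 919999999) 0)
(.lf (.negSucc 629999999) 0)))))))

theorem run_tr11_1P : Tr.run 1 2 (T11.C.mdA 2000) (T11.K1.shA (w2n 2000 682954926 18367)) R11 (.ofNat 1500000000) tr11_1P (.ofNat 1500000000) (.ofNat 5800000000) (.negSucc 8740099999) (.ofNat 11109300000)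
    (-100000000000) 100000000000 = true := by decide +kernel

/-- tree -/
def tr11_1N : Tr :=
(.sy (.ofNat 1184600000)
(.sx (.negSucc 4999999999)
(.sy (.negSucc 3777749999)
(.sy (.negSucc 6258924999)
(.sx (.negSucc 6749999999)
(.lf (.negSucc 379999999) 1)
(.sy (.negSucc 7499512499)
(.lf (.ofNat 20000000) 0)
(.lf (.negSucc 109999999) 0)))
(.sx (.negSucc 6749999999)
(.sy (.negSucc 5018337499)
(.lf (.negSucc 569999999) 0)
(.lf (.negSucc 659999999) 0))
(.sy (.negSucc 5018337499)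
(.lf (.negSucc 219999999) 0)
(.lf (.negSucc 309999999) 0))))
(.sx (.negSucc 6749999999)
(.sy (.negSucc 1296574999)
(.sx (.negSucc 7624999999)
(.sy (.negSucc 2537162499)
(.lf (.negSucc 839999999) 0)
(.lf (.negSucc 909999999) 0))
(.sy (.negSucc 2537162499)
(.lf (.negSucc 649999999) 0)
(.lf (.negSucc 719999999) 0)))
(.sx (.negSucc 7624999999)
(.sy (.negSucc 55987499)
(.lf (.negSucc 969999999) 0)
(.sx (.negSucc 8062499999)
(.lf (.negSucc 1059999999) 0)
(.lf (.negSucc 959999999) 0)))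
(.sy (.negSucc 55987499)
(.lf (.negSucc 769999999) 0)
(.sx (.negSucc 7187499999)
(.lf (.negSucc 859999999) 0)
(.lf (.negSucc 769999999) 0)))))
(.sy (.negSucc 1296574999)
(.sx (.negSucc 5874999999)
(.sy (.negSucc 2537162499)
(.lf (.negSucc 469999999) 0)
(.lf (.negSucc 529999999) 0))
(.sy (.negSucc 2537162499)
(.lf (.negSucc 299999999) 0)
(.lf (.negSucc 359999999) 0)))
(.sx (.negSucc 5874999999)
(.sy (.negSucc 55987499)
(.lf (.negSucc 579999999) 0)
(.sx (.negSucc 6312499999)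
(.lf (.negSucc 669999999) 0)
(.lf (.negSucc 579999999) 0)))
(.sy (.negSucc 55987499)
(.lf (.negSucc 409999999) 0)
(.sx (.negSucc 5437499999)
(.lf (.negSucc 499999999) 0)
(.lf (.negSucc 419999999) 0)))))))
(.sy (.negSucc 3777749999)
(.sx (.negSucc 3249999999)
(.sy (.negSucc 6258924999)
(.sy (.negSucc 7499512499)
(.lf (.ofNat 210000000) 0)
(.lf (.ofNat 120000000) 0))
(.sy (.negSucc 5018337499)
(.lf (.ofNat 40000000) 0)
(.sx (.negSucc 4124999999)
(.lf (.negSucc 89999999) 0)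
(.lf (.ofNat 20000000) 0))))
(.sy (.negSucc 6258924999)
(.sy (.negSucc 7499512499)
(.lf (.ofNat 280000000) 0)
(.lf (.ofNat 230000000) 0))
(.sy (.negSucc 5018337499)
(.lf (.ofNat 180000000) 0)
(.sx (.negSucc 2374999999)
(.lf (.ofNat 100000000) 0)
(.lf (.ofNat 150000000) 0)))))
(.sx (.negSucc 3249999999)
(.sy (.negSucc 1296574999)
(.sx (.negSucc 4124999999)
(.sy (.negSucc 2537162499)
(.lf (.negSucc 159999999) 0)
(.lf (.negSucc 219999999) 0))
(.sy (.negSucc 2537162499)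
(.lf (.negSucc 39999999) 0)
(.lf (.negSucc 89999999) 0)))
(.sx (.negSucc 4124999999)
(.sy (.negSucc 55987499)
(.sx (.negSucc 4562499999)
(.lf (.negSucc 299999999) 0)
(.lf (.negSucc 229999999) 0))
(.sx (.negSucc 4562499999)
(.lf (.negSucc 339999999) 0)
(.lf (.negSucc 269999999) 0)))
(.sy (.negSucc 55987499)
(.sx (.negSucc 3687499999)
(.lf (.negSucc 169999999) 0)
(.lf (.negSucc 109999999) 0))
(.sx (.negSucc 3687499999)
(.lf (.negSucc 209999999) 0)
(.lf (.negSucc 149999999) 0)))))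
(.sy (.negSucc 1296574999)
(.sx (.negSucc 2374999999)
(.sy (.negSucc 2537162499)
(.lf (.ofNat 50000000) 0)
(.sx (.negSucc 2812499999)
(.lf (.negSucc 19999999) 0)
(.lf (.ofNat 20000000) 0)))
(.sy (.negSucc 2537162499)
(.lf (.ofNat 110000000) 0)
(.sx (.negSucc 1937499999)
(.lf (.ofNat 50000000) 0)
(.lf (.ofNat 70000000) 0))))
(.sx (.negSucc 2374999999)
(.sy (.negSucc 55987499)
(.sx (.negSucc 2812499999)
(.lf (.negSucc 59999999) 0)
(.lf (.negSucc 19999999) 0))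
(.sx (.negSucc 2812499999)
(.lf (.negSucc 99999999) 0)
(.lf (.negSucc 59999999) 0)))
(.sy (.negSucc 55987499)
(.sx (.negSucc 1937499999)
(.sy (.negSucc 676281249)
(.lf (.ofNat 20000000) 0)
(.lf (.ofNat 0) 0))
(.sy (.negSucc 676281249)
(.lf (.ofNat 40000000) 0)
(.lf (.ofNat 20000000) 0)))
(.sx (.negSucc 1937499999)
(.lf (.negSucc 29999999) 0)
(.sy (.ofNat 564306250)
(.lf (.ofNat 10000000) 0)
(.lf (.negSucc 9999999) 0)))))))))
(.sx (.negSucc 4999999999)
(.sy (.ofNat 6146950000)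
(.sx (.negSucc 6749999999)
(.sy (.ofNat 3665775000)
(.sx (.negSucc 7624999999)
(.sx (.negSucc 8062499999)
(.sy (.ofNat 2425187500)
(.sx (.negSucc 8281249999)
(.sy (.ofNat 1804893750)
(.lf (.negSucc 1109999999) 0)
(.lf (.negSucc 1119999999) 0))
(.lf (.negSucc 1069999999) 0))
(.sx (.negSucc 8281249999)
(.sy (.ofNat 3045481250)
(.lf (.negSucc 1129999999) 0)
(.lf (.negSucc 1139999999) 0))
(.lf (.negSucc 1089999999) 0)))
(.sy (.ofNat 2425187500)
(.lf (.negSucc 989999999) 0)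
(.lf (.negSucc 1009999999) 0)))
(.sx (.negSucc 7187499999)
(.sy (.ofNat 2425187500)
(.lf (.negSucc 899999999) 0)
(.lf (.negSucc 919999999) 0))
(.sy (.ofNat 2425187500)
(.lf (.negSucc 799999999) 0)
(.lf (.negSucc 819999999) 0))))
(.sx (.negSucc 7624999999)
(.sx (.negSucc 8062499999)
(.sy (.ofNat 4906362500)
(.sx (.negSucc 8281249999)
(.sx (.negSucc 8390624999)
(.sy (.ofNat 4286068750)
(.lf (.negSucc 1149999999) 0)
(.lf (.negSucc 1149999999) 0))
(.sy (.ofNat 4286068750)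
(.lf (.negSucc 1129999999) 0)
(.lf (.negSucc 1129999999) 0)))
(.sy (.ofNat 4286068750)
(.lf (.negSucc 1089999999) 0)
(.lf (.negSucc 1099999999) 0)))
(.sx (.negSucc 8281249999)
(.sy (.ofNat 5526656250)
(.lf (.negSucc 1139999999) 0)
(.lf (.negSucc 1139999999) 0))
(.lf (.negSucc 1089999999) 0)))
(.sy (.ofNat 4906362500)
(.sx (.negSucc 7843749999)
(.lf (.negSucc 1049999999) 0)
(.lf (.negSucc 999999999) 0))
(.lf (.negSucc 1019999999) 0)))
(.sx (.negSucc 7187499999)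
(.sy (.ofNat 4906362500)
(.lf (.negSucc 929999999) 0)
(.lf (.negSucc 929999999) 0))
(.sy (.ofNat 4906362500)
(.lf (.negSucc 839999999) 0)
(.lf (.negSucc 839999999) 0)))))
(.sy (.ofNat 3665775000)
(.sx (.negSucc 5874999999)
(.sx (.negSucc 6312499999)
(.sy (.ofNat 2425187500)
(.lf (.negSucc 709999999) 0)
(.lf (.negSucc 729999999) 0))
(.sy (.ofNat 2425187500)
(.lf (.negSucc 619999999) 0)
(.lf (.negSucc 639999999) 0)))
(.sy (.ofNat 2425187500)
(.sx (.negSucc 5437499999)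
(.lf (.negSucc 529999999) 0)
(.lf (.negSucc 449999999) 0))
(.sx (.negSucc 5437499999)
(.lf (.negSucc 559999999) 0)
(.lf (.negSucc 479999999) 0))))
(.sx (.negSucc 5874999999)
(.sy (.ofNat 4906362500)
(.lf (.negSucc 699999999) 0)
(.lf (.negSucc 709999999) 0))
(.sy (.ofNat 4906362500)
(.lf (.negSucc 529999999) 0)
(.lf (.negSucc 539999999) 0)))))
(.sx (.negSucc 6749999999)
(.sy (.ofNat 8628125000)
(.sx (.negSucc 7624999999)
(.sy (.ofNat 7387537500)
(.sx (.negSucc 8062499999)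
(.lf (.negSucc 1099999999) 0)
(.lf (.negSucc 1009999999) 0))
(.lf (.negSucc 1029999999) 0))
(.sy (.ofNat 7387537500)
(.lf (.negSucc 879999999) 0)
(.lf (.negSucc 859999999) 0)))
(.sy (.ofNat 9868712500)
(.sx (.negSucc 7624999999)
(.lf (.negSucc 989999999) 0)
(.lf (.negSucc 839999999) 0))
(.lf (.negSucc 879999999) 0)))
(.sy (.ofNat 8628125000)
(.sx (.negSucc 5874999999)
(.sy (.ofNat 7387537500)
(.lf (.negSucc 709999999) 0)
(.lf (.negSucc 699999999) 0))
(.lf (.negSucc 549999999) 0))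
(.sy (.ofNat 9868712500)
(.lf (.negSucc 609999999) 0)
(.lf (.negSucc 599999999) 0)))))
(.sy (.ofNat 6146950000)
(.sx (.negSucc 3249999999)
(.sy (.ofNat 3665775000)
(.sx (.negSucc 4124999999)
(.sy (.ofNat 2425187500)
(.sx (.negSucc 4562499999)
(.lf (.negSucc 369999999) 0)
(.lf (.negSucc 299999999) 0))
(.lf (.negSucc 359999999) 0))
(.sy (.ofNat 2425187500)
(.sx (.negSucc 3687499999)
(.lf (.negSucc 239999999) 0)
(.lf (.negSucc 179999999) 0))
(.lf (.negSucc 239999999) 0)))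
(.sx (.negSucc 4124999999)
(.sy (.ofNat 4906362500)
(.lf (.negSucc 379999999) 0)
(.lf (.negSucc 399999999) 0))
(.sy (.ofNat 4906362500)
(.lf (.negSucc 259999999) 0)
(.lf (.negSucc 279999999) 0))))
(.sy (.ofNat 3665775000)
(.sx (.negSucc 2374999999)
(.sy (.ofNat 2425187500)
(.sx (.negSucc 2812499999)
(.lf (.negSucc 129999999) 0)
(.lf (.negSucc 89999999) 0))
(.lf (.negSucc 139999999) 0))
(.sy (.ofNat 2425187500)
(.sx (.negSucc 1937499999)
(.lf (.negSucc 59999999) 0)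
(.sy (.ofNat 1804893750)
(.lf (.negSucc 29999999) 0)
(.lf (.negSucc 49999999) 0)))
(.lf (.negSucc 79999999) 0)))
(.sx (.negSucc 2374999999)
(.lf (.negSucc 179999999) 1)
(.lf (.negSucc 129999999) 0))))
(.sy (.ofNat 8628125000)
(.sx (.negSucc 3249999999)
(.sx (.negSucc 4124999999)
(.lf (.negSucc 409999999) 0)
(.lf (.negSucc 299999999) 0))
(.sy (.ofNat 7387537500)
(.lf (.negSucc 189999999) 0)
(.lf (.negSucc 229999999) 0)))
(.sx (.negSucc 3249999999)
(.lf (.negSucc 379999999) 0)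
(.lf (.negSucc 289999999) 0))))))

theorem run_tr11_1N : Tr.run 1 2 (T11.C.mdA 2000) (T11.K1.shA (w2n 2000 682954926 18367)) R11 (.ofNat 1500000000) tr11_1N (.negSucc 8499999999) (.negSucc 1499999999) (.negSucc 8740099999) (.ofNat 11109300000)
    (-100000000000) 100000000000 = true := by decide +kernel

/-- tree -/
def br11 : Tr :=
(.sy (.ofNat 1184600000)
(.sz (.negSucc 212649999)
(.sy (.negSucc 3777749999)
(.sx (.negSucc 1349999999)
(.lf (.ofNat 0) 0)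
(.lf (.ofNat 0) 0))
(.lf (.ofNat 0) 0))
(.sy (.negSucc 3777749999)
(.sx (.negSucc 1349999999)
(.lf (.ofNat 0) 0)
(.lf (.ofNat 0) 0))
(.lf (.ofNat 0) 0)))
(.sz (.negSucc 212649999)
(.lf (.ofNat 0) 0)
(.lf (.ofNat 0) 0)))

theorem run_br11 : Tr.runB T11.C T11.K0 (D11.bt * 2000 / 10000 + 1) R11.om br11 (-D11.m) D11.M D11.ylo D11.yhi
    (-R11.bl) R11.bh = true := by decide +kernel

end Pool.Agent.Helper30.DL
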