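import Pool.Agent.Helper30.DL.Run.C61

/-! MP_b4564f_an, all delays. Cell 61: kernel computations (generated). -/

set_option autoImplicit false
set_option maxRecDepth 100000

namespace Pool.Agent.Helper30.DL

/-- tree -/
def tr61_1A : Tr :=
(.sy (.ofNat 0)
(.sy (.negSucc 4999999999)
(.sy (.negSucc 7499999999)
(.lf (.negSucc 3299999999) 0)
(.lf (.negSucc 4449999999) 0))
(.sy (.negSucc 2499999999)
(.sx (.ofNat 750000000)
(.lf (.negSucc 8639999999) 0)
(.lf (.negSucc 4559999999) 0))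
(.sx (.ofNat 750000000)
(.lf (.negSucc 10749999999) 0)
(.lf (.negSucc 5489999999) 0))))
(.sy (.ofNat 5000000000)
(.sy (.ofNat 2500000000)
(.sx (.ofNat 750000000)
(.lf (.negSucc 12869999999) 0)
(.lf (.negSucc 6449999999) 0))
(.sx (.ofNat 750000000)
(.lf (.negSucc 14999999999) 0)
(.lf (.negSucc 7439999999) 0)))
(.sy (.ofNat 7500000000)
(.sx (.ofNat 750000000)
(.lf (.negSucc 17149999999) 0)
(.lf (.negSucc 8469999999) 0))
(.sx (.ofNat 750000000)
(.lf (.negSucc 19319999999) 0)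
(.lf (.negSucc 9519999999) 0)))))

theorem run_tr61_1A : Tr.run 1 0 (T61.C.mdA 1500) (T61.K1.shA (w2n 1500 127707020 17391)) R61 (.ofNat 1500000000) tr61_1A (.ofNat 0) (.ofNat 1500000000) (.negSucc 9999999999) (.ofNat 10000000000)
    (-100000000000) 100000000000 = true := by decide +kernel

/-- tree -/
def tr61_1AA : Tr :=
(.sy (.ofNat 0)
(.sy (.negSucc 4999999999)
(.lf (.negSucc 1039999999) 0)
(.lf (.ofNat 530000000) 0))
(.sy (.ofNat 5000000000)
(.sy (.ofNat 2500000000)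
(.lf (.ofNat 1710000000) 0)
(.lf (.ofNat 2510000000) 0))
(.sy (.ofNat 7500000000)
(.lf (.ofNat 3320000000) 0)
(.lf (.ofNat 4130000000) 0))))

theorem run_tr61_1AA : Tr.run 1 0 (T61.C.mdA 1500) (T61.K1.shA (w2n 1500 127707020 17391)) R61 (.ofNat 1500000000) tr61_1AA (.negSucc 1499999999) (.ofNat 0) (.negSucc 9999999999) (.ofNat 10000000000)
    (-100000000000) 100000000000 = true := by decide +kernel

/-- tree -/
def tr61_1B : Tr :=
(.sy (.ofNat 0)
(.sy (.negSucc 4999999999)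
(.sx (.ofNat 5072050000)
(.sy (.negSucc 7499999999)
(.sx (.ofNat 2536025000)
(.sy (.negSucc 8749999999)
(.sx (.ofNat 1268012500)
(.lf (.negSucc 1669999999) 0)
(.lf (.negSucc 2029999999) 0))
(.sx (.ofNat 1268012500)
(.lf (.negSucc 1709999999) 0)
(.lf (.negSucc 1619999999) 0)))
.ou)
(.sx (.ofNat 2536025000)
(.sx (.ofNat 1268012500)
(.lf (.negSucc 1969999999) 0)
(.lf (.negSucc 1199999999) 0))
(.sy (.negSucc 5914768190)
.ou
(.lf (.negSucc 839999999) 0))))
.ou)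
(.sx (.ofNat 5072050000)
(.sx (.ofNat 2536025000)
(.sy (.negSucc 2499999999)
(.lf (.negSucc 1419999999) 0)
(.lf (.negSucc 1879999999) 0))
(.sy (.negSucc 2499999999)
(.sx (.ofNat 3804037500)
(.lf (.negSucc 669999999) 0)
(.sy (.negSucc 3943178793)
.ou
(.lf (.negSucc 479999999) 0)))
(.lf (.negSucc 599999999) 0)))
(.sy (.negSucc 2957384095)
.ou
(.sx (.ofNat 7608075000)
(.sy (.negSucc 1478692047)
(.lf (.negSucc 319999999) 0)
(.lf (.negSucc 399999999) 0))
(.sy (.negSucc 1971589396)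
.ou
(.lf (.negSucc 279999999) 1))))))
(.sy (.ofNat 5000000000)
(.sx (.ofNat 5072050000)
(.sx (.ofNat 2536025000)
(.sy (.ofNat 2500000000)
(.lf (.negSucc 2779999999) 1)
(.sx (.ofNat 1268012500)
(.lf (.negSucc 7249999999) 0)
(.lf (.negSucc 3149999999) 0)))
(.sy (.ofNat 2500000000)
(.sy (.ofNat 1250000000)
(.lf (.negSucc 959999999) 0)
(.lf (.negSucc 1379999999) 0))
(.sy (.ofNat 3750000000)
(.sx (.ofNat 3804037500)
(.lf (.negSucc 2119999999) 0)
(.lf (.negSucc 1889999999) 0))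
(.sx (.ofNat 3804037500)
(.lf (.negSucc 2859999999) 0)
(.sy (.ofNat 3943178794)
(.lf (.negSucc 2329999999) 0)
.ou)))))
(.sy (.ofNat 2957384096)
(.sx (.ofNat 7608075000)
(.sy (.ofNat 1478692048)
(.lf (.negSucc 689999999) 0)
(.sy (.ofNat 2218038072)
(.lf (.negSucc 1089999999) 1)
(.sx (.ofNat 6340062500)
(.lf (.negSucc 1489999999) 0)
(.sy (.ofNat 2365907277)
(.lf (.negSucc 1259999999) 0)
.ou))))
(.sy (.ofNat 1971589397)
(.sy (.ofNat 985794698)
(.lf (.negSucc 509999999) 0)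
(.lf (.negSucc 789999999) 1))
.ou))
.ou))
(.sx (.ofNat 5072050000)
(.sx (.ofNat 2536025000)
(.sy (.ofNat 7500000000)
(.sx (.ofNat 1268012500)
(.sx (.ofNat 634006250)
(.lf (.negSucc 17189999999) 0)
(.lf (.negSucc 7139999999) 0))
(.sy (.ofNat 6250000000)
(.lf (.negSucc 4389999999) 0)
(.lf (.negSucc 5379999999) 1)))
(.sx (.ofNat 1268012500)
(.sx (.ofNat 634006250)
(.sx (.ofNat 317003125)
(.lf (.ofNat 0) 0)
(.lf (.negSucc 15299999999) 0))
(.lf (.negSucc 9559999999) 0))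
(.sy (.ofNat 8750000000)
(.sx (.ofNat 1902018750)
(.lf (.negSucc 6909999999) 0)
(.sy (.ofNat 7886357588)
(.lf (.negSucc 5859999999) 0)
.ou))
(.sx (.ofNat 1902018750)
(.lf (.negSucc 8159999999) 0)
.ou))))
(.sy (.ofNat 5914768191)
(.sx (.ofNat 3804037500)
(.lf (.negSucc 3639999999) 0)
.ou)
.ou))
.ou)))

theorem run_tr61_1B : Tr.run 1 1 (T61.C.mdA 1500) (T61.K1.shA (w2n 1500 127707020 17391)) R61 (.ofNat 1500000000) tr61_1B (.ofNat 0) (.ofNat 10144100000) (.negSucc 9999999999) (.ofNat 10000000000)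
    (-100000000000) 100000000000 = true := by decide +kernel

/-- tree -/
def tr61_1BB : Tr :=
(.sy (.ofNat 0)
(.sy (.negSucc 4999999999)
(.sx (.negSucc 3916799999)
.ou
(.sy (.negSucc 7499999999)
(.sx (.negSucc 1958399999)
(.sy (.negSucc 7659313725)
.ou
(.lf (.negSucc 679999999) 0))
(.sy (.negSucc 8749999999)
(.lf (.negSucc 2039999999) 0)
(.lf (.negSucc 1129999999) 0)))
(.sx (.negSucc 1958399999)
(.lf (.negSucc 319999999) 0)
(.lf (.ofNat 90000000) 0))))
(.sx (.negSucc 3916799999)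
(.sy (.negSucc 3829656862)
.ou
(.sy (.negSucc 1914828431)
(.sx (.negSucc 5875199999)
(.sy (.negSucc 2553104575)
.ou
(.lf (.ofNat 0) 0))
(.lf (.ofNat 140000000) 0))
(.lf (.ofNat 270000000) 0)))
(.sy (.negSucc 2499999999)
(.sx (.negSucc 1958399999)
(.lf (.ofNat 300000000) 0)
(.lf (.ofNat 1420000000) 0))
(.lf (.ofNat 1180000000) 0))))
(.sy (.ofNat 5000000000)
(.sx (.negSucc 3916799999)
(.sy (.ofNat 3829656863)
(.sy (.ofNat 1914828431)
(.sx (.negSucc 5875199999)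
(.lf (.ofNat 410000000) 0)
(.lf (.ofNat 550000000) 0))
(.sx (.negSucc 5875199999)
(.sy (.ofNat 2553104576)
(.lf (.ofNat 510000000) 0)
.ou)
(.lf (.ofNat 580000000) 0)))
.ou)
(.sx (.negSucc 1958399999)
(.sy (.ofNat 2500000000)
(.lf (.ofNat 960000000) 0)
(.lf (.ofNat 890000000) 0))
(.sy (.ofNat 2500000000)
(.lf (.ofNat 3100000000) 0)
(.sx (.negSucc 979199999)
(.lf (.ofNat 2110000000) 0)
(.lf (.ofNat 7500000000) 0)))))
(.sx (.negSucc 3916799999)
.ou
(.sx (.negSucc 1958399999)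
(.sy (.ofNat 7659313726)
(.sy (.ofNat 6329656863)
(.lf (.ofNat 630000000) 0)
(.lf (.ofNat 360000000) 0))
.ou)
(.sx (.negSucc 979199999)
(.sy (.ofNat 7500000000)
(.lf (.ofNat 1870000000) 0)
(.lf (.ofNat 1310000000) 0))
(.sx (.negSucc 489599999)
(.lf (.ofNat 5000000000) 0)
(.sy (.ofNat 7500000000)
(.lf (.ofNat 18130000000) 0)
(.lf (.ofNat 20160000000) 0))))))))

theorem run_tr61_1BB : Tr.run 1 1 (T61.C.mdA 1500) (T61.K1.shA (w2n 1500 127707020 17391)) R61 (.ofNat 1500000000) tr61_1BB (.negSucc 7833599999) (.ofNat 0) (.negSucc 9999999999) (.ofNat 10000000000)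
    (-100000000000) 100000000000 = true := by decide +kernel

/-- tree -/
def tr61_1P : Tr :=
(.sy (.ofNat 1155250000)
(.sy (.negSucc 3339174999)
(.sx (.ofNat 3400000000)
(.sy (.negSucc 5586387499)
(.sx (.ofNat 2450000000)
(.lf (.negSucc 39999999) 0)
(.lf (.negSucc 99999999) 0))
(.sx (.ofNat 2450000000)
(.sy (.negSucc 4462781249)
(.lf (.negSucc 9999999) 0)
(.lf (.negSucc 19999999) 0))
(.sy (.negSucc 4462781249)
(.lf (.negSucc 59999999) 0)
(.lf (.negSucc 79999999) 0))))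
(.sy (.negSucc 5586387499)
(.sx (.ofNat 4350000000)
(.lf (.negSucc 119999999) 0)
(.lf (.negSucc 69999999) 0))
(.sx (.ofNat 4350000000)
(.lf (.negSucc 89999999) 0)
(.lf (.negSucc 49999999) 0))))
(.sx (.ofNat 3400000000)
(.sy (.negSucc 1091962499)
(.sx (.ofNat 2450000000)
(.sy (.negSucc 2215568749)
(.lf (.negSucc 39999999) 0)
(.sx (.ofNat 1975000000)
(.lf (.negSucc 59999999) 0)
(.lf (.negSucc 109999999) 0)))
(.sy (.negSucc 2215568749)
(.lf (.negSucc 119999999) 0)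
(.sx (.ofNat 2925000000)
(.lf (.negSucc 159999999) 0)
(.lf (.negSucc 209999999) 0))))
(.sx (.ofNat 2450000000)
(.sy (.ofNat 31643750)
(.sx (.ofNat 1975000000)
(.sy (.negSucc 530159374)
(.lf (.negSucc 99999999) 0)
(.lf (.negSucc 129999999) 0))
(.lf (.negSucc 179999999) 0))
(.sx (.ofNat 1975000000)
(.sy (.ofNat 593446875)
(.lf (.negSucc 169999999) 0)
(.lf (.negSucc 199999999) 0))
(.lf (.negSucc 259999999) 0)))
(.sy (.ofNat 31643750)
(.sx (.ofNat 2925000000)
(.lf (.negSucc 249999999) 0)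
(.lf (.negSucc 319999999) 0))
(.sx (.ofNat 2925000000)
(.lf (.negSucc 349999999) 0)
(.lf (.negSucc 449999999) 0)))))
(.sy (.negSucc 1091962499)
(.sx (.ofNat 4350000000)
(.sy (.negSucc 2215568749)
(.lf (.negSucc 169999999) 0)
(.lf (.negSucc 279999999) 0))
(.sy (.negSucc 2215568749)
(.lf (.negSucc 169999999) 0)
(.lf (.negSucc 309999999) 0)))
(.sx (.ofNat 4350000000)
(.sy (.ofNat 31643750)
(.sx (.ofNat 3875000000)
(.lf (.negSucc 389999999) 0)
(.lf (.negSucc 449999999) 0))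
(.sx (.ofNat 3875000000)
(.lf (.negSucc 549999999) 0)
(.lf (.negSucc 639999999) 0)))
(.sy (.ofNat 31643750)
(.lf (.negSucc 499999999) 0)
(.sx (.ofNat 4825000000)
(.lf (.negSucc 719999999) 0)
(.lf (.negSucc 779999999) 0)))))))
(.sy (.ofNat 5649675000)
(.sx (.ofNat 3400000000)
(.sy (.ofNat 3402462500)
(.sx (.ofNat 2450000000)
(.sy (.ofNat 2278856250)
(.sx (.ofNat 1975000000)
(.sy (.ofNat 1717053125)
(.lf (.negSucc 239999999) 0)
(.lf (.negSucc 279999999) 0))
(.lf (.negSucc 359999999) 1))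
(.sx (.ofNat 1975000000)
(.lf (.negSucc 339999999) 0)
(.lf (.negSucc 459999999) 0)))
(.sy (.ofNat 2278856250)
(.sx (.ofNat 2925000000)
(.lf (.negSucc 469999999) 0)
(.lf (.negSucc 599999999) 0))
(.sx (.ofNat 2925000000)
(.lf (.negSucc 609999999) 0)
(.lf (.negSucc 779999999) 1))))
(.sx (.ofNat 2450000000)
(.sy (.ofNat 4526068750)
(.sx (.ofNat 1975000000)
(.lf (.negSucc 429999999) 0)
(.lf (.negSucc 579999999) 0))
(.lf (.negSucc 599999999) 1))
(.sy (.ofNat 4526068750)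
(.sx (.ofNat 2925000000)
(.lf (.negSucc 759999999) 0)
(.lf (.negSucc 969999999) 1))
(.sx (.ofNat 2925000000)
(.lf (.negSucc 899999999) 0)
(.lf (.negSucc 1139999999) 1)))))
(.sy (.ofNat 3402462500)
(.sx (.ofNat 4350000000)
(.sy (.ofNat 2278856250)
(.sx (.ofNat 3875000000)
(.lf (.negSucc 739999999) 0)
(.lf (.negSucc 879999999) 0))
(.sx (.ofNat 3875000000)
(.lf (.negSucc 969999999) 1)
(.lf (.negSucc 1159999999) 1)))
(.sy (.ofNat 2278856250)
(.sx (.ofNat 4825000000)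
(.lf (.negSucc 1009999999) 0)
(.lf (.negSucc 1109999999) 1))
(.sx (.ofNat 4825000000)
(.lf (.negSucc 1349999999) 1)
(.lf (.negSucc 1489999999) 1))))
(.sx (.ofNat 4350000000)
(.sy (.ofNat 4526068750)
(.sx (.ofNat 3875000000)
(.lf (.negSucc 1209999999) 1)
(.lf (.negSucc 1459999999) 1))
(.sx (.ofNat 3875000000)
(.lf (.negSucc 1419999999) 1)
(.lf (.negSucc 1689999999) 1)))
(.sy (.ofNat 4526068750)
(.sx (.ofNat 4825000000)
(.lf (.negSucc 1689999999) 1)
(.lf (.negSucc 1849999999) 1))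
(.sx (.ofNat 4825000000)
(.lf (.negSucc 1899999999) 1)
(.lf (.negSucc 1969999999) 1))))))
(.sx (.ofNat 3400000000)
(.sy (.ofNat 7896887500)
(.sx (.ofNat 2450000000)
(.lf (.negSucc 739999999) 1)
(.sy (.ofNat 6773281250)
(.lf (.negSucc 1139999999) 1)
(.lf (.negSucc 1189999999) 1)))
(.sx (.ofNat 2450000000)
(.lf (.negSucc 829999999) 0)
(.lf (.negSucc 1109999999) 1)))
(.sy (.ofNat 7896887500)
(.sx (.ofNat 4350000000)
(.sy (.ofNat 6773281250)
(.sx (.ofNat 3875000000)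
(.lf (.negSucc 1529999999) 1)
(.lf (.negSucc 1739999999) 1))
(.lf (.negSucc 1549999999) 1))
(.sy (.ofNat 6773281250)
(.sx (.ofNat 4825000000)
(.lf (.negSucc 1839999999) 1)
(.lf (.negSucc 1789999999) 1))
(.lf (.negSucc 1509999999) 1)))
(.sx (.ofNat 4350000000)
(.sy (.ofNat 9020493750)
(.lf (.negSucc 1319999999) 1)
(.lf (.negSucc 1029999999) 0))
(.sy (.ofNat 9020493750)
(.lf (.negSucc 1109999999) 1)
(.lf (.negSucc 699999999) 0)))))))

theorem run_tr61_1P : Tr.run 1 2 (T61.C.mdA 1500) (T61.K1.shA (w2n 1500 127707020 17391)) R61 (.ofNat 1500000000) tr61_1P (.ofNat 1500000000) (.ofNat 5300000000) (.negSucc 7833599999) (.ofNat 10144100000)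
    (-100000000000) 100000000000 = true := by decide +kernel

/-- tree -/
def tr61_1N : Tr :=
(.sy (.ofNat 1155250000)
(.sx (.negSucc 4674999999)
(.sy (.negSucc 3339174999)
(.sy (.negSucc 5586387499)
(.sx (.negSucc 6262499999)
(.sy (.negSucc 6709993749)
(.lf (.negSucc 89999999) 0)
(.lf (.negSucc 359999999) 0))
(.sy (.negSucc 6709993749)
(.lf (.ofNat 130000000) 0)
(.lf (.negSucc 89999999) 0)))
(.sx (.negSucc 6262499999)
(.sy (.negSucc 4462781249)
(.lf (.negSucc 569999999) 0)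
(.lf (.negSucc 719999999) 0))
(.sy (.negSucc 4462781249)
(.lf (.negSucc 249999999) 0)
(.sx (.negSucc 5468749999)
(.lf (.negSucc 449999999) 0)
(.lf (.negSucc 299999999) 0)))))
(.sx (.negSucc 6262499999)
(.sy (.negSucc 1091962499)
(.sx (.negSucc 7056249999)
(.sy (.negSucc 2215568749)
(.lf (.negSucc 939999999) 0)
(.lf (.negSucc 1029999999) 0))
(.sy (.negSucc 2215568749)
(.lf (.negSucc 739999999) 0)
(.lf (.negSucc 819999999) 0)))
(.sx (.negSucc 7056249999)
(.sy (.ofNat 31643750)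
(.lf (.negSucc 1089999999) 0)
(.sx (.negSucc 7453124999)
(.lf (.negSucc 1199999999) 0)
(.lf (.negSucc 1089999999) 0)))
(.sy (.ofNat 31643750)
(.lf (.negSucc 879999999) 0)
(.sx (.negSucc 6659374999)
(.lf (.negSucc 979999999) 0)
(.lf (.negSucc 879999999) 0)))))
(.sy (.negSucc 1091962499)
(.sx (.negSucc 5468749999)
(.sy (.negSucc 2215568749)
(.lf (.negSucc 559999999) 0)
(.lf (.negSucc 629999999) 0))
(.sy (.negSucc 2215568749)
(.lf (.negSucc 389999999) 0)
(.lf (.negSucc 459999999) 0)))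
(.sx (.negSucc 5468749999)
(.sy (.ofNat 31643750)
(.lf (.negSucc 689999999) 0)
(.lf (.negSucc 729999999) 0))
(.sy (.ofNat 31643750)
(.lf (.negSucc 509999999) 0)
(.lf (.negSucc 549999999) 0))))))
(.sy (.negSucc 3339174999)
(.sy (.negSucc 5586387499)
(.sx (.negSucc 3087499999)
(.sy (.negSucc 6709993749)
(.lf (.ofNat 260000000) 0)
(.lf (.ofNat 110000000) 0))
(.sy (.negSucc 6709993749)
(.lf (.ofNat 290000000) 0)
(.lf (.ofNat 190000000) 0)))
(.sx (.negSucc 3087499999)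
(.sy (.negSucc 4462781249)
(.lf (.negSucc 19999999) 0)
(.sx (.negSucc 3881249999)
(.lf (.negSucc 169999999) 0)
(.lf (.negSucc 59999999) 0)))
(.sy (.negSucc 4462781249)
(.lf (.ofNat 120000000) 0)
(.sx (.negSucc 2293749999)
(.lf (.ofNat 30000000) 0)
(.lf (.ofNat 80000000) 0)))))
(.sx (.negSucc 3087499999)
(.sy (.negSucc 1091962499)
(.sx (.negSucc 3881249999)
(.sy (.negSucc 2215568749)
(.lf (.negSucc 249999999) 0)
(.lf (.negSucc 309999999) 0))
(.sy (.negSucc 2215568749)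
(.lf (.negSucc 129999999) 0)
(.lf (.negSucc 179999999) 0)))
(.sx (.negSucc 3881249999)
(.sy (.ofNat 31643750)
(.lf (.negSucc 349999999) 0)
(.sx (.negSucc 4278124999)
(.lf (.negSucc 419999999) 0)
(.lf (.negSucc 349999999) 0)))
(.sy (.ofNat 31643750)
(.sx (.negSucc 3484374999)
(.lf (.negSucc 249999999) 0)
(.lf (.negSucc 189999999) 0))
(.sx (.negSucc 3484374999)
(.lf (.negSucc 279999999) 0)
(.lf (.negSucc 219999999) 0)))))
(.sy (.negSucc 1091962499)
(.sx (.negSucc 2293749999)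
(.sy (.negSucc 2215568749)
(.lf (.negSucc 29999999) 0)
(.sx (.negSucc 2690624999)
(.lf (.negSucc 99999999) 0)
(.lf (.negSucc 49999999) 0)))
(.sy (.negSucc 2215568749)
(.lf (.ofNat 40000000) 0)
(.sx (.negSucc 1896874999)
(.lf (.negSucc 19999999) 0)
(.lf (.ofNat 10000000) 0))))
(.sx (.negSucc 2293749999)
(.sy (.ofNat 31643750)
(.sx (.negSucc 2690624999)
(.lf (.negSucc 129999999) 0)
(.lf (.negSucc 89999999) 0))
(.sx (.negSucc 2690624999)
(.lf (.negSucc 159999999) 0)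
(.lf (.negSucc 109999999) 0)))
(.sy (.ofNat 31643750)
(.sx (.negSucc 1896874999)
(.lf (.negSucc 49999999) 0)
(.sy (.negSucc 530159374)
(.lf (.negSucc 9999999) 0)
(.lf (.negSucc 29999999) 0)))
(.sx (.negSucc 1896874999)
(.lf (.negSucc 69999999) 0)
(.sy (.ofNat 593446875)
(.lf (.negSucc 39999999) 0)
(.lf (.negSucc 49999999) 0)))))))))
(.sx (.negSucc 4674999999)
(.sy (.ofNat 5649675000)
(.sx (.negSucc 6262499999)
(.sx (.negSucc 7056249999)
(.sy (.ofNat 3402462500)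
(.sx (.negSucc 7453124999)
(.sy (.ofNat 2278856250)
(.sx (.negSucc 7651562499)
(.lf (.negSucc 1259999999) 0)
(.lf (.negSucc 1199999999) 0))
(.sx (.negSucc 7651562499)
(.lf (.negSucc 1269999999) 0)
(.lf (.negSucc 1219999999) 0)))
(.sy (.ofNat 2278856250)
(.lf (.negSucc 1119999999) 0)
(.lf (.negSucc 1129999999) 0)))
(.sx (.negSucc 7453124999)
(.sy (.ofNat 4526068750)
(.sx (.negSucc 7651562499)
(.lf (.negSucc 1279999999) 0)
(.lf (.negSucc 1219999999) 0))
(.lf (.negSucc 1239999999) 0))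
(.sy (.ofNat 4526068750)
(.lf (.negSucc 1139999999) 0)
(.lf (.negSucc 1129999999) 0))))
(.sy (.ofNat 3402462500)
(.sx (.negSucc 6659374999)
(.sy (.ofNat 2278856250)
(.lf (.negSucc 1009999999) 0)
(.lf (.negSucc 1029999999) 0))
(.sy (.ofNat 2278856250)
(.lf (.negSucc 899999999) 0)
(.lf (.negSucc 919999999) 0)))
(.sx (.negSucc 6659374999)
(.sy (.ofNat 4526068750)
(.lf (.negSucc 1029999999) 0)
(.lf (.negSucc 1029999999) 0))
(.sy (.ofNat 4526068750)
(.lf (.negSucc 929999999) 0)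
(.lf (.negSucc 919999999) 0)))))
(.sy (.ofNat 3402462500)
(.sx (.negSucc 5468749999)
(.sx (.negSucc 5865624999)
(.lf (.negSucc 809999999) 0)
(.lf (.negSucc 719999999) 0))
(.sx (.negSucc 5071874999)
(.lf (.negSucc 619999999) 0)
(.lf (.negSucc 539999999) 0)))
(.sx (.negSucc 5468749999)
(.sx (.negSucc 5865624999)
(.lf (.negSucc 819999999) 0)
(.lf (.negSucc 729999999) 0))
(.sx (.negSucc 5071874999)
(.lf (.negSucc 639999999) 0)
(.lf (.negSucc 549999999) 0)))))
(.sx (.negSucc 6262499999)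
(.sy (.ofNat 7896887500)
(.sx (.negSucc 7056249999)
(.sx (.negSucc 7453124999)
(.sy (.ofNat 6773281250)
(.lf (.negSucc 1229999999) 0)
(.lf (.negSucc 1209999999) 0))
(.lf (.negSucc 1109999999) 0))
(.sy (.ofNat 6773281250)
(.lf (.negSucc 959999999) 0)
(.lf (.negSucc 949999999) 0)))
(.sx (.negSucc 7056249999)
(.lf (.negSucc 1119999999) 0)
(.lf (.negSucc 919999999) 0)))
(.sy (.ofNat 7896887500)
(.sx (.negSucc 5468749999)
(.lf (.negSucc 759999999) 0)
(.lf (.negSucc 579999999) 0))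
(.lf (.negSucc 659999999) 0))))
(.sy (.ofNat 5649675000)
(.sx (.negSucc 3087499999)
(.sy (.ofNat 3402462500)
(.sx (.negSucc 3881249999)
(.sx (.negSucc 4278124999)
(.sy (.ofNat 2278856250)
(.lf (.negSucc 449999999) 0)
(.lf (.negSucc 459999999) 0))
(.sy (.ofNat 2278856250)
(.lf (.negSucc 369999999) 0)
(.lf (.negSucc 379999999) 0)))
(.sy (.ofNat 2278856250)
(.sx (.negSucc 3484374999)
(.lf (.negSucc 299999999) 0)
(.lf (.negSucc 239999999) 0))
(.lf (.negSucc 279999999) 0)))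
(.sx (.negSucc 3881249999)
(.sy (.ofNat 4526068750)
(.lf (.negSucc 429999999) 0)
(.lf (.negSucc 429999999) 0))
(.lf (.negSucc 289999999) 0)))
(.sy (.ofNat 3402462500)
(.sx (.negSucc 2293749999)
(.sy (.ofNat 2278856250)
(.sx (.negSucc 2690624999)
(.lf (.negSucc 179999999) 0)
(.lf (.negSucc 129999999) 0))
(.lf (.negSucc 169999999) 0))
(.sy (.ofNat 2278856250)
(.sx (.negSucc 1896874999)
(.lf (.negSucc 89999999) 0)
(.lf (.negSucc 59999999) 0))
(.lf (.negSucc 99999999) 0)))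
(.sx (.negSucc 2293749999)
(.lf (.negSucc 189999999) 0)
(.lf (.negSucc 119999999) 0))))
(.sx (.negSucc 3087499999)
(.sy (.ofNat 7896887500)
(.sx (.negSucc 3881249999)
(.lf (.negSucc 429999999) 0)
(.lf (.negSucc 299999999) 0))
(.lf (.negSucc 369999999) 0))
(.sy (.ofNat 7896887500)
(.lf (.negSucc 169999999) 1)
(.lf (.negSucc 219999999) 0))))))

theorem run_tr61_1N : Tr.run 1 2 (T61.C.mdA 1500) (T61.K1.shA (w2n 1500 127707020 17391)) R61 (.ofNat 1500000000) tr61_1N (.negSucc 7849999999) (.negSucc 1499999999) (.negSucc 7833599999) (.ofNat 10144100000)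
    (-100000000000) 100000000000 = true := by decide +kernel

/-- tree -/
def br61 : Tr :=
(.lf (.ofNat 0) 0)

theorem run_br61 : Tr.runB T61.C T61.K0 (D61.bt * 1500 / 10000 + 1) R61.om br61 (-D61.m) D61.M D61.ylo D61.yhi
    (-R61.bl) R61.bh = true := by decide +kernel

end Pool.Agent.Helper30.DL
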