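import Pool.Agent.Helper30.DL.Run.C6

/-! MP_b4564f_an, all delays. Cell 6: kernel computations (generated). -/

set_option autoImplicit false
set_option maxRecDepth 100000

namespace Pool.Agent.Helper30.DL

/-- tree -/
def tr6_1A : Tr :=
(.sy (.ofNat 0)
(.sy (.negSucc 4999999999)
(.sx (.ofNat 1750000000)
(.sy (.negSucc 7499999999)
(.lf (.negSucc 4559999999) 0)
(.sx (.ofNat 875000000)
(.lf (.negSucc 10309999999) 0)
(.lf (.negSucc 4329999999) 0)))
(.sy (.negSucc 7499999999)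
(.lf (.negSucc 1919999999) 0)
(.lf (.negSucc 2579999999) 0)))
(.sx (.ofNat 1750000000)
(.sy (.negSucc 2499999999)
(.sx (.ofNat 875000000)
(.lf (.negSucc 12689999999) 0)
(.lf (.negSucc 5319999999) 0))
(.sx (.ofNat 875000000)
(.lf (.negSucc 15069999999) 0)
(.lf (.negSucc 6329999999) 0)))
(.sy (.negSucc 2499999999)
(.lf (.negSucc 3289999999) 0)
(.sx (.ofNat 2625000000)
(.lf (.negSucc 4519999999) 0)
(.lf (.negSucc 3669999999) 0)))))
(.sy (.ofNat 5000000000)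
(.sx (.ofNat 1750000000)
(.sx (.ofNat 875000000)
(.sx (.ofNat 437500000)
(.lf (.ofNat 0) 0)
(.lf (.negSucc 13259999999) 0))
(.lf (.negSucc 7879999999) 0))
(.sy (.ofNat 2500000000)
(.sx (.ofNat 2625000000)
(.lf (.negSucc 5339999999) 0)
(.lf (.negSucc 4449999999) 0))
(.sx (.ofNat 2625000000)
(.lf (.negSucc 6189999999) 0)
(.lf (.negSucc 5269999999) 0))))
(.sx (.ofNat 1750000000)
(.sx (.ofNat 875000000)
(.sx (.ofNat 437500000)
(.lf (.ofNat 0) 0)
(.lf (.negSucc 16709999999) 0))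
(.lf (.negSucc 10019999999) 0))
(.sy (.ofNat 7500000000)
(.sx (.ofNat 2625000000)
(.lf (.negSucc 7059999999) 0)
(.lf (.negSucc 6119999999) 0))
(.sx (.ofNat 2625000000)
(.lf (.negSucc 7959999999) 0)
(.lf (.negSucc 6989999999) 0))))))

theorem run_tr6_1A : Tr.run 1 0 (T6.C.mdA 2000) (T6.K1.shA (w2n 2000 1208304868 19840)) R6 (.ofNat 3500000000) tr6_1A (.ofNat 0) (.ofNat 3500000000) (.negSucc 9999999999) (.ofNat 10000000000)
    (-100000000000) 100000000000 = true := by decide +kernel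

/-- tree -/
def tr6_1AA : Tr :=
(.sy (.ofNat 0)
(.sy (.negSucc 4999999999)
(.sy (.negSucc 7499999999)
(.sx (.negSucc 1749999999)
(.lf (.negSucc 519999999) 0)
(.lf (.ofNat 1790000000) 0))
(.sx (.negSucc 1749999999)
(.lf (.negSucc 289999999) 0)
(.lf (.ofNat 2700000000) 0)))
(.sx (.negSucc 1749999999)
(.sy (.negSucc 2499999999)
(.lf (.negSucc 49999999) 0)
(.lf (.ofNat 190000000) 0))
(.sx (.negSucc 874999999)
(.lf (.ofNat 2060000000) 0)
(.lf (.ofNat 10060000000) 0))))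
(.sy (.ofNat 5000000000)
(.sx (.negSucc 1749999999)
(.sy (.ofNat 2500000000)
(.lf (.ofNat 450000000) 0)
(.lf (.ofNat 720000000) 0))
(.sx (.negSucc 874999999)
(.lf (.ofNat 3190000000) 0)
(.sx (.negSucc 437499999)
(.lf (.ofNat 8560000000) 0)
(.lf (.ofNat 0) 0))))
(.sx (.negSucc 1749999999)
(.sy (.ofNat 7500000000)
(.lf (.ofNat 1000000000) 0)
(.lf (.ofNat 1300000000) 0))
(.sx (.negSucc 874999999)
(.lf (.ofNat 4330000000) 0)
(.sx (.negSucc 437499999)
(.lf (.ofNat 11050000000) 0)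
(.lf (.ofNat 0) 0))))))

theorem run_tr6_1AA : Tr.run 1 0 (T6.C.mdA 2000) (T6.K1.shA (w2n 2000 1208304868 19840)) R6 (.ofNat 3500000000) tr6_1AA (.negSucc 3499999999) (.ofNat 0) (.negSucc 9999999999) (.ofNat 10000000000)
    (-100000000000) 100000000000 = true := by decide +kernel

/-- tree -/
def tr6_1B : Tr :=
(.sy (.ofNat 0)
(.sx (.ofNat 6030900000)
(.sy (.negSucc 4999999999)
(.sx (.ofNat 3015450000)
(.sy (.negSucc 7499999999)
(.sx (.ofNat 1507725000)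
(.lf (.ofNat 1190000000) 0)
(.lf (.negSucc 379999999) 0))
(.lf (.negSucc 339999999) 0))
(.sy (.negSucc 7499999999)
(.sy (.negSucc 8749999999)
(.sx (.ofNat 4523175000)
(.lf (.negSucc 819999999) 0)
.ou)
(.sx (.ofNat 4523175000)
(.lf (.negSucc 629999999) 0)
(.sy (.negSucc 7737927451)
.ou
(.lf (.negSucc 659999999) 0))))
(.sx (.ofNat 4523175000)
(.lf (.negSucc 449999999) 0)
(.lf (.negSucc 479999999) 0))))
(.sx (.ofNat 3015450000)
(.sy (.negSucc 2499999999)
(.lf (.negSucc 999999999) 0)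
(.lf (.negSucc 1959999999) 0))
(.sy (.negSucc 2499999999)
(.lf (.negSucc 399999999) 0)
(.lf (.negSucc 639999999) 0))))
(.sy (.negSucc 5803445588)
.ou
(.sx (.ofNat 9046350000)
(.sy (.negSucc 2901722794)
(.sy (.negSucc 4352584191)
(.lf (.negSucc 379999999) 0)
(.lf (.negSucc 299999999) 0))
(.lf (.negSucc 369999999) 0))
(.sy (.negSucc 3868963725)
.ou
(.sy (.negSucc 1934481862)
(.lf (.negSucc 259999999) 0)
(.lf (.negSucc 329999999) 0))))))
(.sx (.ofNat 6030900000)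
(.sy (.ofNat 5000000000)
(.sx (.ofNat 3015450000)
(.sy (.ofNat 2500000000)
(.lf (.negSucc 3229999999) 0)
(.sx (.ofNat 1507725000)
(.sx (.ofNat 753862500)
(.lf (.negSucc 16849999999) 0)
(.lf (.negSucc 6139999999) 0))
(.lf (.negSucc 3519999999) 0)))
(.sy (.ofNat 2500000000)
(.lf (.negSucc 1259999999) 0)
(.sy (.ofNat 3750000000)
(.lf (.negSucc 2009999999) 0)
(.sx (.ofNat 4523175000)
(.lf (.negSucc 2879999999) 0)
(.lf (.negSucc 2479999999) 0)))))
(.sx (.ofNat 3015450000)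
(.sx (.ofNat 1507725000)
(.sx (.ofNat 753862500)
(.sx (.ofNat 376931250)
(.lf (.ofNat 0) 0)
(.lf (.negSucc 16889999999) 0))
(.sy (.ofNat 7500000000)
(.lf (.negSucc 8359999999) 0)
(.lf (.negSucc 10889999999) 0)))
(.sy (.ofNat 7500000000)
(.sy (.ofNat 6250000000)
(.lf (.negSucc 4719999999) 0)
(.lf (.negSucc 5629999999) 0))
(.sx (.ofNat 2261587500)
(.lf (.negSucc 7859999999) 0)
(.sy (.ofNat 8750000000)
(.lf (.negSucc 6169999999) 0)
(.lf (.negSucc 7239999999) 0)))))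
(.sy (.ofNat 7500000000)
(.sy (.ofNat 6250000000)
(.sx (.ofNat 4523175000)
(.lf (.negSucc 3629999999) 0)
(.lf (.negSucc 3209999999) 1))
(.sx (.ofNat 4523175000)
(.sx (.ofNat 3769312500)
(.lf (.negSucc 4659999999) 0)
(.lf (.negSucc 4349999999) 0))
(.sy (.ofNat 6875000000)
(.lf (.negSucc 3799999999) 1)
(.sx (.ofNat 5277037500)
(.lf (.negSucc 4329999999) 0)
.ou))))
(.sx (.ofNat 4523175000)
(.sy (.ofNat 8750000000)
(.sx (.ofNat 3769312500)
(.lf (.negSucc 5609999999) 0)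
(.lf (.negSucc 5279999999) 0))
(.sx (.ofNat 3769312500)
(.lf (.negSucc 6649999999) 0)
(.sy (.ofNat 9285512942)
(.lf (.negSucc 5979999999) 0)
.ou)))
(.sy (.ofNat 7737927452)
(.lf (.negSucc 4479999999) 1)
.ou)))))
(.sy (.ofNat 5803445589)
(.sy (.ofNat 2901722794)
(.sx (.ofNat 9046350000)
(.sy (.ofNat 1450861397)
(.lf (.negSucc 739999999) 0)
(.lf (.negSucc 1179999999) 1))
(.sy (.ofNat 1450861397)
(.lf (.negSucc 579999999) 0)
(.lf (.negSucc 889999999) 1)))
(.sx (.ofNat 9046350000)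
(.sy (.ofNat 4352584191)
(.sx (.ofNat 7538625000)
(.lf (.negSucc 1859999999) 0)
(.lf (.negSucc 1629999999) 0))
(.sx (.ofNat 7538625000)
(.sy (.ofNat 5078014890)
(.lf (.negSucc 2389999999) 0)
(.lf (.negSucc 2739999999) 0))
(.sy (.ofNat 4642756471)
(.lf (.negSucc 1919999999) 0)
.ou)))
(.sy (.ofNat 3868963726)
(.sx (.ofNat 10554075000)
(.lf (.negSucc 1269999999) 0)
(.sy (.ofNat 3316254623)
(.lf (.negSucc 909999999) 0)
.ou))
.ou)))
.ou)))

theorem run_tr6_1B : Tr.run 1 1 (T6.C.mdA 2000) (T6.K1.shA (w2n 2000 1208304868 19840)) R6 (.ofNat 3500000000) tr6_1B (.ofNat 0) (.ofNat 12061800000) (.negSucc 9999999999) (.ofNat 10000000000)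
    (-100000000000) 100000000000 = true := by decide +kernel

/-- tree -/
def tr6_1BB : Tr :=
(.sy (.ofNat 0)
(.sy (.negSucc 4999999999)
(.sx (.negSucc 4904199999)
(.sy (.negSucc 7136739937)
.ou
(.sx (.negSucc 7356299999)
.ou
(.sy (.negSucc 6068369968)
(.lf (.ofNat 10000000) 0)
(.lf (.ofNat 70000000) 0))))
(.sy (.negSucc 7499999999)
(.sx (.negSucc 2452099999)
(.sy (.negSucc 8749999999)
(.lf (.negSucc 849999999) 0)
(.lf (.negSucc 569999999) 0))
(.sx (.negSucc 1226049999)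
(.lf (.negSucc 1539999999) 0)
(.lf (.negSucc 3539999999) 0)))
(.sx (.negSucc 2452099999)
(.lf (.negSucc 149999999) 0)
(.lf (.negSucc 369999999) 0))))
(.sx (.negSucc 4904199999)
(.sy (.negSucc 2499999999)
(.sx (.negSucc 7356299999)
(.sy (.negSucc 4757826624)
.ou
(.lf (.ofNat 120000000) 0))
(.lf (.ofNat 210000000) 0))
(.sx (.negSucc 7356299999)
(.lf (.ofNat 260000000) 0)
(.lf (.ofNat 440000000) 0)))
(.sx (.negSucc 2452099999)
(.sy (.negSucc 2499999999)
(.lf (.ofNat 380000000) 0)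
(.lf (.ofNat 800000000) 0))
(.sy (.negSucc 2499999999)
(.lf (.ofNat 1150000000) 0)
(.lf (.ofNat 2440000000) 0)))))
(.sx (.negSucc 4904199999)
(.sy (.ofNat 7136739938)
(.sy (.ofNat 3568369969)
(.sx (.negSucc 7356299999)
(.sy (.ofNat 1784184984)
(.lf (.ofNat 410000000) 0)
(.lf (.ofNat 490000000) 0))
(.sy (.ofNat 1784184984)
(.lf (.ofNat 590000000) 0)
(.lf (.ofNat 650000000) 0)))
(.sx (.negSucc 7356299999)
(.sy (.ofNat 4757826625)
(.lf (.ofNat 500000000) 0)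
.ou)
(.sy (.ofNat 5352554953)
(.lf (.ofNat 620000000) 0)
(.lf (.ofNat 520000000) 0))))
.ou)
(.sy (.ofNat 5000000000)
(.sx (.negSucc 2452099999)
(.sy (.ofNat 2500000000)
(.lf (.ofNat 1070000000) 0)
(.lf (.ofNat 1170000000) 0))
(.sx (.negSucc 1226049999)
(.sy (.ofNat 2500000000)
(.lf (.ofNat 2280000000) 0)
(.lf (.ofNat 2720000000) 0))
(.sy (.ofNat 2500000000)
(.lf (.ofNat 7190000000) 0)
(.lf (.ofNat 9260000000) 0))))
(.sx (.negSucc 2452099999)
(.sy (.ofNat 7500000000)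
(.sx (.negSucc 3678149999)
(.lf (.ofNat 860000000) 0)
(.lf (.ofNat 1430000000) 0))
(.sx (.negSucc 3678149999)
(.sy (.ofNat 9515653250)
(.lf (.ofNat 600000000) 0)
.ou)
(.lf (.ofNat 1200000000) 0)))
(.sx (.negSucc 1226049999)
(.sy (.ofNat 7500000000)
(.lf (.ofNat 2940000000) 0)
(.lf (.ofNat 2950000000) 0))
(.sx (.negSucc 613024999)
(.lf (.ofNat 7380000000) 0)
(.sx (.negSucc 306512499)
(.lf (.ofNat 16430000000) 0)
(.lf (.ofNat 0) 0))))))))

theorem run_tr6_1BB : Tr.run 1 1 (T6.C.mdA 2000) (T6.K1.shA (w2n 2000 1208304868 19840)) R6 (.ofNat 3500000000) tr6_1BB (.negSucc 9808399999) (.ofNat 0) (.negSucc 9999999999) (.ofNat 10000000000)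
    (-100000000000) 100000000000 = true := by decide +kernel

/-- tree -/
def tr6_1P : Tr :=
(.sy (.ofNat 1126700000)
(.sy (.negSucc 4340849999)
(.sy (.negSucc 7074624999)
(.sx (.ofNat 5000000000)
(.lf (.ofNat 70000000) 0)
(.lf (.ofNat 130000000) 0))
(.sx (.ofNat 5000000000)
(.sy (.negSucc 5707737499)
(.lf (.ofNat 10000000) 0)
(.lf (.negSucc 69999999) 0))
(.lf (.negSucc 19999999) 1)))
(.sy (.negSucc 1607074999)
(.sx (.ofNat 5000000000)
(.sy (.negSucc 2973962499)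
(.lf (.negSucc 179999999) 0)
(.sx (.ofNat 4250000000)
(.lf (.negSucc 269999999) 0)
(.lf (.negSucc 349999999) 0)))
(.sy (.negSucc 2973962499)
(.lf (.negSucc 239999999) 0)
(.lf (.negSucc 439999999) 0)))
(.sx (.ofNat 5000000000)
(.sy (.negSucc 240187499)
(.sx (.ofNat 4250000000)
(.lf (.negSucc 419999999) 0)
(.lf (.negSucc 529999999) 0))
(.sx (.ofNat 4250000000)
(.sy (.ofNat 443256250)
(.lf (.negSucc 539999999) 0)
(.lf (.negSucc 629999999) 0))
(.lf (.negSucc 739999999) 0)))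
(.sy (.negSucc 240187499)
(.sx (.ofNat 5750000000)
(.lf (.negSucc 629999999) 0)
(.lf (.negSucc 709999999) 0))
(.sx (.ofNat 5750000000)
(.lf (.negSucc 879999999) 0)
(.lf (.negSucc 989999999) 0))))))
(.sy (.ofNat 6594250000)
(.sy (.ofNat 3860475000)
(.sx (.ofNat 5000000000)
(.sx (.ofNat 4250000000)
(.sy (.ofNat 2493587500)
(.sx (.ofNat 3875000000)
(.lf (.negSucc 719999999) 0)
(.lf (.negSucc 809999999) 0))
(.sy (.ofNat 3177031250)
(.lf (.negSucc 899999999) 0)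
(.lf (.negSucc 989999999) 0)))
(.sy (.ofNat 2493587500)
(.sx (.ofNat 4625000000)
(.lf (.negSucc 909999999) 0)
(.lf (.negSucc 999999999) 0))
(.sx (.ofNat 4625000000)
(.lf (.negSucc 1119999999) 0)
(.lf (.negSucc 1229999999) 0))))
(.sx (.ofNat 5750000000)
(.sy (.ofNat 2493587500)
(.lf (.negSucc 1129999999) 0)
(.lf (.negSucc 1369999999) 1))
(.sy (.ofNat 2493587500)
(.lf (.negSucc 1259999999) 0)
(.lf (.negSucc 1489999999) 0))))
(.sx (.ofNat 5000000000)
(.sy (.ofNat 5227362500)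
(.sx (.ofNat 4250000000)
(.lf (.negSucc 1119999999) 0)
(.lf (.negSucc 1359999999) 1))
(.sx (.ofNat 4250000000)
(.lf (.negSucc 1259999999) 0)
(.lf (.negSucc 1479999999) 0)))
(.sy (.ofNat 5227362500)
(.sx (.ofNat 5750000000)
(.lf (.negSucc 1539999999) 0)
(.lf (.negSucc 1619999999) 0))
(.sx (.ofNat 5750000000)
(.lf (.negSucc 1619999999) 0)
(.lf (.negSucc 1619999999) 0)))))
(.sy (.ofNat 9328025000)
(.sx (.ofNat 5000000000)
(.sy (.ofNat 7961137500)
(.sx (.ofNat 4250000000)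
(.lf (.negSucc 1339999999) 0)
(.lf (.negSucc 1509999999) 0))
(.lf (.negSucc 1409999999) 0))
(.sy (.ofNat 7961137500)
(.sx (.ofNat 5750000000)
(.lf (.negSucc 1569999999) 0)
(.lf (.negSucc 1499999999) 0))
(.lf (.negSucc 1359999999) 0)))
(.sx (.ofNat 5000000000)
(.lf (.negSucc 1229999999) 0)
(.sy (.ofNat 10694912500)
(.lf (.negSucc 1079999999) 0)
(.lf (.negSucc 759999999) 0))))))

theorem run_tr6_1P : Tr.run 1 2 (T6.C.mdA 2000) (T6.K1.shA (w2n 2000 1208304868 19840)) R6 (.ofNat 3500000000) tr6_1P (.ofNat 3500000000) (.ofNat 6500000000) (.negSucc 9808399999) (.ofNat 12061800000)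
    (-100000000000) 100000000000 = true := by decide +kernel

/-- tree -/
def tr6_1N : Tr :=
(.sy (.ofNat 1126700000)
(.sy (.negSucc 4340849999)
(.sx (.negSucc 6349999999)
(.sy (.negSucc 7074624999)
(.sx (.negSucc 7774999999)
(.lf (.ofNat 10000000) 0)
(.lf (.ofNat 160000000) 0))
(.sx (.negSucc 7774999999)
(.lf (.negSucc 339999999) 0)
(.lf (.negSucc 139999999) 0)))
(.sy (.negSucc 7074624999)
(.sx (.negSucc 4924999999)
(.lf (.ofNat 280000000) 0)
(.lf (.ofNat 340000000) 0))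
(.sx (.negSucc 4924999999)
(.sy (.negSucc 5707737499)
(.lf (.ofNat 80000000) 0)
(.lf (.negSucc 19999999) 0))
(.sy (.negSucc 5707737499)
(.lf (.ofNat 190000000) 0)
(.lf (.ofNat 110000000) 0)))))
(.sx (.negSucc 6349999999)
(.sy (.negSucc 1607074999)
(.sx (.negSucc 7774999999)
(.sy (.negSucc 2973962499)
(.lf (.negSucc 499999999) 0)
(.lf (.negSucc 579999999) 0))
(.sy (.negSucc 2973962499)
(.lf (.negSucc 279999999) 0)
(.lf (.negSucc 349999999) 0)))
(.sx (.negSucc 7774999999)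
(.sy (.negSucc 240187499)
(.sx (.negSucc 8487499999)
(.lf (.negSucc 699999999) 0)
(.lf (.negSucc 579999999) 0))
(.sx (.negSucc 8487499999)
(.lf (.negSucc 749999999) 0)
(.lf (.negSucc 629999999) 0)))
(.sy (.negSucc 240187499)
(.sx (.negSucc 7062499999)
(.lf (.negSucc 469999999) 0)
(.lf (.negSucc 359999999) 0))
(.sx (.negSucc 7062499999)
(.lf (.negSucc 509999999) 0)
(.lf (.negSucc 399999999) 0)))))
(.sy (.negSucc 1607074999)
(.sx (.negSucc 4924999999)
(.sy (.negSucc 2973962499)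
(.lf (.negSucc 99999999) 0)
(.lf (.negSucc 159999999) 0))
(.sy (.negSucc 2973962499)
(.lf (.ofNat 40000000) 0)
(.sx (.negSucc 4212499999)
(.lf (.negSucc 39999999) 0)
(.lf (.ofNat 20000000) 0))))
(.sx (.negSucc 4924999999)
(.sx (.negSucc 5637499999)
(.sy (.negSucc 240187499)
(.lf (.negSucc 259999999) 0)
(.lf (.negSucc 299999999) 0))
(.sy (.negSucc 240187499)
(.lf (.negSucc 169999999) 0)
(.lf (.negSucc 209999999) 0)))
(.sy (.negSucc 240187499)
(.sx (.negSucc 4212499999)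
(.lf (.negSucc 89999999) 0)
(.lf (.negSucc 29999999) 0))
(.sx (.negSucc 4212499999)
(.lf (.negSucc 129999999) 0)
(.lf (.negSucc 69999999) 0)))))))
(.sy (.ofNat 6594250000)
(.sx (.negSucc 6349999999)
(.sx (.negSucc 7774999999)
(.sy (.ofNat 3860475000)
(.sx (.negSucc 8487499999)
(.sy (.ofNat 2493587500)
(.sx (.negSucc 8843749999)
(.lf (.negSucc 809999999) 0)
(.lf (.negSucc 749999999) 0))
(.sx (.negSucc 8843749999)
(.lf (.negSucc 829999999) 0)
(.lf (.negSucc 769999999) 0)))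
(.sy (.ofNat 2493587500)
(.lf (.negSucc 659999999) 0)
(.lf (.negSucc 689999999) 0)))
(.sx (.negSucc 8487499999)
(.sy (.ofNat 5227362500)
(.sx (.negSucc 8843749999)
(.sy (.ofNat 4543918750)
(.lf (.negSucc 849999999) 0)
(.lf (.negSucc 849999999) 0))
(.lf (.negSucc 789999999) 0))
(.sx (.negSucc 8843749999)
(.lf (.negSucc 859999999) 0)
(.lf (.negSucc 799999999) 0)))
(.sy (.ofNat 5227362500)
(.lf (.negSucc 699999999) 0)
(.lf (.negSucc 719999999) 0))))
(.sy (.ofNat 3860475000)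
(.sx (.negSucc 7062499999)
(.sy (.ofNat 2493587500)
(.lf (.negSucc 539999999) 0)
(.lf (.negSucc 569999999) 0))
(.sy (.ofNat 2493587500)
(.lf (.negSucc 439999999) 0)
(.lf (.negSucc 459999999) 0)))
(.sx (.negSucc 7062499999)
(.sy (.ofNat 5227362500)
(.lf (.negSucc 589999999) 0)
(.lf (.negSucc 609999999) 0))
(.sy (.ofNat 5227362500)
(.lf (.negSucc 479999999) 0)
(.lf (.negSucc 499999999) 0)))))
(.sy (.ofNat 3860475000)
(.sx (.negSucc 4924999999)
(.sx (.negSucc 5637499999)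
(.sy (.ofNat 2493587500)
(.lf (.negSucc 329999999) 0)
(.lf (.negSucc 359999999) 0))
(.sy (.ofNat 2493587500)
(.lf (.negSucc 239999999) 0)
(.lf (.negSucc 269999999) 0)))
(.sx (.negSucc 4212499999)
(.sy (.ofNat 2493587500)
(.lf (.negSucc 159999999) 0)
(.lf (.negSucc 189999999) 0))
(.sy (.ofNat 2493587500)
(.lf (.negSucc 99999999) 0)
(.lf (.negSucc 129999999) 0))))
(.sx (.negSucc 4924999999)
(.sy (.ofNat 5227362500)
(.sx (.negSucc 5637499999)
(.lf (.negSucc 379999999) 0)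
(.lf (.negSucc 289999999) 0))
(.lf (.negSucc 359999999) 0))
(.sy (.ofNat 5227362500)
(.lf (.negSucc 179999999) 0)
(.lf (.negSucc 209999999) 0)))))
(.sx (.negSucc 6349999999)
(.sy (.ofNat 9328025000)
(.sx (.negSucc 7774999999)
(.sy (.ofNat 7961137500)
(.sx (.negSucc 8487499999)
(.lf (.negSucc 829999999) 0)
(.lf (.negSucc 719999999) 0))
(.lf (.negSucc 779999999) 0))
(.sy (.ofNat 7961137500)
(.lf (.negSucc 569999999) 0)
(.lf (.negSucc 579999999) 0)))
(.sx (.negSucc 7774999999)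
(.sy (.ofNat 10694912500)
(.lf (.negSucc 779999999) 0)
(.lf (.negSucc 789999999) 0))
(.lf (.negSucc 599999999) 0)))
(.sy (.ofNat 9328025000)
(.sx (.negSucc 4924999999)
(.lf (.negSucc 389999999) 0)
(.lf (.negSucc 249999999) 0))
(.sx (.negSucc 4924999999)
(.lf (.negSucc 439999999) 0)
(.lf (.negSucc 329999999) 0))))))

theorem run_tr6_1N : Tr.run 1 2 (T6.C.mdA 2000) (T6.K1.shA (w2n 2000 1208304868 19840)) R6 (.ofNat 3500000000) tr6_1N (.negSucc 9199999999) (.negSucc 3499999999) (.negSucc 9808399999) (.ofNat 12061800000)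
    (-100000000000) 100000000000 = true := by decide +kernel

/-- tree -/
def br6 : Tr :=
(.sy (.ofNat 1126700000)
(.sz (.negSucc 202449999)
(.sy (.negSucc 4340849999)
(.sx (.negSucc 1349999999)
(.lf (.ofNat 0) 0)
(.lf (.ofNat 0) 0))
(.sx (.negSucc 1349999999)
(.lf (.ofNat 0) 0)
(.lf (.ofNat 0) 0)))
(.sy (.negSucc 4340849999)
(.sx (.negSucc 1349999999)
(.lf (.ofNat 0) 0)
(.lf (.ofNat 0) 0))
(.sx (.negSucc 1349999999)
(.lf (.ofNat 0) 0)
(.lf (.ofNat 0) 0))))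
(.sz (.negSucc 202449999)
(.sy (.ofNat 6594250000)
(.lf (.ofNat 0) 0)
(.lf (.ofNat 0) 0))
(.lf (.ofNat 0) 0)))

theorem run_br6 : Tr.runB T6.C T6.K0 (D6.bt * 2000 / 10000 + 1) R6.om br6 (-D6.m) D6.M D6.ylo D6.yhi
    (-R6.bl) R6.bh = true := by decide +kernel

end Pool.Agent.Helper30.DL
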